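import Mathlib

/-!
Lattices of exponent vectors: a finite order element of a torus of large order lies in a
one-parameter subgroup satisfying the same relations of small degree.
-/

set_option autoImplicit false

namespace Pool.Agent.TH189.Aut

open Finset

/-- interpolation -/
theorem sum_zero_of_pow {K : Type} [Field K] {ι : Type} (s : Finset ι) (a χ τ : ι → K)
    (h : ∀ j : ℕ, ∑ i ∈ s, a i * χ i ^ j = 0)
    (hτ : ∀ i ∈ s, ∀ i' ∈ s, χ i = χ i' → τ i = τ i') : ∑ i ∈ s, a i * τ i = 0 := by
  classical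
  have h1 : ∀ q : Polynomial K, ∑ i ∈ s, a i * q.eval (χ i) = 0 := by
    intro q
    induction q using Polynomial.induction_on' with
    | add p q hp hq =>
      simp only [Polynomial.eval_add, mul_add, Finset.sum_add_distrib, hp, hq, add_zero]
    | monomial n c =>
      simp only [Polynomial.eval_monomial]
      have h2 : ∀ i ∈ s, a i * (c * χ i ^ n) = c * (a i * χ i ^ n) := fun i _ => by ring
      rw [Finset.sum_congr rfl h2, ← Finset.mul_sum, h, mul_zero]
  let r : K → K := fun y => if hy : ∃ i ∈ s, χ i = y then τ hy.choose else 0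
  have hr : ∀ i ∈ s, r (χ i) = τ i := by
    intro i hi
    have hy : ∃ i' ∈ s, χ i' = χ i := ⟨i, hi, rfl⟩
    show (if hy : ∃ i' ∈ s, χ i' = χ i then τ hy.choose else 0) = τ i
    rw [dif_pos hy]
    exact hτ _ hy.choose_spec.1 _ hi hy.choose_spec.2
  have h2 := h1 (Lagrange.interpolate (s.image χ) id r)
  rw [← h2]
  refine Finset.sum_congr rfl fun i hi => ?_
  have h3 := Lagrange.eval_interpolate_at_node (s := s.image χ) (v := id) r
    (Function.injective_id.injOn) (Finset.mem_image_of_mem χ hi)
  rw [id] at h3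
  rw [h3, hr i hi]

/-- a bound for the determinant -/
theorem abs_det_le {ι : Type} [Fintype ι] [DecidableEq ι] (M : Matrix ι ι ℤ) :
    |M.det| ≤ ∏ i, ∑ j, |M i j| := by
  rw [← Matrix.det_transpose, Matrix.det_apply]
  refine (Finset.abs_sum_le_sum_abs _ _).trans ?_
  have h1 : ∀ s : Equiv.Perm ι, |Equiv.Perm.sign s • ∏ i, M.transpose (s i) i| =
      ∏ i, |M i (s i)| := by
    intro s
    rw [Units.smul_def, zsmul_eq_mul, abs_mul, Finset.abs_prod]
    have : |((Equiv.Perm.sign s : ℤˣ) : ℤ)| = 1 := by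
      rcases Int.units_eq_one_or (Equiv.Perm.sign s) with h | h <;> rw [h] <;> simp
    rw [Int.cast_id, this, one_mul]
    rfl
  rw [Finset.sum_congr rfl fun s _ => h1 s, Finset.prod_univ_sum]
  have h2 : ∑ s : Equiv.Perm ι, ∏ i, |M i (s i)| =
      ∑ f ∈ Finset.univ.image (fun s : Equiv.Perm ι => (s : ι → ι)), ∏ i, |M i (f i)| := by
    rw [Finset.sum_image]
    intro s _ t _ h
    exact Equiv.coe_fn_injective h
  rw [h2]
  refine Finset.sum_le_sum_of_subset_of_nonneg ?_ fun f _ _ =>
    Finset.prod_nonneg fun i _ => abs_nonneg _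
  intro f _
  rw [Fintype.mem_piFinset]
  exact fun i => Finset.mem_univ _

section lattice

variable {ι : Type} [Fintype ι] [DecidableEq ι]

/-- a vector orthogonal to a family of small rank -/
theorem exists_weight (D : Set (ι → ℤ))
    (hrank : Module.finrank ℚ (Submodule.span ℚ ((fun v : ι → ℤ => fun i => (v i : ℚ)) '' D)) + 1 <
      Fintype.card ι) :
    ∃ w : ι → ℤ, (∀ v ∈ D, ∑ i, w i * v i = 0) ∧ ∃ i j, w i ≠ w j := by
  set W := Submodule.span ℚ ((fun v : ι → ℤ => fun i => (v i : ℚ)) '' D) with hW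
  -- the orthogonal complement
  let f : (ι → ℚ) →ₗ[ℚ] Module.Dual ℚ W :=
    { toFun := fun w =>
        { toFun := fun v => ∑ i, w i * (v : ι → ℚ) i
          map_add' := fun u v => by
            simp only [Submodule.coe_add, Pi.add_apply, mul_add, Finset.sum_add_distrib]
          map_smul' := fun c v => by
            simp only [Submodule.coe_smul, Pi.smul_apply, smul_eq_mul, RingHom.id_apply,
              Finset.mul_sum]
            refine Finset.sum_congr rfl fun i _ => by ring }
      map_add' := fun u v => by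
        ext x
        simp only [LinearMap.coe_mk, AddHom.coe_mk, LinearMap.add_apply, Pi.add_apply, add_mul,
          Finset.sum_add_distrib]
      map_smul' := fun c v => by
        ext x
        simp only [LinearMap.coe_mk, AddHom.coe_mk, LinearMap.smul_apply, Pi.smul_apply,
          smul_eq_mul, RingHom.id_apply, Finset.mul_sum]
        refine Finset.sum_congr rfl fun i _ => by ring }
  have h1 := LinearMap.finrank_range_add_finrank_ker f
  have h2 : Module.finrank ℚ (LinearMap.range f) ≤ Module.finrank ℚ W := by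
    refine (Submodule.finrank_le _).trans ?_
    rw [Subspace.dual_finrank_eq]
  rw [Module.finrank_fintype_fun_eq_card] at h1
  have h3 : ¬ LinearMap.ker f ≤ Submodule.span ℚ {(fun _ => 1 : ι → ℚ)} := by
    intro h
    have h4 := Submodule.finrank_mono h
    have h5 := finrank_span_le_card (R := ℚ) ({(fun _ => 1 : ι → ℚ)} : Set (ι → ℚ))
    simp only [Set.toFinset_singleton, Finset.card_singleton] at h5
    omega
  obtain ⟨w, hw, hw1⟩ := Set.not_subset.1 h3
  obtain ⟨b, hb⟩ := IsLocalization.exist_integer_multiples_of_finite (nonZeroDivisors ℤ) w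
  choose w' hw' using hb
  have hb0 : ((b : ℤ) : ℚ) ≠ 0 := by
    have := nonZeroDivisors.coe_ne_zero b
    exact_mod_cast this
  have hw'' : ∀ i, (w' i : ℚ) = (b : ℤ) * w i := by
    intro i
    have h6 := hw' i
    rw [Algebra.smul_def] at h6
    exact h6
  refine ⟨w', fun v hv => ?_, ?_⟩
  · have h6 : f w ⟨fun i => (v i : ℚ), Submodule.subset_span ⟨v, hv, rfl⟩⟩ = 0 := by
      have h7 := LinearMap.mem_ker.1 hw
      rw [h7]
      rfl
    have h7 : ∑ i, w i * (v i : ℚ) = 0 := h6
    have h8 : ((∑ i, w' i * v i : ℤ) : ℚ) = 0 := by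
      push_cast
      rw [Finset.sum_congr rfl fun i _ => by rw [hw'' i, mul_assoc], ← Finset.mul_sum, h7, mul_zero]
    exact_mod_cast h8
  · by_contra hcon
    push Not at hcon
    apply hw1
    rcases isEmpty_or_nonempty ι with hι | ⟨⟨i0⟩⟩
    · have : w = 0 := funext fun i => (hι.false i).elim
      rw [this]
      exact Submodule.zero_mem _
    rw [SetLike.mem_coe, Submodule.mem_span_singleton]
    refine ⟨w i0, funext fun i => ?_⟩
    rw [Pi.smul_apply, smul_eq_mul, mul_one]
    have h6 : (w' i : ℚ) = w' i0 := by rw [hcon i i0]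
    rw [hw'', hw''] at h6
    exact (mul_left_cancel₀ hb0 h6).symm

theorem sum_coord (a : ι → ℤ) (v : ι → ι → ℤ) (i0 : ι) (hv0 : v i0 = Pi.single i0 1)
    (hv : ∀ i, i ≠ i0 → ∑ k, v i k = 0) : ∑ k, (∑ i, a i • v i) k = a i0 := by
  simp only [Finset.sum_apply, Pi.smul_apply, smul_eq_mul]
  rw [Finset.sum_comm, Finset.sum_eq_single i0]
  · rw [← Finset.mul_sum, hv0]
    simp
  · intro i _ hi
    rw [← Finset.mul_sum, hv i hi, mul_zero]
  · intro h
    exact absurd (Finset.mem_univ _) h

/-- large rank: a relation for the differences of the coordinates -/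
theorem exists_relation (D : Set (ι → ℤ)) (hD : ∀ v ∈ D, ∑ i, v i = 0) (i0 : ι) (b : ℕ)
    (hb : ∀ v ∈ D, ∑ i, |v i| ≤ b)
    (hrank : Fintype.card ι ≤
      Module.finrank ℚ (Submodule.span ℚ ((fun v : ι → ℤ => fun i => (v i : ℚ)) '' D)) + 1) :
    ∃ m : ℕ, 0 < m ∧ m ≤ b ^ (Fintype.card ι - 1) ∧
      ∀ j, ∃ (T : Finset ι) (c : ι → ℤ) (v : ι → ι → ℤ), (∀ t ∈ T, v t ∈ D) ∧
        (m : ℤ) • (Pi.single j 1 - Pi.single i0 1 : ι → ℤ) = ∑ t ∈ T, c t • v t := by
  classical
  set g : (ι → ℤ) → (ι → ℚ) := fun v => fun i => (v i : ℚ) with hg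
  obtain ⟨B, hBD, hBs, hBi⟩ := exists_linearIndependent ℚ (g '' D)
  rw [← hBs] at hrank
  haveI : Finite B := hBi.finite
  haveI := Fintype.ofFinite B
  have hcard : Module.finrank ℚ (Submodule.span ℚ B) = Fintype.card B := by
    have := finrank_span_eq_card hBi
    rwa [Subtype.range_coe] at this
  rw [hcard] at hrank
  have hle : Fintype.card {i // i ≠ i0} ≤ Fintype.card B := by
    rw [Fintype.card_subtype_compl, Fintype.card_subtype_eq]
    omega
  obtain ⟨φ⟩ := Function.Embedding.nonempty_of_card_le hle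
  have hch : ∀ x : B, ∃ v ∈ D, g v = x := fun x => hBD x.2
  choose u hu hgu using hch
  set v : ι → ι → ℤ := fun i => if h : i ≠ i0 then u (φ ⟨i, h⟩) else Pi.single i0 1 with hv
  have hv1 : ∀ i (h : i ≠ i0), v i = u (φ ⟨i, h⟩) := fun i h => by rw [hv]; exact dif_pos h
  have hv0 : v i0 = Pi.single i0 1 := by rw [hv]; exact dif_neg (fun h => h rfl)
  have hvD : ∀ i, i ≠ i0 → v i ∈ D := fun i h => by rw [hv1 i h]; exact hu _
  set M : Matrix ι ι ℤ := Matrix.of v with hM
  have hMi : ∀ i, M i = v i := fun i => rfl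
  have hdet : M.det ≠ 0 := by
    intro h0
    obtain ⟨c, hc0, hc⟩ := Matrix.exists_vecMul_eq_zero_iff.2 h0
    have hc' : ∑ i, c i • v i = 0 := by
      funext j
      have := congrFun hc j
      rw [Finset.sum_apply]
      exact this
    have h1 : c i0 = 0 := by
      have h2 := sum_coord c v i0 hv0 (fun i hi => hD _ (hvD i hi))
      rw [← h2, hc']
      simp
    have h2 : ∑ i : {i // i ≠ i0}, c i • v i = 0 := by
      rw [← hc', ← Fintype.sum_subtype_add_sum_subtype (fun i => i ≠ i0) (fun i => c i • v i)]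
      have h3 : ∑ i : {i // ¬ i ≠ i0}, c i • v i = 0 := by
        refine Finset.sum_eq_zero fun i _ => ?_
        have : (i : ι) = i0 := not_not.1 i.2
        rw [this, h1, zero_smul]
      rw [h3, add_zero]
    have h4 : LinearIndependent ℚ fun i : {i // i ≠ i0} => ((φ i : B) : ι → ℚ) :=
      hBi.comp φ φ.injective
    have h5 := Fintype.linearIndependent_iff.1 h4 (fun i => (c i : ℚ)) (by
      have h6 := congrArg g h2
      have h7 : g 0 = 0 := by funext i; exact Int.cast_zero
      rw [h7] at h6
      rw [← h6]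
      funext j
      simp only [hg, Finset.sum_apply, Pi.smul_apply, smul_eq_mul, Int.cast_sum, Int.cast_mul]
      refine Finset.sum_congr rfl fun i _ => ?_
      rw [hv1 i i.2]
      have h8 := congrFun (hgu (φ i)) j
      rw [← h8])
    apply hc0
    funext i
    by_cases hi : i = i0
    · rw [hi, h1]; rfl
    · exact_mod_cast h5 ⟨i, hi⟩
  have hadj : ∀ j, M.det • (Pi.single j 1 : ι → ℤ) = ∑ i, M.adjugate j i • v i := by
    intro j
    have h1 := congrFun (Matrix.adjugate_mul M) j
    funext k
    have h2 := congrFun h1 k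
    rw [Matrix.mul_apply] at h2
    rw [Finset.sum_apply, Pi.smul_apply, smul_eq_mul]
    simp only [Pi.smul_apply, smul_eq_mul]
    have h3 : (M.det • (1 : Matrix ι ι ℤ)) j k = M.det * (Pi.single j 1 : ι → ℤ) k := by
      rw [Matrix.smul_apply, smul_eq_mul, Matrix.one_apply, Pi.single_apply]
      congr 1
      simp only [eq_comm]
    rw [← h3, ← h2]
    rfl
  have hadj0 : ∀ j, M.adjugate j i0 = M.det := by
    intro j
    have h2 := sum_coord (fun i => M.adjugate j i) v i0 hv0 (fun i hi => hD _ (hvD i hi))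
    rw [← hadj j] at h2
    have h3 : ∑ k, (M.det • (Pi.single j 1 : ι → ℤ)) k = M.det := by
      simp only [Pi.smul_apply, smul_eq_mul]
      rw [← Finset.mul_sum]
      simp
    rw [h3] at h2
    exact h2.symm
  refine ⟨M.det.natAbs, Int.natAbs_pos.2 hdet, ?_, fun j => ?_⟩
  · have h1 := abs_det_le M
    rw [← Finset.mul_prod_erase Finset.univ _ (Finset.mem_univ i0)] at h1
    have h2 : ∑ j, |M i0 j| = 1 := by
      have : ∀ j, |M i0 j| = if j = i0 then 1 else 0 := by
        intro j
        rw [hMi, hv0, Pi.single_apply]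
        split_ifs <;> simp
      rw [Finset.sum_congr rfl fun j _ => this j, Finset.sum_ite_eq' Finset.univ i0]
      simp
    rw [h2, one_mul] at h1
    have h3 : ∏ i ∈ Finset.univ.erase i0, ∑ j, |M i j| ≤
        ∏ i ∈ Finset.univ.erase i0, (b : ℤ) := by
      refine Finset.prod_le_prod (fun i _ => Finset.sum_nonneg fun j _ => abs_nonneg _) ?_
      intro i hi
      rw [hMi]
      exact hb _ (hvD i (Finset.ne_of_mem_erase hi))
    rw [Finset.prod_const, Finset.card_erase_of_mem (Finset.mem_univ _), Finset.card_univ] at h3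
    have h4 := h1.trans h3
    rw [Int.abs_eq_natAbs] at h4
    exact_mod_cast h4
  · refine ⟨Finset.univ.erase i0, fun i => M.det.sign * (M.adjugate j i - M.adjugate i0 i), v,
      fun t ht => hvD t (Finset.ne_of_mem_erase ht), ?_⟩
    have h1 : ((M.det.natAbs : ℕ) : ℤ) = M.det.sign * M.det := by
      rw [← Int.abs_eq_natAbs, Int.sign_mul_self_eq_abs]
    have h2 : M.det • (Pi.single j 1 - Pi.single i0 1 : ι → ℤ) =
        ∑ t ∈ Finset.univ.erase i0, (M.adjugate j t - M.adjugate i0 t) • v t := by
      rw [smul_sub, hadj, hadj, ← Finset.sum_sub_distrib,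
        ← Finset.add_sum_erase Finset.univ _ (Finset.mem_univ i0), hadj0, hadj0, sub_self, zero_add]
      refine Finset.sum_congr rfl fun t _ => ?_
      rw [sub_smul]
    rw [h1, mul_smul, h2, Finset.smul_sum]
    refine Finset.sum_congr rfl fun t ht => ?_
    rw [← mul_smul]

end lattice

end Pool.Agent.TH189.Aut
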