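import Pool.Agent.TH189.Aut5
import Pool.Agent.TH189.Aut6
import Pool.Agent.H929R2.Hart.Main1

/-!
A diagonal automorphism with eigenvalue ratios of large order.
-/

set_option autoImplicit false

namespace Pool.Agent.TH189.Aut

open Module MvPolynomial Pool.Agent.H929R2.Hart

variable {σ : Type} [Fintype σ] [DecidableEq σ] {I : Ideal (MvPolynomial σ ℂ)}

theorem pres_coord (hom : ∀ F ∈ I, ∀ d, homogeneousComponent d F ∈ I) (d : ℕ)
    (hcut : ∀ x, (∀ F ∈ I, F.totalDegree ≤ d → eval x F = 0) → x ∈ cone I)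
    (μ : σ → ℂ) (hst : ∀ x ∈ cone I, (fun i => μ i * x i) ∈ cone I)
    (τ : σ → ℂ) (hτ : ∀ u u' : σ →₀ ℕ, u.degree = u'.degree → u.degree ≤ d →
      ∏ i, μ i ^ u i = ∏ i, μ i ^ u' i → ∏ i, τ i ^ u i = ∏ i, τ i ^ u' i) :
    ∀ x ∈ cone I, (fun i => τ i * x i) ∈ cone I := by
  classical
  have hpow : ∀ (k : ℕ), ∀ x ∈ cone I, (fun i => μ i ^ k * x i) ∈ cone I := by
    intro k
    induction k with
    | zero => intro x hx; simpa using hx
    | succ k ih =>
      intro x hx
      have h1 := hst _ (ih x hx)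
      have h2 : (fun i => μ i * (μ i ^ k * x i)) = fun i => μ i ^ (k + 1) * x i := by
        funext i; rw [pow_succ]; ring
      rwa [h2] at h1
  intro x hx
  have key : ∀ (F : MvPolynomial σ ℂ) (e : ℕ), F ∈ I → F.IsHomogeneous e → e ≤ d →
      eval (fun i => τ i * x i) F = 0 := by
    intro F e hF hG hed
    have h1 := sum_zero_of_pow (K := ℂ) F.support (fun u => coeff u F * ∏ i, x i ^ u i)
      (fun u => ∏ i, μ i ^ u i) (fun u => ∏ i, τ i ^ u i) (fun k => by
        have h2 := hpow k x hx F hF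
        rw [eval_eq'] at h2
        rw [← h2]
        refine Finset.sum_congr rfl fun u _ => ?_
        rw [mul_assoc, ← Finset.prod_pow, ← Finset.prod_mul_distrib]
        congr 1
        refine Finset.prod_congr rfl fun i _ => ?_
        rw [mul_pow, ← pow_mul, ← pow_mul, Nat.mul_comm k, mul_comm]) (fun u hu u' hu' heq => by
        have d1 : u.degree = e := by
          rw [Finsupp.degree_eq_weight_one]
          exact hG (mem_support_iff.1 hu)
        have d2 : u'.degree = e := by
          rw [Finsupp.degree_eq_weight_one]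
          exact hG (mem_support_iff.1 hu')
        exact hτ u u' (d1.trans d2.symm) (d1.trans_le hed) heq)
    rw [eval_eq']
    rw [← h1]
    refine Finset.sum_congr rfl fun u _ => ?_
    rw [mul_assoc, ← Finset.prod_mul_distrib]
    congr 1
    refine Finset.prod_congr rfl fun i _ => ?_
    rw [mul_pow, mul_comm]
  apply hcut
  intro F hF hFd
  rw [← sum_homogeneousComponent F, map_sum]
  refine Finset.sum_eq_zero fun e he => ?_
  refine key _ e (hom F hF e) (homogeneousComponent_isHomogeneous e F) ?_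
  rw [Finset.mem_range] at he
  omega

/-- the one-parameter group with distinct weights -/
theorem exists_distinct (hom : ∀ F ∈ I, ∀ d, homogeneousComponent d F ∈ I) (d : ℕ) (hd : 1 ≤ d)
    (hcut : ∀ x, (∀ F ∈ I, F.totalDegree ≤ d → eval x F = 0) → x ∈ cone I)
    (μ : σ → ℂ) (hμ : ∀ i, μ i ≠ 0) (hst : ∀ x ∈ cone I, (fun i => μ i * x i) ∈ cone I)
    (hord : ∀ i j, i ≠ j → ∀ m : ℕ, 0 < m → m ≤ (2 * d) ^ (Fintype.card σ - 1) →
      μ i ^ m ≠ μ j ^ m) [Nonempty σ] :
    ∃ w : σ → ℤ, Function.Injective w ∧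
      ∀ t : ℂ, t ≠ 0 → ∀ x ∈ cone I, (fun i => t ^ w i * x i) ∈ cone I := by
  obtain ⟨w, hw, hinj⟩ := exists_weight_inj (rel d μ) (by
    intro i j hij hmem
    obtain ⟨m, hm, hmM, T, c, v, hT, heq⟩ := exists_multiple (rel d μ) (fun v hv => rel_sum hv)
      (2 * d) (by omega) (fun v hv => rel_abs hv) _ hmem
    refine hord i j hij m hm hmM ?_
    -- the character `v ↦ μ^v`
    have hadd : ∀ a a' : σ → ℤ, ∏ i, μ i ^ (a + a') i = (∏ i, μ i ^ a i) * ∏ i, μ i ^ a' i := by
      intro a a'
      rw [← Finset.prod_mul_distrib]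
      refine Finset.prod_congr rfl fun i _ => ?_
      rw [Pi.add_apply, zpow_add₀ (hμ i)]
    have hsmul : ∀ (z : ℤ) (a : σ → ℤ), ∏ i, μ i ^ (z • a) i = (∏ i, μ i ^ a i) ^ z := by
      intro z a
      rw [← Finset.prod_zpow]
      refine Finset.prod_congr rfl fun i _ => ?_
      rw [Pi.smul_apply, smul_eq_mul, mul_comm, zpow_mul]
    have hsum : ∀ T : Finset σ, (∀ t ∈ T, v t ∈ rel d μ) →
        ∏ i, μ i ^ (∑ t ∈ T, c t • v t) i = 1 := by
      intro T
      induction T using Finset.induction_on with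
      | empty => intro _; simp
      | insert t T ht ih =>
        intro hT
        rw [Finset.sum_insert ht, hadd, hsmul, rel_prod hμ (hT t (Finset.mem_insert_self _ _)),
          one_zpow, one_mul]
        exact ih fun t' ht' => hT t' (Finset.mem_insert_of_mem ht')
    have h1 := hsum T hT
    rw [← heq, hsmul] at h1
    have h2 : ∏ k, μ k ^ ((Pi.single i 1 - Pi.single j 1 : σ → ℤ) k) = μ i / μ j := by
      have h3 := hadd (Pi.single i 1) (-Pi.single j 1)
      rw [← sub_eq_add_neg] at h3
      rw [h3, Finset.prod_eq_single i, Finset.prod_eq_single j]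
      · simp [div_eq_mul_inv]
      · intro k _ hk
        simp [Pi.single_apply, hk]
      · intro h; exact absurd (Finset.mem_univ _) h
      · intro k _ hk
        simp [Pi.single_apply, hk]
      · intro h; exact absurd (Finset.mem_univ _) h
    rw [h2, zpow_natCast, div_pow] at h1
    exact (div_eq_one_iff_eq (pow_ne_zero _ (hμ j))).1 h1)
  exact ⟨w, hinj, fun t ht => pres_coord hom d hcut μ hst _ (weight_rel w hw t ht)⟩

end Pool.Agent.TH189.Aut
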