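import Pool.Agent.TH189.Kr15

/-!
Sums of commuting matrices.
-/

namespace Pool.Agent.TH189.Kr

open MvPolynomial Module Pool.Agent.H530R2

section vec

variable {Ω V J : Type} [Field Ω] [IsAlgClosed Ω] [AddCommGroup V] [Module Ω V]
  [FiniteDimensional Ω V]

theorem common_vec (f : J → Module.End Ω V) (S : Finset J) :
    (∀ i ∈ S, ∀ j ∈ S, Commute (f i) (f j)) →
    ∀ E : Submodule Ω V, E ≠ ⊥ → (∀ i ∈ S, ∀ v ∈ E, f i v ∈ E) →
    ∃ v ∈ E, v ≠ 0 ∧ ∃ χ : J → Ω, ∀ i ∈ S, f i v = χ i • v := by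
  classical
  induction S using Finset.induction_on with
  | empty =>
    intro _ E hE _
    obtain ⟨v, hv, hv0⟩ := Submodule.exists_mem_ne_zero_of_ne_bot hE
    exact ⟨v, hv, hv0, fun _ => 0, by simp⟩
  | insert i S hi ih =>
    intro hc E hE hst
    haveI : Nontrivial E := Submodule.nontrivial_iff_ne_bot.2 hE
    have hiE : ∀ v ∈ E, f i v ∈ E := hst i (Finset.mem_insert_self _ _)
    obtain ⟨μ, hμ⟩ := Module.End.exists_eigenvalue ((f i).restrict hiE)
    obtain ⟨v0, hv0⟩ := hμ.exists_hasEigenvector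
    have h1 : f i (v0 : V) = μ • (v0 : V) := by
      have := hv0.apply_eq_smul
      exact congrArg Subtype.val this
    let E' : Submodule Ω V := E ⊓ Module.End.eigenspace (f i) μ
    have hE' : E' ≠ ⊥ := by
      intro h
      have h2 : (v0 : V) ∈ E' := ⟨v0.2, Module.End.mem_eigenspace_iff.2 h1⟩
      rw [h, Submodule.mem_bot] at h2
      exact hv0.2 (Subtype.ext h2)
    obtain ⟨v, hv, hvne, χ, hχ⟩ := ih (fun j hj k hk => hc j (Finset.mem_insert_of_mem hj) k
      (Finset.mem_insert_of_mem hk)) E' hE' (fun j hj v hv => by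
        refine ⟨hst j (Finset.mem_insert_of_mem hj) v hv.1, Module.End.mem_eigenspace_iff.2 ?_⟩
        have h3 : f i (f j v) = f j (f i v) := LinearMap.congr_fun
          (hc i (Finset.mem_insert_self _ _) j (Finset.mem_insert_of_mem hj)) v
        rw [h3, Module.End.mem_eigenspace_iff.1 hv.2, map_smul])
    refine ⟨v, hv.1, hvne, Function.update χ i μ, fun j hj => ?_⟩
    rcases Finset.mem_insert.1 hj with rfl | h
    · rw [Function.update_self]
      exact Module.End.mem_eigenspace_iff.1 hv.2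
    · have hji : j ≠ i := fun he => hi (by rw [← he]; exact h)
      rw [Function.update_of_ne hji]
      exact hχ j h

end vec

variable {K : Type} [Field K] {n : ℕ} {ι J : Type} [Fintype ι] [DecidableEq ι]

/-- the action over the closure -/
noncomputable def act : Matrix ι ι (MvPolynomial (Fin n) K) →+* Module.End (Om K n) (ι → Om K n) :=
  (Matrix.toLinAlgEquiv' (R := Om K n) (n := ι)).toRingEquiv.toRingHom.comp
    (algebraMap (MvPolynomial (Fin n) K) (Om K n)).mapMatrix

theorem act_apply (Y : Matrix ι ι (MvPolynomial (Fin n) K)) :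
    act Y = Matrix.toLin' (Y.map (algebraMap (MvPolynomial (Fin n) K) (Om K n))) := rfl

theorem act_alg (r : MvPolynomial (Fin n) K) :
    act (algebraMap (MvPolynomial (Fin n) K) (Matrix ι ι (MvPolynomial (Fin n) K)) r) =
    algebraMap (Om K n) (Module.End (Om K n) (ι → Om K n))
      (algebraMap (MvPolynomial (Fin n) K) (Om K n) r) := by
  rw [act_apply]
  apply LinearMap.ext
  intro v
  have h1 : (algebraMap (MvPolynomial (Fin n) K) (Matrix ι ι (MvPolynomial (Fin n) K)) r).map
      (algebraMap (MvPolynomial (Fin n) K) (Om K n)) =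
      algebraMap (MvPolynomial (Fin n) K) (Om K n) r • (1 : Matrix ι ι (Om K n)) := by
    ext i j
    rw [Matrix.map_apply, Matrix.algebraMap_matrix_apply, Matrix.smul_apply, Matrix.one_apply]
    split_ifs <;> simp
  rw [h1, map_smul, Matrix.toLin'_one]
  rfl

/-- **Sums of commuting matrices of small degree.** -/
theorem seig_sum (m w : ℕ) (S : Finset J) (Y : J → Matrix ι ι (MvPolynomial (Fin n) K))
    (hc : ∀ i ∈ S, ∀ j ∈ S, Commute (Y i) (Y j))
    (hχ : ∀ i ∈ S, ∃ χ : Polynomial (MvPolynomial (Fin n) K), χ.Monic ∧ χ.natDegree ≤ m ∧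
      (∀ j, (χ.coeff j).totalDegree ≤ w * (χ.natDegree - j)) ∧ Polynomial.aeval (Y i) χ = 0) :
    SEig m w (∑ i ∈ S, Y i) := by
  classical
  intro u hu
  let f : J → Module.End (Om K n) (ι → Om K n) := fun i => act (Y i)
  have hsum : act (∑ i ∈ S, Y i) = ∑ i ∈ S, f i := map_sum _ _ _
  have h1 : (act (∑ i ∈ S, Y i)).HasEigenvalue u := by
    rw [act_apply, Module.End.hasEigenvalue_iff_isRoot_charpoly, Matrix.charpoly_toLin',
      Polynomial.IsRoot.def, Matrix.charpoly_map, Polynomial.eval_map]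
    exact hu
  have hcf : ∀ i ∈ S, ∀ j ∈ S, Commute (f i) (f j) := fun i hi j hj => (hc i hi j hj).map act
  obtain ⟨v, hv, hv0, χ, hχv⟩ := common_vec f S hcf
    (Module.End.eigenspace (act (∑ i ∈ S, Y i)) u) h1 (fun i hi v hv => by
      rw [Module.End.mem_eigenspace_iff] at hv ⊢
      have h2 : Commute (act (∑ i ∈ S, Y i)) (f i) := by
        rw [hsum]
        exact Commute.sum_left _ _ _ fun j hj => hcf j hj i hi
      have h3 : act (∑ i ∈ S, Y i) (f i v) = f i (act (∑ i ∈ S, Y i) v) :=
        LinearMap.congr_fun h2 v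
      rw [h3, hv, map_smul])
  have h2 : u = ∑ i ∈ S, χ i := by
    have h3 := Module.End.mem_eigenspace_iff.1 hv
    rw [hsum, LinearMap.sum_apply, Finset.sum_congr rfl hχv, ← Finset.sum_smul] at h3
    have h4 : (∑ i ∈ S, χ i - u) • v = 0 := by rw [sub_smul, h3, sub_self]
    exact (sub_eq_zero.1 ((smul_eq_zero.1 h4).resolve_right hv0)).symm
  rw [h2]
  refine Submodule.sum_mem _ fun i hi => Submodule.subset_span ?_
  obtain ⟨p, hp1, hp2, hp3, hp4⟩ := hχ i hi
  refine ⟨p, hp1, hp2, hp3, ?_⟩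
  have h5 : (f i).HasEigenvector (χ i) v :=
    ⟨Module.End.mem_eigenspace_iff.2 (hχv i hi), hv0⟩
  have h6 := Module.End.aeval_apply_of_hasEigenvector (p := p.map (algebraMap _ (Om K n))) h5
  have h7 : Polynomial.aeval (f i) (p.map (algebraMap (MvPolynomial (Fin n) K) (Om K n))) = 0 := by
    have h8 := congrArg act hp4
    rw [map_zero, Polynomial.aeval_def, Polynomial.hom_eval₂] at h8
    rw [Polynomial.aeval_def, Polynomial.eval₂_map]
    have h9 : (algebraMap (Om K n) (Module.End (Om K n) (ι → Om K n))).comp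
        (algebraMap (MvPolynomial (Fin n) K) (Om K n)) =
        (act : Matrix ι ι (MvPolynomial (Fin n) K) →+* _).comp
          (algebraMap (MvPolynomial (Fin n) K) (Matrix ι ι (MvPolynomial (Fin n) K))) :=
      RingHom.ext fun r => (act_alg r).symm
    rw [h9]
    exact h8
  rw [h7, LinearMap.zero_apply, Polynomial.eval_map] at h6
  exact (smul_eq_zero.1 h6.symm).resolve_right hv0

end Pool.Agent.TH189.Kr
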