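import Pool.Agent.TH189.Lev7

/-!
From the generator to explicit points: determinants and ranks of high powers.
-/

namespace Pool.Agent.TH189.Lev

open MvPolynomial Module Pool.Agent.H530R2 Pool.Agent.W943

section deg

variable {n : ℕ}

/-- all coefficients have total degree at most `d` -/
def CDeg (d : ℕ) (p : Polynomial (MvPolynomial (Fin n) ℂ)) : Prop :=
  ∀ k, (p.coeff k).totalDegree ≤ d

theorem CDeg.mul {d d' : ℕ} {p q : Polynomial (MvPolynomial (Fin n) ℂ)} (hp : CDeg d p)
    (hq : CDeg d' q) : CDeg (d + d') (p * q) := by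
  intro k
  rw [Polynomial.coeff_mul]
  refine (totalDegree_finsetSum _ _).trans (Finset.sup_le fun x _ => ?_)
  exact (totalDegree_mul _ _).trans (Nat.add_le_add (hp _) (hq _))

theorem CDeg.one : CDeg 0 (1 : Polynomial (MvPolynomial (Fin n) ℂ)) := by
  intro k
  rw [Polynomial.coeff_one]
  split_ifs <;> simp

theorem CDeg.prod {ι : Type*} (S : Finset ι) (f : ι → Polynomial (MvPolynomial (Fin n) ℂ))
    (h : ∀ i ∈ S, CDeg 1 (f i)) : CDeg S.card (∏ i ∈ S, f i) := by
  classical
  induction S using Finset.induction_on with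
  | empty => exact CDeg.one
  | insert i S hi ih =>
    rw [Finset.prod_insert hi, Finset.card_insert_of_notMem hi, Nat.add_comm]
    exact (h i (Finset.mem_insert_self _ _)).mul
      (ih fun j hj => h j (Finset.mem_insert_of_mem hj))

theorem CDeg.sum {ι : Type*} (S : Finset ι) (d : ℕ)
    (f : ι → Polynomial (MvPolynomial (Fin n) ℂ)) (h : ∀ i ∈ S, CDeg d (f i)) :
    CDeg d (∑ i ∈ S, f i) := by
  intro k
  rw [Polynomial.finsetSum_coeff]
  exact (totalDegree_finsetSum _ _).trans (Finset.sup_le fun i hi => h i hi k)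

theorem charpoly_deg {ι : Type*} [Fintype ι] [DecidableEq ι]
    (M : Matrix ι ι (MvPolynomial (Fin n) ℂ)) (h : ∀ i j, (M i j).totalDegree ≤ 1) :
    CDeg (Fintype.card ι) M.charpoly := by
  rw [Matrix.charpoly, Matrix.det_apply]
  refine CDeg.sum _ _ _ fun σ _ => ?_
  have h1 : CDeg (Finset.univ : Finset ι).card (∏ i, M.charmatrix (σ i) i) := by
    refine CDeg.prod _ _ fun i _ => ?_
    intro k
    rw [Matrix.charmatrix_apply, Polynomial.coeff_sub]
    refine (totalDegree_sub _ _).trans (max_le ?_ ?_)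
    · rw [Matrix.diagonal_apply]
      split_ifs
      · rw [Polynomial.coeff_X]; split_ifs <;> simp
      · simp
    · rw [Polynomial.coeff_C]
      split_ifs
      · exact h _ _
      · simp
  rcases Int.units_eq_one_or (Equiv.Perm.sign σ) with h2 | h2
  · rw [h2, one_smul]; exact h1
  · rw [h2, Units.neg_smul, one_smul]
    intro k
    rw [Polynomial.coeff_neg, totalDegree_neg]
    exact h1 k

end deg

section rank

theorem rank_pow_card {ι : Type*} [Fintype ι] [DecidableEq ι] (A : Matrix ι ι ℂ) :
    (A ^ Fintype.card ι).rank + A.charpoly.natTrailingDegree = Fintype.card ι := by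
  have h1 := LinearMap.finrank_maxGenEigenspace_zero_eq (K := ℂ) (Matrix.toLin' A)
  rw [Module.End.maxGenEigenspace_eq_genEigenspace_finrank, Module.End.genEigenspace_nat,
    zero_smul, sub_zero, Matrix.charpoly_toLin', Module.finrank_fintype_fun_eq_card] at h1
  have h2 : (Matrix.toLin' A) ^ Fintype.card ι = Matrix.toLin' (A ^ Fintype.card ι) := by
    rw [Matrix.toLin'_pow]
  rw [h2] at h1
  have h3 := LinearMap.finrank_range_add_finrank_ker (Matrix.toLin' (A ^ Fintype.card ι))
  rw [h1, Module.finrank_fintype_fun_eq_card] at h3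
  exact h3

end rank

theorem hit {n : ℕ} {ι : Type*} [Fintype ι] [DecidableEq ι]
    (M : Matrix ι ι (MvPolynomial (Fin n) ℂ)) (hdeg : ∀ i j, (M i j).totalDegree ≤ 1) (s : ℕ)
    (h : M.charpoly.trailingCoeff ∉ genI (fun i : Fin n => ((i.val : ℕ) : ℂ)) s) :
    ∃ p ∈ hitSet n s (Fintype.card ι),
      (M.det ≠ 0 → (M.map (eval fun i => (p i : ℂ))).det ≠ 0) ∧
      ∀ c : Fin n → ℂ, ((M.map (eval c)) ^ Fintype.card ι).rank ≤
        ((M.map (eval fun i => (p i : ℂ))) ^ Fintype.card ι).rank := by
  obtain ⟨p, hp, hp0⟩ := exists_hit n s (Fintype.card ι) _ (charpoly_deg M hdeg _) h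
  refine ⟨p, hp, ?_, ?_⟩
  · intro hd
    have h1 : M.charpoly.coeff 0 ≠ 0 := by
      rw [Matrix.det_eq_sign_charpoly_coeff] at hd
      exact right_ne_zero_of_mul hd
    have h2 : M.charpoly.natTrailingDegree = 0 :=
      Nat.le_zero.1 (Polynomial.natTrailingDegree_le_of_ne_zero h1)
    rw [Matrix.det_eq_sign_charpoly_coeff, Matrix.charpoly_map, Polynomial.coeff_map]
    refine mul_ne_zero (pow_ne_zero _ (by simp)) ?_
    rw [h2] at hp0
    exact hp0
  · intro c
    have h1 := rank_pow_card (M.map (eval c))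
    have h2 := rank_pow_card (M.map (eval fun i => (p i : ℂ)))
    have h3 : (M.map (eval fun i => (p i : ℂ))).charpoly.natTrailingDegree ≤
        M.charpoly.natTrailingDegree := by
      refine Polynomial.natTrailingDegree_le_of_ne_zero ?_
      rw [Matrix.charpoly_map, Polynomial.coeff_map]
      exact hp0
    have h4 : M.charpoly.natTrailingDegree ≤ (M.map (eval c)).charpoly.natTrailingDegree := by
      refine Polynomial.le_natTrailingDegree (Matrix.charpoly_monic _).ne_zero fun k hk => ?_
      rw [Matrix.charpoly_map, Polynomial.coeff_map,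
        Polynomial.coeff_eq_zero_of_lt_natTrailingDegree hk, map_zero]
    omega

end Pool.Agent.TH189.Lev
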