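import Pool.Agent.TH189.Kr8
import Pool.Agent.W943.Orb8

/-!
Products of sums of algebraic functions of small degree are not killed by few seeds.
-/

namespace Pool.Agent.TH189.Kr

open MvPolynomial Pool.Agent.H530R2 Pool.Agent.W943

variable {K : Type} [Field K] {n : ℕ}

theorem gen_X (a : Fin n → K) (s : ℕ) (i : Fin n) : gen a s (X i) =
    ∑ l : Fin s, X (Sum.inl l) * ∏ i' ∈ Finset.univ.erase i, (X (Sum.inr l) - C (a i')) := by
  rw [gen, aeval_X]

theorem gen_C (a : Fin n → K) (s : ℕ) (c : K) : gen a s (C c) = C c := (gen a s).commutes c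

/-- the substitution which joins two sets of seeds -/
noncomputable def joinSeeds (s0 s : ℕ) (w : Fin s0 ⊕ Fin s0 → K) :
    MvPolynomial (Fin (s0 + s) ⊕ Fin (s0 + s)) K →+* Polynomial (MvPolynomial (Fin s ⊕ Fin s) K) :=
  eval₂Hom ((Polynomial.C).comp C) (Sum.elim
    (fun l => Fin.addCases (fun l0 => Polynomial.C (C (w (Sum.inl l0))))
      (fun l1 => Polynomial.X * Polynomial.C (X (Sum.inl l1))) l)
    (fun l => Fin.addCases (fun l0 => Polynomial.C (C (w (Sum.inr l0))))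
      (fun l1 => Polynomial.C (X (Sum.inr l1))) l))

theorem join_gen (a : Fin n → K) (s0 s : ℕ) (w : Fin s0 ⊕ Fin s0 → K)
    (p : MvPolynomial (Fin n) K) :
    joinSeeds s0 s w (gen a (s0 + s) p) =
      (iotaP (fun i => eval w (gen a s0 (X i))) p).map (gen a s : _ →+* _) := by
  have h : (joinSeeds s0 s w).comp (gen a (s0 + s) : _ →+* _) =
      (Polynomial.mapRingHom (gen a s : _ →+* _)).comp
        (iotaP (fun i => eval w (gen a s0 (X i)))) := by
    apply MvPolynomial.ringHom_ext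
    · intro c
      rw [RingHom.comp_apply, RingHom.comp_apply, iotaP_C, Polynomial.coe_mapRingHom,
        Polynomial.map_C, RingHom.coe_coe, RingHom.coe_coe, gen_C, gen_C, joinSeeds, eval₂Hom_C]
      rfl
    · intro i
      rw [RingHom.comp_apply, RingHom.comp_apply, RingHom.coe_coe, Polynomial.coe_mapRingHom,
        iotaP_X, Polynomial.map_add, Polynomial.map_mul, Polynomial.map_C, Polynomial.map_C,
        Polynomial.map_X, RingHom.coe_coe, gen_C, gen_X, gen_X, gen_X]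
      simp only [Fin.sum_univ_add, joinSeeds, map_add, map_sum, map_mul, map_prod,
        map_sub, eval₂Hom_X', eval₂Hom_C, Sum.elim_inl, Sum.elim_inr, Fin.addCases_left,
        Fin.addCases_right, RingHom.comp_apply, eval_X, eval_C]
      congr 1
      rw [Finset.sum_mul]
      refine Finset.sum_congr rfl fun l _ => ?_
      ring
  exact RingHom.congr_fun h p

/-- combinations of the roots of a family with constant coefficients -/
def Comb (F : Finset (Polynomial (MvPolynomial (Fin n) K))) (φ : Om K n) : Prop :=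
  ∃ c : RF F → K, φ = ∑ i : RF F,
    algebraMap (MvPolynomial (Fin n) K) (Om K n) (C (c i)) * (i : Om K n)

/-- **Products of sums of algebraic functions of small degree.** -/
theorem main2 [IsAlgClosed K] [CharZero K] (a : Fin n → K) (ha : Function.Injective a) (m w : ℕ)
    (hm : 1 ≤ m) (F : Finset (Polynomial (MvPolynomial (Fin n) K))) (hF : ∀ χ ∈ F, Lin m w χ)
    (A : Multiset (Om K n)) (hA : ∀ φ ∈ A, Comb F φ) (f : MvPolynomial (Fin n) K)
    (hf : algebraMap (MvPolynomial (Fin n) K) (Om K n) f = A.prod) (hf0 : f ≠ 0) :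
    f ∉ genI a (w * (m ^ 2 + 2 * m ^ 4)) := by
  classical
  rw [mul_add]
  intro hmem
  obtain ⟨𝒩, h𝒩, hpoint⟩ := phaseA m w F hF
  have hlow : ∀ (d : ℕ) (p : MvPolynomial (Fin n) K), p ≠ 0 → p.totalDegree ≤ d →
      p ∉ genI a d := fun d p => (genChain a ha).low_notMem d p
  -- the base point
  have h1 : gen a (w * m ^ 2) (∏ N ∈ 𝒩, N) ≠ 0 := by
    rw [map_prod, Finset.prod_ne_zero_iff]
    intro N hN h0
    exact hlow _ N (h𝒩 N hN).1 (h𝒩 N hN).2 h0
  obtain ⟨ω, hω⟩ : ∃ ω, eval ω (gen a (w * m ^ 2) (∏ N ∈ 𝒩, N)) ≠ 0 := by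
    by_contra hcon
    push Not at hcon
    exact h1 (MvPolynomial.funext fun ω => by rw [hcon ω, map_zero])
  let x : Fin n → K := fun i => eval ω (gen a (w * m ^ 2) (X i))
  have hx : ∀ p : MvPolynomial (Fin n) K, eval ω (gen a (w * m ^ 2) p) = eval x p := by
    intro p
    have h : (eval ω).comp (gen a (w * m ^ 2) : _ →+* _) = eval x := by
      apply MvPolynomial.ringHom_ext
      · intro c
        rw [RingHom.comp_apply, RingHom.coe_coe, gen_C, eval_C, eval_C]
      · intro i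
        rw [RingHom.comp_apply, RingHom.coe_coe, eval_X]
    exact RingHom.congr_fun h p
  have hxN : ∀ N ∈ 𝒩, eval x N ≠ 0 := by
    rw [hx, map_prod, Finset.prod_ne_zero_iff] at hω
    exact hω
  obtain ⟨Ψ, α, hα, hΨ, hΨx⟩ := hpoint x hxN
  obtain ⟨𝒟, h𝒟x, h𝒟s, h𝒟m, h𝒟w, h𝒟ρ, Ω, _, κ, j, hj, hκ, hκθ⟩ :=
    phaseB m w F hF x Ψ α hα hΨ hΨx (gen a (w * (2 * m ^ 4))).toRingHom
      (w * (2 * m ^ 4)) (fun p hp h0 => by
        by_contra hne
        exact hlow _ p hne hp h0)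
  -- the reduction of `f`
  have htau : 𝒟.tau f = 0 := by
    have h2 := join_gen a (w * m ^ 2) (w * (2 * m ^ 4)) ω f
    have h3 : gen a (w * m ^ 2 + w * (2 * m ^ 4)) f = 0 := hmem
    rw [h3, map_zero] at h2
    rw [Data.tau, RingHom.comp_apply, Polynomial.coe_mapRingHom, h𝒟ρ, h𝒟x]
    exact h2.symm
  have hred : 𝒟.red (iota 𝒟.x f) = 0 := by
    rw [𝒟.red_iota, htau, map_zero]
  -- the product
  have hA' : ∀ φ ∈ A, ∃ c : RF F → K, κ φ = j (𝒟.phi c) := by
    intro φ hφ
    obtain ⟨c, rfl⟩ := hA φ hφ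
    refine ⟨c, ?_⟩
    rw [map_sum, Data.phi, map_sum]
    refine Finset.sum_congr rfl fun i _ => ?_
    rw [map_mul, map_mul, hκ, hκθ, h𝒟x]
  have hprod : ∀ B : Multiset (Om K n), (∀ φ ∈ B, ∃ c : RF F → K, κ φ = j (𝒟.phi c)) →
      ∃ B' : Multiset (RF F → K), κ B.prod = j (B'.map 𝒟.phi).prod := by
    intro B
    induction B using Multiset.induction_on with
    | empty => intro _; exact ⟨0, by simp⟩
    | cons φ B ih =>
      intro h
      obtain ⟨c, hc⟩ := h φ (Multiset.mem_cons_self _ _)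
      obtain ⟨B', hB'⟩ := ih fun ψ hψ => h ψ (Multiset.mem_cons_of_mem hψ)
      refine ⟨c ::ₘ B', ?_⟩
      rw [Multiset.prod_cons, map_mul, hc, hB', Multiset.map_cons, Multiset.prod_cons, map_mul]
  obtain ⟨B', hB'⟩ := hprod A hA'
  have hf1 : iota 𝒟.x f = (B'.map 𝒟.phi).prod := by
    apply hj
    rw [← hB', ← hf, hκ, h𝒟x]
  have h4 : ((B'.map 𝒟.phi).map 𝒟.red).prod = 0 := by
    rw [← map_multiset_prod, ← hf1, hred]
  rw [Multiset.prod_eq_zero_iff, Multiset.map_map, Multiset.mem_map] at h4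
  obtain ⟨c, hc, hc0⟩ := h4
  have h5 : 𝒟.phi c = 0 := by
    refine 𝒟.main ?_ ?_ c hc0
    · rw [h𝒟m]; exact hm
    · rw [h𝒟m, h𝒟s, h𝒟w]
  apply hf0
  apply iota_injective 𝒟.x
  rw [map_zero, hf1]
  exact Multiset.prod_eq_zero (Multiset.mem_map.2 ⟨c, hc, h5⟩)

/-- all roots of the members of `F` -/
def RS (F : Finset (Polynomial (MvPolynomial (Fin n) K))) : Set (Om K n) :=
  {u | ∃ χ ∈ F, χ.eval₂ (algebraMap (MvPolynomial (Fin n) K) (Om K n)) u = 0}

theorem RS_eq {F : Finset (Polynomial (MvPolynomial (Fin n) K))} (hF : ∀ χ ∈ F, χ.Monic) :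
    RS F = ((RF F : Finset (Om K n)) : Set (Om K n)) := by
  ext u
  rw [Finset.mem_coe, mem_RF hF]
  rfl

theorem Comb.of_span {F : Finset (Polynomial (MvPolynomial (Fin n) K))}
    (hF : ∀ χ ∈ F, χ.Monic) {φ : Om K n} (hφ : φ ∈ Submodule.span K (RS F)) : Comb F φ := by
  rw [RS_eq hF, Submodule.mem_span_finset'] at hφ
  obtain ⟨c, hc⟩ := hφ
  refine ⟨c, ?_⟩
  rw [← hc]
  refine Finset.sum_congr rfl fun i _ => ?_
  rw [Algebra.smul_def]
  congr 1

/-- **Products of sums of algebraic functions of small degree**, for factors. -/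
theorem main3 [IsAlgClosed K] [CharZero K] (a : Fin n → K) (ha : Function.Injective a) (m w : ℕ)
    (hm : 1 ≤ m) (F : Finset (Polynomial (MvPolynomial (Fin n) K))) (hF : ∀ χ ∈ F, Lin m w χ)
    (A : Multiset (Om K n)) (hA : ∀ φ ∈ A, φ ∈ Submodule.span K (RS F))
    (g : MvPolynomial (Fin n) K)
    (hg : algebraMap (MvPolynomial (Fin n) K) (Om K n) g = A.prod) (hg0 : g ≠ 0)
    (f : MvPolynomial (Fin n) K) (hfg : f ∣ g) :
    f ∉ genI a (w * (m ^ 2 + 2 * m ^ 4)) := by
  intro h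
  refine main2 a ha m w hm F hF A
    (fun φ hφ => Comb.of_span (fun χ hχ => (hF χ hχ).1) (hA φ hφ)) g hg hg0 ?_
  exact Ideal.mem_of_dvd _ hfg h

end Pool.Agent.TH189.Kr
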