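import Pool.Agent.TH189.Kr20

/-!
Systems of polynomial equations: secants of a monomial curve are solvable systems.
-/

namespace Pool.Agent.TH189.Kr

open MvPolynomial Pool.Agent.H530R2

/-- exponent vectors of the monomials of degree at most `d` in `n` unknowns -/
abbrev MonoHN (n d : ℕ) : Type := {α : Fin n → Fin (d + 1) // ∑ j, (α j : ℕ) ≤ d}

/-- the coefficients of `k` polynomials -/
abbrev QHN (n k d : ℕ) : Type := Fin k × MonoHN n d

section defs

variable {K : Type} [Field K] {n k d : ℕ}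

/-- the value of the `i`-th polynomial -/
noncomputable def valHN (c : QHN n k d → K) (i : Fin k) (z : Fin n → K) : K :=
  ∑ α : MonoHN n d, c (i, α) * ∏ j, z j ^ (α.1 j : ℕ)

/-- the system has a solution -/
def SolvHN (c : QHN n k d → K) : Prop := ∃ z : Fin n → K, ∀ i, valHN c i z = 0

/-- a numbering of the coefficients -/
def ordHN (q : QHN n k d) : Fin (k * (d + 1) ^ n) :=
  finProdFinEquiv (q.1, finFunctionFinEquiv q.2.1)

theorem ordHN_injective : Function.Injective (ordHN : QHN n k d → _) := by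
  intro p q h
  have h1 := finProdFinEquiv.injective h
  have h2 := (Prod.mk.inj h1).1
  have h3 := finFunctionFinEquiv.injective (Prod.mk.inj h1).2
  exact Prod.ext h2 (Subtype.ext h3)

theorem ordHN_val (q : QHN n k d) :
    (ordHN q : ℕ) = ∑ j, (q.2.1 j : ℕ) * (d + 1) ^ (j : ℕ) + (d + 1) ^ n * q.1 := by
  rw [ordHN]
  simp only [finProdFinEquiv, Equiv.coe_fn_mk]
  rw [finFunctionFinEquiv_apply]

/-- exponent vectors of the homogenised monomials -/
def expHN (α : MonoHN n d) : Fin (n + 1) → ℕ :=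
  Fin.cons (d - ∑ j, (α.1 j : ℕ)) fun j => (α.1 j : ℕ)

/-- the multinomial coefficient -/
noncomputable def lamHN (K : Type) [Field K] (α : MonoHN n d) : K :=
  (Nat.multinomial Finset.univ (expHN α) : K)

theorem lamHN_ne_zero [CharZero K] (α : MonoHN n d) : lamHN K α ≠ 0 :=
  Nat.cast_ne_zero.2 (Nat.multinomial_pos _ _).ne'

theorem multinomial_HN (y : Fin n → K) :
    ∑ α : MonoHN n d, lamHN K α * ∏ j, y j ^ (α.1 j : ℕ) = (1 + ∑ j, y j) ^ d := by
  classical
  have h0 : (1 + ∑ j, y j) = ∑ j : Fin (n + 1), (Fin.cons 1 y : Fin (n + 1) → K) j := by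
    rw [Fin.sum_univ_succ]
    simp
  rw [h0, Finset.sum_pow_eq_sum_piAntidiag]
  refine Finset.sum_bij (fun α _ => expHN α) ?_ ?_ ?_ ?_
  · intro α _
    rw [Finset.mem_piAntidiag]
    refine ⟨?_, fun i _ => Finset.mem_univ _⟩
    rw [Fin.sum_univ_succ, expHN]
    simp only [Fin.cons_zero, Fin.cons_succ]
    exact Nat.sub_add_cancel α.2
  · intro α _ β _ h
    apply Subtype.ext
    funext j
    have h1 := congrFun h j.succ
    rw [expHN, expHN, Fin.cons_succ, Fin.cons_succ] at h1
    exact Fin.ext h1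
  · intro β hβ
    rw [Finset.mem_piAntidiag] at hβ
    have h1 := hβ.1
    rw [Fin.sum_univ_succ] at h1
    have h2 : ∀ j : Fin n, β j.succ ≤ ∑ j : Fin n, β j.succ := fun j =>
      Finset.single_le_sum (f := fun j : Fin n => β j.succ) (fun _ _ => Nat.zero_le _)
        (Finset.mem_univ j)
    refine ⟨⟨fun j => ⟨β j.succ, by have := h2 j; omega⟩, ?_⟩, Finset.mem_univ _, ?_⟩
    · show ∑ j : Fin n, β j.succ ≤ d
      omega
    · funext j
      rw [expHN]
      refine Fin.cases ?_ (fun j => ?_) j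
      · rw [Fin.cons_zero]
        show d - ∑ j : Fin n, β j.succ = β 0
        omega
      · rw [Fin.cons_succ]
  · intro α _
    rw [Fin.prod_univ_succ, lamHN]
    simp [expHN]

/-- a point of the secant variety -/
noncomputable def secHN {s : ℕ} (u : Fin s ⊕ Fin s → K) (q : QHN n k d) : K :=
  lamHN K q.2 * ∑ l : Fin s, u (Sum.inl l) * u (Sum.inr l) ^ (ordHN q : ℕ)

theorem valHN_sec {s : ℕ} (u : Fin s ⊕ Fin s → K) (i : Fin k) (z : Fin n → K) :
    valHN (secHN (d := d) u) i z = ∑ l : Fin s, u (Sum.inl l) *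
      u (Sum.inr l) ^ ((d + 1) ^ n * (i : ℕ)) *
        (1 + ∑ j : Fin n, u (Sum.inr l) ^ ((d + 1) ^ (j : ℕ)) * z j) ^ d := by
  rw [valHN]
  simp only [secHN, Finset.mul_sum, Finset.sum_mul]
  rw [Finset.sum_comm]
  refine Finset.sum_congr rfl fun l _ => ?_
  rw [← multinomial_HN, Finset.mul_sum]
  refine Finset.sum_congr rfl fun α _ => ?_
  rw [ordHN_val, pow_add]
  have h1 : u (Sum.inr l) ^ (∑ j, (α.1 j : ℕ) * (d + 1) ^ (j : ℕ)) =
      ∏ j : Fin n, (u (Sum.inr l) ^ ((d + 1) ^ (j : ℕ))) ^ (α.1 j : ℕ) := by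
    rw [← Finset.prod_pow_eq_pow_sum]
    refine Finset.prod_congr rfl fun j _ => ?_
    rw [← pow_mul, Nat.mul_comm]
  have h2 : ∏ j : Fin n, (u (Sum.inr l) ^ ((d + 1) ^ (j : ℕ)) * z j) ^ (α.1 j : ℕ) =
      (∏ j : Fin n, (u (Sum.inr l) ^ ((d + 1) ^ (j : ℕ))) ^ (α.1 j : ℕ)) *
        ∏ j, z j ^ (α.1 j : ℕ) := by
    rw [← Finset.prod_mul_distrib]
    refine Finset.prod_congr rfl fun j _ => ?_
    rw [mul_pow]
  rw [h2, ← h1]
  ring

end defs

section linear

variable {K : Type} [Field K]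

/-- the determinant of the linear system -/
noncomputable def detHN (K : Type) [Field K] (s d : ℕ) : MvPolynomial (Fin s ⊕ Fin s) K :=
  (Matrix.of fun l j : Fin s => (X (Sum.inr l) : MvPolynomial (Fin s ⊕ Fin s) K) ^
    ((d + 1) ^ (j : ℕ))).det

theorem eval_detHN {s d : ℕ} (u : Fin s ⊕ Fin s → K) :
    eval u (detHN K s d) =
      (Matrix.of fun l j : Fin s => u (Sum.inr l) ^ ((d + 1) ^ (j : ℕ))).det := by
  rw [detHN, RingHom.map_det]
  congr 1
  ext l j
  simp

theorem detHN_ne_zero [CharZero K] {s d : ℕ} (hd : 1 ≤ d) : detHN K s d ≠ 0 := by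
  intro h
  have h1 := congrArg (eval (Sum.elim (fun _ => (0 : K)) fun l : Fin s => (2 : K) ^ (l : ℕ))) h
  rw [eval_detHN, map_zero] at h1
  have h2 : (Matrix.of fun l j : Fin s => (Sum.elim (fun _ : Fin s => (0 : K))
      (fun l : Fin s => (2 : K) ^ (l : ℕ)) (Sum.inr l)) ^ ((d + 1) ^ (j : ℕ))) =
      (Matrix.vandermonde fun j : Fin s => (2 : K) ^ ((d + 1) ^ (j : ℕ))).transpose := by
    ext l j
    rw [Matrix.of_apply, Matrix.transpose_apply, Matrix.vandermonde_apply, Sum.elim_inr,
      ← pow_mul, ← pow_mul, Nat.mul_comm]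
  rw [h2, Matrix.det_transpose] at h1
  refine Matrix.det_vandermonde_ne_zero_iff.2 ?_ h1
  intro i j hij
  have h3 : (2 : ℕ) ^ ((d + 1) ^ (i : ℕ)) = 2 ^ ((d + 1) ^ (j : ℕ)) := by
    have h4 : ((2 ^ ((d + 1) ^ (i : ℕ)) : ℕ) : K) = ((2 ^ ((d + 1) ^ (j : ℕ)) : ℕ) : K) := by
      push_cast
      exact hij
    exact Nat.cast_injective h4
  have h4 := Nat.pow_right_injective (le_refl 2) h3
  exact Fin.ext (Nat.pow_right_injective (by omega) h4)

/-- points of the secant variety are solvable systems -/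
theorem solv_sec {n k d s : ℕ} (hd : 1 ≤ d) (hs : s ≤ n) (u : Fin s ⊕ Fin s → K)
    (hu : eval u (detHN K s d) ≠ 0) : SolvHN (secHN u : QHN n k d → K) := by
  rw [eval_detHN] at hu
  obtain ⟨z, hz⟩ : ∃ z : Fin s → K, Matrix.mulVec
      (Matrix.of fun l j : Fin s => u (Sum.inr l) ^ ((d + 1) ^ (j : ℕ))) z = fun _ => -1 := by
    have h1 : IsUnit (Matrix.of fun l j : Fin s => u (Sum.inr l) ^ ((d + 1) ^ (j : ℕ))) :=
      (Matrix.isUnit_iff_isUnit_det _).2 hu.isUnit
    exact (Matrix.mulVec_surjective_iff_isUnit.2 h1) _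
  refine ⟨fun j => if h : (j : ℕ) < s then z ⟨j, h⟩ else 0, fun i => ?_⟩
  rw [valHN_sec]
  refine Finset.sum_eq_zero fun l _ => ?_
  have h1 : ∑ j : Fin n, u (Sum.inr l) ^ ((d + 1) ^ (j : ℕ)) *
      (if h : (j : ℕ) < s then z ⟨j, h⟩ else 0) = -1 := by
    have h2 := congrFun hz l
    rw [← h2]
    show _ = ∑ j : Fin s, u (Sum.inr l) ^ ((d + 1) ^ (j : ℕ)) * z j
    symm
    refine Finset.sum_of_injOn (Fin.castLE hs) (Fin.castLE_injective hs).injOn
      (fun _ _ => Finset.mem_univ _) ?_ ?_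
    · intro j _ hj
      rw [dif_neg, mul_zero]
      intro h
      exact hj ⟨⟨j, h⟩, Finset.mem_coe.2 (Finset.mem_univ _), rfl⟩
    · intro j _
      rw [dif_pos (show ((Fin.castLE hs j : Fin n) : ℕ) < s from j.2)]
      rfl
  rw [h1, add_neg_cancel, zero_pow (by omega), mul_zero]

/-- the polynomials which vanish at all solvable systems are killed by the generator -/
theorem vanish_HN [CharZero K] {n k d s : ℕ} (hd : 1 ≤ d) (hs : s ≤ n)
    (a : Fin (k * (d + 1) ^ n) → K) (ha : Function.Injective a)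
    (p : MvPolynomial (QHN n k d) K) (hp : ∀ c, SolvHN c → eval c p = 0) :
    psiE a (fun q : QHN n k d => (ordHN q : ℕ)) (fun q => lamHN K q.2) p ∈ genI a s := by
  have h1 : detHN K s d * gen a s
      (psiE a (fun q : QHN n k d => (ordHN q : ℕ)) (fun q => lamHN K q.2) p) = 0 := by
    apply MvPolynomial.funext
    intro u
    rw [map_mul, map_zero, eval_gen_psiE a _ _ ha (fun q => (ordHN q).2)]
    by_cases hu : eval u (detHN K s d) = 0
    · rw [hu, zero_mul]
    · have h2 := hp _ (solv_sec (n := n) (k := k) hd hs u hu)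
      have h3 : (fun q : QHN n k d => lamHN K q.2 * ∑ l : Fin s, u (Sum.inl l) *
          u (Sum.inr l) ^ (ordHN q : ℕ)) = secHN u := rfl
      rw [h3, h2, mul_zero]
  have h2 := (mul_eq_zero.1 h1).resolve_left (detHN_ne_zero hd)
  exact h2

end linear

section perturb

variable {K : Type} [Field K] [Infinite K]

/-- the constant monomial -/
def zeroHN (n d : ℕ) : MonoHN n d := ⟨fun _ => 0, by simp⟩

/-- the polynomial with given coefficients -/
noncomputable def polyHN {n k d : ℕ} (c : QHN n k d → K) (i : Fin k) : MvPolynomial (Fin n) K :=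
  ∑ α : MonoHN n d, C (c (i, α)) * ∏ j, X j ^ (α.1 j : ℕ)

theorem eval_polyHN {n k d : ℕ} (c : QHN n k d → K) (i : Fin k) (z : Fin n → K) :
    eval z (polyHN c i) = valHN c i z := by
  rw [polyHN, valHN, map_sum]
  refine Finset.sum_congr rfl fun α _ => ?_
  rw [map_mul, eval_C, map_prod]
  simp

/-- a nonzero polynomial does not vanish at some unsolvable system -/
theorem unsolv_HN {n k d : ℕ} (hk : n < k) (G : MvPolynomial (QHN n k d) K) (hG : G ≠ 0) :
    ∃ c : QHN n k d → K, ¬ SolvHN c ∧ eval c G ≠ 0 := by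
  classical
  obtain ⟨c₀, hc₀⟩ : ∃ c₀, eval c₀ G ≠ 0 := by
    by_contra h
    push Not at h
    exact hG (MvPolynomial.funext fun c => by rw [h c, map_zero])
  -- an algebraic relation
  obtain ⟨F, hF0, hF⟩ : ∃ F : MvPolynomial (Fin k) K, F ≠ 0 ∧ aeval (polyHN c₀) F = 0 := by
    by_contra h
    push Not at h
    have h1 : AlgebraicIndependent K (polyHN c₀) := by
      rw [algebraicIndependent_iff]
      intro p hp
      by_contra hp0
      exact h p hp0 hp
    have h2 := h1.cardinalMk_le_trdeg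
    rw [MvPolynomial.trdeg_of_isDomain] at h2
    simp only [Cardinal.mk_fin, Cardinal.lift_natCast, Nat.cast_le] at h2
    omega
  -- perturbation
  let ct : (Fin k → K) → QHN n k d → K := fun t q =>
    if q.2 = zeroHN n d then c₀ q - t q.1 else c₀ q
  have hval : ∀ t i z, valHN (ct t) i z = valHN c₀ i z - t i := by
    intro t i z
    have h1 : ∀ α : MonoHN n d, ct t (i, α) * ∏ j, z j ^ (α.1 j : ℕ) =
        c₀ (i, α) * ∏ j, z j ^ (α.1 j : ℕ) - (if α = zeroHN n d then t i else 0) := by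
      intro α
      by_cases hα : α = zeroHN n d
      · subst hα
        simp only [ct, if_true]
        simp [zeroHN]
      · simp only [ct, if_neg hα, sub_zero]
    rw [valHN, Finset.sum_congr rfl fun α _ => h1 α, Finset.sum_sub_distrib, ← valHN]
    congr 1
    rw [Finset.sum_ite_eq' Finset.univ]
    simp
  let G' : MvPolynomial (Fin k) K := aeval (fun q : QHN n k d =>
    if q.2 = zeroHN n d then C (c₀ q) - X q.1 else C (c₀ q)) G
  have hG' : ∀ t, eval t G' = eval (ct t) G := by
    intro t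
    have h1 : (eval t).comp ((aeval (fun q : QHN n k d =>
      if q.2 = zeroHN n d then C (c₀ q) - X q.1 else C (c₀ q)) :
        MvPolynomial (QHN n k d) K →ₐ[K] MvPolynomial (Fin k) K) : _ →+* _) = eval (ct t) := by
      apply MvPolynomial.ringHom_ext
      · intro r
        simp
      · intro q
        rw [RingHom.comp_apply, RingHom.coe_coe, aeval_X, eval_X]
        by_cases hq : q.2 = zeroHN n d
        · simp only [ct, if_pos hq]
          simp
        · simp only [ct, if_neg hq]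
          simp
    exact RingHom.congr_fun h1 G
  have hct0 : ct 0 = c₀ := by
    funext q
    simp [ct]
  have h1 : F * G' ≠ 0 := by
    refine mul_ne_zero hF0 ?_
    intro h
    apply hc₀
    rw [← hct0, ← hG', h, map_zero]
  obtain ⟨t, ht⟩ : ∃ t, eval t (F * G') ≠ 0 := by
    by_contra h
    push Not at h
    exact h1 (MvPolynomial.funext fun c => by rw [h c, map_zero])
  rw [map_mul] at ht
  refine ⟨ct t, ?_, ?_⟩
  · rintro ⟨z, hz⟩
    have h2 : ∀ i, valHN c₀ i z = t i := by
      intro i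
      have h3 := hz i
      rw [hval] at h3
      exact sub_eq_zero.1 h3
    have h3 := congrArg (eval z) hF
    rw [map_zero] at h3
    have h4 : (eval z).comp ((aeval (polyHN c₀) :
        MvPolynomial (Fin k) K →ₐ[K] MvPolynomial (Fin n) K) : _ →+* _) = eval t := by
      apply MvPolynomial.ringHom_ext
      · intro r
        simp
      · intro i
        rw [RingHom.comp_apply, RingHom.coe_coe, aeval_X, eval_X, eval_polyHN, h2]
    have h5 := RingHom.congr_fun h4 F
    rw [RingHom.comp_apply, RingHom.coe_coe] at h5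
    rw [h5] at h3
    exact left_ne_zero_of_mul ht h3
  · rw [← hG']
    exact right_ne_zero_of_mul ht

end perturb

end Pool.Agent.TH189.Kr
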