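import Pool.Agent.TH189.Kr22

/-!
Real polynomials: open sets of polynomials with and without zeros near a nonnegative polynomial of
even degree.
-/

namespace Pool.Agent.TH189.Kr

open MvPolynomial Topology

variable {n d : ℕ}

/-- evaluation as a linear map -/
noncomputable def valL (d : ℕ) (z : Fin n → ℝ) : (QHN n 1 d → ℝ) →ₗ[ℝ] ℝ where
  toFun c := valHN c 0 z
  map_add' c c' := by
    unfold valHN
    rw [← Finset.sum_add_distrib]
    exact Finset.sum_congr rfl fun α _ => by rw [Pi.add_apply, add_mul]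
  map_smul' η c := by
    unfold valHN
    rw [RingHom.id_apply, smul_eq_mul, Finset.mul_sum]
    exact Finset.sum_congr rfl fun α _ => by rw [Pi.smul_apply, smul_eq_mul, mul_assoc]

theorem valL_apply (z : Fin n → ℝ) (c : QHN n 1 d → ℝ) : valL d z c = valHN c 0 z := rfl

theorem valL_continuous (z : Fin n → ℝ) : Continuous (valL d z) :=
  LinearMap.continuous_of_finiteDimensional _

/-- the power of a linear form -/
noncomputable def powHN (n d : ℕ) (u : Fin n → ℝ) : QHN n 1 d → ℝ := fun q =>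
  lamHN ℝ q.2 * ∏ j, u j ^ (q.2.1 j : ℕ)

theorem val_pow (u z : Fin n → ℝ) : valL d z (powHN n d u) = (1 + ∑ j, u j * z j) ^ d := by
  rw [← multinomial_HN, valL_apply, valHN]
  refine Finset.sum_congr rfl fun α _ => ?_
  rw [powHN, mul_assoc, ← Finset.prod_mul_distrib]
  congr 1
  exact Finset.prod_congr rfl fun j _ => (mul_pow _ _ _).symm

/-- a positive polynomial -/
noncomputable def bigHN (n d : ℕ) : QHN n 1 d → ℝ :=
  ∑ i, (powHN n d (Pi.single i 1) + powHN n d (Pi.single i (-1)))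

theorem val_big (z : Fin n → ℝ) :
    valL d z (bigHN n d) = ∑ i, ((1 + z i) ^ d + (1 - z i) ^ d) := by
  rw [bigHN, map_sum]
  refine Finset.sum_congr rfl fun i _ => ?_
  rw [map_add, val_pow, val_pow]
  have h : ∀ a : ℝ, ∑ j, (Pi.single i a : Fin n → ℝ) j * z j = a * z i := by
    intro a
    rw [Finset.sum_eq_single i]
    · rw [Pi.single_eq_same]
    · intro j _ hj
      rw [Pi.single_eq_of_ne hj, zero_mul]
    · intro h; exact absurd (Finset.mem_univ _) h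
  rw [h, h, one_mul, neg_one_mul, ← sub_eq_add_neg]

theorem le_big (hd : Even d) (z : Fin n → ℝ) (i : Fin n) :
    (1 + |z i|) ^ d ≤ valL d z (bigHN n d) := by
  rw [val_big]
  have h1 : ∀ j, 0 ≤ (1 + z j) ^ d + (1 - z j) ^ d := fun j =>
    add_nonneg (hd.pow_nonneg _) (hd.pow_nonneg _)
  refine le_trans ?_ (Finset.single_le_sum (f := fun j => (1 + z j) ^ d + (1 - z j) ^ d)
    (fun j _ => h1 j) (Finset.mem_univ i))
  rcases abs_cases (z i) with ⟨h, -⟩ | ⟨h, -⟩ <;> rw [h]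
  · exact le_add_of_nonneg_right (hd.pow_nonneg _)
  · rw [← sub_eq_add_neg]
    exact le_add_of_nonneg_left (hd.pow_nonneg _)

theorem mono_le (hn : 1 ≤ n) (hd : Even d) (α : MonoHN n d) (z : Fin n → ℝ) :
    |∏ j, z j ^ (α.1 j : ℕ)| ≤ valL d z (bigHN n d) := by
  haveI : Nonempty (Fin n) := ⟨⟨0, hn⟩⟩
  obtain ⟨i, hi⟩ := Finite.exists_max fun j => |z j|
  refine le_trans ?_ (le_big hd z i)
  rw [Finset.abs_prod]
  have h1 : (1 : ℝ) ≤ 1 + |z i| := by
    have := abs_nonneg (z i)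
    linarith
  calc ∏ j, |z j ^ (α.1 j : ℕ)| ≤ ∏ j, (1 + |z i|) ^ (α.1 j : ℕ) := by
        refine Finset.prod_le_prod (fun j _ => abs_nonneg _) fun j _ => ?_
        rw [abs_pow]
        refine pow_le_pow_left₀ (abs_nonneg _) ?_ _
        have := hi j
        linarith
    _ = (1 + |z i|) ^ (∑ j, (α.1 j : ℕ)) := Finset.prod_pow_eq_pow_sum _ _ _
    _ ≤ (1 + |z i|) ^ d := pow_le_pow_right₀ h1 α.2

theorem one_le_big (hn : 1 ≤ n) (hd : Even d) (z : Fin n → ℝ) : 1 ≤ valL d z (bigHN n d) := by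
  refine le_trans ?_ (le_big hd z ⟨0, hn⟩)
  exact one_le_pow₀ (by
    have := abs_nonneg (z ⟨0, hn⟩)
    linarith)

theorem val_le (hn : 1 ≤ n) (hd : Even d) (c : QHN n 1 d → ℝ) (τ : ℝ) (hc : ∀ q, |c q| ≤ τ)
    (z : Fin n → ℝ) :
    |valL d z c| ≤ Fintype.card (MonoHN n d) * τ * valL d z (bigHN n d) := by
  rw [valL_apply, valHN]
  refine (Finset.abs_sum_le_sum_abs _ _).trans ?_
  have hb : (0 : ℝ) ≤ valL d z (bigHN n d) := zero_le_one.trans (one_le_big hn hd z)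
  have h1 : ∀ α ∈ (Finset.univ : Finset (MonoHN n d)), |c (0, α) * ∏ j, z j ^ (α.1 j : ℕ)| ≤
      τ * valL d z (bigHN n d) := by
    intro α _
    rw [abs_mul]
    exact mul_le_mul (hc _) (mono_le hn hd α z) (abs_nonneg _) ((abs_nonneg _).trans (hc (0, α)))
  refine (Finset.sum_le_sum h1).trans (le_of_eq ?_)
  rw [Finset.sum_const, Finset.card_univ, nsmul_eq_mul, mul_assoc]

theorem near_small (c₀ p : QHN n 1 d → ℝ) {V : Set (QHN n 1 d → ℝ)} (hV : V ∈ 𝓝 c₀) :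
    ∃ η : ℝ, 0 < η ∧ c₀ + η • p ∈ interior V := by
  have h1 : Continuous fun η : ℝ => c₀ + η • p := by fun_prop
  have h2 : (fun η : ℝ => c₀ + η • p) ⁻¹' interior V ∈ 𝓝 (0 : ℝ) := by
    apply h1.continuousAt.preimage_mem_nhds
    rw [zero_smul, add_zero]
    exact interior_mem_nhds.2 hV
  obtain ⟨ε, hε, hb⟩ := Metric.mem_nhds_iff.1 h2
  refine ⟨ε / 2, half_pos hε, hb ?_⟩
  rw [mem_ball_zero_iff, Real.norm_eq_abs, abs_of_pos (half_pos hε)]
  exact half_lt_self hε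

/-- an open set of polynomials without zeros -/
theorem open_unsolv (hn : 1 ≤ n) (hd : Even d) (c₀ : QHN n 1 d → ℝ)
    (h0 : ∀ z, 0 ≤ valHN c₀ 0 z) {V : Set (QHN n 1 d → ℝ)} (hV : V ∈ 𝓝 c₀) :
    ∃ U : Set (QHN n 1 d → ℝ), IsOpen U ∧ U.Nonempty ∧ U ⊆ V ∧ ∀ c ∈ U, ¬ SolvHN c := by
  obtain ⟨η, hη, hηV⟩ := near_small c₀ (bigHN n d) hV
  set c₁ := c₀ + η • bigHN n d with hc₁
  set N : ℝ := ((Fintype.card (MonoHN n d) : ℕ) : ℝ) with hN
  have hN0 : 0 ≤ N := Nat.cast_nonneg _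
  have hτ : 0 < η / (N + 1) := div_pos hη (by linarith)
  refine ⟨interior V ∩ Metric.ball c₁ (η / (N + 1)), isOpen_interior.inter Metric.isOpen_ball,
    ⟨c₁, hηV, Metric.mem_ball_self hτ⟩, fun c hc => interior_subset hc.1, ?_⟩
  rintro c ⟨-, hc⟩ ⟨z, hz⟩
  have h1 : ∀ q, |(c - c₁) q| ≤ η / (N + 1) := by
    intro q
    refine le_trans ?_ (le_of_lt (mem_ball_iff_norm.1 hc))
    exact norm_le_pi_norm (c - c₁) q
  have h2 := val_le hn hd (c - c₁) _ h1 z
  have h3 : valL d z c = valL d z c₀ + η * valL d z (bigHN n d) + valL d z (c - c₁) := by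
    rw [map_sub, hc₁, map_add, map_smul, smul_eq_mul]
    ring
  have h4 : valL d z c = 0 := hz 0
  have h5 : 0 ≤ valL d z c₀ := h0 z
  have h6 := (abs_le.1 h2).1
  have h7 := one_le_big hn hd z
  have h8 : N * (η / (N + 1)) < η := by
    rw [mul_div_assoc', div_lt_iff₀ (by linarith)]
    nlinarith
  have h9 : N * (η / (N + 1)) * valL d z (bigHN n d) < η * valL d z (bigHN n d) :=
    mul_lt_mul_of_pos_right h8 (by linarith)
  linarith

/-- an open set of polynomials with zeros -/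
theorem open_solv (hn : 1 ≤ n) (hd : Even d) (hd1 : 1 ≤ d) (c₀ : QHN n 1 d → ℝ)
    (h0 : ∀ z, 0 ≤ valHN c₀ 0 z) (hs : SolvHN c₀) {V : Set (QHN n 1 d → ℝ)} (hV : V ∈ 𝓝 c₀) :
    ∃ U : Set (QHN n 1 d → ℝ), IsOpen U ∧ U.Nonempty ∧ U ⊆ V ∧ ∀ c ∈ U, SolvHN c := by
  obtain ⟨z₀, hz₀⟩ := hs
  have hz₀ : valL d z₀ c₀ = 0 := hz₀ 0
  set κ := valL d z₀ (bigHN n d) with hκ
  have hκ1 : 1 ≤ κ := one_le_big hn hd z₀
  have hone : ∀ z : Fin n → ℝ, valL d z (powHN n d 0) = 1 := by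
    intro z
    rw [val_pow]
    simp
  obtain ⟨η, hη, hηV⟩ := near_small c₀ (bigHN n d - (2 * κ) • powHN n d 0) hV
  set c₁ := c₀ + η • (bigHN n d - (2 * κ) • powHN n d 0) with hc₁
  have hval : ∀ z, valL d z c₁ = valL d z c₀ + η * (valL d z (bigHN n d) - 2 * κ) := by
    intro z
    rw [hc₁, map_add, map_smul, map_sub, map_smul, hone, smul_eq_mul, smul_eq_mul, mul_one]
  set z₁ : Fin n → ℝ := fun _ => 2 * κ with hz₁
  have h1 : valL d z₀ c₁ < 0 := by
    rw [hval, hz₀, ← hκ]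
    nlinarith
  have h2 : 0 < valL d z₁ c₁ := by
    rw [hval]
    have h3 : 0 ≤ valL d z₁ c₀ := h0 z₁
    have h4 := le_big hd z₁ ⟨0, hn⟩
    have h5 : 1 + 2 * κ ≤ (1 + |z₁ ⟨0, hn⟩|) ^ d := by
      have h6 : |z₁ ⟨0, hn⟩| = 2 * κ := abs_of_nonneg (by rw [hz₁]; linarith)
      rw [h6]
      exact le_self_pow₀ (by linarith) (by omega)
    have h6 : 0 < valL d z₁ (bigHN n d) - 2 * κ := by linarith
    have := mul_pos hη h6
    linarith
  refine ⟨interior V ∩ ({c | valL d z₀ c < 0} ∩ {c | 0 < valL d z₁ c}),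
    isOpen_interior.inter ((isOpen_lt (valL_continuous z₀) continuous_const).inter
      (isOpen_lt continuous_const (valL_continuous z₁))), ⟨c₁, hηV, h1, h2⟩,
    fun c hc => interior_subset hc.1, ?_⟩
  rintro c ⟨-, hc1, hc2⟩
  -- intermediate value theorem
  let γ : ℝ → Fin n → ℝ := fun t j => (1 - t) * z₀ j + t * z₁ j
  have hγ : Continuous fun t : ℝ => valHN c 0 (γ t) := by
    unfold valHN
    fun_prop
  have h3 : valHN c 0 (γ 0) < 0 := by
    have : γ 0 = z₀ := by funext j; simp [γ]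
    rw [this]
    exact hc1
  have h4 : 0 < valHN c 0 (γ 1) := by
    have : γ 1 = z₁ := by funext j; simp [γ]
    rw [this]
    exact hc2
  obtain ⟨t, -, ht⟩ := intermediate_value_Icc (zero_le_one' ℝ) hγ.continuousOn
    (show (0 : ℝ) ∈ Set.Icc _ _ from ⟨h3.le, h4.le⟩)
  refine ⟨γ t, fun i => ?_⟩
  rw [Fin.fin_one_eq_zero i]
  exact ht

/-- a positive secant point is a nonnegative polynomial -/
theorem sec_nonneg {s : ℕ} (hd : Even d) (u : Fin s ⊕ Fin s → ℝ) (hu : ∀ i, 0 < u i)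
    (z : Fin n → ℝ) : 0 ≤ valHN (secHN u : QHN n 1 d → ℝ) 0 z := by
  rw [valHN_sec]
  exact Finset.sum_nonneg fun l _ => mul_nonneg (mul_nonneg (hu _).le (pow_nonneg (hu _).le _))
    (hd.pow_nonneg _)

end Pool.Agent.TH189.Kr
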