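import Pool.Agent.TH189.Kr13

/-!
Polynomial matrices with values in a space of matrices.
-/

namespace Pool.Agent.TH189.Kr

open MvPolynomial Module LieAlgebra Pool.Agent.H530R2

attribute [local instance 100] LieRing.ofAssociativeRing

variable {K : Type} [Field K] {n M : ℕ}

/-- the monomials which occur in a matrix -/
noncomputable def supp (Y : Matrix (Fin M) (Fin M) (MvPolynomial (Fin n) K)) :
    Finset (Fin n →₀ ℕ) := by
  classical
  exact Finset.univ.biUnion fun i => Finset.univ.biUnion fun j => (Y i j).support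

/-- the coefficient matrices -/
noncomputable def cf (Y : Matrix (Fin M) (Fin M) (MvPolynomial (Fin n) K)) (s : Fin n →₀ ℕ) :
    Matrix (Fin M) (Fin M) K := Matrix.of fun i j => coeff s (Y i j)

theorem symp_cf (Y : Matrix (Fin M) (Fin M) (MvPolynomial (Fin n) K)) :
    symp (J := supp Y) (fun s => monomial (s : Fin n →₀ ℕ) (1 : K)) (fun s => cf Y s) = Y := by
  classical
  ext1 i j
  rw [symp_apply]
  have h1 : ∀ s : Fin n →₀ ℕ, monomial s (1 : K) * C (cf Y s i j) = monomial s (coeff s (Y i j)) := by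
    intro s
    rw [mul_comm, C_mul_monomial, mul_one]
    rfl
  have h2 : (∑ k : supp Y, monomial (k : Fin n →₀ ℕ) (1 : K) * C (cf Y (k : Fin n →₀ ℕ) i j)) =
      ∑ s ∈ supp Y, monomial s (coeff s (Y i j)) := by
    refine (Finset.sum_congr rfl fun (s : supp Y) _ => h1 (s : Fin n →₀ ℕ)).trans ?_
    exact Finset.sum_coe_sort (supp Y) fun s => monomial s (coeff s (Y i j))
  refine h2.trans ?_
  conv_rhs => rw [← support_sum_monomial_coeff (Y i j)]
  symm
  refine Finset.sum_subset ?_ ?_
  · intro s hs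
    simp only [supp, Finset.mem_biUnion, Finset.mem_univ, true_and]
    exact ⟨i, j, hs⟩
  · intro s _ hs
    rw [notMem_support_iff.1 hs, map_zero]

theorem supp_deg (Y : Matrix (Fin M) (Fin M) (MvPolynomial (Fin n) K)) (w : ℕ)
    (hY : ∀ i j, (Y i j).totalDegree ≤ w) (s : supp Y) :
    (monomial (s : Fin n →₀ ℕ) (1 : K)).totalDegree ≤ w := by
  classical
  obtain ⟨s, hs⟩ := s
  simp only [supp, Finset.mem_biUnion, Finset.mem_univ, true_and] at hs
  obtain ⟨i, j, hs⟩ := hs
  refine (totalDegree_monomial_le _ _).trans ?_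
  exact (le_totalDegree hs).trans (hY i j)

theorem cf_mem [Infinite K] (V : Submodule K (Matrix (Fin M) (Fin M) K))
    (Y : Matrix (Fin M) (Fin M) (MvPolynomial (Fin n) K))
    (hY : ∀ c : Fin n → K, Y.map (eval c) ∈ V) (s : Fin n →₀ ℕ) : cf Y s ∈ V := by
  classical
  rw [← Subspace.forall_mem_dualAnnihilator_apply_eq_zero_iff]
  intro φ hφ
  rw [Submodule.mem_dualAnnihilator] at hφ
  -- the functional applied to a matrix
  have hφ' : ∀ B : Matrix (Fin M) (Fin M) K,
      φ B = ∑ i, ∑ j, B i j * φ (Matrix.single i j 1) := by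
    intro B
    conv_lhs => rw [Matrix.matrix_eq_sum_single B]
    rw [map_sum]
    refine Finset.sum_congr rfl fun i _ => ?_
    rw [map_sum]
    refine Finset.sum_congr rfl fun j _ => ?_
    have h1 : Matrix.single i j (B i j) = B i j • Matrix.single i j (1 : K) := by
      rw [Matrix.smul_single, smul_eq_mul, mul_one]
    rw [h1, map_smul, smul_eq_mul]
  let g : MvPolynomial (Fin n) K := ∑ i, ∑ j, Y i j * C (φ (Matrix.single i j 1))
  have hg : g = 0 := by
    apply MvPolynomial.funext
    intro c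
    rw [map_zero, ← hφ _ (hY c), hφ']
    simp only [g, map_sum, map_mul, eval_C, Matrix.map_apply]
  have h2 : coeff s g = φ (cf Y s) := by
    rw [hφ']
    simp only [g, coeff_sum]
    refine Finset.sum_congr rfl fun i _ => Finset.sum_congr rfl fun j _ => ?_
    rw [mul_comm, coeff_C_mul, mul_comm]
    rfl
  rw [← h2, hg, coeff_zero]

/-- **Determinants of polynomial matrices with values in a matrix Lie algebra with bounded
simple factors**, and their factors. -/
theorem lie_notMem [IsAlgClosed K] [CharZero K]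
    (𝔤 : LieSubalgebra K (Matrix (Fin M) (Fin M) K)) (m w : ℕ)
    (hm : ∀ I : LieIdeal K (𝔤 ⧸ radical K 𝔤), IsAtom I → finrank K I ≤ m)
    (a : Fin n → K) (ha : Function.Injective a)
    (Y : Matrix (Fin M) (Fin M) (MvPolynomial (Fin n) K))
    (hw : ∀ i j, (Y i j).totalDegree ≤ w) (hY : ∀ c : Fin n → K, Y.map (eval c) ∈ 𝔤)
    (h0 : Y.det ≠ 0) (f : MvPolynomial (Fin n) K) (hf : f ∣ Y.det) :
    f ∉ genI a (w * ((max m 1) ^ 2 + 2 * (max m 1) ^ 4)) := by
  have h1 := symp_cf Y
  refine matrix_notMem' 𝔤 m hm a ha (supp_deg Y w hw) (fun s => cf Y s)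
    (fun s => cf_mem 𝔤.toSubmodule Y hY s) (by rwa [h1]) f (by rwa [h1])

end Pool.Agent.TH189.Kr
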