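import Pool.Agent.TH189.Kr14
import Pool.Agent.TH189.Kr16

/-!
Ranks of polynomial matrices whose eigenvalues are combinations of algebraic functions of small
degree.
-/

namespace Pool.Agent.TH189.Kr

open MvPolynomial Module LieAlgebra Pool.Agent.H530R2

section seig

variable {K : Type} [Field K] {n : ℕ}

theorem coeff_wt {w : ℕ} (s : Multiset (Om K n))
    (hs : ∀ u ∈ s, Wt (algebraMap (MvPolynomial (Fin n) K) (Om K n)) w u) (j : ℕ) :
    Wt (algebraMap (MvPolynomial (Fin n) K) (Om K n)) (w * (s.card - j))
      (((s.map fun a => Polynomial.X - Polynomial.C a).prod).coeff j) := by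
  induction s using Multiset.induction_on generalizing j with
  | empty =>
    rw [Multiset.map_zero, Multiset.prod_zero, Polynomial.coeff_one]
    split_ifs
    · exact Wt.one
    · exact Wt.zero
  | cons a s ih =>
    have ih' := ih fun u hu => hs u (Multiset.mem_cons_of_mem hu)
    have ha := hs a (Multiset.mem_cons_self _ _)
    have hcard : ((s.map fun a => Polynomial.X - Polynomial.C a).prod).natDegree = s.card := by
      rw [Polynomial.natDegree_multiset_prod_of_monic _ (fun p hp => by
        obtain ⟨b, -, rfl⟩ := Multiset.mem_map.1 hp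
        exact Polynomial.monic_X_sub_C b)]
      simp
    have hzero : ∀ j, s.card < j →
        ((s.map fun a => Polynomial.X - Polynomial.C a).prod).coeff j = 0 := fun j hj =>
      Polynomial.coeff_eq_zero_of_natDegree_lt (by rw [hcard]; exact hj)
    rw [Multiset.map_cons, Multiset.prod_cons, Multiset.card_cons, sub_mul, Polynomial.coeff_sub,
      Polynomial.coeff_C_mul]
    refine Wt.sub ?_ ?_
    · rcases j with _ | j
      · rw [Polynomial.mul_coeff_zero, Polynomial.coeff_X_zero, zero_mul]
        exact Wt.zero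
      · rw [Polynomial.coeff_X_mul]
        have h1 : s.card + 1 - (j + 1) = s.card - j := by omega
        rw [h1]
        exact ih' j
    · rcases Nat.lt_or_ge s.card j with h | h
      · rw [hzero j h, mul_zero]
        exact Wt.zero
      · refine (ha.mul (ih' j)).mono ?_
        have h1 : s.card + 1 - j = (s.card - j) + 1 := by omega
        rw [h1, Nat.mul_add, Nat.mul_one, Nat.add_comm]

theorem Lin.coeff_le {m w : ℕ} {χ : Polynomial (MvPolynomial (Fin n) K)} (hχ : Lin m w χ)
    (j : ℕ) : (χ.coeff j).totalDegree ≤ w * (χ.natDegree - j) := by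
  obtain ⟨h1, h2, h3⟩ := hχ
  let P := χ.map (algebraMap (MvPolynomial (Fin n) K) (Om K n))
  have hP : P.Monic := h1.map _
  have hsp : P = (P.roots.map fun a => Polynomial.X - Polynomial.C a).prod :=
    (IsAlgClosed.splits P).eq_prod_roots_of_monic hP
  have hcard : P.roots.card = χ.natDegree := by
    have h4 := congrArg Polynomial.natDegree hsp
    rw [Polynomial.natDegree_multiset_prod_of_monic _ (fun p hp => by
        obtain ⟨b, -, rfl⟩ := Multiset.mem_map.1 hp
        exact Polynomial.monic_X_sub_C b), h1.natDegree_map] at h4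
    rw [h4]
    simp
  have h5 := coeff_wt P.roots (fun u hu => h3 _ _ _ _ (by
    rw [Polynomial.mem_roots hP.ne_zero, Polynomial.IsRoot.def, Polynomial.eval_map] at hu
    exact hu)) j
  rw [← hsp, hcard, Polynomial.coeff_map] at h5
  exact Wt.totalDegree_le Om_injective h5

theorem SEig.of_good [CharZero K] {ι : Type} [Fintype ι] [DecidableEq ι] {m w : ℕ}
    {Y : Matrix ι ι (MvPolynomial (Fin n) K)} (h : Good m w Y.charpoly) : SEig m w Y := by
  obtain ⟨F, hF, hF'⟩ := h
  intro u hu
  refine Submodule.span_mono ?_ (hF' u hu)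
  rintro v ⟨χ, hχ, hv⟩
  exact ⟨χ, (hF χ hχ).1, (hF χ hχ).2.1, (hF χ hχ).coeff_le, hv⟩

attribute [local instance 100] LieRing.ofAssociativeRing in
/-- matrices with values in a Lie algebra with bounded simple factors -/
theorem lie_seig [IsAlgClosed K] [CharZero K] {M : ℕ}
    (𝔤 : LieSubalgebra K (Matrix (Fin M) (Fin M) K)) (m w : ℕ)
    (hm : ∀ I : LieIdeal K (𝔤 ⧸ radical K 𝔤), IsAtom I → finrank K I ≤ m)
    (Y : Matrix (Fin M) (Fin M) (MvPolynomial (Fin n) K))
    (hw : ∀ i j, (Y i j).totalDegree ≤ w) (hY : ∀ c : Fin n → K, Y.map (eval c) ∈ 𝔤) :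
    SEig (max m 1) w Y := by
  have h1 := symp_cf Y
  have h2 := good_matrix 𝔤 m hm (supp_deg Y w hw) (fun s => cf Y s)
    (fun s => cf_mem 𝔤.toSubmodule Y hY s)
  rw [h1] at h2
  exact SEig.of_good h2

end seig

section rank

variable {k ι : Type} [Field k] [Fintype ι] [DecidableEq ι]

theorem rank_pow_card (A : Matrix ι ι k) :
    (A ^ Fintype.card ι).rank + A.charpoly.natTrailingDegree = Fintype.card ι := by
  have h1 := LinearMap.finrank_maxGenEigenspace_zero_eq (K := k) (Matrix.toLin' A)
  rw [Module.End.maxGenEigenspace_eq_genEigenspace_finrank, Module.End.genEigenspace_nat,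
    zero_smul, sub_zero, Matrix.charpoly_toLin', Module.finrank_fintype_fun_eq_card] at h1
  have h2 : (Matrix.toLin' A) ^ Fintype.card ι = Matrix.toLin' (A ^ Fintype.card ι) := by
    rw [Matrix.toLin'_pow]
  rw [h2] at h1
  have h3 := LinearMap.finrank_range_add_finrank_ker (Matrix.toLin' (A ^ Fintype.card ι))
  rw [h1, Module.finrank_fintype_fun_eq_card] at h3
  exact h3

theorem rank_pow_le (A : Matrix ι ι k) (j : ℕ) (hj : 1 ≤ j) : (A ^ j).rank ≤ A.rank := by
  obtain ⟨i, rfl⟩ : ∃ i, j = i + 1 := ⟨j - 1, by omega⟩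
  rw [pow_succ']
  exact Matrix.rank_mul_le_left _ _

theorem rank_le_pow (A : Matrix ι ι k) (h : A.rank ≤ (A * A).rank) (j : ℕ) :
    A.rank ≤ (A ^ (j + 1)).rank := by
  -- the ranges agree
  have h1 : LinearMap.range (Matrix.toLin' (A * A)) = LinearMap.range (Matrix.toLin' A) := by
    refine Submodule.eq_of_le_of_finrank_le ?_ h
    rw [Matrix.toLin'_mul]
    exact LinearMap.range_comp_le_range _ _
  have h2 : ∀ j : ℕ, LinearMap.range (Matrix.toLin' (A ^ (j + 1))) =
      LinearMap.range (Matrix.toLin' A) := by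
    intro j
    induction j with
    | zero => rw [Nat.zero_add, pow_one]
    | succ j ih =>
      rw [pow_succ', Matrix.toLin'_mul, LinearMap.range_comp, ih, ← LinearMap.range_comp,
        ← Matrix.toLin'_mul, h1]
  have h3 := congrArg (fun U : Submodule k (ι → k) => finrank k U) (h2 j)
  exact h3.ge

theorem rank_le_pow' (A : Matrix ι ι k) (h : A.rank ≤ (A * A).rank) (j : ℕ) (hj : 1 ≤ j) :
    A.rank ≤ (A ^ j).rank := by
  obtain ⟨i, rfl⟩ : ∃ i, j = i + 1 := ⟨j - 1, by omega⟩
  exact rank_le_pow A h i

/-- a matrix of rank `r` can be compressed to the identity of size `r` -/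
theorem compress {a b : ℕ} (B : Matrix (Fin a) (Fin b) k) :
    ∃ (L : Matrix (Fin B.rank) (Fin a) k) (R : Matrix (Fin b) (Fin B.rank) k),
      L * B * R = 1 := by
  -- choose preimages of a basis of the range, and a left inverse
  let f : (Fin b → k) →ₗ[k] (Fin a → k) := Matrix.mulVecLin B
  let W := LinearMap.range f
  have hW : finrank k W = B.rank := rfl
  let e : Basis (Fin B.rank) k W := finBasisOfFinrankEq k W hW
  have hpre : ∀ i, ∃ v, f v = (e i : Fin a → k) := fun i => (e i).2
  choose v hv using hpre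
  obtain ⟨g, hg⟩ := LinearMap.exists_leftInverse_of_injective W.subtype W.ker_subtype
  let l : (Fin a → k) →ₗ[k] (Fin B.rank → k) := e.equivFun.toLinearMap ∘ₗ g
  refine ⟨LinearMap.toMatrix' l, Matrix.of fun i j => v j i, ?_⟩
  have hl : ∀ j, l (f (v j)) = Pi.single j 1 := by
    intro j
    have h1 : g (f (v j)) = e j := by
      rw [hv j]
      exact LinearMap.congr_fun hg (e j)
    show e.equivFun (g (f (v j))) = _
    rw [h1]
    funext i
    rw [Basis.equivFun_self, Pi.single_apply]
    simp only [eq_comm]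
  ext i j
  have h2 : (LinearMap.toMatrix' l * B * Matrix.of fun i j => v j i) i j =
      (LinearMap.toMatrix' l).mulVec (B.mulVec (v j)) i := by
    rw [Matrix.mulVec_mulVec]
    rfl
  rw [h2, LinearMap.toMatrix'_mulVec]
  have h3 : l (B.mulVec (v j)) = Pi.single j 1 := hl j
  rw [h3, Matrix.one_apply, Pi.single_apply]

theorem rank_ge {a b r : ℕ} (B : Matrix (Fin a) (Fin b) k) (L : Matrix (Fin r) (Fin a) k)
    (R : Matrix (Fin b) (Fin r) k) (h : (L * B * R).det ≠ 0) : r ≤ B.rank := by
  have h1 : (L * B * R).rank = r := by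
    rw [Matrix.rank_of_isUnit _ ((Matrix.isUnit_iff_isUnit_det _).2 (isUnit_iff_ne_zero.2 h)),
      Fintype.card_fin]
  calc r = (L * B * R).rank := h1.symm
    _ ≤ (L * B).rank := Matrix.rank_mul_le_left _ _
    _ ≤ B.rank := Matrix.rank_mul_le_right _ _

end rank

section generic

variable {K : Type} [Field K] {n : ℕ}

/-- the rank over the field of rational functions -/
noncomputable def grk {a b : ℕ} (A : Matrix (Fin a) (Fin b) (MvPolynomial (Fin n) K)) : ℕ :=
  (A.map (algebraMap (MvPolynomial (Fin n) K) (FractionRing (MvPolynomial (Fin n) K)))).rank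

theorem rank_eval_le {a b : ℕ} (A : Matrix (Fin a) (Fin b) (MvPolynomial (Fin n) K))
    (c : Fin n → K) : (A.map (eval c)).rank ≤ grk A := by
  obtain ⟨L, R, h⟩ := compress (A.map (eval c))
  generalize (A.map (eval c)).rank = r at L R h ⊢
  let L' : Matrix (Fin r) (Fin a) (MvPolynomial (Fin n) K) := L.map C
  let R' : Matrix (Fin b) (Fin r) (MvPolynomial (Fin n) K) := R.map C
  let T : Matrix (Fin r) (Fin r) (MvPolynomial (Fin n) K) := L' * A * R'
  have h1 : eval c T.det = 1 := by
    have h2 : eval c T.det = (T.map (eval c)).det := RingHom.map_det _ _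
    have h3 : ∀ {p q : ℕ} (T : Matrix (Fin p) (Fin q) K),
        (T.map (C : K → MvPolynomial (Fin n) K)).map (eval c) = T := by
      intro p q T
      ext i j
      rw [Matrix.map_apply, Matrix.map_apply, eval_C]
    rw [h2, Matrix.map_mul, Matrix.map_mul, h3, h3, h, Matrix.det_one]
  have h4 : T.det ≠ 0 := by
    intro h0
    rw [h0, map_zero] at h1
    exact zero_ne_one h1
  let j := algebraMap (MvPolynomial (Fin n) K) (FractionRing (MvPolynomial (Fin n) K))
  refine rank_ge _ (L'.map j) (R'.map j) ?_
  rw [← Matrix.map_mul, ← Matrix.map_mul]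
  have h5 : j T.det = (T.map j).det := RingHom.map_det _ _
  show (T.map j).det ≠ 0
  rw [← h5]
  intro h6
  exact h4 (IsFractionRing.injective _ (FractionRing (MvPolynomial (Fin n) K))
    (h6.trans (map_zero _).symm))

/-- the generic rank is attained in every infinite box -/
theorem exists_rank {a b : ℕ} (A : Matrix (Fin a) (Fin b) (MvPolynomial (Fin n) K))
    (s : Fin n → Set K) (hs : ∀ i, (s i).Infinite) :
    ∃ c : Fin n → K, (∀ i, c i ∈ s i) ∧ grk A ≤ (A.map (eval c)).rank := by
  let F := FractionRing (MvPolynomial (Fin n) K)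
  let j := algebraMap (MvPolynomial (Fin n) K) F
  have hj : Function.Injective j := IsFractionRing.injective _ _
  obtain ⟨L, R, h⟩ := compress (A.map j)
  have hr : (A.map j).rank = grk A := rfl
  rw [← hr]
  generalize (A.map j).rank = r at L R h ⊢
  obtain ⟨d, hd⟩ := IsLocalization.exist_integer_multiples_of_finite
    (nonZeroDivisors (MvPolynomial (Fin n) K)) (fun q : Fin r × Fin a => L q.1 q.2)
  obtain ⟨d', hd'⟩ := IsLocalization.exist_integer_multiples_of_finite
    (nonZeroDivisors (MvPolynomial (Fin n) K)) (fun q : Fin b × Fin r => R q.1 q.2)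
  choose l hl using hd
  choose r' hr' using hd'
  let L' : Matrix (Fin r) (Fin a) (MvPolynomial (Fin n) K) := Matrix.of fun i k => l (i, k)
  let R' : Matrix (Fin b) (Fin r) (MvPolynomial (Fin n) K) := Matrix.of fun i k => r' (i, k)
  let T : Matrix (Fin r) (Fin r) (MvPolynomial (Fin n) K) := L' * A * R'
  have hL : L'.map j = j (d : MvPolynomial (Fin n) K) • L := by
    ext i k
    rw [Matrix.map_apply, Matrix.smul_apply, smul_eq_mul]
    exact (hl (i, k)).trans (Algebra.smul_def _ _)
  have hR : R'.map j = j (d' : MvPolynomial (Fin n) K) • R := by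
    ext i k
    rw [Matrix.map_apply, Matrix.smul_apply, smul_eq_mul]
    exact (hr' (i, k)).trans (Algebra.smul_def _ _)
  have hT : T.map j = (j (d : MvPolynomial (Fin n) K) * j (d' : MvPolynomial (Fin n) K)) •
      (1 : Matrix (Fin r) (Fin r) F) := by
    rw [← h]
    show (L' * A * R').map j = _
    rw [Matrix.map_mul, Matrix.map_mul, hL, hR, Matrix.smul_mul, Matrix.smul_mul,
      Matrix.mul_smul, smul_smul]
  have hdet : T.det ≠ 0 := by
    intro h0
    have h1 : j T.det = (T.map j).det := RingHom.map_det _ _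
    rw [h0, map_zero, hT, Matrix.det_smul, Matrix.det_one, mul_one] at h1
    have h2 : j (d : MvPolynomial (Fin n) K) * j (d' : MvPolynomial (Fin n) K) ≠ 0 := by
      refine mul_ne_zero ?_ ?_
      · intro h3
        exact nonZeroDivisors.coe_ne_zero d (hj (h3.trans (map_zero j).symm))
      · intro h3
        exact nonZeroDivisors.coe_ne_zero d' (hj (h3.trans (map_zero j).symm))
    exact pow_ne_zero _ h2 h1.symm
  obtain ⟨c, hc, hc0⟩ : ∃ c ∈ Set.pi Set.univ s, eval c T.det ≠ 0 := by
    by_contra hcon
    push Not at hcon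
    exact hdet (funext_set s hs fun c hc => by rw [hcon c hc, map_zero])
  refine ⟨c, fun i => hc i (Set.mem_univ i), ?_⟩
  refine rank_ge _ (L'.map (eval c)) (R'.map (eval c)) ?_
  have h1 : eval c T.det = (T.map (eval c)).det := RingHom.map_det _ _
  rw [← Matrix.map_mul, ← Matrix.map_mul]
  show (T.map (eval c)).det ≠ 0
  rw [← h1]
  exact hc0

/-- the rank of a matrix of index one is attained where the lowest coefficient of the
characteristic polynomial does not vanish -/
theorem rank_index_one {N : ℕ} (Y : Matrix (Fin N) (Fin N) (MvPolynomial (Fin n) K))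
    (h : grk Y ≤ grk (Y * Y)) (c : Fin n → K) (hc : eval c Y.charpoly.trailingCoeff ≠ 0) :
    grk Y ≤ (Y.map (eval c)).rank := by
  let F := FractionRing (MvPolynomial (Fin n) K)
  let j := algebraMap (MvPolynomial (Fin n) K) F
  have hj : Function.Injective j := IsFractionRing.injective _ _
  rcases Nat.eq_zero_or_pos N with h0 | h0
  · subst h0
    have h1 : grk Y ≤ 0 := Matrix.rank_le_height _
    omega
  have h1 := rank_pow_card (Y.map j)
  have h2 := rank_pow_card (Y.map (eval c))
  rw [Fintype.card_fin] at h1 h2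
  have h3 : (Y.map j).rank ≤ ((Y.map j) ^ N).rank := by
    refine rank_le_pow' (Y.map j) ?_ N h0
    have h5 : grk (Y * Y) = (Y.map j * Y.map j).rank := by
      rw [← Matrix.map_mul]
      rfl
    rw [← h5]
    exact h
  have h4 : (Y.map j).charpoly.natTrailingDegree = Y.charpoly.natTrailingDegree := by
    rw [Matrix.charpoly_map]
    exact map_natTrailingDegree j hj _ (Matrix.charpoly_monic Y).ne_zero
  have h5 : (Y.map (eval c)).charpoly.natTrailingDegree ≤ Y.charpoly.natTrailingDegree := by
    refine Polynomial.natTrailingDegree_le_of_ne_zero ?_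
    rw [Matrix.charpoly_map, Polynomial.coeff_map]
    exact hc
  have h6 : ((Y.map (eval c)) ^ N).rank ≤ (Y.map (eval c)).rank := rank_pow_le _ N h0
  have h7 : grk Y = (Y.map j).rank := rfl
  omega

end generic

open scoped ComplexOrder in
/-- Hermitian matrices have index one -/
theorem hermitian_index {n N : ℕ} (Y : Matrix (Fin N) (Fin N) (MvPolynomial (Fin n) ℂ))
    (h : ∀ c : Fin n → ℝ, (Y.map (eval fun i => (c i : ℂ))).IsHermitian) :
    grk (Y * Y) = grk Y := by
  apply le_antisymm
  · show ((Y * Y).map _).rank ≤ _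
    rw [Matrix.map_mul]
    exact Matrix.rank_mul_le_left _ _
  · obtain ⟨c, hc, hr⟩ := exists_rank Y (fun _ => Set.range ((↑) : ℝ → ℂ))
      (fun _ => Set.infinite_range_of_injective Complex.ofReal_injective)
    choose c' hc' using hc
    have hcc : (fun i => (c' i : ℂ)) = c := funext hc'
    have h1 := h c'
    rw [hcc] at h1
    calc grk Y ≤ (Y.map (eval c)).rank := hr
      _ = ((Y.map (eval c)).conjTranspose * Y.map (eval c)).rank :=
        (Matrix.rank_conjTranspose_mul_self _).symm
      _ = ((Y * Y).map (eval c)).rank := by rw [h1.eq, Matrix.map_mul]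
      _ ≤ grk (Y * Y) := rank_eval_le _ _

end Pool.Agent.TH189.Kr
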