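import Pool.Agent.TH189.Aut4

/-!
The final form of the bounds.
-/

set_option autoImplicit false

namespace Pool.Agent.TH189.Aut

open Module MvPolynomial Pool.Agent.H929R2.Hart

variable {σ : Type} [Fintype σ] [DecidableEq σ] {I : Ideal (MvPolynomial σ ℂ)}

/-- the linear forms vanishing on the variety -/
theorem finrank_linsub (hI : I.IsPrime) :
    Module.finrank ℂ (linsub I) = Fintype.card σ - finrank ℂ (Sp I) := by
  have h1 : linsub I = (dotB σ ℂ).orthogonal (Sp I) := by
    ext u
    rw [mem_linsub, LinearMap.BilinForm.mem_orthogonal_iff]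
    constructor
    · intro hu x hx
      induction hx using Submodule.span_induction with
      | mem x hx =>
        have := hx _ hu
        rw [eval_lin, dotB_comm] at this
        exact this
      | zero => rw [map_zero]; rfl
      | add x y _ _ h1 h2 => rw [map_add, LinearMap.add_apply, h1, h2, add_zero]
      | smul c x _ h1 => rw [map_smul, LinearMap.smul_apply, h1, smul_zero]
    · intro hu
      apply mem_of_vanish I hI
      intro x hx
      rw [eval_lin, dotB_comm]
      exact hu x (mem_sp hx)
  have h2 := LinearMap.BilinForm.finrank_orthogonal (dotB_nondegenerate (σ := σ) (K := ℂ)) (Sp I)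
  rw [finrank_fintype_fun_eq_card] at h2
  rw [h1, h2]

/-- a set of equations of bounded degree -/
theorem exists_cut (I : Ideal (MvPolynomial σ ℂ)) :
    ∃ d : ℕ, 1 ≤ d ∧ ∀ x, (∀ F ∈ I, F.totalDegree ≤ d → eval x F = 0) → x ∈ cone I := by
  obtain ⟨s, hs⟩ := (isNoetherianRing_iff_ideal_fg _).1 inferInstance I
  refine ⟨max 1 (s.sup totalDegree), le_max_left _ _, fun x hx F hF => ?_⟩
  have h1 : I ≤ RingHom.ker (eval x) := by
    rw [← hs, Ideal.span_le]
    intro G hG
    exact hx G (by rw [← hs]; exact Ideal.subset_span hG)
      ((Finset.le_sup (f := totalDegree) hG).trans (le_max_right _ _))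
  exact h1 hF

end Pool.Agent.TH189.Aut
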