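import Mathlib
import Pool.Agent.TH202.Dat
import Pool.Agent.H436R3.Fol.Div

/-!
# The `c`-adic valuation of `K = ℂ(a, b)(r)(c)`
-/

set_option autoImplicit false

namespace Pool.Agent.TH189.C8_VS

open Pool.Agent.H436R3.Fol Pool.Agent.TH202 MvPolynomial

variable {K : Type} [Field K] [Algebra ℂ K]

/-- Elements of `K` that are algebraic over a subfield of the valuation ring are in the valuation
ring. -/
theorem reg_of_algebraic (v : DVal K) (F : Subfield K) (hF : ∀ f ∈ F, f ≠ 0 → v.ord f = 0) {x : K}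
    (hx : IsAlgebraic F x) : v.Reg x := by
  by_contra hreg
  rw [DVal.Reg, not_or, not_le] at hreg
  obtain ⟨hx0, hneg⟩ := hreg
  obtain ⟨p, hp0, hp⟩ := hx.isIntegral
  have hpn : 0 < p.natDegree := by
    rcases Nat.eq_zero_or_pos p.natDegree with h | h
    · have h1 := hp0.natDegree_eq_zero.1 h
      rw [h1] at hp
      simp at hp
    · exact h
  have hinv : v.Reg x⁻¹ := by
    right
    rw [v.ord_inv hx0]
    omega
  have hO : ∀ f ∈ F, v.Reg f := by
    intro f hf
    by_cases h0 : f = 0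
    · left; exact h0
    · right; rw [hF f hf h0]
  obtain ⟨n, hn⟩ : ∃ n, p.natDegree = n + 1 := ⟨p.natDegree - 1, by omega⟩
  rw [Polynomial.eval₂_eq_sum_range, Finset.sum_range_succ, hn] at hp
  have hlead : p.coeff (n + 1) = 1 := by rw [← hn]; exact hp0
  rw [hlead, map_one, one_mul] at hp
  have h1 : x ^ (n + 1) = -∑ i ∈ Finset.range (n + 1), (algebraMap F K) (p.coeff i) * x ^ i := by
    linear_combination hp
  have h2 : x ^ (n + 1) * (x⁻¹) ^ n = x := by
    rw [pow_succ, mul_right_comm, ← mul_pow, mul_inv_cancel₀ hx0, one_pow, one_mul]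
  have h3 : v.Reg (x ^ (n + 1) * (x⁻¹) ^ n) := by
    rw [h1, neg_mul, Finset.sum_mul]
    apply v.reg_neg
    have h4 : ∀ s ∈ Finset.range (n + 1),
        (algebraMap F K) (p.coeff s) * x ^ s * x⁻¹ ^ n ∈ v.O := by
      intro i hi
      rw [Finset.mem_range] at hi
      obtain ⟨m, rfl⟩ : ∃ m, n = i + m := ⟨n - i, by omega⟩
      have h5 : (algebraMap F K) (p.coeff i) * x ^ i * x⁻¹ ^ (i + m) =
          (algebraMap F K) (p.coeff i) * x⁻¹ ^ m := by
        rw [pow_add, mul_assoc, ← mul_assoc (x ^ i), ← mul_pow, mul_inv_cancel₀ hx0, one_pow,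
          one_mul]
      rw [h5]
      exact v.O.mul_mem (hO _ (p.coeff i).2) (v.O.pow_mem hinv m)
    exact v.O.sum_mem h4
  rw [h2] at h3
  rcases h3 with h3 | h3
  · exact hx0 h3
  · omega

theorem ord_zero_of_algebraic (v : DVal K) (F : Subfield K) (hF : ∀ f ∈ F, f ≠ 0 → v.ord f = 0)
    {x : K} (hx : IsAlgebraic F x) (hx0 : x ≠ 0) : v.ord x = 0 := by
  have h1 := (reg_of_algebraic v F hF hx).resolve_left hx0
  have h2 := (reg_of_algebraic v F hF hx.inv).resolve_left (inv_ne_zero hx0)
  rw [v.ord_inv hx0] at h2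
  omega

/-- The valuation of `κ(c)` at `c = 0`. -/
theorem gen_val {κ : Type} [Field κ] [Algebra ℂ κ] [Algebra κ K] [IsScalarTower ℂ κ K] (c : K)
    (hc : Transcendental κ c) (htop : IntermediateField.adjoin κ {c} = ⊤) :
    ∃ v : DVal K, (∀ k : κ, k ≠ 0 → v.ord (algebraMap κ K k) = 0) ∧ v.ord c = 1 ∧
      ∀ w : DVal K, (∀ k : κ, k ≠ 0 → w.ord (algebraMap κ K k) = 0) → 0 < w.ord c →
        ∀ f, f ≠ 0 → w.ord f = v.ord f := by
  let : Algebra (Polynomial κ) K := (Polynomial.aeval (R := κ) c).toRingHom.toAlgebra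
  have hmap : ∀ p : Polynomial κ, algebraMap (Polynomial κ) K p = Polynomial.aeval c p :=
    fun _ => rfl
  have hinj : Function.Injective (algebraMap (Polynomial κ) K) :=
    transcendental_iff_injective.1 hc
  have : FaithfulSMul (Polynomial κ) K := (faithfulSMul_iff_algebraMap_injective _ _).2 hinj
  have : IsFractionRing (Polynomial κ) K := IsFractionRing.of_field _ _ (by
    intro z
    have hz : z ∈ IntermediateField.adjoin κ {c} := htop ▸ IntermediateField.mem_top
    exact (IntermediateField.mem_adjoin_simple_iff κ z).1 hz)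
  have : IsScalarTower ℂ (Polynomial κ) K := IsScalarTower.of_algebraMap_eq (by
    intro z
    rw [hmap, IsScalarTower.algebraMap_apply ℂ κ (Polynomial κ), Polynomial.algebraMap_eq,
      Polynomial.aeval_C, ← IsScalarTower.algebraMap_apply])
  have hp : Prime (Polynomial.X : Polynomial κ) := Polynomial.prime_X
  have hC : ∀ k : κ, algebraMap κ K k = algebraMap (Polynomial κ) K (Polynomial.C k) := by
    intro k
    rw [hmap, Polynomial.aeval_C]
  have hX : algebraMap (Polynomial κ) K Polynomial.X = c := by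
    rw [hmap, Polynomial.aeval_X]
  have hc0 : c ≠ 0 := by
    rw [← hX]
    exact (map_ne_zero_iff _ hinj).2 Polynomial.X_ne_zero
  refine ⟨valP K Polynomial.X hp, ?_, ?_, ?_⟩
  · intro k hk
    rw [hC, valP_ord hp (Polynomial.C_ne_zero.2 hk), multiplicity_eq_zero.2]
    · rfl
    · intro h
      have h1 := Polynomial.X_dvd_iff.1 h
      rw [Polynomial.coeff_C_zero] at h1
      exact hk h1
  · have := valP_ord (K := K) hp hp.ne_zero
    rw [hX, multiplicity_self] at this
    exact this
  · intro w hw hwc f hf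
    -- the polynomials in `c`
    have hSreg : ∀ p : Polynomial κ, w.Reg (algebraMap (Polynomial κ) K p) := by
      intro p
      rw [hmap, Polynomial.aeval_eq_sum_range]
      apply w.O.sum_mem
      intro i _
      rw [Algebra.smul_def]
      apply w.O.mul_mem
      · by_cases hk : p.coeff i = 0
        · rw [hk, map_zero]; exact w.O.zero_mem
        · exact Or.inr (hw _ hk).ge
      · exact w.O.pow_mem (Or.inr hwc.le) i
    let S : Subalgebra ℂ K := (IsScalarTower.toAlgHom ℂ (Polynomial κ) K).range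
    have hmemS : ∀ f, f ∈ S ↔ ∃ p, algebraMap (Polynomial κ) K p = f := by
      intro f
      exact AlgHom.mem_range _
    have hv : IsLocalRing' S (valP K Polynomial.X hp) := by
      refine ⟨?_, ?_⟩
      · intro f hf
        obtain ⟨p, rfl⟩ := (hmemS f).1 hf
        exact valP_reg hp p
      · intro f hf
        obtain ⟨a, b, hb0, hb, rfl⟩ := exists_frac_of_reg hp hf
        have hb1 : algebraMap (Polynomial κ) K b ≠ 0 := (map_ne_zero_iff _ hinj).2 hb0
        refine ⟨_, _, (hmemS _).2 ⟨a, rfl⟩, (hmemS _).2 ⟨b, rfl⟩, hb1, ?_, div_mul_cancel₀ _ hb1⟩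
        rw [valP_ord hp hb0, multiplicity_eq_zero.2 hb]
        rfl
    symm
    apply agree_of_key hv _ _ hf
    · intro f hf
      obtain ⟨p, rfl⟩ := (hmemS f).1 hf
      exact hSreg p
    · intro f hf hpos
      obtain ⟨p, rfl⟩ := (hmemS f).1 hf
      rw [valP_pos_iff hp]
      rw [Polynomial.X_dvd_iff]
      by_contra hk
      have h1 : algebraMap (Polynomial κ) K p =
          c * algebraMap (Polynomial κ) K p.divX + algebraMap κ K (p.coeff 0) := by
        conv_lhs => rw [← Polynomial.X_mul_divX_add p]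
        rw [map_add, map_mul, hX, hC]
      have h2 : w.Pos (c * algebraMap (Polynomial κ) K p.divX) := by
        rw [mul_comm]
        exact w.pos_mul_left (hSreg _) (Or.inr hwc)
      have h3 : w.Pos (algebraMap κ K (p.coeff 0)) := by
        have h4 : algebraMap κ K (p.coeff 0) = algebraMap (Polynomial κ) K p +
            (-1) * (c * algebraMap (Polynomial κ) K p.divX) := by
          rw [h1]; ring
        rw [h4]
        refine w.pos_add hpos (w.pos_mul_left ?_ h2)
        exact w.reg_neg w.reg_one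
      rcases h3 with h3 | h3
      · exact hk ((map_eq_zero _).1 h3)
      · rw [hw _ hk] at h3
        exact lt_irrefl _ h3

variable (d : Dat K)

/-- The set `{a, b}`. -/
def Sab : Set K := ![d.a, d.b, d.c] '' {0, 1}

/-- The field `ℂ(a, b)`. -/
noncomputable def k0 : IntermediateField ℂ K := IntermediateField.adjoin ℂ (Sab d)

theorem a_mem : d.a ∈ Sab d := ⟨0, by simp, rfl⟩
theorem b_mem : d.b ∈ Sab d := ⟨1, by simp, rfl⟩

theorem a_mem_k0 : d.a ∈ k0 d := IntermediateField.subset_adjoin _ _ (a_mem d)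
theorem b_mem_k0 : d.b ∈ k0 d := IntermediateField.subset_adjoin _ _ (b_mem d)

/-- The field `ℂ(a, b, r)`. -/
noncomputable def kap : IntermediateField (k0 d) K := IntermediateField.adjoin (k0 d) {d.r}

theorem a_ne : d.a ≠ 0 := d.ind.ne_zero 0
theorem b_ne : d.b ≠ 0 := d.ind.ne_zero 1
theorem c_ne : d.c ≠ 0 := d.ind.ne_zero 2

theorem a2_ne : 1 - d.a ^ 2 ≠ 0 := by
  intro h
  have h0 : AlgebraicIndependent ℂ ![d.a, d.b, d.c] := d.ind
  have h1 : Transcendental ℂ d.a := h0.transcendental 0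
  apply h1
  refine ⟨1 - Polynomial.X ^ 2, ?_, by simpa using h⟩
  intro h2
  have h3 := congrArg (Polynomial.eval 0) h2
  simp at h3

open scoped IntermediateField.algebraAdjoinAdjoin in
theorem trans_field (S : Set K) {x : K} (h : Transcendental (Algebra.adjoin ℂ S) x) :
    Transcendental (IntermediateField.adjoin ℂ S) x :=
  h.extendScalars (IntermediateField.adjoin ℂ S)

theorem c_trans_k0 : Transcendental (k0 d) d.c := by
  apply trans_field
  exact d.ind.transcendental_adjoin (i := 2) (by simp)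

theorem r_alg : IsAlgebraic (k0 d) d.r := by
  have h1 : d.r ^ 3 = d.a ^ 2 * (1 - d.b ^ 2) / (d.b ^ 2 * (1 - d.a ^ 2)) := by
    rw [eq_div_iff (mul_ne_zero (pow_ne_zero _ (b_ne d)) (a2_ne d)), d.r3]
  have h2 : d.r ^ 3 ∈ k0 d := by
    rw [h1]
    have ha := a_mem_k0 d
    have hb := b_mem_k0 d
    exact div_mem (mul_mem (pow_mem ha 2) (sub_mem (one_mem _) (pow_mem hb 2)))
      (mul_mem (pow_mem hb 2) (sub_mem (one_mem _) (pow_mem ha 2)))
  have h3 : IsAlgebraic (k0 d) (d.r ^ 3) := isAlgebraic_algebraMap (⟨_, h2⟩ : k0 d)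
  exact h3.of_pow (by norm_num)

theorem kap_alg : Algebra.IsAlgebraic (k0 d) (kap d) :=
  IntermediateField.isAlgebraic_adjoin_simple (r_alg d).isIntegral

instance tower_kap : IsScalarTower ℂ (kap d) K := IsScalarTower.of_algebraMap_eq fun _ => rfl

theorem c_trans : Transcendental (kap d) d.c := by
  have := kap_alg d
  exact (c_trans_k0 d).extendScalars (kap d)

theorem mem_kap_of_k0 {x : K} (hx : x ∈ k0 d) : x ∈ kap d := (kap d).algebraMap_mem ⟨x, hx⟩

theorem r_mem_kap : d.r ∈ kap d := IntermediateField.mem_adjoin_simple_self _ _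

theorem mem_top_of_kap {x : K} (hx : x ∈ kap d) : x ∈ IntermediateField.adjoin (kap d) {d.c} :=
  (IntermediateField.adjoin (kap d) {d.c}).algebraMap_mem ⟨x, hx⟩

theorem top_eq : IntermediateField.adjoin (kap d) {d.c} = ⊤ := by
  rw [eq_top_iff]
  intro f _
  have key : IntermediateField.adjoin ℂ ({d.a, d.b, d.c} : Set K) ≤
      (IntermediateField.adjoin (kap d) {d.c}).restrictScalars ℂ := by
    rw [IntermediateField.adjoin_le_iff]
    rintro x (rfl | rfl | rfl)
    · rw [SetLike.mem_coe, IntermediateField.mem_restrictScalars]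
      exact mem_top_of_kap d (mem_kap_of_k0 d (a_mem_k0 d))
    · rw [SetLike.mem_coe, IntermediateField.mem_restrictScalars]
      exact mem_top_of_kap d (mem_kap_of_k0 d (b_mem_k0 d))
    · rw [SetLike.mem_coe, IntermediateField.mem_restrictScalars]
      exact IntermediateField.mem_adjoin_simple_self _ _
  have hr : d.r ∈ IntermediateField.adjoin (kap d) {d.c} := mem_top_of_kap d (r_mem_kap d)
  have key' : ∀ x ∈ IntermediateField.adjoin ℂ ({d.a, d.b, d.c} : Set K),
      x ∈ IntermediateField.adjoin (kap d) {d.c} := by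
    intro x hx
    have := key hx
    rwa [IntermediateField.mem_restrictScalars] at this
  obtain ⟨g0, h0, g1, h1, g2, h2, rfl⟩ := d.gen f
  exact add_mem (add_mem (key' _ h0) (mul_mem (key' _ h1) hr)) (mul_mem (key' _ h2) (pow_mem hr 2))

theorem ab_range (q : MvPolynomial (Fin 2) ℂ) : aeval ![d.a, d.b] q ∈ k0 d := by
  have h : aeval ![d.a, d.b] q ∈ (aeval ![d.a, d.b] : MvPolynomial (Fin 2) ℂ →ₐ[ℂ] K).range :=
    ⟨q, rfl⟩
  rw [← Algebra.adjoin_range_eq_range_aeval] at h
  have h2 : Algebra.adjoin ℂ (Set.range ![d.a, d.b]) ≤ (k0 d).toSubalgebra := by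
    rw [Algebra.adjoin_le_iff]
    rintro x ⟨i, rfl⟩
    fin_cases i
    · exact a_mem_k0 d
    · exact b_mem_k0 d
  exact h2 h

theorem ab_ind : AlgebraicIndependent ℂ ![d.a, d.b] := by
  have h := d.ind.comp (Fin.castLE (by omega : 2 ≤ 3)) (Fin.castLE_injective _)
  convert h using 1
  funext i
  fin_cases i <;> rfl

theorem Sab_eq : Sab d = Set.range ![d.a, d.b] := by
  ext x
  simp [Sab, eq_comm, or_comm]

/-- A valuation with `IsS` is trivial on `ℂ(a, b)`. -/
theorem ord_k0 {w : DVal K} (hw : IsS d w) {f : K} (hf : f ∈ k0 d) (hf0 : f ≠ 0) :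
    w.ord f = 0 := by
  rw [k0, Sab_eq, IntermediateField.mem_adjoin_range_iff] at hf
  obtain ⟨r, s, rfl⟩ := hf
  rw [div_ne_zero_iff] at hf0
  have hr : r ≠ 0 := by rintro rfl; simp at hf0
  have hs : s ≠ 0 := by rintro rfl; simp at hf0
  rw [w.ord_div hf0.1 hf0.2, hw.1 r hr, hw.1 s hs, sub_zero]

/-- A valuation with `IsS` is trivial on `ℂ(a, b, r)`. -/
theorem ord_kap {w : DVal K} (hw : IsS d w) (k : kap d) (hk : k ≠ 0) :
    w.ord (algebraMap (kap d) K k) = 0 := by
  have h1 : IsAlgebraic (k0 d) (algebraMap (kap d) K k) :=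
    ((kap_alg d).isAlgebraic k).algebraMap
  exact ord_zero_of_algebraic w (k0 d).toSubfield (fun f hf hf0 => ord_k0 d hw hf hf0) h1
    ((map_ne_zero _).2 hk)

end Pool.Agent.TH189.C8_VS

namespace Pool.Agent.TH189.C8_VS

open Pool.Agent.H436R3.Fol Pool.Agent.TH202 MvPolynomial

/-- The `c`-adic valuation of `K`. -/
theorem exists_vS {K : Type} [Field K] [Algebra ℂ K] (d : Dat K) :
    ∃ v : DVal K, IsS d v ∧ v.ord d.c = 1 ∧
      ∀ v' : DVal K, IsS d v' → ∀ f, f ≠ 0 → v'.ord f = v.ord f := by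
  obtain ⟨v, h1, h2, h3⟩ := gen_val d.c (c_trans d) (top_eq d)
  refine ⟨v, ⟨?_, by rw [h2]; norm_num⟩, h2, ?_⟩
  · intro q hq
    have hq0 : aeval ![d.a, d.b] q ≠ 0 := by
      intro h0
      exact hq ((ab_ind d) (by rw [h0, map_zero]))
    have := h1 ⟨aeval ![d.a, d.b] q, mem_kap_of_k0 d (ab_range d q)⟩ (by
      intro h0
      exact hq0 (congrArg Subtype.val h0))
    exact this
  · intro v' hv' f hf
    exact h3 v' (fun k hk => ord_kap d hv' k hk) hv'.2 f hf

end Pool.Agent.TH189.C8_VS
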