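import Pool.Agent.TH189.Sg11

/-!
The torus of a liftable vector field with integral eigenvalues consists of symmetries.
-/

set_option autoImplicit false

open MvPolynomial H960VB H938TB Pool.Agent.W615 Pool.Agent.W467.FO

namespace Pool.Agent.TH189.Sg

open Module

section additive

variable {A B C : Type} [AddCommGroup A] [Module ℂ A] [FiniteDimensional ℂ A]
  [AddCommGroup B] [Module ℂ B] [FiniteDimensional ℂ B]
  [AddCommGroup C] [Module ℂ C] [FiniteDimensional ℂ C]
  {f : End ℂ A} {g : End ℂ B} {h : End ℂ C} {β : A →ₗ[ℂ] B →ₗ[ℂ] C}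

theorem gen_add (hβ : ∀ a b, β (f a) b + β a (g b) = h (β a b)) {l m : ℂ} {a : A} {b : B}
    (ha : a ∈ f.maxGenEigenspace l) (hb : b ∈ g.maxGenEigenspace m) :
    β a b ∈ h.maxGenEigenspace (l + m) := by
  rw [End.mem_maxGenEigenspace] at ha hb ⊢
  obtain ⟨i, hi⟩ := ha
  obtain ⟨j, hj⟩ := hb
  have h1 := ge_bilin f g h β 0 (fun a b => by rw [zero_smul, add_zero, hβ]) l m (i + j) i j a b
    le_rfl hi hj
  rw [sub_zero] at h1
  exact ⟨i + j, h1⟩

/-- exponentials of derivations are multiplicative -/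
theorem fc_expo (hβ : ∀ a b, β (f a) b + β a (g b) = h (β a b)) (φ : ℂ → ℂ)
    (hφ : ∀ x y : ℂ, φ (x + y) = φ x * φ y) (a : A) (b : B) :
    β (fc f φ a) (fc g φ b) = fc h φ (β a b) := by
  have h1 : β.compl₁₂ (fc f φ) (fc g φ) = β.compr₂ (fc h φ) := by
    refine bilin_ext f g fun l m a ha b hb => ?_
    show β (fc f φ a) (fc g φ b) = fc h φ (β a b)
    rw [fc_apply _ _ ha, fc_apply _ _ hb, fc_apply _ _ (gen_add hβ ha hb), hφ, map_smul, map_smul,
      LinearMap.smul_apply, smul_smul, mul_comm]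
  exact LinearMap.congr_fun (LinearMap.congr_fun h1 a) b

theorem fc_injective (φ : ℂ → ℂ) (hφ : ∀ x, φ x ≠ 0) : Function.Injective (fc f φ) := by
  have h1 : fc f (fun z => (φ z)⁻¹) * fc f φ = 1 := by
    refine gen_ext f fun μ v hv => ?_
    rw [Module.End.mul_apply, fc_apply _ _ hv, map_smul, fc_apply _ _ hv, smul_smul,
      mul_inv_cancel₀ (hφ μ), one_smul]
    rfl
  intro x y hxy
  have h2 := congrArg (fc f (fun z => (φ z)⁻¹)) hxy
  rw [← Module.End.mul_apply, ← Module.End.mul_apply, h1] at h2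
  exact h2

end additive

variable {n : ℕ} {E : Bundle2 n} {N : Matrix (Fin (n + 1)) (Fin (n + 1)) ℂ}

/-- the operator on the sections of a twist -/
noncomputable def opD (R : Op E N) (d : ℤ) : End ℂ (SecM E d) where
  toFun G := ⟨R.D G.1, R.sec d _ G.2⟩
  map_add' G H := Subtype.ext (R.add d _ _ G.2 H.2)
  map_smul' c G := by
    apply Subtype.ext
    have h1 := R.smul_sec G.2 c
    have h2 : ∀ H : Vec E.a n, c • H = fun i => C c * H i := by
      intro H
      funext i
      rw [Pi.smul_apply, smul_eq_C_mul]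
    show R.D (c • (G : Vec E.a n)) = c • R.D G
    rw [h2, h2, h1]

theorem vf_mem {e : ℕ} {p : MvPolynomial (Fin (n + 1)) ℂ} (hp : p ∈ HM n e) : vf N p ∈ HM n e := by
  have h1 := mem_HM_of_homZ (vf_homZ N (homZ_of_mem hp))
  rwa [Int.toNat_natCast] at h1

/-- the vector field on the homogeneous polynomials -/
noncomputable def vfE (N : Matrix (Fin (n + 1)) (Fin (n + 1)) ℂ) (e : ℕ) : End ℂ (HM n e) where
  toFun p := ⟨vf N p.1, vf_mem p.2⟩
  map_add' p q := Subtype.ext (map_add (vf N) _ _)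
  map_smul' c p := Subtype.ext ((vf N).map_smul c p.1)

theorem exp_mon {w : Fin (n + 1) → ℤ} (y : Basis (Fin (n + 1)) ℂ (Fin (n + 1) → ℂ))
    {T : (Fin (n + 1) → ℂ) →ₗ[ℂ] (Fin (n + 1) → ℂ)} {φ : ℂ → ℂ}
    (hvf : ∀ u : Fin (n + 1) →₀ ℕ, vf N (mon y u) =
      ((∑ i, w i * (u i : ℤ) : ℤ) : ℂ) • mon y u)
    (hT : ∀ u : Fin (n + 1) →₀ ℕ, lsub T (mon y u) =
      φ ((∑ i, w i * (u i : ℤ) : ℤ) : ℂ) • mon y u) (e : ℕ) (P : HM n e) :
    (fc (vfE N e) φ P : MvPolynomial (Fin (n + 1)) ℂ) = lsub T P := by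
  have key : ∀ q ∈ Submodule.span ℂ {q | ∃ u : Fin (n + 1) →₀ ℕ, u.degree = e ∧ q = mon y u},
      ∃ hq : q ∈ HM n e, (fc (vfE N e) φ ⟨q, hq⟩ : MvPolynomial (Fin (n + 1)) ℂ) = lsub T q := by
    intro q hq
    induction hq using Submodule.span_induction with
    | mem q hq =>
      obtain ⟨u, hu, rfl⟩ := hq
      have hm : mon y u ∈ HM n e := by
        have := mon_mem y u
        rwa [hu] at this
      refine ⟨hm, ?_⟩
      have h1 : (⟨mon y u, hm⟩ : HM n e) ∈
          (vfE N e).maxGenEigenspace ((∑ i, w i * (u i : ℤ) : ℤ) : ℂ) := by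
        rw [End.mem_maxGenEigenspace]
        refine ⟨1, ?_⟩
        rw [pow_one, LinearMap.sub_apply, sub_eq_zero]
        apply Subtype.ext
        show vf N (mon y u) = ((∑ i, w i * (u i : ℤ) : ℤ) : ℂ) • mon y u
        exact hvf u
      rw [fc_apply _ _ h1, hT u]
      rfl
    | zero =>
      refine ⟨Submodule.zero_mem _, ?_⟩
      have h1 : (⟨0, Submodule.zero_mem _⟩ : HM n e) = 0 := rfl
      rw [h1, map_zero, map_zero]
      rfl
    | add a b _ _ ha hb =>
      obtain ⟨ha, ha'⟩ := ha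
      obtain ⟨hb, hb'⟩ := hb
      refine ⟨Submodule.add_mem _ ha hb, ?_⟩
      have h1 : (⟨a + b, Submodule.add_mem _ ha hb⟩ : HM n e) = ⟨a, ha⟩ + ⟨b, hb⟩ := rfl
      rw [h1, map_add, map_add, Submodule.coe_add, ha', hb']
    | smul c a _ ha =>
      obtain ⟨ha, ha'⟩ := ha
      refine ⟨Submodule.smul_mem _ c ha, ?_⟩
      have h1 : (⟨c • a, Submodule.smul_mem _ c ha⟩ : HM n e) = c • ⟨a, ha⟩ := rfl
      rw [h1, map_smul, map_smul, Submodule.coe_smul, ha']
  obtain ⟨_, h⟩ := key P.1 (mon_span y e P.1 P.2)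
  exact h

/-- **Exponential of a liftable vector field.** -/
theorem exp_lift (R : Op E N) {T : (Fin (n + 1) → ℂ) →ₗ[ℂ] (Fin (n + 1) → ℂ)} (φ : ℂ → ℂ)
    (hφ : ∀ x y : ℂ, φ (x + y) = φ x * φ y) (hφ0 : ∀ x, φ x ≠ 0)
    (hT : ∀ (e : ℕ) (P : HM n e), (fc (vfE N e) φ P : MvPolynomial (Fin (n + 1)) ℂ) = lsub T P) :
    Nonempty (GOp E T) := by
  classical
  let D : Vec E.a n → Vec E.a n := fun G =>
    if h : ∃ d : ℤ, G ∈ SecM E d then (fc (opD R h.choose) φ ⟨G, h.choose_spec⟩ : Vec E.a n) else 0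
  have hD : ∀ (d : ℤ) (G : Vec E.a n) (hG : G ∈ SecM E d), D G = fc (opD R d) φ ⟨G, hG⟩ := by
    intro d G hG
    have h : ∃ d : ℤ, G ∈ SecM E d := ⟨d, hG⟩
    show (if h : ∃ d : ℤ, G ∈ SecM E d then
      (fc (opD R h.choose) φ ⟨G, h.choose_spec⟩ : Vec E.a n) else 0) = _
    rw [dif_pos h]
    by_cases hG0 : ∃ i, G i ≠ 0
    · have h1 : ∀ {d d' : ℤ} (_ : d = d') (hG : G ∈ SecM E d) (hG' : G ∈ SecM E d'),
          (fc (opD R d) φ ⟨G, hG⟩ : Vec E.a n) = fc (opD R d') φ ⟨G, hG'⟩ := by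
        intro d d' h hG hG'
        subst h
        rfl
      exact h1 (deg_unique h.choose_spec hG hG0) _ _
    · push Not at hG0
      have h1 : ∀ (d : ℤ) (hG : G ∈ SecM E d), (⟨G, hG⟩ : SecM E d) = 0 := fun d hG =>
        Subtype.ext (funext hG0)
      rw [h1, h1, map_zero, map_zero]
      rfl
  refine ⟨{ D := D, sec := ?_, add := ?_, mul := ?_, inj := ?_ }⟩
  · intro d G hG
    rw [hD d G hG]
    exact (fc (opD R d) φ ⟨G, hG⟩).2
  · intro d G G' hG hG'
    have h1 : (fun i => G i + G' i) ∈ SecM E d := sec_add hG hG'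
    rw [hD d _ h1, hD d G hG, hD d G' hG']
    have h2 : (⟨fun i => G i + G' i, h1⟩ : SecM E d) = ⟨G, hG⟩ + ⟨G', hG'⟩ := rfl
    rw [h2, map_add]
    rfl
  · intro d e p G hG hp
    rcases hp with rfl | ⟨k, hk, hp⟩
    · have h1 : (fun i => (0 : MvPolynomial (Fin (n + 1)) ℂ) * G i) ∈ SecM E d := by
        have : (fun i => (0 : MvPolynomial (Fin (n + 1)) ℂ) * G i) = 0 := by
          funext i; rw [zero_mul]; rfl
        rw [this]
        exact Submodule.zero_mem _
      rw [hD d _ h1]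
      have h2 : (⟨fun i => (0 : MvPolynomial (Fin (n + 1)) ℂ) * G i, h1⟩ : SecM E d) = 0 :=
        Subtype.ext (funext fun i => zero_mul _)
      rw [h2, map_zero]
      funext i
      rw [map_zero, zero_mul]
      rfl
    · have hp' : p ∈ HM n k := hp
      have h1 := fc_expo (f := vfE N k) (g := opD R d) (h := opD R (k + d)) (β := mulS E k d)
        (fun p G => Subtype.ext (by
          have h2 := R.leib d k p.1 G.1 G.2 (homZ_of_mem p.2)
          exact h2.symm)) φ hφ ⟨p, hp'⟩ ⟨G, hG⟩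
      have h2 := hD (k + d) (fun i => p * G i) (sec_mul (homZ_of_mem hp') hG)
      rw [h2, hD d G hG]
      have h3 : (⟨fun i => p * G i, sec_mul (homZ_of_mem hp') hG⟩ : SecM E (k + d)) =
          mulS E k d ⟨p, hp'⟩ ⟨G, hG⟩ := rfl
      rw [h3, ← h1]
      funext i
      rw [← hT k ⟨p, hp'⟩]
      rfl
  · intro d G hG h0 i
    have h1 : fc (opD R d) φ ⟨G, hG⟩ = fc (opD R d) φ 0 := by
      rw [map_zero]
      apply Subtype.ext
      rw [← hD d G hG]
      exact funext h0
    have h2 := fc_injective (f := opD R d) φ hφ0 h1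
    exact congrFun (congrArg Subtype.val h2) i

/-- **The torus consists of symmetries.** -/
theorem torus_sym {P P' : Matrix (Fin (n + 1)) (Fin (n + 1)) ℂ} {w : Fin (n + 1) → ℤ}
    (hP : P * P' = 1) (hS : LiftsTo E (S0m P P' w)) (t : ℂ) (ht : t ≠ 0) :
    Sym E (dgm P P' (fun i => t ^ w i)) := by
  classical
  have hP' : P' * P = 1 := mul_eq_one_comm.1 hP
  refine ⟨?_, ?_⟩
  · have h1 : dgm P P' (fun i => t ^ w i) * dgm P P' (fun i => t ^ (-w i)) = 1 := by
      rw [dgm_mul hP]
      have : (fun i => t ^ w i * t ^ (-w i)) = fun _ => 1 := by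
        funext i
        rw [← zpow_add₀ ht, add_neg_cancel, zpow_zero]
      rw [this, dgm_one hP]
    exact IsUnit.of_mul_eq_one _ h1
  obtain ⟨R⟩ := hS
  -- the eigenbasis
  have hu : IsUnit P'.transpose := by
    have h1 : P'.transpose * P.transpose = 1 := by
      rw [← Matrix.transpose_mul, hP, Matrix.transpose_one]
    exact IsUnit.of_mul_eq_one _ h1
  obtain ⟨y, hy⟩ : ∃ y : Basis (Fin (n + 1)) ℂ (Fin (n + 1) → ℂ), ∀ i, y i = P' i := by
    have hli : LinearIndependent ℂ (fun i => P' i) := by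
      have h1 := (Matrix.linearIndependent_rows_iff_isUnit (A := P')).2
        (by
          have := (Matrix.isUnit_transpose (A := P')).1 hu
          exact this)
      exact h1
    let b := basisOfLinearIndependentOfCardEqFinrank hli (by simp)
    exact ⟨b, fun i => by simp [b]⟩
  have hact : ∀ (c : Fin (n + 1) → ℂ) (i : Fin (n + 1)),
      (dgm P P' c).transpose.mulVec (y i) = c i • y i := by
    intro c i
    have h1 : (dgm P P' c).transpose * P'.transpose = P'.transpose * Matrix.diagonal c := by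
      unfold dgm
      rw [Matrix.transpose_mul, Matrix.transpose_mul, Matrix.diagonal_transpose, Matrix.mul_assoc,
        Matrix.mul_assoc]
      have h2 : P.transpose * P'.transpose = 1 := by
        rw [← Matrix.transpose_mul, hP', Matrix.transpose_one]
      rw [h2, Matrix.mul_one]
    have h2 : y i = P'.transpose.mulVec (Pi.single i 1) := by
      rw [Matrix.mulVec_single_one, hy]
      rfl
    rw [h2, Matrix.mulVec_mulVec, h1, ← Matrix.mulVec_mulVec]
    have h3 : (Matrix.diagonal c).mulVec (Pi.single i 1) = c i • Pi.single i 1 := by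
      funext j
      rw [Matrix.mulVec_diagonal, Pi.smul_apply, smul_eq_mul]
      by_cases hij : j = i
      · rw [hij]
      · rw [Pi.single_eq_of_ne hij, mul_zero, mul_zero]
    rw [h3, Matrix.mulVec_smul]
  have hmat : matW y w = S0m P P' w := by
    apply Matrix.transpose_injective
    have h1 : (matW y w).transpose.mulVecLin = (S0m P P' w).transpose.mulVecLin := by
      refine y.ext fun i => ?_
      rw [Matrix.mulVecLin_apply, Matrix.mulVecLin_apply, matW_mulVec, hact]
    ext i j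
    have h2 := congrFun (LinearMap.congr_fun h1 (Pi.single j 1)) i
    rw [Matrix.mulVecLin_apply, Matrix.mulVecLin_apply, Matrix.mulVec_single_one,
      Matrix.mulVec_single_one] at h2
    exact h2
  set τ := Complex.log t with hτ
  have hexp : Complex.exp τ = t := Complex.exp_log ht
  refine exp_lift R (fun z => Complex.exp (τ * z)) (fun x y => by
    rw [mul_add, Complex.exp_add]) (fun x => Complex.exp_ne_zero _) fun e Q => ?_
  refine exp_mon (w := w) y (fun u => ?_) (fun u => ?_) e Q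
  · rw [← hmat]
    exact vf_mon y w u
  · have h1 := lsub_mon (T := (dgm P P' (fun i => t ^ w i)).mulVecLin) y
      (μ := fun i => t ^ w i) (fun i => by rw [trT_mulVec, hact]) u
    rw [h1]
    congr 1
    have h2 : ∏ i, (t ^ w i) ^ u i = t ^ (∑ i, w i * (u i : ℤ)) := by
      have h6 : ∀ s : Finset (Fin (n + 1)), ∏ i ∈ s, (t ^ w i) ^ u i =
          t ^ (∑ i ∈ s, w i * (u i : ℤ)) := by
        intro s
        induction s using Finset.induction_on with
        | empty => simp
        | insert a s ha ih =>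
          rw [Finset.prod_insert ha, Finset.sum_insert ha, ih, zpow_add₀ ht, zpow_mul, zpow_natCast]
      exact h6 _
    rw [h2]
    show _ = Complex.exp (τ * ((∑ i, w i * (u i : ℤ) : ℤ) : ℂ))
    rw [mul_comm, Complex.exp_int_mul, hexp]

end Pool.Agent.TH189.Sg
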