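import Pool.Agent.TH189.Pf2

/-!
Polynomials which are combinations of the solutions of a Pfaffian system of small rank and degree
do not lie in the ideals of a chain of primes which loses one step under differentiation.
-/

namespace Pool.Agent.TH189.Pf

open MvPolynomial Module Pool.Agent.H530R2 Pool.Agent.W943

variable {F : Type} [Field F] {n r : ℕ}

/-- the number `max (r δ + d r (r - 1) / 2) (d + 1)` -/
def top (r d δ : ℕ) : ℕ := max (r * δ + d * (r * (r - 1) / 2)) (d + 1)

/-- the sequences of rows in the greedy choice -/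
def P (V : DChain F n) (d δ s : ℕ) (y lam : Fin r → MvPolynomial (Fin n) F) (t : ℕ) : Prop :=
  ∃ L : Fin t → Fin r → MvPolynomial (Fin n) F,
    LinearIndependent (FractionRing (MvPolynomial (Fin n) F)) (fun j => fr (L j)) ∧
    (∀ (j : Fin t) (α : Fin r), (L j α).totalDegree ≤ δ + (j : ℕ) * d) ∧
    (∀ j : Fin t, val (L j) y ∈ V.I (s - (j : ℕ))) ∧ ∃ j, L j = lam

theorem P_le {V : DChain F n} {d δ s t : ℕ} {y lam : Fin r → MvPolynomial (Fin n) F}
    (h : P V d δ s y lam t) : t ≤ r := by
  obtain ⟨L, hL, -⟩ := h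
  have := hL.fintype_card_le_finrank
  simpa using this

theorem sum_bound {t r d δ : ℕ} (h : t ≤ r) :
    ∑ j : Fin t, (δ + (j : ℕ) * d) ≤ r * δ + d * (r * (r - 1) / 2) := by
  rw [Finset.sum_add_distrib, Finset.sum_const, Finset.card_univ, Fintype.card_fin, smul_eq_mul,
    ← Finset.sum_mul, Fin.sum_univ_eq_sum_range (fun i => i), Finset.sum_range_id, mul_comm _ d]
  refine Nat.add_le_add (Nat.mul_le_mul_right _ h) (Nat.mul_le_mul_left _ ?_)
  exact Nat.div_le_div_right (Nat.mul_le_mul h (by omega))

theorem main [CharZero F] (V : DChain F n) (d δ : ℕ) (μ : MvPolynomial (Fin n) F)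
    (c : Fin n → Matrix (Fin r) (Fin r) (MvPolynomial (Fin n) F))
    (y lam : Fin r → MvPolynomial (Fin n) F) (hμ0 : μ ≠ 0) (hμ : μ.totalDegree ≤ d + 1)
    (hc : ∀ i a b, (c i a b).totalDegree ≤ d)
    (hy : ∀ i a, μ * pderiv i (y a) = ∑ b, c i a b * y b)
    (hlam : ∀ a, (lam a).totalDegree ≤ δ) (hf : val lam y ≠ 0) :
    val lam y ∉ V.I ((r - 1) + top r d δ) := by
  classical
  intro hmem
  have hM1 : d + 1 ≤ top r d δ := le_max_right _ _
  have hM2 : r * δ + d * (r * (r - 1) / 2) ≤ top r d δ := le_max_left _ _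
  set s := (r - 1) + top r d δ with hs
  have hinj : Function.Injective (algebraMap (MvPolynomial (Fin n) F)
      (FractionRing (MvPolynomial (Fin n) F))) := IsFractionRing.injective _ _
  have hP1 : P V d δ s y lam 1 := by
    refine ⟨fun _ => lam, ?_, fun j α => (hlam α).trans (Nat.le_add_right _ _),
      fun j => ?_, 0, rfl⟩
    · refine linearIndependent_unique_iff.2 ?_
      intro h0
      apply hf
      unfold val
      refine Finset.sum_eq_zero fun a _ => ?_
      have h1 : algebraMap _ (FractionRing (MvPolynomial (Fin n) F)) (lam a) = 0 := congrFun h0 a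
      rw [hinj (h1.trans (map_zero _).symm), zero_mul]
    · exact V.mono (Nat.sub_le _ _) hmem
  obtain ⟨t, ht1, hPt, hnP⟩ : ∃ t, 1 ≤ t ∧ P V d δ s y lam t ∧ ¬ P V d δ s y lam (t + 1) := by
    by_contra hcon
    push Not at hcon
    have hall : ∀ t, 1 ≤ t → P V d δ s y lam t := by
      intro t ht
      induction t, ht using Nat.le_induction with
      | base => exact hP1
      | succ t ht ih => exact hcon t ht ih
    have := P_le (hall (r + 1) (by omega))
    omega
  have htr := P_le hPt
  obtain ⟨L, hL1, hL2, hL3, j0, hj0⟩ := hPt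
  have hstable : ∀ i j, InSpan L (nab μ c i (L j)) := by
    intro i j
    by_contra hns
    apply hnP
    refine ⟨Fin.snoc L (nab μ c i (L j)), ?_, ?_, ?_, j0.castSucc, by rw [Fin.snoc_castSucc, hj0]⟩
    · have h1 : (fun k => fr ((Fin.snoc L (nab μ c i (L j)) : Fin (t + 1) → _) k)) =
          (Fin.snoc (fun k => fr (L k)) (fr (nab μ c i (L j))) : Fin (t + 1) → _) := by
        funext k
        refine Fin.lastCases ?_ (fun k => ?_) k
        · rw [Fin.snoc_last, Fin.snoc_last]
        · rw [Fin.snoc_castSucc, Fin.snoc_castSucc]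
      rw [h1]
      exact linearIndependent_finSnoc.2 ⟨hL1, hns⟩
    · intro k α
      refine Fin.lastCases ?_ (fun k => ?_) k
      · rw [Fin.snoc_last, Fin.val_last]
        refine (nab_deg hμ hc i (L j) (hL2 j) α).trans ?_
        have : (j : ℕ) * d + d ≤ t * d := by
          have h2 : (j : ℕ) + 1 ≤ t := j.2
          calc (j : ℕ) * d + d = ((j : ℕ) + 1) * d := by ring
            _ ≤ t * d := Nat.mul_le_mul_right _ h2
        omega
      · rw [Fin.snoc_castSucc, Fin.val_castSucc]
        exact hL2 k α
    · intro k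
      refine Fin.lastCases ?_ (fun k => ?_) k
      · rw [Fin.snoc_last, Fin.val_last, nab_val hy]
        refine Ideal.mul_mem_left _ _ ?_
        have h2 : (j : ℕ) + 1 ≤ t := j.2
        have h3 := hL3 j
        have h4 : s - (j : ℕ) = (s - (j : ℕ) - 1) + 1 := by omega
        rw [h4] at h3
        exact V.mono (by omega) (V.der _ i _ h3)
      · rw [Fin.snoc_castSucc, Fin.val_castSucc]
        exact hL3 k
  have hprime := V.prime (top r d δ)
  obtain ⟨g, hg⟩ := exists_minor_ne_zero (fun j => fr (L j)) hL1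
  have hdet0 : (Matrix.of fun i l => L i (g l)).det ≠ 0 := by
    intro h0
    apply hg
    have h1 : (Matrix.of fun i l => fr (L i) (g l)) =
        (algebraMap (MvPolynomial (Fin n) F)
          (FractionRing (MvPolynomial (Fin n) F))).mapMatrix (Matrix.of fun i l => L i (g l)) := by
      ext i l; rfl
    rw [h1, ← RingHom.map_det, h0, map_zero]
  have hdetd : (Matrix.of fun i l => L i (g l)).det.totalDegree ≤ top r d δ :=
    ((det_deg _ (fun j : Fin t => δ + (j : ℕ) * d) fun i l => hL2 i (g l)).trans
      (sum_bound htr)).trans hM2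
  have hdet := V.low_notMem (top r d δ) _ hdet0 hdetd
  have hmu := V.low_notMem (top r d δ) _ hμ0 (hμ.trans hM1)
  have hJL : ∀ w, InSpan L w → val w y ∈ V.I (top r d δ) := by
    intro w hw
    refine cramer_prime (FractionRing (MvPolynomial (Fin n) F)) (V.I (top r d δ)) L w g hdet hw y
      fun j => ?_
    have h2 : (j : ℕ) + 1 ≤ t := j.2
    exact V.mono (by omega) (hL3 j)
  refine hf (stable_zero hprime L hy hstable hmu hJL lam ?_)
  rw [← hj0]
  exact inSpan_self L j0

end Pool.Agent.TH189.Pf
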