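import Pool.Agent.TH189.Pf3

/-!
Sums of few products of arbitrary powers of polynomials of small degree satisfy a Pfaffian system
of small rank and degree.
-/

namespace Pool.Agent.TH189.Pf

open MvPolynomial Pool.Agent.H530R2 Pool.Agent.W943

variable {F : Type} [Field F] {n m : ℕ}

/-- the logarithmic derivative of a product of powers, times the product of the factors -/
noncomputable def ld (g : Fin m → MvPolynomial (Fin n) F) (e : Fin m → ℕ) (i : Fin n) :
    MvPolynomial (Fin n) F :=
  ∑ j, (e j : MvPolynomial (Fin n) F) * (pderiv i (g j) * ∏ l ∈ Finset.univ.erase j, g l)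

theorem ld_deg (g : Fin m → MvPolynomial (Fin n) F) (e : Fin m → ℕ) (i : Fin n) {d : ℕ}
    (h : ∑ j, (g j).totalDegree ≤ d + 1) : (ld g e i).totalDegree ≤ d := by
  classical
  unfold ld
  refine (totalDegree_finsetSum _ _).trans (Finset.sup_le fun j _ => ?_)
  have h0 : ((e j : ℕ) : MvPolynomial (Fin n) F) = C ((e j : ℕ) : F) := by simp
  rw [h0]
  refine (totalDegree_mul _ _).trans ?_
  rw [totalDegree_C, Nat.zero_add]
  by_cases h1 : pderiv i (g j) = 0
  · rw [h1, zero_mul, totalDegree_zero]; omega
  · have h2 : 1 ≤ (g j).totalDegree := by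
      by_contra hlt
      have h3 := totalDegree_eq_zero_iff_eq_C.1 (by omega : (g j).totalDegree = 0)
      rw [h3, pderiv_C] at h1
      exact h1 rfl
    have h3 := totalDegree_pderiv_le i (g j)
    have h4 := totalDegree_mul (pderiv i (g j)) (∏ l ∈ Finset.univ.erase j, g l)
    have h5 : (∏ l ∈ Finset.univ.erase j, g l).totalDegree ≤
        ∑ l ∈ Finset.univ.erase j, (g l).totalDegree := totalDegree_finsetProd _ _
    have h6 := Finset.sum_erase_add (Finset.univ : Finset (Fin m))
      (fun l => (g l).totalDegree) (Finset.mem_univ j)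
    omega

theorem ld_eq (g : Fin m → MvPolynomial (Fin n) F) (e : Fin m → ℕ) (i : Fin n) :
    (∏ j, g j) * pderiv i (∏ j, g j ^ e j) = ld g e i * ∏ j, g j ^ e j := by
  classical
  have key : ∀ T : Finset (Fin m), (∏ j ∈ T, g j) * pderiv i (∏ j ∈ T, g j ^ e j) =
      (∑ j ∈ T, (e j : MvPolynomial (Fin n) F) * (pderiv i (g j) * ∏ l ∈ T.erase j, g l)) *
        ∏ j ∈ T, g j ^ e j := by
    intro T
    induction T using Finset.induction_on with
    | empty => simp
    | insert a T ha ih =>
      rw [Finset.prod_insert ha, Finset.prod_insert ha, Finset.sum_insert ha,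
        Finset.erase_insert ha, pderiv_mul]
      have h1 : g a * pderiv i (g a ^ e a) =
          (e a : MvPolynomial (Fin n) F) * pderiv i (g a) * g a ^ e a := by
        rw [Derivation.leibniz_pow]
        rcases Nat.eq_zero_or_pos (e a) with h0 | h0
        · rw [h0]; simp
        · obtain ⟨k, hk⟩ := Nat.exists_eq_succ_of_ne_zero (Nat.pos_iff_ne_zero.1 h0)
          rw [hk, Nat.succ_sub_one, nsmul_eq_mul, smul_eq_mul, pow_succ]
          ring
      have h2 : ∑ j ∈ T, (e j : MvPolynomial (Fin n) F) *
          (pderiv i (g j) * ∏ l ∈ (insert a T).erase j, g l) =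
          g a * ∑ j ∈ T, (e j : MvPolynomial (Fin n) F) *
            (pderiv i (g j) * ∏ l ∈ T.erase j, g l) := by
        rw [Finset.mul_sum]
        refine Finset.sum_congr rfl fun j hj => ?_
        have hja : a ≠ j := fun h => ha (h ▸ hj)
        rw [Finset.erase_insert_of_ne hja, Finset.prod_insert
          (fun h => ha (Finset.mem_of_mem_erase h))]
        ring
      rw [h2]
      calc g a * (∏ j ∈ T, g j) * (pderiv i (g a ^ e a) * ∏ j ∈ T, g j ^ e j +
            g a ^ e a * pderiv i (∏ j ∈ T, g j ^ e j))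
          = (g a * pderiv i (g a ^ e a)) * (∏ j ∈ T, g j) * ∏ j ∈ T, g j ^ e j +
            g a * g a ^ e a * ((∏ j ∈ T, g j) * pderiv i (∏ j ∈ T, g j ^ e j)) := by ring
        _ = _ := by rw [h1, ih]; ring
  exact key Finset.univ

end Pool.Agent.TH189.Pf
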