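import Pool.Agent.TH189.Kr18
import Pool.Agent.TH189.Kr16
import Pool.Agent.TH189.Kr14

/-!
The generic determinant divides no product of sums of algebraic functions of small degree.
-/

namespace Pool.Agent.TH189.Kr

open MvPolynomial Module LieAlgebra Pool.Agent.H530R2

attribute [local instance 100] LieRing.ofAssociativeRing

variable {K : Type} [Field K]

/-- an algebraic closure of the rational functions in the variables `σ` -/
abbrev OmS (K σ : Type) [Field K] : Type := AlgebraicClosure (FractionRing (MvPolynomial σ K))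

/-- roots of monic polynomials of small degree -/
def SRootS {σ : Type} (m w : ℕ) (u : OmS K σ) : Prop :=
  ∃ χ : Polynomial (MvPolynomial σ K), χ.Monic ∧ χ.natDegree ≤ m ∧
    (∀ j, (χ.coeff j).totalDegree ≤ w * (χ.natDegree - j)) ∧
    χ.eval₂ (algebraMap (MvPolynomial σ K) (OmS K σ)) u = 0

theorem exists_kappaS {σ Ω : Type} [Field Ω] [IsAlgClosed Ω] (ι : MvPolynomial σ K →+* Ω)
    (hι : Function.Injective ι) : ∃ κ : OmS K σ →+* Ω,
      ∀ p, κ (algebraMap (MvPolynomial σ K) (OmS K σ) p) = ι p := by
  let ι' : FractionRing (MvPolynomial σ K) →+* Ω := IsFractionRing.lift hι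
  letI : Algebra (FractionRing (MvPolynomial σ K)) Ω := ι'.toAlgebra
  let κ : OmS K σ →ₐ[FractionRing (MvPolynomial σ K)] Ω := IsAlgClosed.lift
  refine ⟨κ.toRingHom, fun p => ?_⟩
  rw [IsScalarTower.algebraMap_apply (MvPolynomial σ K)
    (FractionRing (MvPolynomial σ K)) (OmS K σ)]
  show κ _ = _
  rw [κ.commutes]
  exact IsFractionRing.lift_algebraMap hι p

section transfer

variable {k : ℕ} (a : Fin (k * k) → K)
  (κ : OmS K (Fin k × Fin k) →+* Om K (k * k))
  (hκ : ∀ p, κ (algebraMap (MvPolynomial (Fin k × Fin k) K) (OmS K (Fin k × Fin k)) p) =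
    algebraMap (MvPolynomial (Fin (k * k)) K) (Om K (k * k)) (psi a p))

include hκ

theorem SRootS.map {m w : ℕ} {u : OmS K (Fin k × Fin k)} (hu : SRootS m w u) :
    SRoot m w (κ u) := by
  obtain ⟨χ, h1, h2, h3, h4⟩ := hu
  refine ⟨χ.map (psi a : _ →+* _), h1.map _, ?_, fun j => ?_, ?_⟩
  · rw [h1.natDegree_map]; exact h2
  · rw [h1.natDegree_map, Polynomial.coeff_map]
    exact (psi_totalDegree a _).trans (h3 j)
  · rw [Polynomial.eval₂_map]
    have h5 : (algebraMap (MvPolynomial (Fin (k * k)) K) (Om K (k * k))).comp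
        (psi a : MvPolynomial (Fin k × Fin k) K →+* _) =
        κ.comp (algebraMap (MvPolynomial (Fin k × Fin k) K) (OmS K (Fin k × Fin k))) :=
      RingHom.ext fun p => (hκ p).symm
    rw [h5, ← Polynomial.hom_eval₂, h4, map_zero]

theorem span_map {m w : ℕ} {u : OmS K (Fin k × Fin k)}
    (hu : u ∈ Submodule.span K {u : OmS K (Fin k × Fin k) | SRootS m w u}) :
    κ u ∈ Submodule.span K {u : Om K (k * k) | SRoot m w u} := by
  induction hu using Submodule.span_induction with
  | mem u hu => exact Submodule.subset_span (SRootS.map a κ hκ hu)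
  | zero => rw [map_zero]; exact Submodule.zero_mem _
  | add u v _ _ hu hv => rw [map_add]; exact Submodule.add_mem _ hu hv
  | smul c u _ hu =>
    have h1 : κ (c • u) = c • κ u := by
      rw [Algebra.smul_def, Algebra.smul_def, map_mul,
        IsScalarTower.algebraMap_apply K (MvPolynomial (Fin k × Fin k) K) (OmS K (Fin k × Fin k)),
        IsScalarTower.algebraMap_apply K (MvPolynomial (Fin (k * k)) K) (Om K (k * k)), hκ]
      congr 2
      exact (psi a).commutes c
    rw [h1]
    exact Submodule.smul_mem _ _ hu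

end transfer

/-- **The generic determinant divides no product of sums of small algebraic functions.** -/
theorem genDet_bound [IsAlgClosed K] [CharZero K] (k m w : ℕ) (hm : 1 ≤ m)
    (g : MvPolynomial (Fin k × Fin k) K) (hg0 : g ≠ 0) (A : Multiset (OmS K (Fin k × Fin k)))
    (hA : ∀ φ ∈ A, φ ∈ Submodule.span K {u : OmS K (Fin k × Fin k) | SRootS m w u})
    (hg : algebraMap (MvPolynomial (Fin k × Fin k) K) (OmS K (Fin k × Fin k)) g = A.prod)
    (hdvd : (genMat K k).det ∣ g) : k ≤ w * (m ^ 2 + 2 * m ^ 4) := by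
  by_contra hlt
  let a : Fin (k * k) → K := fun i => ((i.val : ℕ) : K)
  have ha : Function.Injective a := fun i j h => Fin.ext (Nat.cast_injective h)
  obtain ⟨κ, hκ⟩ := exists_kappaS (K := K) (σ := Fin k × Fin k)
    ((algebraMap (MvPolynomial (Fin (k * k)) K) (Om K (k * k))).comp (psi a : _ →+* _))
    (Om_injective.comp (psi_injective a ha))
  have hA' : ∀ φ ∈ A.map κ, φ ∈ Submodule.span K {u : Om K (k * k) | SRoot m w u} := by
    intro φ hφ
    obtain ⟨ψ, hψ, rfl⟩ := Multiset.mem_map.1 hφ
    exact span_map a κ hκ (hA ψ hψ)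
  obtain ⟨F, hF, hFA⟩ := exists_family m w (A.map κ) hA'
  refine main3 a ha m w hm F hF (A.map κ) hFA (psi a g) ?_ ?_ (psi a (genMat K k).det) ?_
    (det_mem a ha _ (not_le.1 hlt))
  · rw [← map_multiset_prod, ← hg, hκ]
    rfl
  · intro h
    exact hg0 (psi_injective a ha (h.trans (map_zero _).symm))
  · exact map_dvd (psi a) hdvd

/-- **The generic determinant and matrix Lie algebras with small simple factors.** -/
theorem genDet_lie [IsAlgClosed K] [CharZero K] {M : ℕ}
    (𝔤 : LieSubalgebra K (Matrix (Fin M) (Fin M) K)) (m w k : ℕ)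
    (hm : ∀ I : LieIdeal K (𝔤 ⧸ radical K 𝔤), IsAtom I → finrank K I ≤ m)
    (Y : Matrix (Fin M) (Fin M) (MvPolynomial (Fin k × Fin k) K))
    (hw : ∀ i j, (Y i j).totalDegree ≤ w)
    (hY : ∀ c : Fin k × Fin k → K, Y.map (eval c) ∈ 𝔤)
    (h0 : Y.det ≠ 0) (hdvd : (genMat K k).det ∣ Y.det) :
    k ≤ w * ((max m 1) ^ 2 + 2 * (max m 1) ^ 4) := by
  by_contra hlt
  let a : Fin (k * k) → K := fun i => ((i.val : ℕ) : K)
  have ha : Function.Injective a := fun i j h => Fin.ext (Nat.cast_injective h)
  have hdet : (Y.map (psi a)).det = psi a Y.det := (AlgHom.map_det (psi a) _).symm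
  refine lie_notMem 𝔤 m w hm a ha (Y.map (psi a)) (fun i j => ?_) (fun c => ?_) ?_
    (psi a (genMat K k).det) ?_ (det_mem a ha _ (not_le.1 hlt))
  · rw [Matrix.map_apply]
    exact (psi_totalDegree a _).trans (hw i j)
  · have h1 : (eval c).comp (psi a : MvPolynomial (Fin k × Fin k) K →+* _) =
        eval fun q => eval c (psi a (X q)) := by
      apply MvPolynomial.ringHom_ext
      · intro r
        rw [RingHom.comp_apply, eval_C]
        have h2 : psi a (C r) = C r := (psi a).commutes r
        rw [RingHom.coe_coe, h2, eval_C]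
      · intro q
        rw [RingHom.comp_apply, eval_X]
        rfl
    have h2 : (Y.map (psi a)).map (eval c) = Y.map (eval fun q => eval c (psi a (X q))) := by
      ext i j
      rw [Matrix.map_apply, Matrix.map_apply, Matrix.map_apply]
      exact RingHom.congr_fun h1 _
    rw [h2]
    exact hY _
  · rw [hdet]
    intro h
    exact h0 (psi_injective a ha (h.trans (map_zero _).symm))
  · rw [hdet]
    exact map_dvd (psi a) hdvd

/-- **The generic determinant and sums of commuting matrices of small degree.** -/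
theorem genDet_commuting [IsAlgClosed K] [CharZero K] {M r k : ℕ} (m w : ℕ) (hm : 1 ≤ m)
    (Y : Fin r → Matrix (Fin M) (Fin M) (MvPolynomial (Fin k × Fin k) K))
    (hc : ∀ i j, Y i * Y j = Y j * Y i)
    (hχ : ∀ i, ∃ χ : Polynomial (MvPolynomial (Fin k × Fin k) K), χ.Monic ∧ χ.natDegree ≤ m ∧
      (∀ j, (χ.coeff j).totalDegree ≤ w * (χ.natDegree - j)) ∧ Polynomial.aeval (Y i) χ = 0)
    (h0 : (∑ i, Y i).det ≠ 0) (hdvd : (genMat K k).det ∣ (∑ i, Y i).det) :
    k ≤ w * (m ^ 2 + 2 * m ^ 4) := by
  by_contra hlt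
  let a : Fin (k * k) → K := fun i => ((i.val : ℕ) : K)
  have ha : Function.Injective a := fun i j h => Fin.ext (Nat.cast_injective h)
  let f : Matrix (Fin M) (Fin M) (MvPolynomial (Fin k × Fin k) K) →+*
      Matrix (Fin M) (Fin M) (MvPolynomial (Fin (k * k)) K) :=
    (psi a : MvPolynomial (Fin k × Fin k) K →+* _).mapMatrix
  have hf : ∀ Z, f Z = Z.map (psi a) := fun Z => rfl
  have hdet : (∑ i, f (Y i)).det = psi a (∑ i, Y i).det := by
    rw [← map_sum, hf]
    exact (AlgHom.map_det (psi a) _).symm
  have h0' : (∑ i, f (Y i)).det ≠ 0 := by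
    rw [hdet]
    intro h
    exact h0 (psi_injective a ha (h.trans (map_zero _).symm))
  have hS : SEig m w (∑ i, f (Y i)) := by
    refine seig_sum m w Finset.univ (fun i => f (Y i)) (fun i _ j _ => ?_) fun i _ => ?_
    · show f (Y i) * f (Y j) = f (Y j) * f (Y i)
      rw [← map_mul, hc, map_mul]
    · obtain ⟨χ, h1, h2, h3, h4⟩ := hχ i
      refine ⟨χ.map (psi a : _ →+* _), h1.map _, ?_, fun j => ?_, ?_⟩
      · rw [h1.natDegree_map]; exact h2
      · rw [h1.natDegree_map, Polynomial.coeff_map]
        exact (psi_totalDegree a _).trans (h3 j)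
      · have h5 := congrArg f h4
        rw [map_zero, Polynomial.aeval_def, Polynomial.hom_eval₂] at h5
        rw [Polynomial.aeval_def, Polynomial.eval₂_map]
        have h6 : (algebraMap (MvPolynomial (Fin (k * k)) K)
            (Matrix (Fin M) (Fin M) (MvPolynomial (Fin (k * k)) K))).comp
            (psi a : MvPolynomial (Fin k × Fin k) K →+* _) =
            f.comp (algebraMap (MvPolynomial (Fin k × Fin k) K)
              (Matrix (Fin M) (Fin M) (MvPolynomial (Fin k × Fin k) K))) := by
          refine RingHom.ext fun p => ?_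
          ext1 i j
          rw [RingHom.comp_apply, RingHom.comp_apply, hf, Matrix.map_apply,
            Matrix.algebraMap_matrix_apply, Matrix.algebraMap_matrix_apply]
          split_ifs with hij
          · rfl
          · exact (map_zero (psi a)).symm
        rw [h6]
        exact h5
  refine trailing_notMem a ha m w hm _ hS (psi a (genMat K k).det) ?_
    (det_mem a ha _ (not_le.1 hlt))
  refine dvd_trans ?_ (det_dvd _ h0')
  rw [hdet]
  exact map_dvd (psi a) hdvd

end Pool.Agent.TH189.Kr
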