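import Mathlib
import Pool.Agent.TH72.CF.Defs
import Pool.Agent.TH350.J549

/-!
# Distinguishing pairs of points in primitive groups
-/

set_option autoImplicit false

namespace Pool.Agent.TH189.J550

open Equiv Pool.Agent.TH72.CF

section basic

variable {Δ : Type} (H : Subgroup (Perm Δ))

/-- `u` and `v` are in the same orbit of the stabilizer of `z`. -/
def Sm (z u v : Δ) : Prop := ∃ g ∈ H, g z = z ∧ g u = v

variable {H}

theorem Sm.refl (z u : Δ) : Sm H z u u := ⟨1, H.one_mem, rfl, rfl⟩

theorem Sm.symm {z u v : Δ} (h : Sm H z u v) : Sm H z v u := by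
  obtain ⟨g, hg, h1, h2⟩ := h
  refine ⟨g⁻¹, H.inv_mem hg, ?_, ?_⟩
  · rw [Perm.inv_eq_iff_eq, h1]
  · rw [Perm.inv_eq_iff_eq, h2]

theorem Sm.trans {z u v w : Δ} (h : Sm H z u v) (h' : Sm H z v w) : Sm H z u w := by
  obtain ⟨g, hg, h1, h2⟩ := h
  obtain ⟨k, hk, h3, h4⟩ := h'
  exact ⟨k * g, H.mul_mem hk hg, by simp [h1, h3], by simp [h2, h4]⟩

theorem Sm.conj {z u v : Δ} (h : Sm H z u v) {k : Perm Δ} (hk : k ∈ H) :
    Sm H (k z) (k u) (k v) := by
  obtain ⟨g, hg, h1, h2⟩ := h
  exact ⟨k * g * k⁻¹, H.mul_mem (H.mul_mem hk hg) (H.inv_mem hk), by simp [h1], by simp [h2]⟩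

theorem sm_conj_iff {z u v : Δ} {k : Perm Δ} (hk : k ∈ H) :
    Sm H (k z) (k u) (k v) ↔ Sm H z u v := by
  refine ⟨fun h => ?_, fun h => h.conj hk⟩
  have := h.conj (H.inv_mem hk)
  simpa using this

theorem sm_comm {z u v : Δ} : Sm H z u v ↔ Sm H z v u := ⟨Sm.symm, Sm.symm⟩

/-- The graph `G` is invariant under `H`. -/
def Inv (H : Subgroup (Perm Δ)) (G : SimpleGraph Δ) : Prop :=
  ∀ h ∈ H, ∀ u v, G.Adj u v → G.Adj (h u) (h v)

/-- The automorphism of an invariant graph. -/
def aut {G : SimpleGraph Δ} (hG : Inv H G) {h : Perm Δ} (hh : h ∈ H) : G ≃g G where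
  toEquiv := h
  map_rel_iff' := by
    intro a b
    refine ⟨fun hab => ?_, fun hab => hG h hh a b hab⟩
    have := hG h⁻¹ (H.inv_mem hh) _ _ hab
    simpa using this

theorem dist_le_of_inv {G : SimpleGraph Δ} (hG : Inv H G) (hc : G.Connected) {h : Perm Δ}
    (hh : h ∈ H) (u v : Δ) : G.dist (h u) (h v) ≤ G.dist u v := by
  obtain ⟨p, hp⟩ := hc.exists_walk_length_eq_dist u v
  rw [← hp]
  have := SimpleGraph.dist_le (p.map (aut hG hh).toHom)
  rwa [SimpleGraph.Walk.length_map] at this

theorem dist_inv {G : SimpleGraph Δ} (hG : Inv H G) (hc : G.Connected) {h : Perm Δ}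
    (hh : h ∈ H) (u v : Δ) : G.dist (h u) (h v) = G.dist u v := by
  refine le_antisymm (dist_le_of_inv hG hc hh u v) ?_
  have := dist_le_of_inv hG hc (H.inv_mem hh) (h u) (h v)
  simpa using this

theorem dist_eq_of_sm {G : SimpleGraph Δ} (hG : Inv H G) (hc : G.Connected) {z u v : Δ}
    (h : Sm H z u v) : G.dist z u = G.dist z v := by
  obtain ⟨g, hg, h1, h2⟩ := h
  have := dist_inv hG hc hg z u
  rw [h1, h2] at this
  exact this.symm

/-- Primitive groups: an invariant graph with an edge is connected. -/
theorem connected_of_inv [Nonempty Δ] (hprim : MulAction.IsPreprimitive H Δ) {G : SimpleGraph Δ}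
    (hG : Inv H G) {a b : Δ} (hab : G.Adj a b) : G.Connected := by
  have hblock : MulAction.IsBlock H {v | G.Reachable a v} := by
    rw [MulAction.isBlock_iff_smul_eq_of_nonempty]
    rintro g ⟨w, ⟨b', hb', hw⟩, hw'⟩
    have hreach : ∀ (k : H) {u v : Δ}, G.Reachable u v → G.Reachable (k.1 u) (k.1 v) := by
      intro k u v huv
      exact huv.map (aut hG k.2).toHom
    have hb'' : G.Reachable a b' := hb'
    have hw1 : g.1 b' = w := hw
    have hw2 : G.Reachable a w := hw'
    have h1 : G.Reachable (g.1 a) a := by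
      have := hreach g hb''
      rw [hw1] at this
      exact this.trans hw2.symm
    ext v
    constructor
    · rintro ⟨u, hu, huv⟩
      have hu' : G.Reachable a u := hu
      have huv' : g.1 u = v := huv
      have := hreach g hu'
      rw [huv'] at this
      exact h1.symm.trans this
    · intro hv
      have hv' : G.Reachable a v := hv
      refine ⟨g.1⁻¹ v, ?_, ?_⟩
      · have h2 := hreach g⁻¹ (h1.trans hv')
        have h3 : (g⁻¹ : H).1 (g.1 a) = a := by simp
        rw [h3] at h2
        exact h2
      · change g.1 (g.1⁻¹ v) = v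
        simp
  rcases hprim.isTrivialBlock_of_isBlock hblock with h | h
  · exfalso
    have h1 : a ∈ {v | G.Reachable a v} := SimpleGraph.Reachable.refl a
    have h2 : b ∈ {v | G.Reachable a v} := hab.reachable
    exact hab.ne (h h1 h2)
  · refine ⟨fun u v => ?_⟩
    have hu : u ∈ {v | G.Reachable a v} := by rw [h]; trivial
    have hv : v ∈ {v | G.Reachable a v} := by rw [h]; trivial
    exact (SimpleGraph.Reachable.symm hu).trans hv

end basic

section count

open Classical in
/-- The number of points that distinguish `u` from `v`. -/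
noncomputable def DD {Δ : Type} [Fintype Δ] (H : Subgroup (Perm Δ)) (u v : Δ) : ℕ :=
  (Finset.univ.filter fun z => ¬ Sm H z u v).card

open Classical in
/-- The orbit of `u` under the stabilizer of `z`. -/
noncomputable def OO {Δ : Type} [Fintype Δ] (H : Subgroup (Perm Δ)) (z u : Δ) : Finset Δ :=
  Finset.univ.filter fun v => Sm H z u v

variable {Δ : Type} [Fintype Δ] {H : Subgroup (Perm Δ)}

theorem mem_OO {z u v : Δ} : v ∈ OO H z u ↔ Sm H z u v := by
  classical
  simp [OO]

theorem DD_conj {k : Perm Δ} (hk : k ∈ H) (u v : Δ) : DD H (k u) (k v) = DD H u v := by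
  classical
  unfold DD
  symm
  apply Finset.card_bij (fun z _ => k z)
  · intro z hz
    simp only [Finset.mem_filter, Finset.mem_univ, true_and] at hz ⊢
    rwa [sm_conj_iff hk]
  · intro a _ b _ h
    exact k.injective h
  · intro w hw
    simp only [Finset.mem_filter, Finset.mem_univ, true_and] at hw
    refine ⟨k⁻¹ w, ?_, by simp⟩
    simp only [Finset.mem_filter, Finset.mem_univ, true_and]
    rw [← sm_conj_iff hk]
    simpa using hw

theorem DD_comm (u v : Δ) : DD H u v = DD H v u := by
  classical
  unfold DD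
  congr 1
  ext z
  simp only [Finset.mem_filter, Finset.mem_univ, true_and]
  rw [sm_comm]

theorem DD_self (u : Δ) : DD H u u = 0 := by
  classical
  unfold DD
  rw [Finset.card_eq_zero, Finset.filter_eq_empty_iff]
  intro z _
  simpa using Sm.refl z u

theorem DD_triangle (u v w : Δ) : DD H u w ≤ DD H u v + DD H v w := by
  classical
  unfold DD
  refine le_trans (Finset.card_le_card ?_) (Finset.card_union_le _ _)
  intro z hz
  simp only [Finset.mem_filter, Finset.mem_univ, true_and, Finset.mem_union] at hz ⊢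
  by_contra h
  push Not at h
  exact hz (h.1.trans h.2)

theorem OO_card_conj {k : Perm Δ} (hk : k ∈ H) (z u : Δ) :
    (OO H (k z) (k u)).card = (OO H z u).card := by
  classical
  symm
  apply Finset.card_bij (fun v _ => k v)
  · intro v hv
    rw [mem_OO] at hv ⊢
    exact hv.conj hk
  · intro a _ b _ h
    exact k.injective h
  · intro w hw
    rw [mem_OO] at hw
    refine ⟨k⁻¹ w, ?_, by simp⟩
    rw [mem_OO, ← sm_conj_iff hk]
    simpa using hw

theorem OO_eq_of_mem {z u v : Δ} (h : v ∈ OO H z u) : OO H z v = OO H z u := by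
  ext w
  rw [mem_OO] at h
  rw [mem_OO, mem_OO]
  exact ⟨fun h' => h.trans h', fun h' => h.symm.trans h'⟩

theorem OO_self (z : Δ) : OO H z z = {z} := by
  ext w
  rw [mem_OO, Finset.mem_singleton]
  constructor
  · rintro ⟨g, _, h1, h2⟩
    rw [← h2, h1]
  · rintro rfl
    exact Sm.refl _ _

/-- The orbital of `(z, u)` has the same valency in both directions. -/
theorem OO_card_symm (htr : ∀ u v : Δ, ∃ h ∈ H, h u = v) (z u : Δ) :
    (OO H z u).card = (OO H u z).card := by
  classical
  -- the orbital
  let R : Δ → Δ → Prop := fun p q => ∃ h ∈ H, h z = p ∧ h u = q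
  have h1 : ∀ p, (Finset.univ.filter fun q => R p q).card = (OO H z u).card := by
    intro p
    obtain ⟨k, hk, hkp⟩ := htr z p
    rw [← OO_card_conj hk, hkp]
    congr 1
    ext q
    simp only [Finset.mem_filter, Finset.mem_univ, true_and, mem_OO]
    constructor
    · rintro ⟨h, hh, e1, e2⟩
      refine ⟨h * k⁻¹, H.mul_mem hh (H.inv_mem hk), ?_, ?_⟩
      · have e3 : k⁻¹ p = z := by rw [← hkp]; simp
        rw [Perm.mul_apply, e3, e1]
      · simp [e2]
    · rintro ⟨g, hg, e1, e2⟩
      exact ⟨g * k, H.mul_mem hg hk, by simp [hkp, e1], by simp [e2]⟩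
  have h2 : ∀ q, (Finset.univ.filter fun p => R p q).card = (OO H u z).card := by
    intro q
    obtain ⟨k, hk, hkq⟩ := htr u q
    rw [← OO_card_conj hk, hkq]
    congr 1
    ext p
    simp only [Finset.mem_filter, Finset.mem_univ, true_and, mem_OO]
    constructor
    · rintro ⟨h, hh, e1, e2⟩
      refine ⟨h * k⁻¹, H.mul_mem hh (H.inv_mem hk), ?_, ?_⟩
      · have e3 : k⁻¹ q = u := by rw [← hkq]; simp
        rw [Perm.mul_apply, e3, e2]
      · simp [e1]
    · rintro ⟨g, hg, e1, e2⟩
      exact ⟨g * k, H.mul_mem hg hk, by simp [e2], by simp [hkq, e1]⟩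
  have h3 : ∑ p, (Finset.univ.filter fun q => R p q).card =
      ∑ q, (Finset.univ.filter fun p => R p q).card := by
    simp only [Finset.card_filter]
    rw [Finset.sum_comm]
  simp only [h1, h2, Finset.sum_const, smul_eq_mul, Finset.card_univ] at h3
  have hpos : 0 < Fintype.card Δ := Fintype.card_pos_iff.2 ⟨z⟩
  exact Nat.eq_of_mul_eq_mul_left hpos h3

/-- In a group that is not doubly transitive, the orbits of point stabilizers are small. -/
theorem OO_card_le (htr : ∀ u v : Δ, ∃ h ∈ H, h u = v) (h2 : ¬ TwoTrans H) {x y : Δ} (hxy : x ≠ y)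
    (z u : Δ) : (OO H z u).card + 2 ≤ Fintype.card Δ := by
  classical
  have key : ∀ u, u ≠ z → (OO H z u).card + 2 ≤ Fintype.card Δ := by
    intro u hu
    by_contra hlt
    push Not at hlt
    have hsub : OO H z u ⊆ Finset.univ.erase z := by
      intro v hv
      rw [mem_OO] at hv
      rw [Finset.mem_erase]
      refine ⟨?_, Finset.mem_univ _⟩
      rintro rfl
      obtain ⟨g, _, e1, e2⟩ := hv.symm
      exact hu (by rw [← e2, e1])
    have heq : OO H z u = Finset.univ.erase z := by
      apply Finset.eq_of_subset_of_card_le hsub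
      rw [Finset.card_erase_of_mem (Finset.mem_univ _), Finset.card_univ]
      omega
    apply h2
    intro a b c e hab hce
    obtain ⟨k, hk, hka⟩ := htr a z
    obtain ⟨l, hl, hlc⟩ := htr c z
    have hb : k b ∈ OO H z u := by
      rw [heq, Finset.mem_erase]
      refine ⟨?_, Finset.mem_univ _⟩
      rw [← hka]
      exact fun h => hab (k.injective h).symm
    have he : l e ∈ OO H z u := by
      rw [heq, Finset.mem_erase]
      refine ⟨?_, Finset.mem_univ _⟩
      rw [← hlc]
      exact fun h => hce (l.injective h).symm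
    rw [mem_OO] at hb he
    obtain ⟨g, hg, e1, e2⟩ := hb.symm.trans he
    refine ⟨l⁻¹ * g * k, H.mul_mem (H.mul_mem (H.inv_mem hl) hg) hk, ?_, ?_⟩
    · have e3 : l⁻¹ z = c := by rw [← hlc]; simp
      rw [Perm.mul_apply, Perm.mul_apply, hka, e1, e3]
    · have e3 : l⁻¹ (l e) = e := by simp
      rw [Perm.mul_apply, Perm.mul_apply, e2, e3]
  obtain ⟨w, hw⟩ : ∃ w, w ≠ z := by
    by_cases h : x = z
    · exact ⟨y, fun h' => hxy (h.trans h'.symm)⟩
    · exact ⟨x, h⟩
  by_cases hu : u = z
  · rw [hu, OO_self, Finset.card_singleton]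
    have h3 := key w hw
    have h4 : 0 < (OO H z w).card := Finset.card_pos.2 ⟨w, mem_OO.2 (Sm.refl _ _)⟩
    omega
  · exact key u hu

open Classical in
/-- Double counting of the distinguished pairs of a relation. -/
theorem sum_rel (R : Δ → Δ → Prop) (D d : ℕ)
    (hd : ∀ u, (Finset.univ.filter fun v => R u v).card = d)
    (hD : ∀ u v, R u v → DD H u v = D) :
    ∑ z, (Finset.univ.filter fun p : Δ × Δ => R p.1 p.2 ∧ ¬ Sm H z p.1 p.2).card =
      Fintype.card Δ * (D * d) := by
  calc ∑ z, (Finset.univ.filter fun p : Δ × Δ => R p.1 p.2 ∧ ¬ Sm H z p.1 p.2).card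
      = ∑ z : Δ, ∑ u : Δ, ∑ v : Δ, if (R u v ∧ ¬ Sm H z u v) then 1 else 0 := by
        apply Finset.sum_congr rfl
        intro z _
        rw [Finset.card_filter, Fintype.sum_prod_type]
    _ = ∑ u : Δ, ∑ v : Δ, ∑ z : Δ, if (R u v ∧ ¬ Sm H z u v) then 1 else 0 := by
        rw [Finset.sum_comm]
        apply Finset.sum_congr rfl
        intro u _
        rw [Finset.sum_comm]
    _ = ∑ u : Δ, ∑ v : Δ, if R u v then D else 0 := by
        apply Finset.sum_congr rfl
        intro u _
        apply Finset.sum_congr rfl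
        intro v _
        by_cases h : R u v
        · simp only [h, true_and, if_true]
          rw [← hD u v h, DD, Finset.card_filter]
        · simp [h]
    _ = ∑ u : Δ, D * d := by
        apply Finset.sum_congr rfl
        intro u _
        rw [← hd u, Finset.card_filter, Finset.mul_sum]
        apply Finset.sum_congr rfl
        intro v _
        split_ifs <;> simp
    _ = Fintype.card Δ * (D * d) := by
        rw [Finset.sum_const, smul_eq_mul, Finset.card_univ]

open Classical in
/-- The first counting inequality. -/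
theorem dart_count {G : SimpleGraph Δ} (hG : Inv H G) (hc : G.Connected) (D d : ℕ)
    (hd : ∀ u, (Finset.univ.filter fun v => G.Adj u v).card = d)
    (hD : ∀ u v, G.Adj u v → DD H u v = D) : 2 * Fintype.card Δ ≤ D * d + 2 := by
  classical
  have h1 : ∀ z, 2 * (Fintype.card Δ - 1) ≤
      (Finset.univ.filter fun p : Δ × Δ => G.Adj p.1 p.2 ∧ ¬ Sm H z p.1 p.2).card := by
    intro z
    have hnx : ∀ u, ∃ v, u ≠ z → G.Adj u v ∧ G.dist z v + 1 = G.dist z u := by
      intro u
      by_cases hu : u = z
      · exact ⟨z, fun h => absurd hu h⟩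
      · obtain ⟨p, hp⟩ := hc.exists_walk_length_eq_dist u z
        cases p with
        | nil => exact absurd rfl hu
        | cons h q =>
          rename_i v
          refine ⟨v, fun _ => ⟨h, ?_⟩⟩
          rw [SimpleGraph.Walk.length_cons] at hp
          have h2 := SimpleGraph.dist_le q
          have h3 := hc.dist_triangle (u := u) (v := v) (w := z)
          rw [SimpleGraph.dist_eq_one_iff_adj.2 h] at h3
          rw [G.dist_comm (u := z) (v := v), G.dist_comm (u := z) (v := u)]
          omega
    choose nx hnx using hnx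
    let P : Finset (Δ × Δ) := (Finset.univ.erase z).image fun u => (u, nx u)
    let Q : Finset (Δ × Δ) := (Finset.univ.erase z).image fun u => (nx u, u)
    have hP : P.card = Fintype.card Δ - 1 := by
      rw [Finset.card_image_of_injective, Finset.card_erase_of_mem (Finset.mem_univ _),
        Finset.card_univ]
      intro a b h
      exact congrArg Prod.fst h
    have hQ : Q.card = Fintype.card Δ - 1 := by
      rw [Finset.card_image_of_injective, Finset.card_erase_of_mem (Finset.mem_univ _),
        Finset.card_univ]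
      intro a b h
      exact congrArg Prod.snd h
    have hPQ : Disjoint P Q := by
      rw [Finset.disjoint_left]
      intro p hp hq
      simp only [P, Q, Finset.mem_image, Finset.mem_erase, Finset.mem_univ, and_true] at hp hq
      obtain ⟨u, hu, rfl⟩ := hp
      obtain ⟨v, hv, hv'⟩ := hq
      have e1 := congrArg Prod.fst hv'
      have e2 := congrArg Prod.snd hv'
      simp only at e1 e2
      have h2 := (hnx u hu).2
      have h3 := (hnx v hv).2
      rw [e1] at h3
      rw [← e2] at h2
      omega
    rw [two_mul]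
    calc Fintype.card Δ - 1 + (Fintype.card Δ - 1) = P.card + Q.card := by rw [hP, hQ]
      _ = (P ∪ Q).card := (Finset.card_union_of_disjoint hPQ).symm
      _ ≤ _ := by
        apply Finset.card_le_card
        intro p hp
        simp only [P, Q, Finset.mem_union, Finset.mem_image, Finset.mem_erase, Finset.mem_univ,
          and_true] at hp
        simp only [Finset.mem_filter, Finset.mem_univ, true_and]
        rcases hp with ⟨u, hu, rfl⟩ | ⟨u, hu, rfl⟩
        · refine ⟨(hnx u hu).1, fun hs => ?_⟩
          have h2 := dist_eq_of_sm hG hc hs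
          have h3 := (hnx u hu).2
          simp only at h2
          omega
        · refine ⟨(hnx u hu).1.symm, fun hs => ?_⟩
          have h2 := dist_eq_of_sm hG hc hs
          have h3 := (hnx u hu).2
          simp only at h2
          omega
  have h2 := sum_rel (H := H) G.Adj D d hd hD
  have h3 : Fintype.card Δ * (2 * (Fintype.card Δ - 1)) ≤ Fintype.card Δ * (D * d) := by
    rw [← h2]
    calc Fintype.card Δ * (2 * (Fintype.card Δ - 1)) = ∑ z : Δ, 2 * (Fintype.card Δ - 1) := by
          rw [Finset.sum_const, smul_eq_mul, Finset.card_univ]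
      _ ≤ _ := Finset.sum_le_sum fun z _ => h1 z
  have hne : Nonempty Δ := hc.nonempty
  have hpos : 0 < Fintype.card Δ := Fintype.card_pos
  have h4 := Nat.le_of_mul_le_mul_left h3 hpos
  omega

/-- Triangle inequality along walks. -/
theorem DD_le_dist {G : SimpleGraph Δ} (hc : G.Connected) (D : ℕ)
    (hD : ∀ u v, G.Adj u v → DD H u v = D) (u v : Δ) : DD H u v ≤ G.dist u v * D := by
  have key : ∀ (u v : Δ) (p : G.Walk u v), DD H u v ≤ p.length * D := by
    intro u v p
    induction p with
    | nil => simp [DD_self]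
    | cons h q ih =>
      rw [SimpleGraph.Walk.length_cons, add_mul, one_mul]
      have := DD_triangle (H := H) _ _ _ |>.trans (add_le_add (hD _ _ h).le ih)
      rw [add_comm (q.length * D)]
      exact this
  obtain ⟨p, hp⟩ := hc.exists_walk_length_eq_dist u v
  rw [← hp]
  exact key u v p

open Classical in
/-- Regularity of invariant graphs. -/
theorem exists_degree [Nonempty Δ] (htr : ∀ u v : Δ, ∃ h ∈ H, h u = v) {G : SimpleGraph Δ}
    (hG : Inv H G) : ∃ d, ∀ u, (Finset.univ.filter fun v => G.Adj u v).card = d := by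
  obtain ⟨a⟩ := ‹Nonempty Δ›
  refine ⟨(Finset.univ.filter fun v => G.Adj a v).card, fun u => ?_⟩
  obtain ⟨k, hk, hku⟩ := htr u a
  apply Finset.card_bij (fun v _ => k v)
  · intro v hv
    simp only [Finset.mem_filter, Finset.mem_univ, true_and] at hv ⊢
    rw [← hku]
    exact hG k hk _ _ hv
  · intro v _ w _ h
    exact k.injective h
  · intro w hw
    simp only [Finset.mem_filter, Finset.mem_univ, true_and] at hw
    refine ⟨k⁻¹ w, ?_, by simp⟩
    simp only [Finset.mem_filter, Finset.mem_univ, true_and]
    have := hG k⁻¹ (H.inv_mem hk) _ _ hw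
    rwa [show k⁻¹ a = u by rw [← hku]; simp] at this

/-- Some pair is distinguished by many points. -/
theorem exists_far [Nonempty Δ] (K : ℕ)
    (hK : ∀ z u, (OO H z u).card + K ≤ Fintype.card Δ) : ∃ u v, K ≤ DD H u v := by
  classical
  by_contra hcon
  push Not at hcon
  have h1 : ∑ u : Δ, ∑ v : Δ, DD H u v < ∑ u : Δ, ∑ v : Δ, K := by
    apply Finset.sum_lt_sum_of_nonempty Finset.univ_nonempty
    intro u _
    apply Finset.sum_lt_sum_of_nonempty Finset.univ_nonempty
    intro v _
    exact hcon u v
  have h2 : ∑ u : Δ, ∑ v : Δ, DD H u v =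
      ∑ z : Δ, ∑ u : Δ, (Finset.univ.filter fun v => ¬ Sm H z u v).card := by
    simp only [DD, Finset.card_filter]
    calc ∑ u : Δ, ∑ v : Δ, ∑ z : Δ, (if ¬ Sm H z u v then 1 else 0)
        = ∑ u : Δ, ∑ z : Δ, ∑ v : Δ, (if ¬ Sm H z u v then 1 else 0) := by
          apply Finset.sum_congr rfl
          intro u _
          rw [Finset.sum_comm]
      _ = _ := by rw [Finset.sum_comm]
  have h3 : ∀ z u, K ≤ (Finset.univ.filter fun v => ¬ Sm H z u v).card := by
    intro z u
    have := Finset.card_filter_add_card_filter_not (s := (Finset.univ : Finset Δ))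
      (fun v => Sm H z u v)
    have h4 := hK z u
    rw [OO] at h4
    rw [Finset.card_univ] at this
    omega
  have h5 : ∑ z : Δ, ∑ u : Δ, K ≤
      ∑ z : Δ, ∑ u : Δ, (Finset.univ.filter fun v => ¬ Sm H z u v).card :=
    Finset.sum_le_sum fun z _ => Finset.sum_le_sum fun u _ => h3 z u
  rw [h2] at h1
  exact absurd h1 (not_lt.2 h5)

end count

section main

variable {Δ : Type} [Fintype Δ] {H : Subgroup (Perm Δ)}

set_option linter.unusedSectionVars false

open Classical in
theorem geo' (G : SimpleGraph Δ) (hc : G.Connected) (d : ℕ)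
    (hd : ∀ u, (Finset.univ.filter fun v => G.Adj u v).card = d) (u v : Δ) (ht : 2 ≤ G.dist u v)
    (S : Finset Δ) (hS : ∀ w, G.dist u w < G.dist u v → w ∈ S) :
    (d + 1) * G.dist u v ≤ 4 * S.card := by
  apply Pool.Agent.TH350.J549.geo G hc d _ u v ht S hS
  intro w
  rw [← hd w, ← SimpleGraph.card_neighborFinset_eq_degree]
  congr 1
  ext x
  simp

/-- The graph of the orbital of `(x, y)`. -/
def EE (H : Subgroup (Perm Δ)) (x y : Δ) : SimpleGraph Δ :=
  SimpleGraph.fromRel fun u v => ∃ h ∈ H, h x = u ∧ h y = v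

theorem EE_adj {x y u v : Δ} : (EE H x y).Adj u v ↔
    u ≠ v ∧ ((∃ h ∈ H, h x = u ∧ h y = v) ∨ (∃ h ∈ H, h x = v ∧ h y = u)) := by
  rw [EE, SimpleGraph.fromRel_adj]

theorem EE_inv (x y : Δ) : Inv H (EE H x y) := by
  intro k hk u v huv
  rw [EE_adj] at huv ⊢
  obtain ⟨h0, h1⟩ := huv
  refine ⟨fun h => h0 (k.injective h), ?_⟩
  rcases h1 with ⟨h, hh, e1, e2⟩ | ⟨h, hh, e1, e2⟩
  · left
    exact ⟨k * h, H.mul_mem hk hh, by simp [e1], by simp [e2]⟩
  · right
    exact ⟨k * h, H.mul_mem hk hh, by simp [e1], by simp [e2]⟩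

theorem EE_DD {x y u v : Δ} (h : (EE H x y).Adj u v) : DD H u v = DD H x y := by
  rw [EE_adj] at h
  rcases h.2 with ⟨k, hk, rfl, rfl⟩ | ⟨k, hk, rfl, rfl⟩
  · exact DD_conj hk x y
  · rw [DD_comm]
    exact DD_conj hk x y

theorem EE_self {x y : Δ} (hxy : x ≠ y) : (EE H x y).Adj x y :=
  EE_adj.2 ⟨hxy, Or.inl ⟨1, H.one_mem, rfl, rfl⟩⟩

/-- In a primitive group that is not doubly transitive, any two points are distinguished by many
points. -/
theorem main_ineq (hprim : MulAction.IsPreprimitive H Δ) (h2 : ¬ TwoTrans H) (x y : Δ)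
    (hxy : x ≠ y) : Fintype.card Δ ≤ 8 * (DD H x y) ^ 2 := by
  classical
  have : Nonempty Δ := ⟨x⟩
  have htr : ∀ u v : Δ, ∃ h ∈ H, h u = v := by
    intro u v
    obtain ⟨g, hg⟩ := hprim.exists_smul_eq u v
    exact ⟨g.1, g.2, hg⟩
  set n := Fintype.card Δ with hn
  set D := DD H x y with hDdef
  have hD1 : 1 ≤ D := by
    rw [hDdef, DD, Nat.one_le_iff_ne_zero, ← Nat.pos_iff_ne_zero, Finset.card_pos]
    refine ⟨x, ?_⟩
    simp only [Finset.mem_filter, Finset.mem_univ, true_and]
    rintro ⟨g, _, e1, e2⟩
    exact hxy (e1.symm.trans e2)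
  have hEc : (EE H x y).Connected := connected_of_inv hprim (EE_inv x y) (EE_self hxy)
  obtain ⟨d, hd⟩ := exists_degree htr (EE_inv (H := H) x y)
  have hi : 2 * n ≤ D * d + 2 :=
    dart_count (EE_inv x y) hEc D d hd (fun u v h => EE_DD h)
  have htri := DD_le_dist (H := H) hEc D (fun u v h => EE_DD h)
  -- the largest suborbit
  obtain ⟨⟨z0, u0⟩, hmax⟩ := Finite.exists_max fun p : Δ × Δ => (OO H p.1 p.2).card
  set M := (OO H z0 u0).card with hM
  have hM2 : M + 2 ≤ n := OO_card_le htr h2 hxy z0 u0
  have hmax' : ∀ z u, (OO H z u).card ≤ M := fun z u => hmax (z, u)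
  obtain ⟨K, hK⟩ : ∃ K, n = M + K := ⟨n - M, by omega⟩
  by_cases hcase : n < 3 * K
  · -- case a
    obtain ⟨u, v, huv⟩ := exists_far (H := H) K (fun z u => by have := hmax' z u; omega)
    have hne : u ≠ v := by
      rintro rfl
      rw [DD_self] at huv
      omega
    have h3 := htri u v
    have h4 : 0 < (EE H x y).dist u v := hEc.pos_dist_of_ne hne
    set t := (EE H x y).dist u v with ht
    by_cases ht2 : 2 ≤ t
    · have h5 := geo' (EE H x y) hEc d hd u v ht2 Finset.univ (fun w _ => Finset.mem_univ w)
      rw [Finset.card_univ, ← hn, ← ht] at h5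
      have h6 : (d + 1) * t < (12 * D) * t := by nlinarith
      have h7 : d + 1 < 12 * D := Nat.lt_of_mul_lt_mul_right h6
      nlinarith
    · have h5 : t = 1 := by omega
      rw [h5] at h3
      nlinarith
  · -- case b
    push Not at hcase
    obtain ⟨c, hcdef⟩ : ∃ c : Δ → Δ → Prop, ∀ z v, c z v ↔ n < 2 * (OO H z v).card :=
      ⟨fun z v => n < 2 * (OO H z v).card, fun _ _ => Iff.rfl⟩
    have hc0 : c z0 u0 := by
      rw [hcdef]
      omega
    have hcinv : ∀ k ∈ H, ∀ z v, c z v → c (k z) (k v) := by
      intro k hk z v h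
      rw [hcdef] at h ⊢
      rw [OO_card_conj hk]
      exact h
    have hcsymm : ∀ z v, c z v → c v z := by
      intro z v h
      rw [hcdef] at h ⊢
      rw [OO_card_symm htr]
      exact h
    have hcself : ∀ z, ¬ c z z := by
      intro z h
      rw [hcdef] at h
      rw [OO_self, Finset.card_singleton] at h
      omega
    have hcSm : ∀ z v w, c z v → c z w → Sm H z v w := by
      intro z v w hv hw
      have h3 : ¬ Disjoint (OO H z v) (OO H z w) := by
        intro hdis
        have h4 := Finset.card_union_of_disjoint hdis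
        have h5 := Finset.card_le_univ (OO H z v ∪ OO H z w)
        rw [hcdef] at hv hw
        omega
      rw [Finset.not_disjoint_iff] at h3
      obtain ⟨p, hp1, hp2⟩ := h3
      rw [mem_OO] at hp1 hp2
      exact hp1.trans hp2.symm
    have hcOf : ∀ z v w, c z v → Sm H z v w → c z w := by
      intro z v w hv hs
      rw [hcdef] at hv ⊢
      rw [OO_eq_of_mem (mem_OO.2 hs)]
      exact hv
    -- `Λ(z)` has `M` elements
    have hL : ∀ z, (Finset.univ.filter fun v => c z v).card = M := by
      intro z
      obtain ⟨k, hk, hkz⟩ := htr z0 z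
      have h3 : c z (k u0) := by
        rw [← hkz]
        exact hcinv k hk _ _ hc0
      have h4 : (Finset.univ.filter fun v => c z v) = OO H z (k u0) := by
        ext v
        rw [mem_OO]
        simp only [Finset.mem_filter, Finset.mem_univ, true_and]
        exact ⟨fun h => hcSm _ _ _ h3 h, fun h => hcOf _ _ _ h3 h⟩
      rw [h4, ← hkz, OO_card_conj hk]
    have hS : ∀ z, (Finset.univ.filter fun v => ¬ c z v).card = K := by
      intro z
      have h3 := Finset.card_filter_add_card_filter_not (s := (Finset.univ : Finset Δ))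
        (fun v => c z v)
      rw [hL, Finset.card_univ] at h3
      omega
    -- all pairs with `c` are conjugate
    have hcconj : ∀ u v u' v', c u v → c u' v' → ∃ h ∈ H, h u = u' ∧ h v = v' := by
      intro u v u' v' h h'
      obtain ⟨k, hk, hku⟩ := htr u u'
      have h3 : c u' (k v) := by
        rw [← hku]
        exact hcinv k hk _ _ h
      obtain ⟨g, hg, e1, e2⟩ := hcSm _ _ _ h3 h'
      exact ⟨g * k, H.mul_mem hg hk, by simp [hku, e1], by simp [e2]⟩
    have hcD : ∀ u v, c u v → DD H u v = DD H z0 u0 := by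
      intro u v h
      obtain ⟨k, hk, e1, e2⟩ := hcconj _ _ _ _ hc0 h
      rw [← e1, ← e2, DD_conj hk]
    set D1 := DD H z0 u0 with hD1def
    have hcount := sum_rel (H := H) c D1 M hL hcD
    have hz : ∀ z, K * (M - K) ≤
        (Finset.univ.filter fun p : Δ × Δ => c p.1 p.2 ∧ ¬ Sm H z p.1 p.2).card := by
      intro z
      have h3 : ∀ u, ¬ c z u → M - K ≤
          (Finset.univ.filter fun v => c u v ∧ ¬ Sm H z u v).card := by
        intro u hu
        have h4 : (Finset.univ.filter fun v => c z v) \ (Finset.univ.filter fun v => ¬ c u v) ⊆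
            (Finset.univ.filter fun v => c u v ∧ ¬ Sm H z u v) := by
          intro v hv
          simp only [Finset.mem_sdiff, Finset.mem_filter, Finset.mem_univ, true_and,
            not_not] at hv ⊢
          refine ⟨hv.2, fun hs => hu (hcOf _ _ _ hv.1 hs.symm)⟩
        have h5 := Finset.card_le_card h4
        have h6 := Finset.le_card_sdiff (Finset.univ.filter fun v => ¬ c u v)
          (Finset.univ.filter fun v => c z v)
        rw [hL, hS] at h6
        omega
      rw [Finset.card_filter, Fintype.sum_prod_type]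
      calc K * (M - K) = ∑ u ∈ Finset.univ.filter (fun v => ¬ c z v), (M - K) := by
            rw [Finset.sum_const, smul_eq_mul, hS]
        _ ≤ ∑ u ∈ Finset.univ.filter (fun v => ¬ c z v),
              ∑ v, (if c u v ∧ ¬ Sm H z u v then 1 else 0) := by
            apply Finset.sum_le_sum
            intro u hu
            simp only [Finset.mem_filter, Finset.mem_univ, true_and] at hu
            rw [← Finset.card_filter]
            exact h3 u hu
        _ ≤ ∑ u, ∑ v, (if c u v ∧ ¬ Sm H z u v then 1 else 0) := by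
            apply Finset.sum_le_sum_of_subset
            exact Finset.filter_subset _ _
    have hKD : K ≤ 2 * D1 := by
      have h3 : n * (K * (M - K)) ≤ n * (D1 * M) := by
        rw [← hcount]
        calc n * (K * (M - K)) = ∑ z : Δ, K * (M - K) := by
              rw [Finset.sum_const, smul_eq_mul, Finset.card_univ]
          _ ≤ _ := Finset.sum_le_sum fun z _ => hz z
      have hpos : 0 < n := Fintype.card_pos
      have h4 := Nat.le_of_mul_le_mul_left h3 hpos
      obtain ⟨L, hL'⟩ : ∃ L, M = K + L := ⟨M - K, by omega⟩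
      have h5 : M - K = L := by omega
      rw [h5] at h4
      have h6 : K ≤ L := by omega
      have h7 : K * M ≤ (2 * D1) * M := by
        have : K * M ≤ 2 * (K * L) := by rw [hL']; nlinarith
        calc K * M ≤ 2 * (K * L) := this
          _ ≤ 2 * (D1 * M) := by omega
          _ = _ := by ring
      have hMpos : 0 < M := by omega
      exact Nat.le_of_mul_le_mul_right h7 hMpos
    have hK2 : 2 ≤ K := by omega
    by_cases hcxy : c x y
    · have hDD : D = D1 := hcD x y hcxy
      let G : SimpleGraph Δ :=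
        { Adj := fun u v => u ≠ v ∧ ¬ c u v
          symm := ⟨fun u v h => ⟨h.1.symm, fun h' => h.2 (hcsymm _ _ h')⟩⟩
          loopless := ⟨fun u h => h.1 rfl⟩ }
      have hGadj : ∀ u v, G.Adj u v ↔ u ≠ v ∧ ¬ c u v := fun _ _ => Iff.rfl
      have hGinv : Inv H G := by
        intro k hk u v huv
        rw [hGadj] at huv ⊢
        refine ⟨fun h => huv.1 (k.injective h), fun h => huv.2 ?_⟩
        have := hcinv k⁻¹ (H.inv_mem hk) _ _ h
        simpa using this
      obtain ⟨v, hv⟩ : ∃ v, G.Adj x v := by
        have h3 : 1 < (Finset.univ.filter fun v => ¬ c x v).card := by rw [hS]; omega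
        obtain ⟨v, hv, hvx⟩ := Finset.exists_mem_ne h3 x
        simp only [Finset.mem_filter, Finset.mem_univ, true_and] at hv
        exact ⟨v, hvx.symm, hv⟩
      have hGc : G.Connected := connected_of_inv hprim hGinv hv
      have hnadj : ¬ G.Adj x y := fun h => h.2 hcxy
      have hdist := hGc.one_lt_dist_of_ne_of_not_adj hxy hnadj
      obtain ⟨p, hp⟩ := hGc.exists_walk_length_eq_dist x y
      obtain ⟨x', a', b', h3, h4, h5, h6⟩ := p.exists_adj_adj_not_adj_ne hp hdist
      have hcb : c x' b' := by
        by_contra h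
        exact h5 ⟨h6, h⟩
      have hN : ∀ a, (Finset.univ.filter fun v => G.Adj a v).card = K - 1 := by
        intro a
        have h7 : (Finset.univ.filter fun v => G.Adj a v) =
            (Finset.univ.filter fun v => ¬ c a v).erase a := by
          ext v
          simp only [Finset.mem_filter, Finset.mem_univ, true_and, Finset.mem_erase, hGadj]
          exact ⟨fun h => ⟨h.1.symm, h.2⟩, fun h => ⟨h.1.symm, h.2⟩⟩
        rw [h7, Finset.card_erase_of_mem, hS]
        simp [hcself]
      have hsub : (Finset.univ.filter fun v => c x' v) ⊆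
          (Finset.univ.filter fun a => G.Adj x' a).biUnion fun a =>
            Finset.univ.filter fun v => G.Adj a v := by
        intro v hv
        simp only [Finset.mem_filter, Finset.mem_univ, true_and] at hv
        obtain ⟨g, hg, e1, e2⟩ := hcSm _ _ _ hcb hv
        simp only [Finset.mem_biUnion, Finset.mem_filter, Finset.mem_univ, true_and]
        refine ⟨g a', ?_, ?_⟩
        · have := hGinv g hg _ _ h3
          rwa [e1] at this
        · have := hGinv g hg _ _ h4
          rwa [e2] at this
      have h7 := (Finset.card_le_card hsub).trans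
        (Finset.card_biUnion_le_card_mul _ _ (K - 1) fun a _ => (hN a).le)
      rw [hL, hN] at h7
      obtain ⟨K', rfl⟩ : ∃ K', K = K' + 1 := ⟨K - 1, by omega⟩
      rw [Nat.add_sub_cancel] at h7
      rw [← hDD] at hKD
      nlinarith
    · -- `dist_E z0 u0 ≥ 2`
      have hEadj : ∀ u v, (EE H x y).Adj u v → ¬ c u v := by
        intro u v h hcuv
        rw [EE_adj] at h
        rcases h.2 with ⟨k, hk, rfl, rfl⟩ | ⟨k, hk, rfl, rfl⟩
        · have := hcinv k⁻¹ (H.inv_mem hk) _ _ hcuv
          exact hcxy (by simpa using this)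
        · have := hcinv k⁻¹ (H.inv_mem hk) _ _ (hcsymm _ _ hcuv)
          exact hcxy (by simpa using this)
      have hne : z0 ≠ u0 := by
        rintro h
        rw [← h] at hc0
        exact hcself _ hc0
      have hdist := hEc.one_lt_dist_of_ne_of_not_adj hne (fun h => hEadj _ _ h hc0)
      have h3 := geo' (EE H x y) hEc d hd z0 u0 hdist (Finset.univ.filter fun v => ¬ c z0 v) (by
        intro w hw
        simp only [Finset.mem_filter, Finset.mem_univ, true_and]
        intro hcw
        have := dist_eq_of_sm (EE_inv x y) hEc (hcSm _ _ _ hc0 hcw)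
        omega)
      rw [hS] at h3
      have h4 := htri z0 u0
      rw [← hD1def] at h4
      set t := (EE H x y).dist z0 u0 with ht
      have h5 : (d + 1) * t ≤ (8 * D) * t := by nlinarith
      have h6 : d + 1 ≤ 8 * D := Nat.le_of_mul_le_mul_right h5 (by omega)
      nlinarith

theorem uni_sep {Δ : Type} [Fintype Δ] [DecidableEq Δ] (H : Subgroup (Perm Δ))
    (hprim : MulAction.IsPreprimitive H Δ) (h2 : ¬ TwoTrans H) (x y : Δ) (hxy : x ≠ y) :
    Fintype.card Δ ≤ 8 * ({z : Δ | ∀ g ∈ H, g z = z → g x ≠ y}.ncard) ^ 2 := by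
  classical
  have h := main_ineq hprim h2 x y hxy
  have h1 : {z : Δ | ∀ g ∈ H, g z = z → g x ≠ y}.ncard = DD H x y := by
    rw [DD, ← Set.ncard_coe_finset]
    congr 1
    ext z
    simp only [Set.mem_ofPred_eq, Finset.coe_filter, Finset.mem_univ, true_and, Sm, not_exists,
      not_and]
  rw [h1]
  exact h

end main

end Pool.Agent.TH189.J550
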