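import Mathlib
import Mathlib.LinearAlgebra.Eigenspace.Semisimple
import Mathlib.LinearAlgebra.JordanChevalley

/-!
Burnside's argument: the number of elements of a torsion linear group is bounded in terms of the
number of its eigenvalues.
-/

set_option autoImplicit false

namespace Pool.Agent.TH189.Aut

open Module

section general

variable {K : Type} [Field K] [IsAlgClosed K] {V : Type} [AddCommGroup V] [Module K V]
  [FiniteDimensional K V]

theorem semisimple_of_pow [CharZero K] (h : End K V) (m : ℕ) (hm : 0 < m) (c : K) (hc : c ≠ 0)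
    (hh : h ^ m = c • 1) : h.IsSemisimple := by
  have h1 : (Polynomial.X ^ m - Polynomial.C c : Polynomial K).Separable :=
    Polynomial.separable_X_pow_sub_C c (Nat.cast_ne_zero.2 hm.ne') hc
  refine End.isSemisimple_of_squarefree_aeval_eq_zero h1.squarefree ?_
  rw [map_sub, map_pow, Polynomial.aeval_X, Polynomial.aeval_C, hh, Algebra.algebraMap_eq_smul_one,
    sub_self]

/-- a basis of eigenvectors -/
theorem exists_eigenbasis (s : End K V) (hs : s.IsSemisimple) :
    ∃ (ι : Type) (_ : Fintype ι) (b : Basis ι K V) (μ : ι → K), ∀ i, s (b i) = μ i • b i := by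
  classical
  let S : Set V := {v | ∃ μ : K, s v = μ • v}
  have hS : Submodule.span K S = ⊤ := by
    rw [eq_top_iff, ← hs.iSup_eigenspace_eq_top, iSup_le_iff]
    intro μ v hv
    exact Submodule.subset_span ⟨μ, End.mem_eigenspace_iff.1 hv⟩
  let b0 := Basis.ofSpan hS.ge
  have hb0 : ∀ i, b0 i ∈ S := fun i => Basis.ofSpan_subset hS.ge ⟨i, rfl⟩
  haveI : Fintype ((linearIndepOn_empty K id).extend (Set.empty_subset S)) :=
    FiniteDimensional.fintypeBasisIndex b0
  choose μ hμ using hb0
  exact ⟨_, this, b0, μ, hμ⟩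

end general

section complex

variable {V : Type} [AddCommGroup V] [Module ℂ V] [FiniteDimensional ℂ V]

theorem trace_eq (u : End ℂ V) : LinearMap.trace ℂ V u = u.charpoly.roots.sum :=
  End.trace_eq_sum_roots_charpoly_of_splits (IsAlgClosed.splits _)

theorem card_roots (u : End ℂ V) : u.charpoly.roots.card = finrank ℂ V := by
  rw [← (IsAlgClosed.splits u.charpoly).natDegree_eq_card_roots, LinearMap.charpoly_natDegree]

theorem root_pow (u : End ℂ V) (m : ℕ) (c : ℂ) (hu : u ^ m = c • 1) (μ : ℂ)
    (hμ : μ ∈ u.charpoly.roots) : μ ^ m = c := by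
  have h1 : u.HasEigenvalue μ :=
    (End.hasEigenvalue_iff_isRoot_charpoly u μ).2 (Polynomial.isRoot_of_mem_roots hμ)
  obtain ⟨v, hv⟩ := h1.exists_hasEigenvector
  have h2 : ∀ k : ℕ, (u ^ k) v = μ ^ k • v := fun k => hv.pow_apply k
  have h3 := h2 m
  rw [hu] at h3
  have h4 : (c - μ ^ m) • v = 0 := by
    rw [sub_smul, ← h3, LinearMap.smul_apply, End.one_apply, sub_self]
  rcases smul_eq_zero.1 h4 with h5 | h5
  · exact (sub_eq_zero.1 h5).symm
  · exact absurd h5 hv.2

/-- an element of finite order whose trace is the dimension -/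
theorem eq_one_of_trace (u : End ℂ V) (m : ℕ) (hm : 0 < m) (hu : u ^ m = 1)
    (ht : LinearMap.trace ℂ V u = finrank ℂ V) : u = 1 := by
  have hu' : u ^ m = (1 : ℂ) • 1 := by rw [hu, one_smul]
  -- all roots are one
  have hall : ∀ μ ∈ u.charpoly.roots, μ = 1 := by
    have hn : ∀ μ ∈ u.charpoly.roots, ‖μ‖ = 1 := by
      intro μ hμ
      have h1 := root_pow u m 1 hu' μ hμ
      exact Complex.norm_eq_one_of_pow_eq_one h1 hm.ne'
    have hre : ∀ μ ∈ u.charpoly.roots, μ.re ≤ 1 := fun μ hμ =>
      (Complex.re_le_norm μ).trans (hn μ hμ).le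
    have hsum : (u.charpoly.roots.map fun μ : ℂ => 1 - μ.re).sum = 0 := by
      have h1 : (u.charpoly.roots.map fun μ : ℂ => μ.re).sum = finrank ℂ V := by
        have h2 := congrArg Complex.re (trace_eq u)
        rw [ht] at h2
        have h3 : (u.charpoly.roots.sum).re = (u.charpoly.roots.map fun μ : ℂ => μ.re).sum := by
          have := Multiset.sum_hom u.charpoly.roots Complex.reAddGroupHom
          exact this.symm
        rw [← h3, ← h2, Complex.natCast_re]
      rw [Multiset.sum_map_sub, h1, Multiset.map_const', Multiset.sum_replicate, card_roots]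
      simp
    intro μ hμ
    have h2 : 1 - μ.re = 0 := by
      have h3 := Multiset.all_zero_of_le_zero_le_of_sum_eq_zero (s := u.charpoly.roots.map
        fun μ : ℂ => 1 - μ.re) (fun x hx => by
          obtain ⟨ν, hν, rfl⟩ := Multiset.mem_map.1 hx
          have := hre ν hν
          linarith) hsum
      exact h3 _ (Multiset.mem_map_of_mem _ hμ)
    have h3 : μ.re = 1 := by linarith
    have h4 := hn μ hμ
    have h5 : μ.im = 0 := by
      have h6 := Complex.sq_norm μ
      rw [h4, Complex.normSq_apply, h3] at h6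
      nlinarith
    exact Complex.ext h3 h5
  have hroots : u.charpoly.roots = Multiset.replicate (finrank ℂ V) 1 :=
    Multiset.eq_replicate.2 ⟨card_roots u, hall⟩
  have hcp : u.charpoly = (Polynomial.X - Polynomial.C 1) ^ finrank ℂ V := by
    have h1 := (IsAlgClosed.splits u.charpoly).eq_prod_roots
    rw [h1, hroots, (LinearMap.charpoly_monic u).leadingCoeff, Polynomial.C_1, one_mul,
      Multiset.map_replicate, Multiset.prod_replicate]
    simp
  have hnil : (u - 1) ^ finrank ℂ V = 0 := by
    have h1 := LinearMap.aeval_self_charpoly u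
    rw [hcp, map_pow, map_sub, Polynomial.aeval_X, Polynomial.aeval_C, map_one] at h1
    exact h1
  have hss := semisimple_of_pow u m hm 1 one_ne_zero hu'
  have h1 := hss.isFinitelySemisimple.maxGenEigenspace_eq_eigenspace (1 : ℂ)
  ext v
  have h2 : v ∈ u.maxGenEigenspace (1 : ℂ) := by
    rw [End.mem_maxGenEigenspace]
    refine ⟨finrank ℂ V, ?_⟩
    rw [one_smul, hnil]
    rfl
  rw [h1, End.mem_eigenspace_iff, one_smul] at h2
  rw [h2]
  rfl

/-- the sums of `N` elements of a finite set -/
noncomputable def sums (R : Finset ℂ) (N : ℕ) : Finset ℂ :=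
  (Fintype.piFinset fun _ : Fin N => R).image fun f => ∑ i, f i

theorem card_sums (R : Finset ℂ) (N : ℕ) : (sums R N).card ≤ R.card ^ N := by
  refine Finset.card_image_le.trans ?_
  rw [Fintype.card_piFinset]
  simp

theorem trace_mem_sums (u : End ℂ V) (R : Finset ℂ) (hR : ∀ μ ∈ u.charpoly.roots, μ ∈ R) :
    LinearMap.trace ℂ V u ∈ sums R (finrank ℂ V) := by
  rw [trace_eq]
  obtain ⟨l, hl⟩ := Quot.exists_rep u.charpoly.roots
  have hl' : (l : Multiset ℂ) = u.charpoly.roots := hl
  have hcard : l.length = finrank ℂ V := by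
    rw [← card_roots u, ← hl']
    rfl
  rw [sums, Finset.mem_image]
  refine ⟨fun i => l.get (Fin.cast hcard.symm i), ?_, ?_⟩
  · rw [Fintype.mem_piFinset]
    intro i
    apply hR
    rw [← hl']
    exact List.get_mem l _
  · rw [← hl', Multiset.sum_coe]
    have h1 : ∑ i : Fin (finrank ℂ V), l.get (Fin.cast hcard.symm i) =
        ∑ i : Fin l.length, l.get i :=
      Fintype.sum_equiv (finCongr hcard.symm) _ _ fun i => rfl
    rw [h1]
    exact Fin.sum_univ_getElem l

/-- **Burnside.**  A multiplicatively closed set of endomorphisms of finite order with eigenvalues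
in a set of `R` numbers has at most `R ^ (N ^ 3)` elements. -/
theorem burnside (G : Set (End ℂ V)) (hmul : ∀ g ∈ G, ∀ h ∈ G, g * h ∈ G)
    (hfin : ∀ g ∈ G, ∃ m : ℕ, 0 < m ∧ g ^ m = 1) (R : Finset ℂ)
    (hR : ∀ g ∈ G, ∀ μ ∈ g.charpoly.roots, μ ∈ R) (hR1 : 1 ≤ R.card)
    (T : Finset (End ℂ V)) (hT : ∀ g ∈ T, g ∈ G) : T.card ≤ R.card ^ (finrank ℂ V ^ 3) := by
  classical
  obtain ⟨B, hBG, hBs, hBi⟩ := exists_linearIndependent ℂ G
  haveI : Finite B := hBi.finite
  haveI := Fintype.ofFinite B
  have hcardB : Fintype.card B ≤ finrank ℂ V ^ 2 := by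
    have h1 := hBi.fintype_card_le_finrank
    rw [Module.finrank_linearMap, ← pow_two] at h1
    exact h1
  -- the traces determine the element
  have hinj : Set.InjOn (fun (g : End ℂ V) (β : B) => LinearMap.trace ℂ V (g * β)) T := by
    intro g hg h hh heq
    have hgG := hT g hg
    have hhG := hT h hh
    obtain ⟨m, hm, hhm⟩ := hfin h hhG
    -- the functional `a ↦ tr ((g - h) a)` vanishes on the span
    have hvan : ∀ a ∈ Submodule.span ℂ G, LinearMap.trace ℂ V (g * a) =
        LinearMap.trace ℂ V (h * a) := by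
      intro a ha
      rw [← hBs] at ha
      induction ha using Submodule.span_induction with
      | mem a ha => exact congrFun heq ⟨a, ha⟩
      | zero => rw [mul_zero, mul_zero]
      | add a b _ _ ha hb => rw [mul_add, mul_add, map_add, map_add, ha, hb]
      | smul c a _ ha => rw [mul_smul_comm, mul_smul_comm, map_smul, map_smul, ha]
    have hpow : ∀ k : ℕ, h ^ (k + 1) ∈ G := by
      intro k
      induction k with
      | zero => rw [zero_add, pow_one]; exact hhG
      | succ k ih => rw [pow_succ]; exact hmul _ ih _ hhG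
    -- an inverse of `h` in `G`
    obtain ⟨h', hh'G, hh'⟩ : ∃ h' ∈ G, h * h' = 1 := by
      refine ⟨h ^ (2 * m - 1), ?_, ?_⟩
      · obtain ⟨k, hk⟩ : ∃ k, 2 * m - 1 = k + 1 := ⟨2 * m - 2, by omega⟩
        rw [hk]
        exact hpow k
      · rw [← pow_succ']
        have : 2 * m - 1 + 1 = m * 2 := by omega
        rw [this, pow_mul, hhm, one_pow]
    have h'h : h' * h = 1 := mul_eq_one_comm.1 hh'
    obtain ⟨k, hk, hk1⟩ := hfin (g * h') (hmul _ hgG _ hh'G)
    have h1 : g * h' = 1 := by
      refine eq_one_of_trace _ k hk hk1 ?_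
      rw [hvan h' (Submodule.subset_span hh'G), hh', LinearMap.trace_one]
    calc g = g * (h' * h) := by rw [h'h, mul_one]
      _ = h := by rw [← mul_assoc, h1, one_mul]
  have hmaps : ∀ g ∈ T, (fun β : B => LinearMap.trace ℂ V (g * β)) ∈
      Fintype.piFinset fun _ : B => sums R (finrank ℂ V) := by
    intro g hg
    rw [Fintype.mem_piFinset]
    intro β
    exact trace_mem_sums _ R (hR _ (hmul _ (hT g hg) _ (hBG β.2)))
  have h1 := Finset.card_le_card_of_injOn _ hmaps hinj
  rw [Fintype.card_piFinset] at h1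
  simp only [Finset.prod_const, Finset.card_univ] at h1
  refine h1.trans ?_
  calc (sums R (finrank ℂ V)).card ^ Fintype.card B
      ≤ (R.card ^ finrank ℂ V) ^ Fintype.card B := Nat.pow_le_pow_left (card_sums _ _) _
    _ ≤ (R.card ^ finrank ℂ V) ^ (finrank ℂ V ^ 2) :=
        Nat.pow_le_pow_right (Nat.one_le_pow _ _ hR1) hcardB
    _ = R.card ^ (finrank ℂ V ^ 3) := by rw [← pow_mul]; congr 1; ring

end complex

end Pool.Agent.TH189.Aut
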