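import Pool.Agent.TH189.Aut1
import Pool.Agent.TH189.Aut2
import Pool.Agent.H929R2.Hart.U20

/-!
The linear automorphisms of a smooth subvariety of small codimension which is not a complete
intersection have bounded order.
-/

set_option autoImplicit false

namespace Pool.Agent.TH189.Aut

open Module MvPolynomial Pool.Agent.H929R2.Hart

variable {σ : Type} [Fintype σ] [DecidableEq σ] {I : Ideal (MvPolynomial σ ℂ)}

/-- the span of the cone -/
abbrev Sp (I : Ideal (MvPolynomial σ ℂ)) : Submodule ℂ (σ → ℂ) := Submodule.span ℂ (cone I)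

theorem mem_sp {x : σ → ℂ} (hx : x ∈ cone I) : x ∈ Sp I := Submodule.subset_span hx

/-- the endomorphism preserves the cone -/
def Pres (I : Ideal (MvPolynomial σ ℂ)) (h : End ℂ (Sp I)) : Prop :=
  ∀ v : Sp I, (v : σ → ℂ) ∈ cone I → (h v : σ → ℂ) ∈ cone I

theorem Pres.mul {h h' : End ℂ (Sp I)} (a : Pres I h) (b : Pres I h') : Pres I (h * h') :=
  fun v hv => a _ (b v hv)

theorem Pres.pow {h : End ℂ (Sp I)} (a : Pres I h) (k : ℕ) : Pres I (h ^ k) := by
  induction k with
  | zero => exact fun v hv => hv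
  | succ k ih => rw [pow_succ]; exact ih.mul a

/-- two endomorphisms of the span which agree on the cone -/
theorem end_ext {f g : End ℂ (Sp I)}
    (h : ∀ v : Sp I, (v : σ → ℂ) ∈ cone I → f v = g v) : f = g := by
  have key : ∀ x (hx : x ∈ Sp I), f ⟨x, hx⟩ = g ⟨x, hx⟩ := by
    intro x hx
    induction hx using Submodule.span_induction with
    | mem x hx => exact h ⟨x, mem_sp hx⟩ hx
    | zero =>
      have : (⟨0, Submodule.zero_mem _⟩ : Sp I) = 0 := rfl
      rw [this, map_zero, map_zero]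
    | add x y hx hy h1 h2 =>
      have : (⟨x + y, Submodule.add_mem _ hx hy⟩ : Sp I) = ⟨x, hx⟩ + ⟨y, hy⟩ := rfl
      rw [this, map_add, map_add, h1, h2]
    | smul c x hx h1 =>
      have : (⟨c • x, Submodule.smul_mem _ c hx⟩ : Sp I) = c • ⟨x, hx⟩ := rfl
      rw [this, map_smul, map_smul, h1]
  exact LinearMap.ext fun v => key v.1 v.2

/-- An endomorphism of which all points of the cone are eigenvectors is scalar. -/
theorem scalar_of_forall (hI : I.IsPrime) (f : End ℂ (Sp I))
    (hf : ∀ v : Sp I, (v : σ → ℂ) ∈ cone I → ∃ c : ℂ, f v = c • v) :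
    ∃ c : ℂ, f = c • 1 := by
  classical
  by_contra hcon
  push Not at hcon
  have hx : ∀ c : ℂ, ∃ v : Sp I, (v : σ → ℂ) ∈ cone I ∧ f v ≠ c • v := by
    intro c
    by_contra h
    push Not at h
    exact hcon c (end_ext h)
  obtain ⟨g, hg⟩ := LinearMap.exists_extend ((Sp I).subtype.comp f)
  have hg' : ∀ v : Sp I, g v = (f v : σ → ℂ) := fun v => LinearMap.congr_fun hg v
  choose x hxc hxf using hx
  have hj : ∀ c, ∃ j, (g (x c)) j ≠ c * (x c : σ → ℂ) j := by
    intro c
    by_contra h
    push Not at h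
    apply hxf c
    apply Subtype.ext
    rw [← hg']
    funext j
    rw [h j]
    rfl
  choose j hj using hj
  let u : ℂ → σ → ℂ := fun c k => (g (Pi.single k 1)) (j c) - c * (Pi.single k 1 : σ → ℂ) (j c)
  have hu : ∀ c y, dotB σ ℂ (u c) y = (g y) (j c) - c * y (j c) := by
    intro c y
    rw [dotB_apply]
    have h1 : g y = ∑ k, y k • g (Pi.single k 1) := by
      conv_lhs => rw [pi_eq_sum_univ' y]
      rw [map_sum]
      refine Finset.sum_congr rfl fun k _ => ?_
      rw [map_smul]
    have h2 : y (j c) = ∑ k, y k * (Pi.single k 1 : σ → ℂ) (j c) := by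
      simp [Pi.single_apply]
    rw [h1, Finset.sum_apply]
    conv_rhs => rw [h2]
    rw [Finset.mul_sum, ← Finset.sum_sub_distrib]
    refine Finset.sum_congr rfl fun k _ => ?_
    rw [Pi.smul_apply, smul_eq_mul]
    show ((g (Pi.single k 1)) (j c) - c * (Pi.single k 1 : σ → ℂ) (j c)) * y k = _
    ring
  set S : Finset ℂ := insert 0 (f.finite_hasEigenvalue).toFinset with hS
  have hP : ∏ c ∈ S, lin (u c) ∈ I := by
    apply mem_of_vanish I hI
    intro y hy
    rw [map_prod]
    obtain ⟨c, hcS, hc⟩ : ∃ c ∈ S, f ⟨y, mem_sp hy⟩ = c • ⟨y, mem_sp hy⟩ := by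
      obtain ⟨c, hc⟩ := hf ⟨y, mem_sp hy⟩ hy
      by_cases h0 : (⟨y, mem_sp hy⟩ : Sp I) = 0
      · exact ⟨0, Finset.mem_insert_self _ _, by rw [h0, map_zero, smul_zero]⟩
      · refine ⟨c, ?_, hc⟩
        rw [hS, Finset.mem_insert]
        right
        rw [Set.Finite.mem_toFinset]
        exact End.hasEigenvalue_of_hasEigenvector ⟨End.mem_eigenspace_iff.2 hc, h0⟩
    refine Finset.prod_eq_zero hcS ?_
    rw [eval_lin, hu]
    have h1 := hg' ⟨y, mem_sp hy⟩
    rw [hc] at h1
    have h2 := congrFun h1 (j c)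
    rw [h2]
    show c * y (j c) - c * y (j c) = 0
    ring
  obtain ⟨c, -, hc⟩ := (Ideal.IsPrime.prod_mem_iff (p := I)).1 hP
  have h1 := hxc c _ hc
  rw [eval_lin, hu] at h1
  exact hj c (sub_eq_zero.1 h1)

/-- the hypotheses on the variety; it is not a hypersurface of a linear subspace -/
structure Hyp (I : Ideal (MvPolynomial σ ℂ)) (r : ℕ) : Prop where
  prime : I.IsPrime
  hom : ∀ F ∈ I, ∀ d, homogeneousComponent d F ∈ I
  ne : ∃ x ∈ cone I, x ≠ 0
  rank : ∀ x ∈ cone I, x ≠ 0 → Module.finrank ℂ (conormal I x) = r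
  card : 17 * r ≤ Fintype.card σ
  no : ¬ r ≤ Module.finrank ℂ (linsub I) + 1

/-- Every linear automorphism has a scalar power. -/
theorem scalar_pow {r : ℕ} (H : Hyp I r) (h : End ℂ (Sp I)) (hinj : Function.Injective h)
    (hp : Pres I h) : ∃ m : ℕ, 0 < m ∧ ∃ c : ℂ, h ^ m = c • 1 := by
  classical
  by_contra hcon
  push Not at hcon
  obtain ⟨W, hW⟩ := Submodule.exists_isCompl (Sp I)
  let e : (σ → ℂ) →ₗ[ℂ] (σ → ℂ) := LinearMap.ofIsCompl hW ((Sp I).subtype ∘ₗ h) W.subtype
  have he : ∀ v : Sp I, e v = (h v : σ → ℂ) := fun v => LinearMap.ofIsCompl_left_apply hW v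
  have heW : ∀ v : W, e v = v := fun v => LinearMap.ofIsCompl_right_apply hW v
  have heinj : Function.Injective e := by
    rw [← LinearMap.ker_eq_bot, LinearMap.ker_eq_bot']
    intro x hx
    obtain ⟨v, w, hvw⟩ : ∃ (v : Sp I) (w : W), (v : σ → ℂ) + w = x := by
      have : x ∈ Sp I ⊔ W := by rw [hW.sup_eq_top]; exact Submodule.mem_top
      obtain ⟨v, hv, w, hw, h1⟩ := Submodule.mem_sup.1 this
      exact ⟨⟨v, hv⟩, ⟨w, hw⟩, h1⟩
    rw [← hvw, map_add, he, heW] at hx
    have h1 : (h v : σ → ℂ) = 0 := by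
      have h2 : (h v : σ → ℂ) ∈ Sp I ⊓ W := by
        refine ⟨(h v).2, ?_⟩
        have h3 : (h v : σ → ℂ) = -(w : σ → ℂ) := eq_neg_of_add_eq_zero_left hx
        rw [h3]
        exact W.neg_mem w.2
      rw [hW.inf_eq_bot] at h2
      exact (Submodule.mem_bot ℂ).1 h2
    have h2 : (w : σ → ℂ) = 0 := by rw [h1, zero_add] at hx; exact hx
    have h3 : v = 0 := by
      apply hinj
      rw [map_zero]
      exact Subtype.ext h1
    rw [← hvw, h3, h2]
    simp
  set M : Matrix σ σ ℂ := LinearMap.toMatrix' e with hM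
  have hMe : ∀ x, M.mulVec x = e x := fun x => LinearMap.toMatrix'_mulVec e x
  have hMpow : ∀ (k : ℕ) (v : Sp I), (M ^ k).mulVec (v : σ → ℂ) = ((h ^ k) v : σ → ℂ) := by
    intro k
    induction k with
    | zero => intro v; rw [pow_zero, pow_zero, Matrix.one_mulVec]; rfl
    | succ k ih =>
      intro v
      rw [pow_succ, ← Matrix.mulVec_mulVec, hMe, he, ih, pow_succ]
      rfl
  refine H.no (main_all r I H.prime H.hom H.ne H.rank M ?_ ?_ ?_ H.card)
  · rw [← Matrix.mulVec_injective_iff_isUnit]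
    intro x y hxy
    apply heinj
    rw [← hMe, ← hMe]
    exact hxy
  · intro x hx
    rw [hMe]
    have := he ⟨x, mem_sp hx⟩
    rw [this]
    exact hp _ hx
  · intro k hk
    by_contra hcon2
    push Not at hcon2
    obtain ⟨c, hc⟩ := scalar_of_forall H.prime (h ^ k) (fun v hv => by
      obtain ⟨c, hc⟩ := hcon2 v hv
      refine ⟨c, Subtype.ext ?_⟩
      rw [← hMpow, hc]
      rfl)
    exact hcon k hk c hc

section diag

variable {ι : Type} [Fintype ι] (b : Basis ι ℂ (Sp I))

/-- the diagonal endomorphism in a basis -/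
noncomputable def diagE (τ : ι → ℂ) : End ℂ (Sp I) := b.constr ℂ fun i => τ i • b i

theorem diagE_basis (τ : ι → ℂ) (i : ι) : diagE b τ (b i) = τ i • b i := b.constr_basis ℂ _ i

theorem diagE_repr (τ : ι → ℂ) (v : Sp I) (i : ι) :
    b.repr (diagE b τ v) i = τ i * b.repr v i := by
  classical
  have h1 : diagE b τ v = ∑ k, (b.repr v k * τ k) • b k := by
    conv_lhs => rw [← b.sum_repr v]
    rw [map_sum]
    refine Finset.sum_congr rfl fun k _ => ?_
    rw [map_smul, diagE_basis, smul_smul]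
  rw [h1, b.repr_sum_self, mul_comm]

/-- a polynomial in the coordinates of a basis of the span -/
noncomputable def pull (F : MvPolynomial σ ℂ) : MvPolynomial ι ℂ :=
  aeval (fun k => ∑ i, C ((b i : σ → ℂ) k) * X i) F

theorem eval_pull (F : MvPolynomial σ ℂ) (v : Sp I) :
    eval (b.repr v) (pull b F) = eval (v : σ → ℂ) F := by
  have h1 : (eval (b.repr v)).comp ((aeval (fun k => ∑ i, C ((b i : σ → ℂ) k) * X i) :
      MvPolynomial σ ℂ →ₐ[ℂ] MvPolynomial ι ℂ) : _ →+* _) = eval (v : σ → ℂ) := by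
    apply MvPolynomial.ringHom_ext
    · intro r
      simp
    · intro k
      rw [RingHom.comp_apply, RingHom.coe_coe, aeval_X, eval_X, map_sum]
      have h2 : (v : σ → ℂ) k = (∑ i, b.repr v i • b i : Sp I).1 k := by rw [b.sum_repr]
      rw [h2, Submodule.coe_sum, Finset.sum_apply]
      refine Finset.sum_congr rfl fun i _ => ?_
      rw [map_mul, eval_C, eval_X, Submodule.coe_smul, Pi.smul_apply, smul_eq_mul, mul_comm]
  exact RingHom.congr_fun h1 F

theorem pull_homogeneous {F : MvPolynomial σ ℂ} {e : ℕ} (hF : F.IsHomogeneous e) :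
    (pull b F).IsHomogeneous e := by
  have h1 := hF.aeval (fun k => ∑ i, C ((b i : σ → ℂ) k) * X i : σ → MvPolynomial ι ℂ) (n := 1)
    (fun k => IsHomogeneous.sum _ _ _ fun i _ => by
      have := (isHomogeneous_C ι ((b i : σ → ℂ) k)).mul (isHomogeneous_X ℂ i)
      rwa [zero_add] at this)
  rwa [one_mul] at h1

/-- If `τ` satisfies all relations of degree at most `d` of the eigenvalues of `h`, then the
diagonal endomorphism `τ` preserves the cone. -/
theorem pres_diag (hom : ∀ F ∈ I, ∀ d, homogeneousComponent d F ∈ I) (d : ℕ)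
    (hcut : ∀ x, (∀ F ∈ I, F.totalDegree ≤ d → eval x F = 0) → x ∈ cone I)
    (h : End ℂ (Sp I)) (hp : Pres I h) (μ : ι → ℂ) (hμ : ∀ i, h (b i) = μ i • b i)
    (τ : ι → ℂ) (hτ : ∀ u u' : ι →₀ ℕ, u.degree = u'.degree → u.degree ≤ d →
      ∏ i, μ i ^ u i = ∏ i, μ i ^ u' i → ∏ i, τ i ^ u i = ∏ i, τ i ^ u' i) :
    Pres I (diagE b τ) := by
  classical
  have hh : h = diagE b μ := b.ext fun i => by rw [hμ, diagE_basis]
  have hpow : ∀ (k : ℕ) (v : Sp I) (i : ι), b.repr ((h ^ k) v) i = μ i ^ k * b.repr v i := by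
    intro k
    induction k with
    | zero => intro v i; rw [pow_zero, pow_zero, one_mul]; rfl
    | succ k ih =>
      intro v i
      rw [pow_succ, Module.End.mul_apply, ih]
      conv_lhs => rw [hh]
      rw [diagE_repr]
      ring
  intro v hv
  -- homogeneous equations
  have key : ∀ (F : MvPolynomial σ ℂ) (e : ℕ), F ∈ I → F.IsHomogeneous e → e ≤ d →
      eval (diagE b τ v : σ → ℂ) F = 0 := by
    intro F e hF hFe hed
    have hG := pull_homogeneous b hFe
    set G := pull b F with hGdef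
    have h1 := sum_zero_of_pow (K := ℂ) G.support (fun u => coeff u G * ∏ i, b.repr v i ^ u i)
      (fun u => ∏ i, μ i ^ u i) (fun u => ∏ i, τ i ^ u i) (fun k => by
        have h2 : eval (((h ^ k) v : Sp I) : σ → ℂ) F = 0 := (hp.pow k) v hv F hF
        rw [← eval_pull b, eval_eq'] at h2
        rw [← h2]
        refine Finset.sum_congr rfl fun u _ => ?_
        rw [mul_assoc, ← Finset.prod_pow, ← Finset.prod_mul_distrib]
        congr 1
        refine Finset.prod_congr rfl fun i _ => ?_
        rw [hpow, mul_pow, ← pow_mul, ← pow_mul, Nat.mul_comm k, mul_comm]) (fun u hu u' hu' heq => by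
        have d1 : u.degree = e := by
          rw [Finsupp.degree_eq_weight_one]
          exact hG (mem_support_iff.1 hu)
        have d2 : u'.degree = e := by
          rw [Finsupp.degree_eq_weight_one]
          exact hG (mem_support_iff.1 hu')
        exact hτ u u' (d1.trans d2.symm) (d1.trans_le hed) heq)
    rw [← eval_pull b, eval_eq']
    rw [← h1]
    refine Finset.sum_congr rfl fun u _ => ?_
    rw [mul_assoc, ← Finset.prod_mul_distrib]
    congr 1
    refine Finset.prod_congr rfl fun i _ => ?_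
    rw [diagE_repr, mul_pow, mul_comm]
  apply hcut
  intro F hF hFd
  rw [← sum_homogeneousComponent F, map_sum]
  refine Finset.sum_eq_zero fun e he => ?_
  refine key _ e (hom F hF e) (homogeneousComponent_isHomogeneous e F) ?_
  rw [Finset.mem_range] at he
  omega

end diag

end Pool.Agent.TH189.Aut
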