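import Pool.Agent.TH189.Aut3

/-!
Bounds for the order and the number of the linear automorphisms.
-/

set_option autoImplicit false

namespace Pool.Agent.TH189.Aut

open Module MvPolynomial Pool.Agent.H929R2.Hart

variable {σ : Type} [Fintype σ] [DecidableEq σ] {I : Ideal (MvPolynomial σ ℂ)}

/-- the relations of degree at most `d` between the eigenvalues -/
def rel {ι : Type} [Fintype ι] (d : ℕ) (μ : ι → ℂ) : Set (ι → ℤ) :=
  {v | ∃ u u' : ι →₀ ℕ, u.degree = u'.degree ∧ u.degree ≤ d ∧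
    ∏ i, μ i ^ u i = ∏ i, μ i ^ u' i ∧ v = fun i => (u i : ℤ) - u' i}

theorem rel_sum {ι : Type} [Fintype ι] {d : ℕ} {μ : ι → ℂ} {v : ι → ℤ} (hv : v ∈ rel d μ) :
    ∑ i, v i = 0 := by
  obtain ⟨u, u', h1, -, -, rfl⟩ := hv
  rw [Finset.sum_sub_distrib, ← Nat.cast_sum, ← Nat.cast_sum]
  rw [Finsupp.degree_eq_sum, Finsupp.degree_eq_sum] at h1
  rw [h1, sub_self]

theorem rel_abs {ι : Type} [Fintype ι] {d : ℕ} {μ : ι → ℂ} {v : ι → ℤ} (hv : v ∈ rel d μ) :
    ∑ i, |v i| ≤ ((2 * d : ℕ) : ℤ) := by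
  obtain ⟨u, u', h1, h2, -, rfl⟩ := hv
  have h3 : ∀ i, |(u i : ℤ) - u' i| ≤ u i + u' i := by
    intro i
    rw [abs_le]
    constructor <;> omega
  refine (Finset.sum_le_sum fun i _ => h3 i).trans ?_
  rw [Finset.sum_add_distrib, ← Nat.cast_sum, ← Nat.cast_sum, ← Finsupp.degree_eq_sum,
    ← Finsupp.degree_eq_sum, ← h1]
  push_cast
  have : (u.degree : ℤ) ≤ d := by exact_mod_cast h2
  omega

theorem rel_prod {ι : Type} [Fintype ι] {d : ℕ} {μ : ι → ℂ} (hμ : ∀ i, μ i ≠ 0) {v : ι → ℤ}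
    (hv : v ∈ rel d μ) : ∏ i, μ i ^ v i = 1 := by
  obtain ⟨u, u', -, -, h3, rfl⟩ := hv
  have h4 : ∀ i, μ i ^ ((u i : ℤ) - u' i) = μ i ^ u i / μ i ^ u' i := by
    intro i
    rw [zpow_sub₀ (hμ i), zpow_natCast, zpow_natCast]
  rw [Finset.prod_congr rfl fun i _ => h4 i, Finset.prod_div_distrib, h3, div_self]
  exact Finset.prod_ne_zero_iff.2 fun i _ => pow_ne_zero _ (hμ i)

/-- weights orthogonal to the relations give a one-parameter group -/
theorem weight_rel {ι : Type} [Fintype ι] {d : ℕ} {μ : ι → ℂ} (w : ι → ℤ)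
    (hw : ∀ v ∈ rel d μ, ∑ i, w i * v i = 0) (t : ℂ) (ht : t ≠ 0) (u u' : ι →₀ ℕ)
    (h1 : u.degree = u'.degree) (h2 : u.degree ≤ d)
    (h3 : ∏ i, μ i ^ u i = ∏ i, μ i ^ u' i) :
    ∏ i, (t ^ w i) ^ u i = ∏ i, (t ^ w i) ^ u' i := by
  have h4 := hw _ ⟨u, u', h1, h2, h3, rfl⟩
  have h5 : ∀ u : ι →₀ ℕ, ∏ i, (t ^ w i) ^ u i = t ^ (∑ i, w i * (u i : ℤ)) := by
    intro u
    have h6 : ∀ s : Finset ι, ∏ i ∈ s, (t ^ w i) ^ u i = t ^ (∑ i ∈ s, w i * (u i : ℤ)) := by
      classical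
      intro s
      induction s using Finset.induction_on with
      | empty => simp
      | insert a s ha ih =>
        rw [Finset.prod_insert ha, Finset.sum_insert ha, ih, zpow_add₀ ht, zpow_mul, zpow_natCast]
    exact h6 _
  rw [h5, h5]
  congr 1
  have h6 : ∑ i, w i * ((u i : ℤ) - u' i) = ∑ i, w i * (u i : ℤ) - ∑ i, w i * (u' i : ℤ) := by
    rw [← Finset.sum_sub_distrib]
    refine Finset.sum_congr rfl fun i _ => by ring
  rw [h6] at h4
  exact sub_eq_zero.1 h4

/-- **The order of a linear automorphism.** -/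
theorem order_bound {r : ℕ} (H : Hyp I r) (d : ℕ)
    (hcut : ∀ x, (∀ F ∈ I, F.totalDegree ≤ d → eval x F = 0) → x ∈ cone I)
    (h : End ℂ (Sp I)) (hinj : Function.Injective h) (hp : Pres I h) :
    ∃ m : ℕ, 0 < m ∧ m ≤ (2 * d) ^ (finrank ℂ (Sp I) - 1) ∧ ∃ c : ℂ, h ^ m = c • 1 := by
  classical
  obtain ⟨x, hx, hx0⟩ := H.ne
  set v0 : Sp I := ⟨x, mem_sp hx⟩ with hv0
  have hv00 : v0 ≠ 0 := fun h => hx0 (congrArg Subtype.val h)
  obtain ⟨m, hm, c, hc⟩ := scalar_pow H h hinj hp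
  have hc0 : c ≠ 0 := by
    rintro rfl
    rw [zero_smul] at hc
    have h1 : Function.Injective (h ^ m) := by
      rw [Module.End.coe_pow]
      exact hinj.iterate m
    exact hv00 (h1 (by rw [hc]; simp))
  obtain ⟨ι, _, b, μ, hμ⟩ := exists_eigenbasis h (semisimple_of_pow h m hm c hc0 hc)
  have hμ0 : ∀ i, μ i ≠ 0 := by
    intro i h0
    have h1 := hμ i
    rw [h0, zero_smul] at h1
    exact b.ne_zero i (hinj (by rw [h1, map_zero]))
  have hcardι : Fintype.card ι = finrank ℂ (Sp I) := (finrank_eq_card_basis b).symm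
  obtain ⟨i0⟩ : Nonempty ι := by
    by_contra hne
    rw [not_nonempty_iff] at hne
    haveI : Subsingleton (Sp I) := by
      apply (finrank_zero_iff (R := ℂ)).1
      rw [← hcardι]
      exact Fintype.card_eq_zero
    exact hv00 (Subsingleton.elim _ _)
  rcases Nat.lt_or_ge (finrank ℚ (Submodule.span ℚ
    ((fun v : ι → ℤ => fun i => (v i : ℚ)) '' rel d μ)) + 1) (Fintype.card ι) with hlt | hge
  · -- a one-parameter group
    exfalso
    obtain ⟨w, hw, i, j, hij⟩ := exists_weight (rel d μ) hlt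
    have hpr := pres_diag b H.hom d hcut h hp μ hμ (fun i => (2 : ℂ) ^ w i)
      (weight_rel w hw 2 two_ne_zero)
    have hinj' : Function.Injective (diagE b fun i => (2 : ℂ) ^ w i) := by
      intro v v' hvv
      apply b.repr.injective
      ext i
      have h1 := congrArg (fun z => b.repr z i) hvv
      simp only [diagE_repr] at h1
      exact mul_left_cancel₀ (zpow_ne_zero _ two_ne_zero) h1
    obtain ⟨k, hk, c', hc'⟩ := scalar_pow H _ hinj' hpr
    have h2 : ∀ i, ((2 : ℂ) ^ w i) ^ k = c' := by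
      intro i
      have h3 : ∀ k : ℕ, ((diagE b fun i => (2 : ℂ) ^ w i) ^ k) (b i) =
          (((2 : ℂ) ^ w i) ^ k) • b i := by
        intro k
        induction k with
        | zero => simp
        | succ k ih => rw [pow_succ, Module.End.mul_apply, diagE_basis, map_smul, ih, smul_smul,
            pow_succ, mul_comm]
      have h4 := h3 k
      rw [hc'] at h4
      have h5 : c' • b i = (((2 : ℂ) ^ w i) ^ k) • b i := h4
      exact (smul_left_injective ℂ (b.ne_zero i) h5).symm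
    have h3 : ((2 : ℂ) ^ (w i * k)) = (2 : ℂ) ^ (w j * k) := by
      rw [zpow_mul, zpow_mul, zpow_natCast, zpow_natCast, h2, h2]
    have h4 : ((2 : ℝ) ^ (w i * k)) = (2 : ℝ) ^ (w j * k) := by
      have h5 := congrArg norm h3
      rw [norm_zpow, norm_zpow, Complex.norm_two] at h5
      exact h5
    have h5 := zpow_right_injective₀ (by norm_num) (by norm_num) h4
    have h6 : (k : ℤ) ≠ 0 := by exact_mod_cast hk.ne'
    exact hij (mul_right_cancel₀ h6 h5)
  · obtain ⟨k, hk, hkb, hrel⟩ := exists_relation (rel d μ) (fun v hv => rel_sum hv) i0 (2 * d)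
      (fun v hv => rel_abs hv) hge
    refine ⟨k, hk, by rw [← hcardι]; exact hkb, μ i0 ^ k, ?_⟩
    have hμk : ∀ j, μ j ^ k = μ i0 ^ k := by
      intro j
      obtain ⟨T, c, v, hT, heq⟩ := hrel j
      -- the character `v ↦ μ^v`
      have hadd : ∀ a a' : ι → ℤ, ∏ i, μ i ^ (a + a') i = (∏ i, μ i ^ a i) * ∏ i, μ i ^ a' i := by
        intro a a'
        rw [← Finset.prod_mul_distrib]
        refine Finset.prod_congr rfl fun i _ => ?_
        rw [Pi.add_apply, zpow_add₀ (hμ0 i)]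
      have hsmul : ∀ (z : ℤ) (a : ι → ℤ), ∏ i, μ i ^ (z • a) i = (∏ i, μ i ^ a i) ^ z := by
        intro z a
        rw [← Finset.prod_zpow]
        refine Finset.prod_congr rfl fun i _ => ?_
        rw [Pi.smul_apply, smul_eq_mul, mul_comm, zpow_mul]
      have hsum : ∀ T : Finset ι, (∀ t ∈ T, v t ∈ rel d μ) →
          ∏ i, μ i ^ (∑ t ∈ T, c t • v t) i = 1 := by
        intro T
        induction T using Finset.induction_on with
        | empty => intro _; simp
        | insert t T ht ih =>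
          intro hT
          rw [Finset.sum_insert ht, hadd, hsmul, rel_prod hμ0 (hT t (Finset.mem_insert_self _ _)),
            one_zpow, one_mul]
          exact ih fun t' ht' => hT t' (Finset.mem_insert_of_mem ht')
      have h1 := hsum T hT
      rw [← heq, hsmul] at h1
      have h2 : ∏ i, μ i ^ ((Pi.single j 1 - Pi.single i0 1 : ι → ℤ) i) = μ j / μ i0 := by
        have h3 := hadd (Pi.single j 1) (-Pi.single i0 1)
        rw [← sub_eq_add_neg] at h3
        rw [h3, Finset.prod_eq_single j, Finset.prod_eq_single i0]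
        · simp [div_eq_mul_inv]
        · intro i _ hi
          simp [Pi.single_apply, hi]
        · intro h; exact absurd (Finset.mem_univ _) h
        · intro i _ hi
          simp [Pi.single_apply, hi]
        · intro h; exact absurd (Finset.mem_univ _) h
      rw [h2, zpow_natCast, div_pow] at h1
      exact (div_eq_one_iff_eq (pow_ne_zero _ (hμ0 i0))).1 h1
    refine b.ext fun i => ?_
    have h3 : ∀ k : ℕ, (h ^ k) (b i) = (μ i ^ k) • b i := by
      intro k
      induction k with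
      | zero => simp
      | succ k ih => rw [pow_succ, Module.End.mul_apply, hμ, map_smul, ih, smul_smul,
          pow_succ, mul_comm]
    rw [h3, hμk]
    simp

/-- the possible eigenvalues -/
noncomputable def eigs (N M : ℕ) : Finset ℂ :=
  (Finset.Icc 1 M).biUnion fun m => Polynomial.nthRootsFinset (m * N) (1 : ℂ)

theorem card_eigs (N M : ℕ) : (eigs N M).card ≤ N * M ^ 2 := by
  refine Finset.card_biUnion_le.trans ?_
  have h1 : ∀ m ∈ Finset.Icc 1 M, (Polynomial.nthRootsFinset (m * N) (1 : ℂ)).card ≤ M * N := by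
    intro m hm
    rw [Finset.mem_Icc] at hm
    refine (Multiset.toFinset_card_le _).trans ?_
    refine (Polynomial.card_nthRoots _ _).trans ?_
    exact Nat.mul_le_mul_right _ hm.2
  refine (Finset.sum_le_sum h1).trans ?_
  rw [Finset.sum_const, Nat.card_Icc, smul_eq_mul]
  have : M + 1 - 1 = M := by omega
  rw [this]
  nlinarith

/-- **The number of linear automorphisms of determinant one.** -/
theorem group_bound {r : ℕ} (H : Hyp I r) (d : ℕ) (hd : 1 ≤ d)
    (hcut : ∀ x, (∀ F ∈ I, F.totalDegree ≤ d → eval x F = 0) → x ∈ cone I)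
    (T : Finset (End ℂ (Sp I))) (hT : ∀ h ∈ T, Pres I h ∧ LinearMap.det h = 1) :
    T.card ≤ (Fintype.card σ * (2 * d) ^ (2 * (Fintype.card σ - 1))) ^ (Fintype.card σ ^ 3) := by
  classical
  set N := finrank ℂ (Sp I) with hN
  have hNσ : N ≤ Fintype.card σ := by
    have := Submodule.finrank_le (Sp I)
    rwa [finrank_fintype_fun_eq_card] at this
  have hN0 : 0 < N := by
    obtain ⟨x, hx, hx0⟩ := H.ne
    rw [hN, finrank_pos_iff]
    exact ⟨⟨x, mem_sp hx⟩, 0, fun h => hx0 (congrArg Subtype.val h)⟩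
  set M := (2 * d) ^ (N - 1) with hM
  have hM1 : 1 ≤ M := Nat.one_le_pow _ _ (by omega)
  have key : ∀ g : End ℂ (Sp I), Pres I g → LinearMap.det g = 1 →
      ∃ m : ℕ, 0 < m ∧ m ≤ M ∧ g ^ (m * N) = 1 := by
    intro g hg hdet
    have hinj : Function.Injective g := by
      rw [← LinearMap.ker_eq_bot, ← LinearMap.isUnit_iff_ker_eq_bot]
      exact (LinearMap.isUnit_iff_isUnit_det g).2 (by rw [hdet]; exact isUnit_one)
    obtain ⟨m, hm, hmM, c, hc⟩ := order_bound H d hcut g hinj hg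
    refine ⟨m, hm, hmM, ?_⟩
    have h1 : c ^ N = 1 := by
      have h2 := congrArg LinearMap.det hc
      rw [map_pow, hdet, one_pow, LinearMap.det_smul, map_one, mul_one] at h2
      exact h2.symm
    rw [pow_mul, hc, smul_pow, one_pow, h1, one_smul]
  have h1 := burnside {g : End ℂ (Sp I) | Pres I g ∧ LinearMap.det g = 1}
    (fun g hg h hh => ⟨hg.1.mul hh.1, by rw [map_mul, hg.2, hh.2, one_mul]⟩)
    (fun g hg => by
      obtain ⟨m, hm, -, h1⟩ := key g hg.1 hg.2
      exact ⟨m * N, Nat.mul_pos hm hN0, h1⟩)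
    (eigs N M)
    (fun g hg μ hμ => by
      obtain ⟨m, hm, hmM, h1⟩ := key g hg.1 hg.2
      rw [eigs, Finset.mem_biUnion]
      refine ⟨m, Finset.mem_Icc.2 ⟨hm, hmM⟩, ?_⟩
      rw [Polynomial.mem_nthRootsFinset (Nat.mul_pos hm hN0)]
      exact root_pow g (m * N) 1 (by rw [h1, one_smul]) μ hμ)
    (by
      rw [Nat.one_le_iff_ne_zero, ← Nat.pos_iff_ne_zero, Finset.card_pos]
      refine ⟨1, ?_⟩
      rw [eigs, Finset.mem_biUnion]
      refine ⟨1, Finset.mem_Icc.2 ⟨le_rfl, hM1⟩, ?_⟩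
      rw [Polynomial.mem_nthRootsFinset (Nat.mul_pos one_pos hN0), one_pow])
    T hT
  refine h1.trans ?_
  have h2 : (eigs N M).card ≤ Fintype.card σ * (2 * d) ^ (2 * (Fintype.card σ - 1)) := by
    refine (card_eigs N M).trans ?_
    refine Nat.mul_le_mul hNσ ?_
    rw [hM, ← pow_mul]
    exact Nat.pow_le_pow_right (by omega) (by omega)
  have h3 : 1 ≤ Fintype.card σ * (2 * d) ^ (2 * (Fintype.card σ - 1)) := by
    have : 1 ≤ (2 * d) ^ (2 * (Fintype.card σ - 1)) := Nat.one_le_pow _ _ (by omega)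
    have h4 : 1 ≤ Fintype.card σ := hN0.trans_le hNσ
    exact Nat.mul_le_mul h4 this
  calc (eigs N M).card ^ finrank ℂ (Sp I) ^ 3
      ≤ (Fintype.card σ * (2 * d) ^ (2 * (Fintype.card σ - 1))) ^ (N ^ 3) :=
        Nat.pow_le_pow_left h2 _
    _ ≤ _ := Nat.pow_le_pow_right h3 (Nat.pow_le_pow_left hNσ 3)

/-- the restriction of a linear map to the span -/
theorem exists_restrict (A : Matrix σ σ ℂ) (hA : ∀ x ∈ cone I, A.mulVec x ∈ cone I) :
    ∃ h : End ℂ (Sp I), Pres I h ∧ ∀ v : Sp I, (h v : σ → ℂ) = A.mulVec v := by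
  have h1 : ∀ x ∈ Sp I, A.mulVecLin x ∈ Sp I := by
    intro x hx
    have h2 : Submodule.map A.mulVecLin (Sp I) ≤ Sp I := by
      rw [Submodule.map_span, Submodule.span_le]
      rintro _ ⟨y, hy, rfl⟩
      exact mem_sp (hA y hy)
    exact h2 ⟨x, hx, rfl⟩
  refine ⟨A.mulVecLin.restrict h1, fun v hv => ?_, fun v => rfl⟩
  exact hA _ hv

/-- the order of one matrix -/
theorem matrix_order {r : ℕ} (H : Hyp I r) (d : ℕ)
    (hcut : ∀ x, (∀ F ∈ I, F.totalDegree ≤ d → eval x F = 0) → x ∈ cone I)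
    (hd : 1 ≤ d) (g : Matrix σ σ ℂ) (hg : IsUnit g) (hst : ∀ x ∈ cone I, g.mulVec x ∈ cone I) :
    ∃ m : ℕ, 0 < m ∧ m ≤ (2 * d) ^ (Fintype.card σ - 1) ∧ ∀ x ∈ cone I, ∃ c : ℂ,
      (g ^ m).mulVec x = c • x := by
  obtain ⟨h, hp, hh⟩ := exists_restrict g hst
  have hinj : Function.Injective h := by
    intro v w hvw
    apply Subtype.ext
    apply Matrix.mulVec_injective_iff_isUnit.2 hg
    rw [← hh, ← hh, hvw]
  obtain ⟨m, hm, hmM, c, hc⟩ := order_bound H d hcut h hinj hp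
  refine ⟨m, hm, hmM.trans ?_, fun x hx => ⟨c, ?_⟩⟩
  · refine Nat.pow_le_pow_right (by omega) ?_
    have := Submodule.finrank_le (Sp I)
    rw [finrank_fintype_fun_eq_card] at this
    omega
  · have h1 : ∀ (k : ℕ) (v : Sp I), (g ^ k).mulVec (v : σ → ℂ) = ((h ^ k) v : σ → ℂ) := by
      intro k
      induction k with
      | zero => intro v; rw [pow_zero, pow_zero, Matrix.one_mulVec]; rfl
      | succ k ih =>
        intro v
        rw [pow_succ, ← Matrix.mulVec_mulVec, ← hh, ih, pow_succ]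
        rfl
    have h2 := h1 m ⟨x, mem_sp hx⟩
    rw [hc] at h2
    exact h2

/-- the number of matrices which induce different automorphisms -/
theorem matrix_count {r : ℕ} (H : Hyp I r) (d : ℕ) (hd : 1 ≤ d)
    (hcut : ∀ x, (∀ F ∈ I, F.totalDegree ≤ d → eval x F = 0) → x ∈ cone I)
    (S : Finset (Matrix σ σ ℂ)) (hS : ∀ A ∈ S, IsUnit A ∧ ∀ x ∈ cone I, A.mulVec x ∈ cone I)
    (hdist : ∀ A ∈ S, ∀ B ∈ S, A ≠ B → ∃ x ∈ cone I, ∀ c : ℂ, A.mulVec x ≠ c • B.mulVec x) :
    S.card ≤ (Fintype.card σ * (2 * d) ^ (2 * (Fintype.card σ - 1))) ^ (Fintype.card σ ^ 3) := by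
  classical
  have hN0 : 0 < finrank ℂ (Sp I) := by
    obtain ⟨x, hx, hx0⟩ := H.ne
    rw [finrank_pos_iff]
    exact ⟨⟨x, mem_sp hx⟩, 0, fun h => hx0 (congrArg Subtype.val h)⟩
  have hex : ∀ A ∈ S, ∃ h : End ℂ (Sp I), (Pres I h ∧ LinearMap.det h = 1) ∧ ∃ c : ℂ, c ≠ 0 ∧
      ∀ v : Sp I, (h v : σ → ℂ) = c • A.mulVec v := by
    intro A hA
    obtain ⟨h, hp, hh⟩ := exists_restrict A (hS A hA).2
    have hinj : Function.Injective h := by
      intro v w hvw
      apply Subtype.ext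
      apply Matrix.mulVec_injective_iff_isUnit.2 (hS A hA).1
      rw [← hh, ← hh, hvw]
    have hdet : LinearMap.det h ≠ 0 := by
      have h1 : IsUnit h := by
        rw [LinearMap.isUnit_iff_ker_eq_bot, LinearMap.ker_eq_bot]
        exact hinj
      exact ((LinearMap.isUnit_iff_isUnit_det h).1 h1).ne_zero
    obtain ⟨c, hc⟩ := IsAlgClosed.exists_pow_nat_eq (LinearMap.det h)⁻¹ hN0
    have hc0 : c ≠ 0 := by
      rintro rfl
      rw [zero_pow hN0.ne'] at hc
      exact inv_ne_zero hdet hc.symm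
    refine ⟨c • h, ⟨fun v hv => cone_smul I H.hom c _ (hp v hv), ?_⟩, c, hc0, fun v => ?_⟩
    · rw [LinearMap.det_smul, hc, inv_mul_cancel₀ hdet]
    · rw [← hh]; rfl
  choose! φ hφ c hc0 hc using hex
  have hinj : Set.InjOn φ S := by
    intro A hA B hB hAB
    by_contra hne
    obtain ⟨x, hx, hx'⟩ := hdist A hA B hB hne
    apply hx' ((c A)⁻¹ * c B)
    have h1 := hc A hA ⟨x, mem_sp hx⟩
    have h2 := hc B hB ⟨x, mem_sp hx⟩
    rw [hAB, h2] at h1
    rw [mul_smul, h1, smul_smul, inv_mul_cancel₀ (hc0 A hA), one_smul]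
  rw [← Finset.card_image_of_injOn hinj]
  refine group_bound H d hd hcut _ fun h hh => ?_
  obtain ⟨A, hA, rfl⟩ := Finset.mem_image.1 hh
  exact hφ A hA

end Pool.Agent.TH189.Aut
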