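import Mathlib

/-!
Weights of elements which are integral over a polynomial ring.
-/

namespace Pool.Agent.TH189.Kr

open MvPolynomial

variable {K : Type} [Field K] {n : ℕ}

/-- the Rees ring of the filtration by the total degree -/
noncomputable def rees (K : Type) [Field K] (n : ℕ) :
    Subring (Polynomial (MvPolynomial (Fin n) K)) where
  carrier := {g | ∀ i, (g.coeff i).totalDegree ≤ i}
  zero_mem' := by intro i; simp
  one_mem' := by
    intro i
    rw [Polynomial.coeff_one]
    split_ifs <;> simp
  add_mem' := by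
    intro f g hf hg i
    rw [Polynomial.coeff_add]
    exact (totalDegree_add _ _).trans (max_le (hf i) (hg i))
  neg_mem' := by
    intro f hf i
    rw [Polynomial.coeff_neg, totalDegree_neg]
    exact hf i
  mul_mem' := by
    intro f g hf hg i
    rw [Polynomial.coeff_mul]
    refine (totalDegree_finsetSum _ _).trans (Finset.sup_le fun x hx => ?_)
    rw [Finset.HasAntidiagonal.mem_antidiagonal] at hx
    refine (totalDegree_mul _ _).trans ?_
    have h1 := hf x.1
    have h2 := hg x.2
    omega

theorem mem_rees {g : Polynomial (MvPolynomial (Fin n) K)} :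
    g ∈ rees K n ↔ ∀ i, (g.coeff i).totalDegree ≤ i := Iff.rfl

/-- the Rees ring in the polynomials over an extension -/
noncomputable def reesMap {E : Type} [CommRing E] (ι : MvPolynomial (Fin n) K →+* E) :
    rees K n →+* Polynomial E := (Polynomial.mapRingHom ι).comp (rees K n).subtype

theorem reesMap_apply {E : Type} [CommRing E] (ι : MvPolynomial (Fin n) K →+* E) (g : rees K n) :
    reesMap ι g = (g : Polynomial (MvPolynomial (Fin n) K)).map ι := rfl

/-- the element is integral of weight at most `k` -/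
def Wt {E : Type} [CommRing E] (ι : MvPolynomial (Fin n) K →+* E) (k : ℕ) (u : E) : Prop :=
  (reesMap ι).IsIntegralElem (Polynomial.C u * Polynomial.X ^ k)

variable {E E' : Type} [CommRing E] [CommRing E'] {ι : MvPolynomial (Fin n) K →+* E}

theorem Wt.add {k : ℕ} {u v : E} (hu : Wt ι k u) (hv : Wt ι k v) : Wt ι k (u + v) := by
  unfold Wt
  rw [map_add, add_mul]
  exact RingHom.IsIntegralElem.add _ hu hv

theorem Wt.mul {k l : ℕ} {u v : E} (hu : Wt ι k u) (hv : Wt ι l v) : Wt ι (k + l) (u * v) := by
  unfold Wt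
  have : (Polynomial.C (u * v) * Polynomial.X ^ (k + l) : Polynomial E) =
      (Polynomial.C u * Polynomial.X ^ k) * (Polynomial.C v * Polynomial.X ^ l) := by
    rw [map_mul, pow_add]; ring
  rw [this]
  exact RingHom.IsIntegralElem.mul _ hu hv

theorem Wt.poly {k : ℕ} {p : MvPolynomial (Fin n) K} (hp : p.totalDegree ≤ k) :
    Wt ι k (ι p) := by
  have h1 : (Polynomial.C p * Polynomial.X ^ k : Polynomial (MvPolynomial (Fin n) K)) ∈
      rees K n := by
    intro i
    rw [Polynomial.coeff_C_mul_X_pow]
    split_ifs with h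
    · rw [h]; exact hp
    · simp
  have h2 := (reesMap ι).isIntegralElem_map (x := ⟨_, h1⟩)
  rw [reesMap_apply] at h2
  simpa [Wt] using h2

theorem Wt.const {k : ℕ} (c : K) : Wt ι k (ι (C c)) := Wt.poly (by rw [totalDegree_C]; omega)

theorem Wt.one {k : ℕ} : Wt ι k (1 : E) := by
  have := Wt.const (ι := ι) (k := k) 1
  rwa [map_one, map_one] at this

theorem Wt.zero {k : ℕ} : Wt ι k (0 : E) := by
  have := Wt.const (ι := ι) (k := k) 0
  rwa [map_zero, map_zero] at this

theorem Wt.neg {k : ℕ} {u : E} (hu : Wt ι k u) : Wt ι k (-u) := by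
  unfold Wt
  rw [map_neg, neg_mul]
  exact RingHom.IsIntegralElem.neg _ hu

theorem Wt.sub {k : ℕ} {u v : E} (hu : Wt ι k u) (hv : Wt ι k v) : Wt ι k (u - v) := by
  rw [sub_eq_add_neg]; exact hu.add hv.neg

theorem Wt.mono {k l : ℕ} (h : k ≤ l) {u : E} (hu : Wt ι k u) : Wt ι l u := by
  have := hu.mul (Wt.one (ι := ι) (k := l - k))
  rwa [mul_one, Nat.add_sub_cancel' h] at this

theorem Wt.sum {τ : Type*} (S : Finset τ) (f : τ → E) (k : ℕ) (h : ∀ i ∈ S, Wt ι k (f i)) :
    Wt ι k (∑ i ∈ S, f i) := by
  classical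
  induction S using Finset.induction_on with
  | empty => rw [Finset.sum_empty]; exact Wt.zero
  | insert i S hi ih =>
    rw [Finset.sum_insert hi]
    exact (h i (Finset.mem_insert_self _ _)).add (ih fun j hj => h j (Finset.mem_insert_of_mem hj))

theorem Wt.prod {τ : Type*} (S : Finset τ) (f : τ → E) (k : ℕ) (h : ∀ i ∈ S, Wt ι k (f i)) :
    Wt ι (S.card * k) (∏ i ∈ S, f i) := by
  classical
  induction S using Finset.induction_on with
  | empty => rw [Finset.prod_empty]; exact Wt.one
  | insert i S hi ih =>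
    rw [Finset.prod_insert hi, Finset.card_insert_of_notMem hi, Nat.succ_mul, Nat.add_comm]
    exact (h i (Finset.mem_insert_self _ _)).mul (ih fun j hj => h j (Finset.mem_insert_of_mem hj))

theorem Wt.pow {k : ℕ} {u : E} (hu : Wt ι k u) (r : ℕ) : Wt ι (r * k) (u ^ r) := by
  have := Wt.prod (ι := ι) (Finset.range r) (fun _ => u) k fun _ _ => hu
  rwa [Finset.prod_const, Finset.card_range] at this

theorem Wt.map {k : ℕ} {u : E} (hu : Wt ι k u) (g : E →+* E') : Wt (g.comp ι) k (g u) := by
  unfold Wt at *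
  have h1 := RingHom.IsIntegralElem.map hu (Polynomial.mapRingHom g)
  have h2 : (Polynomial.mapRingHom g).comp (reesMap ι) = reesMap (g.comp ι) := by
    apply RingHom.ext
    intro x
    simp [reesMap, Polynomial.map_map]
  rw [h2] at h1
  simpa using h1

theorem Wt.of_map {k : ℕ} {u : E} (g : E →+* E') (hg : Function.Injective g)
    (hu : Wt (g.comp ι) k (g u)) : Wt ι k u := by
  unfold Wt at *
  have h2 : (Polynomial.mapRingHom g).comp (reesMap ι) = reesMap (g.comp ι) := by
    apply RingHom.ext
    intro x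
    simp [reesMap, Polynomial.map_map]
  rw [← h2] at hu
  refine RingHom.IsIntegralElem.of_map (g := Polynomial.mapRingHom g)
    (Polynomial.map_injective g hg) ?_
  simpa using hu

/-- the roots of characteristic polynomials of matrices of polynomials of degree at most `w` have
weight `w` -/
theorem Wt.root {κ : Type} [Fintype κ] [DecidableEq κ] {w : ℕ}
    (M : Matrix κ κ (MvPolynomial (Fin n) K)) (hM : ∀ i j, (M i j).totalDegree ≤ w) {u : E}
    (hu : M.charpoly.eval₂ ι u = 0) : Wt ι w u := by
  have h1 : ∀ i j, (Polynomial.C (M i j) * Polynomial.X ^ w :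
      Polynomial (MvPolynomial (Fin n) K)) ∈ rees K n := by
    intro i j k
    rw [Polynomial.coeff_C_mul_X_pow]
    split_ifs with h
    · rw [h]; exact hM i j
    · simp
  let M' : Matrix κ κ (rees K n) := Matrix.of fun i j => ⟨_, h1 i j⟩
  refine ⟨M'.charpoly, M'.charpoly_monic, ?_⟩
  have h2 : ∀ {R : Type} [CommRing R] (N : Matrix κ κ R) (x : R),
      N.charpoly.eval x = (Matrix.scalar κ x - N).det := fun N x => Matrix.eval_charpoly N x
  have h3 : M.charpoly.eval₂ ι u = (Matrix.scalar κ u - M.map ι).det := by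
    rw [← h2, Matrix.charpoly_map, Polynomial.eval_map]
  have h4 : M'.charpoly.eval₂ (reesMap ι) (Polynomial.C u * Polynomial.X ^ w) =
      (Matrix.scalar κ (Polynomial.C u * Polynomial.X ^ w) - M'.map (reesMap ι)).det := by
    rw [← h2, Matrix.charpoly_map, Polynomial.eval_map]
  rw [h4]
  have h6 : ∀ i j, reesMap ι (M' i j) = Polynomial.C (ι (M i j)) * Polynomial.X ^ w := by
    intro i j
    rw [reesMap_apply]
    simp [M']
  have h5 : (Matrix.scalar κ (Polynomial.C u * Polynomial.X ^ w) - M'.map (reesMap ι)) =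
      (Polynomial.X ^ w : Polynomial E) • ((Polynomial.C : E →+* Polynomial E).mapMatrix
        (Matrix.scalar κ u - M.map ι)) := by
    ext1 i j
    simp only [Matrix.sub_apply, Matrix.smul_apply, RingHom.mapMatrix_apply, Matrix.map_apply,
      Matrix.scalar_apply, Matrix.diagonal_apply, map_sub, smul_eq_mul, h6]
    split_ifs
    · ring
    · rw [map_zero]; ring
  rw [h5, Matrix.det_smul, ← RingHom.map_det, ← h3, hu, map_zero, mul_zero]

/-- the roots of monic polynomials of degree at most `m` with coefficients of bounded degree -/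
theorem Wt.of_coeff {w : ℕ} (χ : Polynomial (MvPolynomial (Fin n) K)) (hχ : χ.Monic)
    (hc : ∀ j, (χ.coeff j).totalDegree ≤ w * (χ.natDegree - j)) {u : E}
    (hu : χ.eval₂ ι u = 0) : Wt ι w u := by
  classical
  set N := χ.natDegree with hN
  have h1 : ∀ j, (Polynomial.C (χ.coeff j) * Polynomial.X ^ (w * (N - j)) :
      Polynomial (MvPolynomial (Fin n) K)) ∈ rees K n := by
    intro j k
    rw [Polynomial.coeff_C_mul_X_pow]
    split_ifs with h
    · rw [h]; exact hc j
    · simp
  let q : Polynomial (rees K n) :=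
    Polynomial.X ^ N + ∑ j ∈ Finset.range N, Polynomial.C (⟨_, h1 j⟩ : rees K n) * Polynomial.X ^ j
  refine ⟨q, ?_, ?_⟩
  · refine Polynomial.monic_X_pow_add ?_
    rw [Polynomial.degree_lt_iff_coeff_zero]
    intro k hk
    rw [Polynomial.finsetSum_coeff]
    refine Finset.sum_eq_zero fun j hj => ?_
    have := Finset.mem_range.1 hj
    rw [Polynomial.coeff_C_mul_X_pow, if_neg (by omega)]
  · have h2 : χ.eval₂ ι u = u ^ N + ∑ j ∈ Finset.range N, ι (χ.coeff j) * u ^ j := by
      rw [Polynomial.eval₂_eq_sum_range, Finset.sum_range_succ, ← hN]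
      have h3 : χ.coeff N = 1 := hχ
      rw [h3, map_one, one_mul, add_comm]
    have h3 : ∀ j ∈ Finset.range N, reesMap ι (⟨_, h1 j⟩ : rees K n) *
        (Polynomial.C u * Polynomial.X ^ w) ^ j =
        Polynomial.X ^ (w * N) * Polynomial.C (ι (χ.coeff j) * u ^ j) := by
      intro j hj
      have hj' := Finset.mem_range.1 hj
      rw [reesMap_apply, Polynomial.map_mul, Polynomial.map_C, Polynomial.map_pow,
        Polynomial.map_X, mul_pow, ← pow_mul, map_mul, map_pow]
      have h4 : w * N = w * (N - j) + w * j := by rw [← mul_add, Nat.sub_add_cancel hj'.le]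
      rw [h4, pow_add]
      ring
    rw [Polynomial.eval₂_add, Polynomial.eval₂_X_pow, Polynomial.eval₂_finsetSum]
    simp only [Polynomial.eval₂_mul, Polynomial.eval₂_C, Polynomial.eval₂_X_pow]
    rw [Finset.sum_congr rfl h3, ← Finset.mul_sum, ← map_sum, mul_pow, ← pow_mul, ← map_pow,
      mul_comm, ← mul_add, ← map_add, ← h2, hu, map_zero, mul_zero]

/-- an equation with bounded degrees -/
theorem Wt.ext {k : ℕ} {u : E} (hu : Wt ι k u) : ∃ (N : ℕ) (c : ℕ → MvPolynomial (Fin n) K),
    (∀ i, (c i).totalDegree ≤ k * (N - i)) ∧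
    u ^ N + ∑ i ∈ Finset.range N, ι (c i) * u ^ i = 0 := by
  obtain ⟨p, hp, h⟩ := hu
  refine ⟨p.natDegree, fun i => ((p.coeff i : rees K n) :
    Polynomial (MvPolynomial (Fin n) K)).coeff (k * (p.natDegree - i)), fun i => (p.coeff i).2 _,
    ?_⟩
  rw [Polynomial.eval₂_eq_sum_range, Finset.sum_range_succ] at h
  have h1 := congrArg (fun q : Polynomial E => q.coeff (k * p.natDegree)) h
  simp only [Polynomial.coeff_add, Polynomial.finsetSum_coeff, Polynomial.coeff_zero] at h1
  have h2 : ∀ i ≤ p.natDegree, ((reesMap ι (p.coeff i)) *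
      (Polynomial.C u * Polynomial.X ^ k) ^ i).coeff (k * p.natDegree) =
      ι (((p.coeff i : rees K n) : Polynomial (MvPolynomial (Fin n) K)).coeff
        (k * (p.natDegree - i))) * u ^ i := by
    intro i hi
    have h3 : (reesMap ι (p.coeff i)) * (Polynomial.C u * Polynomial.X ^ k) ^ i =
        (Polynomial.C (u ^ i) * reesMap ι (p.coeff i)) * Polynomial.X ^ (k * i) := by
      rw [mul_pow, ← pow_mul, map_pow]; ring
    have h4 : k * p.natDegree = k * (p.natDegree - i) + k * i := by
      rw [← Nat.mul_add, Nat.sub_add_cancel hi]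
    rw [h3, h4, Polynomial.coeff_mul_X_pow, Polynomial.coeff_C_mul, reesMap_apply,
      Polynomial.coeff_map, mul_comm]
  rw [h2 _ le_rfl, Finset.sum_congr rfl fun i hi => h2 i (Finset.mem_range.1 hi).le] at h1
  have h5 : p.coeff p.natDegree = 1 := hp
  rw [h5, Nat.sub_self, Nat.mul_zero, OneMemClass.coe_one, Polynomial.coeff_one_zero, map_one,
    one_mul] at h1
  rw [add_comm]
  exact h1

theorem totalDegree_pow_eq (p : MvPolynomial (Fin n) K) (N : ℕ) :
    (p ^ N).totalDegree = N * p.totalDegree := by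
  by_cases hp : p = 0
  · rw [hp, totalDegree_zero, Nat.mul_zero]
    rcases Nat.eq_zero_or_pos N with h | h
    · rw [h, pow_zero, totalDegree_one]
    · rw [zero_pow h.ne', totalDegree_zero]
  · induction N with
    | zero => simp
    | succ N ih =>
      rw [pow_succ, totalDegree_mul_of_isDomain (pow_ne_zero _ hp) hp, ih, Nat.succ_mul]

theorem Wt.totalDegree_le [Nontrivial E] {k : ℕ} {p : MvPolynomial (Fin n) K}
    (hι : Function.Injective ι) (hu : Wt ι k (ι p)) : p.totalDegree ≤ k := by
  obtain ⟨N, c, hc, h⟩ := hu.ext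
  by_contra hlt
  push Not at hlt
  have h1 : p ^ N = -∑ i ∈ Finset.range N, c i * p ^ i := by
    apply hι
    rw [map_neg, map_sum, map_pow, eq_neg_iff_add_eq_zero]
    simp only [map_mul, map_pow]
    exact h
  have hN : 1 ≤ N := by
    by_contra h0
    have : N = 0 := by omega
    rw [this] at h
    simp at h
  have h2 : (p ^ N).totalDegree ≤ N * p.totalDegree - 1 := by
    rw [h1, totalDegree_neg]
    refine (totalDegree_finsetSum _ _).trans (Finset.sup_le fun i hi => ?_)
    have hi' := Finset.mem_range.1 hi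
    refine (totalDegree_mul _ _).trans ?_
    rw [totalDegree_pow_eq]
    have h3 := hc i
    obtain ⟨j, hj⟩ : ∃ j, N = i + (j + 1) := ⟨N - i - 1, by omega⟩
    have h4 : N - i = j + 1 := by omega
    rw [h4] at h3
    have h5 : k * (j + 1) + 1 ≤ p.totalDegree * (j + 1) := by
      have : (k + 1) * (j + 1) ≤ p.totalDegree * (j + 1) := Nat.mul_le_mul_right _ hlt
      have h6 : (k + 1) * (j + 1) = k * (j + 1) + (j + 1) := by ring
      omega
    have h7 : N * p.totalDegree = i * p.totalDegree + p.totalDegree * (j + 1) := by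
      rw [hj]; ring
    omega
  rw [totalDegree_pow_eq] at h2
  have h3 : 1 ≤ N * p.totalDegree := Nat.mul_pos hN (by omega)
  omega

/-- degrees of polynomials in one variable -/
theorem Wt.natDegree_le {D : Type} [CommRing D] [IsDomain D] {k : ℕ} {u : E}
    (τ : MvPolynomial (Fin n) K →+* Polynomial D)
    (hτ : ∀ p, (τ p).natDegree ≤ p.totalDegree) (g : E →+* E') (j : Polynomial D →+* E')
    (hj : Function.Injective j) (hg : ∀ p, g (ι p) = j (τ p)) (hu : Wt ι k u) (Q : Polynomial D)
    (hQ : g u = j Q) : Q.natDegree ≤ k := by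
  obtain ⟨N, c, hc, h⟩ := hu.ext
  by_contra hlt
  push Not at hlt
  have h1 : Q ^ N = -∑ i ∈ Finset.range N, τ (c i) * Q ^ i := by
    apply hj
    have h2 := congrArg g h
    simp only [map_add, map_sum, map_mul, map_pow, map_zero, hg, hQ] at h2
    rw [map_neg, map_sum, map_pow, eq_neg_iff_add_eq_zero]
    simp only [map_mul, map_pow]
    exact h2
  have hN : 1 ≤ N := by
    by_contra h0
    have h3 : N = 0 := by omega
    rw [h3] at h1
    simp at h1
  have h2 : (Q ^ N).natDegree ≤ N * Q.natDegree - 1 := by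
    rw [h1, Polynomial.natDegree_neg]
    refine Polynomial.natDegree_sum_le_of_forall_le _ _ fun i hi => ?_
    have hi' := Finset.mem_range.1 hi
    refine (Polynomial.natDegree_mul_le).trans ?_
    rw [Polynomial.natDegree_pow]
    have h3 := (hτ (c i)).trans (hc i)
    obtain ⟨j, hj⟩ : ∃ j, N = i + (j + 1) := ⟨N - i - 1, by omega⟩
    have h4 : N - i = j + 1 := by omega
    rw [h4] at h3
    have h5 : k * (j + 1) + 1 ≤ Q.natDegree * (j + 1) := by
      have : (k + 1) * (j + 1) ≤ Q.natDegree * (j + 1) := Nat.mul_le_mul_right _ hlt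
      have h6 : (k + 1) * (j + 1) = k * (j + 1) + (j + 1) := by ring
      omega
    have h7 : N * Q.natDegree = i * Q.natDegree + Q.natDegree * (j + 1) := by
      rw [hj]; ring
    omega
  rw [Polynomial.natDegree_pow] at h2
  have h3 : 1 ≤ N * Q.natDegree := Nat.mul_pos hN (by omega)
  omega

end Pool.Agent.TH189.Kr
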