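import Mathlib

/-!
Eigenvalues of an operator which is a sum of commutators of operators with given weights.
-/

namespace Pool.Agent.TH189.Kr

open Module

attribute [local instance 100] LieRing.ofAssociativeRing

variable {Ω W : Type} [Field Ω] [IsAlgClosed Ω] [AddCommGroup W] [Module Ω W]
  [Module.Finite Ω W]

theorem exists_D (X : Module.End Ω W) (ξ : Ω → Ω) :
    ∃ D : Module.End Ω W, ∀ μ w, w ∈ X.maxGenEigenspace μ → D w = ξ μ • w := by
  classical
  have h : DirectSum.IsInternal X.maxGenEigenspace :=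
    DirectSum.isInternal_submodule_of_iSupIndep_of_iSup_eq_top
      X.independent_maxGenEigenspace (Module.End.iSup_maxGenEigenspace_eq_top X)
  let e := LinearEquiv.ofBijective (DirectSum.coeLinearMap X.maxGenEigenspace) h
  refine ⟨(DirectSum.toModule Ω Ω W fun μ => ξ μ • (X.maxGenEigenspace μ).subtype) ∘ₗ
    e.symm.toLinearMap, fun μ w hw => ?_⟩
  have h1 : e.symm w = DirectSum.lof Ω Ω (fun μ => X.maxGenEigenspace μ) μ ⟨w, hw⟩ := by
    rw [LinearEquiv.symm_apply_eq]
    exact (DirectSum.coeLinearMap_lof (A := X.maxGenEigenspace) μ ⟨w, hw⟩).symm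
  rw [LinearMap.comp_apply, LinearEquiv.coe_coe, h1, DirectSum.toModule_lof]
  rfl

theorem trace_DX (X D : Module.End Ω W) (ξ : Ω → Ω)
    (hD : ∀ μ w, w ∈ X.maxGenEigenspace μ → D w = ξ μ • w) :
    ∃ S : Finset Ω, (∀ μ, X.HasEigenvalue μ → μ ∈ S) ∧ (∀ μ ∈ S, X.HasEigenvalue μ) ∧
      LinearMap.trace Ω W (D * X) =
        ∑ μ ∈ S, μ * (ξ μ * (finrank Ω (X.maxGenEigenspace μ) : Ω)) := by
  classical
  have h : DirectSum.IsInternal X.maxGenEigenspace :=
    DirectSum.isInternal_submodule_of_iSupIndep_of_iSup_eq_top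
      X.independent_maxGenEigenspace (Module.End.iSup_maxGenEigenspace_eq_top X)
  have hfin : {μ | X.maxGenEigenspace μ ≠ ⊥}.Finite :=
    WellFoundedGT.finite_ne_bot_of_iSupIndep X.independent_maxGenEigenspace
  have hX : ∀ μ, Set.MapsTo X (X.maxGenEigenspace μ) (X.maxGenEigenspace μ) :=
    fun μ => X.mapsTo_maxGenEigenspace_of_comm (Commute.refl X) μ
  have hDm : ∀ μ, Set.MapsTo D (X.maxGenEigenspace μ) (X.maxGenEigenspace μ) := by
    intro μ w hw
    rw [hD μ w hw]
    exact (X.maxGenEigenspace μ).smul_mem _ hw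
  have hDX : ∀ μ, Set.MapsTo (D * X : Module.End Ω W) (X.maxGenEigenspace μ)
      (X.maxGenEigenspace μ) := fun μ w hw => hDm μ (hX μ hw)
  have hev : ∀ μ, X.maxGenEigenspace μ ≠ ⊥ ↔ X.HasEigenvalue μ := by
    intro μ
    rw [Module.End.HasEigenvalue, Module.End.hasUnifEigenvalue_iff_hasUnifEigenvalue_one
      (by simp : (0 : ℕ∞) < ⊤) |>.symm]
    rfl
  refine ⟨hfin.toFinset, fun μ hμ => ?_, fun μ hμ => ?_, ?_⟩
  · rw [Set.Finite.mem_toFinset, Set.mem_setOf_eq, hev]; exact hμ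
  · rw [Set.Finite.mem_toFinset, Set.mem_setOf_eq, hev] at hμ; exact hμ
  · rw [LinearMap.trace_eq_sum_trace_restrict' h hfin hDX]
    refine Finset.sum_congr rfl fun μ _ => ?_
    have h1 : (D * X : Module.End Ω W).restrict (hDX μ) =
        (ξ μ • (1 : Module.End Ω (X.maxGenEigenspace μ))) ∘ₗ (X.restrict (hX μ)) := by
      ext w
      show D (X w) = ξ μ • (X w : W)
      exact hD μ _ (hX μ w.2)
    have h2 : IsNilpotent (X.restrict (hX μ) - algebraMap Ω
        (Module.End Ω (X.maxGenEigenspace μ)) μ) := by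
      have h3 := X.isNilpotent_restrict_maxGenEigenspace_sub_algebraMap μ
      convert h3 using 1
      ext w
      rfl
    rw [h1, LinearMap.trace_comp_eq_mul_of_commute_of_isNilpotent μ _ h2, map_smul,
      LinearMap.trace_one, smul_eq_mul]
    exact (Commute.one_left _).smul_left _

/-- a vector of weight `α` maps generalised eigenvectors to generalised eigenvectors -/
theorem weight_mul (X t : Module.End Ω W) (α a : Ω) (w : W)
    (ht : t ∈ (LieModule.toEnd Ω (Module.End Ω W) (Module.End Ω W) X).maxGenEigenspace α)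
    (hw : w ∈ X.maxGenEigenspace a) : t w ∈ X.maxGenEigenspace (α + a) :=
  LieModule.lie_mem_maxGenEigenspace_toEnd (R := Ω) (L := Module.End Ω W) (M := W) ht hw

/-- the adjoint action -/
noncomputable abbrev adE (X : Module.End Ω W) : Module.End Ω (Module.End Ω W) :=
  LieModule.toEnd Ω (Module.End Ω W) (Module.End Ω W) X

theorem commute_of_weight (X D : Module.End Ω W) (ξ : Ω → Ω)
    (hD : ∀ μ w, w ∈ X.maxGenEigenspace μ → D w = ξ μ • w) (Q : Set Ω)
    (hQ : ∀ α ∈ Q, ∀ a, ξ (α + a) = ξ a) (t : Module.End Ω W)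
    (ht : t ∈ ⨆ α ∈ Q, (adE X).maxGenEigenspace α) : D * t = t * D := by
  have h : (⨆ α ∈ Q, (adE X).maxGenEigenspace α) ≤
      LinearMap.eqLocus (LinearMap.mulLeft Ω D) (LinearMap.mulRight Ω D) := by
    refine iSup₂_le fun α hα t ht => ?_
    show D * t = t * D
    have h1 : (⊤ : Submodule Ω W) ≤ LinearMap.eqLocus (D * t) (t * D) := by
      rw [← Module.End.iSup_maxGenEigenspace_eq_top X]
      refine iSup_le fun a w hw => ?_
      show D (t w) = t (D w)
      rw [hD a w hw, map_smul, hD _ _ (weight_mul X t α a w ht hw), hQ α hα]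
    ext w
    exact h1 (Submodule.mem_top (x := w))
  exact h ht

theorem trace_bracket_zero (D t t' : Module.End Ω W) (h' : D * t' = t' * D) :
    LinearMap.trace Ω W (D * ⁅t, t'⁆) = 0 := by
  rw [LieRing.of_associative_ring_bracket, mul_sub, map_sub, ← mul_assoc, ← mul_assoc, h',
    LinearMap.trace_mul_comm Ω (D * t) t', mul_assoc, sub_self]

/-- **Eigenvalues of sums of commutators of operators with weights in `Q`.** -/
theorem eigen_mem [CharZero Ω] (X : Module.End Ω W) (T : Set (Module.End Ω W))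
    (Q : Submodule ℚ Ω)
    (h1 : ∀ t ∈ T, t ∈ ⨆ α ∈ (Q : Set Ω), (adE X).maxGenEigenspace α)
    (h2 : X ∈ Submodule.span Ω {u | ∃ t ∈ T, ∃ t' ∈ T, ⁅t, t'⁆ = u})
    (μ : Ω) (hμ : X.HasEigenvalue μ) : μ ∈ Q := by
  classical
  by_contra hmem
  obtain ⟨f, hf, hfQ⟩ := Submodule.exists_dual_map_eq_bot_of_notMem hmem inferInstance
  have hfQ' : ∀ α ∈ Q, f α = 0 := by
    intro α hα
    have h3 : f α ∈ Submodule.map f Q := Submodule.mem_map_of_mem hα
    rw [hfQ] at h3
    exact (Submodule.mem_bot _).1 h3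
  obtain ⟨D, hD⟩ := exists_D X fun a => ((f a : ℚ) : Ω)
  have hcomm : ∀ t ∈ T, D * t = t * D := by
    intro t ht
    refine commute_of_weight X D (fun a => ((f a : ℚ) : Ω)) hD Q (fun α hα a => ?_) t (h1 t ht)
    show ((f (α + a) : ℚ) : Ω) = ((f a : ℚ) : Ω)
    rw [map_add, hfQ' α hα, zero_add]
  have htr : LinearMap.trace Ω W (D * X) = 0 := by
    have h3 : Submodule.span Ω {u | ∃ t ∈ T, ∃ t' ∈ T, ⁅t, t'⁆ = u} ≤
        LinearMap.ker ((LinearMap.trace Ω W) ∘ₗ (LinearMap.mulLeft Ω D)) := by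
      rw [Submodule.span_le]
      rintro _ ⟨t, ht, t', ht', rfl⟩
      exact trace_bracket_zero D t t' (hcomm t' ht')
    exact h3 h2
  obtain ⟨S, hS1, hS2, hS3⟩ := trace_DX X D _ hD
  rw [htr] at hS3
  have h4 := congrArg f hS3.symm
  rw [map_sum, map_zero] at h4
  have h5 : ∀ ν ∈ S, f (ν * (((f ν : ℚ) : Ω) * (finrank Ω (X.maxGenEigenspace ν) : Ω))) =
      f ν * f ν * finrank Ω (X.maxGenEigenspace ν) := by
    intro ν _
    have h6 : ν * (((f ν : ℚ) : Ω) * (finrank Ω (X.maxGenEigenspace ν) : Ω)) =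
        (f ν * (finrank Ω (X.maxGenEigenspace ν) : ℚ)) • ν := by
      rw [Rat.smul_def]
      push_cast
      ring
    rw [h6, map_smul, smul_eq_mul]
    ring
  rw [Finset.sum_congr rfl h5, Finset.sum_eq_zero_iff_of_nonneg fun ν _ =>
    mul_nonneg (mul_self_nonneg _) (Nat.cast_nonneg _)] at h4
  have h7 := h4 μ (hS1 μ hμ)
  have h8 : finrank Ω (X.maxGenEigenspace μ) ≠ 0 := by
    intro h0
    have h9 := Submodule.finrank_eq_zero.1 h0
    rw [Module.End.HasEigenvalue, ← Module.End.hasUnifEigenvalue_iff_hasUnifEigenvalue_one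
      (by simp : (0 : ℕ∞) < ⊤)] at hμ
    exact hμ h9
  rcases mul_eq_zero.1 h7 with h9 | h9
  · exact hf (mul_self_eq_zero.1 h9)
  · exact h8 (by exact_mod_cast h9)

end Pool.Agent.TH189.Kr
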