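import Pool.Agent.TH189.Kr10

/-!
Eigenvalues of generic elements of representations of semisimple Lie algebras.
-/

namespace Pool.Agent.TH189.Kr

open Module LieAlgebra

attribute [local instance 100] LieRing.ofAssociativeRing

variable {K 𝔮 Ω W : Type} [Field K] [LieRing 𝔮] [LieAlgebra K 𝔮] [Module.Finite K 𝔮]
  [Field Ω] [Algebra K Ω] [IsAlgClosed Ω] [AddCommGroup W] [Module Ω W] [Module.Finite Ω W]

/-- the matrices of the adjoint action on an ideal -/
noncomputable def adI (I : LieIdeal K 𝔮) (a : 𝔮) :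
    Matrix (Fin (finrank K I)) (Fin (finrank K I)) K :=
  LinearMap.toMatrix (finBasis K I) (finBasis K I) (LieModule.toEnd K 𝔮 I a)

theorem adI_sum (I : LieIdeal K 𝔮) (a : 𝔮) (j : Fin (finrank K I)) :
    ⁅a, ((finBasis K I j : I) : 𝔮)⁆ = ∑ i, adI I a i j • ((finBasis K I i : I) : 𝔮) := by
  have h1 := (finBasis K I).sum_repr (LieModule.toEnd K 𝔮 I a (finBasis K I j))
  have h2 := congrArg (Subtype.val) h1
  have h3 : ((LieModule.toEnd K 𝔮 I a (finBasis K I j) : I) : 𝔮) =
      ⁅a, ((finBasis K I j : I) : 𝔮)⁆ := rfl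
  rw [h3] at h2
  rw [← h2]
  push_cast
  refine Finset.sum_congr rfl fun i _ => ?_
  rw [adI, LinearMap.toMatrix_apply]

theorem ad_weights (θ : 𝔮 → Module.End Ω W) (hadd : ∀ x y, θ (x + y) = θ x + θ y)
    (hsmul : ∀ (c : K) x, θ (c • x) = algebraMap K Ω c • θ x)
    (hlie : ∀ x y, θ ⁅x, y⁆ = ⁅θ x, θ y⁆) {J : Type} [Fintype J] (a : J → 𝔮) (x : J → Ω)
    (Q : Set Ω)
    (I : LieIdeal K 𝔮)
    (hQ : ∀ α : Ω, (∑ k, x k • (adI I (a k)).map (algebraMap K Ω)).charpoly.eval α = 0 → α ∈ Q)
    (g : 𝔮) (hg : g ∈ I) :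
    θ g ∈ ⨆ α ∈ Q, (adE (∑ k, x k • θ (a k))).maxGenEigenspace α := by
  classical
  set X := ∑ k, x k • θ (a k) with hX
  set M := ∑ k, x k • (adI I (a k)).map (algebraMap K Ω) with hM
  let N : Module.End Ω (Fin (finrank K I) → Ω) := Matrix.toLin' M
  let e : Fin (finrank K I) → 𝔮 := fun i => ((finBasis K I i : I) : 𝔮)
  let τ : (Fin (finrank K I) → Ω) →ₗ[Ω] Module.End Ω W :=
    Fintype.linearCombination Ω (fun j => θ (e j))
  have hθsum : ∀ (ι : Type) (s : Finset ι) (c : ι → K) (u : ι → 𝔮),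
      θ (∑ i ∈ s, c i • u i) = ∑ i ∈ s, algebraMap K Ω (c i) • θ (u i) := by
    intro ι s c u
    have h1 := map_sum (AddMonoidHom.mk' θ hadd) (fun i => c i • u i) s
    have h2 : ∀ y, AddMonoidHom.mk' θ hadd y = θ y := fun y => rfl
    rw [h2] at h1
    rw [h1]
    exact Finset.sum_congr rfl fun i _ => hsmul _ _
  have hτ : ∀ v, adE X (τ v) = τ (N v) := by
    have h1 : (adE X) ∘ₗ τ = τ ∘ₗ N := by
      refine LinearMap.pi_ext' fun j => ?_
      refine LinearMap.ext_ring ?_
      rw [LinearMap.comp_apply, LinearMap.comp_apply, LinearMap.comp_apply, LinearMap.comp_apply,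
        LinearMap.single_apply, Fintype.linearCombination_apply_single, one_smul]
      have h2 : N (Pi.single j 1) = fun i => M i j := by
        rw [Matrix.toLin'_apply, Matrix.mulVec_single_one]
        rfl
      rw [h2, Fintype.linearCombination_apply]
      show ⁅X, θ (e j)⁆ = _
      rw [hX, LieRing.of_associative_ring_bracket, Finset.sum_mul, Finset.mul_sum,
        ← Finset.sum_sub_distrib]
      have h3 : ∀ k, (x k • θ (a k)) * θ (e j) - θ (e j) * (x k • θ (a k)) =
          ∑ i, (x k * algebraMap K Ω (adI I (a k) i j)) • θ (e i) := by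
        intro k
        rw [smul_mul_assoc, mul_smul_comm, ← smul_sub, ← LieRing.of_associative_ring_bracket,
          ← hlie, adI_sum, hθsum, Finset.smul_sum]
        exact Finset.sum_congr rfl fun i _ => by rw [smul_smul]
      rw [Finset.sum_congr rfl fun k _ => h3 k, Finset.sum_comm]
      refine Finset.sum_congr rfl fun i _ => ?_
      rw [← Finset.sum_smul]
      congr 1
      rw [hM, Matrix.sum_apply]
      exact Finset.sum_congr rfl fun k _ => rfl
    exact fun v => LinearMap.congr_fun h1 v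
  have hgen : ∀ α, N.maxGenEigenspace α ≤ Submodule.comap τ ((adE X).maxGenEigenspace α) := by
    intro α v hv
    rw [Submodule.mem_comap]
    rw [Module.End.mem_maxGenEigenspace] at hv ⊢
    obtain ⟨k, hk⟩ := hv
    refine ⟨k, ?_⟩
    have h1 : ∀ (k : ℕ) v, ((adE X - α • (1 : Module.End Ω (Module.End Ω W))) ^ k) (τ v) =
        τ (((N - α • (1 : Module.End Ω (Fin (finrank K I) → Ω))) ^ k) v) := by
      intro k
      induction k with
      | zero => intro v; rfl
      | succ k ih =>
        intro v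
        rw [pow_succ, pow_succ, Module.End.mul_apply, Module.End.mul_apply, ← ih]
        congr 1
        rw [LinearMap.sub_apply, LinearMap.sub_apply, hτ, map_sub]
        simp
    rw [h1, hk, map_zero]
  have htop : ∀ v, τ v ∈ ⨆ α ∈ Q, (adE X).maxGenEigenspace α := by
    have h1 : (⊤ : Submodule Ω (Fin (finrank K I) → Ω)) ≤
        Submodule.comap τ (⨆ α ∈ Q, (adE X).maxGenEigenspace α) := by
      rw [← Module.End.iSup_maxGenEigenspace_eq_top N]
      refine iSup_le fun α => ?_
      by_cases hα : α ∈ Q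
      · exact (hgen α).trans (Submodule.comap_mono
          (le_iSup₂ (f := fun α (_ : α ∈ Q) => (adE X).maxGenEigenspace α) α hα))
      · have h2 : N.maxGenEigenspace α = ⊥ := by
          by_contra hne
          apply hα
          apply hQ
          have h3 : N.HasEigenvalue α := by
            rw [Module.End.HasEigenvalue, ← Module.End.hasUnifEigenvalue_iff_hasUnifEigenvalue_one
              (by simp : (0 : ℕ∞) < ⊤)]
            exact hne
          rw [Module.End.hasEigenvalue_iff_isRoot_charpoly, Matrix.charpoly_toLin'] at h3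
          exact h3
        rw [h2]
        exact bot_le
    exact fun v => h1 (Submodule.mem_top (x := v))
  have h1 : θ g = τ fun j => algebraMap K Ω ((finBasis K I).repr ⟨g, hg⟩ j) := by
    have h2 := (finBasis K I).sum_repr ⟨g, hg⟩
    have h3 : g = ∑ i, (finBasis K I).repr ⟨g, hg⟩ i • e i := by
      have h4 := congrArg (Subtype.val) h2
      push_cast at h4
      exact h4.symm
    conv_lhs => rw [h3]
    rw [hθsum, Fintype.linearCombination_apply]
  rw [h1]
  exact htop _

theorem perfect [IsSemisimple K 𝔮] (g : 𝔮) : g ∈ Submodule.span K {u | ∃ x y : 𝔮, ⁅x, y⁆ = u} := by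
  have h1 : ∀ I : LieIdeal K 𝔮, IsAtom I →
      I.toSubmodule ≤ Submodule.span K {u | ∃ x y : 𝔮, ⁅x, y⁆ = u} := by
    intro I hI
    have h2 : ⁅I, I⁆ = I := by
      rcases hI.le_iff.1 (LieSubmodule.lie_le_right I I : ⁅I, I⁆ ≤ I) with h | h
      · exfalso
        exact IsSemisimple.non_abelian_of_isAtom I hI
          ((LieSubmodule.lie_abelian_iff_lie_self_eq_bot I).2 h)
      · exact h
    rw [← h2, LieSubmodule.lieIdeal_oper_eq_linear_span']
    refine Submodule.span_mono ?_
    rintro _ ⟨x, _, y, _, rfl⟩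
    exact ⟨x, y, rfl⟩
  have hx : g ∈ (sSup {I : LieIdeal K 𝔮 | IsAtom I}) := by
    rw [IsSemisimple.sSup_atoms_eq_top]; exact LieSubmodule.mem_top _
  rw [← LieSubmodule.mem_toSubmodule, LieSubmodule.sSup_toSubmodule] at hx
  have h3 : sSup {x | ∃ s ∈ {I : LieIdeal K 𝔮 | IsAtom I}, (s : Submodule K 𝔮) = x} ≤
      Submodule.span K {u | ∃ x y : 𝔮, ⁅x, y⁆ = u} := by
    refine sSup_le ?_
    rintro _ ⟨I, hI, rfl⟩
    exact h1 I hI
  exact h3 hx

theorem semisimple_eigen [CharZero Ω] [IsSemisimple K 𝔮] (θ : 𝔮 → Module.End Ω W)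
    (hadd : ∀ x y, θ (x + y) = θ x + θ y)
    (hsmul : ∀ (c : K) x, θ (c • x) = algebraMap K Ω c • θ x)
    (hlie : ∀ x y, θ ⁅x, y⁆ = ⁅θ x, θ y⁆) {J : Type} [Fintype J] (a : J → 𝔮) (x : J → Ω)
    (Q : Submodule ℚ Ω)
    (hQ : ∀ I : LieIdeal K 𝔮, IsAtom I → ∀ α : Ω,
      (∑ k, x k • (adI I (a k)).map (algebraMap K Ω)).charpoly.eval α = 0 → α ∈ Q)
    (μ : Ω) (hμ : (∑ k, x k • θ (a k)).HasEigenvalue μ) : μ ∈ Q := by
  have hzero : θ 0 = 0 := by
    have h := hsmul 0 0
    rwa [zero_smul, map_zero, zero_smul] at h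
  refine eigen_mem _ (Set.range θ) Q ?_ ?_ μ hμ
  · rintro _ ⟨g, rfl⟩
    let B := ⨆ α ∈ (Q : Set Ω), (adE (∑ k, x k • θ (a k))).maxGenEigenspace α
    let C : Submodule K 𝔮 :=
      { carrier := {g | θ g ∈ B}
        zero_mem' := by
          show θ 0 ∈ B
          rw [hzero]; exact B.zero_mem
        add_mem' := by
          intro g h hg hh
          show θ (g + h) ∈ B
          rw [hadd]; exact B.add_mem hg hh
        smul_mem' := by
          intro c g hg
          show θ (c • g) ∈ B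
          rw [hsmul]; exact B.smul_mem _ hg }
    have hx : g ∈ (sSup {I : LieIdeal K 𝔮 | IsAtom I}) := by
      rw [IsSemisimple.sSup_atoms_eq_top]; exact LieSubmodule.mem_top _
    rw [← LieSubmodule.mem_toSubmodule, LieSubmodule.sSup_toSubmodule] at hx
    have h3 : sSup {x | ∃ s ∈ {I : LieIdeal K 𝔮 | IsAtom I}, (s : Submodule K 𝔮) = x} ≤ C := by
      refine sSup_le ?_
      rintro _ ⟨I, hI, rfl⟩
      intro g hg
      exact ad_weights θ hadd hsmul hlie a x Q I (hQ I hI) g hg
    exact h3 hx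
  · let B := Submodule.span Ω {u | ∃ t ∈ Set.range θ, ∃ t' ∈ Set.range θ, ⁅t, t'⁆ = u}
    let C : Submodule K 𝔮 :=
      { carrier := {g | θ g ∈ B}
        zero_mem' := by
          show θ 0 ∈ B
          rw [hzero]; exact B.zero_mem
        add_mem' := by
          intro g h hg hh
          show θ (g + h) ∈ B
          rw [hadd]; exact B.add_mem hg hh
        smul_mem' := by
          intro c g hg
          show θ (c • g) ∈ B
          rw [hsmul]; exact B.smul_mem _ hg }
    have h1 : Submodule.span K {u | ∃ x y : 𝔮, ⁅x, y⁆ = u} ≤ C := by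
      rw [Submodule.span_le]
      rintro _ ⟨x, y, rfl⟩
      show θ ⁅x, y⁆ ∈ B
      rw [hlie]
      exact Submodule.subset_span ⟨_, ⟨x, rfl⟩, _, ⟨y, rfl⟩, rfl⟩
    exact Submodule.sum_mem _ fun k _ => Submodule.smul_mem _ _ (h1 (perfect (a k)))

end Pool.Agent.TH189.Kr
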