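import Pool.Agent.TH189.Lev4

/-!
Composition series of modules over Lie algebras, in matrix form.
-/

namespace Pool.Agent.TH189.Lev

open Module LieAlgebra

attribute [local instance 100] LieRing.ofAssociativeRing

/-- A basis adapted to a composition series: the matrices of all `x` are block triangular and each
diagonal block lies in a space of dimension at most `s`. -/
def HasFlag (K L V : Type) [Field K] [LieRing L] [LieAlgebra K L] [AddCommGroup V]
    [Module K V] [LieRingModule L V] [LieModule K L V] (s : ℕ) : Prop :=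
  ∃ (ι : Type) (_ : Fintype ι) (_ : DecidableEq ι) (e : Basis ι K V) (lev : ι → ℕ)
    (E : ℕ → Submodule K (Matrix ι ι K)), (∀ t, finrank K (E t) ≤ s) ∧
    (∀ (x : L) (i j : ι), lev j < lev i →
      LinearMap.toMatrix e e (LieModule.toEnd K L V x) i j = 0) ∧
    ∀ (x : L) (t : ℕ), ∃ A ∈ E t, ∀ i j, lev i = t → lev j = t →
      LinearMap.toMatrix e e (LieModule.toEnd K L V x) i j = A i j

section

variable {K L : Type} [Field K] [LieRing L] [LieAlgebra K L]

/-- upper left block -/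
def emb1 (K ι₁ ι₂ : Type) [Field K] : Matrix ι₁ ι₁ K →ₗ[K] Matrix (ι₁ ⊕ ι₂) (ι₁ ⊕ ι₂) K where
  toFun := fun A => Matrix.fromBlocks A 0 0 0
  map_add' := fun A B => by rw [Matrix.fromBlocks_add]; simp
  map_smul' := fun c A => by rw [RingHom.id_apply, Matrix.fromBlocks_smul]; simp

/-- lower right block -/
def emb2 (K ι₁ ι₂ : Type) [Field K] : Matrix ι₂ ι₂ K →ₗ[K] Matrix (ι₁ ⊕ ι₂) (ι₁ ⊕ ι₂) K where
  toFun := fun A => Matrix.fromBlocks 0 0 0 A
  map_add' := fun A B => by rw [Matrix.fromBlocks_add]; simp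
  map_smul' := fun c A => by rw [RingHom.id_apply, Matrix.fromBlocks_smul]; simp

/-- the block spaces of the glued basis -/
def glueE {K ι₁ ι₂ : Type} [Field K] (C : ℕ) (E₁ : ℕ → Submodule K (Matrix ι₁ ι₁ K))
    (E₂ : ℕ → Submodule K (Matrix ι₂ ι₂ K)) (t : ℕ) :
    Submodule K (Matrix (ι₁ ⊕ ι₂) (ι₁ ⊕ ι₂) K) :=
  if t < C then (E₁ t).map (emb1 K ι₁ ι₂) else (E₂ (t - C)).map (emb2 K ι₁ ι₂)

theorem glueE_finrank {K ι₁ ι₂ : Type} [Field K] [Finite ι₁] [Finite ι₂] (C s : ℕ)
    (E₁ : ℕ → Submodule K (Matrix ι₁ ι₁ K)) (E₂ : ℕ → Submodule K (Matrix ι₂ ι₂ K))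
    (h1 : ∀ t, finrank K (E₁ t) ≤ s) (h2 : ∀ t, finrank K (E₂ t) ≤ s) (t : ℕ) :
    finrank K (glueE C E₁ E₂ t) ≤ s := by
  by_cases ht : t < C
  · have h3 : glueE C E₁ E₂ t = (E₁ t).map (emb1 K ι₁ ι₂) := if_pos ht
    rw [h3]
    exact (Submodule.finrank_map_le (emb1 K ι₁ ι₂) (E₁ t)).trans (h1 t)
  · have h3 : glueE C E₁ E₂ t = (E₂ (t - C)).map (emb2 K ι₁ ι₂) := if_neg ht
    rw [h3]
    exact (Submodule.finrank_map_le (emb2 K ι₁ ι₂) (E₂ (t - C))).trans (h2 _)

section glue

variable {V : Type} [AddCommGroup V] [Module K V] [LieRingModule L V] [LieModule K L V]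
    (U : LieSubmodule K L V) {ι₁ ι₂ : Type} (e₁ : Basis ι₁ K U.toSubmodule)
    (e₂ : Basis ι₂ K (V ⧸ U.toSubmodule))

theorem hll [Fintype ι₁] [Fintype ι₂] [DecidableEq ι₁] [DecidableEq ι₂] (x : L) (i j : ι₁) :
    LinearMap.toMatrix (Module.Basis.sumQuot e₁ e₂) (Module.Basis.sumQuot e₁ e₂)
      (LieModule.toEnd K L V x) (Sum.inl i) (Sum.inl j) =
      e₁.repr ⟨LieModule.toEnd K L V x (e₁ j), U.lie_mem (e₁ j).2⟩ i := by
  rw [LinearMap.toMatrix_apply, Module.Basis.sumQuot_inl]
  exact Module.Basis.sumQuot_repr_inl_of_mem e₁ e₂ _ (U.lie_mem (e₁ j).2) i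

theorem hrl [Fintype ι₁] [Fintype ι₂] [DecidableEq ι₁] [DecidableEq ι₂] (x : L) (i : ι₂)
    (j : ι₁) :
    LinearMap.toMatrix (Module.Basis.sumQuot e₁ e₂) (Module.Basis.sumQuot e₁ e₂)
      (LieModule.toEnd K L V x) (Sum.inr i) (Sum.inl j) = 0 := by
  rw [LinearMap.toMatrix_apply, Module.Basis.sumQuot_inl]
  exact Module.Basis.sumQuot_repr_inr_of_mem e₁ e₂ _ (U.lie_mem (e₁ j).2) i

theorem hrr [Fintype ι₁] [Fintype ι₂] [DecidableEq ι₁] [DecidableEq ι₂] (x : L) (i j : ι₂) :
    LinearMap.toMatrix (Module.Basis.sumQuot e₁ e₂) (Module.Basis.sumQuot e₁ e₂)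
      (LieModule.toEnd K L V x) (Sum.inr i) (Sum.inr j) =
      e₂.repr (Submodule.Quotient.mk (LieModule.toEnd K L V x
        (Module.Basis.sumQuot e₁ e₂ (Sum.inr j)))) i := by
  rw [LinearMap.toMatrix_apply, Module.Basis.sumQuot_repr_inr]
  rfl

end glue

theorem flag_glue {V : Type} [AddCommGroup V] [Module K V] [LieRingModule L V] [LieModule K L V]
    [Module.Finite K V] (U : LieSubmodule K L V) (s : ℕ) (h1 : HasFlag K L U s)
    (h2 : HasFlag K L (V ⧸ U) s) : HasFlag K L V s := by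
  classical
  obtain ⟨ι₁, _, _, e₁, lev₁, E₁, a1, b1, c1⟩ := h1
  obtain ⟨ι₂, _, _, e₂, lev₂, E₂, a2, b2, c2⟩ := h2
  have k1 : ∀ (x : L) (i j : ι₁), LinearMap.toMatrix (Module.Basis.sumQuot (W := U.toSubmodule) e₁ e₂)
      (Module.Basis.sumQuot (W := U.toSubmodule) e₁ e₂) (LieModule.toEnd K L V x)
      (Sum.inl i) (Sum.inl j) = LinearMap.toMatrix e₁ e₁ (LieModule.toEnd K L U x) i j := by
    intro x i j
    rw [LinearMap.toMatrix_apply e₁]
    exact hll U e₁ e₂ x i j
  have k2 : ∀ (x : L) (i : ι₂) (j : ι₁),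
      LinearMap.toMatrix (Module.Basis.sumQuot (W := U.toSubmodule) e₁ e₂)
      (Module.Basis.sumQuot (W := U.toSubmodule) e₁ e₂) (LieModule.toEnd K L V x)
      (Sum.inr i) (Sum.inl j) = 0 := fun x i j => hrl U e₁ e₂ x i j
  have k3 : ∀ (x : L) (i j : ι₂),
      LinearMap.toMatrix (Module.Basis.sumQuot (W := U.toSubmodule) e₁ e₂)
      (Module.Basis.sumQuot (W := U.toSubmodule) e₁ e₂) (LieModule.toEnd K L V x)
      (Sum.inr i) (Sum.inr j) = LinearMap.toMatrix e₂ e₂ (LieModule.toEnd K L (V ⧸ U) x) i j := by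
    intro x i j
    rw [LinearMap.toMatrix_apply e₂]
    refine (hrr U e₁ e₂ x i j).trans ?_
    have h5 : e₂ j = Submodule.Quotient.mk
        (Module.Basis.sumQuot (W := U.toSubmodule) e₁ e₂ (Sum.inr j)) :=
      (Module.Basis.sumQuot_inr (W := U.toSubmodule) e₁ e₂ j).symm
    rw [h5]
    rfl
  generalize Module.Basis.sumQuot (W := U.toSubmodule) e₁ e₂ = e at k1 k2 k3
  obtain ⟨C, hC⟩ : ∃ C, ∀ i, lev₁ i < C :=
    ⟨Finset.univ.sup lev₁ + 1, fun i => Nat.lt_succ_of_le (Finset.le_sup (Finset.mem_univ i))⟩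
  refine ⟨ι₁ ⊕ ι₂, inferInstance, inferInstance, e, Sum.elim lev₁ fun j => lev₂ j + C,
    glueE C E₁ E₂, glueE_finrank C s E₁ E₂ a1 a2, ?_, ?_⟩
  · rintro x (i | i) (j | j) hij
    · rw [k1]; exact b1 x i j hij
    · have h6 : lev₂ j + C < lev₁ i := hij
      have := hC i
      omega
    · exact k2 x i j
    · rw [k3]
      have h6 : lev₂ j + C < lev₂ i + C := hij
      exact b2 x i j (by omega)
  · intro x t
    by_cases ht : t < C
    · obtain ⟨A, hA, hA'⟩ := c1 x t
      have h3 : glueE C E₁ E₂ t = (E₁ t).map (emb1 K ι₁ ι₂) := if_pos ht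
      refine ⟨emb1 K ι₁ ι₂ A, ?_, ?_⟩
      · rw [h3]
        exact Submodule.mem_map_of_mem hA
      · rintro (i | i) (j | j) hi hj
        · rw [k1]; exact hA' i j hi hj
        · have h6 : lev₂ j + C = t := hj
          omega
        · have h6 : lev₂ i + C = t := hi
          omega
        · have h6 : lev₂ i + C = t := hi
          omega
    · obtain ⟨A, hA, hA'⟩ := c2 x (t - C)
      have h3 : glueE C E₁ E₂ t = (E₂ (t - C)).map (emb2 K ι₁ ι₂) := if_neg ht
      refine ⟨emb2 K ι₁ ι₂ A, ?_, ?_⟩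
      · rw [h3]
        exact Submodule.mem_map_of_mem hA
      · rintro (i | i) (j | j) hi hj
        · have h6 : lev₁ i = t := hi
          have := hC i
          omega
        · have h6 : lev₁ i = t := hi
          have := hC i
          omega
        · have h6 : lev₁ j = t := hj
          have := hC j
          omega
        · have h6 : lev₂ i + C = t := hi
          have h7 : lev₂ j + C = t := hj
          rw [k3]; exact hA' i j (by omega) (by omega)

theorem flag_irr [IsAlgClosed K] [CharZero K] [Module.Finite K L] (m s N : ℕ)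
    (hm : ∀ I : LieIdeal K (L ⧸ radical K L), IsAtom I → finrank K I ≤ m)
    (hs : min (m * Nat.log 2 N) (finrank K (L ⧸ radical K L)) + 1 ≤ s)
    (V : Type) [AddCommGroup V] [Module K V] [LieRingModule L V] [LieModule K L V]
    [Module.Finite K V] [LieModule.IsIrreducible K L V] (hN : finrank K V ≤ N) :
    HasFlag K L V s := by
  classical
  obtain ⟨E, hE1, hE2, hE3⟩ := irr_bound (K := K) (L := L) (W := V) m hm
  have h6 : m * Nat.log 2 (finrank K V) ≤ m * Nat.log 2 N :=
    Nat.mul_le_mul_left _ (Nat.log_mono_right hN)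
  have h7 : finrank K E ≤ s := by
    refine le_trans ?_ hs
    rcases min_cases (m * Nat.log 2 N) (finrank K (L ⧸ radical K L)) with h | h
    · rw [h.1]; exact hE2.trans (Nat.succ_le_succ h6)
    · rw [h.1]; exact hE3
  have h8 : finrank K (E.map (LinearMap.toMatrix (finBasis K V) (finBasis K V)).toLinearMap) ≤ s :=
    (Submodule.finrank_map_le _ _).trans h7
  refine ⟨Fin (finrank K V), inferInstance, inferInstance, finBasis K V, fun _ => 0,
    fun _ => E.map (LinearMap.toMatrix (finBasis K V) (finBasis K V)).toLinearMap, fun _ => h8,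
      ?_, ?_⟩
  · intro x i j hij
    exact absurd hij (lt_irrefl _)
  · intro x t
    exact ⟨_, Submodule.mem_map_of_mem (hE1 x), fun i j _ _ => rfl⟩

theorem flag_zero (s : ℕ) (V : Type) [AddCommGroup V] [Module K V] [LieRingModule L V]
    [LieModule K L V] [Subsingleton V] : HasFlag K L V s := by
  refine ⟨Fin 0, inferInstance, inferInstance, Basis.empty V, fun _ => 0, fun _ => ⊥, ?_, ?_, ?_⟩
  · intro t; rw [finrank_bot]; exact Nat.zero_le _
  · intro x i; exact i.elim0
  · intro x t; exact ⟨0, Submodule.zero_mem _, fun i => i.elim0⟩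

theorem exists_flag [IsAlgClosed K] [CharZero K] [Module.Finite K L] (m s N : ℕ)
    (hm : ∀ I : LieIdeal K (L ⧸ radical K L), IsAtom I → finrank K I ≤ m)
    (hs : min (m * Nat.log 2 N) (finrank K (L ⧸ radical K L)) + 1 ≤ s) :
    ∀ (d : ℕ) (V : Type) [AddCommGroup V] [Module K V] [LieRingModule L V] [LieModule K L V]
      [Module.Finite K V], finrank K V = d → d ≤ N → HasFlag K L V s := by
  intro d
  induction d using Nat.strong_induction_on with
  | _ d ih =>
  intro V _ _ _ _ _ hd hN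
  rcases subsingleton_or_nontrivial V with hV | hV
  · exact flag_zero s V
  · by_cases hex : ∃ U : LieSubmodule K L V, U ≠ ⊥ ∧ U ≠ ⊤
    · obtain ⟨U, hU1, hU2⟩ := hex
      have hU1' : U.toSubmodule ≠ ⊥ := fun h => hU1 ((LieSubmodule.toSubmodule_eq_bot U).1 h)
      have hU2' : U.toSubmodule ≠ ⊤ := fun h => hU2 ((LieSubmodule.toSubmodule_eq_top U).1 h)
      have h1 : finrank K U.toSubmodule < d := by
        rw [← hd]; exact Submodule.finrank_lt (lt_top_iff_ne_top.2 hU2').ne
      have h2 : finrank K (V ⧸ U.toSubmodule) < d := by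
        have h3 : finrank K (V ⧸ U.toSubmodule) + finrank K U.toSubmodule = finrank K V :=
          Submodule.finrank_quotient_add_finrank _
        have h4 : finrank K U.toSubmodule ≠ 0 := fun h => hU1' (Submodule.finrank_eq_zero.1 h)
        omega
      have i1 : HasFlag K L U s := ih _ h1 U rfl (h1.le.trans hN)
      haveI : Module.Finite K (V ⧸ U) := inferInstanceAs (Module.Finite K (V ⧸ U.toSubmodule))
      have i2 : HasFlag K L (V ⧸ U) s := ih _ h2 (V ⧸ U) rfl (h2.le.trans hN)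
      exact flag_glue U s i1 i2
    · push Not at hex
      haveI : LieModule.IsIrreducible K L V := LieModule.IsIrreducible.mk hex
      exact flag_irr m s N hm hs V (hd.le.trans hN)

end

end Pool.Agent.TH189.Lev
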