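import Pool.Agent.TH189.Kr9
import Pool.Agent.TH189.Kr11
import Pool.Agent.TH189.Lev6

/-!
The eigenvalues of generic elements of modules over Lie algebras with bounded simple factors.
-/

namespace Pool.Agent.TH189.Kr

open MvPolynomial Module LieAlgebra Pool.Agent.H530R2

attribute [local instance 100] LieRing.ofAssociativeRing

variable {K : Type} [Field K] {n : ℕ}

/-- a matrix whose entries are combinations of given polynomials -/
noncomputable def symp {J ι : Type} [Fintype J] (p : J → MvPolynomial (Fin n) K)
    (A : J → Matrix ι ι K) : Matrix ι ι (MvPolynomial (Fin n) K) :=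
  ∑ j, p j • (A j).map C

theorem symp_apply {J ι : Type} [Fintype J] (p : J → MvPolynomial (Fin n) K)
    (A : J → Matrix ι ι K) (i j : ι) : symp p A i j = ∑ k, p k * C (A k i j) := by
  rw [symp, Matrix.sum_apply]
  rfl

theorem symp_deg {J ι : Type} [Fintype J] (p : J → MvPolynomial (Fin n) K)
    (A : J → Matrix ι ι K) (w : ℕ) (hp : ∀ j, (p j).totalDegree ≤ w) (i j : ι) :
    (symp p A i j).totalDegree ≤ w := by
  rw [symp_apply]
  refine (totalDegree_finsetSum _ _).trans (Finset.sup_le fun k _ => ?_)
  refine (totalDegree_mul _ _).trans ?_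
  rw [totalDegree_C, add_zero]
  exact hp k

theorem symp_map {J ι : Type} [Fintype J] (p : J → MvPolynomial (Fin n) K)
    (A : J → Matrix ι ι K) :
    (symp p A).map (algebraMap (MvPolynomial (Fin n) K) (Om K n)) =
      ∑ k, algebraMap (MvPolynomial (Fin n) K) (Om K n) (p k) •
        (A k).map (algebraMap K (Om K n)) := by
  ext i j
  rw [Matrix.map_apply, symp_apply, map_sum, Matrix.sum_apply]
  refine Finset.sum_congr rfl fun k _ => ?_
  rw [map_mul, Matrix.smul_apply, Matrix.map_apply, smul_eq_mul,
    IsScalarTower.algebraMap_apply K (MvPolynomial (Fin n) K) (Om K n)]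
  rfl

/-- the symbolic matrix -/
noncomputable def sym {ι : Type} (A : Fin n → Matrix ι ι K) :
    Matrix ι ι (MvPolynomial (Fin n) K) :=
  ∑ k, (X k : MvPolynomial (Fin n) K) • (A k).map C

theorem sym_eq {ι : Type} (A : Fin n → Matrix ι ι K) :
    sym A = symp (fun k => (X k : MvPolynomial (Fin n) K)) A := rfl

theorem sym_apply {ι : Type} (A : Fin n → Matrix ι ι K) (i j : ι) :
    sym A i j = ∑ k, X k * C (A k i j) := by
  rw [sym, Matrix.sum_apply]
  rfl

theorem sym_deg {ι : Type} (A : Fin n → Matrix ι ι K) (i j : ι) :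
    (sym A i j).totalDegree ≤ 1 := by
  rw [sym_eq]
  exact symp_deg _ _ _ (fun k => (totalDegree_X k).le) i j

variable [CharZero K]

/-- all roots of `p` are combinations of algebraic functions of degree at most `m` -/
def Good (m w : ℕ) (p : Polynomial (MvPolynomial (Fin n) K)) : Prop :=
  ∃ F : Finset (Polynomial (MvPolynomial (Fin n) K)), (∀ χ ∈ F, Lin m w χ) ∧
    ∀ u : Om K n, p.eval₂ (algebraMap (MvPolynomial (Fin n) K) (Om K n)) u = 0 →
      u ∈ Submodule.span K (RS F)

theorem Good.one (m w : ℕ) : Good m w (1 : Polynomial (MvPolynomial (Fin n) K)) := by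
  refine ⟨∅, by simp, fun u hu => ?_⟩
  rw [Polynomial.eval₂_one] at hu
  exact absurd hu one_ne_zero

theorem Good.mul {m w : ℕ} {p q : Polynomial (MvPolynomial (Fin n) K)} (hp : Good m w p)
    (hq : Good m w q) : Good m w (p * q) := by
  classical
  obtain ⟨F, hF, hF'⟩ := hp
  obtain ⟨G, hG, hG'⟩ := hq
  refine ⟨F ∪ G, fun χ hχ => ?_, fun u hu => ?_⟩
  · rcases Finset.mem_union.1 hχ with h | h
    · exact hF χ h
    · exact hG χ h
  · rw [Polynomial.eval₂_mul] at hu
    rcases mul_eq_zero.1 hu with h | h
    · refine Submodule.span_mono ?_ (hF' u h)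
      rintro v ⟨χ, hχ, hv⟩
      exact ⟨χ, Finset.mem_union_left _ hχ, hv⟩
    · refine Submodule.span_mono ?_ (hG' u h)
      rintro v ⟨χ, hχ, hv⟩
      exact ⟨χ, Finset.mem_union_right _ hχ, hv⟩

/-- factors of determinants are not killed by few seeds -/
theorem good_notMem [IsAlgClosed K] {ι : Type} [Fintype ι] [DecidableEq ι] (a : Fin n → K)
    (ha : Function.Injective a) (m w : ℕ) (hm : 1 ≤ m)
    (M : Matrix ι ι (MvPolynomial (Fin n) K)) (hM : Good m w M.charpoly) (h0 : M.det ≠ 0)
    (f : MvPolynomial (Fin n) K) (hf : f ∣ M.det) :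
    f ∉ genI a (w * (m ^ 2 + 2 * m ^ 4)) := by
  classical
  obtain ⟨F, hF, hF'⟩ := hM
  let M' := M.map (algebraMap (MvPolynomial (Fin n) K) (Om K n))
  refine main3 a ha m w hm F hF M'.charpoly.roots (fun φ hφ => ?_) M.det ?_ h0 f hf
  · apply hF'
    rw [Polynomial.mem_roots (Matrix.charpoly_monic _).ne_zero, Polynomial.IsRoot.def,
      Matrix.charpoly_map, Polynomial.eval_map] at hφ
    exact hφ
  · have h1 := Matrix.det_eq_prod_roots_charpoly M'
    rw [← h1]
    exact RingHom.map_det _ _

/-- rational combinations are combinations with constant coefficients -/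
theorem span_le (S : Set (Om K n)) {u : Om K n} (hu : u ∈ Submodule.span ℚ S) :
    u ∈ Submodule.span K S := by
  have h1 : Submodule.span ℚ S ≤ (Submodule.span K S).restrictScalars ℚ := by
    rw [Submodule.span_le]
    exact Submodule.subset_span
  exact h1 hu

/-- the generic element acting on a module has good characteristic polynomial -/
def GoodMod (K : Type) [Field K] [CharZero K] {n : ℕ} {L : Type} [LieRing L] [LieAlgebra K L]
    {J : Type} [Fintype J] (m w : ℕ) (p : J → MvPolynomial (Fin n) K) (a : J → L) (V : Type)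
    [AddCommGroup V] [Module K V] [LieRingModule L V] [LieModule K L V] : Prop :=
  ∃ (ι : Type) (_ : Fintype ι) (_ : DecidableEq ι) (e : Basis ι K V),
    Good m w (symp p fun k => LinearMap.toMatrix e e (LieModule.toEnd K L V (a k))).charpoly

section irr

variable {L : Type} [LieRing L] [LieAlgebra K L] [Module.Finite K L]

theorem good_irr [IsAlgClosed K] (m w : ℕ)
    (hm : ∀ I : LieIdeal K (L ⧸ radical K L), IsAtom I → finrank K I ≤ m) {J : Type} [Fintype J]
    (p : J → MvPolynomial (Fin n) K) (hp : ∀ j, (p j).totalDegree ≤ w) (a : J → L) (V : Type) [AddCommGroup V] [Module K V] [LieRingModule L V] [LieModule K L V]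
    [Module.Finite K V] [LieModule.IsIrreducible K L V] : GoodMod K (max m 1) w p a V := by
  classical
  have _i := LieModule.nontrivial_of_isIrreducible K L V
  haveI := Lev.trivial_radical K L
  haveI : IsSemisimple K (L ⧸ radical K L) := inferInstance
  let θ0 : (L ⧸ radical K L) →ₗ⁅K⁆ Module.End K V :=
    Lev.lift (radical K L) (Lev.tf K L V) Lev.tf_rad
  let e := finBasis K V
  let Ω := Om K n
  let S := MvPolynomial (Fin n) K
  let x : J → Ω := fun k => algebraMap S Ω (p k)
  let a' : J → L ⧸ radical K L := fun k => LieSubmodule.Quotient.mk (a k)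
  let c : J → K := fun k =>
    (finrank K V : K)⁻¹ * LinearMap.trace K V (LieModule.toEnd K L V (a k))
  have hto : ∀ k, LieModule.toEnd K L V (a k) = θ0 (a' k) + c k • 1 := by
    intro k
    have h1 : θ0 (a' k) = Lev.tf K L V (a k) := rfl
    rw [h1, Lev.tf_apply, sub_add_cancel]
  let θ : (L ⧸ radical K L) → Module.End Ω (Fin (finrank K V) → Ω) := fun q =>
    Matrix.toLin' ((LinearMap.toMatrix e e (θ0 q)).map (algebraMap K Ω))
  have hadd : ∀ p q, θ (p + q) = θ p + θ q := by
    intro p q
    simp only [θ]
    rw [map_add, map_add, Matrix.map_add _ (map_add _), map_add]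
  have hsmul : ∀ (r : K) q, θ (r • q) = algebraMap K Ω r • θ q := by
    intro r q
    simp only [θ]
    rw [map_smul, map_smul]
    have h1 : (r • (LinearMap.toMatrix e e (θ0 q))).map (algebraMap K Ω) =
        algebraMap K Ω r • (LinearMap.toMatrix e e (θ0 q)).map (algebraMap K Ω) := by
      ext i j
      simp only [Matrix.map_apply, Matrix.smul_apply, smul_eq_mul, map_mul]
    rw [h1, map_smul]
  have hmul : ∀ f g : Module.End K V,
      Matrix.toLin' ((LinearMap.toMatrix e e (f * g)).map (algebraMap K Ω)) =
      (Matrix.toLin' ((LinearMap.toMatrix e e f).map (algebraMap K Ω)) *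
        Matrix.toLin' ((LinearMap.toMatrix e e g).map (algebraMap K Ω)) :
          Module.End Ω (Fin (finrank K V) → Ω)) := by
    intro f g
    rw [LinearMap.toMatrix_mul, Matrix.map_mul, Matrix.toLin'_mul]
    rfl
  have hlie : ∀ p q, θ ⁅p, q⁆ = ⁅θ p, θ q⁆ := by
    intro p q
    simp only [θ]
    rw [LieHom.map_lie, LieRing.of_associative_ring_bracket, LieRing.of_associative_ring_bracket,
      ← hmul, ← hmul, map_sub, Matrix.map_sub _ (map_sub _), map_sub]
  -- the family
  have hfin : {I : LieIdeal K (L ⧸ radical K L) | IsAtom I}.Finite :=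
    WellFoundedGT.finite_of_sSupIndep IsSemisimple.sSupIndep_isAtom
  let lam : S := ∑ k, p k * C (c k)
  have hlam : lam.totalDegree ≤ w := by
    refine (totalDegree_finsetSum _ _).trans (Finset.sup_le fun k _ => ?_)
    refine (totalDegree_mul _ _).trans ?_
    rw [totalDegree_C, add_zero]
    exact hp k
  let F : Finset (Polynomial S) := insert (Matrix.of fun _ _ : Fin 1 => lam).charpoly
    (hfin.toFinset.image fun I => (symp p fun k => adI I (a' k)).charpoly)
  have hlamQ : algebraMap S Ω lam ∈ Submodule.span ℚ (RS F) := by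
    refine Submodule.subset_span ⟨_, Finset.mem_insert_self _ _, ?_⟩
    have h1 : (Matrix.of fun _ _ : Fin 1 => lam).charpoly = Polynomial.X - Polynomial.C lam := by
      simp [Matrix.charpoly, Matrix.det_fin_one, Matrix.charmatrix_apply]
    rw [h1, Polynomial.eval₂_sub, Polynomial.eval₂_X, Polynomial.eval₂_C]
    exact sub_self _
  refine ⟨Fin (finrank K V), inferInstance, inferInstance, e, F, ?_, ?_⟩
  · intro χ hχ
    rcases Finset.mem_insert.1 hχ with h | h
    · rw [h]
      exact Lin.charpoly (by rw [Fintype.card_fin]; exact le_max_right _ _) _ fun _ _ => hlam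
    · obtain ⟨I, hI, rfl⟩ := Finset.mem_image.1 h
      refine Lin.charpoly ?_ _ fun i j => symp_deg _ _ _ hp _ _
      rw [Fintype.card_fin]
      exact (hm I (hfin.mem_toFinset.1 hI)).trans (le_max_left _ _)
  · intro u hu
    rw [← Polynomial.eval_map, ← Matrix.charpoly_map] at hu
    have h1 : (symp p fun k => LinearMap.toMatrix e e (LieModule.toEnd K L V (a k))).map
        (algebraMap S Ω) = (∑ k, x k • (LinearMap.toMatrix e e (θ0 (a' k))).map
          (algebraMap K Ω)) + algebraMap S Ω lam • 1 := by
      rw [symp_map]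
      have h2 : ∀ k, (LinearMap.toMatrix e e (LieModule.toEnd K L V (a k))).map
          (algebraMap K Ω) = (LinearMap.toMatrix e e (θ0 (a' k))).map (algebraMap K Ω) +
            algebraMap K Ω (c k) • 1 := by
        intro k
        rw [hto, map_add, map_smul, LinearMap.toMatrix_one, Matrix.map_add _ (map_add _)]
        congr 1
        ext i j
        simp only [Matrix.map_apply, Matrix.smul_apply, Matrix.one_apply, smul_eq_mul]
        split_ifs <;> simp
      rw [Finset.sum_congr rfl fun k _ => by rw [h2, smul_add], Finset.sum_add_distrib]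
      congr 1
      rw [Finset.sum_congr rfl fun k _ => smul_smul _ _ _, ← Finset.sum_smul]
      congr 1
      rw [map_sum]
      refine Finset.sum_congr rfl fun k _ => ?_
      have h3 : algebraMap K Ω (c k) = algebraMap S Ω (C (c k)) :=
        IsScalarTower.algebraMap_apply K S Ω _
      show algebraMap S Ω (p k) * algebraMap K Ω (c k) = _
      rw [h3, ← map_mul]
    have h3 : Module.End.HasEigenvalue (∑ k, x k • θ (a' k)) (u - algebraMap S Ω lam) := by
      have h4 : Module.End.HasEigenvalue (Matrix.toLin' ((symp p fun k =>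
          LinearMap.toMatrix e e (LieModule.toEnd K L V (a k))).map (algebraMap S Ω)) :
            Module.End Ω (Fin (finrank K V) → Ω)) u := by
        rw [Module.End.hasEigenvalue_iff_isRoot_charpoly, Matrix.charpoly_toLin']
        exact hu
      obtain ⟨v, hv⟩ := h4.exists_hasEigenvector
      refine Module.End.hasEigenvalue_of_hasEigenvector (x := v)
        (Module.End.hasEigenvector_iff.2 ⟨?_, hv.2⟩)
      rw [Module.End.mem_eigenspace_iff]
      have h5 := hv.apply_eq_smul
      rw [h1, map_add, map_smul, Matrix.toLin'_one, map_sum, LinearMap.add_apply,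
        LinearMap.smul_apply, LinearMap.id_apply] at h5
      rw [sub_smul, ← h5, add_sub_cancel_right]
      congr 1
      refine Finset.sum_congr rfl fun k _ => ?_
      rw [map_smul]
    have h6 := semisimple_eigen θ hadd hsmul hlie a' x (Submodule.span ℚ (RS F)) ?_ _ h3
    · have h7 := Submodule.add_mem _ h6 hlamQ
      rw [sub_add_cancel] at h7
      exact span_le _ h7
    · intro I hI α hα
      refine Submodule.subset_span ⟨_, Finset.mem_insert_of_mem
        (Finset.mem_image_of_mem _ (hfin.mem_toFinset.2 hI)), ?_⟩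
      rw [← Polynomial.eval_map, ← Matrix.charpoly_map, symp_map]
      exact hα

end irr

end Pool.Agent.TH189.Kr
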