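import Pool.Agent.TH189.Kr12

/-!
Composition series, and matrix Lie algebras with bounded simple factors.
-/

namespace Pool.Agent.TH189.Kr

open MvPolynomial Module LieAlgebra Pool.Agent.H530R2

attribute [local instance 100] LieRing.ofAssociativeRing

variable {K : Type} [Field K] [CharZero K] {n : ℕ} {L : Type} [LieRing L] [LieAlgebra K L]
  {J : Type} [Fintype J] {w : ℕ} {p : J → MvPolynomial (Fin n) K}

theorem good_glue {V : Type} [AddCommGroup V] [Module K V] [LieRingModule L V] [LieModule K L V]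
    [Module.Finite K V] (U : LieSubmodule K L V) (m : ℕ) (a : J → L) (h1 : GoodMod K m w p a U)
    (h2 : GoodMod K m w p a (V ⧸ U)) : GoodMod K m w p a V := by
  classical
  obtain ⟨ι₁, _, _, e₁, g1⟩ := h1
  obtain ⟨ι₂, _, _, e₂, g2⟩ := h2
  have k1 : ∀ (x : L) (i j : ι₁),
      LinearMap.toMatrix (Module.Basis.sumQuot (W := U.toSubmodule) e₁ e₂)
      (Module.Basis.sumQuot (W := U.toSubmodule) e₁ e₂) (LieModule.toEnd K L V x)
      (Sum.inl i) (Sum.inl j) = LinearMap.toMatrix e₁ e₁ (LieModule.toEnd K L U x) i j := by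
    intro x i j
    rw [LinearMap.toMatrix_apply e₁]
    exact Lev.hll U e₁ e₂ x i j
  have k2 : ∀ (x : L) (i : ι₂) (j : ι₁),
      LinearMap.toMatrix (Module.Basis.sumQuot (W := U.toSubmodule) e₁ e₂)
      (Module.Basis.sumQuot (W := U.toSubmodule) e₁ e₂) (LieModule.toEnd K L V x)
      (Sum.inr i) (Sum.inl j) = 0 := fun x i j => Lev.hrl U e₁ e₂ x i j
  have k3 : ∀ (x : L) (i j : ι₂),
      LinearMap.toMatrix (Module.Basis.sumQuot (W := U.toSubmodule) e₁ e₂)
      (Module.Basis.sumQuot (W := U.toSubmodule) e₁ e₂) (LieModule.toEnd K L V x)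
      (Sum.inr i) (Sum.inr j) = LinearMap.toMatrix e₂ e₂ (LieModule.toEnd K L (V ⧸ U) x) i j := by
    intro x i j
    rw [LinearMap.toMatrix_apply e₂]
    refine (Lev.hrr U e₁ e₂ x i j).trans ?_
    have h5 : e₂ j = Submodule.Quotient.mk
        (Module.Basis.sumQuot (W := U.toSubmodule) e₁ e₂ (Sum.inr j)) :=
      (Module.Basis.sumQuot_inr (W := U.toSubmodule) e₁ e₂ j).symm
    rw [h5]
    rfl
  generalize Module.Basis.sumQuot (W := U.toSubmodule) e₁ e₂ = e at k1 k2 k3
  refine ⟨ι₁ ⊕ ι₂, inferInstance, inferInstance, e, ?_⟩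
  have h3 : (symp p fun k => LinearMap.toMatrix e e (LieModule.toEnd K L V (a k))) =
      Matrix.fromBlocks
        (symp p fun k => LinearMap.toMatrix e₁ e₁ (LieModule.toEnd K L U (a k)))
        (Matrix.of fun i j => (symp p fun k => LinearMap.toMatrix e e
          (LieModule.toEnd K L V (a k))) (Sum.inl i) (Sum.inr j)) 0
        (symp p fun k => LinearMap.toMatrix e₂ e₂ (LieModule.toEnd K L (V ⧸ U) (a k))) := by
    ext1 i j
    rcases i with i | i <;> rcases j with j | j
    · rw [Matrix.fromBlocks_apply₁₁, symp_apply, symp_apply]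
      exact Finset.sum_congr rfl fun k _ => by rw [k1]
    · rw [Matrix.fromBlocks_apply₁₂]
      rfl
    · rw [Matrix.fromBlocks_apply₂₁, symp_apply]
      refine Finset.sum_eq_zero fun k _ => ?_
      rw [k2, map_zero, mul_zero]
    · rw [Matrix.fromBlocks_apply₂₂, symp_apply, symp_apply]
      exact Finset.sum_congr rfl fun k _ => by rw [k3]
  rw [h3, Matrix.charpoly_fromBlocks_zero₂₁]
  exact g1.mul g2

theorem good_zero (m : ℕ) (a : J → L) (V : Type) [AddCommGroup V] [Module K V]
    [LieRingModule L V] [LieModule K L V] [Subsingleton V] : GoodMod K m w p a V := by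
  refine ⟨Fin 0, inferInstance, inferInstance, Basis.empty V, ?_⟩
  have h1 : (symp p fun k => LinearMap.toMatrix (Basis.empty V) (Basis.empty V)
      (LieModule.toEnd K L V (a k)) : Matrix (Fin 0) (Fin 0) (MvPolynomial (Fin n) K)).charpoly =
      1 := by
    rw [Matrix.charpoly, Matrix.det_isEmpty]
  rw [h1]
  exact Good.one m w

theorem exists_good [IsAlgClosed K] [Module.Finite K L] (m : ℕ)
    (hm : ∀ I : LieIdeal K (L ⧸ radical K L), IsAtom I → finrank K I ≤ m)
    (hp : ∀ j, (p j).totalDegree ≤ w) (a : J → L) :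
    ∀ (d : ℕ) (V : Type) [AddCommGroup V] [Module K V] [LieRingModule L V] [LieModule K L V]
      [Module.Finite K V], finrank K V = d → GoodMod K (max m 1) w p a V := by
  intro d
  induction d using Nat.strong_induction_on with
  | _ d ih =>
  intro V _ _ _ _ _ hd
  rcases subsingleton_or_nontrivial V with hV | hV
  · exact good_zero _ a V
  · by_cases hex : ∃ U : LieSubmodule K L V, U ≠ ⊥ ∧ U ≠ ⊤
    · obtain ⟨U, hU1, hU2⟩ := hex
      have hU1' : U.toSubmodule ≠ ⊥ := fun h => hU1 ((LieSubmodule.toSubmodule_eq_bot U).1 h)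
      have hU2' : U.toSubmodule ≠ ⊤ := fun h => hU2 ((LieSubmodule.toSubmodule_eq_top U).1 h)
      have h1 : finrank K U.toSubmodule < d := by
        rw [← hd]; exact Submodule.finrank_lt (lt_top_iff_ne_top.2 hU2').ne
      have h2 : finrank K (V ⧸ U.toSubmodule) < d := by
        have h3 : finrank K (V ⧸ U.toSubmodule) + finrank K U.toSubmodule = finrank K V :=
          Submodule.finrank_quotient_add_finrank _
        have h4 : finrank K U.toSubmodule ≠ 0 := fun h => hU1' (Submodule.finrank_eq_zero.1 h)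
        omega
      have i1 : GoodMod K (max m 1) w p a U := ih _ h1 U rfl
      haveI : Module.Finite K (V ⧸ U) := inferInstanceAs (Module.Finite K (V ⧸ U.toSubmodule))
      have i2 : GoodMod K (max m 1) w p a (V ⧸ U) := ih _ h2 (V ⧸ U) rfl
      exact good_glue U _ a i1 i2
    · push Not at hex
      haveI : LieModule.IsIrreducible K L V := LieModule.IsIrreducible.mk hex
      exact good_irr m w hm p hp a V

section matrices

variable {N : ℕ}

theorem symp_conj {ι : Type} [Fintype ι] (A : J → Matrix ι ι K) (T S : Matrix ι ι K) :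
    (symp p fun k => T * A k * S) = T.map C * symp p A * S.map C := by
  unfold symp
  rw [Finset.mul_sum, Finset.sum_mul]
  refine Finset.sum_congr rfl fun k _ => ?_
  rw [Matrix.map_mul, Matrix.map_mul, Matrix.mul_smul, Matrix.smul_mul]

theorem sym_conj {ι : Type} [Fintype ι] (A : Fin n → Matrix ι ι K) (T S : Matrix ι ι K) :
    (sym fun k => T * A k * S) = T.map C * sym A * S.map C := by
  rw [sym_eq, sym_eq]
  exact symp_conj A T S

theorem good_matrix [IsAlgClosed K] (𝔤 : LieSubalgebra K (Matrix (Fin N) (Fin N) K)) (m : ℕ)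
    (hm : ∀ I : LieIdeal K (𝔤 ⧸ radical K 𝔤), IsAtom I → finrank K I ≤ m)
    (hp : ∀ j, (p j).totalDegree ≤ w)
    (A : J → Matrix (Fin N) (Fin N) K) (hA : ∀ k, A k ∈ 𝔤) :
    Good (max m 1) w (symp p A).charpoly := by
  classical
  have hfr : finrank K (Fin N → K) = N := by simp
  obtain ⟨ι, _, _, e, hg⟩ :=
    exists_good (K := K) (L := 𝔤) m hm hp (fun k => ⟨A k, hA k⟩) N (Fin N → K) hfr
  have hcard : Fintype.card (Fin N) = Fintype.card ι := by
    rw [← Module.finrank_eq_card_basis e, hfr, Fintype.card_fin]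
  let σ : Fin N ≃ ι := Fintype.equivOfCardEq hcard
  let std := Pi.basisFun K (Fin N)
  let e' : Basis (Fin N) K (Fin N → K) := e.reindex σ.symm
  let T := e'.toMatrix std
  let S := std.toMatrix e'
  have hST : S * T = 1 := std.toMatrix_mul_toMatrix_flip e'
  have hconj : ∀ (k : J) (i j : Fin N), (T * A k * S) i j =
      LinearMap.toMatrix e e (LieModule.toEnd K 𝔤 (Fin N → K) ⟨A k, hA k⟩) (σ i) (σ j) := by
    intro k i j
    have h4 : LinearMap.toMatrix std std (LieModule.toEnd K 𝔤 (Fin N → K) ⟨A k, hA k⟩) =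
        A k := by
      have h5 : LieModule.toEnd K 𝔤 (Fin N → K) ⟨A k, hA k⟩ = Matrix.toLin' (A k) := by
        ext1 v
        rfl
      rw [h5, LinearMap.toMatrix_eq_toMatrix', LinearMap.toMatrix'_toLin']
    have h6 := basis_toMatrix_mul_linearMap_toMatrix_mul_basis_toMatrix e' std e' std
      (LieModule.toEnd K 𝔤 (Fin N → K) ⟨A k, hA k⟩)
    rw [h4] at h6
    show (e'.toMatrix std * A k * std.toMatrix e') i j = _
    rw [h6, LinearMap.toMatrix_apply, LinearMap.toMatrix_apply]
    simp [e']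
  have hcp : (symp p A).charpoly = (symp p fun k => T * A k * S).charpoly := by
    have h7 : S.map (C : K →+* MvPolynomial (Fin n) K) * T.map (C : K →+* _) = 1 := by
      rw [← Matrix.map_mul, hST, Matrix.map_one _ (map_zero _) (map_one _)]
    have h8 : S.map (C : K → MvPolynomial (Fin n) K) * T.map (C : K → _) = 1 := h7
    rw [symp_conj, Matrix.charpoly_mul_comm, ← Matrix.mul_assoc, h8, Matrix.one_mul]
  have hre : (symp p fun k => LinearMap.toMatrix e e
      (LieModule.toEnd K 𝔤 (Fin N → K) ⟨A k, hA k⟩)) =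
      Matrix.reindex σ σ (symp p fun k => T * A k * S) := by
    ext1 i j
    rw [Matrix.reindex_apply, Matrix.submatrix_apply, symp_apply, symp_apply]
    refine Finset.sum_congr rfl fun k _ => ?_
    rw [hconj]
    simp
  rw [hcp]
  rw [hre, Matrix.charpoly_reindex] at hg
  exact hg

/-- **Determinants of polynomial matrices with values in a matrix Lie algebra with bounded
simple factors**, and their factors. -/
theorem matrix_notMem' [IsAlgClosed K] (𝔤 : LieSubalgebra K (Matrix (Fin N) (Fin N) K)) (m : ℕ)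
    (hm : ∀ I : LieIdeal K (𝔤 ⧸ radical K 𝔤), IsAtom I → finrank K I ≤ m)
    (a : Fin n → K) (ha : Function.Injective a)
    (hp : ∀ j, (p j).totalDegree ≤ w)
    (A : J → Matrix (Fin N) (Fin N) K) (hA : ∀ k, A k ∈ 𝔤) (h0 : (symp p A).det ≠ 0)
    (f : MvPolynomial (Fin n) K) (hf : f ∣ (symp p A).det) :
    f ∉ genI a (w * ((max m 1) ^ 2 + 2 * (max m 1) ^ 4)) :=
  good_notMem a ha _ w (le_max_right _ _) _ (good_matrix 𝔤 m hm hp A hA) h0 f hf

/-- **Symbolic determinants over matrix Lie algebras with bounded simple factors.** -/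
theorem matrix_notMem [IsAlgClosed K] (𝔤 : LieSubalgebra K (Matrix (Fin N) (Fin N) K)) (m : ℕ)
    (hm : ∀ I : LieIdeal K (𝔤 ⧸ radical K 𝔤), IsAtom I → finrank K I ≤ m)
    (a : Fin n → K) (ha : Function.Injective a)
    (A : Fin n → Matrix (Fin N) (Fin N) K) (hA : ∀ k, A k ∈ 𝔤) (h0 : (sym A).det ≠ 0) :
    (sym A).det ∉ genI a ((max m 1) ^ 2 + 2 * (max m 1) ^ 4) := by
  have h := matrix_notMem' (w := 1) (p := fun k => (X k : MvPolynomial (Fin n) K)) 𝔤 m hm a ha
    (fun k => (totalDegree_X k).le) A hA h0 _ dvd_rfl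
  rwa [one_mul] at h

end matrices

end Pool.Agent.TH189.Kr
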