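import Pool.Agent.TH189.Kr9

/-!
Polynomial matrices whose eigenvalues are combinations of algebraic functions of small degree.
-/

namespace Pool.Agent.TH189.Kr

open MvPolynomial Module Pool.Agent.H530R2

variable {K : Type} [Field K] {n : ℕ}

/-- roots of monic polynomials of small degree -/
def SRoot (m w : ℕ) (u : Om K n) : Prop :=
  ∃ χ : Polynomial (MvPolynomial (Fin n) K), χ.Monic ∧ χ.natDegree ≤ m ∧
    (∀ j, (χ.coeff j).totalDegree ≤ w * (χ.natDegree - j)) ∧
    χ.eval₂ (algebraMap (MvPolynomial (Fin n) K) (Om K n)) u = 0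

theorem SRoot.wt {m w : ℕ} {u : Om K n} (hu : SRoot m w u) :
    Wt (algebraMap (MvPolynomial (Fin n) K) (Om K n)) w u := by
  obtain ⟨χ, h1, _, h3, h4⟩ := hu
  exact Wt.of_coeff χ h1 h3 h4

theorem span_wt {m w : ℕ} {u : Om K n} (hu : u ∈ Submodule.span K {u : Om K n | SRoot m w u}) :
    Wt (algebraMap (MvPolynomial (Fin n) K) (Om K n)) w u := by
  induction hu using Submodule.span_induction with
  | mem u hu => exact SRoot.wt hu
  | zero => exact Wt.zero
  | add u v _ _ hu hv => exact hu.add hv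
  | smul c u _ hu =>
    have h1 := (Wt.const (ι := algebraMap (MvPolynomial (Fin n) K) (Om K n)) (k := 0) c).mul hu
    rw [Nat.zero_add] at h1
    have h2 : c • u = algebraMap (MvPolynomial (Fin n) K) (Om K n) (C c) * u := by
      rw [Algebra.smul_def, IsScalarTower.algebraMap_apply K (MvPolynomial (Fin n) K) (Om K n)]
      rfl
    rw [h2]
    exact h1

theorem exists_family (m w : ℕ) (A : Multiset (Om K n))
    (hA : ∀ φ ∈ A, φ ∈ Submodule.span K {u : Om K n | SRoot m w u}) :
    ∃ F : Finset (Polynomial (MvPolynomial (Fin n) K)), (∀ χ ∈ F, Lin m w χ) ∧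
      ∀ φ ∈ A, φ ∈ Submodule.span K (RS F) := by
  classical
  induction A using Multiset.induction_on with
  | empty => exact ⟨∅, by simp, by simp⟩
  | cons φ A ih =>
    obtain ⟨F, hF, hFA⟩ := ih fun ψ hψ => hA ψ (Multiset.mem_cons_of_mem hψ)
    obtain ⟨T, hT, hφ⟩ := Submodule.mem_span_finite_of_mem_span
      (hA φ (Multiset.mem_cons_self _ _))
    have h1 : ∀ u : T, ∃ χ : Polynomial (MvPolynomial (Fin n) K), Lin m w χ ∧
        χ.eval₂ (algebraMap (MvPolynomial (Fin n) K) (Om K n)) u = 0 := by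
      intro u
      obtain ⟨χ, h1, h2, h3, h4⟩ := hT u.2
      exact ⟨χ, Lin.of_coeff χ h1 h2 h3, h4⟩
    choose χ hχ hχ0 using h1
    refine ⟨F ∪ Finset.univ.image χ, fun ψ hψ => ?_, fun ψ hψ => ?_⟩
    · rcases Finset.mem_union.1 hψ with h | h
      · exact hF ψ h
      · obtain ⟨u, -, rfl⟩ := Finset.mem_image.1 h
        exact hχ u
    · rcases Multiset.mem_cons.1 hψ with rfl | h
      · refine Submodule.span_mono ?_ hφ
        intro u hu
        exact ⟨χ ⟨u, hu⟩, Finset.mem_union_right _
          (Finset.mem_image_of_mem _ (Finset.mem_univ _)), hχ0 ⟨u, hu⟩⟩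
      · refine Submodule.span_mono ?_ (hFA ψ h)
        rintro v ⟨χ', hχ', hv⟩
        exact ⟨χ', Finset.mem_union_left _ hχ', hv⟩

/-- all eigenvalues are combinations of small roots -/
def SEig {ι : Type} [Fintype ι] [DecidableEq ι] (m w : ℕ)
    (Y : Matrix ι ι (MvPolynomial (Fin n) K)) : Prop :=
  ∀ u : Om K n, Y.charpoly.eval₂ (algebraMap (MvPolynomial (Fin n) K) (Om K n)) u = 0 →
    u ∈ Submodule.span K {u : Om K n | SRoot m w u}

section trailing

theorem map_natTrailingDegree {R S : Type} [CommRing R] [CommRing S] (f : R →+* S)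
    (hf : Function.Injective f) (p : Polynomial R) (hp : p ≠ 0) :
    (p.map f).natTrailingDegree = p.natTrailingDegree := by
  have hp' : p.map f ≠ 0 := by
    rw [Ne, Polynomial.map_eq_zero_iff hf]
    exact hp
  apply le_antisymm
  · refine Polynomial.natTrailingDegree_le_of_ne_zero ?_
    rw [Polynomial.coeff_map]
    intro h
    exact hp (Polynomial.trailingCoeff_eq_zero.1 (hf (h.trans (map_zero f).symm)))
  · refine Polynomial.le_natTrailingDegree hp' fun k hk => ?_
    rw [Polynomial.coeff_map, Polynomial.coeff_eq_zero_of_lt_natTrailingDegree hk, map_zero]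

theorem map_trailingCoeff {R S : Type} [CommRing R] [CommRing S] (f : R →+* S)
    (hf : Function.Injective f) (p : Polynomial R) (hp : p ≠ 0) :
    (p.map f).trailingCoeff = f p.trailingCoeff := by
  rw [Polynomial.trailingCoeff, map_natTrailingDegree f hf p hp, Polynomial.coeff_map]
  rfl

theorem trailingCoeff_prod {Ω : Type} [Field Ω] [DecidableEq Ω] (s : Multiset Ω) :
    ((s.map fun a => Polynomial.X - Polynomial.C a).prod).trailingCoeff =
      ((s.filter (· ≠ 0)).map fun a => -a).prod := by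
  induction s using Multiset.induction_on with
  | empty =>
    simp [Polynomial.trailingCoeff, Polynomial.natTrailingDegree_one]
  | cons a s ih =>
    rw [Multiset.map_cons, Multiset.prod_cons, Polynomial.trailingCoeff_mul, ih]
    by_cases ha : a = 0
    · rw [ha, Multiset.filter_cons_of_neg _ (by simp), Polynomial.C_0, sub_zero]
      simp [Polynomial.trailingCoeff, Polynomial.natTrailingDegree_X]
    · rw [Multiset.filter_cons_of_pos (p := fun x : Ω => x ≠ 0) _ ha, Multiset.map_cons,
        Multiset.prod_cons]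
      congr 1
      have h1 : (Polynomial.X - Polynomial.C a : Polynomial Ω).natTrailingDegree = 0 :=
        Nat.le_zero.1 (Polynomial.natTrailingDegree_le_of_ne_zero (by simp [ha]))
      rw [Polynomial.trailingCoeff, h1]
      simp

end trailing

section main

variable {ι : Type} [Fintype ι] [DecidableEq ι]

theorem trailing_eq (Y : Matrix ι ι (MvPolynomial (Fin n) K)) :
    ∃ A : Multiset (Om K n), A.card ≤ Fintype.card ι ∧
      (∀ φ ∈ A, ∃ u, Y.charpoly.eval₂ (algebraMap (MvPolynomial (Fin n) K) (Om K n)) u = 0 ∧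
        φ = -u) ∧
      algebraMap (MvPolynomial (Fin n) K) (Om K n) Y.charpoly.trailingCoeff = A.prod := by
  classical
  let P := Y.charpoly.map (algebraMap (MvPolynomial (Fin n) K) (Om K n))
  have hP : P.Monic := (Matrix.charpoly_monic Y).map _
  refine ⟨(P.roots.filter (· ≠ 0)).map fun a => -a, ?_, fun φ hφ => ?_, ?_⟩
  · rw [Multiset.card_map]
    refine (Multiset.card_le_card (Multiset.filter_le _ _)).trans ?_
    refine (Polynomial.card_roots' P).trans ?_
    rw [(Matrix.charpoly_monic Y).natDegree_map, Matrix.charpoly_natDegree_eq_dim]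
  · obtain ⟨u, hu, rfl⟩ := Multiset.mem_map.1 hφ
    refine ⟨u, ?_, rfl⟩
    have h1 := (Multiset.mem_filter.1 hu).1
    rw [Polynomial.mem_roots hP.ne_zero, Polynomial.IsRoot.def, Polynomial.eval_map] at h1
    exact h1
  · rw [← trailingCoeff_prod, ← map_trailingCoeff _ Om_injective _
      (Matrix.charpoly_monic Y).ne_zero]
    congr 1
    exact (IsAlgClosed.splits P).eq_prod_roots_of_monic hP

theorem trailing_deg (m w : ℕ) (Y : Matrix ι ι (MvPolynomial (Fin n) K)) (hY : SEig m w Y) :
    (Y.charpoly.trailingCoeff).totalDegree ≤ Fintype.card ι * w := by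
  obtain ⟨A, hA1, hA2, hA3⟩ := trailing_eq Y
  have h1 : ∀ B : Multiset (Om K n),
      (∀ φ ∈ B, Wt (algebraMap (MvPolynomial (Fin n) K) (Om K n)) w φ) →
      Wt (algebraMap (MvPolynomial (Fin n) K) (Om K n)) (B.card * w) B.prod := by
    intro B
    induction B using Multiset.induction_on with
    | empty => intro _; exact Wt.one
    | cons φ B ih =>
      intro h
      rw [Multiset.prod_cons, Multiset.card_cons]
      have h2 := (h φ (Multiset.mem_cons_self _ _)).mul
        (ih fun ψ hψ => h ψ (Multiset.mem_cons_of_mem hψ))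
      refine h2.mono ?_
      rw [Nat.add_mul, Nat.one_mul, Nat.add_comm]
  have h2 := h1 A (fun φ hφ => by
    obtain ⟨u, hu, rfl⟩ := hA2 φ hφ
    exact (span_wt (hY u hu)).neg)
  rw [← hA3] at h2
  exact (Wt.totalDegree_le Om_injective h2).trans (Nat.mul_le_mul_right _ hA1)

theorem trailing_notMem [IsAlgClosed K] [CharZero K] (a : Fin n → K)
    (ha : Function.Injective a) (m w : ℕ) (hm : 1 ≤ m)
    (Y : Matrix ι ι (MvPolynomial (Fin n) K)) (hY : SEig m w Y) (f : MvPolynomial (Fin n) K)
    (hf : f ∣ Y.charpoly.trailingCoeff) : f ∉ genI a (w * (m ^ 2 + 2 * m ^ 4)) := by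
  obtain ⟨A, hA1, hA2, hA3⟩ := trailing_eq Y
  have hA4 : ∀ φ ∈ A, φ ∈ Submodule.span K {u : Om K n | SRoot m w u} := by
    intro φ hφ
    obtain ⟨u, hu, rfl⟩ := hA2 φ hφ
    exact Submodule.neg_mem _ (hY u hu)
  obtain ⟨F, hF, hFA⟩ := exists_family m w A hA4
  refine main3 a ha m w hm F hF A hFA _ hA3 ?_ f hf
  rw [Ne, Polynomial.trailingCoeff_eq_zero]
  exact (Matrix.charpoly_monic Y).ne_zero

theorem det_dvd (Y : Matrix ι ι (MvPolynomial (Fin n) K)) (h0 : Y.det ≠ 0) :
    Y.det ∣ Y.charpoly.trailingCoeff := by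
  have h1 : Y.charpoly.coeff 0 ≠ 0 := by
    intro h
    apply h0
    rw [Matrix.det_eq_sign_charpoly_coeff, h, mul_zero]
  have h2 : Y.charpoly.natTrailingDegree = 0 :=
    Nat.le_zero.1 (Polynomial.natTrailingDegree_le_of_ne_zero h1)
  rw [Polynomial.trailingCoeff, h2, Matrix.det_eq_sign_charpoly_coeff]
  rcases neg_one_pow_eq_or (MvPolynomial (Fin n) K) (Fintype.card ι) with h | h
  · rw [h, one_mul]
  · rw [h, neg_one_mul, neg_dvd]

theorem det_deg (m w : ℕ) (Y : Matrix ι ι (MvPolynomial (Fin n) K)) (hY : SEig m w Y) :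
    Y.det.totalDegree ≤ Fintype.card ι * w := by
  by_cases h0 : Y.det = 0
  · rw [h0, totalDegree_zero]; exact Nat.zero_le _
  · have h1 : Y.charpoly.coeff 0 ≠ 0 := by
      intro h
      apply h0
      rw [Matrix.det_eq_sign_charpoly_coeff, h, mul_zero]
    have h2 : Y.charpoly.natTrailingDegree = 0 :=
      Nat.le_zero.1 (Polynomial.natTrailingDegree_le_of_ne_zero h1)
    have h3 := trailing_deg m w Y hY
    rw [Polynomial.trailingCoeff, h2] at h3
    rw [Matrix.det_eq_sign_charpoly_coeff]
    rcases neg_one_pow_eq_or (MvPolynomial (Fin n) K) (Fintype.card ι) with h | h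
    · rw [h, one_mul]; exact h3
    · rw [h, neg_one_mul, totalDegree_neg]; exact h3

end main

end Pool.Agent.TH189.Kr
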