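import Pool.Agent.TH189.Kr15

/-!
The generic determinant vanishes on the generator with few seeds, in suitable coordinates.
-/

namespace Pool.Agent.TH189.Kr

open MvPolynomial Module Pool.Agent.H530R2

section lagrange

variable {K : Type} [Field K] {N : ℕ} (a : Fin N → K)

/-- the numerators of the Lagrange polynomials -/
noncomputable def lagN (i : Fin N) : Polynomial K :=
  ∏ i' ∈ Finset.univ.erase i, (Polynomial.X - Polynomial.C (a i'))

/-- the coefficients of the powers in the Lagrange basis -/
noncomputable def lagC (e : ℕ) (i : Fin N) : K :=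
  a i ^ e * ∏ i' ∈ Finset.univ.erase i, (a i - a i')⁻¹

theorem lagN_natDegree (i : Fin N) : (lagN a i).natDegree < N := by
  have h1 : (lagN a i).natDegree = (Finset.univ.erase i).card := by
    unfold lagN
    rw [Polynomial.natDegree_prod_of_monic _ _ fun i' _ => Polynomial.monic_X_sub_C _]
    simp
  rw [h1, Finset.card_erase_of_mem (Finset.mem_univ i), Finset.card_univ, Fintype.card_fin]
  have := i.pos
  omega

theorem pow_eq (ha : Function.Injective a) (e : ℕ) (he : e < N) :
    (Polynomial.X ^ e : Polynomial K) = ∑ i, Polynomial.C (lagC a e i) * lagN a i := by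
  classical
  have h1 := Lagrange.eq_interpolate (s := Finset.univ) (v := a) (f := Polynomial.X ^ e)
    ha.injOn (by
      rw [Polynomial.degree_X_pow, Finset.card_univ, Fintype.card_fin]
      exact_mod_cast he)
  rw [h1, Lagrange.interpolate_apply]
  refine Finset.sum_congr rfl fun i _ => ?_
  rw [Polynomial.eval_pow, Polynomial.eval_X, lagC, Polynomial.C_mul, mul_assoc]
  congr 1
  rw [Lagrange.basis, lagN, map_prod, ← Finset.prod_mul_distrib]
  rfl

theorem coeff_orth (ha : Function.Injective a) (e e' : ℕ) (he : e < N) :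
    ∑ i, lagC a e i * (lagN a i).coeff e' = if e' = e then 1 else 0 := by
  have h1 := congrArg (fun p => Polynomial.coeff p e') (pow_eq a ha e he)
  simp only [Polynomial.coeff_X_pow, Polynomial.finsetSum_coeff, Polynomial.coeff_C_mul] at h1
  exact h1.symm

end lagrange

section det

variable {K : Type} [Field K] {k : ℕ} (a : Fin (k * k) → K)

/-- the change of coordinates -/
noncomputable def psi : MvPolynomial (Fin k × Fin k) K →ₐ[K] MvPolynomial (Fin (k * k)) K :=
  aeval fun q => ∑ i, C (lagC a (finProdFinEquiv q : Fin (k * k)) i) * X i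

/-- its inverse -/
noncomputable def phi' : MvPolynomial (Fin (k * k)) K →ₐ[K] MvPolynomial (Fin k × Fin k) K :=
  aeval fun i => ∑ q : Fin k × Fin k,
    C ((lagN a i).coeff (finProdFinEquiv q : Fin (k * k))) * X q

theorem phi_psi (ha : Function.Injective a) : (phi' a).comp (psi a) = AlgHom.id K _ := by
  classical
  apply MvPolynomial.algHom_ext
  intro q
  rw [AlgHom.comp_apply, psi, aeval_X, map_sum, AlgHom.id_apply]
  have h1 : ∀ i, phi' a (C (lagC a (finProdFinEquiv q : Fin (k * k)) i) * X i) =
      ∑ q' : Fin k × Fin k, C (lagC a (finProdFinEquiv q : Fin (k * k)) i *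
        (lagN a i).coeff (finProdFinEquiv q' : Fin (k * k))) * X q' := by
    intro i
    rw [map_mul, phi', aeval_X, Finset.mul_sum]
    refine Finset.sum_congr rfl fun q' _ => ?_
    rw [map_mul C, mul_assoc]
    congr 1
    exact aeval_C _ _
  rw [Finset.sum_congr rfl fun i _ => h1 i, Finset.sum_comm]
  have h2 : ∀ q' : Fin k × Fin k, ∑ i, C (lagC a (finProdFinEquiv q : Fin (k * k)) i *
      (lagN a i).coeff (finProdFinEquiv q' : Fin (k * k))) * (X q' : MvPolynomial _ K) =
      if q' = q then X q' else 0 := by
    intro q'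
    rw [← Finset.sum_mul, ← map_sum, coeff_orth a ha _ _ (Fin.is_lt _)]
    by_cases h : q' = q
    · rw [h, if_pos rfl, if_pos rfl, C_1, one_mul]
    · rw [if_neg h, if_neg, C_0, zero_mul]
      intro h3
      exact h (finProdFinEquiv.injective (Fin.ext h3))
  rw [Finset.sum_congr rfl fun q' _ => h2 q', Finset.sum_ite_eq' Finset.univ q]
  simp

theorem psi_injective (ha : Function.Injective a) : Function.Injective (psi a) := by
  intro p q h
  have h1 := congrArg (phi' a) h
  rw [← AlgHom.comp_apply, ← AlgHom.comp_apply, phi_psi a ha] at h1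
  exact h1

theorem psi_totalDegree (p : MvPolynomial (Fin k × Fin k) K) :
    (psi a p).totalDegree ≤ p.totalDegree := by
  rw [psi, aeval_def, eval₂_eq]
  refine (totalDegree_finsetSum _ _).trans (Finset.sup_le fun d hd => ?_)
  refine (totalDegree_mul _ _).trans ?_
  rw [algebraMap_eq, totalDegree_C, Nat.zero_add]
  refine (totalDegree_finsetProd _ _).trans ?_
  refine le_trans (Finset.sum_le_sum fun i _ => ?_) (le_totalDegree hd)
  refine (totalDegree_pow _ _).trans ?_
  have h1 : (∑ j, C (lagC a (finProdFinEquiv i : Fin (k * k)) j) * X j :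
      MvPolynomial (Fin (k * k)) K).totalDegree ≤ 1 := by
    refine (totalDegree_finsetSum _ _).trans (Finset.sup_le fun j _ => ?_)
    refine (totalDegree_mul _ _).trans ?_
    rw [totalDegree_C, totalDegree_X]
  calc d i * _ ≤ d i * 1 := Nat.mul_le_mul_left _ h1
    _ = d i := Nat.mul_one _

/-- the generic matrix -/
noncomputable def genMat (K : Type) [Field K] (k : ℕ) :
    Matrix (Fin k) (Fin k) (MvPolynomial (Fin k × Fin k) K) := Matrix.of fun i j => X (i, j)

theorem gen_psi (ha : Function.Injective a) (s : ℕ) (v u : Fin k) :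
    gen a s (psi a (X (v, u))) =
      ∑ l : Fin s, X (Sum.inl l) * X (Sum.inr l) ^ (u.val + k * v.val) := by
  have h0 : ((finProdFinEquiv (v, u) : Fin (k * k)) : ℕ) = u.val + k * v.val := rfl
  rw [psi, aeval_X, map_sum, h0]
  have hlt : u.val + k * v.val < k * k := by
    rw [← h0]; exact Fin.is_lt _
  have h1 : ∀ l : Fin s, (X (Sum.inr l) ^ (u.val + k * v.val) :
      MvPolynomial (Fin s ⊕ Fin s) K) = ∑ i, C (lagC a (u.val + k * v.val) i) *
        ∏ i' ∈ Finset.univ.erase i, (X (Sum.inr l) - C (a i')) := by
    intro l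
    have h2 := congrArg (Polynomial.aeval (X (Sum.inr l) : MvPolynomial (Fin s ⊕ Fin s) K))
      (pow_eq a ha _ hlt)
    rw [map_pow, Polynomial.aeval_X, map_sum] at h2
    rw [h2]
    refine Finset.sum_congr rfl fun i _ => ?_
    rw [map_mul, Polynomial.aeval_C, lagN, map_prod]
    simp only [map_sub, Polynomial.aeval_X, Polynomial.aeval_C]
    rfl
  simp only [h1, Finset.mul_sum]
  rw [Finset.sum_comm]
  refine Finset.sum_congr rfl fun i _ => ?_
  rw [map_mul, gen_X, Finset.mul_sum]
  refine Finset.sum_congr rfl fun l _ => ?_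
  have h3 : gen a s (C (lagC a (u.val + k * v.val) i)) = C (lagC a (u.val + k * v.val) i) :=
    (gen a s).commutes _
  rw [h3]
  ring

theorem det_zero_of_lt {R : Type} [CommRing R] [IsDomain R] {s : ℕ} (hs : s < k)
    (U : Matrix (Fin k) (Fin s) R) (V : Matrix (Fin s) (Fin k) R) : (U * V).det = 0 := by
  by_contra h
  let j := algebraMap R (FractionRing R)
  have hj : Function.Injective j := IsFractionRing.injective _ _
  have h1 : j (U * V).det = ((U * V).map j).det := RingHom.map_det _ _
  have h2 : ((U * V).map j).det ≠ 0 := by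
    rw [← h1]
    intro h3
    exact h (hj (h3.trans (map_zero j).symm))
  have h3 : ((U * V).map j).rank = k := by
    rw [Matrix.rank_of_isUnit _ ((Matrix.isUnit_iff_isUnit_det _).2 (isUnit_iff_ne_zero.2 h2)),
      Fintype.card_fin]
  rw [Matrix.map_mul] at h3
  have h4 := Matrix.rank_mul_le_left (U.map j) (V.map j)
  have h5 : (U.map j).rank ≤ s := Matrix.rank_le_width _
  omega

/-- the generic determinant is killed by the generator with fewer than `k` seeds -/
theorem det_mem (ha : Function.Injective a) (s : ℕ) (hs : s < k) :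
    psi a (genMat K k).det ∈ genI a s := by
  show gen a s (psi a (genMat K k).det) = 0
  let U : Matrix (Fin k) (Fin s) (MvPolynomial (Fin s ⊕ Fin s) K) :=
    Matrix.of fun v l => X (Sum.inl l) * X (Sum.inr l) ^ (k * v.val)
  let V : Matrix (Fin s) (Fin k) (MvPolynomial (Fin s ⊕ Fin s) K) :=
    Matrix.of fun l u => X (Sum.inr l) ^ u.val
  have h1 : ((genMat K k).map (psi a)).map (gen a s) = U * V := by
    ext1 v u
    rw [Matrix.map_apply, Matrix.map_apply, Matrix.mul_apply]
    show gen a s (psi a (X (v, u))) = _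
    rw [gen_psi a ha]
    refine Finset.sum_congr rfl fun l _ => ?_
    show _ = X (Sum.inl l) * X (Sum.inr l) ^ (k * v.val) * X (Sum.inr l) ^ u.val
    rw [mul_assoc, ← pow_add, Nat.add_comm]
  have h2 : psi a (genMat K k).det = ((genMat K k).map (psi a)).det :=
    AlgHom.map_det (psi a) _
  have h3 : gen a s ((genMat K k).map (psi a)).det =
      (((genMat K k).map (psi a)).map (gen a s)).det := AlgHom.map_det (gen a s) _
  rw [h2, h3, h1]
  exact det_zero_of_lt hs U V

end det

end Pool.Agent.TH189.Kr
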