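import Mathlib

/-!
Permutations of roots which preserve all algebraic relations.
-/

namespace Pool.Agent.TH189.Kr

open MvPolynomial

section defs

variable {R E I : Type} [CommRing R] [CommRing E] [Fintype I] [DecidableEq I]

/-- the permutations which preserve all relations with coefficients in `R` -/
def relGroup (ι : R →+* E) (θ : I → E) : Subgroup (Equiv.Perm I) where
  carrier := {π | ∀ p : MvPolynomial I R, eval₂ ι θ p = 0 → eval₂ ι (θ ∘ π) p = 0}
  one_mem' := fun p hp => hp
  mul_mem' := by
    intro π₁ π₂ h₁ h₂ p hp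
    have h3 : eval₂ ι θ (rename π₂ p) = 0 := by rw [eval₂_rename]; exact h₂ p hp
    have h4 := h₁ _ h3
    rw [eval₂_rename] at h4
    exact h4
  inv_mem' := by
    intro π h
    have h1 : ∀ k : ℕ, ∀ p : MvPolynomial I R, eval₂ ι θ p = 0 →
        eval₂ ι (θ ∘ (π ^ k : Equiv.Perm I)) p = 0 := by
      intro k
      induction k with
      | zero => intro p hp; rw [pow_zero]; exact hp
      | succ k ih =>
        intro p hp
        have h3 : eval₂ ι θ (rename π p) = 0 := by rw [eval₂_rename]; exact h p hp
        have h4 := ih _ h3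
        rw [eval₂_rename] at h4
        rw [pow_succ]
        exact h4
    obtain ⟨k, hk⟩ : ∃ k : ℕ, π⁻¹ = π ^ k := by
      refine ⟨orderOf π - 1, ?_⟩
      have h2 : π ^ (orderOf π - 1) * π = 1 := by
        rw [← pow_succ, Nat.sub_add_cancel (orderOf_pos π), pow_orderOf_eq_one]
      exact (eq_inv_of_mul_eq_one_left h2).symm
    show ∀ p : MvPolynomial I R, eval₂ ι θ p = 0 → eval₂ ι (θ ∘ (π⁻¹ : Equiv.Perm I)) p = 0
    rw [hk]
    exact h1 k

theorem mem_relGroup {ι : R →+* E} {θ : I → E} {π : Equiv.Perm I} :
    π ∈ relGroup ι θ ↔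
      ∀ p : MvPolynomial I R, eval₂ ι θ p = 0 → eval₂ ι (θ ∘ π) p = 0 := Iff.rfl

end defs

section field

variable {F M I : Type} [Field F] [CharZero F] [Field M] [Algebra F M] [Fintype I]
  [DecidableEq I]

theorem field_fixed (θ : I → M) (Q : Polynomial F) (hsplit : (Q.map (algebraMap F M)).Splits)
    (hQ0 : Q.map (algebraMap F M) ≠ 0)
    (hroot' : ∀ x : M, (Q.map (algebraMap F M)).eval x = 0 ↔ ∃ i, θ i = x)
    (hθ : Function.Injective θ) (p : MvPolynomial I F)
    (h : ∀ π : Equiv.Perm I, (∀ q : MvPolynomial I F, aeval θ q = 0 → aeval (θ ∘ π) q = 0) →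
      aeval (θ ∘ π) p = aeval θ p) : ∃ a : F, algebraMap F M a = aeval θ p := by
  classical
  have hroot : ∀ x : M, x ∈ Q.rootSet M ↔ ∃ i, θ i = x := by
    intro x
    rw [Polynomial.mem_rootSet', Polynomial.aeval_def, ← Polynomial.eval_map, hroot' x]
    exact ⟨fun h => h.2, fun h => ⟨hQ0, h⟩⟩
  let L := IntermediateField.adjoin F (Q.rootSet M)
  haveI hSF : Q.IsSplittingField F L := IntermediateField.adjoin_rootSet_isSplittingField hsplit
  haveI : Normal F L := Normal.of_isSplittingField Q
  haveI : FiniteDimensional F L := Polynomial.IsSplittingField.finiteDimensional L Q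
  haveI : IsGalois F L := ⟨⟩
  have hmem : ∀ i, θ i ∈ L := fun i =>
    IntermediateField.subset_adjoin F _ ((hroot _).2 ⟨i, rfl⟩)
  let ϑ : I → L := fun i => ⟨θ i, hmem i⟩
  have hval : ∀ q : MvPolynomial I F, ((aeval ϑ q : L) : M) = aeval θ q := by
    intro q
    have h1 : L.val (aeval ϑ q) = aeval (fun i => L.val (ϑ i)) q := by
      rw [← MvPolynomial.comp_aeval_apply]
    exact h1
  have hfix : (aeval ϑ p : L) ∈ Set.range (algebraMap F L) := by
    rw [IsGalois.mem_range_algebraMap_iff_fixed]
    intro σ
    have hs : ∀ i, ∃ j, ϑ j = σ (ϑ i) := by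
      intro i
      have h1 : ((σ (ϑ i) : L) : M) ∈ Q.rootSet M := by
        rw [Polynomial.mem_rootSet']
        refine ⟨hQ0, ?_⟩
        have h2 : Polynomial.aeval (ϑ i) Q = 0 := by
          apply Subtype.val_injective
          have h3 := ((hroot (θ i)).2 ⟨i, rfl⟩)
          rw [Polynomial.mem_rootSet'] at h3
          have h4 : L.val (Polynomial.aeval (ϑ i) Q) = Polynomial.aeval (L.val (ϑ i)) Q :=
            (Polynomial.aeval_algHom_apply _ _ _).symm
          exact h4.trans h3.2
        have h5 : Polynomial.aeval (σ (ϑ i)) Q = 0 := by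
          have := Polynomial.aeval_algHom_apply (σ : L →ₐ[F] L) (ϑ i) Q
          rw [h2, map_zero] at this
          exact this
        have h6 : Polynomial.aeval (L.val (σ (ϑ i))) Q = L.val (Polynomial.aeval (σ (ϑ i)) Q) :=
          Polynomial.aeval_algHom_apply _ _ _
        rw [h5, map_zero] at h6
        exact h6
      obtain ⟨j, hj⟩ := (hroot _).1 h1
      exact ⟨j, Subtype.ext hj⟩
    choose f hf using hs
    have hinj : Function.Injective f := by
      intro i j hij
      have h1 := hf i
      rw [hij, hf j] at h1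
      have h2 := σ.injective h1
      exact (hθ (congrArg Subtype.val h2)).symm
    let π : Equiv.Perm I := Equiv.ofBijective f (Finite.injective_iff_bijective.1 hinj)
    have hcomp : ∀ q : MvPolynomial I F, aeval (θ ∘ π) q = ((σ (aeval ϑ q) : L) : M) := by
      intro q
      have h1 : σ (aeval ϑ q) = aeval (fun i => σ (ϑ i)) q := by
        have := MvPolynomial.comp_aeval_apply ϑ (σ : L →ₐ[F] L) q
        exact this
      have h2 : L.val (aeval (fun i => σ (ϑ i)) q) = aeval (fun i => L.val (σ (ϑ i))) q :=
        MvPolynomial.comp_aeval_apply _ L.val q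
      rw [h1]
      refine Eq.trans ?_ h2.symm
      congr 2
      funext i
      exact congrArg Subtype.val (hf i)
    have h1 := h π (fun q hq => by
      have h0 : (aeval ϑ q : L) = 0 := Subtype.ext ((hval q).trans hq)
      rw [hcomp, h0, map_zero]
      rfl)
    rw [hcomp] at h1
    exact Subtype.ext (h1.trans (hval p).symm)
  obtain ⟨a, ha⟩ := hfix
  refine ⟨a, ?_⟩
  rw [← hval p, ← ha]
  rfl

end field

section ring

variable {R E I : Type} [CommRing R] [IsDomain R] [IsIntegrallyClosed R] [CharZero R]
  [CommRing E] [IsDomain E] [Fintype I] [DecidableEq I]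

theorem relGroup_fixed' (ι : R →+* E) (hι : Function.Injective ι) (θ : I → E)
    (hθ : Function.Injective θ) (Q : Polynomial R) (hQm : Q.Monic) (hsplit : (Q.map ι).Splits)
    (hroot : ∀ x : E, (Q.map ι).eval x = 0 ↔ ∃ i, θ i = x) (p : MvPolynomial I R)
    (h : ∀ π ∈ relGroup ι θ, eval₂ ι (θ ∘ π) p = eval₂ ι θ p) :
    ∃ r, ι r = eval₂ ι θ p := by
  classical
  letI : Algebra R (FractionRing E) := ((algebraMap E (FractionRing E)).comp ι).toAlgebra
  have hjinj : Function.Injective (algebraMap E (FractionRing E)) := IsFractionRing.injective _ _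
  have hRM : algebraMap R (FractionRing E) = (algebraMap E (FractionRing E)).comp ι := rfl
  haveI : FaithfulSMul R (FractionRing E) := by
    rw [faithfulSMul_iff_algebraMap_injective, hRM]
    exact hjinj.comp hι
  letI : Algebra (FractionRing R) (FractionRing E) := FractionRing.liftAlgebra R (FractionRing E)
  haveI : IsScalarTower R (FractionRing R) (FractionRing E) :=
    FractionRing.isScalarTower_liftAlgebra R (FractionRing E)
  haveI : CharZero (FractionRing R) :=
    charZero_of_injective_algebraMap (IsFractionRing.injective R (FractionRing R))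
  let ϑ : I → FractionRing E := fun i => algebraMap E (FractionRing E) (θ i)
  have hϑ : Function.Injective ϑ := hjinj.comp hθ
  have hcomp : (algebraMap (FractionRing R) (FractionRing E)).comp
      (algebraMap R (FractionRing R)) = (algebraMap E (FractionRing E)).comp ι := by
    rw [← IsScalarTower.algebraMap_eq]
    exact hRM
  have hev : ∀ (f : I → E) (q : MvPolynomial I R),
      algebraMap E (FractionRing E) (eval₂ ι f q) =
      aeval (fun i => algebraMap E (FractionRing E) (f i))
        (map (algebraMap R (FractionRing R)) q) := by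
    intro f q
    rw [aeval_def, eval₂_map, hcomp, hom_eval₂]
  have hmap : (Q.map (algebraMap R (FractionRing R))).map
      (algebraMap (FractionRing R) (FractionRing E)) =
      (Q.map ι).map (algebraMap E (FractionRing E)) := by
    rw [Polynomial.map_map, hcomp, ← Polynomial.map_map]
  obtain ⟨a, ha⟩ := field_fixed (F := FractionRing R) (M := FractionRing E) ϑ
    (Q.map (algebraMap R (FractionRing R))) (by
      rw [hmap]; exact hsplit.map _) (by
      rw [hmap]; exact ((hQm.map _).map _).ne_zero) (by
      intro x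
      rw [hmap]
      constructor
      · intro hx
        rw [hsplit.eq_prod_roots_of_monic (hQm.map _), Polynomial.map_multiset_prod,
          Polynomial.eval_multiset_prod, Multiset.prod_eq_zero_iff] at hx
        simp only [Multiset.map_map, Multiset.mem_map, Function.comp_apply, Polynomial.map_sub,
          Polynomial.map_X, Polynomial.map_C, Polynomial.eval_sub, Polynomial.eval_X,
          Polynomial.eval_C] at hx
        obtain ⟨a, ha, hxa⟩ := hx
        obtain ⟨i, hi⟩ := (hroot a).1 (Polynomial.isRoot_of_mem_roots ha)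
        exact ⟨i, by rw [← hi] at hxa; exact (sub_eq_zero.1 hxa).symm⟩
      · rintro ⟨i, hi⟩
        rw [← hi, Polynomial.eval_map_apply, (hroot (θ i)).2 ⟨i, rfl⟩, map_zero]) hϑ
    (map (algebraMap R (FractionRing R)) p) (by
      intro π hπ
      have h1 : π ∈ relGroup ι θ := by
        intro q hq
        apply hjinj
        rw [hev, map_zero]
        refine hπ (map (algebraMap R (FractionRing R)) q) ?_
        have h2 := hev θ q
        rw [hq, map_zero] at h2
        exact h2.symm
      have h2 := congrArg (algebraMap E (FractionRing E)) (h π h1)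
      rw [hev, hev] at h2
      exact h2)
  have ha' : algebraMap (FractionRing R) (FractionRing E) a =
      algebraMap E (FractionRing E) (eval₂ ι θ p) := by rw [ha, hev]
  have hint : IsIntegral R a := by
    have h1 : IsIntegral R (algebraMap (FractionRing R) (FractionRing E) a) := by
      rw [ha']
      have h2 : ∀ i, ι.IsIntegralElem (θ i) := by
        intro i
        exact ⟨Q, hQm, by rw [← Polynomial.eval_map]; exact (hroot _).2 ⟨i, rfl⟩⟩
      have h3 : ∀ q : MvPolynomial I R, ι.IsIntegralElem (eval₂ ι θ q) := by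
        intro q
        induction q using MvPolynomial.induction_on with
        | C r => rw [eval₂_C]; exact ι.isIntegralElem_map
        | add p q hp hq => rw [eval₂_add]; exact RingHom.IsIntegralElem.add _ hp hq
        | mul_X p i hp =>
          rw [eval₂_mul, eval₂_X]; exact RingHom.IsIntegralElem.mul _ hp (h2 i)
      exact RingHom.IsIntegralElem.map (h3 p) (algebraMap E (FractionRing E))
    exact (isIntegral_algebraMap_iff
      (algebraMap (FractionRing R) (FractionRing E)).injective).1 h1
  obtain ⟨r, hr⟩ := IsIntegrallyClosed.isIntegral_iff.1 hint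
  refine ⟨r, hjinj ?_⟩
  rw [← ha', ← hr, ← IsScalarTower.algebraMap_apply]
  rfl

theorem relGroup_fixed (ι : R →+* E) (hι : Function.Injective ι) (θ : I → E)
    (hθ : Function.Injective θ) (Q : Polynomial R)
    (hQ' : Q.map ι = ∏ i, (Polynomial.X - Polynomial.C (θ i))) (p : MvPolynomial I R)
    (h : ∀ π ∈ relGroup ι θ, eval₂ ι (θ ∘ π) p = eval₂ ι θ p) :
    ∃ r, ι r = eval₂ ι θ p := by
  classical
  have hQm : Q.Monic := by
    have h1 : (Q.map ι).Monic := by
      rw [hQ']; exact Polynomial.monic_prod_of_monic _ _ fun i _ => Polynomial.monic_X_sub_C _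
    exact Polynomial.monic_of_injective hι h1
  refine relGroup_fixed' ι hι θ hθ Q hQm ?_ ?_ p h
  · rw [hQ']
    exact Polynomial.Splits.prod fun i _ => Polynomial.Splits.X_sub_C _
  · intro x
    rw [hQ', Polynomial.eval_prod, Finset.prod_eq_zero_iff]
    simp only [Finset.mem_univ, true_and, Polynomial.eval_sub, Polynomial.eval_X,
      Polynomial.eval_C, sub_eq_zero]
    exact ⟨fun ⟨i, hi⟩ => ⟨i, hi.symm⟩, fun ⟨i, hi⟩ => ⟨i, hi.symm⟩⟩

end ring

end Pool.Agent.TH189.Kr
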