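import Pool.Agent.TH189.Kr19

/-!
Secants of monomial curves in arbitrary coordinates.
-/

namespace Pool.Agent.TH189.Kr

open MvPolynomial Module LieAlgebra Pool.Agent.H530R2

attribute [local instance 100] LieRing.ofAssociativeRing

section psi

variable {K : Type} [Field K] {Q : Type} [Fintype Q] {N : ℕ} (a : Fin N → K)
  (E : Q → ℕ) (lam : Q → K)

/-- the change of coordinates -/
noncomputable def psiE : MvPolynomial Q K →ₐ[K] MvPolynomial (Fin N) K :=
  aeval fun q => ∑ i, C (lam q * lagC a (E q) i) * X i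

/-- a left inverse -/
noncomputable def phiE : MvPolynomial (Fin N) K →ₐ[K] MvPolynomial Q K :=
  aeval fun i => ∑ q, C ((lagN a i).coeff (E q) * (lam q)⁻¹) * X q

theorem phiE_psiE (ha : Function.Injective a) (hE : Function.Injective E)
    (hN : ∀ q, E q < N) (hlam : ∀ q, lam q ≠ 0) :
    (phiE a E lam).comp (psiE a E lam) = AlgHom.id K _ := by
  classical
  apply MvPolynomial.algHom_ext
  intro q
  rw [AlgHom.comp_apply, psiE, aeval_X, map_sum, AlgHom.id_apply]
  have h1 : ∀ i, phiE a E lam (C (lam q * lagC a (E q) i) * X i) =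
      ∑ q', C (lam q * (lam q')⁻¹ * (lagC a (E q) i * (lagN a i).coeff (E q'))) * X q' := by
    intro i
    rw [map_mul, phiE, aeval_X, Finset.mul_sum]
    refine Finset.sum_congr rfl fun q' _ => ?_
    have h2 : (aeval fun i => ∑ q, C ((lagN a i).coeff (E q) * (lam q)⁻¹) * X q :
        MvPolynomial (Fin N) K →ₐ[K] MvPolynomial Q K) (C (lam q * lagC a (E q) i)) =
        C (lam q * lagC a (E q) i) := aeval_C _ _
    rw [h2, ← mul_assoc, ← C_mul]
    congr 2
    ring
  rw [Finset.sum_congr rfl fun i _ => h1 i, Finset.sum_comm]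
  have h2 : ∀ q', ∑ i, C (lam q * (lam q')⁻¹ * (lagC a (E q) i * (lagN a i).coeff (E q'))) *
      (X q' : MvPolynomial Q K) = if q' = q then X q' else 0 := by
    intro q'
    rw [← Finset.sum_mul, ← map_sum, ← Finset.mul_sum, coeff_orth a ha _ _ (hN q)]
    by_cases h : q' = q
    · rw [h, if_pos rfl, if_pos rfl, mul_one, mul_inv_cancel₀ (hlam q), C_1, one_mul]
    · rw [if_neg h, if_neg (fun h3 => h (hE h3)), mul_zero, C_0, zero_mul]
  rw [Finset.sum_congr rfl fun q' _ => h2 q', Finset.sum_ite_eq' Finset.univ q]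
  simp

theorem psiE_injective (ha : Function.Injective a) (hE : Function.Injective E)
    (hN : ∀ q, E q < N) (hlam : ∀ q, lam q ≠ 0) : Function.Injective (psiE a E lam) := by
  intro p q h
  have h1 := congrArg (phiE a E lam) h
  rw [← AlgHom.comp_apply, ← AlgHom.comp_apply, phiE_psiE a E lam ha hE hN hlam] at h1
  exact h1

theorem psiE_totalDegree (p : MvPolynomial Q K) :
    (psiE a E lam p).totalDegree ≤ p.totalDegree := by
  rw [psiE, aeval_def, eval₂_eq]
  refine (totalDegree_finsetSum _ _).trans (Finset.sup_le fun d hd => ?_)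
  refine (totalDegree_mul _ _).trans ?_
  rw [algebraMap_eq, totalDegree_C, Nat.zero_add]
  refine (totalDegree_finsetProd _ _).trans ?_
  refine le_trans (Finset.sum_le_sum fun i _ => ?_) (le_totalDegree hd)
  refine (totalDegree_pow _ _).trans ?_
  have h1 : (∑ j, C (lam i * lagC a (E i) j) * X j : MvPolynomial (Fin N) K).totalDegree ≤ 1 := by
    refine (totalDegree_finsetSum _ _).trans (Finset.sup_le fun j _ => ?_)
    refine (totalDegree_mul _ _).trans ?_
    rw [totalDegree_C, totalDegree_X]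
  calc d i * _ ≤ d i * 1 := Nat.mul_le_mul_left _ h1
    _ = d i := Nat.mul_one _

theorem gen_psiE (ha : Function.Injective a) (hN : ∀ q, E q < N) (s : ℕ) (q : Q) :
    gen a s (psiE a E lam (X q)) =
      C (lam q) * ∑ l : Fin s, X (Sum.inl l) * X (Sum.inr l) ^ (E q) := by
  rw [psiE, aeval_X, map_sum]
  have h1 : ∀ l : Fin s, (X (Sum.inr l) ^ (E q) :
      MvPolynomial (Fin s ⊕ Fin s) K) = ∑ i, C (lagC a (E q) i) *
        ∏ i' ∈ Finset.univ.erase i, (X (Sum.inr l) - C (a i')) := by
    intro l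
    have h2 := congrArg (Polynomial.aeval (X (Sum.inr l) : MvPolynomial (Fin s ⊕ Fin s) K))
      (pow_eq a ha _ (hN q))
    rw [map_pow, Polynomial.aeval_X, map_sum] at h2
    rw [h2]
    refine Finset.sum_congr rfl fun i _ => ?_
    rw [map_mul, Polynomial.aeval_C, lagN, map_prod]
    simp only [map_sub, Polynomial.aeval_X, Polynomial.aeval_C]
    rfl
  simp only [h1, Finset.mul_sum]
  rw [Finset.sum_comm]
  refine Finset.sum_congr rfl fun i _ => ?_
  rw [map_mul, gen_X, Finset.mul_sum]
  refine Finset.sum_congr rfl fun l _ => ?_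
  have h3 : gen a s (C (lam q * lagC a (E q) i)) = C (lam q * lagC a (E q) i) :=
    (gen a s).commutes _
  rw [h3, C_mul]
  ring

/-- the value of the generator at a point -/
theorem eval_gen_psiE (ha : Function.Injective a) (hN : ∀ q, E q < N) (s : ℕ)
    (u : Fin s ⊕ Fin s → K) (p : MvPolynomial Q K) :
    eval u (gen a s (psiE a E lam p)) =
      eval (fun q => lam q * ∑ l : Fin s, u (Sum.inl l) * u (Sum.inr l) ^ (E q)) p := by
  have h : (eval u).comp ((gen a s : MvPolynomial (Fin N) K →+* _).comp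
      (psiE a E lam : MvPolynomial Q K →+* _)) =
      eval fun q => lam q * ∑ l : Fin s, u (Sum.inl l) * u (Sum.inr l) ^ (E q) := by
    apply MvPolynomial.ringHom_ext
    · intro c
      have h2 : psiE a E lam (C c) = C c := (psiE a E lam).commutes c
      rw [RingHom.comp_apply, RingHom.comp_apply, RingHom.coe_coe, RingHom.coe_coe, h2, gen_C,
        eval_C, eval_C]
    · intro q
      rw [RingHom.comp_apply, RingHom.comp_apply, RingHom.coe_coe, RingHom.coe_coe,
        gen_psiE a E lam ha hN, eval_X]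
      simp
  exact RingHom.congr_fun h p

end psi

section transfer

variable {K : Type} [Field K] {Q : Type} {N : ℕ} (ψ : MvPolynomial Q K →ₐ[K] MvPolynomial (Fin N) K)

theorem SRootS.mapψ (hd : ∀ p, (ψ p).totalDegree ≤ p.totalDegree)
    (κ : OmS K Q →+* Om K N)
    (hκ : ∀ p, κ (algebraMap (MvPolynomial Q K) (OmS K Q) p) =
      algebraMap (MvPolynomial (Fin N) K) (Om K N) (ψ p))
    {m w : ℕ} {u : OmS K Q} (hu : SRootS m w u) : SRoot m w (κ u) := by
  obtain ⟨χ, h1, h2, h3, h4⟩ := hu
  refine ⟨χ.map (ψ : _ →+* _), h1.map _, ?_, fun j => ?_, ?_⟩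
  · rw [h1.natDegree_map]; exact h2
  · rw [h1.natDegree_map, Polynomial.coeff_map]
    exact (hd _).trans (h3 j)
  · rw [Polynomial.eval₂_map]
    have h5 : (algebraMap (MvPolynomial (Fin N) K) (Om K N)).comp
        (ψ : MvPolynomial Q K →+* _) =
        κ.comp (algebraMap (MvPolynomial Q K) (OmS K Q)) :=
      RingHom.ext fun p => (hκ p).symm
    rw [h5, ← Polynomial.hom_eval₂, h4, map_zero]

theorem span_mapψ (hd : ∀ p, (ψ p).totalDegree ≤ p.totalDegree)
    (κ : OmS K Q →+* Om K N)
    (hκ : ∀ p, κ (algebraMap (MvPolynomial Q K) (OmS K Q) p) =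
      algebraMap (MvPolynomial (Fin N) K) (Om K N) (ψ p))
    {m w : ℕ} {u : OmS K Q} (hu : u ∈ Submodule.span K {u : OmS K Q | SRootS m w u}) :
    κ u ∈ Submodule.span K {u : Om K N | SRoot m w u} := by
  induction hu using Submodule.span_induction with
  | mem u hu => exact Submodule.subset_span (SRootS.mapψ ψ hd κ hκ hu)
  | zero => rw [map_zero]; exact Submodule.zero_mem _
  | add u v _ _ hu hv => rw [map_add]; exact Submodule.add_mem _ hu hv
  | smul c u _ hu =>
    have h1 : κ (c • u) = c • κ u := by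
      rw [Algebra.smul_def, Algebra.smul_def, map_mul,
        IsScalarTower.algebraMap_apply K (MvPolynomial Q K) (OmS K Q),
        IsScalarTower.algebraMap_apply K (MvPolynomial (Fin N) K) (Om K N), hκ]
      congr 2
      exact ψ.commutes c
    rw [h1]
    exact Submodule.smul_mem _ _ hu

variable (hinj : Function.Injective ψ) (hd : ∀ p, (ψ p).totalDegree ≤ p.totalDegree)
  (a : Fin N → K) (ha : Function.Injective a)

include hinj hd ha

/-- products of sums of small roots -/
theorem sums_notMemψ [IsAlgClosed K] [CharZero K] (m w : ℕ) (hm : 1 ≤ m)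
    (g : MvPolynomial Q K) (hg0 : g ≠ 0) (A : Multiset (OmS K Q))
    (hA : ∀ φ ∈ A, φ ∈ Submodule.span K {u : OmS K Q | SRootS m w u})
    (hg : algebraMap (MvPolynomial Q K) (OmS K Q) g = A.prod) :
    ψ g ∉ genI a (w * (m ^ 2 + 2 * m ^ 4)) := by
  obtain ⟨κ, hκ⟩ := exists_kappaS (K := K) (σ := Q)
    ((algebraMap (MvPolynomial (Fin N) K) (Om K N)).comp (ψ : _ →+* _))
    (Om_injective.comp hinj)
  have hA' : ∀ φ ∈ A.map κ, φ ∈ Submodule.span K {u : Om K N | SRoot m w u} := by
    intro φ hφ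
    obtain ⟨η, hη, rfl⟩ := Multiset.mem_map.1 hφ
    exact span_mapψ ψ hd κ hκ (hA η hη)
  obtain ⟨F, hF, hFA⟩ := exists_family m w (A.map κ) hA'
  refine main3 a ha m w hm F hF (A.map κ) hFA (ψ g) ?_ ?_ (ψ g) dvd_rfl
  · rw [← map_multiset_prod, ← hg, hκ]
    rfl
  · intro h
    exact hg0 (hinj (h.trans (map_zero _).symm))

/-- Lie algebras with small simple factors -/
theorem lie_notMemψ [IsAlgClosed K] [CharZero K] {M : ℕ}
    (𝔤 : LieSubalgebra K (Matrix (Fin M) (Fin M) K)) (m w : ℕ) (hm1 : 1 ≤ m)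
    (hm : ∀ I : LieIdeal K (𝔤 ⧸ radical K 𝔤), IsAtom I → finrank K I ≤ m)
    (Y : Matrix (Fin M) (Fin M) (MvPolynomial Q K))
    (hw : ∀ i j, (Y i j).totalDegree ≤ w)
    (hY : ∀ c : Q → K, Y.map (eval c) ∈ 𝔤) (h0 : Y.det ≠ 0) :
    ψ Y.det ∉ genI a (w * (m ^ 2 + 2 * m ^ 4)) := by
  have hdet : (Y.map ψ).det = ψ Y.det := (AlgHom.map_det ψ _).symm
  have h1 := lie_notMem 𝔤 m w hm a ha (Y.map ψ) (fun i j => by
    rw [Matrix.map_apply]
    exact (hd _).trans (hw i j)) (fun c => by
    have h1 : (eval c).comp (ψ : MvPolynomial Q K →+* _) =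
        eval fun q => eval c (ψ (X q)) := by
      apply MvPolynomial.ringHom_ext
      · intro r
        rw [RingHom.comp_apply, eval_C]
        have h2 : ψ (C r) = C r := ψ.commutes r
        rw [RingHom.coe_coe, h2, eval_C]
      · intro q
        rw [RingHom.comp_apply, eval_X]
        rfl
    have h2 : (Y.map ψ).map (eval c) = Y.map (eval fun q => eval c (ψ (X q))) := by
      ext i j
      rw [Matrix.map_apply, Matrix.map_apply, Matrix.map_apply]
      exact RingHom.congr_fun h1 _
    rw [h2]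
    exact hY _) (by
    rw [hdet]
    intro h
    exact h0 (hinj (h.trans (map_zero _).symm))) (ψ Y.det) (by rw [hdet])
  rwa [max_eq_left hm1] at h1

/-- sums of commuting matrices of small degree -/
theorem commuting_notMemψ [IsAlgClosed K] [CharZero K] {M r : ℕ} (m w : ℕ) (hm : 1 ≤ m)
    (Y : Fin r → Matrix (Fin M) (Fin M) (MvPolynomial Q K))
    (hc : ∀ i j, Y i * Y j = Y j * Y i)
    (hχ : ∀ i, ∃ χ : Polynomial (MvPolynomial Q K), χ.Monic ∧ χ.natDegree ≤ m ∧
      (∀ j, (χ.coeff j).totalDegree ≤ w * (χ.natDegree - j)) ∧ Polynomial.aeval (Y i) χ = 0)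
    (h0 : (∑ i, Y i).det ≠ 0) : ψ (∑ i, Y i).det ∉ genI a (w * (m ^ 2 + 2 * m ^ 4)) := by
  let f : Matrix (Fin M) (Fin M) (MvPolynomial Q K) →+*
      Matrix (Fin M) (Fin M) (MvPolynomial (Fin N) K) :=
    (ψ : MvPolynomial Q K →+* _).mapMatrix
  have hf : ∀ Z, f Z = Z.map ψ := fun Z => rfl
  have hdet : (∑ i, f (Y i)).det = ψ (∑ i, Y i).det := by
    rw [← map_sum, hf]
    exact (AlgHom.map_det ψ _).symm
  have h0' : (∑ i, f (Y i)).det ≠ 0 := by
    rw [hdet]
    intro h
    exact h0 (hinj (h.trans (map_zero _).symm))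
  have hS : SEig m w (∑ i, f (Y i)) := by
    refine seig_sum m w Finset.univ (fun i => f (Y i)) (fun i _ j _ => ?_) fun i _ => ?_
    · show f (Y i) * f (Y j) = f (Y j) * f (Y i)
      rw [← map_mul, hc, map_mul]
    · obtain ⟨χ, h1, h2, h3, h4⟩ := hχ i
      refine ⟨χ.map (ψ : _ →+* _), h1.map _, ?_, fun j => ?_, ?_⟩
      · rw [h1.natDegree_map]; exact h2
      · rw [h1.natDegree_map, Polynomial.coeff_map]
        exact (hd _).trans (h3 j)
      · have h5 := congrArg f h4
        rw [map_zero, Polynomial.aeval_def, Polynomial.hom_eval₂] at h5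
        rw [Polynomial.aeval_def, Polynomial.eval₂_map]
        have h6 : (algebraMap (MvPolynomial (Fin N) K)
            (Matrix (Fin M) (Fin M) (MvPolynomial (Fin N) K))).comp
            (ψ : MvPolynomial Q K →+* _) =
            f.comp (algebraMap (MvPolynomial Q K)
              (Matrix (Fin M) (Fin M) (MvPolynomial Q K))) := by
          refine RingHom.ext fun p => ?_
          ext1 i j
          rw [RingHom.comp_apply, RingHom.comp_apply, hf, Matrix.map_apply,
            Matrix.algebraMap_matrix_apply, Matrix.algebraMap_matrix_apply]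
          split_ifs with hij
          · rfl
          · exact (map_zero ψ).symm
        rw [h6]
        exact h5
  refine trailing_notMem a ha m w hm _ hS (ψ (∑ i, Y i).det) ?_
  refine dvd_trans ?_ (det_dvd _ h0')
  rw [hdet]

end transfer

end Pool.Agent.TH189.Kr
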