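import Pool.Agent.TH189.Kr21

/-!
Systems of real polynomial equations: near the points of the secant variety there are unsolvable
systems.
-/

namespace Pool.Agent.TH189.Kr

open MvPolynomial Pool.Agent.H530R2 Topology

section shift

variable {K : Type} [Field K] {n k d : ℕ}

open Classical in
/-- change of the constant terms -/
noncomputable def shiftHN (c₀ : QHN n k d → K) (t : Fin k → K) : QHN n k d → K := fun q =>
  if q.2 = zeroHN n d then c₀ q - t q.1 else c₀ q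

theorem val_shift (c₀ : QHN n k d → K) (t : Fin k → K) (i : Fin k) (z : Fin n → K) :
    valHN (shiftHN c₀ t) i z = valHN c₀ i z - t i := by
  classical
  have h1 : ∀ α : MonoHN n d, shiftHN c₀ t (i, α) * ∏ j, z j ^ (α.1 j : ℕ) =
      c₀ (i, α) * ∏ j, z j ^ (α.1 j : ℕ) - (if α = zeroHN n d then t i else 0) := by
    intro α
    by_cases hα : α = zeroHN n d
    · subst hα
      simp only [shiftHN, if_true]
      simp [zeroHN]
    · simp only [shiftHN, if_neg hα, sub_zero]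
  rw [valHN, Finset.sum_congr rfl fun α _ => h1 α, Finset.sum_sub_distrib, ← valHN]
  congr 1
  rw [Finset.sum_ite_eq' Finset.univ]
  simp

theorem shift_zero (c₀ : QHN n k d → K) : shiftHN c₀ 0 = c₀ := by
  funext q
  simp [shiftHN]

end shift

section real

variable {n k d : ℕ}

theorem shift_continuous (c₀ : QHN n k d → ℝ) : Continuous (shiftHN c₀) := by
  refine continuous_pi fun q => ?_
  unfold shiftHN
  by_cases h : q.2 = zeroHN n d
  · simp only [if_pos h]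
    exact continuous_const.sub (continuous_apply _)
  · simp only [if_neg h]
    exact continuous_const

theorem exists_box (c₀ : QHN n k d → ℝ) {U : Set (QHN n k d → ℝ)} (hU : U ∈ 𝓝 c₀) :
    ∃ ε : ℝ, 0 < ε ∧ ∀ t : Fin k → ℝ, (∀ i, |t i| < ε) → shiftHN c₀ t ∈ U := by
  have h1 : (shiftHN c₀) ⁻¹' U ∈ 𝓝 (0 : Fin k → ℝ) := by
    apply (shift_continuous c₀).continuousAt.preimage_mem_nhds
    rw [shift_zero]
    exact hU
  obtain ⟨ε, hε, hb⟩ := Metric.mem_nhds_iff.1 h1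
  refine ⟨ε, hε, fun t ht => hb ?_⟩
  rw [mem_ball_zero_iff, pi_norm_lt_iff hε]
  exact ht

/-- unsolvable systems are dense if there are many equations -/
theorem unsolv_near (hk : n < k) (c₀ : QHN n k d → ℝ) {U : Set (QHN n k d → ℝ)} (hU : U ∈ 𝓝 c₀) :
    ∃ c ∈ U, ¬ SolvHN c := by
  classical
  obtain ⟨F, hF0, hF⟩ : ∃ F : MvPolynomial (Fin k) ℝ, F ≠ 0 ∧ aeval (polyHN c₀) F = 0 := by
    by_contra h
    push Not at h
    have h1 : AlgebraicIndependent ℝ (polyHN c₀) := by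
      rw [algebraicIndependent_iff]
      intro p hp
      by_contra hp0
      exact h p hp0 hp
    have h2 := h1.cardinalMk_le_trdeg
    rw [MvPolynomial.trdeg_of_isDomain] at h2
    simp only [Cardinal.mk_fin, Cardinal.lift_natCast, Nat.cast_le] at h2
    omega
  obtain ⟨ε, hε, hb⟩ := exists_box c₀ hU
  obtain ⟨t, ht, htF⟩ : ∃ t : Fin k → ℝ, (∀ i, |t i| < ε) ∧ eval t F ≠ 0 := by
    by_contra h
    push Not at h
    apply hF0
    refine funext_set (fun _ => Set.Ioo (-ε) ε) (fun _ => Set.Ioo_infinite (by linarith))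
      fun t ht => ?_
    rw [map_zero]
    exact h t fun i => abs_lt.2 (ht i (Set.mem_univ i))
  refine ⟨shiftHN c₀ t, hb t ht, ?_⟩
  rintro ⟨z, hz⟩
  have h2 : ∀ i, valHN c₀ i z = t i := by
    intro i
    have h3 := hz i
    rw [val_shift] at h3
    exact sub_eq_zero.1 h3
  have h3 := congrArg (eval z) hF
  rw [map_zero] at h3
  have h4 : (eval z).comp ((aeval (polyHN c₀) :
      MvPolynomial (Fin k) ℝ →ₐ[ℝ] MvPolynomial (Fin n) ℝ) : _ →+* _) = eval t := by
    apply MvPolynomial.ringHom_ext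
    · intro r
      simp
    · intro i
      rw [RingHom.comp_apply, RingHom.coe_coe, aeval_X, eval_X, eval_polyHN, h2]
  have h5 := RingHom.congr_fun h4 F
  rw [RingHom.comp_apply, RingHom.coe_coe] at h5
  rw [h5] at h3
  exact htF h3

/-- unsolvable systems near a positive secant point, even degree -/
theorem unsolv_even {s : ℕ} (hd : Even d) (hk : 1 ≤ k) (u : Fin s ⊕ Fin s → ℝ)
    (hu : ∀ i, 0 < u i) {U : Set (QHN n k d → ℝ)} (hU : U ∈ 𝓝 (secHN u : QHN n k d → ℝ)) :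
    ∃ c ∈ U, ¬ SolvHN c := by
  obtain ⟨ε, hε, hb⟩ := exists_box _ hU
  refine ⟨_, hb (fun _ => -(ε / 2)) (fun _ => ?_), ?_⟩
  · rw [abs_neg, abs_of_pos (half_pos hε)]
    exact half_lt_self hε
  · rintro ⟨z, hz⟩
    have h1 := hz ⟨0, hk⟩
    rw [val_shift, valHN_sec] at h1
    have h2 : 0 ≤ ∑ l : Fin s, u (Sum.inl l) *
        u (Sum.inr l) ^ ((d + 1) ^ n * ((⟨0, hk⟩ : Fin k) : ℕ)) *
        (1 + ∑ j : Fin n, u (Sum.inr l) ^ ((d + 1) ^ (j : ℕ)) * z j) ^ d :=
      Finset.sum_nonneg fun l _ => mul_nonneg (mul_nonneg (hu _).le (pow_nonneg (hu _).le _))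
        (hd.pow_nonneg _)
    linarith

/-- the complexification -/
noncomputable abbrev cx {σ : Type} (g : MvPolynomial σ ℝ) : MvPolynomial σ ℂ :=
  MvPolynomial.map (algebraMap ℝ ℂ) g

theorem eval_cx {σ : Type} (c : σ → ℝ) (g : MvPolynomial σ ℝ) :
    eval (fun q => (c q : ℂ)) (cx g) = ((eval c g : ℝ) : ℂ) := by
  rw [cx, eval_map]
  have h := eval₂_comp_left (algebraMap ℝ ℂ) (RingHom.id ℝ) c g
  rw [← eval₂_id] 
  exact h.symm

theorem exists_real_point {s d : ℕ} (hd : 1 ≤ d) (P : MvPolynomial (Fin s ⊕ Fin s) ℂ)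
    (hP : P ≠ 0) : ∃ r : Fin s ⊕ Fin s → ℝ, (∀ i, 0 < r i) ∧
      eval (fun i => (r i : ℂ)) P ≠ 0 ∧ eval r (detHN ℝ s d) ≠ 0 := by
  obtain ⟨x, hx, hxP⟩ : ∃ x : Fin s ⊕ Fin s → ℂ,
      (∀ i, x i ∈ ((↑) : ℝ → ℂ) '' Set.Ioi (0 : ℝ)) ∧ eval x (P * detHN ℂ s d) ≠ 0 := by
    by_contra h
    push Not at h
    apply mul_ne_zero hP (detHN_ne_zero (K := ℂ) (s := s) hd)
    refine funext_set (fun _ => ((↑) : ℝ → ℂ) '' Set.Ioi (0 : ℝ))
      (fun _ => (Set.Ioi_infinite 0).image Complex.ofReal_injective.injOn) fun x hx => ?_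
    rw [map_zero]
    exact h x fun i => hx i (Set.mem_univ i)
  choose r hr hrx using hx
  have hx' : x = fun i => (r i : ℂ) := funext fun i => (hrx i).symm
  subst hx'
  rw [map_mul] at hxP
  refine ⟨r, hr, left_ne_zero_of_mul hxP, fun h => right_ne_zero_of_mul hxP ?_⟩
  rw [eval_detHN] at h ⊢
  have h1 := congrArg (algebraMap ℝ ℂ) h
  rw [map_zero, RingHom.map_det] at h1
  rw [← h1]
  congr 1
  ext l j
  simp

theorem sec_cx {s : ℕ} (r : Fin s ⊕ Fin s → ℝ) :
    (secHN (fun i => (r i : ℂ)) : QHN n k d → ℂ) = fun q => ((secHN r q : ℝ) : ℂ) := by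
  funext q
  simp [secHN, lamHN]

/-- a generic real point of the secant variety -/
theorem real_generic {s : ℕ} (hd : 1 ≤ d) (hs : s ≤ n) (a : Fin (k * (d + 1) ^ n) → ℂ)
    (ha : Function.Injective a) (G : MvPolynomial (QHN n k d) ℝ)
    (hG : psiE a (fun q : QHN n k d => (ordHN q : ℕ)) (fun q => lamHN ℂ q.2) (cx G) ∉ genI a s) :
    ∃ r : Fin s ⊕ Fin s → ℝ, (∀ i, 0 < r i) ∧ SolvHN (secHN r : QHN n k d → ℝ) ∧
      eval (secHN r) G ≠ 0 := by
  obtain ⟨r, hr, h1, h2⟩ := exists_real_point hd (gen a s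
    (psiE a (fun q : QHN n k d => (ordHN q : ℕ)) (fun q => lamHN ℂ q.2) (cx G))) hG
  refine ⟨r, hr, solv_sec hd hs r h2, fun h => h1 ?_⟩
  rw [eval_gen_psiE a _ _ ha (fun q => (ordHN q).2)]
  have h3 : (fun q : QHN n k d => lamHN ℂ q.2 * ∑ l : Fin s, (r (Sum.inl l) : ℂ) *
      (r (Sum.inr l) : ℂ) ^ (ordHN q : ℕ)) = secHN fun i => (r i : ℂ) := rfl
  rw [h3, sec_cx, eval_cx, h, Complex.ofReal_zero]

end real

end Pool.Agent.TH189.Kr
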