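import Pool.Agent.TH189.Kr1

/-!
Taylor expansions of polynomials at a point, with a formal parameter, and Hensel's lemma.
-/

namespace Pool.Agent.TH189.Kr

open MvPolynomial

variable {K : Type} [Field K] {n : ℕ}

/-- the expansion `p (x + t v)` -/
noncomputable def iotaP (x : Fin n → K) :
    MvPolynomial (Fin n) K →+* Polynomial (MvPolynomial (Fin n) K) :=
  eval₂Hom (Polynomial.C.comp C) fun i =>
    Polynomial.C (C (x i)) + Polynomial.C (X i) * Polynomial.X

theorem iotaP_C (x : Fin n → K) (c : K) : iotaP x (C c) = Polynomial.C (C c) := by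
  rw [iotaP, eval₂Hom_C]; rfl

theorem iotaP_X (x : Fin n → K) (i : Fin n) :
    iotaP x (X i) = Polynomial.C (C (x i)) + Polynomial.C (X i) * Polynomial.X := by
  rw [iotaP, eval₂Hom_X']

theorem iotaP_natDegree (x : Fin n → K) (p : MvPolynomial (Fin n) K) :
    (iotaP x p).natDegree ≤ p.totalDegree := by
  rw [iotaP, coe_eval₂Hom, eval₂_eq]
  refine Polynomial.natDegree_sum_le_of_forall_le _ _ fun d hd => ?_
  refine Polynomial.natDegree_mul_le.trans ?_
  have h1 : ((Polynomial.C.comp C) (coeff d p) : Polynomial (MvPolynomial (Fin n) K)).natDegree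
      = 0 := Polynomial.natDegree_C _
  rw [h1, Nat.zero_add]
  refine (Polynomial.natDegree_prod_le _ _).trans ?_
  refine le_trans (Finset.sum_le_sum fun i _ => ?_) (le_totalDegree hd)
  refine Polynomial.natDegree_pow_le.trans ?_
  have h2 : (Polynomial.C (C (x i)) + Polynomial.C (X i) * Polynomial.X :
      Polynomial (MvPolynomial (Fin n) K)).natDegree ≤ 1 := by
    refine (Polynomial.natDegree_add_le _ _).trans (max_le ?_ ?_)
    · rw [Polynomial.natDegree_C]; exact Nat.zero_le _
    · exact (Polynomial.natDegree_C_mul_le _ _).trans Polynomial.natDegree_X_le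
  calc d i * _ ≤ d i * 1 := Nat.mul_le_mul_left _ h2
    _ = d i := Nat.mul_one _

theorem iotaP_injective (x : Fin n → K) : Function.Injective (iotaP x) := by
  let g : Polynomial (MvPolynomial (Fin n) K) →+* MvPolynomial (Fin n) K :=
    Polynomial.eval₂RingHom (aeval (fun i => X i - C (x i)) : _ →ₐ[K] _).toRingHom 1
  have h1 : g.comp (iotaP x) = RingHom.id _ := by
    apply MvPolynomial.ringHom_ext
    · intro c
      rw [RingHom.comp_apply, iotaP_C]
      simp [g]
    · intro i
      rw [RingHom.comp_apply, iotaP_X]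
      simp [g]
  intro p q hpq
  have h2 := congrArg g hpq
  rw [← RingHom.comp_apply, ← RingHom.comp_apply, h1] at h2
  exact h2

theorem iotaP_hom (x : Fin n → K) (p : MvPolynomial (Fin n) K) (d : ℕ) :
    ((iotaP x p).coeff d).IsHomogeneous d := by
  induction p using MvPolynomial.induction_on generalizing d with
  | C c =>
    rw [iotaP_C, Polynomial.coeff_C]
    split_ifs with h
    · rw [h]; exact isHomogeneous_C _ _
    · exact isHomogeneous_zero _ _ _
  | add p q hp hq =>
    rw [map_add, Polynomial.coeff_add]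
    exact (hp d).add (hq d)
  | mul_X p i hp =>
    rw [map_mul, iotaP_X, mul_add, Polynomial.coeff_add, Polynomial.coeff_mul_C, ← mul_assoc,
      mul_comm (iotaP x p) (Polynomial.C (X i)), mul_assoc, Polynomial.coeff_C_mul]
    refine IsHomogeneous.add ?_ ?_
    · have := (hp d).mul (isHomogeneous_C (Fin n) (x i))
      rwa [Nat.add_zero] at this
    · rcases d with _ | d
      · rw [Polynomial.mul_coeff_zero, Polynomial.coeff_X_zero, mul_zero, mul_zero]
        exact isHomogeneous_zero _ _ _
      · rw [Polynomial.coeff_mul_X]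
        have := (isHomogeneous_X K i).mul (hp d)
        rwa [Nat.add_comm] at this

theorem iotaP_coeff_zero (x : Fin n → K) (p : MvPolynomial (Fin n) K) :
    (iotaP x p).coeff 0 = C (eval x p) := by
  induction p using MvPolynomial.induction_on with
  | C c => rw [iotaP_C, Polynomial.coeff_C_zero, eval_C]
  | add p q hp hq => rw [map_add, Polynomial.coeff_add, hp, hq, map_add, map_add]
  | mul_X p i hp =>
    rw [map_mul, iotaP_X, Polynomial.mul_coeff_zero, hp, Polynomial.coeff_add,
      Polynomial.coeff_C_zero, Polynomial.mul_coeff_zero, Polynomial.coeff_X_zero, mul_zero,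
      add_zero, map_mul, map_mul, eval_X]

theorem iotaP_shift (x : Fin n → K) {h : MvPolynomial (Fin n) K} {d : ℕ}
    (hh : h.IsHomogeneous d) :
    iotaP x (aeval (fun i => X i - C (x i)) h) = Polynomial.C h * Polynomial.X ^ d := by
  have h1 : (iotaP x).comp (aeval (fun i => X i - C (x i)) :
      MvPolynomial (Fin n) K →ₐ[K] MvPolynomial (Fin n) K).toRingHom =
      eval₂Hom (Polynomial.C.comp C) fun i => Polynomial.C (X i) * Polynomial.X := by
    apply MvPolynomial.ringHom_ext
    · intro c
      simp [iotaP_C]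
    · intro i
      simp [iotaP_C, iotaP_X]
  have h2 : iotaP x (aeval (fun i => X i - C (x i)) h) =
      eval₂Hom (Polynomial.C.comp C) (fun i => Polynomial.C (X i) * Polynomial.X) h := by
    rw [← h1]; rfl
  rw [h2, coe_eval₂Hom, eval₂_eq']
  conv_rhs => rw [h.as_sum, map_sum, Finset.sum_mul]
  refine Finset.sum_congr rfl fun m hm => ?_
  have h3 : ∑ i, m i = d := by
    have := hh (mem_support_iff.1 hm)
    rw [← this, Finsupp.weight_apply, Finsupp.sum_fintype]
    · simp
    · intro i; simp
  rw [← h3, monomial_eq, map_mul, Finsupp.prod_fintype]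
  · simp only [mul_pow, Finset.prod_mul_distrib, Finset.prod_pow_eq_pow_sum, map_prod, map_pow]
    rw [RingHom.comp_apply, mul_assoc]
  · intro i; exact pow_zero _

theorem aeval_totalDegree (f : Fin n → MvPolynomial (Fin n) K) (hf : ∀ i, (f i).totalDegree ≤ 1)
    (p : MvPolynomial (Fin n) K) : (aeval f p).totalDegree ≤ p.totalDegree := by
  rw [aeval_def, eval₂_eq]
  refine (totalDegree_finsetSum _ _).trans (Finset.sup_le fun d hd => ?_)
  refine (totalDegree_mul _ _).trans ?_
  rw [algebraMap_eq, totalDegree_C, Nat.zero_add]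
  refine (totalDegree_finsetProd _ _).trans ?_
  refine le_trans (Finset.sum_le_sum fun i _ => ?_) (le_totalDegree hd)
  refine (totalDegree_pow _ _).trans ?_
  calc d i * _ ≤ d i * 1 := Nat.mul_le_mul_left _ (hf i)
    _ = d i := Nat.mul_one _

/-- the expansion as a power series in `t` -/
noncomputable def iota (x : Fin n → K) :
    MvPolynomial (Fin n) K →+* PowerSeries (MvPolynomial (Fin n) K) :=
  Polynomial.coeToPowerSeries.ringHom.comp (iotaP x)

theorem iota_apply (x : Fin n → K) (p : MvPolynomial (Fin n) K) :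
    iota x p = (iotaP x p : PowerSeries (MvPolynomial (Fin n) K)) := rfl

theorem iota_injective (x : Fin n → K) : Function.Injective (iota x) := by
  intro p q h
  exact iotaP_injective x (Polynomial.coe_injective _ h)

/-- the series with homogeneous coefficients -/
noncomputable def Hs (K : Type) [Field K] (n : ℕ) : Subring (PowerSeries (MvPolynomial (Fin n) K))
    where
  carrier := {f | ∀ d, (PowerSeries.coeff d f).IsHomogeneous d}
  zero_mem' := by intro d; rw [map_zero]; exact isHomogeneous_zero _ _ _
  one_mem' := by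
    intro d
    rw [PowerSeries.coeff_one]
    split_ifs with h
    · rw [h]; exact isHomogeneous_one _ _
    · exact isHomogeneous_zero _ _ _
  add_mem' := by intro f g hf hg d; rw [map_add]; exact (hf d).add (hg d)
  neg_mem' := by intro f hf d; rw [map_neg]; exact (hf d).neg
  mul_mem' := by
    intro f g hf hg d
    rw [PowerSeries.coeff_mul]
    refine IsHomogeneous.sum _ _ _ fun x hx => ?_
    rw [← Finset.HasAntidiagonal.mem_antidiagonal.1 hx]
    exact (hf _).mul (hg _)

theorem iota_mem (x : Fin n → K) (p : MvPolynomial (Fin n) K) : iota x p ∈ Hs K n := by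
  intro d
  rw [iota_apply, Polynomial.coeff_coe]
  exact iotaP_hom x p d

theorem iota_const (x : Fin n → K) (p : MvPolynomial (Fin n) K) :
    PowerSeries.constantCoeff (iota x p) = C (eval x p) := by
  rw [← PowerSeries.coeff_zero_eq_constantCoeff_apply, iota_apply, Polynomial.coeff_coe,
    iotaP_coeff_zero]

/-- truncations come from polynomials -/
theorem exists_trunc (x : Fin n → K) (e : PowerSeries (MvPolynomial (Fin n) K))
    (he : e ∈ Hs K n) (k : ℕ) : ∃ q : MvPolynomial (Fin n) K, q.totalDegree ≤ k ∧
      ∀ d, PowerSeries.coeff d (iota x q) = if d ≤ k then PowerSeries.coeff d e else 0 := by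
  refine ⟨∑ d ∈ Finset.range (k + 1), aeval (fun i => X i - C (x i)) (PowerSeries.coeff d e), ?_,
    ?_⟩
  · refine (totalDegree_finsetSum _ _).trans (Finset.sup_le fun d hd => ?_)
    refine (aeval_totalDegree _ (fun i => ?_) _).trans ?_
    · refine (totalDegree_sub _ _).trans (max_le ?_ ?_)
      · rw [totalDegree_X]
      · rw [totalDegree_C]; omega
    · refine ((he d).totalDegree_le).trans ?_
      have := Finset.mem_range.1 hd
      omega
  · intro d
    rw [iota_apply, Polynomial.coeff_coe, map_sum, Polynomial.finsetSum_coeff]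
    have h1 : ∀ j ∈ Finset.range (k + 1), (iotaP x (aeval (fun i => X i - C (x i))
        (PowerSeries.coeff j e))).coeff d = if d = j then PowerSeries.coeff j e else 0 := by
      intro j _
      rw [iotaP_shift x (he j), Polynomial.coeff_C_mul_X_pow]
    rw [Finset.sum_congr rfl h1, Finset.sum_ite_eq]
    simp only [Finset.mem_range, Nat.lt_succ_iff]

theorem eval_mem_Hs (f : Polynomial (PowerSeries (MvPolynomial (Fin n) K)))
    (hf : ∀ i, f.coeff i ∈ Hs K n) {g : PowerSeries (MvPolynomial (Fin n) K)} (hg : g ∈ Hs K n) :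
    f.eval g ∈ Hs K n := by
  rw [Polynomial.eval_eq_sum_range]
  exact sum_mem fun i _ => mul_mem (hf i) (pow_mem hg i)

theorem C_mem_Hs (c : K) : PowerSeries.C (C c : MvPolynomial (Fin n) K) ∈ Hs K n := by
  intro d
  rw [PowerSeries.coeff_C]
  split_ifs with h
  · rw [h]; exact isHomogeneous_C _ _
  · exact isHomogeneous_zero _ _ _

/-- one step of the approximation -/
noncomputable def step (f : Polynomial (PowerSeries (MvPolynomial (Fin n) K))) (c : K) (d : ℕ)
    (g : PowerSeries (MvPolynomial (Fin n) K)) : PowerSeries (MvPolynomial (Fin n) K) :=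
  g + (-(PowerSeries.C (C c⁻¹) * PowerSeries.C (PowerSeries.coeff (d + 1) (f.eval g)))) *
    PowerSeries.X ^ (d + 1)

/-- **Hensel's lemma.** -/
theorem hensel (f : Polynomial (PowerSeries (MvPolynomial (Fin n) K)))
    (hf : ∀ i, f.coeff i ∈ Hs K n) (α c : K) (hc : c ≠ 0)
    (h0 : PowerSeries.constantCoeff (f.eval (PowerSeries.C (C α))) = 0)
    (h1 : PowerSeries.constantCoeff (f.derivative.eval (PowerSeries.C (C α))) = C c) :
    ∃ θ ∈ Hs K n, PowerSeries.constantCoeff θ = C α ∧ f.eval θ = 0 := by
  let g : ℕ → PowerSeries (MvPolynomial (Fin n) K) :=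
    fun d => Nat.rec (PowerSeries.C (C α)) (fun d g => step f c d g) d
  have hg0 : g 0 = PowerSeries.C (C α) := rfl
  have hgs : ∀ d, g (d + 1) = step f c d (g d) := fun d => rfl
  have hconst : ∀ d, PowerSeries.constantCoeff (g d) = C α := by
    intro d
    induction d with
    | zero => rw [hg0, PowerSeries.constantCoeff_C]
    | succ d ih =>
      rw [hgs, step, map_add, ih, map_mul, map_pow, PowerSeries.constantCoeff_X,
        zero_pow (Nat.succ_ne_zero d), mul_zero, add_zero]
  have hder : ∀ d, PowerSeries.constantCoeff (f.derivative.eval (g d)) = C c := by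
    intro d
    rw [← h1, ← Polynomial.eval_map_apply, ← Polynomial.eval_map_apply, hconst,
      PowerSeries.constantCoeff_C]
  have hmem : ∀ d, g d ∈ Hs K n := by
    intro d
    induction d with
    | zero => exact C_mem_Hs α
    | succ d ih =>
      rw [hgs, step]
      refine add_mem ih ?_
      rw [neg_mul]
      refine neg_mem ?_
      intro k
      rw [mul_assoc, PowerSeries.coeff_C_mul, PowerSeries.coeff_C_mul_X_pow]
      split_ifs with h
      · rw [h]
        have := (isHomogeneous_C (Fin n) c⁻¹).mul (eval_mem_Hs f hf ih (d + 1))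
        rwa [Nat.zero_add] at this
      · rw [mul_zero]; exact isHomogeneous_zero _ _ _
  have hdvd : ∀ d, PowerSeries.X ^ (d + 1) ∣ f.eval (g d) := by
    intro d
    induction d with
    | zero =>
      rw [hg0, pow_one, PowerSeries.X_dvd_iff]
      exact h0
    | succ d ih =>
      obtain ⟨u, hu⟩ := ih
      set e := PowerSeries.coeff (d + 1) (f.eval (g d)) with he
      have he' : PowerSeries.constantCoeff u = e := by
        rw [he, hu, PowerSeries.coeff_X_pow_mul', if_pos le_rfl, Nat.sub_self,
          PowerSeries.coeff_zero_eq_constantCoeff_apply]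
      obtain ⟨k, hk⟩ := Polynomial.binomExpansion f (g d)
        ((-(PowerSeries.C (C c⁻¹) * PowerSeries.C e)) * PowerSeries.X ^ (d + 1))
      rw [hgs, step, ← he, hk, hu]
      have h2 : PowerSeries.X ^ (d + 1) * u + f.derivative.eval (g d) *
          ((-(PowerSeries.C (C c⁻¹) * PowerSeries.C e)) * PowerSeries.X ^ (d + 1)) +
          k * ((-(PowerSeries.C (C c⁻¹) * PowerSeries.C e)) * PowerSeries.X ^ (d + 1)) ^ 2 =
          PowerSeries.X ^ (d + 1) * ((u - f.derivative.eval (g d) *
            (PowerSeries.C (C c⁻¹) * PowerSeries.C e)) +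
            PowerSeries.X ^ (d + 1) * (k * (PowerSeries.C (C c⁻¹) * PowerSeries.C e) ^ 2)) := by
        ring
      rw [h2, pow_succ (PowerSeries.X) (d + 1)]
      refine mul_dvd_mul_left _ (dvd_add ?_ ?_)
      · rw [PowerSeries.X_dvd_iff, map_sub, he', map_mul, hder, map_mul,
          PowerSeries.constantCoeff_C, PowerSeries.constantCoeff_C, ← mul_assoc, ← map_mul,
          mul_inv_cancel₀ hc, map_one, one_mul, sub_self]
      · exact Dvd.dvd.mul_right (dvd_pow_self _ (Nat.succ_ne_zero d)) _
  have hstab : ∀ d k, d ≤ k → PowerSeries.coeff d (g k) = PowerSeries.coeff d (g d) := by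
    intro d k hk
    induction k, hk using Nat.le_induction with
    | base => rfl
    | succ k hk ih =>
      rw [hgs, step, map_add, ih, PowerSeries.coeff_mul_X_pow', if_neg (by omega), add_zero]
  let θ : PowerSeries (MvPolynomial (Fin n) K) := PowerSeries.mk fun d => PowerSeries.coeff d (g d)
  have hθ : ∀ d, PowerSeries.X ^ (d + 1) ∣ θ - g d := by
    intro d
    rw [PowerSeries.X_pow_dvd_iff]
    intro m hm
    rw [map_sub, PowerSeries.coeff_mk, hstab m d (by omega), sub_self]
  refine ⟨θ, ?_, ?_, ?_⟩
  · intro d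
    rw [PowerSeries.coeff_mk]
    exact hmem d d
  · rw [← PowerSeries.coeff_zero_eq_constantCoeff_apply, PowerSeries.coeff_mk,
      PowerSeries.coeff_zero_eq_constantCoeff_apply, hconst]
  · ext1 d
    rw [map_zero]
    have h2 : PowerSeries.X ^ (d + 1) ∣ f.eval θ := by
      have h3 := (hθ d).trans (Polynomial.sub_dvd_eval_sub θ (g d) f)
      have h4 := dvd_add h3 (hdvd d)
      rwa [sub_add_cancel] at h4
    exact PowerSeries.X_pow_dvd_iff.1 h2 d (Nat.lt_succ_self d)

end Pool.Agent.TH189.Kr
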