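import Pool.Agent.TH189.Kr2
import Pool.Agent.TH189.Kr3

/-!
Tuples of roots have the same orbits before and after the reduction.
-/

namespace Pool.Agent.TH189.Kr

open MvPolynomial

section orb

variable {I T : Type} [Fintype I] [DecidableEq I] [Fintype T] [DecidableEq T]

open Classical in
/-- the orbit of a tuple -/
noncomputable def orb (G : Subgroup (Equiv.Perm I)) (t : T → I) : Finset (T → I) :=
  Finset.univ.filter fun u => ∃ π ∈ G, ⇑π ∘ t = u

theorem mem_orb {G : Subgroup (Equiv.Perm I)} {t u : T → I} :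
    u ∈ orb G t ↔ ∃ π ∈ G, ⇑π ∘ t = u := by simp [orb]

theorem self_mem_orb (G : Subgroup (Equiv.Perm I)) (t : T → I) : t ∈ orb G t :=
  mem_orb.2 ⟨1, G.one_mem, rfl⟩

theorem orb_smul {G : Subgroup (Equiv.Perm I)} {t u : T → I} {π : Equiv.Perm I} (hπ : π ∈ G)
    (hu : u ∈ orb G t) : ⇑π ∘ u ∈ orb G t := by
  obtain ⟨σ, hσ, rfl⟩ := mem_orb.1 hu
  exact mem_orb.2 ⟨π * σ, G.mul_mem hπ hσ, rfl⟩

theorem orb_trans {G : Subgroup (Equiv.Perm I)} {t u v : T → I} (hu : u ∈ orb G t)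
    (hv : v ∈ orb G t) : ∃ π ∈ G, ⇑π ∘ u = v := by
  obtain ⟨σ, hσ, rfl⟩ := mem_orb.1 hu
  obtain ⟨τ, hτ, rfl⟩ := mem_orb.1 hv
  refine ⟨τ * σ⁻¹, G.mul_mem hτ (G.inv_mem hσ), ?_⟩
  funext l
  simp

theorem orb_prod {M : Type*} [CommMonoid M] {G : Subgroup (Equiv.Perm I)} (t : T → I)
    {π : Equiv.Perm I} (hπ : π ∈ G) (f : (T → I) → M) :
    ∏ u ∈ orb G t, f (⇑π ∘ u) = ∏ u ∈ orb G t, f u := by
  refine Finset.prod_nbij' (fun u => ⇑π ∘ u) (fun u => ⇑π⁻¹ ∘ u) (fun u hu => orb_smul hπ hu)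
    (fun u hu => orb_smul (G.inv_mem hπ) hu) ?_ ?_ fun u _ => rfl
  · intro u _; funext l; simp
  · intro u _; funext l; simp

end orb

section general

variable {R E I T : Type} [CommRing R] [CommRing E] [Fintype I] [DecidableEq I] [Fintype T]
  [DecidableEq T]

/-- the weighted sum of a tuple of roots -/
noncomputable def Th (ι : R →+* E) (θ : I → E) (a : T → R) (u : T → I) : E :=
  ∑ l, ι (a l) * θ (u l)

/-- the corresponding polynomial -/
noncomputable def Pol (a : T → R) (u : T → I) : MvPolynomial I R := ∑ l, C (a l) * X (u l)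

theorem eval_Pol (ι : R →+* E) (θ : I → E) (a : T → R) (u : T → I) (π : Equiv.Perm I) :
    eval₂ ι (θ ∘ π) (Pol a u) = Th ι θ a (⇑π ∘ u) := by
  unfold Pol Th
  rw [← coe_eval₂Hom, map_sum]
  refine Finset.sum_congr rfl fun l _ => ?_
  rw [map_mul, coe_eval₂Hom, eval₂_C, eval₂_X]
  rfl

theorem eval_Pol_one (ι : R →+* E) (θ : I → E) (a : T → R) (u : T → I) :
    eval₂ ι θ (Pol a u) = Th ι θ a u := eval_Pol ι θ a u 1

/-- invariants lie in the base ring -/
def Fix (ι : R →+* E) (θ : I → E) : Prop :=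
  ∀ p : MvPolynomial I R, (∀ π ∈ relGroup ι θ, eval₂ ι (θ ∘ π) p = eval₂ ι θ p) →
    ∃ r, ι r = eval₂ ι θ p

theorem rel_eval {ι : R →+* E} {θ : I → E} {π : Equiv.Perm I} (hπ : π ∈ relGroup ι θ)
    (q : Polynomial R) (a : T → R) (u : T → I) (h : (q.map ι).eval (Th ι θ a u) = 0) :
    (q.map ι).eval (Th ι θ a (⇑π ∘ u)) = 0 := by
  have key : ∀ f : I → E, eval₂ ι f (q.eval₂ C (Pol a u)) =
      (q.map ι).eval (eval₂ ι f (Pol a u)) := by
    intro f
    rw [← coe_eval₂Hom, Polynomial.hom_eval₂, Polynomial.eval_map]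
    congr 1
    ext r
    simp
  have h1 := hπ (q.eval₂ C (Pol a u)) (by rw [key, eval_Pol_one]; exact h)
  rwa [key, eval_Pol] at h1

theorem Fix.poly {ι : R →+* E} {θ : I → E} (hfix : Fix ι θ) (P : Polynomial (MvPolynomial I R))
    (h : ∀ π ∈ relGroup ι θ, P.map (eval₂Hom ι (θ ∘ π)) = P.map (eval₂Hom ι θ)) :
    ∃ Q : Polynomial R, Q.map ι = P.map (eval₂Hom ι θ) := by
  have h1 : P.map (eval₂Hom ι θ) ∈ Polynomial.lifts ι := by
    rw [Polynomial.lifts_iff_coeff_lifts]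
    intro k
    rw [Polynomial.coeff_map]
    obtain ⟨r, hr⟩ := hfix (P.coeff k) fun π hπ => by
      have h2 := congrArg (fun p => Polynomial.coeff p k) (h π hπ)
      simp only [Polynomial.coeff_map, coe_eval₂Hom] at h2
      exact h2
    exact ⟨r, hr⟩
  obtain ⟨Q, hQ⟩ := (Polynomial.mem_lifts _).1 h1
  exact ⟨Q, hQ⟩

theorem Fix.orbit_poly {ι : R →+* E} {θ : I → E} (hfix : Fix ι θ) (a : T → R) (t : T → I) :
    ∃ Q : Polynomial R, Q.map ι = ∏ u ∈ orb (relGroup ι θ) t,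
      (Polynomial.X - Polynomial.C (Th ι θ a u)) := by
  have key : ∀ π : Equiv.Perm I, (∏ u ∈ orb (relGroup ι θ) t, (Polynomial.X -
      Polynomial.C (Pol a u)) : Polynomial (MvPolynomial I R)).map (eval₂Hom ι (θ ∘ π)) =
      ∏ u ∈ orb (relGroup ι θ) t, (Polynomial.X - Polynomial.C (Th ι θ a (⇑π ∘ u))) := by
    intro π
    rw [Polynomial.map_prod]
    refine Finset.prod_congr rfl fun u _ => ?_
    rw [Polynomial.map_sub, Polynomial.map_X, Polynomial.map_C, coe_eval₂Hom, eval_Pol]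
  obtain ⟨Q, hQ⟩ := hfix.poly (∏ u ∈ orb (relGroup ι θ) t, (Polynomial.X -
      Polynomial.C (Pol a u))) fun π hπ => by
    have h1 := key 1
    have h2 : (θ ∘ (1 : Equiv.Perm I)) = θ := rfl
    rw [h2] at h1
    rw [key π, h1, orb_prod t hπ fun u => Polynomial.X - Polynomial.C (Th ι θ a u)]
    rfl
  exact ⟨Q, hQ.trans (key 1)⟩

theorem Fix.orbit_prod {ι : R →+* E} {θ : I → E} (hfix : Fix ι θ) (a : T → R) (t : T → I)
    (q : Polynomial R) : ∃ r : R, ι r = ∏ u ∈ orb (relGroup ι θ) t,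
      (q.map ι).eval (Th ι θ a u) := by
  have key : ∀ π : Equiv.Perm I, eval₂ ι (θ ∘ π)
      (∏ u ∈ orb (relGroup ι θ) t, q.eval₂ C (Pol a u)) =
      ∏ u ∈ orb (relGroup ι θ) t, (q.map ι).eval (Th ι θ a (⇑π ∘ u)) := by
    intro π
    rw [← coe_eval₂Hom, map_prod]
    refine Finset.prod_congr rfl fun u _ => ?_
    rw [Polynomial.hom_eval₂, coe_eval₂Hom, eval_Pol, Polynomial.eval_map]
    congr 1
    ext r
    simp
  obtain ⟨r, hr⟩ := hfix (∏ u ∈ orb (relGroup ι θ) t, q.eval₂ C (Pol a u)) fun π hπ => by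
    have h1 := key 1
    have h2 : (θ ∘ (1 : Equiv.Perm I)) = θ := rfl
    rw [h2] at h1
    rw [key π, h1, orb_prod t hπ fun u => (q.map ι).eval (Th ι θ a u)]
    rfl
  exact ⟨r, hr.trans (key 1)⟩

end general

/-- generic weights -/
theorem exists_weights {K I T : Type} [Field K] [Infinite K] [Fintype I] [DecidableEq I]
    [Fintype T] [DecidableEq T] (β : I → K) (hβ : Function.Injective β) :
    ∃ a : T → K, Function.Injective fun u : T → I => ∑ l, a l * β (u l) := by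
  classical
  let P : MvPolynomial T K := ∏ q ∈ (Finset.univ : Finset ((T → I) × (T → I))).filter
    (fun q => q.1 ≠ q.2), ∑ l, C (β (q.1 l) - β (q.2 l)) * X l
  have hP : P ≠ 0 := by
    refine Finset.prod_ne_zero_iff.2 fun q hq h0 => ?_
    have hne := (Finset.mem_filter.1 hq).2
    apply hne
    funext l
    apply hβ
    have h1 := congrArg (eval (Pi.single l 1)) h0
    rw [map_sum, map_zero, Finset.sum_eq_single l] at h1
    · simpa [sub_eq_zero] using h1
    · intro j _ hj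
      simp [hj]
    · intro h; exact absurd (Finset.mem_univ l) h
  obtain ⟨a, ha⟩ : ∃ a : T → K, eval a P ≠ 0 := by
    by_contra hcon
    push Not at hcon
    exact hP (MvPolynomial.funext fun a => by rw [hcon a, map_zero])
  refine ⟨a, fun u v huv => ?_⟩
  by_contra hne
  apply ha
  rw [map_prod]
  refine Finset.prod_eq_zero (i := (u, v)) (Finset.mem_filter.2 ⟨Finset.mem_univ _, hne⟩) ?_
  rw [map_sum]
  simp only [map_mul, eval_C, eval_X]
  have h1 : ∑ l, (β (u l) - β (v l)) * a l = ∑ l, a l * β (u l) - ∑ l, a l * β (v l) := by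
    rw [← Finset.sum_sub_distrib]
    exact Finset.sum_congr rfl fun l _ => by ring
  rw [h1]
  exact sub_eq_zero.2 huv

end Pool.Agent.TH189.Kr
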