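import Pool.Agent.TH189.Kr4

/-!
Tuples of roots have the same orbits before and after the reduction.
-/

namespace Pool.Agent.TH189.Kr

open MvPolynomial

/-- A finite set of power series, closed under conjugation, and a reduction which is injective on
polynomials of small degree. -/
structure Data (K : Type) [Field K] (n : ℕ) (D : Type) [CommRing D] (I : Type) [Fintype I]
    [DecidableEq I] where
  /-- the base point -/
  x : Fin n → K
  /-- the roots -/
  θ : I → PowerSeries (MvPolynomial (Fin n) K)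
  /-- the constant terms -/
  β : I → K
  hβ : Function.Injective β
  hconst : ∀ i, PowerSeries.constantCoeff (θ i) = C (β i)
  hH : ∀ i, θ i ∈ Hs K n
  /-- the weight -/
  w : ℕ
  hW : ∀ i, Wt (iota x) w (θ i)
  /-- the polynomial with these roots -/
  Ψ : Polynomial (MvPolynomial (Fin n) K)
  hΨ : Ψ.map (iota x) = ∏ i, (Polynomial.X - Polynomial.C (θ i))
  /-- the reduction -/
  ρ : MvPolynomial (Fin n) K →+* D
  /-- the bound for the degrees -/
  s : ℕ
  /-- the bound for the orbits -/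
  m : ℕ
  hρ : ∀ p, p.totalDegree ≤ s → ρ p = 0 → p = 0
  horb : ∀ i, (orb (relGroup (iota x) θ) (fun _ : Unit => i)).card ≤ m

namespace Data

variable {K : Type} [Field K] {n : ℕ} {D : Type} [CommRing D] {I : Type}
  [Fintype I] [DecidableEq I] (𝒟 : Data K n D I)

/-- the reduction of series -/
noncomputable def red : PowerSeries (MvPolynomial (Fin n) K) →+* PowerSeries D :=
  PowerSeries.map 𝒟.ρ

/-- the reduction of polynomials -/
noncomputable def tau : MvPolynomial (Fin n) K →+* Polynomial D :=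
  (Polynomial.mapRingHom 𝒟.ρ).comp (iotaP 𝒟.x)

/-- polynomials as series -/
noncomputable def jj (D : Type) [CommRing D] : Polynomial D →+* PowerSeries D :=
  Polynomial.coeToPowerSeries.ringHom

theorem jj_injective : Function.Injective (jj D) := Polynomial.coe_injective D

theorem red_iota (p : MvPolynomial (Fin n) K) : 𝒟.red (iota 𝒟.x p) = jj D (𝒟.tau p) := by
  ext d
  rw [red, PowerSeries.coeff_map, iota_apply, Polynomial.coeff_coe]
  show _ = PowerSeries.coeff d ((𝒟.tau p : Polynomial D) : PowerSeries D)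
  rw [Polynomial.coeff_coe, tau, RingHom.comp_apply, Polynomial.coe_mapRingHom,
    Polynomial.coeff_map]

theorem red_const (f : PowerSeries (MvPolynomial (Fin n) K)) :
    PowerSeries.constantCoeff (𝒟.red f) = 𝒟.ρ (PowerSeries.constantCoeff f) := by
  rw [← PowerSeries.coeff_zero_eq_constantCoeff_apply,
    ← PowerSeries.coeff_zero_eq_constantCoeff_apply, red, PowerSeries.coeff_map]

theorem red_comp : 𝒟.red.comp (iota 𝒟.x) = (jj D).comp 𝒟.tau :=
  RingHom.ext fun p => 𝒟.red_iota p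

theorem tau_natDegree (p : MvPolynomial (Fin n) K) : (𝒟.tau p).natDegree ≤ p.totalDegree := by
  rw [tau, RingHom.comp_apply, Polynomial.coe_mapRingHom]
  exact Polynomial.natDegree_map_le.trans (iotaP_natDegree _ _)

theorem tau_C (c : K) : 𝒟.tau (C c) = Polynomial.C (𝒟.ρ (C c)) := by
  rw [tau, RingHom.comp_apply, iotaP_C, Polynomial.coe_mapRingHom, Polynomial.map_C]

/-- the reduced roots -/
noncomputable def θ' (i : I) : PowerSeries D := 𝒟.red (𝒟.θ i)

theorem ρC_injective : Function.Injective fun c : K => 𝒟.ρ (C c) := by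
  intro c d h
  have h1 : 𝒟.ρ (C c - C d) = 0 := by rw [map_sub]; exact sub_eq_zero.2 h
  have h2 := 𝒟.hρ (C c - C d) (by rw [← map_sub, totalDegree_C]; exact Nat.zero_le _) h1
  exact C_injective _ _ (sub_eq_zero.1 h2)

/-- polynomials of small degree are determined by their reductions -/
theorem red_zero {q : MvPolynomial (Fin n) K} (hq : q.totalDegree ≤ 𝒟.s)
    (h : 𝒟.red (iota 𝒟.x q) = 0) : q = 0 := by
  apply iotaP_injective 𝒟.x
  rw [map_zero]
  have h1 : 𝒟.tau q = 0 := by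
    apply jj_injective
    rw [← 𝒟.red_iota, h, map_zero]
  ext1 d
  rw [Polynomial.coeff_zero]
  by_cases hd : d ≤ 𝒟.s
  · have h2 := congrArg (fun p => Polynomial.coeff p d) h1
    simp only [tau, RingHom.comp_apply, Polynomial.coe_mapRingHom, Polynomial.coeff_map,
      Polynomial.coeff_zero] at h2
    exact 𝒟.hρ _ (((iotaP_hom 𝒟.x q d).totalDegree_le).trans hd) h2
  · refine Polynomial.coeff_eq_zero_of_natDegree_lt ?_
    have := iotaP_natDegree 𝒟.x q
    omega

/-- the Galois group -/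
noncomputable abbrev Γ : Subgroup (Equiv.Perm I) := relGroup (iota 𝒟.x) 𝒟.θ

/-- the Galois group after the reduction -/
noncomputable abbrev H : Subgroup (Equiv.Perm I) := relGroup (jj D) 𝒟.θ'

theorem θ_injective : Function.Injective 𝒟.θ := by
  intro i j h
  apply 𝒟.hβ
  apply C_injective (Fin n) K
  rw [← 𝒟.hconst, ← 𝒟.hconst, h]

theorem θ'_injective : Function.Injective 𝒟.θ' := by
  intro i j h
  apply 𝒟.hβ
  apply 𝒟.ρC_injective
  have h1 := congrArg PowerSeries.constantCoeff h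
  rw [θ', θ', 𝒟.red_const, 𝒟.red_const, 𝒟.hconst, 𝒟.hconst] at h1
  exact h1

theorem fixΓ [CharZero K] : Fix (iota 𝒟.x) 𝒟.θ := fun p hp =>
  relGroup_fixed (iota 𝒟.x) (iota_injective 𝒟.x) 𝒟.θ 𝒟.θ_injective 𝒟.Ψ 𝒟.hΨ p hp

theorem Ψ' : (𝒟.Ψ.map 𝒟.tau).map (jj D) = ∏ i, (Polynomial.X - Polynomial.C (𝒟.θ' i)) := by
  rw [Polynomial.map_map, ← 𝒟.red_comp, ← Polynomial.map_map, 𝒟.hΨ, Polynomial.map_prod]
  refine Finset.prod_congr rfl fun i _ => ?_
  rw [Polynomial.map_sub, Polynomial.map_X, Polynomial.map_C]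
  rfl

theorem fixH [IsDomain D] [CharZero D] [IsIntegrallyClosed (Polynomial D)] :
    Fix (jj D) 𝒟.θ' := fun p hp =>
  relGroup_fixed (jj D) jj_injective 𝒟.θ' 𝒟.θ'_injective (𝒟.Ψ.map 𝒟.tau) 𝒟.Ψ' p hp

section tuples

variable {T : Type} [Fintype T] [DecidableEq T]

/-- the weighted sum -/
noncomputable def Θ (a : T → K) (u : T → I) : PowerSeries (MvPolynomial (Fin n) K) :=
  Th (iota 𝒟.x) 𝒟.θ (fun l => C (a l)) u

/-- the reduced weighted sum -/
noncomputable def Θ' (a : T → K) (u : T → I) : PowerSeries D :=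
  Th (jj D) 𝒟.θ' (fun l => 𝒟.tau (C (a l))) u

theorem red_Θ (a : T → K) (u : T → I) : 𝒟.red (𝒟.Θ a u) = 𝒟.Θ' a u := by
  unfold Θ Θ' Th
  rw [map_sum]
  refine Finset.sum_congr rfl fun l _ => ?_
  rw [map_mul, 𝒟.red_iota]
  rfl

theorem Θ_const (a : T → K) (u : T → I) :
    PowerSeries.constantCoeff (𝒟.Θ a u) = C (∑ l, a l * 𝒟.β (u l)) := by
  unfold Θ Th
  rw [map_sum, map_sum]
  refine Finset.sum_congr rfl fun l _ => ?_
  rw [map_mul, iota_const, eval_C, 𝒟.hconst, map_mul]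

theorem Θ_inj {a : T → K} (ha : Function.Injective fun u : T → I => ∑ l, a l * 𝒟.β (u l)) :
    Function.Injective (𝒟.Θ a) := by
  intro u v h
  apply ha
  apply C_injective (Fin n) K
  show C (∑ l, a l * 𝒟.β (u l)) = C (∑ l, a l * 𝒟.β (v l))
  rw [← 𝒟.Θ_const, ← 𝒟.Θ_const, h]

theorem Θ'_inj {a : T → K} (ha : Function.Injective fun u : T → I => ∑ l, a l * 𝒟.β (u l)) :
    Function.Injective (𝒟.Θ' a) := by
  intro u v h
  apply ha
  apply 𝒟.ρC_injective
  show 𝒟.ρ (C (∑ l, a l * 𝒟.β (u l))) = 𝒟.ρ (C (∑ l, a l * 𝒟.β (v l)))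
  rw [← 𝒟.Θ_const, ← 𝒟.Θ_const, ← 𝒟.red_const, ← 𝒟.red_const]
  exact congrArg PowerSeries.constantCoeff ((𝒟.red_Θ a u).trans (h.trans (𝒟.red_Θ a v).symm))

theorem Θ_Wt (a : T → K) (u : T → I) : Wt (iota 𝒟.x) 𝒟.w (𝒟.Θ a u) := by
  refine Wt.sum _ _ 𝒟.w fun l _ => ?_
  have h1 := (Wt.const (ι := iota 𝒟.x) (k := 0) (a l)).mul (𝒟.hW (u l))
  rwa [Nat.zero_add] at h1

theorem Θ_mem (a : T → K) (u : T → I) : 𝒟.Θ a u ∈ Hs K n :=
  sum_mem fun l _ => mul_mem (iota_mem _ _) (𝒟.hH _)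

theorem orb_card_le (t : T → I) : (orb 𝒟.Γ t).card ≤ 𝒟.m ^ Fintype.card T := by
  classical
  let B : T → Finset I := fun l => (orb 𝒟.Γ (fun _ : Unit => t l)).image fun u => u ()
  have h1 : orb 𝒟.Γ t ⊆ Fintype.piFinset B := by
    intro u hu
    obtain ⟨π, hπ, rfl⟩ := mem_orb.1 hu
    rw [Fintype.mem_piFinset]
    intro l
    exact Finset.mem_image.2 ⟨⇑π ∘ fun _ : Unit => t l, mem_orb.2 ⟨π, hπ, rfl⟩, rfl⟩
  refine (Finset.card_le_card h1).trans ?_
  rw [Fintype.card_piFinset, ← Finset.card_univ, ← Finset.prod_const]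
  exact Finset.prod_le_prod' fun l _ => Finset.card_image_le.trans (𝒟.horb _)

/-- conjugate tuples after the reduction are conjugate before the reduction -/
theorem B1 [CharZero K] [IsDomain D] (t : T → I) {π : Equiv.Perm I} (hπ : π ∈ 𝒟.H) :
    ⇑π ∘ t ∈ orb 𝒟.Γ t := by
  haveI : Infinite K := CharZero.infinite K
  obtain ⟨a, ha⟩ := exists_weights (T := T) 𝒟.β 𝒟.hβ
  obtain ⟨Q, hQ⟩ := 𝒟.fixΓ.orbit_poly (fun l => C (a l)) t
  have hQ' : (Q.map 𝒟.tau).map (jj D) = ∏ u ∈ orb 𝒟.Γ t,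
      (Polynomial.X - Polynomial.C (𝒟.Θ' a u)) := by
    rw [Polynomial.map_map, ← 𝒟.red_comp, ← Polynomial.map_map, hQ, Polynomial.map_prod]
    refine Finset.prod_congr rfl fun u _ => ?_
    rw [Polynomial.map_sub, Polynomial.map_X, Polynomial.map_C, ← 𝒟.red_Θ]
    rfl
  have h1 := rel_eval hπ (Q.map 𝒟.tau) (fun l => 𝒟.tau (C (a l))) t (by
    rw [hQ', Polynomial.eval_prod]
    exact Finset.prod_eq_zero (self_mem_orb _ t) (by
      rw [Polynomial.eval_sub, Polynomial.eval_X, Polynomial.eval_C]; exact sub_self _))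
  rw [hQ', Polynomial.eval_prod, Finset.prod_eq_zero_iff] at h1
  obtain ⟨u, hu, h2⟩ := h1
  rw [Polynomial.eval_sub, Polynomial.eval_X, Polynomial.eval_C, sub_eq_zero] at h2
  have h3 : ⇑π ∘ t = u := 𝒟.Θ'_inj ha h2
  rw [h3]
  exact hu

/-- an element of small weight with polynomial reduction has the same reduction as a
polynomial -/
theorem exists_poly [IsDomain D] {e : PowerSeries (MvPolynomial (Fin n) K)} (he : e ∈ Hs K n)
    {k : ℕ} (hk : Wt (iota 𝒟.x) k e) {Q : Polynomial D} (hQ : 𝒟.red e = jj D Q) :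
    ∃ q : MvPolynomial (Fin n) K, q.totalDegree ≤ k ∧ 𝒟.red (iota 𝒟.x q) = 𝒟.red e := by
  have h1 : Q.natDegree ≤ k := Wt.natDegree_le 𝒟.tau 𝒟.tau_natDegree 𝒟.red (jj D) jj_injective
    𝒟.red_iota hk Q hQ
  obtain ⟨q, hq1, hq2⟩ := exists_trunc 𝒟.x e he k
  refine ⟨q, hq1, ?_⟩
  ext d
  rw [red, PowerSeries.coeff_map, PowerSeries.coeff_map, hq2]
  split_ifs with h
  · rfl
  · have h3 : PowerSeries.coeff d (𝒟.red e) = 0 := by
      rw [hQ]
      show PowerSeries.coeff d (Q : PowerSeries D) = 0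
      rw [Polynomial.coeff_coe]
      exact Polynomial.coeff_eq_zero_of_natDegree_lt (by omega)
    rw [red, PowerSeries.coeff_map] at h3
    rw [map_zero, h3]

/-- conjugate tuples before the reduction are conjugate after the reduction -/
theorem B2 [CharZero K] [IsDomain D] [CharZero D] [IsIntegrallyClosed (Polynomial D)]
    (hs : 𝒟.w * (2 * 𝒟.m ^ (2 * Fintype.card T)) ≤ 𝒟.s) (t : T → I) {π : Equiv.Perm I} (hπ : π ∈ 𝒟.Γ) :
    ⇑π ∘ t ∈ orb 𝒟.H t := by
  classical
  haveI : Infinite K := CharZero.infinite K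
  obtain ⟨a, ha⟩ := exists_weights (T := T) 𝒟.β 𝒟.hβ
  have hsub : orb 𝒟.H t ⊆ orb 𝒟.Γ t := by
    intro u hu
    obtain ⟨σ, hσ, rfl⟩ := mem_orb.1 hu
    exact 𝒟.B1 t hσ
  set O := orb 𝒟.Γ t with hO
  set O' := orb 𝒟.H t with hO'
  set r := O'.card with hr
  have hOr : r ≤ O.card := Finset.card_le_card hsub
  have hOm : O.card ≤ 𝒟.m ^ Fintype.card T := 𝒟.orb_card_le t
  -- the product over the smaller orbit
  set P : Polynomial (PowerSeries (MvPolynomial (Fin n) K)) :=
    ∏ u ∈ O', (Polynomial.X - Polynomial.C (𝒟.Θ a u)) with hP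
  have hPred : P.map 𝒟.red = ∏ u ∈ O', (Polynomial.X - Polynomial.C (𝒟.Θ' a u)) := by
    rw [hP, Polynomial.map_prod]
    refine Finset.prod_congr rfl fun u _ => ?_
    rw [Polynomial.map_sub, Polynomial.map_X, Polynomial.map_C, 𝒟.red_Θ]
  obtain ⟨Q, hQ⟩ := 𝒟.fixH.orbit_poly (fun l => 𝒟.tau (C (a l))) t
  have hQ2 : Q.map (jj D) = P.map 𝒟.red := hQ.trans hPred.symm
  have hPm : P.Monic := Polynomial.monic_prod_of_monic _ _ fun u _ => Polynomial.monic_X_sub_C _
  have hPd : P.natDegree = r := by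
    rw [hP, Polynomial.natDegree_prod_of_monic _ _ fun u _ => Polynomial.monic_X_sub_C _]
    simp only [Polynomial.natDegree_X_sub_C, Finset.sum_const, smul_eq_mul, mul_one]
    exact hr.symm
  have hPc : ∀ k, P.coeff k ∈ Hs K n ∧ Wt (iota 𝒟.x) (r * 𝒟.w) (P.coeff k) := by
    have h1 : ∀ S : Finset (T → I), ∀ k,
        (∏ u ∈ S, (Polynomial.X - Polynomial.C (𝒟.Θ a u))).coeff k ∈ Hs K n ∧
        Wt (iota 𝒟.x) (S.card * 𝒟.w)
          ((∏ u ∈ S, (Polynomial.X - Polynomial.C (𝒟.Θ a u))).coeff k) := by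
      intro S
      induction S using Finset.induction_on with
      | empty =>
        intro k
        rw [Finset.prod_empty, Polynomial.coeff_one]
        split_ifs
        · exact ⟨one_mem _, Wt.one⟩
        · exact ⟨zero_mem _, Wt.zero⟩
      | insert u S hu ih =>
        intro k
        rw [Finset.prod_insert hu, Finset.card_insert_of_notMem hu, sub_mul, Polynomial.coeff_sub,
          Polynomial.coeff_C_mul]
        have h2 := ih k
        have h3 : (Polynomial.X * ∏ u ∈ S, (Polynomial.X - Polynomial.C (𝒟.Θ a u))).coeff k ∈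
            Hs K n ∧ Wt (iota 𝒟.x) (S.card * 𝒟.w)
            ((Polynomial.X * ∏ u ∈ S, (Polynomial.X - Polynomial.C (𝒟.Θ a u))).coeff k) := by
          rcases k with _ | k
          · rw [Polynomial.mul_coeff_zero, Polynomial.coeff_X_zero, zero_mul]
            exact ⟨zero_mem _, Wt.zero⟩
          · rw [Polynomial.coeff_X_mul]; exact ih k
        refine ⟨sub_mem h3.1 (mul_mem (𝒟.Θ_mem a u) h2.1), ?_⟩
        have h4 := (𝒟.Θ_Wt a u).mul h2.2
        rw [Nat.add_comm, ← Nat.succ_mul] at h4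
        exact (h3.2.mono (Nat.mul_le_mul_right _ (Nat.le_succ _))).sub h4
    exact h1 O'
  choose q hq1 hq2 using fun k => 𝒟.exists_poly (hPc k).1 (hPc k).2
    (Q := Q.coeff k) (by
      have h2 := congrArg (fun p => Polynomial.coeff p k) hQ2
      simp only [Polynomial.coeff_map] at h2
      exact h2.symm)
  let q' : Polynomial (MvPolynomial (Fin n) K) :=
    Polynomial.X ^ r + ∑ k ∈ Finset.range r, Polynomial.C (q k) * Polynomial.X ^ k
  have hq'c : ∀ k, (q'.map (iota 𝒟.x)).coeff k =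
      (if k = r then 1 else 0) + if k < r then iota 𝒟.x (q k) else 0 := by
    intro k
    rw [Polynomial.coeff_map]
    simp only [q', Polynomial.coeff_add, Polynomial.finsetSum_coeff, Polynomial.coeff_X_pow,
      Polynomial.coeff_C_mul_X_pow, map_add, map_sum]
    congr 1
    · split_ifs <;> simp
    · rw [Finset.sum_congr rfl (g := fun j => if k = j then iota 𝒟.x (q j) else 0)
        (fun j _ => by split_ifs <;> simp), Finset.sum_ite_eq]
      simp only [Finset.mem_range]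
  have hqred : (q'.map (iota 𝒟.x)).map 𝒟.red = P.map 𝒟.red := by
    ext1 k
    rw [Polynomial.coeff_map, hq'c, Polynomial.coeff_map]
    rcases lt_trichotomy k r with h | h | h
    · rw [if_neg h.ne, if_pos h, zero_add, hq2]
    · rw [if_pos h, if_neg (by omega), add_zero, h, ← hPd]
      have : P.coeff P.natDegree = 1 := hPm
      rw [this]
    · rw [if_neg h.ne', if_neg (by omega), add_zero,
        Polynomial.coeff_eq_zero_of_natDegree_lt (by omega)]
  have hq'm : q'.Monic := by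
    refine Polynomial.monic_X_pow_add ?_
    rw [Polynomial.degree_lt_iff_coeff_zero]
    intro k hk
    rw [Polynomial.finsetSum_coeff]
    refine Finset.sum_eq_zero fun j hj => ?_
    have := Finset.mem_range.1 hj
    rw [Polynomial.coeff_C_mul_X_pow, if_neg (by omega)]
  have hq'd : q'.natDegree ≤ r := by
    refine (Polynomial.natDegree_add_le _ _).trans (max_le ?_ ?_)
    · exact Polynomial.natDegree_X_pow_le _
    · refine Polynomial.natDegree_sum_le_of_forall_le _ _ fun k hk => ?_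
      exact (Polynomial.natDegree_C_mul_X_pow_le _ _).trans (Finset.mem_range.1 hk).le
  have hWt : ∀ u, Wt (iota 𝒟.x) (2 * (r * 𝒟.w)) ((q'.map (iota 𝒟.x)).eval (𝒟.Θ a u)) := by
    intro u
    have h1 : (q'.map (iota 𝒟.x)).eval (𝒟.Θ a u) = 𝒟.Θ a u ^ r +
        ∑ k ∈ Finset.range r, iota 𝒟.x (q k) * 𝒟.Θ a u ^ k := by
      simp [q', Polynomial.eval_finsetSum, Polynomial.map_sum]
    rw [h1]
    have h2 : ∀ k ≤ r, Wt (iota 𝒟.x) (r * 𝒟.w) (𝒟.Θ a u ^ k) := fun k hk => by
      have := (𝒟.Θ_Wt a u).pow k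
      exact this.mono (Nat.mul_le_mul_right _ hk)
    refine (Wt.mono (by omega) (h2 r le_rfl)).add (Wt.sum _ _ _ fun k hk => ?_)
    have h3 := (Wt.poly (ι := iota 𝒟.x) (hq1 k)).mul (h2 k (Finset.mem_range.1 hk).le)
    exact h3.mono (by omega)
  obtain ⟨N, hN⟩ := 𝒟.fixΓ.orbit_prod (fun l => C (a l)) t q'
  have hNdeg : N.totalDegree ≤ 𝒟.s := by
    have h1 : Wt (iota 𝒟.x) (O.card * (2 * (r * 𝒟.w))) (iota 𝒟.x N) := by
      rw [hN]
      exact Wt.prod _ _ _ fun u _ => hWt u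
    refine (Wt.totalDegree_le (iota_injective 𝒟.x) h1).trans (le_trans ?_ hs)
    calc O.card * (2 * (r * 𝒟.w)) ≤
        𝒟.m ^ Fintype.card T * (2 * (𝒟.m ^ Fintype.card T * 𝒟.w)) :=
          Nat.mul_le_mul hOm (Nat.mul_le_mul_left _ (Nat.mul_le_mul_right _ (hOr.trans hOm)))
      _ = 𝒟.w * (2 * 𝒟.m ^ (2 * Fintype.card T)) := by
          rw [two_mul (Fintype.card T), pow_add]; ring
  have hN0 : N = 0 := by
    refine 𝒟.red_zero hNdeg ?_
    rw [hN, map_prod]
    refine Finset.prod_eq_zero (self_mem_orb _ t) ?_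
    have h1 : 𝒟.red ((q'.map (iota 𝒟.x)).eval (𝒟.Θ a t)) =
        ((q'.map (iota 𝒟.x)).map 𝒟.red).eval (𝒟.Θ' a t) := by
      rw [← Polynomial.eval_map_apply, 𝒟.red_Θ]
    refine h1.trans ?_
    rw [hqred, hPred, Polynomial.eval_prod]
    refine Finset.prod_eq_zero (self_mem_orb _ t) ?_
    rw [Polynomial.eval_sub, Polynomial.eval_X, Polynomial.eval_C, sub_self]
  rw [hN0, map_zero] at hN
  obtain ⟨u, hu, hu0⟩ := Finset.prod_eq_zero_iff.1 hN.symm
  have hall : ∀ v ∈ O, (q'.map (iota 𝒟.x)).eval (𝒟.Θ a v) = 0 := by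
    intro v hv
    obtain ⟨σ, hσ, rfl⟩ := orb_trans hu hv
    exact rel_eval hσ q' (fun l => C (a l)) u hu0
  have hcard : O.card ≤ r := by
    have h1 : (O.image (𝒟.Θ a)).card = O.card :=
      Finset.card_image_of_injective _ (𝒟.Θ_inj ha)
    rw [← h1]
    have hne : q'.map (iota 𝒟.x) ≠ 0 := (hq'm.map _).ne_zero
    have h2 : O.image (𝒟.Θ a) ⊆ (q'.map (iota 𝒟.x)).roots.toFinset := by
      intro w hw
      obtain ⟨v, hv, rfl⟩ := Finset.mem_image.1 hw
      rw [Multiset.mem_toFinset, Polynomial.mem_roots hne]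
      exact hall v hv
    calc (O.image (𝒟.Θ a)).card ≤ _ := Finset.card_le_card h2
      _ ≤ _ := Multiset.toFinset_card_le _
      _ ≤ _ := Polynomial.card_roots' _
      _ ≤ _ := Polynomial.natDegree_map_le.trans hq'd
  have hOO : O' = O := Finset.eq_of_subset_of_card_le hsub hcard
  rw [hOO]
  exact mem_orb.2 ⟨π, hπ, rfl⟩

end tuples

end Data

end Pool.Agent.TH189.Kr
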