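import Pool.Agent.TH189.Kr5

/-!
Combinations of the roots with constant coefficients which vanish after the reduction vanish.
-/

namespace Pool.Agent.TH189.Kr

open MvPolynomial

section avg

variable {I : Type} [Fintype I] [DecidableEq I]

open Classical in
/-- the elements of a group of permutations -/
noncomputable def els (N : Subgroup (Equiv.Perm I)) : Finset (Equiv.Perm I) :=
  Finset.univ.filter fun g => g ∈ N

theorem mem_els {N : Subgroup (Equiv.Perm I)} {g : Equiv.Perm I} : g ∈ els N ↔ g ∈ N := by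
  simp [els]

theorem els_pos (N : Subgroup (Equiv.Perm I)) : 0 < (els N).card :=
  Finset.card_pos.2 ⟨1, mem_els.2 N.one_mem⟩

/-- the averaged projection onto a stable subspace -/
theorem avg_proj {K : Type} [Field K] [CharZero K] (N : Subgroup (Equiv.Perm I))
    (V : Submodule K (I → K)) (hV : ∀ c ∈ V, ∀ h ∈ N, c ∘ ⇑h ∈ V) :
    ∃ P : (I → K) →ₗ[K] (I → K), (∀ c, P c ∈ V) ∧ (∀ c ∈ V, P c = ((els N).card : K) • c) ∧
      ∀ c, ∀ h ∈ N, P (c ∘ ⇑h) = P c ∘ ⇑h := by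
  classical
  obtain ⟨g0, hg0⟩ := LinearMap.exists_leftInverse_of_injective V.subtype V.ker_subtype
  let π0 : (I → K) →ₗ[K] (I → K) := V.subtype ∘ₗ g0
  have hπ1 : ∀ z ∈ V, π0 z = z := fun z hz =>
    congrArg Subtype.val (LinearMap.congr_fun hg0 ⟨z, hz⟩)
  have hπ2 : ∀ c, π0 c ∈ V := fun c => (g0 c).2
  let P : (I → K) →ₗ[K] (I → K) :=
    ∑ h ∈ els N, (LinearMap.funLeft K K ⇑h) ∘ₗ π0 ∘ₗ (LinearMap.funLeft K K ⇑h⁻¹)
  have hP : ∀ c, P c = ∑ h ∈ els N, (π0 (c ∘ ⇑h⁻¹)) ∘ ⇑h := by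
    intro c
    simp only [P, LinearMap.sum_apply, LinearMap.comp_apply]
    rfl
  refine ⟨P, fun c => ?_, fun z hz => ?_, fun c h0 hh0 => ?_⟩
  · rw [hP]
    exact Submodule.sum_mem _ fun h hh => hV _ (hπ2 _) _ (mem_els.1 hh)
  · have h1 : ∀ h ∈ els N, (π0 (z ∘ ⇑h⁻¹)) ∘ ⇑h = z := by
      intro h hh
      rw [hπ1 _ (hV _ hz _ (N.inv_mem (mem_els.1 hh)))]
      funext i
      simp
    rw [hP, Finset.sum_congr rfl h1, Finset.sum_const, Nat.cast_smul_eq_nsmul]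
  · funext i
    rw [hP, hP, Function.comp_apply, Finset.sum_apply, Finset.sum_apply]
    refine Finset.sum_nbij' (fun h => h * h0⁻¹) (fun h => h * h0)
      (fun h hh => mem_els.2 (N.mul_mem (mem_els.1 hh) (N.inv_mem hh0)))
      (fun h hh => mem_els.2 (N.mul_mem (mem_els.1 hh) hh0)) (fun h _ => by simp)
      (fun h _ => by simp) fun h _ => ?_
    have h1 : (c ∘ ⇑h0) ∘ ⇑h⁻¹ = c ∘ ⇑(h * h0⁻¹)⁻¹ := by
      funext j
      simp
    rw [h1]
    simp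

/-- a subspace which is stable under a group is stable under every group with the same orbits of
pairs -/
theorem stable_of_pairs {K : Type} [Field K] [CharZero K] (N G : Subgroup (Equiv.Perm I))
    (hNG : ∀ g ∈ G, ∀ i j, ∃ h ∈ N, h i = g i ∧ h j = g j) (V : Submodule K (I → K))
    (hV : ∀ c ∈ V, ∀ h ∈ N, c ∘ ⇑h ∈ V) : ∀ c ∈ V, ∀ g ∈ G, c ∘ ⇑g ∈ V := by
  classical
  obtain ⟨P, hP1, hP2, hP3⟩ := avg_proj N V hV
  -- the matrix of the projection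
  have hexp : ∀ c i, P c i = ∑ j, c j * P (Pi.single j 1) i := by
    intro c i
    conv_lhs => rw [pi_eq_sum_univ' c]
    rw [map_sum, Finset.sum_apply]
    refine Finset.sum_congr rfl fun j _ => ?_
    rw [map_smul, Pi.smul_apply, smul_eq_mul]
  have hN : ∀ h ∈ N, ∀ i j, P (Pi.single (h j) 1) (h i) = P (Pi.single j 1) i := by
    intro h hh i j
    have h1 : (Pi.single (h j) (1 : K) : I → K) ∘ ⇑h = Pi.single j 1 := by
      funext k
      rw [Function.comp_apply, Pi.single_apply, Pi.single_apply]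
      simp only [EmbeddingLike.apply_eq_iff_eq]
    have h2 := congrFun (hP3 (Pi.single (h j) 1) h hh) i
    rw [h1] at h2
    exact h2.symm
  have hG : ∀ g ∈ G, ∀ i j, P (Pi.single (g j) 1) (g i) = P (Pi.single j 1) i := by
    intro g hg i j
    obtain ⟨h, hh, h1, h2⟩ := hNG g hg i j
    rw [← h1, ← h2]
    exact hN h hh i j
  intro c hc g hg
  have h1 : P (c ∘ ⇑g) = ((els N).card : K) • (c ∘ ⇑g) := by
    funext i
    have h2 : P (c ∘ ⇑g) i = P c (g i) := by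
      rw [hexp, hexp]
      refine Fintype.sum_equiv g _ _ fun j => ?_
      rw [hG g hg]
      rfl
    rw [h2, hP2 c hc]
    rfl
  have h3 : ((els N).card : K) ≠ 0 := by exact_mod_cast (els_pos N).ne'
  have h4 := V.smul_mem ((els N).card : K)⁻¹ (hP1 (c ∘ ⇑g))
  rwa [h1, smul_smul, inv_mul_cancel₀ h3, one_smul] at h4

end avg

namespace Data

variable {K : Type} [Field K] [CharZero K] {n : ℕ} {D : Type} [CommRing D] {I : Type}
  [Fintype I] [DecidableEq I] (𝒟 : Data K n D I)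

/-- the combination with the given coefficients -/
noncomputable def phi (c : I → K) : PowerSeries (MvPolynomial (Fin n) K) :=
  ∑ i, iota 𝒟.x (C (c i)) * 𝒟.θ i

/-- the corresponding polynomial -/
noncomputable def pol (c : I → K) : MvPolynomial I (MvPolynomial (Fin n) K) :=
  ∑ i, C (C (c i)) * X i

theorem eval_pol (c : I → K) (π : Equiv.Perm I) :
    eval₂ (iota 𝒟.x) (𝒟.θ ∘ π) (pol (n := n) (K := K) c) = 𝒟.phi (c ∘ ⇑π⁻¹) := by
  unfold pol phi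
  rw [← coe_eval₂Hom, map_sum]
  refine Fintype.sum_equiv π _ _ fun i => ?_
  rw [map_mul, coe_eval₂Hom, eval₂_C, eval₂_X]
  simp

theorem eval_pol_one (c : I → K) :
    eval₂ (iota 𝒟.x) 𝒟.θ (pol (n := n) (K := K) c) = 𝒟.phi c := by
  have := 𝒟.eval_pol c 1
  rwa [inv_one] at this

theorem phi_add (c d : I → K) : 𝒟.phi (c + d) = 𝒟.phi c + 𝒟.phi d := by
  unfold phi
  rw [← Finset.sum_add_distrib]
  refine Finset.sum_congr rfl fun i _ => ?_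
  rw [Pi.add_apply, map_add, map_add, add_mul]

theorem phi_smul (r : K) (c : I → K) : 𝒟.phi (r • c) = iota 𝒟.x (C r) * 𝒟.phi c := by
  unfold phi
  rw [Finset.mul_sum]
  refine Finset.sum_congr rfl fun i _ => ?_
  rw [Pi.smul_apply, smul_eq_mul, map_mul, map_mul, mul_assoc]

/-- the relations -/
noncomputable def Z : Submodule K (I → K) where
  carrier := {c | 𝒟.phi c = 0}
  zero_mem' := by
    show 𝒟.phi 0 = 0
    unfold phi
    refine Finset.sum_eq_zero fun i _ => ?_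
    rw [Pi.zero_apply, map_zero, map_zero, zero_mul]
  add_mem' := by
    intro c d hc hd
    show 𝒟.phi (c + d) = 0
    rw [phi_add, show 𝒟.phi c = 0 from hc, show 𝒟.phi d = 0 from hd, add_zero]
  smul_mem' := by
    intro r c hc
    show 𝒟.phi (r • c) = 0
    rw [phi_smul, show 𝒟.phi c = 0 from hc, mul_zero]

theorem Z_stable {c : I → K} (hc : c ∈ 𝒟.Z) {g : Equiv.Perm I} (hg : g ∈ 𝒟.Γ) :
    c ∘ ⇑g ∈ 𝒟.Z := by
  have h1 := 𝒟.Γ.inv_mem hg (pol c) (by rw [eval_pol_one]; exact hc)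
  rw [eval_pol, inv_inv] at h1
  exact h1

theorem Wt_phi (c : I → K) : Wt (iota 𝒟.x) 𝒟.w (𝒟.phi c) := by
  refine Wt.sum _ _ 𝒟.w fun l _ => ?_
  have h1 := (Wt.const (ι := iota 𝒟.x) (k := 0) (c l)).mul (𝒟.hW l)
  rwa [Nat.zero_add] at h1

theorem red_phi_stable {c : I → K} (hc : 𝒟.red (𝒟.phi c) = 0) {h : Equiv.Perm I}
    (hh : h ∈ 𝒟.H) : 𝒟.red (𝒟.phi (c ∘ ⇑h)) = 0 := by
  have key : ∀ π : Equiv.Perm I, eval₂ (jj D) (𝒟.θ' ∘ π)
      (∑ i, C (𝒟.tau (C (c i))) * X i) = 𝒟.red (𝒟.phi (c ∘ ⇑π⁻¹)) := by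
    intro π
    unfold phi
    rw [← coe_eval₂Hom, map_sum, map_sum]
    refine Fintype.sum_equiv π _ _ fun i => ?_
    rw [map_mul, coe_eval₂Hom, eval₂_C, eval₂_X, map_mul, red_iota]
    simp [θ']
  have h1 := 𝒟.H.inv_mem hh (∑ i, C (𝒟.tau (C (c i))) * X i) (by
    have := key 1
    rw [inv_one] at this
    exact this.trans hc)
  rw [key, inv_inv] at h1
  exact h1

/-- the block of a root -/
noncomputable def Bk (i : I) : Finset I := (orb 𝒟.Γ (fun _ : Unit => i)).image fun u => u ()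

theorem mem_Bk {i j : I} : j ∈ 𝒟.Bk i ↔ ∃ π ∈ 𝒟.Γ, π i = j := by
  unfold Bk
  rw [Finset.mem_image]
  constructor
  · rintro ⟨u, hu, rfl⟩
    obtain ⟨π, hπ, rfl⟩ := mem_orb.1 hu
    exact ⟨π, hπ, rfl⟩
  · rintro ⟨π, hπ, rfl⟩
    exact ⟨⇑π ∘ fun _ => i, mem_orb.2 ⟨π, hπ, rfl⟩, rfl⟩

theorem card_Bk (i : I) : (𝒟.Bk i).card ≤ 𝒟.m := Finset.card_image_le.trans (𝒟.horb i)

/-- the pointwise stabiliser of a set -/
def stab (G : Subgroup (Equiv.Perm I)) (B : Finset I) : Subgroup (Equiv.Perm I) where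
  carrier := {g | g ∈ G ∧ ∀ j ∈ B, g j = j}
  one_mem' := ⟨G.one_mem, fun _ _ => rfl⟩
  mul_mem' := by
    rintro a b ⟨ha, ha'⟩ ⟨hb, hb'⟩
    refine ⟨G.mul_mem ha hb, fun j hj => ?_⟩
    rw [Equiv.Perm.mul_apply, hb' j hj, ha' j hj]
  inv_mem' := by
    rintro a ⟨ha, ha'⟩
    refine ⟨G.inv_mem ha, fun j hj => ?_⟩
    rw [Equiv.Perm.inv_eq_iff_eq, ha' j hj]

theorem mem_stab {G : Subgroup (Equiv.Perm I)} {B : Finset I} {g : Equiv.Perm I} :
    g ∈ stab G B ↔ g ∈ G ∧ ∀ j ∈ B, g j = j := Iff.rfl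

/-- combinations fixed by the stabiliser of a block -/
theorem norm_arg [IsDomain D] (B : Finset I) (hB : 𝒟.m ^ B.card * 𝒟.w ≤ 𝒟.s) (v : I → K)
    (hv : ∀ g ∈ stab 𝒟.Γ B, ∀ i, v (g i) = v i) (hred : 𝒟.red (𝒟.phi v) = 0) :
    v ∈ 𝒟.Z := by
  classical
  let t : B → I := fun j => j
  have hex : ∀ u : B → I, ∃ g : Equiv.Perm I, u ∈ orb 𝒟.Γ t → g ∈ 𝒟.Γ ∧ ⇑g ∘ t = u := by
    intro u
    by_cases hu : u ∈ orb 𝒟.Γ t
    · obtain ⟨g, hg⟩ := mem_orb.1 hu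
      exact ⟨g, fun _ => hg⟩
    · exact ⟨1, fun h => absurd h hu⟩
  choose g hg using hex
  have hwell : ∀ u ∈ orb 𝒟.Γ t, ∀ h ∈ 𝒟.Γ, ⇑h ∘ t = u → v ∘ ⇑h⁻¹ = v ∘ ⇑(g u)⁻¹ := by
    intro u hu h hh he
    obtain ⟨hg1, hg2⟩ := hg u hu
    funext i
    have hn : h⁻¹ * g u ∈ stab 𝒟.Γ B := by
      refine ⟨𝒟.Γ.mul_mem (𝒟.Γ.inv_mem hh) hg1, fun j hj => ?_⟩
      have h1 : (g u) j = h j := (congrFun hg2 ⟨j, hj⟩).trans (congrFun he ⟨j, hj⟩).symm
      rw [Equiv.Perm.mul_apply, h1]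
      simp
    have h2 := hv _ hn ((g u)⁻¹ i)
    rw [Equiv.Perm.mul_apply] at h2
    simpa using h2
  have key : ∀ π ∈ 𝒟.Γ, eval₂ (iota 𝒟.x) (𝒟.θ ∘ π)
      (∏ u ∈ orb 𝒟.Γ t, pol (n := n) (K := K) (v ∘ ⇑(g u)⁻¹)) =
      ∏ u ∈ orb 𝒟.Γ t, 𝒟.phi (v ∘ ⇑(g u)⁻¹) := by
    intro π hπ
    rw [← coe_eval₂Hom, map_prod]
    rw [← orb_prod t hπ fun u => 𝒟.phi (v ∘ ⇑(g u)⁻¹)]
    refine Finset.prod_congr rfl fun u hu => ?_
    rw [coe_eval₂Hom, eval_pol]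
    congr 1
    rw [← hwell (⇑π ∘ u) (orb_smul hπ hu) (π * g u) (𝒟.Γ.mul_mem hπ (hg u hu).1) (by
      rw [Equiv.Perm.coe_mul, Function.comp_assoc, (hg u hu).2])]
    rw [mul_inv_rev]
    rfl
  obtain ⟨N, hN⟩ := 𝒟.fixΓ (∏ u ∈ orb 𝒟.Γ t, pol (v ∘ ⇑(g u)⁻¹)) fun π hπ => by
    have h1 := key 1 𝒟.Γ.one_mem
    have h2 : (𝒟.θ ∘ (1 : Equiv.Perm I)) = 𝒟.θ := rfl
    rw [h2] at h1
    rw [key π hπ, h1]
  have hN' : iota 𝒟.x N = ∏ u ∈ orb 𝒟.Γ t, 𝒟.phi (v ∘ ⇑(g u)⁻¹) :=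
    hN.trans (key 1 𝒟.Γ.one_mem)
  have hdeg : N.totalDegree ≤ 𝒟.s := by
    have h1 : Wt (iota 𝒟.x) ((orb 𝒟.Γ t).card * 𝒟.w) (iota 𝒟.x N) := by
      rw [hN']
      exact Wt.prod _ _ _ fun u _ => 𝒟.Wt_phi _
    refine (Wt.totalDegree_le (iota_injective 𝒟.x) h1).trans ?_
    refine (Nat.mul_le_mul_right _ (𝒟.orb_card_le t)).trans ?_
    rw [Fintype.card_coe]
    exact hB
  have hN0 : N = 0 := by
    refine 𝒟.red_zero hdeg ?_
    rw [hN', map_prod]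
    refine Finset.prod_eq_zero (self_mem_orb _ t) ?_
    rw [← hwell t (self_mem_orb _ t) 1 𝒟.Γ.one_mem rfl, inv_one]
    exact hred
  rw [hN0, map_zero] at hN'
  obtain ⟨u, hu, hu0⟩ := Finset.prod_eq_zero_iff.1 hN'.symm
  have h3 := 𝒟.Z_stable (c := v ∘ ⇑(g u)⁻¹) hu0 (hg u hu).1
  have h4 : (v ∘ ⇑(g u)⁻¹) ∘ ⇑(g u) = v := by
    funext i
    simp
  rwa [h4] at h3

theorem H_le_Γ [IsDomain D] {h : Equiv.Perm I} (hh : h ∈ 𝒟.H) : h ∈ 𝒟.Γ := by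
  obtain ⟨g, hg, he⟩ := mem_orb.1 (𝒟.B1 (fun i : I => i) hh)
  have h1 : h = g := Equiv.ext fun i => (congrFun he i).symm
  rw [h1]
  exact hg

theorem phi_sum {τ : Type*} (S : Finset τ) (f : τ → I → K) :
    𝒟.phi (∑ j ∈ S, f j) = ∑ j ∈ S, 𝒟.phi (f j) := by
  classical
  induction S using Finset.induction_on with
  | empty => rw [Finset.sum_empty, Finset.sum_empty, show 𝒟.phi 0 = 0 from 𝒟.Z.zero_mem]
  | insert j S hj ih => rw [Finset.sum_insert hj, Finset.sum_insert hj, phi_add, ih]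

/-- the relations after the reduction -/
noncomputable def Zr : Submodule K (I → K) where
  carrier := {c | 𝒟.red (𝒟.phi c) = 0}
  zero_mem' := by
    show 𝒟.red (𝒟.phi 0) = 0
    rw [show 𝒟.phi 0 = 0 from 𝒟.Z.zero_mem, map_zero]
  add_mem' := by
    intro c d hc hd
    show 𝒟.red (𝒟.phi (c + d)) = 0
    rw [phi_add, map_add, show 𝒟.red (𝒟.phi c) = 0 from hc, show 𝒟.red (𝒟.phi d) = 0 from hd,
      add_zero]
  smul_mem' := by
    intro r c hc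
    show 𝒟.red (𝒟.phi (r • c)) = 0
    rw [phi_smul, map_mul, show 𝒟.red (𝒟.phi c) = 0 from hc, mul_zero]

/-- pairs have the same orbits -/
theorem pairs [IsDomain D] [CharZero D] [IsIntegrallyClosed (Polynomial D)]
    (hs : 𝒟.w * (2 * 𝒟.m ^ 4) ≤ 𝒟.s) (g : Equiv.Perm I) (hg : g ∈ 𝒟.Γ) (i j : I) :
    ∃ h ∈ 𝒟.H, h i = g i ∧ h j = g j := by
  obtain ⟨h, hh, he⟩ := mem_orb.1 (𝒟.B2 (T := Fin 2) (by rw [Fintype.card_fin]; exact hs)
    ![i, j] hg)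
  exact ⟨h, hh, congrFun he 0, congrFun he 1⟩

/-- **Combinations of the roots which vanish after the reduction vanish.** -/
theorem main [IsDomain D] [CharZero D] [IsIntegrallyClosed (Polynomial D)] (hm : 1 ≤ 𝒟.m)
    (hs : 𝒟.w * (2 * 𝒟.m ^ 4) ≤ 𝒟.s) (c : I → K) (hc : 𝒟.red (𝒟.phi c) = 0) :
    𝒟.phi c = 0 := by
  classical
  have hZr : ∀ c ∈ 𝒟.Zr, ∀ g ∈ 𝒟.Γ, c ∘ ⇑g ∈ 𝒟.Zr :=
    stable_of_pairs 𝒟.H 𝒟.Γ (𝒟.pairs hs) 𝒟.Zr fun c hc h hh => 𝒟.red_phi_stable hc hh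
  obtain ⟨P, hP1, hP2, hP3⟩ := avg_proj 𝒟.Γ 𝒟.Z fun c hc g hg => 𝒟.Z_stable hc hg
  have hcard : ((els 𝒟.Γ).card : K) ≠ 0 := by exact_mod_cast (els_pos 𝒟.Γ).ne'
  -- the part of `c` which is killed by the projection
  let w : I → K := ((els 𝒟.Γ).card : K) • c - P c
  have hPZr : P c ∈ 𝒟.Zr := by
    show 𝒟.red (𝒟.phi (P c)) = 0
    rw [show 𝒟.phi (P c) = 0 from hP1 c, map_zero]
  have hwr : w ∈ 𝒟.Zr := 𝒟.Zr.sub_mem (𝒟.Zr.smul_mem _ hc) hPZr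
  have hwP : P w = 0 := by
    show P (((els 𝒟.Γ).card : K) • c - P c) = 0
    rw [map_sub, map_smul, hP2 _ (hP1 c), sub_self]
  have hw0 : w = 0 := by
    funext i
    let B : Finset I := {i}
    let v : I → K := ∑ h ∈ els (stab 𝒟.Γ B), w ∘ ⇑h
    have hvr : v ∈ 𝒟.Zr :=
      Submodule.sum_mem _ fun h hh => hZr w hwr h (mem_els.1 hh).1
    have hvinv : ∀ g ∈ stab 𝒟.Γ B, ∀ j, v (g j) = v j := by
      intro g hg j
      simp only [v, Finset.sum_apply, Function.comp_apply]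
      refine Finset.sum_nbij' (fun h => h * g) (fun h => h * g⁻¹)
        (fun h hh => mem_els.2 ((stab 𝒟.Γ B).mul_mem (mem_els.1 hh) hg))
        (fun h hh => mem_els.2 ((stab 𝒟.Γ B).mul_mem (mem_els.1 hh)
          ((stab 𝒟.Γ B).inv_mem hg))) (fun h _ => by simp) (fun h _ => by simp) fun h _ => rfl
    have hBs : 𝒟.m ^ B.card * 𝒟.w ≤ 𝒟.s := by
      refine le_trans ?_ hs
      rw [Nat.mul_comm, Finset.card_singleton, pow_one]
      refine Nat.mul_le_mul_left _ ?_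
      have h1 : 𝒟.m ^ 1 ≤ 𝒟.m ^ 4 := Nat.pow_le_pow_right hm (by omega)
      rw [pow_one] at h1
      omega
    have hvZ : v ∈ 𝒟.Z := 𝒟.norm_arg B hBs v hvinv hvr
    have hvP : P v = 0 := by
      rw [map_sum]
      refine Finset.sum_eq_zero fun h hh => ?_
      rw [hP3 w h (mem_els.1 hh).1, hwP]
      rfl
    have hv0 : v = 0 := by
      rw [hP2 v hvZ] at hvP
      exact (smul_eq_zero.1 hvP).resolve_left hcard
    have h8 : v i = (els (stab 𝒟.Γ B)).card * w i := by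
      simp only [v, Finset.sum_apply, Function.comp_apply]
      rw [Finset.sum_congr rfl fun g hg => by
        rw [(mem_els.1 hg).2 i (Finset.mem_singleton_self i)], Finset.sum_const, nsmul_eq_mul]
    rw [hv0] at h8
    have h9 : ((els (stab 𝒟.Γ B)).card : K) ≠ 0 := by
      exact_mod_cast (els_pos (stab 𝒟.Γ B)).ne'
    exact (mul_eq_zero.1 h8.symm).resolve_left h9
  have h12 : ((els 𝒟.Γ).card : K) • c ∈ 𝒟.Z := by
    rw [show ((els 𝒟.Γ).card : K) • c = P c from sub_eq_zero.1 hw0]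
    exact hP1 c
  have h13 := 𝒟.Z.smul_mem ((els 𝒟.Γ).card : K)⁻¹ h12
  rw [smul_smul, inv_mul_cancel₀ hcard, one_smul] at h13
  exact h13

end Data

end Pool.Agent.TH189.Kr
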