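import Pool.Agent.TH189.Kr6

/-!
Algebraic functions of small degree: choice of the base point and the expansions.
-/

namespace Pool.Agent.TH189.Kr

open MvPolynomial

section evalext

variable {K : Type} [Field K] [IsAlgClosed K] {n : ℕ}

theorem exists_eval (B : Type) [CommRing B] [Algebra (MvPolynomial (Fin n) K) B]
    [Algebra.IsIntegral (MvPolynomial (Fin n) K) B]
    (hinj : Function.Injective (algebraMap (MvPolynomial (Fin n) K) B)) (x : Fin n → K) :
    ∃ ε : B →+* K, ∀ p, ε (algebraMap (MvPolynomial (Fin n) K) B p) = eval x p := by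
  have hsurj : Function.Surjective (eval x : MvPolynomial (Fin n) K →+* K) := fun c =>
    ⟨C c, eval_C c⟩
  have hmax : (RingHom.ker (eval x : MvPolynomial (Fin n) K →+* K)).IsMaximal :=
    RingHom.ker_isMaximal_of_surjective _ hsurj
  obtain ⟨Q, hQ, hQ'⟩ := Ideal.exists_ideal_over_maximal_of_isIntegral (S := B)
    (RingHom.ker (eval x : MvPolynomial (Fin n) K →+* K)) (by
      rw [(RingHom.injective_iff_ker_eq_bot _).1 hinj]
      exact bot_le)
  letI : Algebra K (B ⧸ Q) := ((Ideal.Quotient.mk Q).comp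
    ((algebraMap (MvPolynomial (Fin n) K) B).comp C)).toAlgebra
  have halg : ∀ c : K, algebraMap K (B ⧸ Q) c =
      Ideal.Quotient.mk Q (algebraMap (MvPolynomial (Fin n) K) B (C c)) := fun c => rfl
  have hev : ∀ p : MvPolynomial (Fin n) K,
      Ideal.Quotient.mk Q (algebraMap (MvPolynomial (Fin n) K) B p) =
      algebraMap K (B ⧸ Q) (eval x p) := by
    intro p
    rw [halg, Ideal.Quotient.eq, ← map_sub, ← Ideal.mem_comap, hQ', RingHom.mem_ker, map_sub,
      eval_C, sub_self]
  haveI : Algebra.IsIntegral K (B ⧸ Q) := by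
    refine ⟨fun b => ?_⟩
    obtain ⟨b, rfl⟩ := Ideal.Quotient.mk_surjective b
    obtain ⟨p, hp, hpb⟩ := Algebra.IsIntegral.isIntegral (R := MvPolynomial (Fin n) K) b
    refine ⟨p.map (eval x), hp.map _, ?_⟩
    rw [Polynomial.eval₂_map]
    have h1 : (algebraMap K (B ⧸ Q)).comp (eval x) = (Ideal.Quotient.mk Q).comp
        (algebraMap (MvPolynomial (Fin n) K) B) := RingHom.ext fun p => (hev p).symm
    rw [h1, ← Polynomial.hom_eval₂, hpb, map_zero]
  haveI : IsDomain (B ⧸ Q) := Ideal.Quotient.isDomain Q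
  let e := RingEquiv.ofBijective (algebraMap K (B ⧸ Q))
    (IsAlgClosed.algebraMap_bijective_of_isIntegral (k := K) (K := B ⧸ Q))
  refine ⟨(e.symm : (B ⧸ Q) →+* K).comp (Ideal.Quotient.mk Q), fun p => ?_⟩
  show e.symm (Ideal.Quotient.mk Q (algebraMap (MvPolynomial (Fin n) K) B p)) = _
  rw [hev]
  exact e.symm_apply_apply (eval x p)

end evalext

section orbits

variable {R E I : Type} [CommRing R] [CommRing E] [IsDomain E] [Fintype I] [DecidableEq I]

theorem Th_unit (ι : R →+* E) (θ : I → E) (i : I) :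
    Th ι θ (fun _ : Unit => (1 : R)) (fun _ => i) = θ i := by
  simp [Th]

theorem rel_root {ι : R →+* E} {θ : I → E} {π : Equiv.Perm I} (hπ : π ∈ relGroup ι θ)
    (q : Polynomial R) (i : I) (h : q.eval₂ ι (θ i) = 0) : q.eval₂ ι (θ (π i)) = 0 := by
  have h1 := rel_eval hπ q (fun _ : Unit => (1 : R)) (fun _ => i) (by
    rw [Th_unit, Polynomial.eval_map]; exact h)
  have h2 : (⇑π ∘ fun _ : Unit => i) = fun _ => π i := rfl
  rw [h2, Th_unit, Polynomial.eval_map] at h1
  exact h1

theorem orb_single_le (ι : R →+* E) (θ : I → E) (hθ : Function.Injective θ) (χ : Polynomial R)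
    (hχ : χ.Monic) (i : I) (h : χ.eval₂ ι (θ i) = 0) :
    (orb (relGroup ι θ) (fun _ : Unit => i)).card ≤ χ.natDegree := by
  classical
  have hinj : Function.Injective fun u : Unit → I => θ (u ()) := by
    intro u v huv
    funext l
    exact hθ huv
  rw [← Finset.card_image_of_injective _ hinj]
  have h1 : (orb (relGroup ι θ) (fun _ : Unit => i)).image (fun u => θ (u ())) ⊆
      (χ.map ι).roots.toFinset := by
    intro w hw
    obtain ⟨u, hu, rfl⟩ := Finset.mem_image.1 hw
    obtain ⟨π, hπ, rfl⟩ := mem_orb.1 hu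
    rw [Multiset.mem_toFinset, Polynomial.mem_roots (hχ.map ι).ne_zero, Polynomial.IsRoot.def,
      Polynomial.eval_map]
    exact rel_root hπ χ i h
  calc _ ≤ _ := Finset.card_le_card h1
    _ ≤ _ := Multiset.toFinset_card_le _
    _ ≤ _ := Polynomial.card_roots' _
    _ ≤ _ := Polynomial.natDegree_map_le

theorem orb_le {T : Type} [Fintype T] [DecidableEq T] (G : Subgroup (Equiv.Perm I)) (m : ℕ)
    (hG : ∀ i, (orb G (fun _ : Unit => i)).card ≤ m) (t : T → I) :
    (orb G t).card ≤ m ^ Fintype.card T := by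
  classical
  let B : T → Finset I := fun l => (orb G (fun _ : Unit => t l)).image fun u => u ()
  have h1 : orb G t ⊆ Fintype.piFinset B := by
    intro u hu
    obtain ⟨π, hπ, rfl⟩ := mem_orb.1 hu
    rw [Fintype.mem_piFinset]
    intro l
    exact Finset.mem_image.2 ⟨⇑π ∘ fun _ : Unit => t l, mem_orb.2 ⟨π, hπ, rfl⟩, rfl⟩
  refine (Finset.card_le_card h1).trans ?_
  rw [Fintype.card_piFinset, ← Finset.card_univ, ← Finset.prod_const]
  exact Finset.prod_le_prod' fun l _ => Finset.card_image_le.trans (hG _)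

end orbits

section family

variable {K : Type} [Field K] {n : ℕ}

/-- a monic polynomial of degree at most `m` all of whose roots have weight `w` -/
def Lin (m w : ℕ) (χ : Polynomial (MvPolynomial (Fin n) K)) : Prop :=
  χ.Monic ∧ χ.natDegree ≤ m ∧ ∀ (E : Type) (_ : CommRing E)
    (ι : MvPolynomial (Fin n) K →+* E) (u : E), χ.eval₂ ι u = 0 → Wt ι w u

theorem Lin.charpoly {κ : Type} [Fintype κ] [DecidableEq κ] {m w : ℕ}
    (hκ : Fintype.card κ ≤ m) (M : Matrix κ κ (MvPolynomial (Fin n) K))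
    (hM : ∀ i j, (M i j).totalDegree ≤ w) : Lin m w M.charpoly :=
  ⟨M.charpoly_monic, (M.charpoly_natDegree_eq_dim).le.trans hκ,
    fun _ _ _ _ hu => Wt.root M hM hu⟩

theorem Lin.of_coeff {m w : ℕ} (χ : Polynomial (MvPolynomial (Fin n) K)) (hχ : χ.Monic)
    (hm : χ.natDegree ≤ m)
    (hc : ∀ j, (χ.coeff j).totalDegree ≤ w * (χ.natDegree - j)) : Lin m w χ :=
  ⟨hχ, hm, fun _ _ _ _ hu => Wt.of_coeff χ hχ hc hu⟩

/-- the algebraic closure of the field of rational functions -/
abbrev Om (K : Type) [Field K] (n : ℕ) : Type :=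
  AlgebraicClosure (FractionRing (MvPolynomial (Fin n) K))

theorem Om_injective : Function.Injective (algebraMap (MvPolynomial (Fin n) K) (Om K n)) := by
  rw [IsScalarTower.algebraMap_eq (MvPolynomial (Fin n) K)
    (FractionRing (MvPolynomial (Fin n) K)) (Om K n)]
  exact (algebraMap (FractionRing (MvPolynomial (Fin n) K)) (Om K n)).injective.comp
    (IsFractionRing.injective (MvPolynomial (Fin n) K)
      (FractionRing (MvPolynomial (Fin n) K)))

open Classical in
/-- the roots of a family -/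
noncomputable def RF (F : Finset (Polynomial (MvPolynomial (Fin n) K))) : Finset (Om K n) :=
  ((∏ χ ∈ F, χ).map (algebraMap (MvPolynomial (Fin n) K) (Om K n))).roots.toFinset

theorem mem_RF {F : Finset (Polynomial (MvPolynomial (Fin n) K))} (hF : ∀ χ ∈ F, χ.Monic)
    {u : Om K n} : u ∈ RF F ↔ ∃ χ ∈ F, χ.eval₂ (algebraMap _ (Om K n)) u = 0 := by
  classical
  have h1 : ((∏ χ ∈ F, χ).map (algebraMap (MvPolynomial (Fin n) K) (Om K n))) ≠ 0 :=
    ((Polynomial.monic_prod_of_monic _ _ hF).map _).ne_zero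
  rw [RF, Multiset.mem_toFinset, Polynomial.mem_roots h1, Polynomial.IsRoot.def,
    Polynomial.map_prod, Polynomial.eval_prod, Finset.prod_eq_zero_iff]
  simp only [Polynomial.eval_map]

variable [CharZero K]

theorem fix0 {F : Finset (Polynomial (MvPolynomial (Fin n) K))} (hF : ∀ χ ∈ F, χ.Monic)
    [DecidableEq (Om K n)] :
    Fix (algebraMap (MvPolynomial (Fin n) K) (Om K n)) (fun i : RF F => (i : Om K n)) := by
  intro p hp
  have hm : (∏ χ ∈ F, χ).Monic := Polynomial.monic_prod_of_monic _ _ hF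
  refine relGroup_fixed' _ Om_injective _ Subtype.val_injective (∏ χ ∈ F, χ) hm
    (IsAlgClosed.splits _) (fun x => ?_) p hp
  have h1 : ((∏ χ ∈ F, χ).map (algebraMap (MvPolynomial (Fin n) K) (Om K n))).eval x = 0 ↔
      x ∈ RF F := by
    rw [mem_RF hF, Polynomial.map_prod, Polynomial.eval_prod, Finset.prod_eq_zero_iff]
    simp only [Polynomial.eval_map]
  rw [h1]
  constructor
  · intro h; exact ⟨⟨x, h⟩, rfl⟩
  · rintro ⟨i, rfl⟩
    exact i.2

/-- the relevant norms, and what they give at a point -/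
theorem phaseA [IsAlgClosed K] (m w : ℕ) (F : Finset (Polynomial (MvPolynomial (Fin n) K)))
    (hF : ∀ χ ∈ F, Lin m w χ) :
    ∃ 𝒩 : Finset (MvPolynomial (Fin n) K), (∀ N ∈ 𝒩, N ≠ 0 ∧ N.totalDegree ≤ w * m ^ 2) ∧
      ∀ x : Fin n → K, (∀ N ∈ 𝒩, eval x N ≠ 0) →
        ∃ (Ψ : Polynomial (MvPolynomial (Fin n) K)) (α : RF F → K), Function.Injective α ∧
          Ψ.map (algebraMap (MvPolynomial (Fin n) K) (Om K n)) =
            ∏ i : RF F, (Polynomial.X - Polynomial.C (i : Om K n)) ∧
          Ψ.map (eval x) = ∏ i : RF F, (Polynomial.X - Polynomial.C (α i)) := by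
  classical
  have hFm : ∀ χ ∈ F, χ.Monic := fun χ hχ => (hF χ hχ).1
  have hfix := fix0 hFm
  let S := MvPolynomial (Fin n) K
  let ϑ : RF F → Om K n := fun i => (i : Om K n)
  let G := relGroup (algebraMap S (Om K n)) ϑ
  have hW : ∀ i : RF F, Wt (algebraMap S (Om K n)) w (ϑ i) := by
    intro i
    obtain ⟨χ, hχ, h⟩ := (mem_RF hFm).1 i.2
    exact (hF χ hχ).2.2 _ _ _ _ h
  have hsingle : ∀ i, (orb G (fun _ : Unit => i)).card ≤ m := by
    intro i
    obtain ⟨χ, hχ, h⟩ := (mem_RF hFm).1 i.2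
    exact (orb_single_le _ ϑ Subtype.val_injective χ (hF χ hχ).1 i h).trans (hF χ hχ).2.1
  -- the weights
  let a : Fin 2 → S := ![1, -1]
  have hTh : ∀ u : Fin 2 → RF F, Th (algebraMap S (Om K n)) ϑ a u = ϑ (u 0) - ϑ (u 1) := by
    intro u
    simp [Th, a, Fin.sum_univ_two, sub_eq_add_neg]
  choose N hN using fun t : Fin 2 → RF F => hfix.orbit_prod a t Polynomial.X
  have hN' : ∀ t, algebraMap S (Om K n) (N t) = ∏ u ∈ orb G t, (ϑ (u 0) - ϑ (u 1)) := by
    intro t
    rw [hN t]
    refine Finset.prod_congr rfl fun u _ => ?_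
    rw [Polynomial.map_X, Polynomial.eval_X, hTh]
  have hN0 : ∀ t : Fin 2 → RF F, t 0 ≠ t 1 → N t ≠ 0 := by
    intro t ht h0
    have h1 := hN' t
    rw [h0, map_zero] at h1
    obtain ⟨u, hu, hu0⟩ := Finset.prod_eq_zero_iff.1 h1.symm
    obtain ⟨π, hπ, rfl⟩ := mem_orb.1 hu
    apply ht
    apply π.injective
    exact Subtype.val_injective (sub_eq_zero.1 hu0)
  have hNd : ∀ t, (N t).totalDegree ≤ w * m ^ 2 := by
    intro t
    have h1 : Wt (algebraMap S (Om K n)) ((orb G t).card * w) (algebraMap S (Om K n) (N t)) := by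
      rw [hN']
      exact Wt.prod _ _ _ fun u _ => (hW _).sub (hW _)
    refine (Wt.totalDegree_le Om_injective h1).trans ?_
    rw [Nat.mul_comm]
    refine Nat.mul_le_mul_left _ ((orb_le G m hsingle t).trans ?_)
    rw [Fintype.card_fin]
  -- the squarefree part
  obtain ⟨Ψ, hΨ⟩ := hfix.poly (∏ i : RF F, (Polynomial.X - Polynomial.C (X i))) (by
    intro π _
    rw [Polynomial.map_prod, Polynomial.map_prod]
    refine Fintype.prod_equiv π _ _ fun i => ?_
    simp)
  have hΨ' : Ψ.map (algebraMap S (Om K n)) =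
      ∏ i : RF F, (Polynomial.X - Polynomial.C (i : Om K n)) := by
    rw [hΨ, Polynomial.map_prod]
    refine Finset.prod_congr rfl fun i _ => ?_
    simp
  refine ⟨((Finset.univ : Finset (Fin 2 → RF F)).filter fun t => t 0 ≠ t 1).image N, ?_, ?_⟩
  · intro M hM
    obtain ⟨t, ht, rfl⟩ := Finset.mem_image.1 hM
    exact ⟨hN0 t (Finset.mem_filter.1 ht).2, hNd t⟩
  · intro x hx
    let B := integralClosure S (Om K n)
    have hBinj : Function.Injective (algebraMap S B) := by
      intro p q hpq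
      apply Om_injective
      exact congrArg Subtype.val hpq
    obtain ⟨ε, hε⟩ := exists_eval B hBinj x
    have hint : ∀ i : RF F, (i : Om K n) ∈ B := by
      intro i
      obtain ⟨χ, hχ, h⟩ := (mem_RF hFm).1 i.2
      exact ⟨χ, (hF χ hχ).1, h⟩
    let b : RF F → B := fun i => ⟨(i : Om K n), hint i⟩
    have hbval : ∀ i, algebraMap B (Om K n) (b i) = (i : Om K n) := fun i => rfl
    have hBO : Function.Injective (algebraMap B (Om K n)) := Subtype.val_injective
    have hsub : (algebraMap B (Om K n)).comp (algebraMap S B) = algebraMap S (Om K n) := rfl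
    refine ⟨Ψ, fun i => ε (b i), ?_, hΨ', ?_⟩
    · intro i j hij
      by_contra hne
      let t : Fin 2 → RF F := ![i, j]
      have h1 : eval x (N t) ≠ 0 := hx _ (Finset.mem_image.2 ⟨t, Finset.mem_filter.2
        ⟨Finset.mem_univ _, by simpa [t] using hne⟩, rfl⟩)
      apply h1
      rw [← hε]
      have h2 : algebraMap S B (N t) = ∏ u ∈ orb G t, (b (u 0) - b (u 1)) := by
        apply hBO
        rw [← RingHom.comp_apply, hsub, hN', map_prod]
        rfl
      rw [h2, map_prod]
      refine Finset.prod_eq_zero (self_mem_orb _ t) ?_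
      rw [map_sub]
      have h3 : ε (b (t 0)) = ε (b (t 1)) := hij
      rw [h3, sub_self]
    · have h1 : Ψ.map (algebraMap S B) = ∏ i : RF F, (Polynomial.X - Polynomial.C (b i)) := by
        apply Polynomial.map_injective _ hBO
        rw [Polynomial.map_map, hsub, hΨ', Polynomial.map_prod]
        refine Finset.prod_congr rfl fun i _ => ?_
        rw [Polynomial.map_sub, Polynomial.map_X, Polynomial.map_C, hbval]
      have h2 : (ε.comp (algebraMap S B)) = eval x := RingHom.ext hε
      rw [← h2, ← Polynomial.map_map, h1, Polynomial.map_prod]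
      refine Finset.prod_congr rfl fun i _ => ?_
      rw [Polynomial.map_sub, Polynomial.map_X, Polynomial.map_C]

end family

end Pool.Agent.TH189.Kr
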