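import Pool.Agent.TH189.Kr7

/-!
Expansions of the roots of a family as power series at the base point.
-/

namespace Pool.Agent.TH189.Kr

open MvPolynomial

variable {K : Type} [Field K] {n : ℕ}

theorem exists_kappa {Ω : Type} [Field Ω] [IsAlgClosed Ω] (ι : MvPolynomial (Fin n) K →+* Ω)
    (hι : Function.Injective ι) : ∃ κ : Om K n →+* Ω,
      ∀ p, κ (algebraMap (MvPolynomial (Fin n) K) (Om K n) p) = ι p := by
  let ι' : FractionRing (MvPolynomial (Fin n) K) →+* Ω := IsFractionRing.lift hι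
  letI : Algebra (FractionRing (MvPolynomial (Fin n) K)) Ω := ι'.toAlgebra
  let κ : Om K n →ₐ[FractionRing (MvPolynomial (Fin n) K)] Ω := IsAlgClosed.lift
  refine ⟨κ.toRingHom, fun p => ?_⟩
  rw [IsScalarTower.algebraMap_apply (MvPolynomial (Fin n) K)
    (FractionRing (MvPolynomial (Fin n) K)) (Om K n)]
  show κ _ = _
  rw [κ.commutes]
  exact IsFractionRing.lift_algebraMap hι p

theorem const_eval (Ψ : Polynomial (MvPolynomial (Fin n) K)) (x : Fin n → K) (a : K) :
    PowerSeries.constantCoeff ((Ψ.map (iota x)).eval (PowerSeries.C (C a))) =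
      C ((Ψ.map (eval x)).eval a) := by
  rw [← Polynomial.eval₂_eq_eval_map, Polynomial.hom_eval₂, PowerSeries.constantCoeff_C,
    ← Polynomial.eval₂_eq_eval_map, Polynomial.hom_eval₂]
  congr 1
  exact RingHom.ext fun p => iota_const x p

theorem expansions {I : Type} [Fintype I] (x : Fin n → K)
    (Ψ : Polynomial (MvPolynomial (Fin n) K)) (hΨm : Ψ.Monic) (α : I → K)
    (hα : Function.Injective α)
    (hx : Ψ.map (eval x) = ∏ i, (Polynomial.X - Polynomial.C (α i))) :
    ∃ θ : I → PowerSeries (MvPolynomial (Fin n) K),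
      (∀ i, θ i ∈ Hs K n) ∧ (∀ i, PowerSeries.constantCoeff (θ i) = C (α i)) ∧
      Ψ.map (iota x) = ∏ i, (Polynomial.X - Polynomial.C (θ i)) := by
  classical
  have hroot : ∀ i, (Ψ.map (eval x)).eval (α i) = 0 := by
    intro i
    rw [hx, Polynomial.eval_prod]
    refine Finset.prod_eq_zero (Finset.mem_univ i) ?_
    simp
  have hsep : (Ψ.map (eval x)).Separable := by
    rw [hx]
    exact Polynomial.separable_prod_X_sub_C_iff.2 hα
  have hder : ∀ i, (Ψ.map (eval x)).derivative.eval (α i) ≠ 0 := by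
    intro i
    have h1 := hsep.eval₂_derivative_ne_zero (RingHom.id K) (x := α i) (by
      rw [Polynomial.eval₂_id]; exact hroot i)
    rwa [Polynomial.eval₂_id] at h1
  have h : ∀ i, ∃ θ ∈ Hs K n, PowerSeries.constantCoeff θ = C (α i) ∧
      (Ψ.map (iota x)).eval θ = 0 := by
    intro i
    refine hensel _ (fun j => ?_) (α i) _ (hder i) ?_ ?_
    · rw [Polynomial.coeff_map]; exact iota_mem x _
    · rw [const_eval, hroot, map_zero]
    · rw [Polynomial.derivative_map, const_eval, Polynomial.derivative_map]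
  choose θ hθ hc h0 using h
  refine ⟨θ, hθ, hc, ?_⟩
  have hinj : Function.Injective θ := by
    intro i j hij
    apply hα
    apply C_injective (Fin n) K
    rw [← hc, ← hc, hij]
  have hfm : (Ψ.map (iota x)).Monic := hΨm.map _
  have hgm : (∏ i, (Polynomial.X - Polynomial.C (θ i))).Monic :=
    Polynomial.monic_prod_of_monic _ _ fun i _ => Polynomial.monic_X_sub_C _
  refine (Polynomial.eq_of_monic_of_dvd_of_natDegree_le hgm hfm ?_ ?_)
  · have h1 : (Finset.univ.val.map θ) ≤ (Ψ.map (iota x)).roots := by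
      rw [Multiset.le_iff_subset (Finset.univ.nodup.map hinj)]
      intro w hw
      obtain ⟨i, -, rfl⟩ := Multiset.mem_map.1 hw
      rw [Polynomial.mem_roots hfm.ne_zero]
      exact h0 i
    have h2 := (Multiset.prod_X_sub_C_dvd_iff_le_roots hfm.ne_zero _).2 h1
    rw [Multiset.map_map] at h2
    exact h2
  · rw [hΨm.natDegree_map]
    have h1 : (Ψ.map (eval x)).natDegree = Ψ.natDegree := hΨm.natDegree_map _
    rw [← h1, hx, Polynomial.natDegree_prod_of_monic _ _ fun i _ => Polynomial.monic_X_sub_C _,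
      Polynomial.natDegree_prod_of_monic _ _ fun i _ => Polynomial.monic_X_sub_C _]
    simp

/-- the data at a good point -/
theorem phaseB (m w : ℕ) (F : Finset (Polynomial (MvPolynomial (Fin n) K)))
    (hF : ∀ χ ∈ F, Lin m w χ) (x : Fin n → K)
    (Ψ : Polynomial (MvPolynomial (Fin n) K)) (α : RF F → K) (hα : Function.Injective α)
    (hΨ : Ψ.map (algebraMap (MvPolynomial (Fin n) K) (Om K n)) =
      ∏ i : RF F, (Polynomial.X - Polynomial.C (i : Om K n)))
    (hx : Ψ.map (eval x) = ∏ i : RF F, (Polynomial.X - Polynomial.C (α i)))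
    [DecidableEq (RF F)]
    {D : Type} [CommRing D] (ρ : MvPolynomial (Fin n) K →+* D) (s : ℕ)
    (hρ : ∀ p, p.totalDegree ≤ s → ρ p = 0 → p = 0) :
    ∃ 𝒟 : Data K n D (RF F), 𝒟.x = x ∧ 𝒟.s = s ∧ 𝒟.m = m ∧ 𝒟.w = w ∧ 𝒟.ρ = ρ ∧
      ∃ (Ω : Type) (_ : Field Ω) (κ : Om K n →+* Ω)
        (j : PowerSeries (MvPolynomial (Fin n) K) →+* Ω), Function.Injective j ∧
          (∀ p, κ (algebraMap (MvPolynomial (Fin n) K) (Om K n) p) = j (iota x p)) ∧
          ∀ i : RF F, κ (i : Om K n) = j (𝒟.θ i) := by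
  classical
  have hFm : ∀ χ ∈ F, χ.Monic := fun χ hχ => (hF χ hχ).1
  have hΨm : Ψ.Monic := by
    apply Polynomial.monic_of_injective Om_injective
    rw [hΨ]
    exact Polynomial.monic_prod_of_monic _ _ fun i _ => Polynomial.monic_X_sub_C _
  obtain ⟨θ, hθ, hc, hf⟩ := expansions x Ψ hΨm α hα hx
  let 𝓑 := PowerSeries (MvPolynomial (Fin n) K)
  let Ω := AlgebraicClosure (FractionRing 𝓑)
  let j : 𝓑 →+* Ω := (algebraMap (FractionRing 𝓑) Ω).comp (algebraMap 𝓑 (FractionRing 𝓑))
  have hj : Function.Injective j := (algebraMap (FractionRing 𝓑) Ω).injective.comp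
    (IsFractionRing.injective 𝓑 (FractionRing 𝓑))
  obtain ⟨κ, hκ⟩ := exists_kappa (j.comp (iota x)) (hj.comp (iota_injective x))
  have hκ' : κ.comp (algebraMap (MvPolynomial (Fin n) K) (Om K n)) = j.comp (iota x) :=
    RingHom.ext hκ
  have hex : ∀ i : RF F, ∃ i' : RF F, κ (i : Om K n) = j (θ i') := by
    intro i
    have h1 : (Ψ.map (κ.comp (algebraMap (MvPolynomial (Fin n) K) (Om K n)))).eval
        (κ (i : Om K n)) = 0 := by
      rw [← Polynomial.map_map, Polynomial.eval_map_apply, hΨ, Polynomial.eval_prod,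
        Finset.prod_eq_zero (Finset.mem_univ i) (by simp), map_zero]
    rw [hκ', ← Polynomial.map_map, hf, Polynomial.map_prod, Polynomial.eval_prod,
      Finset.prod_eq_zero_iff] at h1
    obtain ⟨i', -, hi'⟩ := h1
    refine ⟨i', ?_⟩
    rw [Polynomial.map_sub, Polynomial.map_X, Polynomial.map_C, Polynomial.eval_sub,
      Polynomial.eval_X, Polynomial.eval_C] at hi'
    exact sub_eq_zero.1 hi'
  choose e he using hex
  have heinj : Function.Injective e := by
    intro i i' hii
    apply Subtype.val_injective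
    apply κ.injective
    rw [he, he, hii]
  have hebij : Function.Bijective e := Finite.injective_iff_bijective.1 heinj
  have hrootB : ∀ i : RF F, ∃ χ ∈ F, χ.eval₂ (iota x) (θ (e i)) = 0 := by
    intro i
    obtain ⟨χ, hχ, h⟩ := (mem_RF hFm).1 i.2
    refine ⟨χ, hχ, ?_⟩
    apply hj
    rw [Polynomial.hom_eval₂, map_zero, ← hκ', ← he, ← Polynomial.hom_eval₂, h, map_zero]
  have hθinj : Function.Injective fun i => θ (e i) := by
    intro i i' hii
    apply heinj
    apply hα
    apply C_injective (Fin n) K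
    have hii' : θ (e i) = θ (e i') := hii
    rw [← hc, ← hc, hii']
  refine ⟨{ x := x, θ := fun i => θ (e i), β := fun i => α (e i), hβ := hα.comp heinj,
            hconst := fun i => hc _, hH := fun i => hθ _, w := w, hW := ?_, Ψ := Ψ, hΨ := ?_,
            ρ := ρ, s := s, m := m, hρ := hρ, horb := ?_ }, rfl, rfl, rfl, rfl, rfl, Ω,
            inferInstance, κ, j, hj, hκ, fun i => he i⟩
  · intro i
    obtain ⟨χ, hχ, h⟩ := hrootB i
    exact (hF χ hχ).2.2 _ _ _ _ h
  · rw [hf]
    exact (Fintype.prod_bijective e hebij _ _ fun i => rfl).symm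
  · intro i
    obtain ⟨χ, hχ, h⟩ := hrootB i
    exact (orb_single_le _ _ hθinj χ (hF χ hχ).1 i h).trans (hF χ hχ).2.1

end Pool.Agent.TH189.Kr
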