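import Mathlib

/-!
Irreducible representations of semisimple Lie algebras: the number of simple ideals which act
nontrivially is at most the logarithm of the dimension.
-/

namespace Pool.Agent.TH189.Lev

open Module LieAlgebra

section trip

variable {K : Type*} [Field K] [IsAlgClosed K] [CharZero K]

/-- A finite dimensional simple Lie algebra contains an `sl₂` triple. -/
theorem exists_sl2 (L : Type*) [LieRing L] [LieAlgebra K L] [Module.Finite K L] [IsSimple K L] :
    ∃ h e f : L, IsSl2Triple h e f := by
  have hne : Nontrivial L := IsSimple.nontrivial K L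
  obtain ⟨x, hx⟩ := LieAlgebra.exists_isCartanSubalgebra_engel K L
  haveI := hx
  have hHn : Nontrivial (LieSubalgebra.engel K x) := by
    by_contra hn
    rw [not_nontrivial_iff_subsingleton] at hn
    have hbot : LieSubalgebra.engel K x = ⊥ := by
      rw [eq_bot_iff]
      intro y hy
      have : (⟨y, hy⟩ : LieSubalgebra.engel K x) = 0 := Subsingleton.elim _ _
      simpa using congrArg Subtype.val this
    have h2 := hx.self_normalizing
    rw [hbot] at h2
    obtain ⟨z, hz⟩ := exists_ne (0 : L)
    have h3 : z ∈ (⊥ : LieSubalgebra K L).normalizer := by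
      rw [LieSubalgebra.mem_normalizer_iff]
      intro y hy
      rw [LieSubalgebra.mem_bot] at hy ⊢
      rw [hy, lie_zero]
    rw [h2, LieSubalgebra.mem_bot] at h3
    exact hz h3
  have hspan := LieAlgebra.IsKilling.span_weight_isNonZero_eq_top K L (LieSubalgebra.engel K x)
  have hex : ∃ α : LieModule.Weight K (LieSubalgebra.engel K x) L, α.IsNonZero := by
    by_contra hcon
    push Not at hcon
    have h4 : Submodule.span K ({α : LieModule.Weight K (LieSubalgebra.engel K x) L |
        α.IsNonZero}.image (LieModule.Weight.toLinear K (LieSubalgebra.engel K x) L)) = ⊥ := by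
      rw [Submodule.span_eq_bot]
      rintro _ ⟨α, hα, rfl⟩
      exact absurd (hcon α) hα
    rw [h4] at hspan
    haveI : Nontrivial (Dual K (LieSubalgebra.engel K x)) := inferInstance
    exact bot_ne_top hspan
  obtain ⟨α, hα⟩ := hex
  obtain ⟨h, e, f, ht, -, -⟩ :=
    LieAlgebra.IsKilling.exists_isSl2Triple_of_weight_isNonZero hα
  exact ⟨h, e, f, ht⟩

end trip

end Pool.Agent.TH189.Lev
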