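import Pool.Agent.TH189.Lev1

/-!
Irreducible representations of semisimple Lie algebras: the number of simple ideals which act
nontrivially is at most the logarithm of the dimension.
-/

namespace Pool.Agent.TH189.Lev

open Module LieAlgebra

attribute [local instance 100] LieRing.ofAssociativeRing

variable {K L W : Type*} [Field K] [LieRing L] [LieAlgebra K L] [AddCommGroup W] [Module K W]

theorem map_br (θ : L →ₗ⁅K⁆ Module.End K W) (x y : L) :
    θ ⁅x, y⁆ = θ x * θ y - θ y * θ x := by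
  rw [LieHom.map_lie]
  rfl

/-- no invariant subspaces -/
def Irr (θ : L →ₗ⁅K⁆ Module.End K W) : Prop :=
  ∀ U : Submodule K W, (∀ x : L, ∀ u ∈ U, θ x u ∈ U) → U = ⊥ ∨ U = ⊤

/-- `I` acts nontrivially -/
def Act (θ : L →ₗ⁅K⁆ Module.End K W) (I : LieIdeal K L) : Prop := ∃ z ∈ I, θ z ≠ 0

/-- the subspace `θ(I) W` -/
def img (θ : L →ₗ⁅K⁆ Module.End K W) (I : LieIdeal K L) : Submodule K W :=
  Submodule.span K {w | ∃ z ∈ I, ∃ v, θ z v = w}

theorem img_top {θ : L →ₗ⁅K⁆ Module.End K W} (hirr : Irr θ) {I : LieIdeal K L} (hI : Act θ I) :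
    img θ I = ⊤ := by
  have h1 : ∀ x : L, ∀ u ∈ img θ I, θ x u ∈ img θ I := by
    intro x u hu
    refine Submodule.span_induction (p := fun u _ => θ x u ∈ img θ I) ?_ ?_ ?_ ?_ hu
    · rintro _ ⟨z, hz, v, rfl⟩
      have h2 : θ x (θ z v) = θ z (θ x v) + θ ⁅x, z⁆ v := by
        rw [map_br]
        simp
      rw [h2]
      exact Submodule.add_mem _ (Submodule.subset_span ⟨z, hz, _, rfl⟩)
        (Submodule.subset_span ⟨⁅x, z⁆, lie_mem_right K L I x z hz, _, rfl⟩)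
    · rw [map_zero]; exact Submodule.zero_mem _
    · intro a b _ _ ha hb
      rw [map_add]; exact Submodule.add_mem _ ha hb
    · intro c a _ ha
      rw [map_smul]; exact Submodule.smul_mem _ _ ha
  rcases hirr _ h1 with h | h
  · exfalso
    obtain ⟨z, hz, hne⟩ := hI
    apply hne
    ext v
    have h3 : θ z v ∈ img θ I := Submodule.subset_span ⟨z, hz, v, rfl⟩
    rw [h, Submodule.mem_bot] at h3
    rw [h3, LinearMap.zero_apply]
  · exact h

theorem cancel {θ : L →ₗ⁅K⁆ Module.End K W} (hirr : Irr θ) {I : LieIdeal K L} (hI : Act θ I)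
    (hs : IsSimple K I) {Q : Module.End K W} (hQ : ∀ z ∈ I, θ z * Q = Q * θ z) {z : L}
    (hz : z ∈ I) (hz0 : z ≠ 0) (h : θ z * Q = 0) : Q = 0 := by
  let J : LieIdeal K I :=
    { carrier := {y : I | θ y * Q = 0}
      add_mem' := by
        intro a b ha hb
        have ha' : θ a * Q = 0 := ha
        have hb' : θ b * Q = 0 := hb
        show θ ((a + b : I) : L) * Q = 0
        rw [LieSubmodule.coe_add, map_add, add_mul, ha', hb', add_zero]
      zero_mem' := by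
        show θ ((0 : I) : L) * Q = 0
        rw [LieSubmodule.coe_zero, map_zero, zero_mul]
      smul_mem' := by
        intro c a ha
        have ha' : θ a * Q = 0 := ha
        show θ ((c • a : I) : L) * Q = 0
        rw [LieSubmodule.coe_smul, map_smul, smul_mul_assoc, ha', smul_zero]
      lie_mem := by
        intro x a ha
        have ha' : θ a * Q = 0 := ha
        show θ ((⁅x, a⁆ : I) : L) * Q = 0
        have h1 : ((⁅x, a⁆ : I) : L) = ⁅(x : L), (a : L)⁆ := rfl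
        rw [h1, map_br, sub_mul, mul_assoc, ha', mul_zero, zero_sub, mul_assoc,
          hQ x x.2, ← mul_assoc, ha', zero_mul, neg_zero] }
  have hJ : J = ⊤ := by
    rcases hs.eq_bot_or_eq_top J with hb | ht
    · exfalso
      have h2 : (⟨z, hz⟩ : I) ∈ J := h
      rw [hb, LieSubmodule.mem_bot] at h2
      exact hz0 (congrArg Subtype.val h2)
    · exact ht
  have hall : ∀ y ∈ I, Q * θ y = 0 := by
    intro y hy
    have h3 : (⟨y, hy⟩ : I) ∈ J := by rw [hJ]; exact LieSubmodule.mem_top _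
    have h4 : θ y * Q = 0 := h3
    rw [← hQ y hy, h4]
  have hker : img θ I ≤ LinearMap.ker Q := by
    refine Submodule.span_le.2 ?_
    rintro _ ⟨y, hy, v, rfl⟩
    have h5 := hall y hy
    rw [SetLike.mem_coe, LinearMap.mem_ker]
    exact DFunLike.congr_fun h5 v
  rw [img_top hirr hI, top_le_iff, LinearMap.ker_eq_top] at hker
  exact hker

theorem sl2_cancel [CharZero K] {θ : L →ₗ⁅K⁆ Module.End K W} (hirr : Irr θ) {I : LieIdeal K L}
    (hI : Act θ I) (hs : IsSimple K I) {h e f : L} (ht : IsSl2Triple h e f) (hh : h ∈ I)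
    (he : e ∈ I) (hf : f ∈ I) {P Q₁ Q₂ Q₃ : Module.End K W}
    (hP : ∀ z ∈ I, θ z * P = P * θ z) (hQ₁ : ∀ z ∈ I, θ z * Q₁ = Q₁ * θ z)
    (hQ₂ : ∀ z ∈ I, θ z * Q₂ = Q₂ * θ z) (hQ₃ : ∀ z ∈ I, θ z * Q₃ = Q₃ * θ z)
    (h0 : P + θ e * Q₁ + θ f * Q₂ + θ h * Q₃ = 0) : P = 0 ∧ Q₁ = 0 ∧ Q₂ = 0 ∧ Q₃ = 0 := by
  have ef : θ e * θ f - θ f * θ e = θ h := by rw [← map_br, ht.lie_e_f]
  have hE : θ h * θ e - θ e * θ h = 2 * θ e := by
    rw [← map_br, ht.lie_h_e_nsmul, map_nsmul, two_mul, two_nsmul]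
  have A : θ h * Q₂ - 2 * (θ e * Q₃) = 0 := by
    have h1 : θ e * (P + θ e * Q₁ + θ f * Q₂ + θ h * Q₃) -
        (P + θ e * Q₁ + θ f * Q₂ + θ h * Q₃) * θ e = 0 := by rw [h0]; simp
    have h2 : θ e * (P + θ e * Q₁ + θ f * Q₂ + θ h * Q₃) -
        (P + θ e * Q₁ + θ f * Q₂ + θ h * Q₃) * θ e =
        (θ e * P - P * θ e) + θ e * (θ e * Q₁ - Q₁ * θ e) + (θ e * θ f - θ f * θ e) * Q₂ +
          θ f * (θ e * Q₂ - Q₂ * θ e) - (θ h * θ e - θ e * θ h) * Q₃ +
          θ h * (θ e * Q₃ - Q₃ * θ e) := by noncomm_ring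
    rw [h2, hP e he, hQ₁ e he, hQ₂ e he, hQ₃ e he, ef, hE] at h1
    simp only [sub_self, mul_zero, zero_add, add_zero] at h1
    rw [mul_assoc] at h1
    exact h1
  have B : θ e * Q₂ = 0 := by
    have h1 : θ e * (θ h * Q₂ - 2 * (θ e * Q₃)) - (θ h * Q₂ - 2 * (θ e * Q₃)) * θ e = 0 := by
      rw [A]; simp
    have h2 : θ e * (θ h * Q₂ - 2 * (θ e * Q₃)) - (θ h * Q₂ - 2 * (θ e * Q₃)) * θ e =
        -(θ h * θ e - θ e * θ h) * Q₂ + θ h * (θ e * Q₂ - Q₂ * θ e) -
          2 * (θ e * (θ e * Q₃ - Q₃ * θ e)) := by noncomm_ring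
    rw [h2, hQ₂ e he, hQ₃ e he, hE] at h1
    simp only [sub_self, mul_zero, sub_zero, add_zero] at h1
    rw [neg_mul, neg_eq_zero, mul_assoc] at h1
    have h3 : (2 : K) • (θ e * Q₂) = 0 := by
      rw [two_smul, ← two_mul]; exact h1
    exact (smul_eq_zero.1 h3).resolve_left two_ne_zero
  have q2 : Q₂ = 0 := cancel hirr hI hs hQ₂ he ht.e_ne_zero B
  have C : θ e * Q₃ = 0 := by
    rw [q2, mul_zero, zero_sub, neg_eq_zero] at A
    have h3 : (2 : K) • (θ e * Q₃) = 0 := by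
      rw [two_smul, ← two_mul]; exact A
    exact (smul_eq_zero.1 h3).resolve_left two_ne_zero
  have q3 : Q₃ = 0 := cancel hirr hI hs hQ₃ he ht.e_ne_zero C
  have D : θ h * Q₁ = 0 := by
    rw [q2, q3, mul_zero, mul_zero, add_zero, add_zero] at h0
    have h1 : (P + θ e * Q₁) * θ f - θ f * (P + θ e * Q₁) = 0 := by rw [h0]; simp
    have h2 : (P + θ e * Q₁) * θ f - θ f * (P + θ e * Q₁) = -(θ f * P - P * θ f) +
        (θ e * θ f - θ f * θ e) * Q₁ - θ e * (θ f * Q₁ - Q₁ * θ f) := by noncomm_ring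
    rw [h2, hP f hf, hQ₁ f hf, ef] at h1
    simpa using h1
  have q1 : Q₁ = 0 := cancel hirr hI hs hQ₁ hh ht.h_ne_zero D
  refine ⟨?_, q1, q2, q3⟩
  rw [q1, q2, q3] at h0
  simpa using h0

end Pool.Agent.TH189.Lev
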