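import Pool.Agent.TH189.Lev2

/-!
Irreducible representations of semisimple Lie algebras: the number of simple ideals which act
nontrivially is at most the logarithm of the dimension.
-/

namespace Pool.Agent.TH189.Lev

open Module LieAlgebra

attribute [local instance 100] LieRing.ofAssociativeRing

variable {K L W : Type*} [Field K] [LieRing L] [LieAlgebra K L] [AddCommGroup W] [Module K W]

theorem atom_comm {I J : LieIdeal K L} (hI : IsAtom I) (hJ : IsAtom J) (h : I ≠ J) {x y : L}
    (hx : x ∈ I) (hy : y ∈ J) : ⁅x, y⁆ = 0 := by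
  have h1 : I ⊓ J = ⊥ := (hI.disjoint_of_ne hJ h).eq_bot
  have h2 : ⁅x, y⁆ ∈ I ⊓ J := ⟨lie_mem_left K L I x y hx, lie_mem_right K L J x y hy⟩
  rwa [h1, LieSubmodule.mem_bot] at h2

theorem comm_of_ne (θ : L →ₗ⁅K⁆ Module.End K W) {I J : LieIdeal K L} (hI : IsAtom I)
    (hJ : IsAtom J) (h : I ≠ J) {x y : L} (hx : x ∈ I) (hy : y ∈ J) : θ x * θ y = θ y * θ x := by
  have h1 := map_br θ x y
  rw [atom_comm hI hJ h hx hy, map_zero] at h1
  exact (sub_eq_zero.1 h1.symm)

/-- the four-term combination -/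
noncomputable def comb (E : Submodule K (Module.End K W)) (a b c : Module.End K W) :
    (E × E × E × E) →ₗ[K] Module.End K W :=
  E.subtype.coprod (((LinearMap.mulLeft K a).comp E.subtype).coprod
    (((LinearMap.mulLeft K b).comp E.subtype).coprod ((LinearMap.mulLeft K c).comp E.subtype)))

theorem comb_apply (E : Submodule K (Module.End K W)) (a b c : Module.End K W)
    (q : E × E × E × E) : comb E a b c q = q.1 + a * q.2.1 + b * q.2.2.1 + c * q.2.2.2 := by
  simp [comb, add_assoc]

theorem exists_big [IsAlgClosed K] [CharZero K] [Module.Finite K L] [IsSemisimple K L]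
    [Nontrivial W] [Module.Finite K W] {θ : L →ₗ⁅K⁆ Module.End K W} (hirr : Irr θ)
    (S : Finset (LieIdeal K L)) : (∀ I ∈ S, IsAtom I ∧ Act θ I) →
    ∃ E : Submodule K (Module.End K W), finrank K E = 4 ^ S.card ∧
      ∀ Q ∈ E, ∀ J : LieIdeal K L, IsAtom J → J ∉ S → ∀ z ∈ J, θ z * Q = Q * θ z := by
  classical
  induction S using Finset.induction_on with
  | empty =>
    intro _
    refine ⟨Submodule.span K {1}, ?_, ?_⟩
    · rw [finrank_span_singleton one_ne_zero]; simp
    · intro Q hQ J _ _ z _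
      obtain ⟨c, rfl⟩ := Submodule.mem_span_singleton.1 hQ
      simp
  | insert I S hIS ih =>
    intro hS
    obtain ⟨E, hE1, hE2⟩ := ih fun J hJ => hS J (Finset.mem_insert_of_mem hJ)
    obtain ⟨hat, hact⟩ := hS I (Finset.mem_insert_self _ _)
    have hs : IsSimple K I := IsSemisimple.isSimple_of_isAtom I hat
    obtain ⟨h, e, f, ht⟩ := exists_sl2 (K := K) I
    have ht' : IsSl2Triple (h : L) (e : L) (f : L) := by
      refine ⟨?_, ?_, ?_, ?_⟩
      · intro h0
        exact ht.h_ne_zero (Subtype.ext h0)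
      · exact congrArg Subtype.val ht.lie_e_f
      · exact congrArg Subtype.val ht.lie_h_e_nsmul
      · exact congrArg Subtype.val ht.lie_h_f_nsmul
    have hcI : ∀ Q ∈ E, ∀ z ∈ I, θ z * Q = Q * θ z := fun Q hQ z hz => hE2 Q hQ I hat hIS z hz
    refine ⟨LinearMap.range (comb E (θ e) (θ f) (θ h)), ?_, ?_⟩
    · rw [LinearMap.finrank_range_of_inj, Module.finrank_prod, Module.finrank_prod,
        Module.finrank_prod, hE1, Finset.card_insert_of_notMem hIS, pow_succ]
      · ring
      · rw [← LinearMap.ker_eq_bot, LinearMap.ker_eq_bot']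
        intro q hq
        rw [comb_apply] at hq
        obtain ⟨h1, h2, h3, h4⟩ := sl2_cancel hirr hact hs ht' h.2 e.2 f.2
          (hcI _ q.1.2) (hcI _ q.2.1.2) (hcI _ q.2.2.1.2) (hcI _ q.2.2.2.2) hq
        refine Prod.ext (Subtype.ext h1) (Prod.ext (Subtype.ext h2)
          (Prod.ext (Subtype.ext h3) (Subtype.ext h4)))
    · rintro _ ⟨q, rfl⟩ J hJ hJS z hz
      have hJI : J ≠ I := fun h => hJS (h ▸ Finset.mem_insert_self _ _)
      have hJS' : J ∉ S := fun h => hJS (Finset.mem_insert_of_mem h)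
      rw [comb_apply]
      have a0 := hE2 _ q.1.2 J hJ hJS' z hz
      have a1 := hE2 _ q.2.1.2 J hJ hJS' z hz
      have a2 := hE2 _ q.2.2.1.2 J hJ hJS' z hz
      have a3 := hE2 _ q.2.2.2.2 J hJ hJS' z hz
      have b1 := comm_of_ne θ hJ hat hJI hz e.2
      have b2 := comm_of_ne θ hJ hat hJI hz f.2
      have b3 := comm_of_ne θ hJ hat hJI hz h.2
      simp only [mul_add, add_mul, ← mul_assoc]
      rw [b1, b2, b3, a0]
      simp only [mul_assoc]
      rw [a1, a2, a3]

theorem card_act [IsAlgClosed K] [CharZero K] [Module.Finite K L] [IsSemisimple K L]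
    [Nontrivial W] [Module.Finite K W] {θ : L →ₗ⁅K⁆ Module.End K W} (hirr : Irr θ)
    (S : Finset (LieIdeal K L)) (hS : ∀ I ∈ S, IsAtom I ∧ Act θ I) :
    S.card ≤ Nat.log 2 (finrank K W) := by
  obtain ⟨E, hE, -⟩ := exists_big hirr S hS
  have h1 : finrank K E ≤ finrank K W * finrank K W := by
    have := Submodule.finrank_le E
    rwa [Module.finrank_linearMap] at this
  rw [hE] at h1
  have h2 : 2 ^ S.card * 2 ^ S.card ≤ finrank K W * finrank K W := by
    rw [← mul_pow]; exact h1
  have h3 : 2 ^ S.card ≤ finrank K W := Nat.mul_self_le_mul_self_iff.1 h2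
  have h4 : finrank K W ≠ 0 := by
    have := Nat.pos_of_ne_zero (pow_ne_zero S.card (two_ne_zero (α := ℕ)))
    omega
  exact (Nat.le_log_iff_pow_le (by norm_num) h4).2 h3

end Pool.Agent.TH189.Lev
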