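import Pool.Agent.TH189.Lev3

/-!
Irreducible representations of Lie algebras: the span of the image has bounded dimension.
-/

namespace Pool.Agent.TH189.Lev

open Module LieAlgebra

attribute [local instance 100] LieRing.ofAssociativeRing

section semisimple

variable {K L W : Type*} [Field K] [LieRing L] [LieAlgebra K L] [AddCommGroup W] [Module K W]

theorem finrank_sup_le {V ι : Type*} [AddCommGroup V] [Module K V] [Module.Finite K V]
    (S : Finset ι) (f : ι → Submodule K V) (m : ℕ) (h : ∀ i ∈ S, finrank K (f i) ≤ m) :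
    finrank K (S.sup f : Submodule K V) ≤ m * S.card := by
  classical
  induction S using Finset.induction_on with
  | empty => rw [Finset.sup_empty, finrank_bot]; simp
  | insert i S hi ih =>
    rw [Finset.sup_insert, Finset.card_insert_of_notMem hi]
    have h1 := Submodule.finrank_add_le_finrank_add_finrank (f i) (S.sup f)
    have h2 := h i (Finset.mem_insert_self _ _)
    have h3 := ih fun j hj => h j (Finset.mem_insert_of_mem hj)
    calc _ ≤ _ := h1
      _ ≤ m + m * S.card := Nat.add_le_add h2 h3
      _ = _ := by ring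

theorem range_bound [IsAlgClosed K] [CharZero K] [Module.Finite K L] [IsSemisimple K L]
    [Nontrivial W] [Module.Finite K W] {θ : L →ₗ⁅K⁆ Module.End K W} (hirr : Irr θ) (m : ℕ)
    (hm : ∀ I : LieIdeal K L, IsAtom I → finrank K I ≤ m) :
    finrank K (LinearMap.range (θ : L →ₗ[K] Module.End K W)) ≤
      m * Nat.log 2 (finrank K W) := by
  classical
  have hfin : {I : LieIdeal K L | IsAtom I ∧ Act θ I}.Finite := by
    by_contra hinf
    obtain ⟨S, hS1, hS2⟩ := (Set.not_finite.mp hinf : Set.Infinite _).exists_subset_card_eq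
      (Nat.log 2 (finrank K W) + 1)
    have h1 := card_act hirr S fun I hI => hS1 hI
    omega
  let S := hfin.toFinset
  have hS : ∀ I ∈ S, IsAtom I ∧ Act θ I := fun I hI => hfin.mem_toFinset.1 hI
  have hcard := card_act hirr S hS
  let N : Submodule K (Module.End K W) :=
    S.sup fun I => Submodule.map (θ : L →ₗ[K] Module.End K W) I.toSubmodule
  have hN : finrank K N ≤ m * S.card := by
    refine finrank_sup_le S _ m fun I hI => ?_
    exact (Submodule.finrank_map_le _ _).trans (hm I (hS I hI).1)
  have hle : LinearMap.range (θ : L →ₗ[K] Module.End K W) ≤ N := by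
    rintro _ ⟨x, rfl⟩
    have hx : x ∈ (sSup {I : LieIdeal K L | IsAtom I}) := by
      rw [IsSemisimple.sSup_atoms_eq_top]; exact LieSubmodule.mem_top _
    rw [← LieSubmodule.mem_toSubmodule, LieSubmodule.sSup_toSubmodule] at hx
    have h2 : sSup {x | ∃ s ∈ {I : LieIdeal K L | IsAtom I}, (s : Submodule K L) = x} ≤
        Submodule.comap (θ : L →ₗ[K] Module.End K W) N := by
      refine sSup_le ?_
      rintro _ ⟨I, hI, rfl⟩
      by_cases hact : Act θ I
      · have hIS : I ∈ S := hfin.mem_toFinset.2 ⟨hI, hact⟩
        rw [← Submodule.map_le_iff_le_comap]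
        exact Finset.le_sup (f := fun I : LieIdeal K L =>
          Submodule.map (θ : L →ₗ[K] Module.End K W) I.toSubmodule) hIS
      · intro z hz
        have h3 : θ z = 0 := by
          by_contra hne
          exact hact ⟨z, hz, hne⟩
        rw [Submodule.mem_comap]
        show θ z ∈ N
        rw [h3]
        exact N.zero_mem
    exact h2 hx
  calc _ ≤ finrank K N := Submodule.finrank_mono hle
    _ ≤ m * S.card := hN
    _ ≤ _ := Nat.mul_le_mul_left _ hcard

end semisimple

section quot

variable (K L : Type*) [Field K] [LieRing L] [LieAlgebra K L]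

/-- the quotient map as a homomorphism of Lie algebras -/
def qmap (I : LieIdeal K L) : L →ₗ⁅K⁆ L ⧸ I :=
  { (LieSubmodule.Quotient.mk' I : L →ₗ[K] L ⧸ I) with
    map_lie' := fun {x y} => LieSubmodule.Quotient.mk_bracket (I := I) x y }

theorem qmap_apply (I : LieIdeal K L) (x : L) : qmap K L I x = LieSubmodule.Quotient.mk x := rfl

theorem qmap_ker (I : LieIdeal K L) : (qmap K L I).ker = I := by
  ext x
  rw [LieHom.mem_ker, qmap_apply]
  exact LieSubmodule.Quotient.mk_eq_zero' 

theorem qmap_surj (I : LieIdeal K L) : Function.Surjective (qmap K L I) := Quot.mk_surjective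

theorem trivial_radical [IsNoetherian K L] : HasTrivialRadical K (L ⧸ radical K L) := by
  rw [hasTrivialRadical_iff_no_solvable_ideals]
  intro I hI
  obtain ⟨k, hk⟩ := hI.solvable K
  rw [LieIdeal.derivedSeries_eq_bot_iff] at hk
  have h1 : ∀ k, derivedSeriesOfIdeal K L k (LieIdeal.comap (qmap K L (radical K L)) I) ≤
      LieIdeal.comap (qmap K L (radical K L)) (derivedSeriesOfIdeal K _ k I) := by
    intro k
    induction k with
    | zero => simp
    | succ k ih =>
      rw [derivedSeriesOfIdeal_succ, derivedSeriesOfIdeal_succ]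
      exact (LieSubmodule.mono_lie ih ih).trans (LieIdeal.comap_bracket_le _)
  have h2 := h1 k
  rw [hk, show LieIdeal.comap (qmap K L (radical K L)) ⊥ = (qmap K L (radical K L)).ker from rfl,
    qmap_ker] at h2
  obtain ⟨l, hl⟩ := (radicalIsSolvable (R := K) (L := L)).solvable K
  rw [LieIdeal.derivedSeries_eq_bot_iff] at hl
  have h3 : derivedSeriesOfIdeal K L (l + k) (LieIdeal.comap (qmap K L (radical K L)) I) = ⊥ := by
    rw [derivedSeriesOfIdeal_add, eq_bot_iff, ← hl]
    exact derivedSeriesOfIdeal_mono h2 l
  have h4 : IsSolvable (LieIdeal.comap (qmap K L (radical K L)) I) :=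
    IsSolvable.mk (k := l + k) ((LieIdeal.derivedSeries_eq_bot_iff _ _).2 h3)
  rw [LieIdeal.solvable_iff_le_radical] at h4
  rw [LieSubmodule.eq_bot_iff]
  intro y hy
  obtain ⟨x, rfl⟩ := qmap_surj K L (radical K L) y
  have h5 : x ∈ LieIdeal.comap (qmap K L (radical K L)) I := hy
  have h6 : x ∈ (qmap K L (radical K L)).ker := by rw [qmap_ker]; exact h4 h5
  exact LieHom.mem_ker.1 h6

/-- extension of a homomorphism to the quotient by an ideal in the kernel -/
noncomputable def lift {K L M : Type*} [Field K] [LieRing L] [LieAlgebra K L] [LieRing M]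
    [LieAlgebra K M] (I : LieIdeal K L) (f : L →ₗ⁅K⁆ M) (h : ∀ x ∈ I, f x = 0) :
    (L ⧸ I) →ₗ⁅K⁆ M :=
  { (I.toSubmodule.liftQ (f : L →ₗ[K] M) (fun x hx => h x hx) : (L ⧸ I) →ₗ[K] M) with
    map_lie' := by
      rintro ⟨x⟩ ⟨y⟩
      exact f.map_lie x y }

theorem lift_mk {K L M : Type*} [Field K] [LieRing L] [LieAlgebra K L] [LieRing M]
    [LieAlgebra K M] (I : LieIdeal K L) (f : L →ₗ⁅K⁆ M) (h : ∀ x ∈ I, f x = 0) (x : L) :
    lift I f h (LieSubmodule.Quotient.mk x) = f x := rfl

end quot

section irr

variable {K L W : Type*} [Field K] [LieRing L] [LieAlgebra K L] [AddCommGroup W] [Module K W]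
  [LieRingModule L W] [LieModule K L W]

/-- the trace free part of the action -/
noncomputable def tf (K L W : Type*) [Field K] [LieRing L] [LieAlgebra K L] [AddCommGroup W]
    [Module K W] [LieRingModule L W] [LieModule K L W] : L →ₗ⁅K⁆ Module.End K W :=
  { toFun := fun x => LieModule.toEnd K L W x -
      ((finrank K W : K)⁻¹ * LinearMap.trace K W (LieModule.toEnd K L W x)) • 1
    map_add' := by
      intro x y
      simp only [map_add, mul_add, add_smul]
      abel
    map_smul' := by
      intro c x
      simp only [map_smul, smul_eq_mul, RingHom.id_apply, smul_sub, smul_smul]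
      congr 2
      ring
    map_lie' := by
      intro x y
      have h1 : LinearMap.trace K W (LieModule.toEnd K L W ⁅x, y⁆) = 0 := by
        rw [LieHom.map_lie, LinearMap.trace_lie]
      have h2 : LieModule.toEnd K L W ⁅x, y⁆ = LieModule.toEnd K L W x * LieModule.toEnd K L W y -
          LieModule.toEnd K L W y * LieModule.toEnd K L W x := by
        rw [LieHom.map_lie]; rfl
      rw [LieRing.of_associative_ring_bracket, h1, mul_zero, zero_smul, sub_zero, h2]
      generalize LieModule.toEnd K L W x = A
      generalize LieModule.toEnd K L W y = B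
      generalize ((finrank K W : K)⁻¹ * LinearMap.trace K W A) = a
      generalize ((finrank K W : K)⁻¹ * LinearMap.trace K W B) = b
      simp only [sub_mul, mul_sub, mul_smul_comm, smul_mul_assoc, mul_one, one_mul, smul_sub]
      rw [smul_comm a b]
      abel }

theorem tf_apply (x : L) : tf K L W x = LieModule.toEnd K L W x -
      ((finrank K W : K)⁻¹ * LinearMap.trace K W (LieModule.toEnd K L W x)) • 1 := rfl

theorem rad_scalar [IsAlgClosed K] [CharZero K] [Module.Finite K L] [Module.Finite K W]
    [LieModule.IsIrreducible K L W] :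
    ∃ χ : radical K L → K, ∀ x : radical K L, LieModule.toEnd K L W x = χ x • 1 := by
  have _i := LieModule.nontrivial_of_isIrreducible K L W
  obtain ⟨χ, hχ⟩ : ∃ χ : Module.Dual K (radical K L),
      Nontrivial (LieModule.weightSpace W χ) :=
    LieModule.exists_nontrivial_weightSpace_of_isSolvable K (radical K L) W
  let N : LieSubmodule K L W := LieModule.weightSpaceOfIsLieTower K W χ
  replace hχ : Nontrivial N := hχ
  replace hχ : N = ⊤ := N.eq_top_of_isIrreducible K L W
  refine ⟨χ, fun x => ?_⟩
  ext v
  have hm : ∀ (y : L) (hy : y ∈ radical K L), ⁅y, v⁆ = χ ⟨y, hy⟩ • v := by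
    simpa [N, LieModule.weightSpaceOfIsLieTower, LieModule.mem_weightSpace] using
      (hχ ▸ LieSubmodule.mem_top _ : v ∈ N)
  simpa using hm x x.2

theorem tf_rad [IsAlgClosed K] [CharZero K] [Module.Finite K L] [Module.Finite K W]
    [LieModule.IsIrreducible K L W] (x : L) (hx : x ∈ radical K L) : tf K L W x = 0 := by
  have _i := LieModule.nontrivial_of_isIrreducible K L W
  obtain ⟨χ, hχ⟩ := rad_scalar (K := K) (L := L) (W := W)
  have h1 := hχ ⟨x, hx⟩
  rw [tf_apply, h1, map_smul, LinearMap.trace_one, smul_eq_mul]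
  have h2 : (finrank K W : K) ≠ 0 := by
    exact_mod_cast (finrank_pos (R := K) (M := W)).ne'
  rw [mul_comm (χ _), ← mul_assoc, inv_mul_cancel₀ h2, one_mul, sub_self]

/-- **The span of an irreducible representation.** -/
theorem irr_bound [IsAlgClosed K] [CharZero K] [Module.Finite K L] [Module.Finite K W]
    [LieModule.IsIrreducible K L W] (m : ℕ)
    (hm : ∀ I : LieIdeal K (L ⧸ radical K L), IsAtom I → finrank K I ≤ m) :
    ∃ E : Submodule K (Module.End K W), (∀ x : L, LieModule.toEnd K L W x ∈ E) ∧
      finrank K E ≤ m * Nat.log 2 (finrank K W) + 1 ∧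
      finrank K E ≤ finrank K (L ⧸ radical K L) + 1 := by
  have _i := LieModule.nontrivial_of_isIrreducible K L W
  haveI := trivial_radical K L
  let θ : (L ⧸ radical K L) →ₗ⁅K⁆ Module.End K W := lift (radical K L) (tf K L W) tf_rad
  have hθ : ∀ x : L, θ (LieSubmodule.Quotient.mk x) = tf K L W x := fun x => rfl
  have hto : ∀ x : L, LieModule.toEnd K L W x = θ (LieSubmodule.Quotient.mk x) +
      ((finrank K W : K)⁻¹ * LinearMap.trace K W (LieModule.toEnd K L W x)) • 1 := by
    intro x
    rw [hθ, tf_apply, sub_add_cancel]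
  have hirr : Irr θ := by
    intro U hU
    let U' : LieSubmodule K L W :=
      { U with
        lie_mem := by
          intro x u hu
          have h1 : ⁅x, u⁆ = LieModule.toEnd K L W x u := rfl
          show ⁅x, u⁆ ∈ U
          rw [h1, hto, LinearMap.add_apply, LinearMap.smul_apply, Module.End.one_apply]
          exact U.add_mem (hU _ u hu) (U.smul_mem _ hu) }
    rcases IsSimpleOrder.eq_bot_or_eq_top U' with h | h
    · left
      exact congrArg LieSubmodule.toSubmodule h
    · right
      exact congrArg LieSubmodule.toSubmodule h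
  have hb := range_bound hirr m hm
  refine ⟨LinearMap.range (θ : (L ⧸ radical K L) →ₗ[K] Module.End K W) ⊔
    Submodule.span K {1}, ?_, ?_, ?_⟩
  · intro x
    rw [hto]
    exact Submodule.add_mem_sup ⟨_, rfl⟩ (Submodule.smul_mem _ _ (Submodule.subset_span rfl))
  · refine (Submodule.finrank_add_le_finrank_add_finrank _ _).trans (Nat.add_le_add hb ?_)
    exact (finrank_span_le_card _).trans (by simp)
  · refine (Submodule.finrank_add_le_finrank_add_finrank _ _).trans (Nat.add_le_add ?_ ?_)
    · exact LinearMap.finrank_range_le _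
    · exact (finrank_span_le_card _).trans (by simp)

end irr

end Pool.Agent.TH189.Lev
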