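import Pool.Agent.W943.Orb8

/-!
Block triangular matrices of linear forms whose diagonal blocks contain few linearly independent
forms.
-/

namespace Pool.Agent.TH189.Lev

open MvPolynomial Module Pool.Agent.H530R2 Pool.Agent.W943

variable {K : Type} [Field K] {n : ℕ}

/-- the linear form with given coefficients -/
noncomputable def lform (K : Type) [Field K] (n : ℕ) : (Fin n → K) →ₗ[K] MvPolynomial (Fin n) K :=
  Fintype.linearCombination K (fun k : Fin n => (X k : MvPolynomial (Fin n) K))

theorem lform_apply (c : Fin n → K) : lform K n c = ∑ k, C (c k) * X k := by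
  rw [lform, Fintype.linearCombination_apply]
  exact Finset.sum_congr rfl fun k _ => (C_mul').symm

theorem pderiv_lform (c : Fin n → K) (l : Fin n) : pderiv l (lform K n c) = C (c l) := by
  rw [lform_apply, map_sum, Finset.sum_eq_single l]
  · rw [pderiv_C_mul, pderiv_X_self, mul_one]
  · intro k _ hk
    rw [pderiv_C_mul, pderiv_X_of_ne hk, mul_zero]
  · intro h; exact absurd (Finset.mem_univ _) h

/-- Nonzero polynomials in at most `s` linear forms are not killed by `s` seeds. -/
theorem few_forms [CharZero K] (a : Fin n → K) (ha : Function.Injective a) (s : ℕ)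
    (U : Submodule K (Fin n → K)) (hU : finrank K U ≤ s) (f : MvPolynomial (Fin n) K)
    (hf : f ∈ Algebra.adjoin K ((U.map (lform K n) : Submodule K _) : Set (MvPolynomial (Fin n) K)))
    (hf0 : f ≠ 0) : f ∉ genI a s := by
  classical
  let r := finrank K U
  let v := Module.finBasis K U
  let φ : Fin r → MvPolynomial (Fin n) K := fun i => lform K n (v i)
  let ι : (Fin r → K) →ₗ[K] (Fin n → K) := Fintype.linearCombination K (fun i => (v i : Fin n → K))
  have hι : LinearMap.ker ι = ⊥ := by
    rw [LinearMap.ker_eq_bot']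
    intro c hc
    rw [Fintype.linearCombination_apply] at hc
    have h1 : ∑ i, c i • v i = 0 := by
      apply Subtype.ext
      push_cast
      exact hc
    exact funext (Fintype.linearIndependent_iff.1 v.linearIndependent c h1)
  obtain ⟨g, hg⟩ := LinearMap.exists_leftInverse_of_injective ι hι
  have hgv : ∀ k, g (v k) = Pi.single k 1 := by
    intro k
    have h1 : ι (Pi.single k 1) = v k := by
      rw [Fintype.linearCombination_apply_single, one_smul]
    rw [← h1]
    exact LinearMap.congr_fun hg _
  have hD : ∀ i k : Fin r, ∑ l : Fin n, (C (g (Pi.single l 1) i) : MvPolynomial (Fin n) K) *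
      pderiv l (φ k) = if i = k then 1 else 0 := by
    intro i k
    simp only [φ, pderiv_lform, ← map_mul]
    rw [← map_sum]
    have h1 : ∑ l, g (Pi.single l 1) i * (v k : Fin n → K) l = g (v k) i := by
      conv_rhs => rw [← (Finset.univ_sum_single (v k : Fin n → K))]
      rw [map_sum, Finset.sum_apply]
      refine Finset.sum_congr rfl fun l _ => ?_
      have : (Pi.single l ((v k : Fin n → K) l) : Fin n → K) =
          (v k : Fin n → K) l • Pi.single l 1 := by
        rw [← Pi.single_smul, smul_eq_mul, mul_one]
      rw [this, map_smul, Pi.smul_apply, smul_eq_mul, mul_comm]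
    rw [h1, hgv, Pi.single_apply]
    split_ifs <;> simp
  let V := genChain a ha
  have h1n : (1 : MvPolynomial (Fin n) K) ∉ V.I 0 :=
    fun h => (V.prime 0).ne_top ((Ideal.eq_top_iff_one _).2 h)
  let V' : DChain K r := V.pull φ (fun i l => C (g (Pi.single l 1) i)) 1 hD 0 h1n
  obtain ⟨p, hp⟩ : ∃ p : MvPolynomial (Fin r) K, aeval φ p = f := by
    have h2 : Algebra.adjoin K ((U.map (lform K n) : Submodule K _) :
        Set (MvPolynomial (Fin n) K)) ≤ (aeval φ : MvPolynomial (Fin r) K →ₐ[K] _).range := by
      refine Algebra.adjoin_le ?_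
      rintro _ ⟨c, hc, rfl⟩
      have h3 : lform K n c = ∑ i, v.repr ⟨c, hc⟩ i • φ i := by
        have h4 := congrArg Subtype.val (v.sum_repr ⟨c, hc⟩)
        push_cast at h4
        conv_lhs => rw [← h4]
        rw [map_sum]
        exact Finset.sum_congr rfl fun i _ => by rw [map_smul]
      rw [h3]
      refine Subalgebra.sum_mem _ fun i _ => Subalgebra.smul_mem _ ?_ _
      exact ⟨X i, aeval_X _ _⟩
    exact h2 hf
  intro hmem
  have h5 : f ∈ V.I (0 + r) := V.mono (by omega) hmem
  have h6 : p ∈ V'.I r := by
    show aeval φ p ∈ V.I (0 + r)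
    rw [hp]; exact h5
  rw [V'.level_n] at h6
  rw [(Submodule.mem_bot _).1 h6, map_zero] at hp
  exact hf0 hp.symm

theorem coeff_mem {R : Type*} [CommRing R] [Algebra K R] {ι : Type*} [Fintype ι] [DecidableEq ι]
    (A : Subalgebra K R) (M : Matrix ι ι R) (h : ∀ i j, M i j ∈ A) (k : ℕ) :
    M.charpoly.coeff k ∈ A := by
  let M' : Matrix ι ι A := Matrix.of fun i j => ⟨M i j, h i j⟩
  have hM : M = M'.map A.val := by ext i j; rfl
  have h1 : M.charpoly = M'.charpoly.map (A.val : A →+* R) := by
    rw [hM]; exact Matrix.charpoly_map _ _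
  rw [h1, Polynomial.coeff_map]
  exact (M'.charpoly.coeff k).2

/-- the characteristic polynomial of a block triangular matrix -/
theorem charpoly_block {R ι : Type*} [CommRing R] [Fintype ι] [DecidableEq ι] (M : Matrix ι ι R)
    (lev : ι → ℕ) (h : M.BlockTriangular lev) :
    M.charpoly = ∏ t ∈ Finset.univ.image lev, (M.toSquareBlock lev t).charpoly := by
  have h1 : M.charmatrix.BlockTriangular lev := by
    intro i j hij
    have hne : i ≠ j := fun e => by rw [e] at hij; exact lt_irrefl _ hij
    rw [Matrix.charmatrix_apply_ne _ _ _ hne, h hij, map_zero, neg_zero]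
  rw [Matrix.charpoly, h1.det]
  refine Finset.prod_congr rfl fun t _ => ?_
  rw [Matrix.charpoly]
  congr 1
  ext i j : 2
  simp only [Matrix.toSquareBlock_def, Matrix.of_apply, Matrix.charmatrix_apply]
  congr 1
  rw [Matrix.diagonal_apply, Matrix.diagonal_apply]
  simp only [Subtype.ext_iff]

theorem trailing_prod {R : Type*} [CommRing R] [IsDomain R] (P : Ideal R) (hP : P.IsPrime)
    {τ : Type*} (S : Finset τ) (q : τ → Polynomial R) (h : ∀ t ∈ S, (q t).trailingCoeff ∉ P) :
    (∏ t ∈ S, q t).trailingCoeff ∉ P := by
  classical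
  induction S using Finset.induction_on with
  | empty =>
    rw [Finset.prod_empty]
    have : (1 : Polynomial R).trailingCoeff = 1 := by simp [Polynomial.trailingCoeff]
    rw [this]
    exact fun h => hP.ne_top ((Ideal.eq_top_iff_one _).2 h)
  | insert t S ht ih =>
    rw [Finset.prod_insert ht, Polynomial.trailingCoeff_mul]
    intro hmem
    rcases hP.mem_or_mem hmem with h1 | h1
    · exact h t (Finset.mem_insert_self _ _) h1
    · exact ih (fun t' ht' => h t' (Finset.mem_insert_of_mem ht')) h1

/-- block triangular matrices of linear forms, with few forms in each diagonal block -/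
theorem block_notMem [CharZero K] {ι : Type*} [Fintype ι] [DecidableEq ι] (a : Fin n → K)
    (ha : Function.Injective a) (s : ℕ) (M : Matrix ι ι (MvPolynomial (Fin n) K)) (lev : ι → ℕ)
    (hbt : M.BlockTriangular lev) (U : ℕ → Submodule K (Fin n → K)) (hU : ∀ t, finrank K (U t) ≤ s)
    (hM : ∀ i j, lev i = lev j → M i j ∈ (U (lev i)).map (lform K n)) :
    M.charpoly.trailingCoeff ∉ genI a s := by
  rw [charpoly_block M lev hbt]
  refine trailing_prod _ (genI_prime a s) _ _ fun t _ => ?_
  refine few_forms a ha s (U t) (hU t) _ ?_ ?_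
  · refine coeff_mem _ _ ?_ _
    intro i j
    have hij : lev i = lev j := by rw [i.2, j.2]
    have h1 := hM i j hij
    rw [i.2] at h1
    exact Algebra.subset_adjoin h1
  · rw [Ne, Polynomial.trailingCoeff_eq_zero]
    exact (Matrix.charpoly_monic _).ne_zero

end Pool.Agent.TH189.Lev
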