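import Pool.Agent.TH189.Lev5
import Pool.Agent.TH189.Lev6

/-!
Block matrices over a matrix Lie algebra: the generator does not kill the last coefficient of the
characteristic polynomial.
-/

namespace Pool.Agent.TH189.Lev

open MvPolynomial Module LieAlgebra Pool.Agent.H530R2 Pool.Agent.W943

attribute [local instance 100] LieRing.ofAssociativeRing

section forms

variable {K : Type} [Field K] {n : ℕ}

/-- values of functionals on a family of elements -/
def famMap {E : Type*} [AddCommGroup E] [Module K E] (A : Fin n → E) :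
    Module.Dual K E →ₗ[K] (Fin n → K) where
  toFun := fun l k => l (A k)
  map_add' := fun _ _ => rfl
  map_smul' := fun _ _ => rfl

/-- the space of coefficient vectors of all entries of a family of matrices -/
noncomputable def famSpace {ι : Type} {b : ℕ} (E : Submodule K (Matrix ι ι K))
    (A : Fin n → Fin b → Fin b → E) : Submodule K (Fin n → K) :=
  (Finset.univ : Finset (Fin b × Fin b)).sup fun q =>
    LinearMap.range (famMap (K := K) fun k => A k q.1 q.2)

theorem famSpace_finrank {ι : Type} [Finite ι] {b : ℕ} (E : Submodule K (Matrix ι ι K)) (s : ℕ)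
    (hE : finrank K E ≤ s) (A : Fin n → Fin b → Fin b → E) :
    finrank K (famSpace E A) ≤ s * (b * b) := by
  have h1 : (Finset.univ : Finset (Fin b × Fin b)).card = b * b := by simp
  rw [← h1]
  refine finrank_sup_le _ _ s fun q _ => ?_
  refine (LinearMap.finrank_range_le _).trans ?_
  rw [Subspace.dual_finrank_eq]
  exact hE

theorem mem_famSpace {ι : Type} {b : ℕ} (E : Submodule K (Matrix ι ι K))
    (A : Fin n → Fin b → Fin b → E) (a c : Fin b) (i j : ι) :
    (fun k => (A k a c : Matrix ι ι K) i j) ∈ famSpace E A := by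
  have h1 : LinearMap.range (famMap (K := K) fun k => A k a c) ≤ famSpace E A :=
    Finset.le_sup (f := fun q : Fin b × Fin b =>
      LinearMap.range (famMap (K := K) fun k => A k q.1 q.2)) (Finset.mem_univ (a, c))
  refine h1 ⟨(Matrix.entryLinearMap K K i j).comp E.subtype, ?_⟩
  rfl

end forms

section big

variable {N b n : ℕ}

/-- block matrix with blocks `G a c` -/
def big {K : Type} (G : Fin b → Fin b → Matrix (Fin N) (Fin N) K) :
    Matrix (Fin b × Fin N) (Fin b × Fin N) K :=
  Matrix.of fun p q => G p.1 q.1 p.2 q.2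

/-- block diagonal matrix with equal blocks -/
noncomputable def rep {K : Type} [CommRing K] (b : ℕ) (T : Matrix (Fin N) (Fin N) K) :
    Matrix (Fin b × Fin N) (Fin b × Fin N) K :=
  Matrix.of fun p q => if p.1 = q.1 then T p.2 q.2 else 0

theorem rep_mul_big {K : Type} [CommRing K] (T : Matrix (Fin N) (Fin N) K)
    (G : Fin b → Fin b → Matrix (Fin N) (Fin N) K) :
    rep b T * big G = big fun a c => T * G a c := by
  ext ⟨a, i⟩ ⟨c, j⟩
  rw [Matrix.mul_apply, Fintype.sum_prod_type]
  simp [rep, big, Matrix.mul_apply, ite_mul]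

theorem big_mul_rep {K : Type} [CommRing K] (T : Matrix (Fin N) (Fin N) K)
    (G : Fin b → Fin b → Matrix (Fin N) (Fin N) K) :
    big G * rep b T = big fun a c => G a c * T := by
  ext ⟨a, i⟩ ⟨c, j⟩
  rw [Matrix.mul_apply, Fintype.sum_prod_type_right]
  simp [rep, big, Matrix.mul_apply, mul_ite]

theorem rep_mul_rep {K : Type} [CommRing K] (T S : Matrix (Fin N) (Fin N) K) :
    rep b T * rep b S = rep b (T * S) := by
  ext ⟨a, i⟩ ⟨c, j⟩
  rw [Matrix.mul_apply, Fintype.sum_prod_type]
  simp [rep, Matrix.mul_apply, ite_mul]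

theorem rep_one {K : Type} [CommRing K] : rep b (1 : Matrix (Fin N) (Fin N) K) = 1 := by
  ext ⟨a, i⟩ ⟨c, j⟩
  simp only [rep, Matrix.of_apply, Matrix.one_apply, Prod.mk.injEq]
  split_ifs <;> simp_all

end big

section main

variable {N b n : ℕ}

/-- the symbolic block matrix -/
noncomputable def symb {K : Type} [Field K] (G : Fin n → Fin b → Fin b → Matrix (Fin N) (Fin N) K) :
    Matrix (Fin b × Fin N) (Fin b × Fin N) (MvPolynomial (Fin n) K) :=
  Matrix.of fun p q => lform K n fun k => G k p.1 q.1 p.2 q.2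

theorem symb_conj {K : Type} [Field K] (G : Fin n → Fin b → Fin b → Matrix (Fin N) (Fin N) K)
    (T S : Matrix (Fin N) (Fin N) K) :
    symb (fun k a c => T * G k a c * S) =
      rep b (T.map C) * symb G * rep b (S.map C) := by
  have h1 : symb G = big fun a c => Matrix.of fun i j => lform K n fun k => G k a c i j := rfl
  rw [h1, rep_mul_big, big_mul_rep]
  ext1 ⟨a, i⟩ ⟨c, j⟩
  simp only [symb, big, Matrix.of_apply]
  simp only [Matrix.mul_apply, Matrix.map_apply, Matrix.of_apply, lform_apply, map_sum, map_mul]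
  simp only [Finset.sum_mul, Finset.mul_sum]
  rw [Finset.sum_comm]
  refine Finset.sum_congr rfl fun k _ => ?_
  rw [Finset.sum_comm]
  refine Finset.sum_congr rfl fun q _ => ?_
  refine Finset.sum_congr rfl fun r _ => ?_
  ring

theorem main (𝔤 : LieSubalgebra ℂ (Matrix (Fin N) (Fin N) ℂ)) (m s : ℕ)
    (hm : ∀ I : LieIdeal ℂ (𝔤 ⧸ radical ℂ 𝔤), IsAtom I → finrank ℂ I ≤ m)
    (hs : min (m * Nat.log 2 N) (finrank ℂ (𝔤 ⧸ radical ℂ 𝔤)) + 1 ≤ s)
    (a : Fin n → ℂ) (ha : Function.Injective a)
    (G : Fin n → Fin b → Fin b → Matrix (Fin N) (Fin N) ℂ) (hG : ∀ k i j, G k i j ∈ 𝔤) :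
    (symb G).charpoly.trailingCoeff ∉ genI a (s * (b * b)) := by
  classical
  have hfr : finrank ℂ (Fin N → ℂ) = N := by simp
  obtain ⟨ι, _, _, e, lev, E, h1, h2, h3⟩ :=
    exists_flag (K := ℂ) (L := 𝔤) m s N hm hs N (Fin N → ℂ) hfr le_rfl
  have hcard : Fintype.card (Fin N) = Fintype.card ι := by
    rw [← Module.finrank_eq_card_basis e, hfr, Fintype.card_fin]
  let σ : Fin N ≃ ι := Fintype.equivOfCardEq hcard
  let std := Pi.basisFun ℂ (Fin N)
  let e' : Basis (Fin N) ℂ (Fin N → ℂ) := e.reindex σ.symm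
  let T := e'.toMatrix std
  let S := std.toMatrix e'
  have hST : S * T = 1 := std.toMatrix_mul_toMatrix_flip e'
  have hconj : ∀ (g : 𝔤) (i j : Fin N), (T * (g : Matrix (Fin N) (Fin N) ℂ) * S) i j =
      LinearMap.toMatrix e e (LieModule.toEnd ℂ 𝔤 (Fin N → ℂ) g) (σ i) (σ j) := by
    intro g i j
    have h4 : LinearMap.toMatrix std std (LieModule.toEnd ℂ 𝔤 (Fin N → ℂ) g) =
        (g : Matrix (Fin N) (Fin N) ℂ) := by
      have h5 : LieModule.toEnd ℂ 𝔤 (Fin N → ℂ) g = Matrix.toLin' (g : Matrix _ _ ℂ) := by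
        ext1 v
        rfl
      rw [h5, LinearMap.toMatrix_eq_toMatrix', LinearMap.toMatrix'_toLin']
    have h6 := basis_toMatrix_mul_linearMap_toMatrix_mul_basis_toMatrix e' std e' std
      (LieModule.toEnd ℂ 𝔤 (Fin N → ℂ) g)
    rw [h4] at h6
    show (e'.toMatrix std * (g : Matrix (Fin N) (Fin N) ℂ) * std.toMatrix e') i j = _
    rw [h6, LinearMap.toMatrix_apply, LinearMap.toMatrix_apply]
    simp [e']
  have hcp : (symb G).charpoly = (symb fun k a c => T * G k a c * S).charpoly := by
    have h7 : rep b (S.map (C : ℂ → MvPolynomial (Fin n) ℂ)) * rep b (T.map C) = 1 := by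
      rw [rep_mul_rep]
      have h8 : S.map (C : ℂ →+* MvPolynomial (Fin n) ℂ) * T.map (C : ℂ →+* _) = 1 := by
        rw [← Matrix.map_mul, hST, Matrix.map_one _ (map_zero _) (map_one _)]
      exact (congrArg (rep b) h8).trans rep_one
    rw [symb_conj, Matrix.charpoly_mul_comm, ← Matrix.mul_assoc, h7, Matrix.one_mul]
  rw [hcp]
  choose A hA hA' using fun (k : Fin n) (a c : Fin b) (t : ℕ) => h3 ⟨G k a c, hG k a c⟩ t
  refine block_notMem a ha (s * (b * b)) _ (fun p => lev (σ p.2)) ?_
    (fun t => famSpace (E t) fun k a c => ⟨A k a c t, hA k a c t⟩)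
    (fun t => famSpace_finrank (E t) s (h1 t) _) ?_
  · rintro ⟨a, i⟩ ⟨c, j⟩ hij
    have h9 : (fun k => (T * G k a c * S) i j) = 0 := by
      funext k
      rw [hconj ⟨G k a c, hG k a c⟩ i j]
      exact h2 _ _ _ hij
    show lform ℂ n (fun k => (T * G k a c * S) i j) = 0
    rw [h9, map_zero]
  · rintro ⟨a, i⟩ ⟨c, j⟩ hij
    have h9 : (fun k => (T * G k a c * S) i j) = fun k => A k a c (lev (σ i)) (σ i) (σ j) := by
      funext k
      rw [hconj ⟨G k a c, hG k a c⟩ i j]
      exact hA' k a c (lev (σ i)) (σ i) (σ j) rfl hij.symm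
    show lform ℂ n (fun k => (T * G k a c * S) i j) ∈ _
    rw [h9]
    exact Submodule.mem_map_of_mem (mem_famSpace (E (lev (σ i)))
      (fun k a c => ⟨A k a c (lev (σ i)), hA k a c (lev (σ i))⟩) a c (σ i) (σ j))

end main

end Pool.Agent.TH189.Lev
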