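import Pool.Agent.W943.Orb8

/-!
Polynomials which are combinations of the solutions of a Pfaffian system of small rank and degree
do not lie in the ideals of a chain of primes which loses one step under differentiation.
-/

namespace Pool.Agent.TH189.Pf

open MvPolynomial Module Pool.Agent.H530R2 Pool.Agent.W943

variable {F : Type} [Field F] {n r : ℕ}


/-- all derivatives of order at most `k` lie in the ideal -/
def S (J : Ideal (MvPolynomial (Fin n) F)) : ℕ → MvPolynomial (Fin n) F → Prop
  | 0, g => g ∈ J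
  | k + 1, g => g ∈ J ∧ ∀ i, S J k (pderiv i g)

theorem S_mem {J : Ideal (MvPolynomial (Fin n) F)} {k : ℕ} {g : MvPolynomial (Fin n) F}
    (h : S J k g) : g ∈ J := by
  cases k with
  | zero => exact h
  | succ k => exact h.1

theorem S_le {J : Ideal (MvPolynomial (Fin n) F)} {k : ℕ} : ∀ {g : MvPolynomial (Fin n) F},
    S J (k + 1) g → S J k g := by
  induction k with
  | zero => intro g h; exact h.1
  | succ k ih => intro g h; exact ⟨h.1, fun i => ih (h.2 i)⟩

theorem S_add {J : Ideal (MvPolynomial (Fin n) F)} {k : ℕ} : ∀ {g g' : MvPolynomial (Fin n) F},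
    S J k g → S J k g' → S J k (g + g') := by
  induction k with
  | zero => intro g g' h h'; exact J.add_mem h h'
  | succ k ih =>
    intro g g' h h'
    exact ⟨J.add_mem h.1 h'.1, fun i => by rw [map_add]; exact ih (h.2 i) (h'.2 i)⟩

theorem S_neg {J : Ideal (MvPolynomial (Fin n) F)} {k : ℕ} : ∀ {g : MvPolynomial (Fin n) F},
    S J k g → S J k (-g) := by
  induction k with
  | zero => intro g h; exact J.neg_mem h
  | succ k ih => intro g h; exact ⟨J.neg_mem h.1, fun i => by rw [map_neg]; exact ih (h.2 i)⟩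

theorem S_mul {J : Ideal (MvPolynomial (Fin n) F)} {k : ℕ} :
    ∀ {a g : MvPolynomial (Fin n) F}, S J k g → S J k (a * g) := by
  induction k with
  | zero => intro a g h; exact J.mul_mem_left _ h
  | succ k ih =>
    intro a g h
    refine ⟨J.mul_mem_left _ h.1, fun i => ?_⟩
    rw [pderiv_mul]
    exact S_add (ih (S_le h)) (ih (h.2 i))

theorem S_cancel {J : Ideal (MvPolynomial (Fin n) F)} (hJ : J.IsPrime)
    {μ : MvPolynomial (Fin n) F} (hμ : μ ∉ J) {k : ℕ} :
    ∀ {g : MvPolynomial (Fin n) F}, S J k (μ * g) → S J k g := by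
  induction k with
  | zero => intro g h; exact (hJ.mem_or_mem h).resolve_left hμ
  | succ k ih =>
    intro g h
    have h1 : S J k g := ih (S_le h)
    refine ⟨S_mem h1, fun i => ih ?_⟩
    have h2 := h.2 i
    rw [pderiv_mul] at h2
    have h3 := S_add (S_neg (S_mul (a := pderiv i μ) h1)) h2
    rwa [neg_add_cancel_left] at h3

theorem S_zero [CharZero F] {J : Ideal (MvPolynomial (Fin n) F)} (hJ : J.IsPrime) {k : ℕ} :
    ∀ {g : MvPolynomial (Fin n) F}, g.totalDegree ≤ k → S J k g → g = 0 := by
  have hc : ∀ c : F, (C c : MvPolynomial (Fin n) F) ∈ J → c = 0 := by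
    intro c hc
    by_contra h0
    apply hJ.ne_top
    rw [Ideal.eq_top_iff_one]
    have : (1 : MvPolynomial (Fin n) F) = C c⁻¹ * C c := by
      rw [← map_mul, inv_mul_cancel₀ h0, map_one]
    rw [this]
    exact Ideal.mul_mem_left _ _ hc
  induction k with
  | zero =>
    intro g hd h
    have h1 := totalDegree_eq_zero_iff_eq_C.1 (Nat.le_zero.1 hd)
    rw [h1] at h ⊢
    rw [hc _ h, map_zero]
  | succ k ih =>
    intro g hd h
    have h1 : ∀ i, pderiv i g = 0 := by
      intro i
      refine ih ?_ (h.2 i)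
      have := totalDegree_pderiv_le i g
      omega
    have h2 := eq_C_of_pderiv h1
    have h3 := h.1
    rw [h2] at h3 ⊢
    rw [hc _ h3, map_zero]

/-- the determinant of a matrix with bounded degrees in the rows -/
theorem det_deg {t : ℕ} (M : Matrix (Fin t) (Fin t) (MvPolynomial (Fin n) F)) (e : Fin t → ℕ)
    (h : ∀ i j, (M i j).totalDegree ≤ e i) : M.det.totalDegree ≤ ∑ i, e i := by
  rw [Matrix.det_apply]
  refine (totalDegree_finsetSum _ _).trans (Finset.sup_le fun σ _ => ?_)
  have h1 : (∏ i, M (σ i) i).totalDegree ≤ ∑ i, e i := by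
    refine (totalDegree_finsetProd _ _).trans ?_
    rw [← Equiv.sum_comp σ e]
    exact Finset.sum_le_sum fun i _ => h _ _
  rcases Int.units_eq_one_or (Equiv.Perm.sign σ) with h2 | h2
  · rw [h2, one_smul]; exact h1
  · rw [h2, Units.neg_smul, one_smul, totalDegree_neg]; exact h1

/-- the covariant derivative `μ ∂_i w + w c_i` -/
noncomputable def nab (μ : MvPolynomial (Fin n) F)
    (c : Fin n → Matrix (Fin r) (Fin r) (MvPolynomial (Fin n) F)) (i : Fin n)
    (w : Fin r → MvPolynomial (Fin n) F) : Fin r → MvPolynomial (Fin n) F :=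
  fun b => μ * pderiv i (w b) + ∑ a, w a * c i a b

/-- the value of a row at the solution -/
noncomputable def val (w y : Fin r → MvPolynomial (Fin n) F) : MvPolynomial (Fin n) F :=
  ∑ a, w a * y a

theorem nab_val {μ : MvPolynomial (Fin n) F}
    {c : Fin n → Matrix (Fin r) (Fin r) (MvPolynomial (Fin n) F)}
    {y : Fin r → MvPolynomial (Fin n) F}
    (hy : ∀ i a, μ * pderiv i (y a) = ∑ b, c i a b * y b) (i : Fin n)
    (w : Fin r → MvPolynomial (Fin n) F) :
    val (nab μ c i w) y = μ * pderiv i (val w y) := by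
  unfold val nab
  rw [map_sum, Finset.mul_sum]
  simp only [add_mul, Finset.sum_add_distrib]
  have h1 : ∑ b, (∑ a, w a * c i a b) * y b = ∑ a, w a * (μ * pderiv i (y a)) := by
    simp only [Finset.sum_mul, hy, Finset.mul_sum]
    rw [Finset.sum_comm]
    exact Finset.sum_congr rfl fun a _ => Finset.sum_congr rfl fun b _ => by ring
  rw [h1, ← Finset.sum_add_distrib]
  refine Finset.sum_congr rfl fun a _ => ?_
  rw [pderiv_mul]
  ring

theorem nab_deg {μ : MvPolynomial (Fin n) F}
    {c : Fin n → Matrix (Fin r) (Fin r) (MvPolynomial (Fin n) F)} {d e : ℕ}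
    (hμ : μ.totalDegree ≤ d + 1) (hc : ∀ i a b, (c i a b).totalDegree ≤ d) (i : Fin n)
    (w : Fin r → MvPolynomial (Fin n) F) (hw : ∀ a, (w a).totalDegree ≤ e) (b : Fin r) :
    (nab μ c i w b).totalDegree ≤ e + d := by
  unfold nab
  refine (totalDegree_add _ _).trans (max_le ?_ ?_)
  · by_cases h0 : pderiv i (w b) = 0
    · rw [h0, mul_zero, totalDegree_zero]; omega
    · have h1 : 1 ≤ (w b).totalDegree := by
        by_contra hlt
        have h2 := totalDegree_eq_zero_iff_eq_C.1 (by omega : (w b).totalDegree = 0)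
        rw [h2, pderiv_C] at h0
        exact h0 rfl
      have h2 := totalDegree_pderiv_le i (w b)
      have h3 := totalDegree_mul μ (pderiv i (w b))
      have h4 := hw b
      omega
  · refine (totalDegree_finsetSum _ _).trans (Finset.sup_le fun a _ => ?_)
    have h3 := totalDegree_mul (w a) (c i a b)
    have h4 := hw a
    have h5 := hc i a b
    omega

end Pool.Agent.TH189.Pf
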