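import Pool.Agent.TH189.Pf1
import Pool.Agent.H530R2.LinAlg

/-!
Polynomials which are combinations of the solutions of a Pfaffian system of small rank and degree
do not lie in the ideals of a chain of primes which loses one step under differentiation.
-/

namespace Pool.Agent.TH189.Pf

open MvPolynomial Module Pool.Agent.H530R2 Pool.Agent.W943

variable {F : Type} [Field F] {n r : ℕ}

/-- a row over the field of fractions -/
noncomputable def fr (w : Fin r → MvPolynomial (Fin n) F) :
    Fin r → FractionRing (MvPolynomial (Fin n) F) :=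
  fun a => algebraMap (MvPolynomial (Fin n) F) (FractionRing (MvPolynomial (Fin n) F)) (w a)

/-- the span of the rows over the field of fractions -/
def InSpan {t : ℕ} (L : Fin t → Fin r → MvPolynomial (Fin n) F)
    (w : Fin r → MvPolynomial (Fin n) F) : Prop :=
  fr w ∈ Submodule.span (FractionRing (MvPolynomial (Fin n) F)) (Set.range fun j => fr (L j))

theorem inSpan_iff {t : ℕ} (L : Fin t → Fin r → MvPolynomial (Fin n) F)
    (w : Fin r → MvPolynomial (Fin n) F) :
    InSpan L w ↔ ∃ (a : MvPolynomial (Fin n) F) (b : Fin t → MvPolynomial (Fin n) F), a ≠ 0 ∧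
      ∀ α, a * w α = ∑ j, b j * L j α := by
  have hinj : Function.Injective (algebraMap (MvPolynomial (Fin n) F)
      (FractionRing (MvPolynomial (Fin n) F))) := IsFractionRing.injective _ _
  constructor
  · intro h
    obtain ⟨c, hc⟩ := (Submodule.mem_span_range_iff_exists_fun _).1 h
    obtain ⟨a, ha⟩ := IsLocalization.exist_integer_multiples_of_finite
      (nonZeroDivisors (MvPolynomial (Fin n) F)) c
    choose b hb using ha
    refine ⟨a, b, nonZeroDivisors.coe_ne_zero a, fun α => hinj ?_⟩
    have h1 := congrFun hc α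
    simp only [Finset.sum_apply, Pi.smul_apply, smul_eq_mul, fr] at h1
    rw [map_mul, map_sum, ← h1, Finset.mul_sum]
    refine Finset.sum_congr rfl fun j _ => ?_
    rw [map_mul, hb j, Algebra.smul_def]
    ring
  · rintro ⟨a, b, ha, hb⟩
    have ha' : algebraMap (MvPolynomial (Fin n) F) (FractionRing (MvPolynomial (Fin n) F)) a ≠ 0 :=
      fun h => ha (hinj (by rw [h, map_zero]))
    refine (Submodule.mem_span_range_iff_exists_fun _).2
      ⟨fun j => (algebraMap _ (FractionRing (MvPolynomial (Fin n) F)) a)⁻¹ *
        algebraMap _ (FractionRing (MvPolynomial (Fin n) F)) (b j), ?_⟩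
    funext α
    simp only [Finset.sum_apply, Pi.smul_apply, smul_eq_mul, fr]
    have h1 := congrArg (algebraMap (MvPolynomial (Fin n) F)
      (FractionRing (MvPolynomial (Fin n) F))) (hb α)
    rw [map_mul, map_sum] at h1
    have h2 : algebraMap (MvPolynomial (Fin n) F) (FractionRing (MvPolynomial (Fin n) F)) (w α) =
        (algebraMap _ (FractionRing (MvPolynomial (Fin n) F)) a)⁻¹ *
          (algebraMap _ (FractionRing (MvPolynomial (Fin n) F)) a *
            algebraMap _ (FractionRing (MvPolynomial (Fin n) F)) (w α)) := by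
      rw [← mul_assoc, inv_mul_cancel₀ ha', one_mul]
    rw [h2, h1, Finset.mul_sum]
    exact Finset.sum_congr rfl fun j _ => by rw [map_mul]; ring

theorem inSpan_self {t : ℕ} (L : Fin t → Fin r → MvPolynomial (Fin n) F) (j : Fin t) :
    InSpan L (L j) := Submodule.subset_span ⟨j, rfl⟩

/-- the span is stable under the covariant derivatives if this is so for its generators -/
theorem nab_span {t : ℕ} (L : Fin t → Fin r → MvPolynomial (Fin n) F)
    {μ : MvPolynomial (Fin n) F} {c : Fin n → Matrix (Fin r) (Fin r) (MvPolynomial (Fin n) F)}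
    (i : Fin n) (hL : ∀ j, InSpan L (nab μ c i (L j))) (w : Fin r → MvPolynomial (Fin n) F)
    (hw : InSpan L w) : InSpan L (nab μ c i w) := by
  obtain ⟨a, b, ha, hab⟩ := (inSpan_iff L w).1 hw
  have hinj : Function.Injective (algebraMap (MvPolynomial (Fin n) F)
      (FractionRing (MvPolynomial (Fin n) F))) := IsFractionRing.injective _ _
  have ha' : algebraMap (MvPolynomial (Fin n) F) (FractionRing (MvPolynomial (Fin n) F)) a ≠ 0 :=
    fun h => ha (hinj (by rw [h, map_zero]))
  -- the identity a ∇w = ∑ μ ∂b_j L_j + ∑ b_j ∇L_j - μ ∂a w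
  have key : ∀ α, a * nab μ c i w α = ∑ j, (μ * pderiv i (b j)) * L j α +
      ∑ j, b j * nab μ c i (L j) α - (μ * pderiv i a) * w α := by
    intro α
    have h1 := congrArg (pderiv i) (hab α)
    rw [pderiv_mul, map_sum] at h1
    have h2 : μ * (a * pderiv i (w α)) = ∑ j, (μ * pderiv i (b j)) * L j α +
        ∑ j, b j * (μ * pderiv i (L j α)) - (μ * pderiv i a) * w α := by
      have h3 : μ * (pderiv i a * w α + a * pderiv i (w α)) =
          μ * ∑ j, pderiv i (b j * L j α) := by rw [h1]
      rw [mul_add, Finset.mul_sum] at h3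
      have h4 : ∑ j, μ * pderiv i (b j * L j α) = ∑ j, (μ * pderiv i (b j)) * L j α +
          ∑ j, b j * (μ * pderiv i (L j α)) := by
        rw [← Finset.sum_add_distrib]
        exact Finset.sum_congr rfl fun j _ => by rw [pderiv_mul]; ring
      rw [h4] at h3
      rw [← h3]
      ring
    have h5 : a * ∑ β, w β * c i β α = ∑ j, b j * ∑ β, L j β * c i β α := by
      rw [Finset.mul_sum]
      have : ∀ β, a * (w β * c i β α) = ∑ j, b j * (L j β * c i β α) := by
        intro β
        rw [← mul_assoc, hab β, Finset.sum_mul]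
        exact Finset.sum_congr rfl fun j _ => by ring
      simp only [this]
      rw [Finset.sum_comm]
      exact Finset.sum_congr rfl fun j _ => by rw [Finset.mul_sum]
    unfold nab
    rw [mul_add, h5]
    have h6 : ∑ j, b j * (μ * pderiv i (L j α) + ∑ a, L j a * c i a α) =
        ∑ j, b j * (μ * pderiv i (L j α)) + ∑ j, b j * ∑ a, L j a * c i a α := by
      rw [← Finset.sum_add_distrib]
      exact Finset.sum_congr rfl fun j _ => by ring
    rw [h6, ← mul_assoc a μ, mul_comm a μ, mul_assoc μ a, h2]
    ring
  have hfr : (algebraMap _ (FractionRing (MvPolynomial (Fin n) F)) a) • fr (nab μ c i w) ∈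
      Submodule.span (FractionRing (MvPolynomial (Fin n) F)) (Set.range fun j => fr (L j)) := by
    have h7 : (algebraMap _ (FractionRing (MvPolynomial (Fin n) F)) a) • fr (nab μ c i w) =
        ∑ j, algebraMap _ (FractionRing (MvPolynomial (Fin n) F)) (μ * pderiv i (b j)) • fr (L j) +
        ∑ j, algebraMap _ (FractionRing (MvPolynomial (Fin n) F)) (b j) •
          fr (nab μ c i (L j)) -
        algebraMap _ (FractionRing (MvPolynomial (Fin n) F)) (μ * pderiv i a) • fr w := by
      funext α
      simp only [Pi.smul_apply, Pi.add_apply, Pi.sub_apply, Finset.sum_apply, smul_eq_mul, fr,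
        ← map_mul, ← map_sum, ← map_add, ← map_sub]
      rw [key α]
    rw [h7]
    refine Submodule.sub_mem _ (Submodule.add_mem _ ?_ ?_) (Submodule.smul_mem _ _ hw)
    · exact Submodule.sum_mem _ fun j _ => Submodule.smul_mem _ _ (inSpan_self L j)
    · exact Submodule.sum_mem _ fun j _ => Submodule.smul_mem _ _ (hL j)
  have h8 := Submodule.smul_mem _ (algebraMap _ (FractionRing (MvPolynomial (Fin n) F)) a)⁻¹ hfr
  rwa [smul_smul, inv_mul_cancel₀ ha', one_smul] at h8

/-- if the values of all rows of a stable span lie in a prime, then they vanish -/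
theorem stable_zero [CharZero F] {J : Ideal (MvPolynomial (Fin n) F)} (hJ : J.IsPrime) {t : ℕ}
    (L : Fin t → Fin r → MvPolynomial (Fin n) F)
    {μ : MvPolynomial (Fin n) F} {c : Fin n → Matrix (Fin r) (Fin r) (MvPolynomial (Fin n) F)}
    {y : Fin r → MvPolynomial (Fin n) F}
    (hy : ∀ i a, μ * pderiv i (y a) = ∑ b, c i a b * y b)
    (hL : ∀ i j, InSpan L (nab μ c i (L j))) (hμ : μ ∉ J)
    (hJL : ∀ w, InSpan L w → val w y ∈ J) (w : Fin r → MvPolynomial (Fin n) F)
    (hw : InSpan L w) : val w y = 0 := by
  have h1 : ∀ k, ∀ w, InSpan L w → S J k (val w y) := by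
    intro k
    induction k with
    | zero => intro w hw; exact hJL w hw
    | succ k ih =>
      intro w hw
      refine ⟨hJL w hw, fun i => ?_⟩
      refine S_cancel hJ hμ ?_
      rw [← nab_val hy]
      exact ih _ (nab_span L i (hL i) w hw)
  exact S_zero hJ le_rfl (h1 _ w hw)

end Pool.Agent.TH189.Pf
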