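import Pool.Agent.W467.FG.F

/-!
Gluing over the complement of the origin; regular functions on a projective variety are constant.
-/

set_option autoImplicit false

open MvPolynomial H960VB H938TB Pool.Agent.W615 Pool.Agent.W467.FO Pool.Agent.W467.FX

namespace Pool.Agent.TH189.Se

variable {n : ℕ}

/-- an ideal without zeros away from the origin -/
theorem null (J : Ideal (MvPolynomial (Fin (n + 1)) ℂ))
    (h : ∀ x : Fin (n + 1) → ℂ, x ≠ 0 → ∃ f ∈ J, eval x f ≠ 0) :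
    ∃ N : ℕ, ∀ i : Fin (n + 1), X i ^ N ∈ J := by
  classical
  have hzero : ∀ x ∈ zeroLocus ℂ J, x = 0 := by
    intro x hx
    by_contra hx0
    obtain ⟨f, hf, hfx⟩ := h x hx0
    apply hfx
    have h2 := hx f hf
    simpa [MvPolynomial.aeval_eq_eval] using h2
  have hrad : ∀ i : Fin (n + 1), ∃ N : ℕ, X i ^ N ∈ J := by
    intro i
    have h1 : (X i : MvPolynomial (Fin (n + 1)) ℂ) ∈ J.radical := by
      rw [← vanishingIdeal_zeroLocus_eq_radical (K := ℂ) J, mem_vanishingIdeal_iff]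
      intro x hx
      rw [hzero x hx]
      simp
    exact h1
  choose Nf hNf using hrad
  exact ⟨∑ i, Nf i, fun i => J.pow_mem_of_pow_mem (hNf i)
    (Finset.single_le_sum (f := Nf) (fun _ _ => Nat.zero_le _) (Finset.mem_univ i))⟩

/-- powers of distinct variables -/
theorem pow_dvd {i j : Fin (n + 1)} (hij : i ≠ j) (N : ℕ) {p q : MvPolynomial (Fin (n + 1)) ℂ}
    (h : X j ^ N * p = X i ^ N * q) : X i ^ N ∣ p := by
  refine Prime.pow_dvd_of_dvd_mul_left (X_prime (i := i) (R := ℂ)) N (a := X j ^ N) ?_ ⟨_, h⟩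
  intro h5
  have h6 := (X_prime (i := i) (R := ℂ)).dvd_of_dvd_pow h5
  rw [X_dvd_X] at h6
  exact hij h6

/-- cocycles are coboundaries -/
theorem cob (hn : 2 ≤ n) (N : ℕ) (A : Fin (n + 1) → Fin (n + 1) → MvPolynomial (Fin (n + 1)) ℂ)
    (ha : ∀ i j, A i j = -A j i)
    (hc : ∀ i j k, X k ^ N * A i j + X i ^ N * A j k + X j ^ N * A k i = 0) :
    ∃ a : Fin (n + 1) → MvPolynomial (Fin (n + 1)) ℂ,
      ∀ i j, A i j = X j ^ N * a i - X i ^ N * a j := by
  set i0 : Fin (n + 1) := ⟨0, by omega⟩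
  set i1 : Fin (n + 1) := ⟨1, by omega⟩
  set i2 : Fin (n + 1) := ⟨2, by omega⟩
  have h01 : i0 ≠ i1 := by simp [i0, i1]
  have h02 : i0 ≠ i2 := by simp [i0, i2]
  have h12 : i1 ≠ i2 := by simp [i1, i2]
  have hX : ∀ i : Fin (n + 1), (X i : MvPolynomial (Fin (n + 1)) ℂ) ^ N ≠ 0 := fun i =>
    pow_ne_zero _ (X_ne_zero _)
  obtain ⟨b₀, b₁, hb⟩ := H1_mono i0 i1 i2 h02 h12 N (A i0 i1) (-A i2 i0) (A i1 i2) (by
    linear_combination hc i0 i1 i2)
  have hk : ∀ k, ∃ a, A i0 k = X k ^ N * b₀ - X i0 ^ N * a := by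
    intro k
    have h1 : X i1 ^ N * (X k ^ N * b₀ - A i0 k) = X i0 ^ N * (X k ^ N * b₁ - A i1 k) := by
      linear_combination hc i0 i1 k - X k ^ N * hb - X i1 ^ N * ha k i0
    obtain ⟨a, ha'⟩ := pow_dvd h01 N h1
    exact ⟨a, by linear_combination -ha'⟩
  choose a ha' using hk
  refine ⟨a, fun i j => ?_⟩
  apply mul_left_cancel₀ (hX i0)
  linear_combination hc i j i0 - X i ^ N * ha j i0 - X j ^ N * ha' i + X i ^ N * ha' j

/-- **Gluing.** -/
theorem glue (hn : 2 ≤ n) {m : ℕ} {σ : Fin m → MvPolynomial (Fin (n + 1)) ℂ}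
    (hσ : ∃ k, σ k ≠ 0) (N : ℕ) (φ : Fin (n + 1) → Fin m → MvPolynomial (Fin (n + 1)) ℂ)
    (h : ∀ i j, ∃ a : MvPolynomial (Fin (n + 1)) ℂ, ∀ k,
      X j ^ N * φ i k - X i ^ N * φ j k = a * σ k) :
    ∃ (a : Fin (n + 1) → MvPolynomial (Fin (n + 1)) ℂ)
      (ψ : Fin m → MvPolynomial (Fin (n + 1)) ℂ), ∀ i k,
      φ i k = a i * σ k + X i ^ N * ψ k := by
  choose A hA using h
  obtain ⟨k0, hk0⟩ := hσ
  obtain ⟨a, ha⟩ := cob hn N A (fun i j => by
    apply mul_right_cancel₀ hk0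
    linear_combination -(hA i j k0) - hA j i k0) (fun i j k => by
    apply mul_right_cancel₀ hk0
    linear_combination -(X k ^ N) * hA i j k0 - X i ^ N * hA j k k0 - X j ^ N * hA k i k0)
  set i0 : Fin (n + 1) := ⟨0, by omega⟩
  set i1 : Fin (n + 1) := ⟨1, by omega⟩
  have h01 : i0 ≠ i1 := by simp [i0, i1]
  have hrel : ∀ i j k, X j ^ N * (φ i k - a i * σ k) = X i ^ N * (φ j k - a j * σ k) := by
    intro i j k
    linear_combination hA i j k + σ k * ha i j
  have hd : ∀ k, ∃ p, φ i0 k - a i0 * σ k = X i0 ^ N * p := fun k => pow_dvd h01 N (hrel i0 i1 k)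
  choose ψ hψ using hd
  refine ⟨a, ψ, fun i k => ?_⟩
  have hX : (X i0 : MvPolynomial (Fin (n + 1)) ℂ) ^ N ≠ 0 := pow_ne_zero _ (X_ne_zero _)
  apply mul_left_cancel₀ hX
  linear_combination hrel i i0 k + X i ^ N * hψ k

/-- components of products -/
theorem hcomp_mul {f : MvPolynomial (Fin (n + 1)) ℂ} {e : ℕ} (hf : f.IsHomogeneous e) (k : ℕ)
    (Q : MvPolynomial (Fin (n + 1)) ℂ) :
    homogeneousComponent (k + e) (Q * f) = homogeneousComponent k Q * f := by
  have h1 : ∀ j, homogeneousComponent (k + e) (homogeneousComponent j Q * f) =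
      if j = k then homogeneousComponent k Q * f else 0 := by
    intro j
    have h2 := (homogeneousComponent_isHomogeneous j Q).mul hf
    rw [homogeneousComponent_of_mem (n := j + e) ((mem_homogeneousSubmodule _ _).2 h2)]
    by_cases h : j = k
    · rw [h, if_pos rfl, if_pos rfl]
    · rw [if_neg h, if_neg (by omega)]
  conv_lhs => rw [← sum_homogeneousComponent Q, Finset.sum_mul, map_sum]
  simp_rw [h1]
  rw [Finset.sum_ite_eq']
  split_ifs with h2
  · rfl
  · rw [homogeneousComponent_eq_zero, zero_mul]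
    simpa using h2

/-- **Regular functions are constant.** -/
theorem const_mod {I : Ideal (MvPolynomial (Fin (n + 1)) ℂ)} (hI : I.IsPrime)
    (hom : ∀ F ∈ I, ∀ d, homogeneousComponent d F ∈ I)
    (hne : ∃ x ∈ cone I, x ≠ 0) {ι : Type} (f φ : ι → MvPolynomial (Fin (n + 1)) ℂ) (e : ℕ)
    (hf : ∀ i, (f i).IsHomogeneous e) (hφ : ∀ i, (φ i).IsHomogeneous e)
    (hcr : ∀ i j, φ i * f j - f i * φ j ∈ I)
    (hnz : ∀ x : Fin (n + 1) → ℂ, x ≠ 0 → ∃ i, eval x (f i) ≠ 0) :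
    ∃ c : ℂ, ∀ i, φ i - C c * f i ∈ I := by
  classical
  let J : Ideal (MvPolynomial (Fin (n + 1)) ℂ) :=
    { carrier := {P | ∃ Q : MvPolynomial (Fin (n + 1)) ℂ, ∀ j, Q * f j - P * φ j ∈ I}
      add_mem' := by
        rintro P P' ⟨Q, hQ⟩ ⟨Q', hQ'⟩
        refine ⟨Q + Q', fun j => ?_⟩
        have := I.add_mem (hQ j) (hQ' j)
        convert this using 1
        ring
      zero_mem' := ⟨0, fun j => by rw [zero_mul, zero_mul, sub_zero]; exact I.zero_mem⟩
      smul_mem' := by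
        rintro g P ⟨Q, hQ⟩
        refine ⟨g * Q, fun j => ?_⟩
        have := I.mul_mem_left g (hQ j)
        convert this using 1
        rw [smul_eq_mul]
        ring }
  obtain ⟨N, hN⟩ := null J (fun x hx => by
    obtain ⟨i, hi⟩ := hnz x hx
    exact ⟨f i, ⟨φ i, fun j => hcr i j⟩, hi⟩)
  set k := (n + 1) * N with hk
  have hform : ∀ f : MvPolynomial (Fin (n + 1)) ℂ, f.IsHomogeneous k → f ∈ J := by
    intro f hf
    rw [f.as_sum]
    refine J.sum_mem fun u hu => ?_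
    have h1 : ∑ i, u i = k := by
      have h4 := hf (mem_support_iff.1 hu)
      rw [Finsupp.weight_apply, Finsupp.sum_fintype _ _ (by simp)] at h4
      simpa using h4
    obtain ⟨i, hi⟩ : ∃ i, N ≤ u i := by
      by_contra hc
      push Not at hc
      have h2 : ∑ i, u i < ∑ _i : Fin (n + 1), N :=
        Finset.sum_lt_sum_of_nonempty ⟨0, Finset.mem_univ _⟩ fun i _ => hc i
      rw [Finset.sum_const, Finset.card_univ, Fintype.card_fin, smul_eq_mul, h1] at h2
      exact lt_irrefl _ h2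
    have h3 : monomial u (coeff u f) =
        monomial (u - Finsupp.single i N) (coeff u f) * X i ^ N := by
      rw [X_pow_eq_monomial, monomial_mul, mul_one]
      congr 1
      rw [tsub_add_cancel_of_le]
      rw [Finsupp.single_le_iff]
      exact hi
    rw [h3]
    exact J.mul_mem_left _ (hN i)
  have hcomp : ∀ P : MvPolynomial (Fin (n + 1)) ℂ, P.IsHomogeneous k →
      ∃ Q : MvPolynomial (Fin (n + 1)) ℂ, Q.IsHomogeneous k ∧ ∀ j, Q * f j - P * φ j ∈ I := by
    intro P hP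
    obtain ⟨Q, hQ⟩ := hform P hP
    refine ⟨homogeneousComponent k Q, homogeneousComponent_isHomogeneous k Q, fun j => ?_⟩
    have h1 := hom _ (hQ j) (k + e)
    rw [map_sub, hcomp_mul (hf j), homogeneousComponent_of_mem (n := k + e)
      ((mem_homogeneousSubmodule _ _).2 (hP.mul (hφ j))), if_pos rfl] at h1
    exact h1
  let π : MvPolynomial (Fin (n + 1)) ℂ →ₗ[ℂ] _ := (I.restrictScalars ℂ).mkQ
  have hπ : ∀ p, π p = 0 ↔ p ∈ I := by
    intro p
    show (I.restrictScalars ℂ).mkQ p = 0 ↔ _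
    rw [Submodule.mkQ_apply, Submodule.Quotient.mk_eq_zero]
    rfl
  let V := (homogeneousSubmodule (Fin (n + 1)) ℂ k).map π
  haveI hVfin : FiniteDimensional ℂ V :=
    Module.Finite.iff_fg.2 ((homogeneousSubmodule_fg (Fin (n + 1)) ℂ k).map π)
  obtain ⟨x0, hx0, hne'⟩ := hne
  obtain ⟨i0, hi0⟩ : ∃ i, x0 i ≠ 0 := by
    by_contra hc
    push Not at hc
    exact hne' (funext hc)
  haveI hnt : Nontrivial V := by
    refine ⟨⟨⟨π (X i0 ^ k), ⟨X i0 ^ k, ?_, rfl⟩⟩, 0, ?_⟩⟩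
    · have := (isHomogeneous_X ℂ i0).pow k
      rw [one_mul] at this
      exact (mem_homogeneousSubmodule k _).2 this
    · intro h
      have h1 : π (X i0 ^ k) = 0 := congrArg Subtype.val h
      have h2 := hx0 _ ((hπ _).1 h1)
      rw [map_pow, eval_X] at h2
      exact pow_ne_zero _ hi0 h2
  let b := Module.finBasis ℂ V
  have hb : ∀ l, ∃ P Q : MvPolynomial (Fin (n + 1)) ℂ, Q.IsHomogeneous k ∧
      (∀ j, Q * f j - P * φ j ∈ I) ∧ π P = b l := by
    intro l
    obtain ⟨P, hP, hPl⟩ := (b l).2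
    obtain ⟨Q, hQ, hQ'⟩ := hcomp P ((mem_homogeneousSubmodule k P).1 hP)
    exact ⟨P, Q, hQ, hQ', hPl⟩
  choose P Q hQh hPQ hPb using hb
  let ψ : Module.End ℂ V := b.constr ℂ fun l =>
    ⟨π (Q l), ⟨Q l, (mem_homogeneousSubmodule k _).2 (hQh l), rfl⟩⟩
  obtain ⟨c, hc⟩ := Module.End.exists_eigenvalue ψ
  obtain ⟨v, hv⟩ := hc.exists_hasEigenvector
  have hv1 := hv.apply_eq_smul
  have hv2 : v ≠ 0 := hv.2
  set P0 := ∑ l, b.repr v l • P l with hP0
  set Q0 := ∑ l, b.repr v l • Q l with hQ0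
  have e1 : π P0 = v := by
    conv_rhs => rw [← b.sum_repr v]
    rw [hP0, map_sum, Submodule.coe_sum]
    refine Finset.sum_congr rfl fun l _ => ?_
    rw [map_smul, hPb, Submodule.coe_smul]
  have e2 : π Q0 = (ψ v : _ ⧸ (I.restrictScalars ℂ)) := by
    conv_rhs => rw [← b.sum_repr v]
    rw [hQ0, map_sum, map_sum, Submodule.coe_sum]
    refine Finset.sum_congr rfl fun l _ => ?_
    rw [map_smul, map_smul, Submodule.coe_smul]
    congr 1
    have h1 : ψ (b l) = _ := b.constr_basis ℂ _ l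
    rw [h1]
  have e3 : Q0 - C c * P0 ∈ I := by
    rw [← hπ, map_sub, ← smul_eq_C_mul, map_smul, e1, e2, hv1, Submodule.coe_smul, sub_self]
  have e4 : P0 ∉ I := by
    intro h
    apply hv2
    apply Subtype.ext
    rw [← e1, (hπ _).2 h]
    rfl
  have e5 : ∀ j, Q0 * f j - P0 * φ j ∈ I := by
    intro j
    have h1 : Q0 * f j - P0 * φ j = ∑ l, C (b.repr v l) * (Q l * f j - P l * φ j) := by
      rw [hQ0, hP0, Finset.sum_mul, Finset.sum_mul, ← Finset.sum_sub_distrib]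
      refine Finset.sum_congr rfl fun l _ => ?_
      rw [smul_eq_C_mul, smul_eq_C_mul]
      ring
    rw [h1]
    exact I.sum_mem fun l _ => I.mul_mem_left _ (hPQ l j)
  refine ⟨c, fun j => ?_⟩
  have h1 : P0 * (φ j - C c * f j) ∈ I := by
    have h2 := I.sub_mem (I.mul_mem_right (f j) e3) (e5 j)
    convert h2 using 1
    ring
  exact (hI.mem_or_mem h1).resolve_left e4

end Pool.Agent.TH189.Se
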