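import Pool.Agent.TH189.Se1

/-!
The Koszul complex of a section: a two-form annihilated by the section is a constant multiple of the
determinant form, up to a boundary.
-/

set_option autoImplicit false

open MvPolynomial H960VB H938TB Pool.Agent.W615 Pool.Agent.W467.FO Pool.Agent.W467.FX

namespace Pool.Agent.TH189.Se

variable {n m : ℕ}

/-- the pairs -/
structure Kos (σ : Fin m → MvPolynomial (Fin (n + 1)) ℂ)
    (β : Fin m → Fin m → MvPolynomial (Fin (n + 1)) ℂ) : Prop where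
  anti : ∀ k l, β k l = -β l k
  rel : ∀ k l r, σ k * β l r - σ l * β k r + σ r * β k l = 0

variable {σ : Fin m → MvPolynomial (Fin (n + 1)) ℂ}
  {ω β : Fin m → Fin m → MvPolynomial (Fin (n + 1)) ℂ}

theorem Kos.sub_smul (hβ : Kos σ β) (hω : Kos σ ω) (c : MvPolynomial (Fin (n + 1)) ℂ) :
    Kos σ (fun k l => β k l - c * ω k l) where
  anti k l := by linear_combination hβ.anti k l - c * hω.anti k l
  rel k l r := by linear_combination hβ.rel k l r - c * hω.rel k l r

/-- no common prime factor near a zero -/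
theorem nodiv (hω : Kos σ ω) (hp : Prm σ) {x : Fin (n + 1) → ℂ} {u v : Fin m}
    (hx : eval x (ω u v) ≠ 0) {π : MvPolynomial (Fin (n + 1)) ℂ} (hπ : Prime π)
    (hπx : eval x π = 0) (h1 : π ∣ σ u) (h2 : π ∣ σ v) : False := by
  apply hπ.not_isUnit
  apply hp
  intro t
  have h3 : ω u v * σ t = σ u * ω t v - σ v * ω t u := by
    linear_combination hω.rel t u v
  have h4 : π ∣ ω u v * σ t := by
    rw [h3]
    exact dvd_sub (h1.mul_right _) (h2.mul_right _)
  rcases hπ.dvd_or_dvd h4 with h5 | h5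
  · exfalso
    obtain ⟨q, hq⟩ := h5
    apply hx
    rw [hq, map_mul, hπx, zero_mul]
  · exact h5

theorem ne_zero_of_frame (hω : Kos σ ω) (hp : Prm σ) {x : Fin (n + 1) → ℂ} {u v : Fin m}
    (hx : eval x (ω u v) ≠ 0) (hu : eval x (σ u) = 0) (hv : eval x (σ v) = 0) :
    σ u ≠ 0 ∧ σ v ≠ 0 := by
  have hω0 : ω u v ≠ 0 := fun h => hx (by rw [h, map_zero])
  have hall : ¬ (σ u = 0 ∧ σ v = 0) := by
    rintro ⟨h1, h2⟩
    obtain ⟨t, ht⟩ := hp.ne
    have h3 := hω.rel t u v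
    rw [h1, h2, zero_mul, zero_mul, sub_zero, add_zero] at h3
    exact mul_ne_zero ht hω0 h3
  constructor
  · intro h1
    have h2 : σ v ≠ 0 := fun h2 => hall ⟨h1, h2⟩
    obtain ⟨π, hπ, hd, hx'⟩ := exists_prime_zero x (σ v) h2 hv
    exact nodiv hω hp hx hπ hx' (by rw [h1]; exact dvd_zero _) hd
  · intro h2
    have h1 : σ u ≠ 0 := fun h1 => hall ⟨h1, h2⟩
    obtain ⟨π, hπ, hd, hx'⟩ := exists_prime_zero x (σ u) h1 hu
    exact nodiv hω hp hx hπ hx' hd (by rw [h2]; exact dvd_zero _)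

/-- the formula in terms of a pair -/
theorem pair_formula (hω : Kos σ ω) (hβ : Kos σ β) (hp : Prm σ) {x : Fin (n + 1) → ℂ} {u v : Fin m}
    (hx : eval x (ω u v) ≠ 0) (hu : eval x (σ u) = 0) (hv : eval x (σ v) = 0) :
    ∃ (g : MvPolynomial (Fin (n + 1)) ℂ) (μ : Fin m → MvPolynomial (Fin (n + 1)) ℂ),
      eval x g ≠ 0 ∧ ∀ t w, g * ω u v * β t w = g * β u v * ω t w + μ w * σ t - μ t * σ w := by
  obtain ⟨hu0, hv0⟩ := ne_zero_of_frame hω hp hx hu hv
  obtain ⟨p, q, g, hpq, hgp, hgq⟩ := UniqueFactorizationMonoid.exists_reduced_factors (σ u) hu0 (σ v)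
  have hg0 : g ≠ 0 := by
    rintro rfl
    rw [zero_mul] at hgp
    exact hu0 hgp.symm
  have hp0 : p ≠ 0 := by
    rintro rfl
    rw [mul_zero] at hgp
    exact hu0 hgp.symm
  have hgx : eval x g ≠ 0 := by
    intro h
    obtain ⟨π, hπ, hd, hx'⟩ := exists_prime_zero x g hg0 h
    exact nodiv hω hp hx hπ hx' (by rw [← hgp]; exact hd.mul_right _)
      (by rw [← hgq]; exact hd.mul_right _)
  have h1 : ∀ t, p * (ω t v * β u v - ω u v * β t v) = q * (ω t u * β u v - ω u v * β t u) := by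
    intro t
    apply mul_left_cancel₀ hg0
    have h2 := hω.rel t u v
    have h3 := hβ.rel t u v
    rw [← mul_assoc, ← mul_assoc, hgp, hgq]
    linear_combination (-β u v) * h2 + ω u v * h3
  have h2 : ∀ t, ∃ r, ω t v * β u v - ω u v * β t v = q * r := by
    intro t
    exact hpq.symm.dvd_of_dvd_mul_left ⟨_, h1 t⟩
  choose μ hμ using h2
  have hμ' : ∀ t, q ≠ 0 → ω t u * β u v - ω u v * β t u = p * μ t := by
    intro t hq
    apply mul_left_cancel₀ hq
    rw [← h1 t, hμ t]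
    ring
  have hq0 : q ≠ 0 := by
    rintro rfl
    rw [mul_zero] at hgq
    exact hv0 hgq.symm
  refine ⟨g, μ, hgx, fun t w => ?_⟩
  have a1 := hμ' t hq0
  have a2 := hμ' w hq0
  have b1 := hβ.rel u t w
  have b2 := hω.rel u t w
  have c1 := hβ.anti u w
  have c2 := hβ.anti u t
  have c3 := hω.anti u w
  have c4 := hω.anti u t
  rw [c1, c2] at b1
  rw [c3, c4] at b2
  apply mul_left_cancel₀ hp0
  rw [← hgp] at b1 b2
  linear_combination (ω u v) * b1 - (β u v) * b2 + σ t * a2 - σ w * a1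

variable {I : Ideal (MvPolynomial (Fin (n + 1)) ℂ)}

/-- **The second Koszul cohomology.** -/
theorem kos (hn : 2 ≤ n) (hI : I.IsPrime) (hom : ∀ F ∈ I, ∀ d, homogeneousComponent d F ∈ I)
    (hne : ∃ x ∈ cone I, x ≠ 0) (hσ : ∀ k, σ k ∈ I) (hω : Kos σ ω) (hβ : Kos σ β) (hp : Prm σ)
    (hfr : ∀ x : Fin (n + 1) → ℂ, x ≠ 0 → ∃ k l, eval x (ω k l) ≠ 0)
    (hloc : ∀ x : Fin (n + 1) → ℂ, x ≠ 0 → ∀ k l, eval x (ω k l) ≠ 0 → ∀ F ∈ I,
      ∃ f A B : MvPolynomial (Fin (n + 1)) ℂ, eval x f ≠ 0 ∧ f * F = A * σ k + B * σ l)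
    {e : ℕ} (hωe : ∀ k l, (ω k l).IsHomogeneous e) (hβe : ∀ k l, (β k l).IsHomogeneous e) :
    ∃ (c : ℂ) (lam : Fin m → MvPolynomial (Fin (n + 1)) ℂ), ∀ k l,
      β k l = C c * ω k l + lam k * σ l - lam l * σ k := by
  classical
  -- the constant
  obtain ⟨c, hc⟩ : ∃ c : ℂ, ∀ k l, β k l - C c * ω k l ∈ I := by
    obtain ⟨x0, hx0, hx00⟩ := hne
    obtain ⟨u, v, huv⟩ := hfr x0 hx00
    obtain ⟨g, μ, hg, hgμ⟩ := pair_formula hω hβ hp huv (hx0 _ (hσ u)) (hx0 _ (hσ v))
    have h1 : ∀ t w, ω u v * β t w - β u v * ω t w ∈ I := by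
      intro t w
      have h2 : g * (ω u v * β t w - β u v * ω t w) ∈ I := by
        have h3 : g * (ω u v * β t w - β u v * ω t w) = μ w * σ t - μ t * σ w := by
          linear_combination hgμ t w
        rw [h3]
        exact I.sub_mem (I.mul_mem_left _ (hσ t)) (I.mul_mem_left _ (hσ w))
      exact (hI.mem_or_mem h2).resolve_left fun h => hg (hx0 _ h)
    obtain ⟨c, hc⟩ := const_mod hI hom ⟨x0, hx0, hx00⟩ (fun p : Fin m × Fin m => ω p.1 p.2)
      (fun p => β p.1 p.2) e (fun p => hωe _ _) (fun p => hβe _ _) (fun p q => by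
        have h2 : ω u v * (β p.1 p.2 * ω q.1 q.2 - ω p.1 p.2 * β q.1 q.2) ∈ I := by
          have h3 := I.sub_mem (I.mul_mem_left (ω q.1 q.2) (h1 p.1 p.2))
            (I.mul_mem_left (ω p.1 p.2) (h1 q.1 q.2))
          convert h3 using 1
          ring
        exact (hI.mem_or_mem h2).resolve_left fun h => huv (hx0 _ h)) (fun x hx => by
        obtain ⟨k, l, h⟩ := hfr x hx
        exact ⟨(k, l), h⟩)
    exact ⟨c, fun k l => hc (k, l)⟩
  have hβ' := hβ.sub_smul hω (C c)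
  set β' : Fin m → Fin m → MvPolynomial (Fin (n + 1)) ℂ := fun k l => β k l - C c * ω k l with hβ'def
  let J : Ideal (MvPolynomial (Fin (n + 1)) ℂ) :=
    { carrier := {f | ∃ lam : Fin m → MvPolynomial (Fin (n + 1)) ℂ, ∀ k l,
        f * β' k l = lam k * σ l - lam l * σ k}
      add_mem' := by
        rintro f f' ⟨a, ha⟩ ⟨a', ha'⟩
        exact ⟨fun k => a k + a' k, fun k l => by
          rw [add_mul, ha, ha']
          ring⟩
      zero_mem' := ⟨fun _ => 0, fun k l => by ring⟩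
      smul_mem' := by
        rintro g f ⟨a, ha⟩
        exact ⟨fun k => g * a k, fun k l => by
          rw [smul_eq_mul, mul_assoc, ha]
          ring⟩ }
  obtain ⟨N, hN⟩ := null J (fun x hx => by
    obtain ⟨u, v, huv⟩ := hfr x hx
    by_cases hxc : x ∈ cone I
    · obtain ⟨g, μ, hg, hgμ⟩ := pair_formula hω hβ' hp huv (hxc _ (hσ u)) (hxc _ (hσ v))
      obtain ⟨f, A, B, hf, hfAB⟩ := hloc x hx u v huv (β' u v) (hc u v)
      refine ⟨f * g * ω u v, ⟨fun t => -(g * (A * ω u t + B * ω v t) + f * μ t), fun t w => ?_⟩, ?_⟩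
      · have r1 := hω.rel u t w
        have r2 := hω.rel v t w
        linear_combination f * hgμ t w + g * ω t w * hfAB + g * A * r1 + g * B * r2
      · rw [map_mul, map_mul]
        exact mul_ne_zero (mul_ne_zero hf hg) huv
    · obtain ⟨F, hF, hFx⟩ : ∃ F ∈ I, eval x F ≠ 0 := by
        by_contra hcon
        push Not at hcon
        exact hxc hcon
      obtain ⟨f, A, B, hf, hfAB⟩ := hloc x hx u v huv F hF
      obtain ⟨k, hk⟩ : ∃ k, eval x (σ k) ≠ 0 := by
        by_contra hcon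
        push Not at hcon
        have h1 := congrArg (eval x) hfAB
        rw [map_mul, map_add, map_mul, map_mul, hcon u, hcon v, mul_zero, mul_zero, add_zero] at h1
        exact mul_ne_zero hf hFx h1
      refine ⟨σ k, ⟨fun t => -β' k t, fun t w => ?_⟩, hk⟩
      linear_combination hβ'.rel k t w)
  choose lam hlam using hN
  obtain ⟨a, ψ, hψ⟩ := glue hn hp.ne N lam (fun i j => by
    refine hp.dvd (H := fun k => X j ^ N * lam i k - X i ^ N * lam j k) fun k l => ?_
    have h1 := hlam i k l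
    have h2 := hlam j k l
    linear_combination (X j ^ N) * h1 - (X i ^ N) * h2)
  refine ⟨c, ψ, fun k l => ?_⟩
  set i0 : Fin (n + 1) := ⟨0, by omega⟩
  have hX : (X i0 : MvPolynomial (Fin (n + 1)) ℂ) ^ N ≠ 0 := pow_ne_zero _ (X_ne_zero _)
  apply mul_left_cancel₀ hX
  have h1 : X i0 ^ N * (β k l - C c * ω k l) = _ := hlam i0 k l
  rw [hψ i0 k, hψ i0 l] at h1
  linear_combination h1

end Pool.Agent.TH189.Se
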