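import Pool.Agent.TH189.Sg3

/-!
A derivation of the space of the sections of a generated twist which is compatible with the wedge
product extends to all sections.
-/

set_option autoImplicit false

open MvPolynomial H960VB H938TB Pool.Agent.W615 Pool.Agent.W467.FO

namespace Pool.Agent.TH189.Sg

open Module

variable {n : ℕ} {E : Bundle2 n} (W : Wedge (triv E))

/-- cancel a nonzero homogeneous factor of a section -/
theorem sec_of_mul {d e : ℤ} {q : MvPolynomial (Fin (n + 1)) ℂ} {H : Vec E.a n} (hq : HomZ q e)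
    (hq0 : q ≠ 0) (h : Sec E (e + d) (fun i => q * H i)) : Sec E d H := by
  refine ⟨fun i => ?_, ker_of_mul hq0 h.ker⟩
  by_cases hi : H i = 0
  · rw [hi]
    exact isWeightedHomogeneous_zero _ _ _
  · have h1 := h.hom i
    obtain ⟨a, b, hab, ha, hb⟩ := hom_of_mul _ h1 (mul_ne_zero hq0 hi)
    have h2 : a = ((e, 0) : M) := ha.inj_right hq0 (wh_triv hq)
    have h3 : ((E.β i, (triv E).b i) + ((d, 0) : M) : M) = b := by
      have h4 : b = ((E.β i, (triv E).b i) + ((e + d, 0) : M)) - a := by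
        rw [← hab]; abel
      rw [h4, h2]
      ext <;> simp
      ring
    rw [h3]
    exact hb

section

variable {d : ℤ}

/-- the sections of `E(d)` generate `E` -/
def GenW (W : Wedge (triv E)) (d : ℤ) : Prop :=
  ∀ x : Fin (n + 1) → ℂ, x ≠ 0 → ∃ G G' : Vec E.a n, Sec E d G ∧ Sec E d G' ∧
    eval x (W.wd G G') ≠ 0

/-- a vector whose products with all sections of `E(d)` vanish -/
theorem eqz (hd : GenW W d) {Z : Vec E.a n} (hZ : Ker E Z)
    (h : ∀ x : S0 E d, W.wd Z x = 0) (i : Fin E.a) : Z i = 0 := by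
  obtain ⟨G, G', hG, hG', hp⟩ := hd (fun _ => 1) (fun h => by simpa using congrFun h 0)
  have h0 : W.wd G G' ≠ 0 := fun h0 => hp (by rw [h0, map_zero])
  have h1 := W.three G G' Z hG.ker hG'.ker hZ i
  have h2 : W.wd Z G = 0 := h ⟨G, hG⟩
  have h3 : W.wd Z G' = 0 := h ⟨G', hG'⟩
  rw [W.anti G' Z hG'.ker hZ, W.anti G Z hG.ker hZ, h2, h3] at h1
  have h4 : W.wd G G' * Z i = 0 := by linear_combination h1
  exact (mul_eq_zero.1 h4).resolve_left h0

/-- uniqueness -/
theorem eqz' (hd : GenW W d) {Z Z' : Vec E.a n} (hZ : Ker E Z) (hZ' : Ker E Z')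
    (h : ∀ x : S0 E d, W.wd Z x = W.wd Z' x) : Z = Z' := by
  funext i
  have h1 := eqz W hd (ker_sub hZ hZ') (fun x => by
    rw [wd_sub_left W hZ hZ' x.2.ker, h, sub_self]) i
  exact sub_eq_zero.1 h1

variable (N : Matrix (Fin (n + 1)) (Fin (n + 1)) ℂ) (Δ : S0 E d →ₗ[ℂ] S0 E d)

/-- the prescribed products of the derivative of `G` -/
noncomputable def RR (G : Vec E.a n) (x : S0 E d) : MvPolynomial (Fin (n + 1)) ℂ :=
  vf N (W.wd G x) - W.wd G (Δ x)

variable {N Δ}

theorem RR_rel (hΔ : ∀ s t : S0 E d, vf N (W.wd s t) = W.wd (Δ s) t + W.wd s (Δ t))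
    {G : Vec E.a n} (hG : Ker E G) (s t u : S0 E d) :
    RR W N Δ G t * W.wd s u - RR W N Δ G s * W.wd t u = RR W N Δ G u * W.wd s t := by
  have F1 := congrArg (vf N) (W.four G s t u hG s.2.ker t.2.ker u.2.ker)
  rw [map_zero, map_add, map_sub, Derivation.leibniz, Derivation.leibniz, Derivation.leibniz,
    hΔ s t, hΔ s u, hΔ t u] at F1
  simp only [smul_eq_mul] at F1
  have F2 := W.four G s (Δ t) u hG s.2.ker (Δ t).2.ker u.2.ker
  have F3 := W.four G (Δ s) t u hG (Δ s).2.ker t.2.ker u.2.ker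
  have F4 := W.four G s t (Δ u) hG s.2.ker t.2.ker (Δ u).2.ker
  unfold RR
  linear_combination -F1 + F2 + F3 + F4

/-- Cramer's rule -/
noncomputable def AA (N : Matrix (Fin (n + 1)) (Fin (n + 1)) ℂ) (Δ : S0 E d →ₗ[ℂ] S0 E d)
    (G : Vec E.a n) (s t : S0 E d) : Vec E.a n :=
  fun i => RR W N Δ G t * (s : Vec E.a n) i - RR W N Δ G s * (t : Vec E.a n) i

theorem AA_ker (G : Vec E.a n) (s t : S0 E d) : Ker E (AA W N Δ G s t) :=
  ker_sub (ker_mul s.2.ker _) (ker_mul t.2.ker _)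

theorem AA_wd (hΔ : ∀ s t : S0 E d, vf N (W.wd s t) = W.wd (Δ s) t + W.wd s (Δ t))
    {G : Vec E.a n} (hG : Ker E G) (s t u : S0 E d) :
    W.wd (AA W N Δ G s t) u = RR W N Δ G u * W.wd s t := by
  rw [← RR_rel W hΔ hG s t u]
  unfold AA
  rw [wd_sub_left W (ker_mul s.2.ker _) (ker_mul t.2.ker _) u.2.ker, W.smul _ _ _ s.2.ker u.2.ker,
    W.smul _ _ _ t.2.ker u.2.ker]

theorem AA_compat (hd : GenW W d)
    (hΔ : ∀ s t : S0 E d, vf N (W.wd s t) = W.wd (Δ s) t + W.wd s (Δ t))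
    {G : Vec E.a n} (hG : Ker E G) (s t u v : S0 E d) (i : Fin E.a) :
    W.wd s t * AA W N Δ G u v i = W.wd u v * AA W N Δ G s t i := by
  have h1 := eqz W hd (ker_sub (ker_mul (AA_ker W G u v) (W.wd s t))
    (ker_mul (AA_ker W G s t) (W.wd u v))) (fun x => by
      rw [wd_sub_left W (ker_mul (AA_ker W G u v) _) (ker_mul (AA_ker W G s t) _) x.2.ker,
        W.smul _ _ _ (AA_ker W G u v) x.2.ker, W.smul _ _ _ (AA_ker W G s t) x.2.ker,
        AA_wd W hΔ hG, AA_wd W hΔ hG]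
      ring) i
  exact sub_eq_zero.1 h1

/-- the derivative of a section -/
theorem exists_der (hn : 1 ≤ n) (hd : GenW W d)
    (hΔ : ∀ s t : S0 E d, vf N (W.wd s t) = W.wd (Δ s) t + W.wd s (Δ t))
    {G : Vec E.a n} (hG : Ker E G) : ∃ H : Vec E.a n, Ker E H ∧
      (∀ u : S0 E d, W.wd H u = vf N (W.wd G u) - W.wd G (Δ u)) ∧
      ∀ e, Sec E e G → Sec E e H := by
  classical
  let b := Module.finBasis ℂ (S0 E d)
  set m := finrank ℂ (S0 E d) with hm
  let e2 := (finProdFinEquiv (m := m) (n := m)).symm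
  let sv : Vec (m * m) n := fun j => W.wd (b (e2 j).1) (b (e2 j).2)
  have hprm : Prm sv := by
    apply prm_of_no_zero hn
    intro x hx h0
    obtain ⟨G1, G2, h1, h2, h3⟩ := hd x hx
    apply h3
    have h4 : ((wdB W d d).compr₂ ((aeval x : MvPolynomial (Fin (n + 1)) ℂ →ₐ[ℂ] ℂ).toLinearMap)) =
        0 := by
      refine b.ext fun i => b.ext fun j => ?_
      have h5 := congrFun h0 (e2.symm (i, j))
      have h6 : eval x (W.wd (b (e2 (e2.symm (i, j))).1) (b (e2 (e2.symm (i, j))).2)) = 0 := h5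
      rw [Equiv.apply_symm_apply] at h6
      show aeval x (W.wd (b i) (b j)) = 0
      rw [MvPolynomial.aeval_eq_eval]
      exact h6
    have h5 := LinearMap.congr_fun (LinearMap.congr_fun h4 ⟨G1, h1⟩) ⟨G2, h2⟩
    have h6 : aeval x (W.wd G1 G2) = (0 : ℂ) := h5
    rwa [MvPolynomial.aeval_eq_eval] at h6
  have hex : ∀ i : Fin E.a, ∃ f : MvPolynomial (Fin (n + 1)) ℂ, ∀ j : Fin (m * m),
      AA W N Δ G (b (e2 j).1) (b (e2 j).2) i = f * sv j := by
    intro i
    refine hprm.dvd (H := fun j => AA W N Δ G (b (e2 j).1) (b (e2 j).2) i) fun j j' => ?_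
    exact AA_compat W hd hΔ hG _ _ _ _ i
  choose H hH using hex
  obtain ⟨j0, hj0⟩ := hprm.ne
  have hH1 : (fun i => sv j0 * H i) = AA W N Δ G (b (e2 j0).1) (b (e2 j0).2) := by
    funext i
    rw [hH i j0, mul_comm]
  have hHk : Ker E H := by
    apply ker_of_mul hj0
    rw [hH1]
    exact AA_ker W G _ _
  refine ⟨H, hHk, fun u => ?_, fun e he => ?_⟩
  · apply mul_left_cancel₀ hj0
    rw [← W.smul _ _ _ hHk u.2.ker, hH1, AA_wd W hΔ hG]
    show RR W N Δ G u * sv j0 = sv j0 * RR W N Δ G u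
    rw [mul_comm]
  · have hR : ∀ x : S0 E d, HomZ (RR W N Δ G x) (e + d + W.κ.1) := by
      intro x
      have h1 := vf_homZ N (wd_homZ W he x.2)
      have h2 := wd_homZ W he (Δ x).2
      have h3 := homZ_of ((wh_triv h1).sub (wh_triv h2))
      exact h3
    have hs : HomZ (sv j0) (d + d + W.κ.1) := wd_homZ W (b (e2 j0).1).2 (b (e2 j0).2).2
    apply sec_of_mul hs hj0
    rw [hH1]
    have h1 := sec_mul (hR (b (e2 j0).2)) (b (e2 j0).1).2
    have h2 := sec_mul (hR (b (e2 j0).1)) (b (e2 j0).2).2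
    have h3 := sec_sub h1 h2
    have h4 : d + d + W.κ.1 + e = e + d + W.κ.1 + d := by ring
    rw [h4]
    exact h3

/-- **Extension of a derivation to all sections.** -/
theorem lifts_of_pairing (hn : 1 ≤ n) (hd : GenW W d)
    (hΔ : ∀ s t : S0 E d, vf N (W.wd s t) = W.wd (Δ s) t + W.wd s (Δ t)) : LiftsTo E N := by
  classical
  have hex : ∀ G : Vec E.a n, ∃ H : Vec E.a n, Ker E G → (Ker E H ∧
      (∀ u : S0 E d, W.wd H u = vf N (W.wd G u) - W.wd G (Δ u)) ∧
      ∀ e, Sec E e G → Sec E e H) := by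
    intro G
    by_cases hG : Ker E G
    · obtain ⟨H, h⟩ := exists_der W hn hd hΔ hG
      exact ⟨H, fun _ => h⟩
    · exact ⟨G, fun h => absurd h hG⟩
  choose D hD using hex
  refine ⟨{ D := D, sec := ?_, add := ?_, leib := ?_ }⟩
  · intro e G hG
    exact (hD G hG.ker).2.2 e hG
  · intro e G G' hG hG'
    have h1 := hD G hG.ker
    have h2 := hD G' hG'.ker
    have h3 := hD _ (ker_add hG.ker hG'.ker)
    refine eqz' W hd h3.1 (ker_add h1.1 h2.1) fun x => ?_
    rw [wd_add_left W h1.1 h2.1 x.2.ker, h3.2.1, h1.2.1, h2.2.1,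
      wd_add_left W hG.ker hG'.ker x.2.ker, wd_add_left W hG.ker hG'.ker (Δ x).2.ker, map_add]
    ring
  · intro e e' p G hG hp
    have h1 := hD G hG.ker
    have h3 := hD _ (ker_mul hG.ker p)
    refine eqz' W hd h3.1 (ker_add (ker_mul hG.ker _) (ker_mul h1.1 _)) fun x => ?_
    rw [wd_add_left W (ker_mul hG.ker _) (ker_mul h1.1 _) x.2.ker, h3.2.1,
      W.smul _ _ _ hG.ker x.2.ker, W.smul _ _ _ hG.ker (Δ x).2.ker, W.smul _ _ _ hG.ker x.2.ker,
      W.smul _ _ _ h1.1 x.2.ker, h1.2.1, Derivation.leibniz]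
    simp only [smul_eq_mul]
    ring

end

end Pool.Agent.TH189.Sg
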