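import Pool.Agent.TH189.Se2
import Pool.Agent.TH189.Sg4

/-!
Lifting a vector field which is tangent to the zero scheme of a section to the bundle.
-/

set_option autoImplicit false

open MvPolynomial H960VB H938TB Pool.Agent.W615 Pool.Agent.W467.FO Pool.Agent.W467.FX
open Pool.Agent.TH189.Sg

namespace Pool.Agent.TH189.Se

variable {n : ℕ} {E : Bundle2 n} {s : Vec E.a n} {I : Ideal (MvPolynomial (Fin (n + 1)) ℂ)}
variable (Z : ZS E s I) (W : Wedge (triv E))

include W in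
theorem dvd_wd_of {π : MvPolynomial (Fin (n + 1)) ℂ} (hπ : Prime π) {v : Fin (n + 1) → ℂ}
    (hv : v ≠ 0) (hv0 : eval v π = 0) {s G : Vec E.a n} (hs : Ker E s) (hG : Ker E G)
    (h : ∀ i, π ∣ s i) : π ∣ W.wd s G := by
  obtain ⟨i, j, hij⟩ := W.P_ne v hv
  have h1 : π ∣ W.wd s G * W.P i j := by
    rw [← W.eq s G hs hG i j]
    exact dvd_sub ((h i).mul_right _) ((h j).mul_right _)
  rcases hπ.dvd_or_dvd h1 with h2 | h2
  · exact h2
  · exfalso
    obtain ⟨q, hq⟩ := h2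
    apply hij
    rw [hq, map_mul, hv0, zero_mul]

include Z W in
/-- the section is primitive -/
theorem prm_s (hn : 1 ≤ n) : Prm s := by
  intro p hp
  by_contra hu
  obtain ⟨π, hπ, hd⟩ : ∃ π : MvPolynomial (Fin (n + 1)) ℂ, Prime π ∧ ∀ i, π ∣ s i := by
    by_cases h0 : p = 0
    · refine ⟨X 0, X_prime, fun i => ?_⟩
      have h1 := hp i
      rw [h0, zero_dvd_iff] at h1
      rw [h1]
      exact dvd_zero _
    · obtain ⟨π, hπ, hd⟩ := WfDvdMonoid.exists_irreducible_factor hu h0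
      exact ⟨π, UniqueFactorizationMonoid.irreducible_iff_prime.1 hπ, fun i => hd.trans (hp i)⟩
  obtain ⟨v, hv, hv0⟩ := no_isolated_prime (by omega : 2 ≤ n + 1) π hπ
  have hvc : v ∈ cone I := by
    apply Z.mem_cone hv
    funext i
    obtain ⟨q, hq⟩ := hd i
    show eval v (s i) = 0
    rw [hq, map_mul, hv0, zero_mul]
  obtain ⟨_, _, G, H, hG', hH', hw⟩ := exists_sec_ne W v hv
  obtain ⟨i, j, hij⟩ := Z.exists_minor W hG'.ker hH'.ker hvc hv hw
  obtain ⟨a, ha⟩ := dvd_wd_of W hπ hv hv0 Z.sec.ker hG'.ker hd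
  obtain ⟨b, hb⟩ := dvd_wd_of W hπ hv hv0 Z.sec.ker hH'.ker hd
  apply hij
  rw [eval_Lam, ha, hb, mul_comm π a, mul_comm π b, grad_mul_of_zero hv0,
    grad_mul_of_zero hv0, grad_mul_of_zero hv0, grad_mul_of_zero hv0]
  ring

include Z in
/-- the elements of the ideal are wedge products with the section -/
theorem surj (hn : 2 ≤ n) {F : MvPolynomial (Fin (n + 1)) ℂ} (hF : F ∈ I) {d : ℤ}
    (hFd : HomZ F (0 + d + W.κ.1)) : ∃ K, Sec E d K ∧ W.wd s K = F := by
  classical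
  have hs := Z.sec.ker
  have hp := prm_s Z W (by omega)
  let J : Ideal (MvPolynomial (Fin (n + 1)) ℂ) :=
    { carrier := {f | ∃ K, Ker E K ∧ W.wd s K = f * F}
      add_mem' := by
        rintro f f' ⟨K, hK, h⟩ ⟨K', hK', h'⟩
        exact ⟨fun i => K i + K' i, ker_add hK hK', by rw [wd_add_right W hK hK' hs, h, h', add_mul]⟩
      zero_mem' := ⟨fun _ => 0, ker_zero, by
        rw [zero_mul]
        exact wd_zero_right W hs ker_zero (fun _ => rfl)⟩
      smul_mem' := by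
        rintro g f ⟨K, hK, h⟩
        exact ⟨fun i => g * K i, ker_mul hK g, by
          rw [wd_mul_right W hK hs, h, smul_eq_mul, mul_assoc]⟩ }
  obtain ⟨N, hN⟩ := null J (fun x hx => by
    obtain ⟨_, _, G, H, hG, hH, hw⟩ := exists_sec_ne W x hx
    obtain ⟨f, A, B, hf, hfAB⟩ := Z.locgen W hG.ker hH.ker hx hw hF
    refine ⟨f, ⟨fun i => A * G i + B * H i, ker_add (ker_mul hG.ker _) (ker_mul hH.ker _), ?_⟩, hf⟩
    rw [wd_add_right W (ker_mul hG.ker _) (ker_mul hH.ker _) hs, wd_mul_right W hG.ker hs,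
      wd_mul_right W hH.ker hs, hfAB])
  choose K hK hKw using hN
  obtain ⟨a, ψ, hψ⟩ := glue hn hp.ne N K (fun i j => by
    refine hp.dvd_wd W hs (H := fun k => X j ^ N * K i k - X i ^ N * K j k)
      (ker_sub (ker_mul (hK i) _) (ker_mul (hK j) _)) ?_
    rw [wd_sub_right W (ker_mul (hK i) _) (ker_mul (hK j) _) hs, wd_mul_right W (hK i) hs,
      wd_mul_right W (hK j) hs, hKw, hKw]
    ring)
  set i0 : Fin (n + 1) := ⟨0, by omega⟩
  have hX : (X i0 : MvPolynomial (Fin (n + 1)) ℂ) ^ N ≠ 0 := pow_ne_zero _ (X_ne_zero _)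
  have e1 : (fun k => X i0 ^ N * ψ k) = fun k => K i0 k - a i0 * s k := by
    funext k
    rw [hψ i0 k]
    ring
  have hψk : Ker E ψ := by
    apply ker_of_mul hX
    rw [e1]
    exact ker_sub (hK i0) (ker_mul hs _)
  have hψw : W.wd s ψ = F := by
    apply mul_left_cancel₀ hX
    rw [← wd_mul_right W hψk hs, e1, wd_sub_right W (hK i0) (ker_mul hs _) hs,
      wd_mul_right W hs hs, wd_self W hs, mul_zero, sub_zero, hKw]
  refine ⟨vcomp (triv E) ((d, 0) : M) ψ, vcomp_sec hψk _, ?_⟩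
  rw [wd_vcomp W Z.sec hψk, hψw]
  have hκ : W.κ.2 = 0 := by
    obtain ⟨x, y, G, H, hG, hH, hw⟩ := exists_sec_ne W (fun _ => 1) (fun h => by
      simpa using congrFun h 0)
    have h1 : W.wd G H ≠ 0 := fun h => hw (by rw [h, map_zero])
    have h2 := W.hom _ _ _ _ hG hH
    have h3 := congrArg Prod.snd (h2.inj_right h1 (wh_triv (homZ_of h2)))
    simpa using h3
  have h4 := wh_triv hFd
  have h5 : ((0, 0) + (d, 0) + W.κ : M) = ((0 + d + W.κ.1, 0) : M) := by
    refine Prod.ext rfl ?_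
    show (0 : ℤ × ℤ) + 0 + W.κ.2 = 0
    rw [hκ, add_zero, add_zero]
  rw [h5]
  exact h4.weightedHomogeneousComponent_same

end Pool.Agent.TH189.Se
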