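import Pool.Agent.TH189.Se3

/-!
Lifting a vector field which is tangent to the zero scheme of a section to the bundle: the lift.
-/

set_option autoImplicit false

open MvPolynomial H960VB H938TB Pool.Agent.W615 Pool.Agent.W467.FO Pool.Agent.W467.FX
open Pool.Agent.TH189.Sg

namespace Pool.Agent.TH189.Se

open Module

variable {n : ℕ} {E : Bundle2 n} {s : Vec E.a n} {I : Ideal (MvPolynomial (Fin (n + 1)) ℂ)}
variable (Z : ZS E s I) (W : Wedge (triv E)) {d : ℤ} {m : ℕ}

/-- a frame from a basis -/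
theorem frame (hd : GenW W d) (b : Basis (Fin m) ℂ (S0 E d)) {x : Fin (n + 1) → ℂ} (hx : x ≠ 0) :
    ∃ k l, eval x (W.wd (b k) (b l)) ≠ 0 := by
  by_contra hcon
  push Not at hcon
  obtain ⟨G1, G2, h1, h2, h3⟩ := hd x hx
  apply h3
  have h4 : ((wdB W d d).compr₂ ((aeval x : MvPolynomial (Fin (n + 1)) ℂ →ₐ[ℂ] ℂ).toLinearMap)) =
      0 := by
    refine b.ext fun i => b.ext fun j => ?_
    show aeval x (W.wd (b i) (b j)) = 0
    rw [MvPolynomial.aeval_eq_eval]
    exact hcon i j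
  have h5 := LinearMap.congr_fun (LinearMap.congr_fun h4 ⟨G1, h1⟩) ⟨G2, h2⟩
  have h6 : aeval x (W.wd G1 G2) = (0 : ℂ) := h5
  rwa [MvPolynomial.aeval_eq_eval] at h6

/-- the operator with prescribed products -/
theorem op_of_pairing {N : Matrix (Fin (n + 1)) (Fin (n + 1)) ℂ} {Δ : S0 E d →ₗ[ℂ] S0 E d}
    (hn : 1 ≤ n) (hd : GenW W d)
    (hΔ : ∀ s t : S0 E d, vf N (W.wd s t) = W.wd (Δ s) t + W.wd s (Δ t)) :
    ∃ O : Op E N, ∀ G, Ker E G → Ker E (O.D G) ∧ ∀ u : S0 E d,
      W.wd (O.D G) u = vf N (W.wd G u) - W.wd G (Δ u) := by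
  classical
  have hex : ∀ G : Vec E.a n, ∃ H : Vec E.a n, Ker E G → (Ker E H ∧
      (∀ u : S0 E d, W.wd H u = vf N (W.wd G u) - W.wd G (Δ u)) ∧
      ∀ e, Sec E e G → Sec E e H) := by
    intro G
    by_cases hG : Ker E G
    · obtain ⟨H, h⟩ := exists_der W hn hd hΔ hG
      exact ⟨H, fun _ => h⟩
    · exact ⟨G, fun h => absurd h hG⟩
  choose D hD using hex
  refine ⟨{ D := D, sec := ?_, add := ?_, leib := ?_ }, fun G hG => ⟨(hD G hG).1, (hD G hG).2.1⟩⟩
  · intro e G hG
    exact (hD G hG.ker).2.2 e hG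
  · intro e G G' hG hG'
    have h1 := hD G hG.ker
    have h2 := hD G' hG'.ker
    have h3 := hD _ (ker_add hG.ker hG'.ker)
    refine eqz' W hd h3.1 (ker_add h1.1 h2.1) fun x => ?_
    rw [wd_add_left W h1.1 h2.1 x.2.ker, h3.2.1, h1.2.1, h2.2.1,
      wd_add_left W hG.ker hG'.ker x.2.ker, wd_add_left W hG.ker hG'.ker (Δ x).2.ker, map_add]
    ring
  · intro e e' p G hG hp
    have h1 := hD G hG.ker
    have h3 := hD _ (ker_mul hG.ker p)
    refine eqz' W hd h3.1 (ker_add (ker_mul hG.ker _) (ker_mul h1.1 _)) fun x => ?_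
    rw [wd_add_left W (ker_mul hG.ker _) (ker_mul h1.1 _) x.2.ker, h3.2.1,
      W.smul _ _ _ hG.ker x.2.ker, W.smul _ _ _ hG.ker (Δ x).2.ker, W.smul _ _ _ hG.ker x.2.ker,
      W.smul _ _ _ h1.1 x.2.ker, h1.2.1, Derivation.leibniz]
    simp only [smul_eq_mul]
    ring

include Z in
/-- **Lifting a tangent vector field.** -/
theorem serre_lift (hn : 2 ≤ n) (hom : ∀ F ∈ I, ∀ d, homogeneousComponent d F ∈ I)
    {N : Matrix (Fin (n + 1)) (Fin (n + 1)) ℂ} (hst : ∀ F ∈ I, vf N F ∈ I) :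
    ∃ (O : Op E N) (θ : ℂ), O.D s = fun i => C θ * s i := by
  classical
  obtain ⟨W⟩ := exists_wedge (by omega : 1 ≤ n) (triv E)
  obtain ⟨d, hd⟩ := exists_deg W
  have hd : GenW W d := hd
  have hs := Z.sec.ker
  have hps := prm_s Z W (by omega)
  let b := Module.finBasis ℂ (S0 E d)
  set m := finrank ℂ (S0 E d) with hm
  let σ : Fin m → MvPolynomial (Fin (n + 1)) ℂ := fun k => W.wd s (b k)
  let ω : Fin m → Fin m → MvPolynomial (Fin (n + 1)) ℂ := fun k l => W.wd (b k) (b l)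
  have hk : ∀ k, Ker E (b k : Vec E.a n) := fun k => (b k).2.ker
  have hσI : ∀ k, σ k ∈ I := fun k => Z.f_mem W (hk k)
  have hσh : ∀ k, HomZ (σ k) (0 + d + W.κ.1) := fun k => wd_homZ W Z.sec (b k).2
  have hω : Kos σ ω :=
    { anti := fun k l => W.anti _ _ (hk k) (hk l)
      rel := fun k l r => W.four s (b k) (b l) (b r) hs (hk k) (hk l) (hk r) }
  have hK : ∀ k, ∃ K, Sec E d K ∧ W.wd s K = vf N (σ k) := fun k =>
    surj Z W hn (hst _ (hσI k)) (vf_homZ N (hσh k))
  choose K hKs hKw using hK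
  let β : Fin m → Fin m → MvPolynomial (Fin (n + 1)) ℂ := fun k l =>
    vf N (ω k l) - W.wd (K k) (b l) - W.wd (b k) (K l)
  have hβ : Kos σ β :=
    { anti := by
        intro k l
        show vf N (ω k l) - W.wd (K k) (b l) - W.wd (b k) (K l) =
          -(vf N (ω l k) - W.wd (K l) (b k) - W.wd (b l) (K k))
        rw [hω.anti k l, map_neg, W.anti (K k) (b l) (hKs k).ker (hk l),
          W.anti (b k) (K l) (hk k) (hKs l).ker]
        ring
      rel := by
        intro k l r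
        have F1 := congrArg (vf N) (hω.rel k l r)
        rw [map_zero, map_add, map_sub, Derivation.leibniz, Derivation.leibniz,
          Derivation.leibniz] at F1
        simp only [smul_eq_mul, ← hKw] at F1
        have f1 := W.four s (K k) (b l) (b r) hs (hKs k).ker (hk l) (hk r)
        have f2 := W.four s (b k) (K l) (b r) hs (hk k) (hKs l).ker (hk r)
        have f3 := W.four s (b k) (b l) (K r) hs (hk k) (hk l) (hKs r).ker
        show σ k * (vf N (ω l r) - W.wd (K l) (b r) - W.wd (b l) (K r)) -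
          σ l * (vf N (ω k r) - W.wd (K k) (b r) - W.wd (b k) (K r)) +
          σ r * (vf N (ω k l) - W.wd (K k) (b l) - W.wd (b k) (K l)) = 0
        linear_combination F1 - f1 - f2 - f3 }
  have hp : Prm σ := by
    intro p hp
    by_contra hu
    obtain ⟨π, hπ, hdv⟩ : ∃ π : MvPolynomial (Fin (n + 1)) ℂ, Prime π ∧ ∀ i, π ∣ σ i := by
      by_cases h0 : p = 0
      · refine ⟨X 0, X_prime, fun i => ?_⟩
        have h1 := hp i
        rw [h0, zero_dvd_iff] at h1
        rw [h1]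
        exact dvd_zero _
      · obtain ⟨π, hπ, hd⟩ := WfDvdMonoid.exists_irreducible_factor hu h0
        exact ⟨π, UniqueFactorizationMonoid.irreducible_iff_prime.1 hπ, fun i => hd.trans (hp i)⟩
    obtain ⟨v, hv, hv0⟩ := no_isolated_prime (by omega : 2 ≤ n + 1) π hπ
    obtain ⟨k, l, hkl⟩ := frame W hd b hv
    apply hπ.not_isUnit
    apply hps
    intro i
    have h1 := W.three s (b k) (b l) hs (hk k) (hk l) i
    have h2 : π ∣ W.wd (b k) (b l) * s i := by
      have h3 : W.wd (b k) (b l) * s i = σ l * (b k : Vec E.a n) i - σ k * (b l : Vec E.a n) i := by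
        linear_combination h1
      rw [h3]
      exact dvd_sub ((hdv l).mul_right _) ((hdv k).mul_right _)
    rcases hπ.dvd_or_dvd h2 with h4 | h4
    · exfalso
      obtain ⟨q, hq⟩ := h4
      apply hkl
      rw [hq, map_mul, hv0, zero_mul]
    · exact h4
  -- the degree
  obtain ⟨e, he⟩ : ∃ e : ℕ, (e : ℤ) = d + d + W.κ.1 := by
    obtain ⟨k, l, hkl⟩ := frame W hd b (x := fun _ => 1) (fun h => by simpa using congrFun h 0)
    have h1 := wd_homZ W (b k).2 (b l).2
    rcases h1 with h1 | ⟨e, he, -⟩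
    · exact absurd (by rw [h1, map_zero]) hkl
    · exact ⟨e, he⟩
  have hIs : ∀ {p : MvPolynomial (Fin (n + 1)) ℂ}, HomZ p (d + d + W.κ.1) → p.IsHomogeneous e := by
    intro p hp
    rcases hp with rfl | ⟨k, hk, hp⟩
    · exact isHomogeneous_zero _ _ _
    · have h1 : k = e := by rw [← he] at hk; exact_mod_cast hk
      rwa [h1] at hp
  have hωe : ∀ k l, (ω k l).IsHomogeneous e := fun k l => hIs (wd_homZ W (b k).2 (b l).2)
  have hβe : ∀ k l, (β k l).IsHomogeneous e := fun k l =>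
    ((hIs (vf_homZ N (wd_homZ W (b k).2 (b l).2))).sub (hIs (wd_homZ W (hKs k) (b l).2))).sub
      (hIs (wd_homZ W (b k).2 (hKs l)))
  obtain ⟨c, lam, hlam⟩ := kos hn Z.prime hom Z.ne hσI hω hβ hp (fun x hx => frame W hd b hx)
    (fun x hx k l hkl F hF => Z.locgen W (hk k) (hk l) hx hkl hF) hωe hβe
  -- homogeneous coefficients
  let lam' : Fin m → MvPolynomial (Fin (n + 1)) ℂ := fun k =>
    weightedHomogeneousComponent (tw (0 : Fin (n + 1) → ℤ × ℤ)) ((d, 0) : M) (lam k)
  have hlamh : ∀ k, HomZ (lam' k) d := fun k =>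
    homZ_of (weightedHomogeneousComponent_isWeightedHomogeneous _ _)
  have hlam' : ∀ k l, β k l = C c * ω k l + lam' k * σ l - lam' l * σ k := by
    intro k l
    have h1 : HomZ (β k l - C c * ω k l) (0 + d + W.κ.1 + d) := by
      right
      refine ⟨e, by rw [he]; ring, (hβe k l).sub ?_⟩
      have := (isHomogeneous_C (Fin (n + 1)) c).mul (hωe k l)
      rwa [zero_add] at this
    have h2 := (wh_triv h1).weightedHomogeneousComponent_same
    have h3 : β k l - C c * ω k l = σ l * lam k - σ k * lam l := by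
      rw [hlam k l]
      ring
    have h4 : ((0 + d + W.κ.1 + d, 0) : M) = ((0 + d + W.κ.1, 0) : M) + ((d, 0) : M) := by
      refine Prod.ext rfl ?_
      show (0 : ℤ × ℤ) = 0 + 0
      rw [add_zero]
    rw [h4] at h2
    rw [h3, map_sub, whc_mul (wh_triv (hσh l)), whc_mul (wh_triv (hσh k)), ← h3] at h2
    linear_combination -h2
  -- the operator on the sections of the twist
  have hsec : ∀ k, Sec E d (fun i => K k i + C (c / 2) * (b k : Vec E.a n) i + lam' k * s i) := by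
    intro k
    have h1 := sec_mul (W615.homZ_C (c / 2)) (b k).2
    have h2 := sec_mul (hlamh k) Z.sec
    rw [zero_add] at h1
    rw [add_zero] at h2
    exact sec_add (sec_add (hKs k) h1) h2
  let Δ : S0 E d →ₗ[ℂ] S0 E d := b.constr ℂ fun k => ⟨_, hsec k⟩
  have hΔb : ∀ k, (Δ (b k) : Vec E.a n) =
      fun i => K k i + C (c / 2) * (b k : Vec E.a n) i + lam' k * s i := by
    intro k
    have h1 : Δ (b k) = _ := b.constr_basis ℂ _ k
    rw [h1]
  have hker1 : ∀ k, Ker E (fun i => K k i + C (c / 2) * (b k : Vec E.a n) i) := fun k =>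
    ker_add (hKs k).ker (ker_mul (hk k) _)
  have hcc : (C c : MvPolynomial (Fin (n + 1)) ℂ) = C (c / 2) + C (c / 2) := by
    rw [← C_add]
    congr 1
    ring
  have hwl : ∀ k {G : Vec E.a n}, Ker E G → W.wd (Δ (b k)) G =
      W.wd (K k) G + C (c / 2) * W.wd (b k) G + lam' k * W.wd s G := by
    intro k G hG
    rw [hΔb, wd_add_left W (hker1 k) (ker_mul hs _) hG,
      wd_add_left W (hKs k).ker (ker_mul (hk k) _) hG, W.smul _ _ _ (hk k) hG, W.smul _ _ _ hs hG]
  have hwr : ∀ k {G : Vec E.a n}, Ker E G → W.wd G (Δ (b k)) =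
      W.wd G (K k) + C (c / 2) * W.wd G (b k) + lam' k * W.wd G s := by
    intro k G hG
    rw [hΔb, wd_add_right W (hker1 k) (ker_mul hs _) hG,
      wd_add_right W (hKs k).ker (ker_mul (hk k) _) hG, wd_mul_right W (hk k) hG,
      wd_mul_right W hs hG]
  have hΔ : ∀ s t : S0 E d, vf N (W.wd s t) = W.wd (Δ s) t + W.wd s (Δ t) := by
    have h1 : (wdB W d d).compr₂ ((vf N : Derivation ℂ _ _) : _ →ₗ[ℂ] _) =
        (wdB W d d).compl₁₂ Δ LinearMap.id + (wdB W d d).compl₁₂ LinearMap.id Δ := by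
      refine b.ext fun k => b.ext fun l => ?_
      show vf N (W.wd (b k) (b l)) = W.wd (Δ (b k)) (b l) + W.wd (b k) (Δ (b l))
      rw [hwl k (hk l), hwr l (hk k), W.anti (b k) s (hk k) hs]
      have h2 : vf N (W.wd (b k) (b l)) - W.wd (K k) (b l) - W.wd (b k) (K l) =
        C c * W.wd (b k) (b l) + lam' k * W.wd s (b l) - lam' l * W.wd s (b k) := hlam' k l
      rw [hcc] at h2
      linear_combination h2
    intro s t
    exact LinearMap.congr_fun (LinearMap.congr_fun h1 s) t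
  obtain ⟨O, hO⟩ := op_of_pairing W (by omega) hd hΔ
  refine ⟨O, -(c / 2), ?_⟩
  refine eqz' W hd (hO s hs).1 (ker_mul hs _) fun u => ?_
  rw [(hO s hs).2, W.smul _ _ _ hs u.2.ker]
  let f1 : S0 E d →ₗ[ℂ] MvPolynomial (Fin (n + 1)) ℂ := wdB W 0 d ⟨s, Z.sec⟩
  have h1 : ((vf N : Derivation ℂ _ _) : _ →ₗ[ℂ] _).comp f1 - f1.comp Δ = (-(c / 2)) • f1 := by
    refine b.ext fun k => ?_
    show vf N (W.wd s (b k)) - W.wd s (Δ (b k)) = (-(c / 2)) • W.wd s (b k)
    rw [hwr k hs, hKw, wd_self W hs, smul_eq_C_mul, C_neg]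
    show vf N (σ k) - _ = _
    ring
  have h2 := LinearMap.congr_fun h1 u
  rw [← smul_eq_C_mul]
  exact h2

end Pool.Agent.TH189.Se
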