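import Pool.Agent.W615.Y11

/-!
Smooth zero loci of codimension two in `P^n`, `n ≥ 6`, with a one-dimensional torus of symmetries:
an extension of `W615.torus_main` and `W615.symmetric_main`, where `n ≥ 7`.
-/

set_option autoImplicit false

open MvPolynomial H960VB H938TB Pool.Agent.W615

namespace Pool.Agent.TH189.Se

variable {n : ℕ} {w : Fin (n + 1) → ℤ × ℤ} {E : Bundle2 n} {D : EqB E w}
variable {W : Wedge D} {σ : M} {s : Vec E.a n} {a b : ℤ}

theorem inj3 {x y k : Fin (n + 1)} (hxy : x ≠ y) (hxk : x ≠ k) (hyk : y ≠ k) :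
    Function.Injective (![x, y, k] : Fin (2 + 1) → Fin (n + 1)) := by
  intro a b hab
  fin_cases a <;> fin_cases b <;> simp at hab ⊢ <;> first | exact hxy hab | exact hxk hab | exact hyk hab | exact hxy hab.symm | exact hxk hab.symm | exact hyk hab.symm

/-- a zero at an extreme weight of multiplicity two -/
theorem ext_zero (H : Dat W σ s a b) {v : ℤ} {x l l' : Fin (n + 1)} (hll : l ≠ l')
    (hl : (w l).1 = v) (hl' : (w l').1 = v) (hx : (w x).1 ≠ v)
    (ox : evv s (ee x : Fin (n + 1) → ℂ) ≠ 0) :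
    ∃ z : Fin (n + 1) → ℂ, z ≠ 0 ∧ Fixed w z v ∧ evv s z = 0 := by
  by_contra hcon
  push Not at hcon
  have hxl : x ≠ l := by rintro rfl; exact hx hl
  have hxl' : x ≠ l' := by rintro rfl; exact hx hl'
  set f : Fin (2 + 1) → Fin (n + 1) := ![x, l, l'] with hf
  have hfi : Function.Injective f := inj3 hxl hxl' hll
  refine no_free_plane (by have := H.hn; omega) H.hE H.hs f hfi ?_
  intro z v' hz hfz h0
  have hfz' := fixed_cInc f hfz
  have hzne : cInc f z ≠ 0 := T_ne (cInc_injective f hfi) hz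
  by_cases hz0 : z 0 = 0
  · -- the point has weight `v`
    have hv : v' = v := by
      obtain ⟨t, ht⟩ : ∃ t, z t ≠ 0 := by
        by_contra hc
        push Not at hc
        exact hz (funext hc)
      have h1 : (w (f t)).1 = v' := hfz t ht
      fin_cases t
      · exact absurd hz0 ht
      · exact h1.symm.trans hl
      · exact h1.symm.trans hl'
    rw [hv] at hfz'
    exact hcon _ hzne hfz' h0
  · have hv : (w x).1 = v' := hfz 0 hz0
    have h1' : z 1 = 0 := by
      by_contra hc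
      have h1 : (w l).1 = v' := hfz 1 hc
      exact hx (hv.trans (h1.symm.trans hl))
    have h2' : z 2 = 0 := by
      by_contra hc
      have h1 : (w l').1 = v' := hfz 2 hc
      exact hx (hv.trans (h1.symm.trans hl'))
    have h3 : cInc f z = z 0 • (ee x : Fin (n + 1) → ℂ) := by
      have e : z = z 0 • (Pi.single 0 1 : Fin (2 + 1) → ℂ) := by
        funext t
        fin_cases t
        · simp
        · simp [h1']
        · simp [h2']
      conv_lhs => rw [e]
      rw [map_smul, cInc_single]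
      rfl
    apply ox
    funext i
    by_contra hne
    have h4 := (eval_scale_ne (H.hs.hom i) hz0).2 hne
    apply h4
    rw [← h3]
    exact congrFun h0 i

/-- the equality case -/
theorem eq_case (H : Dat W σ s a b) {p x : Fin (n + 1)} (hp : a < (w p).1) (hp' : (w p).1 < b)
    (hx : a < (w x).1) (hx' : (w x).1 < b) (ip : evv s (ee p : Fin (n + 1) → ℂ) = 0)
    (ox : evv s (ee x : Fin (n + 1) → ℂ) ≠ 0)
    (hza : ∃ z : Fin (n + 1) → ℂ, z ≠ 0 ∧ Fixed w z a ∧ evv s z = 0)
    (hzb : ∃ z : Fin (n + 1) → ℂ, z ≠ 0 ∧ Fixed w z b ∧ evv s z = 0) : False := by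
  obtain ⟨z, hz, hfz, iz⟩ := hza
  obtain ⟨z', hz', hfz', iz'⟩ := hzb
  have hdeg := H.degree hp hp' hx hx' ip ox
  have hab := H.hab
  obtain ⟨A, B, hT⟩ := Ty.exists W hz a
  obtain ⟨A', B', hT'⟩ := Ty.exists W hz' b
  have s1 := Dat.sum (σ := σ) hfz hT
  have s2 := Dat.sum (σ := σ) hfz' hT'
  obtain ⟨r, r', hrr, e1, e2, -⟩ := type_in W H.hs hz hfz hT iz (H.hsm _ _ hz hfz iz)
  obtain ⟨t, t', htt, e3, e4, -⟩ := type_in W H.hs hz' hfz' hT' iz' (H.hsm _ _ hz' hfz' iz')
  have b1 := H.hb r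
  have b2 := H.hb r'
  have b3 := H.ha r
  have b4 := H.ha r'
  have b5 := H.ha t
  have b6 := H.ha t'
  have b7 := H.hb t
  have b8 := H.hb t'
  set X := σ + σ + W.κ with hX
  set c := X.1 with hc
  have hcW : (b - a) * c = ((w r).1 - a) + ((w r').1 - a) - ((w t).1 - b) - ((w t').1 - b) := by
    rw [e1, e2] at s1
    rw [e3, e4] at s2
    linear_combination s2 - s1
  have hc0 : 0 ≤ c := by
    by_contra hcon
    push Not at hcon
    have : (b - a) * c < 0 := mul_neg_of_pos_of_neg (by omega) hcon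
    omega
  have hc4 : 4 ≤ c := by omega
  have hc4' : (b - a) * 4 ≤ (b - a) * c := mul_le_mul_of_nonneg_left hc4 (by omega)
  have w1 : (w r).1 = b := by omega
  have w2 : (w r').1 = b := by omega
  have w3 : (w t).1 = a := by omega
  have w4 : (w t').1 = a := by omega
  have hft : Fixed w (ee t : Fin (n + 1) → ℂ) a := by
    have := ee_fixed w t
    rwa [w3] at this
  obtain ⟨A₁, B₁, hT₁⟩ := Ty.exists W (ee_ne t) a
  have hAB : chi a σ - A₁ = b - a ∧ chi a σ - B₁ = b - a := by
    rcases Ty.unique W hz hfz hft hT hT₁ with ⟨h1, h2⟩ | ⟨h1, h2⟩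
    · rw [← h1, ← h2]
      constructor <;> omega
    · rw [← h1, ← h2]
      constructor <;> omega
  refine no_double W H.hs H.hsm htt w3 w4 hab hT₁ hAB.1 hAB.2 (l₀ := r) (l₀' := r') ?_ ?_
  · intro l hl
    by_contra hcon
    push Not at hcon
    exact H.mult hcon.1 hcon.2 hrr (by omega) (by omega)
  · show c ≠ 2
    omega

/-- **The equivariant case.** -/
theorem torus6 (hn : 6 ≤ n) (D : EqB E w) (hw2 : ∀ i, (w i).2 = 0) (hb2 : ∀ i, (D.b i).2 = 0)
    (hw : ∃ i j, (w i).1 ≠ (w j).1) {σ : M} {s : Vec E.a n} (hs : HSec D σ s)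
    (hsm : SmoothF w s) : E.Splits := by
  classical
  by_contra hE
  obtain ⟨W⟩ := exists_wedge (by omega) D
  obtain ⟨ia, -, hmin⟩ := Finset.exists_min_image Finset.univ (fun l => (w l).1)
    ⟨0, Finset.mem_univ _⟩
  obtain ⟨ib, -, hmax⟩ := Finset.exists_max_image Finset.univ (fun l => (w l).1)
    ⟨0, Finset.mem_univ _⟩
  obtain ⟨a, ha⟩ : ∃ a, a = (w ia).1 := ⟨_, rfl⟩
  obtain ⟨b, hb⟩ : ∃ b, b = (w ib).1 := ⟨_, rfl⟩
  have H : Dat W σ s a b :=
    { hn := by omega
      hE := hE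
      hs := hs
      hsm := hsm
      hw2 := hw2
      hb2 := hb2
      ha := fun l => by rw [ha]; exact hmin l (Finset.mem_univ l)
      hb := fun l => by rw [hb]; exact hmax l (Finset.mem_univ l)
      ha' := ⟨ia, ha.symm⟩
      hb' := ⟨ib, hb.symm⟩
      hab := by
        obtain ⟨i, j, hij⟩ := hw
        have h1 := hmin i (Finset.mem_univ i)
        have h2 := hmin j (Finset.mem_univ j)
        have h3 := hmax i (Finset.mem_univ i)
        have h4 := hmax j (Finset.mem_univ j)
        omega }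
  have hab := H.hab
  set SA : Finset (Fin (n + 1)) := Finset.univ.filter fun l => (w l).1 = a with hSA
  set SB : Finset (Fin (n + 1)) := Finset.univ.filter fun l => (w l).1 = b with hSB
  set SI : Finset (Fin (n + 1)) := Finset.univ.filter fun l => a < (w l).1 ∧ (w l).1 < b ∧
    evv s (ee l : Fin (n + 1) → ℂ) = 0 with hSI
  set SO : Finset (Fin (n + 1)) := Finset.univ.filter fun l => a < (w l).1 ∧ (w l).1 < b ∧
    evv s (ee l : Fin (n + 1) → ℂ) ≠ 0 with hSO
  have mA : ∀ l, l ∈ SA ↔ (w l).1 = a := fun l => by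
    rw [hSA, Finset.mem_filter]
    exact ⟨fun h => h.2, fun h => ⟨Finset.mem_univ _, h⟩⟩
  have mB : ∀ l, l ∈ SB ↔ (w l).1 = b := fun l => by
    rw [hSB, Finset.mem_filter]
    exact ⟨fun h => h.2, fun h => ⟨Finset.mem_univ _, h⟩⟩
  have mI : ∀ l, l ∈ SI ↔ (a < (w l).1 ∧ (w l).1 < b ∧
      evv s (ee l : Fin (n + 1) → ℂ) = 0) := fun l => by
    rw [hSI, Finset.mem_filter]
    exact ⟨fun h => h.2, fun h => ⟨Finset.mem_univ _, h⟩⟩
  have mO : ∀ l, l ∈ SO ↔ (a < (w l).1 ∧ (w l).1 < b ∧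
      evv s (ee l : Fin (n + 1) → ℂ) ≠ 0) := fun l => by
    rw [hSO, Finset.mem_filter]
    exact ⟨fun h => h.2, fun h => ⟨Finset.mem_univ _, h⟩⟩
  have cA : SA.card ≤ 2 := by
    by_contra hc
    obtain ⟨x, y, z, hx, hy, hz, hxy, hxz, hyz⟩ := Finset.two_lt_card_iff.1 (by omega : 2 < SA.card)
    rw [mA] at hx hy hz
    exact H.mult hxy hxz hyz (by omega) (by omega)
  have cB : SB.card ≤ 2 := by
    by_contra hc
    obtain ⟨x, y, z, hx, hy, hz, hxy, hxz, hyz⟩ := Finset.two_lt_card_iff.1 (by omega : 2 < SB.card)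
    rw [mB] at hx hy hz
    exact H.mult hxy hxz hyz (by omega) (by omega)
  have cI : SI.card ≤ 2 := by
    by_contra hc
    obtain ⟨x, y, z, hx, hy, hz, hxy, hxz, hyz⟩ := Finset.two_lt_card_iff.1 (by omega : 2 < SI.card)
    rw [mI] at hx hy hz
    exact H.mid_three hxy hxz hyz hx.1 hx.2.1 hy.1 hy.2.1 hz.1 hz.2.1 hx.2.2 hy.2.2 hz.2.2
  have cO : SO.card ≤ 2 := by
    by_contra hc
    obtain ⟨x, y, z, hx, hy, hz, hxy, hxz, hyz⟩ := Finset.two_lt_card_iff.1 (by omega : 2 < SO.card)
    rw [mO] at hx hy hz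
    exact H.free hxy hxz hyz hx.1 hx.2.1 hy.1 hy.2.1 hx.2.2 hy.2.2 hz.2.2
  have hcov : (Finset.univ : Finset (Fin (n + 1))) ⊆ (SA ∪ SB) ∪ (SI ∪ SO) := by
    intro l _
    rw [Finset.mem_union, Finset.mem_union, Finset.mem_union, mA, mB, mI, mO]
    have h1 := H.ha l
    have h2 := H.hb l
    by_cases h3 : (w l).1 = a
    · exact Or.inl (Or.inl h3)
    · by_cases h4 : (w l).1 = b
      · exact Or.inl (Or.inr h4)
      · right
        by_cases h5 : evv s (ee l : Fin (n + 1) → ℂ) = 0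
        · exact Or.inl ⟨by omega, by omega, h5⟩
        · exact Or.inr ⟨by omega, by omega, h5⟩
  have hcard := Finset.card_le_card hcov
  rw [Finset.card_univ, Fintype.card_fin] at hcard
  have u1 := Finset.card_union_le (SA ∪ SB) (SI ∪ SO)
  have u2 := Finset.card_union_le SA SB
  have u3 := Finset.card_union_le SI SO
  obtain ⟨p, hpI⟩ := Finset.card_pos.1 (by omega : 0 < SI.card)
  obtain ⟨x, hxO⟩ := Finset.card_pos.1 (by omega : 0 < SO.card)
  have hp := (mI p).1 hpI
  have hx := (mO x).1 hxO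
  have key : ∀ (v : ℤ) (S : Finset (Fin (n + 1))), (∀ l, l ∈ S ↔ (w l).1 = v) →
      (v = a ∨ v = b) → 0 < S.card → (S.card = 2 ∨ SO.card = 2) →
      ∃ z : Fin (n + 1) → ℂ, z ≠ 0 ∧ Fixed w z v ∧ evv s z = 0 := by
    intro v S mS hv hS0 hor
    rcases hor with h2 | h2
    · obtain ⟨l, l', hll, hS⟩ := Finset.card_eq_two.1 h2
      have hl := (mS l).1 (by rw [hS]; simp)
      have hl' := (mS l').1 (by rw [hS]; simp)
      exact ext_zero H hll hl hl' (by rcases hv with rfl | rfl <;> omega) hx.2.2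
    · obtain ⟨x, y, hxy, hO⟩ := Finset.card_eq_two.1 h2
      have hx := (mO x).1 (by rw [hO]; simp)
      have hy := (mO y).1 (by rw [hO]; simp)
      obtain ⟨l, hl⟩ := Finset.card_pos.1 hS0
      have hl := (mS l).1 hl
      refine ⟨ee l, ee_ne l, ?_, ?_⟩
      · have := ee_fixed w l
        rwa [hl] at this
      · by_contra ho
        exact H.free hxy (by rintro rfl; rcases hv with rfl | rfl <;> omega)
          (by rintro rfl; rcases hv with rfl | rfl <;> omega) hx.1 hx.2.1 hy.1 hy.2.1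
          hx.2.2 hy.2.2 ho
  have a0 : 0 < SA.card := Finset.card_pos.2 ⟨ia, (mA ia).2 ha.symm⟩
  have b0 : 0 < SB.card := Finset.card_pos.2 ⟨ib, (mB ib).2 hb.symm⟩
  exact eq_case H hp.1 hp.2.1 hx.1 hx.2.1 hp.2.2 hx.2.2
    (key a SA mA (Or.inl rfl) a0 (by omega)) (key b SB mB (Or.inr rfl) b0 (by omega))

/-- **Theorem.**  A bundle of rank two on `P^n`, `n ≥ 6`, with a section `s` such that `(E, s)` has
an infinitesimal symmetry, and whose zero locus is smooth of codimension two at the points fixed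
by this symmetry, splits. -/
theorem symmetric6 {E : Bundle2 n} {N : Matrix (Fin (n + 1)) (Fin (n + 1)) ℂ} (hn : 6 ≤ n)
    (O : Op E N) (hN : ∀ c : ℂ, N ≠ c • 1) {ds : ℤ}
    {s : Vec E.a n} (hs : Sec E ds s) {μ : ℂ} (hl : O.D s = fun i => C μ * s i)
    (hsm : ∀ x : Fin (n + 1) → ℂ, x ≠ 0 → evv s x = 0 → (∃ c : ℂ, N.mulVec x = c • x) →
      SmoothAt s x) : E.Splits := by
  by_contra hE
  obtain ⟨P, P', wz, a, b, ha, h1, h2, hNP⟩ := lifts_int (by omega) hE ⟨O⟩ hN
  set lam : Fin (n + 1) → ℂ := fun l => a * wz l + b with hlam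
  have h3 : P' * N * P = Matrix.diagonal lam + 0 := by
    have e1 : P' * N * P = a • ((P' * P) * Matrix.diagonal (fun i => (wz i : ℂ)) * (P' * P)) +
        b • (P' * P) := by
      rw [hNP]
      simp only [mul_add, add_mul, Matrix.mul_smul, Matrix.smul_mul, mul_one, mul_assoc]
    rw [e1, h2, one_mul, mul_one, add_zero, ← Matrix.diagonal_one, ← Matrix.diagonal_smul,
      ← Matrix.diagonal_smul, Matrix.diagonal_add]
    congr 1
    funext l
    simp [hlam]
  have hli : LinearIndependent ℚ ![a] := by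
    rw [linearIndependent_unique_iff]
    exact ha
  obtain ⟨φ, hφ1, -⟩ := exists_dual hli 0
  have hφa : φ a = 1 := hφ1
  have hφ : ∀ l, φ (lam l) = wz l + φ b := by
    intro l
    have e1 : lam l = (wz l : ℚ) • a + b := by
      rw [hlam, Rat.smul_def]
      push_cast
      ring
    rw [e1, map_add, map_smul, hφa, smul_eq_mul, mul_one]
  obtain ⟨E', K, w, D, σ, y, hK, hspl, hw, hw2, hb2, hy, hy0, hysm⟩ :=
    descend_s (by omega) O hs hl h1 h3 (by rw [mul_zero, zero_mul]) IsNilpotent.zero φ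
  have hK' : (K : ℚ) ≠ 0 := by exact_mod_cast hK
  have hwe : ∀ l l', (w l).1 = (w l').1 → wz l = wz l' := by
    intro l l' h
    have e1 : ((w l).1 : ℚ) = (w l').1 := by rw [h]
    rw [hw, hw, hφ, hφ] at e1
    have e2 := mul_left_cancel₀ hK' e1
    have e3 : (wz l : ℚ) = wz l' := by linarith
    exact_mod_cast e3
  apply hE
  apply hspl
  refine torus6 hn D hw2 hb2 ?_ hy ?_
  · by_contra hcon
    push Not at hcon
    have e1 : ∀ l, wz l = wz 0 := fun l => hwe _ _ (hcon l 0)
    apply hN (a * wz 0 + b)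
    have e2 : Matrix.diagonal (fun i => (wz i : ℂ)) =
        (wz 0 : ℂ) • (1 : Matrix (Fin (n + 1)) (Fin (n + 1)) ℂ) := by
      rw [← Matrix.diagonal_one, ← Matrix.diagonal_smul]
      congr 1
      funext l
      rw [e1 l]
      simp
    rw [hNP, e2, Matrix.mul_smul, mul_one, Matrix.smul_mul, h1, smul_smul, ← add_smul]
  · intro x v hx hf h0
    have h4 := hy0 x hx h0
    refine hysm x hx h4 (hsm _ ?_ h4 ?_)
    · intro h5
      apply hx
      have h6 := congrArg P'.mulVec h5
      rw [Matrix.mulVecLin_apply, Matrix.mulVec_mulVec, h2, Matrix.one_mulVec,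
        Matrix.mulVec_zero] at h6
      exact h6
    · -- x is an eigenvector of the diagonal matrix
      obtain ⟨l₀, hl₀⟩ : ∃ l, x l ≠ 0 := by
        by_contra hcon
        push Not at hcon
        exact hx (funext hcon)
      refine ⟨lam l₀, ?_⟩
      have h5 : (Matrix.diagonal lam).mulVec x = lam l₀ • x := by
        funext l
        rw [Matrix.mulVec_diagonal, Pi.smul_apply, smul_eq_mul]
        by_cases hxl : x l = 0
        · rw [hxl, mul_zero, mul_zero]
        · have h6 : wz l = wz l₀ := hwe _ _ ((hf l hxl).trans (hf l₀ hl₀).symm)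
          simp only [hlam]
          rw [h6]
      have h6 : N * P = P * Matrix.diagonal lam := by
        rw [add_zero] at h3
        rw [← h3, ← mul_assoc, ← mul_assoc, h1, one_mul]
      rw [Matrix.mulVecLin_apply, Matrix.mulVec_mulVec, h6, ← Matrix.mulVec_mulVec, h5,
        Matrix.mulVec_smul]

end Pool.Agent.TH189.Se
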