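import Pool.Agent.TH189.Sg2

/-!
The group of the linear symmetries of an indecomposable bundle of rank two.
-/

set_option autoImplicit false

open MvPolynomial H960VB H938TB Pool.Agent.W615 Pool.Agent.W467.FO

namespace Pool.Agent.TH189.Sg

open Module

/-! ### linear algebra -/

section lin

variable {V : Type} [AddCommGroup V] [Module ℂ V] [FiniteDimensional ℂ V]

theorem logN_eq_zero {x : End ℂ V} {K : ℕ} (hK : 2 ≤ K) (h : logN K x = 0) :
    ∀ j : ℕ, x ^ (j + 1) = 0 → x = 0 := by
  intro j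
  induction j with
  | zero => intro h1; rwa [zero_add, pow_one] at h1
  | succ j ih =>
    intro h1
    apply ih
    have h2 : x ^ j * logN K x = x ^ (j + 1) := by
      rw [logN, Finset.mul_sum]
      rw [Finset.sum_eq_single 1]
      · rw [cc_one, one_smul, pow_one, ← pow_succ]
      · intro k _ hk
        rcases Nat.lt_or_ge k 1 with h3 | h3
        · have h4 : k = 0 := by omega
          rw [h4, cc_zero, zero_smul, mul_zero]
        · obtain ⟨i, rfl⟩ : ∃ i, k = i + 2 := ⟨k - 2, by omega⟩
          have h4 : x ^ (i + 2) * 1 = x ^ (i + 2) := mul_one _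
          rw [mul_smul_comm, ← pow_add]
          have h5 : j + (i + 2) = (j + 1 + 1) + i := by omega
          rw [h5, pow_add, h1, zero_mul, smul_zero]
      · intro h3
        exact absurd (Finset.mem_range.2 (by omega)) h3
    rw [← h2, h, mul_zero]

/-- the logarithm of a nilpotent operator is nilpotent -/
theorem logN_nilpotent {x : End ℂ V} {K M : ℕ} (hx : x ^ M = 0) : (logN K x) ^ M = 0 := by
  obtain ⟨y, hy, hc⟩ : ∃ y : End ℂ V, logN K x = x * y ∧ Commute x y := by
    refine ⟨∑ k ∈ Finset.range K, cc k • (if k = 0 then 0 else x ^ (k - 1)), ?_, ?_⟩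
    · rw [logN, Finset.mul_sum]
      refine Finset.sum_congr rfl fun k _ => ?_
      split_ifs with hk
      · rw [hk, cc_zero, zero_smul, zero_smul, mul_zero]
      · rw [mul_smul_comm, ← pow_succ']
        congr 2
        omega
    · refine Commute.sum_right _ _ _ fun k _ => Commute.smul_right ?_ _
      split_ifs
      · exact Commute.zero_right _
      · exact (Commute.refl x).pow_right _
  rw [hy, hc.mul_pow, hx, zero_mul]

theorem exists_eigenbasis' (s : End ℂ V) (hs : ⨆ μ : ℂ, s.eigenspace μ = ⊤) :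
    ∃ (ι : Type) (_ : Fintype ι) (b : Basis ι ℂ V) (μ : ι → ℂ), ∀ i, s (b i) = μ i • b i := by
  classical
  let S : Set V := {v | ∃ μ : ℂ, s v = μ • v}
  have hS : Submodule.span ℂ S = ⊤ := by
    rw [eq_top_iff, ← hs, iSup_le_iff]
    intro μ v hv
    exact Submodule.subset_span ⟨μ, End.mem_eigenspace_iff.1 hv⟩
  let b0 := Basis.ofSpan hS.ge
  have hb0 : ∀ i, b0 i ∈ S := fun i => Basis.ofSpan_subset hS.ge ⟨i, rfl⟩
  haveI : Fintype ((linearIndepOn_empty ℂ id).extend (Set.empty_subset S)) :=
    FiniteDimensional.fintypeBasisIndex b0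
  choose μ hμ using hb0
  exact ⟨_, this, b0, μ, hμ⟩

/-- if the logarithm of the unipotent part vanishes, the automorphism is diagonalisable -/
theorem diag_of_log (f : End ℂ V) (hf : Function.Injective f) (hV : 1 ≤ finrank ℂ V)
    (h : logCalc.L f = 0) :
    ∃ (ι : Type) (_ : Fintype ι) (b : Basis ι ℂ V) (μ : ι → ℂ), ∀ i, f (b i) = μ i • b i := by
  have h1 : up f - 1 = 0 := by
    refine logN_eq_zero (K := finrank ℂ V + 1) (by omega) h (finrank ℂ V - 1) ?_
    have : finrank ℂ V - 1 + 1 = finrank ℂ V := by omega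
    rw [this]
    exact up_nilpotent hf
  have h2 : up f = 1 := sub_eq_zero.1 h1
  apply exists_eigenbasis'
  rw [eq_top_iff, ← f.iSup_maxGenEigenspace_eq_top]
  refine iSup_mono fun μ v hv => ?_
  rw [End.mem_eigenspace_iff]
  rcases eq_or_ne μ 0 with rfl | hμ
  · rw [eq_zero_of_mem hf hv, map_zero, smul_zero]
  · have h3 := up_apply f hv
    rw [h2, Module.End.one_apply] at h3
    conv_rhs => rw [h3]
    rw [smul_smul, mul_inv_cancel₀ hμ, one_smul]

end lin

/-! ### matrices -/

section mat

variable {n : ℕ}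

/-- the matrix `P t^w P'` -/
noncomputable def tw' (P P' : Matrix (Fin (n + 1)) (Fin (n + 1)) ℂ) (w : Fin (n + 1) → ℤ) (t : ℂ) :
    Matrix (Fin (n + 1)) (Fin (n + 1)) ℂ := P * Matrix.diagonal (fun i => t ^ w i) * P'

/-- an eigenvector of the transpose of `P w P'` -/
theorem eigen_int {P P' : Matrix (Fin (n + 1)) (Fin (n + 1)) ℂ} {w : Fin (n + 1) → ℤ}
    (h1 : P * P' = 1) {v : Fin (n + 1) → ℂ} (hv : v ≠ 0) {l : ℂ}
    (h : (P * Matrix.diagonal (fun i => (w i : ℂ)) * P').transpose.mulVec v = l • v) :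
    ∃ k : ℤ, l = k ∧ ∀ t : ℂ, (tw' P P' w t).transpose.mulVec v = t ^ k • v := by
  have h2 : P' * P = 1 := mul_eq_one_comm.1 h1
  have e1 : P'.transpose * P.transpose = 1 := by rw [← Matrix.transpose_mul, h1, Matrix.transpose_one]
  have e2 : P.transpose * P'.transpose = 1 := by rw [← Matrix.transpose_mul, h2, Matrix.transpose_one]
  set y := P.transpose.mulVec v with hy
  have hvy : v = P'.transpose.mulVec y := by
    rw [hy, Matrix.mulVec_mulVec, e1, Matrix.one_mulVec]
  have hy0 : y ≠ 0 := by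
    intro h3
    rw [h3, Matrix.mulVec_zero] at hvy
    exact hv hvy
  have hact : ∀ d : Fin (n + 1) → ℂ, (P * Matrix.diagonal d * P').transpose.mulVec v =
      P'.transpose.mulVec (fun j => d j * y j) := by
    intro d
    rw [Matrix.transpose_mul, Matrix.transpose_mul, Matrix.diagonal_transpose,
      ← Matrix.mulVec_mulVec, ← Matrix.mulVec_mulVec]
    congr 1
    funext j
    rw [Matrix.mulVec_diagonal]
  have hinj : ∀ z z' : Fin (n + 1) → ℂ, P'.transpose.mulVec z = P'.transpose.mulVec z' → z = z' := by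
    intro z z' hz
    have h3 := congrArg (P.transpose.mulVec) hz
    rwa [Matrix.mulVec_mulVec, Matrix.mulVec_mulVec, e2, Matrix.one_mulVec, Matrix.one_mulVec] at h3
  have h3 : ∀ j, (w j : ℂ) * y j = l * y j := by
    rw [hact] at h
    have h4 : (fun j => (w j : ℂ) * y j) = l • y := by
      apply hinj
      rw [h, Matrix.mulVec_smul, ← hvy]
    exact fun j => congrFun h4 j
  obtain ⟨j, hj⟩ : ∃ j, y j ≠ 0 := by
    by_contra hc
    push Not at hc
    exact hy0 (funext hc)
  have hl : l = w j := (mul_right_cancel₀ hj (h3 j)).symm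
  refine ⟨w j, hl, fun t => ?_⟩
  rw [tw', hact]
  have h4 : (fun i => t ^ w i * y i) = t ^ w j • y := by
    funext i
    rw [Pi.smul_apply, smul_eq_mul]
    by_cases hi : y i = 0
    · rw [hi, mul_zero, mul_zero]
    · have h5 := mul_right_cancel₀ hi (h3 i)
      rw [hl] at h5
      have h6 : w i = w j := by exact_mod_cast h5
      rw [h6]
  rw [h4, Matrix.mulVec_smul, ← hvy]

/-- a nilpotent combination of `P w P'` and the identity vanishes -/
theorem nil_zero {P P' : Matrix (Fin (n + 1)) (Fin (n + 1)) ℂ} {w : Fin (n + 1) → ℤ}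
    (h1 : P * P' = 1) {a b : ℂ} {M : ℕ}
    (h : (a • (P * Matrix.diagonal (fun i => (w i : ℂ)) * P') + b • 1) ^ M = 0) :
    a • (P * Matrix.diagonal (fun i => (w i : ℂ)) * P') +
      b • (1 : Matrix (Fin (n + 1)) (Fin (n + 1)) ℂ) = 0 := by
  have h2 : P' * P = 1 := mul_eq_one_comm.1 h1
  have e1 : a • (P * Matrix.diagonal (fun i => (w i : ℂ)) * P') +
      b • (1 : Matrix (Fin (n + 1)) (Fin (n + 1)) ℂ) =
      P * Matrix.diagonal (fun i => a * (w i : ℂ) + b) * P' := by
    have h3 : Matrix.diagonal (fun i => a * (w i : ℂ) + b) =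
        a • Matrix.diagonal (fun i => (w i : ℂ)) + b • 1 := by
      ext i j
      simp only [Matrix.diagonal_apply, Matrix.add_apply, Matrix.smul_apply, Matrix.one_apply,
        smul_eq_mul]
      split_ifs <;> simp
    rw [h3, Matrix.mul_add, Matrix.add_mul, Matrix.mul_smul, Matrix.smul_mul, Matrix.mul_smul,
      Matrix.mul_one, Matrix.smul_mul, h1]
  rw [e1] at h ⊢
  have e2 : ∀ M : ℕ, (P * Matrix.diagonal (fun i => a * (w i : ℂ) + b) * P') ^ M =
      P * Matrix.diagonal (fun i => (a * (w i : ℂ) + b) ^ M) * P' := by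
    intro M
    induction M with
    | zero => simp [h1]
    | succ M ih =>
      rw [pow_succ, ih]
      calc P * Matrix.diagonal (fun i => (a * (w i : ℂ) + b) ^ M) * P' *
            (P * Matrix.diagonal (fun i => a * (w i : ℂ) + b) * P')
          = P * Matrix.diagonal (fun i => (a * (w i : ℂ) + b) ^ M) * (P' * P) *
            Matrix.diagonal (fun i => a * (w i : ℂ) + b) * P' := by simp only [Matrix.mul_assoc]
        _ = P * (Matrix.diagonal (fun i => (a * (w i : ℂ) + b) ^ M) *
            Matrix.diagonal (fun i => a * (w i : ℂ) + b)) * P' := by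
            rw [h2, Matrix.mul_one, ← Matrix.mul_assoc]
        _ = _ := by
            rw [Matrix.diagonal_mul_diagonal]
            rfl
  rw [e2] at h
  have h3 : Matrix.diagonal (fun i => (a * (w i : ℂ) + b) ^ M) = 0 := by
    have h4 := congrArg (fun Z => P' * Z * P) h
    simp only [Matrix.mul_zero, Matrix.zero_mul] at h4
    calc Matrix.diagonal (fun i => (a * (w i : ℂ) + b) ^ M) =
          (P' * P) * Matrix.diagonal (fun i => (a * (w i : ℂ) + b) ^ M) * (P' * P) := by
          rw [h2, Matrix.one_mul, Matrix.mul_one]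
      _ = P' * (P * Matrix.diagonal (fun i => (a * (w i : ℂ) + b) ^ M) * P') * P := by
          simp only [Matrix.mul_assoc]
      _ = 0 := h4
  have h4 : (fun i => a * (w i : ℂ) + b) = 0 := by
    funext i
    have h5 := congrFun (congrFun h3 i) i
    rw [Matrix.diagonal_apply_eq] at h5
    by_contra h6
    exact pow_ne_zero M h6 h5
  rw [h4]
  simp

end mat

/-! ### the main theorem -/

variable {n : ℕ} {E : Bundle2 n}

theorem trT_mulVec (g : Matrix (Fin (n + 1)) (Fin (n + 1)) ℂ) (y : Fin (n + 1) → ℂ) :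
    trT g.mulVecLin y = g.transpose.mulVec y := by
  funext t
  show ∑ s, y s * (g.mulVec (Pi.single t 1)) s = _
  rw [Matrix.mulVec, dotProduct]
  refine Finset.sum_congr rfl fun s _ => ?_
  rw [Matrix.mulVec_single_one, Matrix.transpose_apply, mul_comm]
  rfl

theorem matN_mulVec (c : Calc) (T : (Fin (n + 1) → ℂ) →ₗ[ℂ] (Fin (n + 1) → ℂ))
    (y : Fin (n + 1) → ℂ) : c.L (trT T) y = (matN c T).transpose.mulVec y := by
  have h1 : y = ∑ s, y s • (Pi.single s 1 : Fin (n + 1) → ℂ) := by
    funext k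
    simp [Finset.sum_apply, Pi.single_apply]
  conv_lhs => rw [h1]
  rw [map_sum]
  funext t
  rw [Finset.sum_apply, Matrix.mulVec, dotProduct]
  refine Finset.sum_congr rfl fun s _ => ?_
  rw [map_smul, Pi.smul_apply, smul_eq_mul, Matrix.transpose_apply, mul_comm]
  rfl

/-- an invertible matrix is surjective -/
theorem surj_of_unit {g : Matrix (Fin (n + 1)) (Fin (n + 1)) ℂ} (hg : IsUnit g) :
    Function.Surjective g.mulVecLin := by
  intro y
  obtain ⟨u, hu⟩ := hg
  refine ⟨(u⁻¹ : (Matrix (Fin (n + 1)) (Fin (n + 1)) ℂ)ˣ).val.mulVec y, ?_⟩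
  rw [Matrix.mulVecLin_apply, Matrix.mulVec_mulVec, ← hu, Units.mul_inv, Matrix.one_mulVec]

/-- the vector fields which lift are multiples of one, up to scalars -/
def Str (E : Bundle2 n) (P P' : Matrix (Fin (n + 1)) (Fin (n + 1)) ℂ) (w : Fin (n + 1) → ℤ) :
    Prop :=
  ∀ N : Matrix (Fin (n + 1)) (Fin (n + 1)) ℂ, LiftsTo E N → ∃ a b : ℂ,
    N = a • (P * Matrix.diagonal (fun i => (w i : ℂ)) * P') + b • 1

/-- **The symmetries of an indecomposable bundle are diagonalisable.** -/
theorem diag_main {P P' : Matrix (Fin (n + 1)) (Fin (n + 1)) ℂ} {w : Fin (n + 1) → ℤ}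
    (hP : P * P' = 1) (hstr : Str E P P' w) {g : Matrix (Fin (n + 1)) (Fin (n + 1)) ℂ}
    (hg : IsUnit g) (O : GOp E g.mulVecLin) :
    ∃ (ι : Type) (_ : Fintype ι) (b : Basis ι ℂ (Fin (n + 1) → ℂ)) (μ : ι → ℂ),
      (∀ i, trT g.mulVecLin (b i) = μ i • b i) ∧ ∀ i, μ i ≠ 0 := by
  have hT := surj_of_unit hg
  set f : End ℂ (Fin (n + 1) → ℂ) := trT g.mulVecLin with hf
  have hfinj : Function.Injective f := trT_injective hT
  have hfin : finrank ℂ (Fin (n + 1) → ℂ) = n + 1 := by simp
  have hlog : logCalc.L f = 0 := by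
    obtain ⟨a, b, hab⟩ := hstr (matN logCalc g.mulVecLin) (lifts_of logCalc O hT)
    have h1 : (logCalc.L f) ^ finrank ℂ (Fin (n + 1) → ℂ) = 0 :=
      logN_nilpotent (up_nilpotent hfinj)
    have h2 : ∀ (k : ℕ) (y : Fin (n + 1) → ℂ), ((logCalc.L f) ^ k) y =
        ((matN logCalc g.mulVecLin).transpose ^ k).mulVec y := by
      intro k
      induction k with
      | zero => intro y; rw [pow_zero, pow_zero, Matrix.one_mulVec]; rfl
      | succ k ih =>
        intro y
        rw [pow_succ, Module.End.mul_apply, ih, pow_succ, ← Matrix.mulVec_mulVec, hf, matN_mulVec]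
    have h3 : (matN logCalc g.mulVecLin) ^ finrank ℂ (Fin (n + 1) → ℂ) = 0 := by
      apply Matrix.transpose_injective
      rw [Matrix.transpose_pow, Matrix.transpose_zero]
      ext i j
      have h4 := h2 (finrank ℂ (Fin (n + 1) → ℂ)) (Pi.single j 1)
      rw [h1, Matrix.mulVec_single_one] at h4
      exact (congrFun h4 i).symm
    rw [hab] at h3
    have h4 := nil_zero hP h3
    rw [← hab] at h4
    refine LinearMap.ext fun y => ?_
    rw [hf, matN_mulVec, h4, Matrix.transpose_zero, Matrix.zero_mulVec]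
    rfl
  obtain ⟨ι, hι, b, μ, hb⟩ := diag_of_log f hfinj (by omega) hlog
  refine ⟨ι, hι, b, μ, hb, fun i h0 => ?_⟩
  have h1 := hb i
  rw [h0, zero_smul] at h1
  exact b.ne_zero i (hfinj (by rw [h1, map_zero]))

/-- from powers of the transpose to powers of `g` -/
theorem pow_of_basis {P P' : Matrix (Fin (n + 1)) (Fin (n + 1)) ℂ} {w : Fin (n + 1) → ℤ}
    {g : Matrix (Fin (n + 1)) (Fin (n + 1)) ℂ} {ι : Type}
    (b : Basis ι ℂ (Fin (n + 1) → ℂ)) {μ : ι → ℂ}
    (hb : ∀ i, trT g.mulVecLin (b i) = μ i • b i) (k : ℕ) (c t : ℂ)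
    (h : ∀ i, μ i ^ k • b i = c • (tw' P P' w t).transpose.mulVec (b i)) :
    g ^ k = c • (P * Matrix.diagonal (fun i => t ^ w i) * P') := by
  set f : End ℂ (Fin (n + 1) → ℂ) := trT g.mulVecLin with hf
  have hpow : ∀ (k : ℕ) (i : ι), (f ^ k) (b i) = (μ i) ^ k • b i := by
    intro k
    induction k with
    | zero => intro i; simp
    | succ k ih =>
      intro i
      rw [pow_succ, Module.End.mul_apply, hb, map_smul, ih, smul_smul, pow_succ, mul_comm]
  have h1 : ∀ (k : ℕ) (y : Fin (n + 1) → ℂ), (f ^ k) y = (g.transpose ^ k).mulVec y := by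
    intro k
    induction k with
    | zero => intro y; rw [pow_zero, pow_zero, Matrix.one_mulVec]; rfl
    | succ k ih =>
      intro y
      rw [pow_succ, Module.End.mul_apply, ih, pow_succ, ← Matrix.mulVec_mulVec, hf, trT_mulVec]
  have h2 : f ^ k = c • ((tw' P P' w t).transpose.mulVecLin) := b.ext fun i => by
    rw [hpow, h i]
    rfl
  apply Matrix.transpose_injective
  rw [Matrix.transpose_pow]
  ext i j
  have h3 := congrFun (h1 k (Pi.single j 1)) i
  rw [h2, Matrix.mulVec_single_one] at h3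
  have h4 : (c • ((tw' P P' w t).transpose.mulVecLin)) (Pi.single j 1) i =
      c * (tw' P P' w t).transpose i j := by
    show c * ((tw' P P' w t).transpose.mulVec (Pi.single j 1)) i = _
    rw [Matrix.mulVec_single_one]
    rfl
  rw [h4] at h3
  exact h3.symm

end Pool.Agent.TH189.Sg
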