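import Pool.Agent.TH189.Se4
import Pool.Agent.TH189.Sg3
import Pool.Agent.TH189.Se8
import Mathlib.Algebra.Category.Grp.Injective

/-!
Vector fields tangent to the zero scheme of a section of an indecomposable bundle; automorphisms
have a scalar power.
-/

set_option autoImplicit false

open MvPolynomial H960VB H938TB Pool.Agent.W615 Pool.Agent.W467.FO Pool.Agent.W467.FX
open Pool.Agent.TH189.Sg

namespace Pool.Agent.TH189.Se

open Module

variable {n : ℕ} {E : Bundle2 n} {s : Vec E.a n} {I : Ideal (MvPolynomial (Fin (n + 1)) ℂ)}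
variable (Z : ZS E s I)

include Z in
/-- the section vanishes transversally -/
theorem smoothAt (hn : 1 ≤ n) {x : Fin (n + 1) → ℂ} (hx0 : x ≠ 0) (h0 : evv s x = 0) :
    SmoothAt s x := by
  obtain ⟨W⟩ := exists_wedge hn (triv E)
  have hx := Z.mem_cone hx0 h0
  obtain ⟨_, _, G, H, hG, hH, hw⟩ := exists_sec_ne W x hx0
  obtain ⟨i, j, hij⟩ := Z.exists_minor W hG.ker hH.ker hx hx0 hw
  obtain ⟨a, b, hab⟩ := W.P_ne x hx0
  have key : ∀ {G : Vec E.a n}, Ker E G → ∀ k, grad (W.wd s G) x k * eval x (W.P a b) =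
      eval x (G b) * grad (s a) x k - eval x (G a) * grad (s b) x k := by
    intro G hG k
    have h1 := congrArg (fun p => grad p x k) (W.eq s G Z.sec.ker hG a b)
    simp only [grad_sub] at h1
    have h2 : eval x (W.wd s G) = 0 := hx _ (Z.f_mem W hG)
    rw [mul_comm (s a), mul_comm (s b), grad_mul_of_zero (hx _ (Z.mem a)),
      grad_mul_of_zero (hx _ (Z.mem b)), mul_comm (W.wd s G), grad_mul_of_zero h2] at h1
    linear_combination -h1
  refine ⟨i, j, a, b, fun hj => hij ?_⟩
  have hj' : grad (s a) x i * grad (s b) x j - grad (s b) x i * grad (s a) x j = 0 := hj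
  rw [eval_Lam]
  apply mul_right_cancel₀ hab
  apply mul_right_cancel₀ hab
  have g1 := key hG.ker i
  have g2 := key hG.ker j
  have g3 := key hH.ker i
  have g4 := key hH.ker j
  rw [zero_mul, zero_mul]
  linear_combination (grad (W.wd s H) x j * eval x (W.P a b)) * g1 -
    (grad (W.wd s H) x i * eval x (W.P a b)) * g2 +
    (eval x (G b) * grad (s a) x i - eval x (G a) * grad (s b) x i) * g4 -
    (eval x (G b) * grad (s a) x j - eval x (G a) * grad (s b) x j) * g3 +
    (eval x (G a) * eval x (H b) - eval x (G b) * eval x (H a)) * hj'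

include Z in
/-- **Tangent vector fields are scalar.** -/
theorem tangent_scalar (hn : 6 ≤ n) (hom : ∀ F ∈ I, ∀ d, homogeneousComponent d F ∈ I)
    (hE : ¬ E.Splits) {N : Matrix (Fin (n + 1)) (Fin (n + 1)) ℂ} (hst : ∀ F ∈ I, vf N F ∈ I) :
    ∃ c : ℂ, N = c • 1 := by
  by_contra hcon
  push Not at hcon
  obtain ⟨O, θ, hO⟩ := serre_lift Z (by omega) hom hst
  exact hE (symmetric6 hn O hcon Z.sec hO fun x hx h0 _ => smoothAt Z (by omega) hx h0)

/-- separation of elements of infinite order -/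
theorem exists_additive {z : ℂ} (hz : z ≠ 0) (h : ∀ m : ℕ, 0 < m → z ^ m ≠ 1) :
    ∃ φ : ℂ → ℂ, (∀ x y : ℂ, x ≠ 0 → y ≠ 0 → φ (x * y) = φ x + φ y) ∧ φ z ≠ 0 := by
  classical
  let f : ℤ →+ Additive ℂˣ := zmultiplesHom _ (Additive.ofMul (Units.mk0 z hz))
  have hf : Function.Injective f := by
    rw [injective_iff_map_eq_zero]
    intro k hk
    have h1 : (Units.mk0 z hz) ^ k = 1 := by
      have h2 : f k = k • Additive.ofMul (Units.mk0 z hz) := rfl
      rw [h2, ← ofMul_zpow] at hk
      exact Additive.ofMul.injective hk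
    have h3 : z ^ k = 1 := by
      have := congrArg Units.val h1
      rwa [Units.val_zpow_eq_zpow_val, Units.val_mk0, Units.val_one] at this
    by_contra hk0
    have h4 : z ^ k.natAbs = 1 := by
      rcases Int.natAbs_eq k with h5 | h5
      · rw [h5, zpow_natCast] at h3
        exact h3
      · rw [h5, zpow_neg, zpow_natCast, inv_eq_one] at h3
        exact h3
    exact h k.natAbs (Int.natAbs_pos.2 hk0) h4
  obtain ⟨g, hg⟩ := (Module.Baer.of_divisible ℂ).extension_property_addMonoidHom f hf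
    (Int.castAddHom ℂ)
  let φ : ℂ → ℂ := fun x => if hx : x = 0 then 0 else g (Additive.ofMul (Units.mk0 x hx))
  have hφ : ∀ (x : ℂ) (hx : x ≠ 0), φ x = g (Additive.ofMul (Units.mk0 x hx)) := fun x hx =>
    dif_neg hx
  refine ⟨φ, ?_, ?_⟩
  · intro x y hx hy
    rw [hφ x hx, hφ y hy, hφ _ (mul_ne_zero hx hy), ← map_add, ← ofMul_mul]
    congr 2
    exact Units.ext rfl
  · rw [hφ z hz]
    have h1 := DFunLike.congr_fun hg 1
    have h2 : f 1 = Additive.ofMul (Units.mk0 z hz) := one_zsmul _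
    rw [AddMonoidHom.comp_apply, h2] at h1
    rw [h1]
    simp

/-- the vector field of a calculus is tangent -/
theorem nat_tangent (c : Calc) {T : (Fin (n + 1) → ℂ) →ₗ[ℂ] (Fin (n + 1) → ℂ)}
    (hT : Function.Surjective T) (hom : ∀ F ∈ I, ∀ d, homogeneousComponent d F ∈ I)
    (hst : ∀ F ∈ I, lsub T F ∈ I) : ∀ F ∈ I, vf (matN c T) F ∈ I := by
  have key : ∀ (k : ℕ) (F : MvPolynomial (Fin (n + 1)) ℂ), F ∈ I → F ∈ HM n k →
      vf (matN c T) F ∈ I := by
    intro k F hF hFk
    let U : Submodule ℂ (HM n k) := (I.restrictScalars ℂ).comap (HM n k).subtype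
    have hU : ∀ p ∈ U, polE T k p ∈ U := fun p hp => hst _ hp
    let f : End ℂ U := (polE T k).restrict hU
    have hfinj : Function.Injective f := by
      intro p q h
      apply Subtype.ext
      apply polE_injective hT k
      exact congrArg Subtype.val h
    let F' : U := ⟨⟨F, hFk⟩, hF⟩
    have h1 : U.subtype (c.L f F') = c.L (polE T k) (U.subtype F') :=
      c.natural (A := U) (C := HM n k) f (polE T k) U.subtype hfinj (polE_injective hT k)
        (fun a => rfl) F'
    have h2 := polE_vf c hT k F hFk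
    rw [← h2]
    have h3 : c.L (polE T k) ⟨F, hFk⟩ = U.subtype (c.L f F') := h1.symm
    rw [h3]
    exact (c.L f F').2
  intro F hF
  rw [← sum_homogeneousComponent F, map_sum]
  exact I.sum_mem fun k _ => key k _ (hom F hF k) (homogeneousComponent_isHomogeneous k F)

/-- **Automorphisms have a scalar power.** -/
theorem pow_scalar (hom : ∀ F ∈ I, ∀ d, homogeneousComponent d F ∈ I)
    (hsc : ∀ N : Matrix (Fin (n + 1)) (Fin (n + 1)) ℂ, (∀ F ∈ I, vf N F ∈ I) → ∃ c : ℂ, N = c • 1)
    {g : Matrix (Fin (n + 1)) (Fin (n + 1)) ℂ} (hg : IsUnit g)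
    (hst : ∀ F ∈ I, lsub g.mulVecLin F ∈ I) :
    ∃ m : ℕ, 0 < m ∧ ∃ c : ℂ, g ^ m = c • 1 := by
  classical
  have hT := surj_of_unit hg
  set f : End ℂ (Fin (n + 1) → ℂ) := trT g.mulVecLin with hf
  have hfinj : Function.Injective f := trT_injective hT
  have hfin : finrank ℂ (Fin (n + 1) → ℂ) = n + 1 := by simp
  have hlog : logCalc.L f = 0 := by
    obtain ⟨a, ha⟩ := hsc (matN logCalc g.mulVecLin) (nat_tangent logCalc hT hom hst)
    have h1 : (logCalc.L f) ^ finrank ℂ (Fin (n + 1) → ℂ) = 0 :=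
      logN_nilpotent (up_nilpotent hfinj)
    have h2 : logCalc.L f = a • 1 := by
      refine LinearMap.ext fun y => ?_
      rw [hf, matN_mulVec, ha, Matrix.transpose_smul, Matrix.transpose_one, Matrix.smul_mulVec,
        Matrix.one_mulVec]
      rfl
    rw [h2, smul_pow, one_pow] at h1
    have h3 : a ^ finrank ℂ (Fin (n + 1) → ℂ) = 0 := by
      rcases smul_eq_zero.1 h1 with h4 | h4
      · exact h4
      · exfalso
        exact one_ne_zero h4
    have h4 : a = 0 := by
      by_contra h5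
      exact pow_ne_zero _ h5 h3
    rw [h2, h4, zero_smul]
  obtain ⟨ι, _, b, μ, hb⟩ := diag_of_log f hfinj (by omega) hlog
  have hμ : ∀ i, μ i ≠ 0 := by
    intro i h0
    have h1 := hb i
    rw [h0, zero_smul] at h1
    exact b.ne_zero i (hfinj (by rw [h1, map_zero]))
  have hphi : ∀ φ : ℂ → ℂ, (∀ x y : ℂ, x ≠ 0 → y ≠ 0 → φ (x * y) = φ x + φ y) →
      ∀ i j, φ (μ i) = φ (μ j) := by
    intro φ hφ
    obtain ⟨a, ha⟩ := hsc (matN (chiCalc φ hφ) g.mulVecLin)
      (nat_tangent (chiCalc φ hφ) hT hom hst)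
    have h1 : ∀ i, φ (μ i) = a := by
      intro i
      have h2 : fc f φ (b i) = φ (μ i) • b i := by
        apply fc_apply
        rw [End.mem_maxGenEigenspace]
        refine ⟨1, ?_⟩
        rw [pow_one, LinearMap.sub_apply, hb, LinearMap.smul_apply, End.one_apply, sub_self]
      have h3 := matN_mulVec (chiCalc φ hφ) g.mulVecLin (b i)
      rw [ha, Matrix.transpose_smul, Matrix.transpose_one, Matrix.smul_mulVec,
        Matrix.one_mulVec] at h3
      have h4 : fc f φ (b i) = a • b i := h3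
      rw [h2] at h4
      exact smul_left_injective ℂ (b.ne_zero i) h4
    intro i j
    rw [h1, h1]
  obtain ⟨i0⟩ : Nonempty ι := by
    by_contra hne
    rw [not_nonempty_iff] at hne
    have h1 := finrank_eq_card_basis b
    rw [Fintype.card_eq_zero] at h1
    omega
  have hroot : ∀ i, ∃ m : ℕ, 0 < m ∧ (μ i / μ i0) ^ m = 1 := by
    intro i
    by_contra hcon
    push Not at hcon
    obtain ⟨φ, hφ, hne⟩ := exists_additive (div_ne_zero (hμ i) (hμ i0)) hcon
    apply hne
    have h1 := hφ (μ i / μ i0) (μ i0) (div_ne_zero (hμ i) (hμ i0)) (hμ i0)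
    rw [div_mul_cancel₀ _ (hμ i0), hphi φ hφ i i0] at h1
    have h2 : φ (μ i0) - φ (μ i0) = φ (μ i / μ i0) := by
      rw [sub_eq_iff_eq_add]
      exact h1
    rw [← h2, sub_self]
  choose m hm hm1 using hroot
  refine ⟨∏ i, m i, Finset.prod_pos fun i _ => hm i, (μ i0) ^ (∏ i, m i), ?_⟩
  have h1 : ∀ i, μ i ^ (∏ i, m i) = μ i0 ^ (∏ i, m i) := by
    intro i
    obtain ⟨q, hq⟩ := Finset.dvd_prod_of_mem m (Finset.mem_univ i)
    have h2 : (μ i / μ i0) ^ (∏ i, m i) = 1 := by
      rw [hq, pow_mul, hm1, one_pow]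
    rw [div_pow] at h2
    exact (div_eq_one_iff_eq (pow_ne_zero _ (hμ i0))).1 h2
  have h2 := pow_of_basis (P := 1) (P' := 1) (w := 0) b hb (∏ i, m i) ((μ i0) ^ (∏ i, m i)) 1
    (fun i => by
      rw [h1 i, tw']
      simp)
  rw [h2]
  simp

end Pool.Agent.TH189.Se
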