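import Pool.Agent.TH189.Se5
import Pool.Agent.TH189.Se6
import Pool.Agent.W615.X10

/-!
The linear vector fields and the linear automorphisms of a smooth zero scheme of codimension two
which is not a complete intersection.
-/

set_option autoImplicit false

open MvPolynomial H960VB H938TB Pool.Agent.W615 Pool.Agent.W467.FO Pool.Agent.W467.FX
open Pool.Agent.TH189.Sg

namespace Pool.Agent.TH189.Se

open Module

variable {n : ℕ} {E : Bundle2 n} {s : Vec E.a n} {I : Ideal (MvPolynomial (Fin (n + 1)) ℂ)}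
variable (Z : ZS E s I)

/-- the tangent vector fields -/
def Tan (I : Ideal (MvPolynomial (Fin (n + 1)) ℂ)) (N : Matrix (Fin (n + 1)) (Fin (n + 1)) ℂ) :
    Prop := ∀ F ∈ I, vf N F ∈ I

theorem Tan.add {N N' : Matrix (Fin (n + 1)) (Fin (n + 1)) ℂ} (h : Tan I N) (h' : Tan I N') :
    Tan I (N + N') := by
  intro F hF
  rw [vf_add]
  exact I.add_mem (h F hF) (h' F hF)

theorem Tan.smul {N : Matrix (Fin (n + 1)) (Fin (n + 1)) ℂ} (h : Tan I N) (c : ℂ) :
    Tan I (c • N) := by
  intro F hF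
  rw [vf_smul]
  exact I.mul_mem_left _ (h F hF)

theorem tan_one (hom : ∀ F ∈ I, ∀ d, homogeneousComponent d F ∈ I) :
    Tan I (1 : Matrix (Fin (n + 1)) (Fin (n + 1)) ℂ) := by
  intro F hF
  rw [← sum_homogeneousComponent F, map_sum]
  refine I.sum_mem fun k _ => ?_
  have h1 : vf (1 : Matrix (Fin (n + 1)) (Fin (n + 1)) ℂ) (homogeneousComponent k F) =
      C (k : ℂ) * homogeneousComponent k F := by
    have h3 : IsWeightedHomogeneous (fun _ : Fin (n + 1) => (1 : ℂ)) (homogeneousComponent k F)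
        (k : ℂ) := by
      intro u hu
      have h5 := homogeneousComponent_isHomogeneous k F hu
      rw [← h5, Finsupp.weight_apply, Finsupp.weight_apply,
        Finsupp.sum_fintype _ _ (by simp), Finsupp.sum_fintype _ _ (by simp)]
      simp
    have h6 := eig_of_wh h3
    have h7 : Matrix.diagonal (fun _ : Fin (n + 1) => (1 : ℂ)) = 1 := Matrix.diagonal_one
    rwa [h7] at h6
  rw [h1]
  exact I.mul_mem_left _ (hom F hF k)

/-- the matrix `P w P'` -/
noncomputable def Sm (P P' : Matrix (Fin (n + 1)) (Fin (n + 1)) ℂ) (w : Fin (n + 1) → ℤ) :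
    Matrix (Fin (n + 1)) (Fin (n + 1)) ℂ := P * Matrix.diagonal (fun i => (w i : ℂ)) * P'

include Z in
/-- the structure of the tangent vector fields -/
theorem tan_str (hn : 4 ≤ n) (hom : ∀ F ∈ I, ∀ d, homogeneousComponent d F ∈ I)
    (hE : ¬ E.Splits) : ∃ (P P' : Matrix (Fin (n + 1)) (Fin (n + 1)) ℂ) (w : Fin (n + 1) → ℤ),
      P * P' = 1 ∧ Tan I (Sm P P' w) ∧ ∀ N, Tan I N → ∃ a b : ℂ, N = a • Sm P P' w + b • 1 := by
  by_cases hall : ∀ N, Tan I N → ∃ b : ℂ, N = b • 1
  · refine ⟨1, 1, 0, one_mul _, ?_, fun N hN => ?_⟩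
    · have h1 : Sm (1 : Matrix (Fin (n + 1)) (Fin (n + 1)) ℂ) 1 0 = (0 : ℂ) • 1 := by
        unfold Sm
        simp
      rw [h1]
      exact (tan_one hom).smul 0
    · obtain ⟨b, hb⟩ := hall N hN
      exact ⟨0, b, by rw [hb, zero_smul, zero_add]⟩
  · push Not at hall
    obtain ⟨N, hN, hNc⟩ := hall
    obtain ⟨P, P', w, hP, hstr⟩ := structure_main hn hE
    have hstr' : ∀ N, Tan I N → ∃ a b : ℂ, N = a • Sm P P' w + b • 1 := by
      intro N hN
      obtain ⟨O, -, -⟩ := serre_lift Z (by omega) hom hN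
      exact hstr N ⟨O⟩
    refine ⟨P, P', w, hP, ?_, hstr'⟩
    obtain ⟨a, b, hab⟩ := hstr' N hN
    have ha : a ≠ 0 := by
      rintro rfl
      apply hNc b
      rw [hab, zero_smul, zero_add]
    have h1 : Sm P P' w = a⁻¹ • N + (-(a⁻¹ * b)) • 1 := by
      rw [hab, smul_add, smul_smul, smul_smul, inv_mul_cancel₀ ha, one_smul, neg_smul]
      abel
    rw [h1]
    exact (hN.smul _).add ((tan_one hom).smul _)

theorem sm_mulVec {P P' : Matrix (Fin (n + 1)) (Fin (n + 1)) ℂ} {w : Fin (n + 1) → ℤ}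
    (hP : P * P' = 1) (i : Fin (n + 1)) :
    (Sm P P' w).mulVec (P.mulVec (Pi.single i 1)) = (w i : ℂ) • P.mulVec (Pi.single i 1) := by
  have h2 : P' * P = 1 := mul_eq_one_comm.1 hP
  unfold Sm
  rw [Matrix.mulVec_mulVec, Matrix.mul_assoc, h2, Matrix.mul_one, ← Matrix.mulVec_mulVec,
    ← Matrix.mulVec_smul]
  congr 1
  funext k
  rw [Matrix.mulVec_diagonal, Pi.smul_apply, smul_eq_mul, Pi.single_apply]
  split_ifs with h
  · rw [h]
  · rw [mul_zero, mul_zero]

theorem inj_of_mul {P P' : Matrix (Fin (n + 1)) (Fin (n + 1)) ℂ} (hP : P * P' = 1) :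
    Function.Injective P.mulVec := by
  have h2 : P' * P = 1 := mul_eq_one_comm.1 hP
  intro x y h
  have h1 := congrArg P'.mulVec h
  rwa [Matrix.mulVec_mulVec, Matrix.mulVec_mulVec, h2, Matrix.one_mulVec,
    Matrix.one_mulVec] at h1

/-- a scalar matrix `P w P'` has equal weights -/
theorem const_of_scalar {P P' : Matrix (Fin (n + 1)) (Fin (n + 1)) ℂ} {w : Fin (n + 1) → ℤ}
    (hP : P * P' = 1) {c : ℂ} (h : Sm P P' w = c • 1) (i j : Fin (n + 1)) : w i = w j := by
  have h1 : ∀ i, (w i : ℂ) = c := by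
    intro i
    have h2 := sm_mulVec (w := w) hP i
    rw [h, Matrix.smul_mulVec, Matrix.one_mulVec] at h2
    have h3 : P.mulVec (Pi.single i 1) ≠ 0 := by
      intro h4
      have h5 := inj_of_mul hP (h4.trans (Matrix.mulVec_zero P).symm)
      have h6 := congrFun h5 i
      rw [Pi.single_eq_same] at h6
      exact one_ne_zero h6
    exact (smul_left_injective ℂ h3 h2).symm
  have h2 : (w i : ℂ) = w j := by rw [h1, h1]
  exact_mod_cast h2

include Z in
/-- at most two equal weights -/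
theorem mult_two (hn : 3 ≤ n) (hom : ∀ F ∈ I, ∀ d, homogeneousComponent d F ∈ I)
    (hE : ¬ E.Splits) {P P' : Matrix (Fin (n + 1)) (Fin (n + 1)) ℂ} {w : Fin (n + 1) → ℤ}
    (hP : P * P' = 1) (hS : Tan I (Sm P P' w)) {i j k : Fin (n + 1)} (hij : i ≠ j) (hik : i ≠ k)
    (hjk : j ≠ k) (h1 : w j = w i) (h2 : w k = w i) (l : Fin (n + 1)) : w l = w i := by
  classical
  by_contra hl
  obtain ⟨O, -, -⟩ := serre_lift Z (by omega) hom hS
  have hne : ∀ i, P.mulVec (Pi.single i 1) ≠ 0 := by
    intro i h4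
    have h5 := inj_of_mul hP (h4.trans (Matrix.mulVec_zero P).symm)
    have h6 := congrFun h5 i
    rw [Pi.single_eq_same] at h6
    exact one_ne_zero h6
  have hact : ∀ m : Fin (n + 1), (Sm P P' w - Matrix.scalar (Fin (n + 1)) (w i : ℂ)).mulVec
      (P.mulVec (Pi.single m 1)) = ((w m : ℂ) - w i) • P.mulVec (Pi.single m 1) := by
    intro m
    rw [Matrix.sub_mulVec, sm_mulVec hP, sub_smul]
    congr 1
    funext s
    rw [Matrix.scalar_apply, Matrix.mulVec_diagonal, Pi.smul_apply, smul_eq_mul]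
  refine hE (triple hn O (l := (w i : ℂ)) (j := 1) ?_ ?_)
  · let f : Fin 3 → Fin (n + 1) := ![i, j, k]
    have hf : Function.Injective f := by
      intro a b hab
      fin_cases a <;> fin_cases b <;> simp [f] at hab ⊢ <;> first | exact hij hab | exact hik hab | exact hjk hab | exact hij hab.symm | exact hik hab.symm | exact hjk hab.symm
    have hw : ∀ t, w (f t) = w i := by
      intro t
      fin_cases t
      · rfl
      · exact h1
      · exact h2
    let v : Fin 3 → LinearMap.ker ((Sm P P' w - Matrix.scalar (Fin (n + 1))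
        (w i : ℂ)).mulVecLin ^ 1) := fun t => ⟨P.mulVec (Pi.single (f t) 1), by
      rw [pow_one, LinearMap.mem_ker, Matrix.mulVecLin_apply, hact, hw, sub_self, zero_smul]⟩
    have hli : LinearIndependent ℂ v := by
      have e1 : LinearIndependent ℂ (fun t : Fin 3 => (Pi.single (f t) 1 :
          Fin (n + 1) → ℂ)) := by
        have e2 := (Pi.basisFun ℂ (Fin (n + 1))).linearIndependent.comp f hf
        convert e2 using 1
        funext t
        simp
      have e3 := e1.map' P.mulVecLin (by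
        rw [LinearMap.ker_eq_bot]
        exact inj_of_mul hP)
      exact LinearIndependent.of_comp (Submodule.subtype _) e3
    have h9 := hli.fintype_card_le_finrank
    rw [Fintype.card_fin] at h9
    exact h9
  · rintro ⟨m, hm⟩
    have e1 : ∀ m : ℕ, ((Sm P P' w - Matrix.scalar (Fin (n + 1)) (w i : ℂ)) ^ m).mulVec
        (P.mulVec (Pi.single l 1)) = ((w l : ℂ) - w i) ^ m • P.mulVec (Pi.single l 1) := by
      intro m
      induction m with
      | zero => rw [pow_zero, pow_zero, Matrix.one_mulVec, one_smul]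
      | succ m ih =>
        rw [pow_succ, ← Matrix.mulVec_mulVec, hact, Matrix.mulVec_smul, ih, smul_smul, ← pow_succ']
    have e2 := e1 m
    rw [hm, Matrix.zero_mulVec] at e2
    rcases smul_eq_zero.1 e2.symm with h3 | h3
    · apply pow_ne_zero m _ h3
      rw [sub_ne_zero]
      exact_mod_cast hl
    · exact hne l h3

/-- if the tangent vector fields are scalar, the cone spans -/
theorem span_top (hn : 1 ≤ n) (hI : I.IsPrime) (hsc : ∀ N, Tan I N → ∃ c : ℂ, N = c • 1) :
    TH189.Aut.Sp I = ⊤ := by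
  classical
  have h1 : Pool.Agent.H929R2.Hart.linsub I = ⊥ := by
    rw [eq_bot_iff]
    intro u hu
    have hu' : (∑ k, C (u k) * X k : MvPolynomial (Fin (n + 1)) ℂ) ∈ I := hu
    let N : Matrix (Fin (n + 1)) (Fin (n + 1)) ℂ := fun i j => if i = 0 then u j else 0
    have hN : Tan I N := by
      intro F hF
      rw [der_eq_sum (vf N)]
      refine I.sum_mem fun i _ => I.mul_mem_left _ ?_
      rw [vf_X]
      by_cases hi : i = 0
      · have h2 : ∑ j, C (N i j) * X j = (∑ k, C (u k) * X k : MvPolynomial (Fin (n + 1)) ℂ) :=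
          Finset.sum_congr rfl fun j _ => by
            show C (if i = 0 then u j else 0) * X j = _
            rw [if_pos hi]
        rw [h2]
        exact hu'
      · rw [Finset.sum_eq_zero fun j _ => by
          show C (if i = 0 then u j else 0) * X j = 0
          rw [if_neg hi, C_0, zero_mul]]
        exact I.zero_mem
    obtain ⟨c, hc⟩ := hsc N hN
    have h10 : (⟨1, by omega⟩ : Fin (n + 1)) ≠ 0 := by
      intro h
      have := congrArg Fin.val h
      simp at this
    have hc0 : c = 0 := by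
      have h2 := congrFun (congrFun hc ⟨1, by omega⟩) ⟨1, by omega⟩
      have h3 : N ⟨1, by omega⟩ ⟨1, by omega⟩ = 0 := if_neg h10
      rw [h3, Matrix.smul_apply, Matrix.one_apply_eq, smul_eq_mul, mul_one] at h2
      exact h2.symm
    rw [Submodule.mem_bot]
    funext j
    have h2 := congrFun (congrFun hc 0) j
    have h3 : N 0 j = u j := if_pos rfl
    rw [h3, hc0, zero_smul] at h2
    exact h2
  have h2 := TH189.Aut.finrank_linsub hI
  rw [h1, finrank_bot, Fintype.card_fin] at h2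
  apply Submodule.eq_top_of_finrank_eq
  rw [Module.finrank_fintype_fun_eq_card, Fintype.card_fin]
  have h3 := Submodule.finrank_le (TH189.Aut.Sp I)
  rw [Module.finrank_fintype_fun_eq_card, Fintype.card_fin] at h3
  omega

include Z in
/-- the automorphisms have scalar powers -/
theorem hyq_of (hn : 1 ≤ n) (hom : ∀ F ∈ I, ∀ d, homogeneousComponent d F ∈ I)
    (hsc : ∀ N, Tan I N → ∃ c : ℂ, N = c • 1) : TH189.Sf.Hyq I where
  prime := Z.prime
  hom := hom
  ne := Z.ne
  pow h hinj hp := by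
    have htop := span_top hn Z.prime hsc
    have hmem : ∀ x : Fin (n + 1) → ℂ, x ∈ TH189.Aut.Sp I := fun x => by
      rw [htop]
      exact Submodule.mem_top
    let e : (Fin (n + 1) → ℂ) →ₗ[ℂ] (Fin (n + 1) → ℂ) :=
      (TH189.Aut.Sp I).subtype ∘ₗ h ∘ₗ
        ((LinearMap.id : (Fin (n + 1) → ℂ) →ₗ[ℂ] _).codRestrict (TH189.Aut.Sp I) hmem)
    have he : ∀ v : TH189.Aut.Sp I, e v = (h v : Fin (n + 1) → ℂ) := fun v => rfl
    have he' : ∀ x, e x = (h ⟨x, hmem x⟩ : Fin (n + 1) → ℂ) := fun x => rfl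
    set g : Matrix (Fin (n + 1)) (Fin (n + 1)) ℂ := LinearMap.toMatrix' e with hg
    have hge : ∀ x, g.mulVec x = e x := fun x => LinearMap.toMatrix'_mulVec e x
    have hgu : IsUnit g := by
      rw [← Matrix.mulVec_injective_iff_isUnit]
      intro x y hxy
      rw [hge, hge, he', he'] at hxy
      exact congrArg Subtype.val (hinj (Subtype.ext hxy))
    obtain ⟨m, hm, c, hc⟩ := pow_scalar hom hsc hgu (by
      intro F hF
      apply Z.mem_of_vanish
      intro x hx _
      rw [eval_lsub]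
      have h1 := hp ⟨x, hmem x⟩ hx
      have h2 : g.mulVecLin x = (h ⟨x, hmem x⟩ : Fin (n + 1) → ℂ) := hge x
      rw [h2]
      exact h1 F hF)
    refine ⟨m, hm, c, LinearMap.ext fun v => Subtype.ext ?_⟩
    have h1 : ∀ (k : ℕ) (v : TH189.Aut.Sp I), (g ^ k).mulVec (v : Fin (n + 1) → ℂ) =
        ((h ^ k) v : Fin (n + 1) → ℂ) := by
      intro k
      induction k with
      | zero => intro v; rw [pow_zero, pow_zero, Matrix.one_mulVec]; rfl
      | succ k ih =>
        intro v
        rw [pow_succ, ← Matrix.mulVec_mulVec, hge, he, ih, pow_succ]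
        rfl
    rw [← h1, hc, Matrix.smul_mulVec, Matrix.one_mulVec]
    rfl

/-- a matrix which has all points of the cone as eigenvectors -/
theorem scalar_mat (hI : I.IsPrime) (htop : TH189.Aut.Sp I = ⊤)
    (g : Matrix (Fin (n + 1)) (Fin (n + 1)) ℂ)
    (h : ∀ x ∈ Pool.Agent.H929R2.Hart.cone I, ∃ c : ℂ, g.mulVec x = c • x) :
    ∃ c : ℂ, g = c • 1 := by
  classical
  have hmem : ∀ x : Fin (n + 1) → ℂ, x ∈ TH189.Aut.Sp I := fun x => by
    rw [htop]
    exact Submodule.mem_top
  let f : End ℂ (TH189.Aut.Sp I) := g.mulVecLin.restrict fun x _ => hmem _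
  obtain ⟨c, hc⟩ := TH189.Aut.scalar_of_forall hI f (fun v hv => by
    obtain ⟨c, hc⟩ := h v hv
    exact ⟨c, Subtype.ext hc⟩)
  refine ⟨c, ?_⟩
  have h1 : ∀ x, g.mulVec x = c • x := by
    intro x
    have h2 := LinearMap.congr_fun hc ⟨x, hmem x⟩
    exact congrArg Subtype.val h2
  ext i j
  have h2 := congrFun (h1 (Pi.single j 1)) i
  rw [Matrix.mulVec_single_one] at h2
  rw [Matrix.smul_apply, Matrix.one_apply]
  rw [Pi.smul_apply, Pi.single_apply] at h2
  exact h2

/-- proportional matrices -/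
theorem prop_of_same (hI : I.IsPrime) (htop : TH189.Aut.Sp I = ⊤)
    {A B : Matrix (Fin (n + 1)) (Fin (n + 1)) ℂ} (hB : IsUnit B)
    (h : ∀ x ∈ Pool.Agent.H929R2.Hart.cone I, ∃ c : ℂ, A.mulVec x = c • B.mulVec x) :
    ∃ c : ℂ, A = c • B := by
  obtain ⟨u, rfl⟩ := hB
  obtain ⟨c, hc⟩ := scalar_mat hI htop ((u⁻¹ : (Matrix (Fin (n + 1)) (Fin (n + 1)) ℂ)ˣ).val * A)
    (fun x hx => by
      obtain ⟨c, hc⟩ := h x hx
      refine ⟨c, ?_⟩
      rw [← Matrix.mulVec_mulVec, hc, Matrix.mulVec_smul, Matrix.mulVec_mulVec, Units.inv_mul,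
        Matrix.one_mulVec])
  refine ⟨c, ?_⟩
  have h1 := congrArg (fun Z => u.val * Z) hc
  rw [← mul_assoc, Units.mul_inv, one_mul] at h1
  rw [h1, Matrix.mul_smul, mul_one]

end Pool.Agent.TH189.Se
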