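import Pool.Agent.TH189.Aut2

/-!
Functional calculus: the functions `χ(f_s)` and `log f_u` of an automorphism `f` are derivations with
respect to bilinear maps.
-/

set_option autoImplicit false

namespace Pool.Agent.TH189.Sg

open Module

section calculus

variable {V : Type} [AddCommGroup V] [Module ℂ V] [FiniteDimensional ℂ V]

theorem gen_ext {W : Type*} [AddCommGroup W] [Module ℂ W] (f : End ℂ V) {D D' : V →ₗ[ℂ] W}
    (h : ∀ (μ : ℂ), ∀ v ∈ f.maxGenEigenspace μ, D v = D' v) : D = D' := by
  refine LinearMap.ext fun v => ?_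
  have hv : v ∈ ⨆ μ : ℂ, f.maxGenEigenspace μ := by
    rw [End.iSup_maxGenEigenspace_eq_top]
    exact Submodule.mem_top
  refine Submodule.iSup_induction (motive := fun v => D v = D' v) _ hv h ?_ ?_
  · rw [map_zero, map_zero]
  · intro x y hx hy
    rw [map_add, map_add, hx, hy]

theorem exists_fc (f : End ℂ V) (φ : ℂ → ℂ) :
    ∃ D : End ℂ V, ∀ (μ : ℂ), ∀ v ∈ f.maxGenEigenspace μ, D v = φ μ • v := by
  obtain ⟨n, hn, s, hs, hnil, hss, hf⟩ := f.exists_isNilpotent_isSemisimple
  have hcomm : Commute f s := Algebra.commute_of_mem_adjoin_self hs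
  obtain ⟨ι, _, b, μ, hb⟩ := TH189.Aut.exists_eigenbasis s hss
  refine ⟨b.constr ℂ fun i => φ (μ i) • b i, fun l v hv => ?_⟩
  have h1 : s v = l • v := by
    refine End.apply_eq_of_mem_of_comm_of_isFinitelySemisimple_of_isNil hv hcomm
      hss.isFinitelySemisimple ?_
    have : f - s = n := by rw [hf]; abel
    rw [this]
    exact hnil
  have h2 : ∀ i, b.repr v i ≠ 0 → μ i = l := by
    intro i hi
    have h3 : s v = ∑ k, (b.repr v k * μ k) • b k := by
      conv_lhs => rw [← b.sum_repr v]
      rw [map_sum]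
      refine Finset.sum_congr rfl fun k _ => ?_
      rw [map_smul, hb, smul_smul]
    have h4 := congrArg (fun z => b.repr z i) h3
    simp only [h1, map_smul, Finsupp.smul_apply, smul_eq_mul] at h4
    rw [b.repr_sum_self, mul_comm] at h4
    exact (mul_left_cancel₀ hi h4).symm
  conv_rhs => rw [← b.sum_repr v]
  conv_lhs => rw [← b.sum_repr v]
  rw [map_sum, Finset.smul_sum]
  refine Finset.sum_congr rfl fun i _ => ?_
  rw [map_smul, b.constr_basis, smul_smul, smul_smul]
  by_cases hi : b.repr v i = 0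
  · rw [hi, zero_mul, mul_zero]
  · rw [h2 i hi, mul_comm]

/-- the operator which acts on the generalised eigenspace of `μ` by `φ μ` -/
noncomputable def fc (f : End ℂ V) (φ : ℂ → ℂ) : End ℂ V := (exists_fc f φ).choose

theorem fc_apply (f : End ℂ V) (φ : ℂ → ℂ) {μ : ℂ} {v : V} (hv : v ∈ f.maxGenEigenspace μ) :
    fc f φ v = φ μ • v := (exists_fc f φ).choose_spec μ v hv

theorem fc_one (φ : ℂ → ℂ) : fc (1 : End ℂ V) φ = φ 1 • 1 := by
  refine LinearMap.ext fun v => ?_
  have hv : v ∈ (1 : End ℂ V).maxGenEigenspace 1 := by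
    rw [End.mem_maxGenEigenspace]
    exact ⟨1, by simp⟩
  rw [fc_apply _ _ hv]
  rfl

theorem map_mem {f : End ℂ V} {μ : ℂ} {v : V} (hv : v ∈ f.maxGenEigenspace μ) :
    f v ∈ f.maxGenEigenspace μ := End.mapsTo_maxGenEigenspace_of_comm (Commute.refl f) μ hv

/-- the unipotent part -/
noncomputable def up (f : End ℂ V) : End ℂ V := fc f (fun z => z⁻¹) * f

theorem up_apply (f : End ℂ V) {μ : ℂ} {v : V} (hv : v ∈ f.maxGenEigenspace μ) :
    up f v = μ⁻¹ • f v := by
  rw [up, Module.End.mul_apply, fc_apply _ _ (map_mem hv)]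

theorem eq_zero_of_mem {f : End ℂ V} (hf : Function.Injective f) {v : V}
    (hv : v ∈ f.maxGenEigenspace 0) : v = 0 := by
  rw [End.mem_maxGenEigenspace] at hv
  obtain ⟨k, hk⟩ := hv
  rw [zero_smul, sub_zero] at hk
  have h1 : Function.Injective (f ^ k) := by
    rw [Module.End.coe_pow]
    exact hf.iterate k
  exact h1 (by rw [hk, map_zero])

/-- the unipotent part minus one is nilpotent -/
theorem up_nilpotent {f : End ℂ V} (hf : Function.Injective f) :
    (up f - 1) ^ finrank ℂ V = 0 := by
  refine gen_ext f fun μ v hv => ?_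
  rcases eq_or_ne μ 0 with rfl | hμ
  · rw [eq_zero_of_mem hf hv, map_zero, map_zero]
  have key : ∀ (k : ℕ), ∀ v ∈ f.maxGenEigenspace μ,
      ((up f - 1) ^ k) v = (μ⁻¹) ^ k • ((f - μ • 1) ^ k) v := by
    intro k
    induction k with
    | zero => intro v _; simp
    | succ k ih =>
      intro v hv
      have h1 : (up f - 1) v = μ⁻¹ • (f - μ • 1) v := by
        rw [LinearMap.sub_apply, up_apply f hv, LinearMap.sub_apply, smul_sub, LinearMap.smul_apply,
          Module.End.one_apply, smul_smul, inv_mul_cancel₀ hμ, one_smul]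
      have h2 : (f - μ • 1) v ∈ f.maxGenEigenspace μ := by
        rw [LinearMap.sub_apply]
        exact Submodule.sub_mem _ (map_mem hv) (Submodule.smul_mem _ _ hv)
      rw [pow_succ, Module.End.mul_apply, h1, map_smul, ih _ h2, smul_smul, pow_succ (f - μ • 1),
        Module.End.mul_apply, ← pow_succ']
  rw [key _ v hv, LinearMap.zero_apply]
  have h3 := hv
  rw [End.maxGenEigenspace_eq_genEigenspace_finrank, End.mem_genEigenspace_nat,
    LinearMap.mem_ker] at h3
  rw [h3, smul_zero]

end calculus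

section bilinear

variable {A B C : Type} [AddCommGroup A] [Module ℂ A] [FiniteDimensional ℂ A]
  [AddCommGroup B] [Module ℂ B] [FiniteDimensional ℂ B]
  [AddCommGroup C] [Module ℂ C] [FiniteDimensional ℂ C]
  {f : End ℂ A} {g : End ℂ B} {h : End ℂ C} {β : A →ₗ[ℂ] B →ₗ[ℂ] C}

theorem gen_mul (hβ : ∀ a b, β (f a) (g b) = h (β a b)) {l m : ℂ} {a : A} {b : B}
    (ha : a ∈ f.maxGenEigenspace l) (hb : b ∈ g.maxGenEigenspace m) :
    β a b ∈ h.maxGenEigenspace (l * m) := by
  have key : ∀ (K i j : ℕ) (a : A) (b : B), i + j ≤ K → ((f - l • 1) ^ i) a = 0 →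
      ((g - m • 1) ^ j) b = 0 → ((h - (l * m) • 1) ^ K) (β a b) = 0 := by
    intro K
    induction K with
    | zero =>
      intro i j a b hij ha hb
      obtain rfl : i = 0 := by omega
      rw [pow_zero, Module.End.one_apply] at ha
      rw [ha, map_zero, LinearMap.zero_apply, map_zero]
    | succ K ih =>
      intro i j a b hij ha hb
      rcases Nat.eq_zero_or_pos i with hi | hi
      · subst hi
        rw [pow_zero, Module.End.one_apply] at ha
        rw [ha, map_zero, LinearMap.zero_apply, map_zero]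
      rcases Nat.eq_zero_or_pos j with hj | hj
      · subst hj
        rw [pow_zero, Module.End.one_apply] at hb
        rw [hb, map_zero, map_zero]
      obtain ⟨i', rfl⟩ : ∃ i', i = i' + 1 := ⟨i - 1, by omega⟩
      obtain ⟨j', rfl⟩ : ∃ j', j = j' + 1 := ⟨j - 1, by omega⟩
      have h1 : (h - (l * m) • 1) (β a b) =
          β ((f - l • 1) a) (g b) + l • β a ((g - m • 1) b) := by
        simp only [LinearMap.sub_apply, LinearMap.smul_apply, Module.End.one_apply, map_sub,
          map_smul, ← hβ]
        module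
      have h2 : ((g - m • 1) ^ (j' + 1)) (g b) = 0 := by
        have hc : Commute ((g - m • 1) ^ (j' + 1)) g :=
          (((Commute.refl g).sub_left ((Commute.one_left g).smul_left m))).pow_left _
        rw [← Module.End.mul_apply, hc.eq, Module.End.mul_apply, hb, map_zero]
      rw [pow_succ, Module.End.mul_apply, h1, map_add, map_smul,
        ih i' (j' + 1) _ _ (by omega) _ h2, ih (i' + 1) j' _ _ (by omega) ha _, smul_zero, add_zero]
      · rw [pow_succ, Module.End.mul_apply] at hb
        exact hb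
      · rw [pow_succ, Module.End.mul_apply] at ha
        exact ha
  rw [End.mem_maxGenEigenspace] at ha hb ⊢
  obtain ⟨i, hi⟩ := ha
  obtain ⟨j, hj⟩ := hb
  exact ⟨i + j, key (i + j) i j a b le_rfl hi hj⟩

/-- an identity of bilinear maps can be checked on generalised eigenvectors -/
theorem bilin_ext (f : End ℂ A) (g : End ℂ B) {β β' : A →ₗ[ℂ] B →ₗ[ℂ] C}
    (h : ∀ (l m : ℂ), ∀ a ∈ f.maxGenEigenspace l, ∀ b ∈ g.maxGenEigenspace m, β a b = β' a b) :
    β = β' :=
  gen_ext f fun l a ha => gen_ext g fun m b hb => h l m a ha b hb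

/-- additive functions of the semisimple part are derivations -/
theorem fc_deriv (hf : Function.Injective f) (hg : Function.Injective g)
    (hβ : ∀ a b, β (f a) (g b) = h (β a b)) (φ : ℂ → ℂ)
    (hφ : ∀ x y : ℂ, x ≠ 0 → y ≠ 0 → φ (x * y) = φ x + φ y) (a : A) (b : B) :
    β (fc f φ a) b + β a (fc g φ b) = fc h φ (β a b) := by
  have h1 : β.compl₁₂ (fc f φ) LinearMap.id + β.compl₁₂ LinearMap.id (fc g φ) =
      β.compr₂ (fc h φ) := by
    refine bilin_ext f g fun l m a ha b hb => ?_
    show β (fc f φ a) b + β a (fc g φ b) = fc h φ (β a b)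
    rcases eq_or_ne l 0 with rfl | hl
    · rw [eq_zero_of_mem hf ha]
      simp
    rcases eq_or_ne m 0 with rfl | hm
    · rw [eq_zero_of_mem hg hb]
      simp
    rw [fc_apply _ _ ha, fc_apply _ _ hb, fc_apply _ _ (gen_mul hβ ha hb), hφ l m hl hm, map_smul,
      map_smul, LinearMap.smul_apply, add_smul]
  exact LinearMap.congr_fun (LinearMap.congr_fun h1 a) b

/-- the unipotent parts are compatible -/
theorem up_mul (hf : Function.Injective f) (hg : Function.Injective g)
    (hβ : ∀ a b, β (f a) (g b) = h (β a b)) (a : A) (b : B) :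
    β (up f a) (up g b) = up h (β a b) := by
  have h1 : β.compl₁₂ (up f) (up g) = β.compr₂ (up h) := by
    refine bilin_ext f g fun l m a ha b hb => ?_
    show β (up f a) (up g b) = up h (β a b)
    rw [up_apply _ ha, up_apply _ hb, up_apply _ (gen_mul hβ ha hb), map_smul, map_smul,
      LinearMap.smul_apply, hβ, smul_smul, mul_inv, mul_comm m⁻¹]
  exact LinearMap.congr_fun (LinearMap.congr_fun h1 a) b

end bilinear

section log

/-- the binomial polynomial -/
noncomputable def binP (k : ℕ) : Polynomial ℂ :=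
  Polynomial.C ((k.factorial : ℂ)⁻¹) * descPochhammer ℂ k

theorem eval_binP (k m : ℕ) : (binP k).eval (m : ℂ) = (m.choose k : ℂ) := by
  rw [binP, Polynomial.eval_mul, Polynomial.eval_C, descPochhammer_eval_eq_descFactorial,
    Nat.descFactorial_eq_factorial_mul_choose]
  push_cast
  rw [← mul_assoc, inv_mul_cancel₀ (Nat.cast_ne_zero.2 k.factorial_ne_zero), one_mul]

theorem binP_zero : binP 0 = 1 := by simp [binP]

theorem coeff_zero_binP {k : ℕ} (hk : k ≠ 0) : (binP k).coeff 0 = 0 := by
  rw [Polynomial.coeff_zero_eq_eval_zero]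
  have h1 := eval_binP k 0
  rw [Nat.cast_zero, Nat.choose_eq_zero_of_lt (Nat.pos_of_ne_zero hk), Nat.cast_zero] at h1
  exact h1

/-- the linear coefficient of the binomial polynomial -/
noncomputable def cc (k : ℕ) : ℂ := (binP k).coeff 1

theorem cc_zero : cc 0 = 0 := by
  rw [cc, binP_zero, Polynomial.coeff_one]
  simp

theorem cc_one : cc 1 = 1 := by
  rw [cc, binP, Polynomial.coeff_C_mul, descPochhammer_one, Polynomial.coeff_X_one]
  simp

theorem coeff_mul_binP (j k : ℕ) : (binP j * binP k).coeff 1 =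
    (if k = 0 then cc j else 0) + (if j = 0 then cc k else 0) := by
  rw [Polynomial.mul_coeff_one]
  have h0 : ∀ k : ℕ, (binP k).coeff 0 = if k = 0 then 1 else 0 := by
    intro k
    split_ifs with h
    · rw [h, binP_zero, Polynomial.coeff_one_zero]
    · exact coeff_zero_binP h
  rw [h0, h0]
  show (if j = 0 then 1 else 0) * cc k + cc j * (if k = 0 then 1 else 0) = _
  split_ifs <;> simp [add_comm]

variable {V : Type} [AddCommGroup V] [Module ℂ V] [FiniteDimensional ℂ V]

/-- the logarithm of `1 + x` for `x ^ K = 0` -/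
noncomputable def logN (K : ℕ) (x : End ℂ V) : End ℂ V := ∑ k ∈ Finset.range K, cc k • x ^ k

theorem pow_eq_sum {x : End ℂ V} {K : ℕ} (hx : x ^ K = 0) (m : ℕ) :
    (x + 1) ^ m = ∑ k ∈ Finset.range K, (m.choose k : ℂ) • x ^ k := by
  have hz : ∀ k, K ≤ k → x ^ k = 0 := by
    intro k hk
    obtain ⟨j, rfl⟩ := Nat.exists_eq_add_of_le hk
    rw [pow_add, hx, zero_mul]
  rw [(Commute.one_right x).add_pow]
  have h1 : ∀ k ∈ Finset.range (m + 1), x ^ k * 1 ^ (m - k) * (m.choose k : End ℂ V) =
      (m.choose k : ℂ) • x ^ k := by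
    intro k _
    rw [one_pow, mul_one, ← nsmul_eq_mul', Nat.cast_smul_eq_nsmul]
  rw [Finset.sum_congr rfl h1]
  have h2 : ∑ k ∈ Finset.range (m + 1), (m.choose k : ℂ) • x ^ k =
      ∑ k ∈ Finset.range (m + 1 + K), (m.choose k : ℂ) • x ^ k := by
    refine Finset.sum_subset (Finset.range_mono (by omega)) fun k _ hk => ?_
    rw [Finset.mem_range, not_lt] at hk
    rw [Nat.choose_eq_zero_of_lt (by omega), Nat.cast_zero, zero_smul]
  rw [h2]
  symm
  refine Finset.sum_subset (Finset.range_mono (by omega)) fun k _ hk => ?_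
  rw [Finset.mem_range, not_lt] at hk
  rw [hz k hk, smul_zero]

end log

section logbil

variable {A B C : Type} [AddCommGroup A] [Module ℂ A] [FiniteDimensional ℂ A]
  [AddCommGroup B] [Module ℂ B] [FiniteDimensional ℂ B]
  [AddCommGroup C] [Module ℂ C] [FiniteDimensional ℂ C]
  {β : A →ₗ[ℂ] B →ₗ[ℂ] C}

/-- the logarithm is a derivation -/
theorem log_deriv {x : End ℂ A} {y : End ℂ B} {z : End ℂ C} {K L M : ℕ} (hx : x ^ K = 0)
    (hy : y ^ L = 0) (hz : z ^ M = 0) (hβ : ∀ a b, β ((x + 1) a) ((y + 1) b) = (z + 1) (β a b))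
    (a : A) (b : B) (hK : 1 ≤ K) (hL : 1 ≤ L) :
    β (logN K x a) b + β a (logN L y b) = logN M z (β a b) := by
  have hpow : ∀ (m : ℕ) (a : A) (b : B), β (((x + 1) ^ m) a) (((y + 1) ^ m) b) =
      ((z + 1) ^ m) (β a b) := by
    intro m
    induction m with
    | zero => intro a b; rfl
    | succ m ih =>
      intro a b
      rw [pow_succ, pow_succ, pow_succ, Module.End.mul_apply, Module.End.mul_apply,
        Module.End.mul_apply, ih, hβ]
  -- test with functionals
  rw [← sub_eq_zero]
  by_contra hne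
  obtain ⟨ψ, hψ⟩ := Module.exists_dual_forall_apply_ne_zero (K := ℂ)
    (fun _ : Unit => β (logN K x a) b + β a (logN L y b) - logN M z (β a b)) (fun _ => hne)
  apply hψ ()
  -- the two polynomials
  let P : Polynomial ℂ := ∑ j ∈ Finset.range K, ∑ k ∈ Finset.range L,
    Polynomial.C (ψ (β ((x ^ j) a) ((y ^ k) b))) * (binP j * binP k)
  let Q : Polynomial ℂ := ∑ k ∈ Finset.range M, Polynomial.C (ψ ((z ^ k) (β a b))) * binP k
  have hPQ : P = Q := by
    apply Polynomial.eq_of_infinite_eval_eq
    refine Set.infinite_of_injective_forall_mem (f := fun m : ℕ => (m : ℂ)) Nat.cast_injective ?_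
    intro m
    rw [Set.mem_setOf_eq]
    have h1 := congrArg ψ (hpow m a b)
    rw [pow_eq_sum hx, pow_eq_sum hy, pow_eq_sum hz] at h1
    simp only [LinearMap.sum_apply, LinearMap.smul_apply, map_sum, map_smul, smul_eq_mul] at h1
    simp only [P, Q, Polynomial.eval_finset_sum, Polynomial.eval_mul, Polynomial.eval_C, eval_binP]
    rw [Finset.sum_congr rfl fun k _ => by rw [mul_comm]] at h1
    rw [Finset.sum_comm]
    convert h1 using 1
    · refine Finset.sum_congr rfl fun k _ => ?_
      rw [Finset.sum_mul]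
      refine Finset.sum_congr rfl fun j _ => ?_
      ring
    · refine Finset.sum_congr rfl fun k _ => by ring
  have h1 := congrArg (fun p => p.coeff 1) hPQ
  simp only [P, Q, Polynomial.finset_sum_coeff, Polynomial.coeff_C_mul, coeff_mul_binP] at h1
  rw [map_sub, map_add, sub_eq_zero, logN, logN, logN]
  simp only [LinearMap.sum_apply, LinearMap.smul_apply, map_sum, map_smul, smul_eq_mul]
  refine Eq.trans ?_ (h1.trans ?_)
  · simp only [mul_add, Finset.sum_add_distrib, mul_ite, mul_zero]
    congr 1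
    · refine Finset.sum_congr rfl fun j _ => ?_
      rw [Finset.sum_ite_eq' (Finset.range L) 0, if_pos (Finset.mem_range.2 hL), pow_zero,
        Module.End.one_apply, mul_comm]
    · rw [Finset.sum_comm]
      refine Finset.sum_congr rfl fun k _ => ?_
      rw [Finset.sum_ite_eq' (Finset.range K) 0, if_pos (Finset.mem_range.2 hK), pow_zero,
        Module.End.one_apply, mul_comm]
  · refine Finset.sum_congr rfl fun k _ => ?_
    show _ * cc k = cc k * _
    rw [mul_comm]

end logbil

end Pool.Agent.TH189.Sg
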