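import Pool.Agent.TH189.Sg9

/-!
The number of the symmetries of an indecomposable bundle of rank two modulo a torus.
-/

set_option autoImplicit false

open MvPolynomial H960VB H938TB Pool.Agent.W615 Pool.Agent.W467.FO

namespace Pool.Agent.TH189.Sg

open Module

/-! ### the centraliser of `P w P'` -/

section cent

variable {σ : Type} [Fintype σ] [DecidableEq σ]

/-- the matrix `P diag(c) P'` -/
def dgm (P P' : Matrix σ σ ℂ) (c : σ → ℂ) : Matrix σ σ ℂ := P * Matrix.diagonal c * P'

variable {P P' : Matrix σ σ ℂ} (hP : P * P' = 1)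

include hP

theorem dgm_mul (c c' : σ → ℂ) : dgm P P' c * dgm P P' c' = dgm P P' (fun i => c i * c' i) := by
  have h2 : P' * P = 1 := mul_eq_one_comm.1 hP
  unfold dgm
  calc P * Matrix.diagonal c * P' * (P * Matrix.diagonal c' * P')
      = P * Matrix.diagonal c * (P' * P) * Matrix.diagonal c' * P' := by
        simp only [Matrix.mul_assoc]
    _ = P * (Matrix.diagonal c * Matrix.diagonal c') * P' := by
        rw [h2, Matrix.mul_one, ← Matrix.mul_assoc]
    _ = _ := by rw [Matrix.diagonal_mul_diagonal]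

theorem dgm_one : dgm P P' (fun _ => 1) = 1 := by
  unfold dgm
  rw [Matrix.diagonal_one, Matrix.mul_one, hP]

theorem dgm_pow (c : σ → ℂ) (k : ℕ) : dgm P P' c ^ k = dgm P P' (fun i => c i ^ k) := by
  induction k with
  | zero => rw [pow_zero]; simp only [pow_zero]; rw [dgm_one hP]
  | succ k ih =>
    rw [pow_succ, ih, dgm_mul hP]
    simp only [pow_succ]

theorem dgm_inj {c c' : σ → ℂ} (h : dgm P P' c = dgm P P' c') : c = c' := by
  have h2 : P' * P = 1 := mul_eq_one_comm.1 hP
  have key : ∀ c : σ → ℂ, P' * dgm P P' c * P = Matrix.diagonal c := by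
    intro c
    unfold dgm
    calc P' * (P * Matrix.diagonal c * P') * P
        = (P' * P) * Matrix.diagonal c * (P' * P) := by simp only [Matrix.mul_assoc]
      _ = _ := by rw [h2, Matrix.one_mul, Matrix.mul_one]
  have h3 := congrArg (fun Z => P' * Z * P) h
  simp only [key] at h3
  exact Matrix.diagonal_injective h3

omit hP in
theorem dgm_smul (z : ℂ) (c : σ → ℂ) : z • dgm P P' c = dgm P P' (fun i => z * c i) := by
  unfold dgm
  have h1 : Matrix.diagonal (fun i => z * c i) = z • Matrix.diagonal c := by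
    rw [← Matrix.diagonal_smul]
    rfl
  rw [h1, Matrix.mul_smul, Matrix.smul_mul]

/-- matrices commuting with `P diag(c) P'` -/
theorem comm_iff {c : σ → ℂ} {X : Matrix σ σ ℂ} : X * dgm P P' c = dgm P P' c * X ↔
    ∀ i j, (P' * X * P) i j * c j = c i * (P' * X * P) i j := by
  have h2 : P' * P = 1 := mul_eq_one_comm.1 hP
  have e1 : P' * (X * dgm P P' c) * P = (P' * X * P) * Matrix.diagonal c := by
    unfold dgm
    calc P' * (X * (P * Matrix.diagonal c * P')) * P
        = P' * X * P * Matrix.diagonal c * (P' * P) := by simp only [Matrix.mul_assoc]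
      _ = _ := by rw [h2, Matrix.mul_one]
  have e2 : P' * (dgm P P' c * X) * P = Matrix.diagonal c * (P' * X * P) := by
    unfold dgm
    calc P' * (P * Matrix.diagonal c * P' * X) * P
        = (P' * P) * Matrix.diagonal c * (P' * X * P) := by simp only [Matrix.mul_assoc]
      _ = _ := by rw [h2, Matrix.one_mul]
  constructor
  · intro h i j
    have h3 : (P' * X * P) * Matrix.diagonal c = Matrix.diagonal c * (P' * X * P) := by
      rw [← e1, ← e2, h]
    have h4 := congrFun (congrFun h3 i) j
    rw [Matrix.mul_diagonal, Matrix.diagonal_mul] at h4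
    exact h4
  · intro h
    have h3 : (P' * X * P) * Matrix.diagonal c = Matrix.diagonal c * (P' * X * P) := by
      ext i j
      rw [Matrix.mul_diagonal, Matrix.diagonal_mul]
      exact h i j
    rw [← e1, ← e2] at h3
    calc X * dgm P P' c = (P * P') * (X * dgm P P' c) * (P * P') := by
          rw [hP, Matrix.one_mul, Matrix.mul_one]
      _ = P * (P' * (X * dgm P P' c) * P) * P' := by simp only [Matrix.mul_assoc]
      _ = P * (P' * (dgm P P' c * X) * P) * P' := by rw [h3]
      _ = (P * P') * (dgm P P' c * X) * (P * P') := by simp only [Matrix.mul_assoc]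
      _ = dgm P P' c * X := by rw [hP, Matrix.one_mul, Matrix.mul_one]

/-- functions of `P w P'` commute with its centraliser -/
theorem comm_of_comm {c c' : σ → ℂ} (hc : ∀ i j, c i = c j → c' i = c' j) {X : Matrix σ σ ℂ}
    (h : X * dgm P P' c = dgm P P' c * X) : X * dgm P P' c' = dgm P P' c' * X := by
  rw [comm_iff hP] at h ⊢
  intro i j
  by_cases h0 : (P' * X * P) i j = 0
  · rw [h0, zero_mul, mul_zero]
  · have h1 : c j = c i := by
      have := h i j
      rw [mul_comm (c i)] at this
      exact mul_left_cancel₀ h0 this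
    rw [hc j i h1, mul_comm]

/-- the bicommutant -/
theorem bicomm {c : σ → ℂ} {Z : Matrix σ σ ℂ}
    (h : ∀ X : Matrix σ σ ℂ, X * dgm P P' c = dgm P P' c * X → Z * X = X * Z) :
    ∃ γ : σ → ℂ, Z = dgm P P' γ ∧ ∀ i j, c i = c j → γ i = γ j := by
  have h2 : P' * P = 1 := mul_eq_one_comm.1 hP
  set Y := P' * Z * P with hY
  have hZ : Z = P * Y * P' := by
    rw [hY]
    calc Z = (P * P') * Z * (P * P') := by rw [hP, Matrix.one_mul, Matrix.mul_one]
      _ = _ := by simp only [Matrix.mul_assoc]
  have hE : ∀ i j, c i = c j → Y * Matrix.single i j 1 = Matrix.single i j 1 * Y := by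
    intro i j hij
    have h3 := h (P * Matrix.single i j 1 * P') (by
      rw [comm_iff hP]
      have e : P' * (P * Matrix.single i j (1 : ℂ) * P') * P = Matrix.single i j 1 := by
        calc P' * (P * Matrix.single i j (1 : ℂ) * P') * P
            = (P' * P) * Matrix.single i j 1 * (P' * P) := by simp only [Matrix.mul_assoc]
          _ = _ := by rw [h2, Matrix.one_mul, Matrix.mul_one]
      intro a b
      rw [e, Matrix.single_apply]
      split_ifs with hab
      · rw [← hab.1, ← hab.2, hij, mul_comm]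
      · rw [zero_mul, mul_zero])
    have h4 := congrArg (fun W => P' * W * P) h3
    calc Y * Matrix.single i j 1 = Y * (P' * P) * Matrix.single i j 1 * (P' * P) := by
          rw [h2, Matrix.mul_one, Matrix.mul_one]
      _ = P' * (Z * (P * Matrix.single i j 1 * P')) * P * 1 := by
          rw [hY, Matrix.mul_one]
          calc P' * Z * P * (P' * P) * Matrix.single i j 1 * (P' * P)
              = P' * Z * (P * P') * (P * Matrix.single i j 1 * P') * P := by
                simp only [Matrix.mul_assoc]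
            _ = _ := by rw [hP, Matrix.mul_one]; simp only [Matrix.mul_assoc]
      _ = P' * ((P * Matrix.single i j 1 * P') * Z) * P := by rw [Matrix.mul_one, h3]
      _ = (P' * P) * Matrix.single i j 1 * (P' * Z * P) := by simp only [Matrix.mul_assoc]
      _ = _ := by rw [h2, Matrix.one_mul]
  refine ⟨fun i => Y i i, ?_, ?_⟩
  · rw [hZ, dgm]
    congr 2
    ext i j
    rw [Matrix.diagonal_apply]
    split_ifs with hij
    · rw [hij]
    · have h3 := congrFun (congrFun (hE i i rfl) i) j
      rw [Matrix.mul_single_apply_of_ne (hbj := Ne.symm hij), Matrix.single_mul_apply_same,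
        one_mul] at h3
      exact h3.symm
  · intro i j hij
    have h3 := congrFun (congrFun (hE i j hij) i) j
    rw [Matrix.mul_single_apply_same, Matrix.single_mul_apply_same, one_mul, mul_one] at h3
    exact h3

end cent

/-! ### normal form modulo the torus -/

theorem norm_aux {A : Type} [AddCommGroup A] {ι : Type} [Fintype ι] (u : ι → A) (i0 : ι)
    (w α w' : ι → ℤ) (G : ℤ) (hα : ∑ p, α p * (w p - w i0) = G)
    (hw' : ∀ i, w i - w i0 = G * w' i) (m : ℕ) (s t : A)
    (hs : ∀ i, m • (u i - u i0) = (w i - w i0) • s) (ht : G • t = ∑ p, α p • (u p - u i0))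
    (i : ι) : m • (u i - u i0 - (w i - w i0) • t) = 0 := by
  have h1 : m • (G • t) = G • s := by
    rw [ht, Finset.smul_sum, ← hα, Finset.sum_smul]
    refine Finset.sum_congr rfl fun p _ => ?_
    rw [smul_comm, hs, smul_smul]
  rw [nsmul_sub, hs, sub_eq_zero, hw' i, mul_comm, mul_smul, mul_smul, ← h1, smul_comm]

/-- normal form of an element of the bicommutant -/
theorem exists_norm {σ : Type} [Fintype σ] [Nonempty σ] (w : σ → ℤ) (γ : σ → ℂ) (hγ : ∀ i, γ i ≠ 0)
    (hc : ∀ i j, w i = w j → γ i = γ j) (m : ℕ) (c s : ℂ) (hs : s ≠ 0)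
    (hm : ∀ i, γ i ^ m = c * s ^ w i) :
    ∃ (z t : ℂ) (γ' : σ → ℂ), z ≠ 0 ∧ t ≠ 0 ∧ (∀ i, γ i = z * (t ^ w i * γ' i)) ∧
      ∀ i, γ' i ^ m = 1 := by
  classical
  obtain ⟨i0⟩ := ‹Nonempty σ›
  obtain ⟨G, hG⟩ := (IsPrincipalIdealRing.principal
    (Ideal.span (Set.range fun i => w i - w i0))).principal
  have hGm : G ∈ Ideal.span (Set.range fun i => w i - w i0) := by
    rw [hG]
    exact Submodule.mem_span_singleton_self G
  obtain ⟨α, hα⟩ := Ideal.mem_span_range_iff_exists_fun.1 hGm
  have hdiv : ∀ i, ∃ k, w i - w i0 = G * k := by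
    intro i
    have h1 : w i - w i0 ∈ Ideal.span (Set.range fun i => w i - w i0) :=
      Ideal.subset_span ⟨i, rfl⟩
    rw [hG] at h1
    obtain ⟨k, hk⟩ := Submodule.mem_span_singleton.1 h1
    exact ⟨k, by rw [← hk, smul_eq_mul, mul_comm]⟩
  choose w' hw' using hdiv
  by_cases hG0 : G = 0
  · have h1 : ∀ i, γ i = γ i0 := by
      intro i
      apply hc
      have := hw' i
      rw [hG0, zero_mul] at this
      omega
    refine ⟨γ i0, 1, fun _ => 1, hγ i0, one_ne_zero, fun i => ?_, fun i => one_pow _⟩
    rw [h1 i, one_zpow, mul_one, mul_one]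
  · set U : σ → ℂˣ := fun i => Units.mk0 (γ i) (hγ i) with hU
    set S : ℂˣ := Units.mk0 s hs with hS
    obtain ⟨t, ht⟩ := root_unit
      (Additive.toMul (∑ p, α p • (Additive.ofMul (U p) - Additive.ofMul (U i0)))) hG0
    have ht' : G • Additive.ofMul t =
        ∑ p, α p • (Additive.ofMul (U p) - Additive.ofMul (U i0)) := by
      rw [← ofMul_zpow, ht]
      rfl
    have hs' : ∀ i, m • (Additive.ofMul (U i) - Additive.ofMul (U i0)) =
        (w i - w i0) • Additive.ofMul S := by
      intro i
      rw [← ofMul_div, ← ofMul_pow, ← ofMul_zpow]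
      congr 1
      apply Units.ext
      rw [div_pow, Units.val_div_eq_div_val, Units.val_pow_eq_pow_val, Units.val_pow_eq_pow_val,
        Units.val_zpow_eq_zpow_val]
      show γ i ^ m / γ i0 ^ m = s ^ (w i - w i0)
      have hc0 : c ≠ 0 := by
        intro h0
        have := hm i0
        rw [h0, zero_mul] at this
        exact pow_ne_zero m (hγ i0) this
      rw [hm i, hm i0, zpow_sub₀ hs, mul_div_mul_left _ _ hc0]
    have hfin := norm_aux (fun i => Additive.ofMul (U i)) i0 w α w' G hα hw' m
      (Additive.ofMul S) (Additive.ofMul t) hs' ht'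
    refine ⟨γ i0 * (t : ℂ) ^ (-w i0), t, fun i => γ i / γ i0 * ((t : ℂ) ^ (w i - w i0))⁻¹,
      mul_ne_zero (hγ i0) (zpow_ne_zero _ t.ne_zero), t.ne_zero, fun i => ?_, fun i => ?_⟩
    · have ht0 : (t : ℂ) ≠ 0 := t.ne_zero
      show γ i = γ i0 * (t : ℂ) ^ (-w i0) * ((t : ℂ) ^ w i *
        (γ i / γ i0 * ((t : ℂ) ^ (w i - w i0))⁻¹))
      rw [zpow_sub₀ ht0, zpow_neg]
      have h1 := zpow_ne_zero (w i) ht0
      have h2 := zpow_ne_zero (w i0) ht0
      field_simp [hγ i0]
    · have h1 := hfin i
      rw [← ofMul_div, ← ofMul_zpow, ← ofMul_div, ← ofMul_pow] at h1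
      have h2 := congrArg Units.val (Additive.ofMul.injective h1)
      rw [Units.val_pow_eq_pow_val, Units.val_div_eq_div_val, Units.val_div_eq_div_val,
        Units.val_zpow_eq_zpow_val, Units.val_one] at h2
      show (γ i / γ i0 * ((t : ℂ) ^ (w i - w i0))⁻¹) ^ m = 1
      rw [← div_eq_mul_inv]
      exact h2

end Pool.Agent.TH189.Sg
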