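import Pool.Agent.TH189.Sg10

/-!
The number of the symmetries of an indecomposable bundle of rank two modulo a torus.
-/

set_option autoImplicit false

open MvPolynomial H960VB H938TB Pool.Agent.W615 Pool.Agent.W467.FO

namespace Pool.Agent.TH189.Sg

open Module

variable {n : ℕ} {E : Bundle2 n}

/-- the centraliser of a matrix -/
def Cen (S : Matrix (Fin (n + 1)) (Fin (n + 1)) ℂ) :
    Submodule ℂ (Matrix (Fin (n + 1)) (Fin (n + 1)) ℂ) where
  carrier := {X | X * S = S * X}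
  add_mem' := by
    intro X Y h h'
    show (X + Y) * S = S * (X + Y)
    rw [Matrix.add_mul, Matrix.mul_add]
    congr 1
  zero_mem' := by
    show 0 * S = S * 0
    rw [Matrix.zero_mul, Matrix.mul_zero]
  smul_mem' := by
    intro c X h
    show (c • X) * S = S * (c • X)
    rw [Matrix.smul_mul, Matrix.mul_smul]
    congr 1

theorem mem_Cen {S X : Matrix (Fin (n + 1)) (Fin (n + 1)) ℂ} : X ∈ Cen S ↔ X * S = S * X := Iff.rfl

variable {P P' : Matrix (Fin (n + 1)) (Fin (n + 1)) ℂ} {w : Fin (n + 1) → ℤ}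

/-- the generator of the torus -/
noncomputable abbrev S0m (P P' : Matrix (Fin (n + 1)) (Fin (n + 1)) ℂ) (w : Fin (n + 1) → ℤ) :
    Matrix (Fin (n + 1)) (Fin (n + 1)) ℂ := dgm P P' (fun i => (w i : ℂ))

theorem conj_mem (hstr : Str E P P' w) (hS : LiftsTo E (S0m P P' w))
    {g : Matrix (Fin (n + 1)) (Fin (n + 1)) ℂ} (hg : Sym E g)
    {X : Matrix (Fin (n + 1)) (Fin (n + 1)) ℂ} (hX : X ∈ Cen (S0m P P' w)) :
    g⁻¹ * X * g ∈ Cen (S0m P P' w) := by
  rw [mem_Cen] at hX ⊢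
  have hdet : IsUnit g.det := (Matrix.isUnit_iff_isUnit_det g).1 hg.1
  have e1 : g⁻¹ * g = 1 := Matrix.nonsing_inv_mul g hdet
  have e2 : g * g⁻¹ = 1 := Matrix.mul_nonsing_inv g hdet
  obtain ⟨a, b, hab⟩ := hstr _ (conj_lifts hg hS)
  have hab' : g * S0m P P' w * g⁻¹ = a • S0m P P' w + b • 1 := hab
  have h1 : X * (g * S0m P P' w * g⁻¹) = (g * S0m P P' w * g⁻¹) * X := by
    rw [hab', Matrix.mul_add, Matrix.add_mul, Matrix.mul_smul, Matrix.smul_mul, hX,
      Matrix.mul_smul, Matrix.smul_mul, Matrix.mul_one, Matrix.one_mul]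
  calc g⁻¹ * X * g * S0m P P' w = g⁻¹ * (X * (g * S0m P P' w * g⁻¹)) * g := by
        simp only [Matrix.mul_assoc, e1, Matrix.mul_one]
    _ = g⁻¹ * ((g * S0m P P' w * g⁻¹) * X) * g := by rw [h1]
    _ = (g⁻¹ * g) * S0m P P' w * (g⁻¹ * X * g) := by simp only [Matrix.mul_assoc]
    _ = S0m P P' w * (g⁻¹ * X * g) := by rw [e1, Matrix.one_mul]

/-- the action of a symmetry by conjugation -/
theorem exists_conj (hstr : Str E P P' w) (hS : LiftsTo E (S0m P P' w))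
    {g : Matrix (Fin (n + 1)) (Fin (n + 1)) ℂ} (hg : Sym E g) :
    ∃ ρ : End ℂ (Cen (S0m P P' w)), ∀ X, (ρ X : Matrix (Fin (n + 1)) (Fin (n + 1)) ℂ) =
      g⁻¹ * X * g := by
  refine ⟨{ toFun := fun X => ⟨g⁻¹ * X * g, conj_mem hstr hS hg X.2⟩,
            map_add' := fun X Y => Subtype.ext ?_, map_smul' := fun c X => Subtype.ext ?_ },
    fun X => rfl⟩
  · show g⁻¹ * (X.1 + Y.1) * g = g⁻¹ * X.1 * g + g⁻¹ * Y.1 * g
    rw [Matrix.mul_add, Matrix.add_mul]
  · show g⁻¹ * (c • X.1) * g = c • (g⁻¹ * X.1 * g)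
    rw [Matrix.mul_smul, Matrix.smul_mul]

theorem conj_pow {g : Matrix (Fin (n + 1)) (Fin (n + 1)) ℂ} {ρ : End ℂ (Cen (S0m P P' w))}
    (hρ : ∀ X, (ρ X : Matrix (Fin (n + 1)) (Fin (n + 1)) ℂ) = g⁻¹ * X * g) (k : ℕ)
    (X : Cen (S0m P P' w)) : ((ρ ^ k) X : Matrix (Fin (n + 1)) (Fin (n + 1)) ℂ) =
      g⁻¹ ^ k * X * g ^ k := by
  induction k generalizing X with
  | zero => simp
  | succ k ih =>
    rw [pow_succ, Module.End.mul_apply, ih, hρ, pow_succ, pow_succ']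
    simp only [Matrix.mul_assoc]

/-- **The number of the symmetries modulo the torus.** -/
theorem count_main (hn : 1 ≤ n) (hE : ¬ E.Splits) (W : Wedge (triv E)) {d : ℤ} (hd : GenW W d)
    (hP : P * P' = 1) (hstr : Str E P P' w) (hS : LiftsTo E (S0m P P' w))
    (S : Finset (Matrix (Fin (n + 1)) (Fin (n + 1)) ℂ)) (hSym : ∀ A ∈ S, Sym E A)
    (hne : ∀ A ∈ S, ∀ B ∈ S, A ≠ B → ∀ z t : ℂ, t ≠ 0 →
      A ≠ z • (dgm P P' (fun i => t ^ w i) * B)) :
    S.card ≤ (6 * (d + d + W.κ.1).toNat) ^ (2 * n * ((n + 1) ^ 6 + (n + 1))) := by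
  classical
  set M := (6 * (d + d + W.κ.1).toNat) ^ n with hM
  have hM1 : 1 ≤ M := by
    have := deg_pos hE W hd
    exact Nat.one_le_pow _ _ (by omega)
  set R := Aut.eigs 1 M with hR
  have hRc : R.card ≤ M ^ 2 := by
    have := Aut.card_eigs 1 M
    rwa [one_mul] at this
  have hmemR : ∀ {x : ℂ} {m : ℕ}, 0 < m → m ≤ M → x ^ m = 1 → x ∈ R := by
    intro x m hm hmM hx
    rw [hR, Aut.eigs, Finset.mem_biUnion]
    refine ⟨m, Finset.mem_Icc.2 ⟨hm, hmM⟩, ?_⟩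
    rw [mul_one, Polynomial.mem_nthRootsFinset hm]
    exact hx
  have hR1 : 1 ≤ R.card := by
    rw [Nat.one_le_iff_ne_zero, ← Nat.pos_iff_ne_zero, Finset.card_pos]
    exact ⟨1, hmemR one_pos hM1 (one_pow _)⟩
  have hbd : ∀ {g : Matrix (Fin (n + 1)) (Fin (n + 1)) ℂ}, Sym E g → ∃ (m : ℕ) (c t : ℂ),
      0 < m ∧ m ≤ M ∧ c ≠ 0 ∧ t ≠ 0 ∧ g ^ m = c • dgm P P' (fun i => t ^ w i) := by
    rintro g ⟨hg, ⟨O⟩⟩
    exact bound_one hn hE W hd hP hstr hg O
  -- finite order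
  have hfin : ∀ {g : Matrix (Fin (n + 1)) (Fin (n + 1)) ℂ} {ρ : End ℂ (Cen (S0m P P' w))},
      Sym E g → (∀ X, (ρ X : Matrix (Fin (n + 1)) (Fin (n + 1)) ℂ) = g⁻¹ * X * g) →
      ∃ m : ℕ, 0 < m ∧ m ≤ M ∧ ρ ^ m = 1 := by
    intro g ρ hg hρ
    obtain ⟨m, c, t, hm, hmM, hc, ht, hgm⟩ := hbd hg
    refine ⟨m, hm, hmM, LinearMap.ext fun X => Subtype.ext ?_⟩
    have hdet : IsUnit g.det := (Matrix.isUnit_iff_isUnit_det g).1 hg.1
    have e1 : g⁻¹ * g = 1 := Matrix.nonsing_inv_mul g hdet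
    have e2 : g * g⁻¹ = 1 := Matrix.mul_nonsing_inv g hdet
    have e3 : g⁻¹ ^ m * g ^ m = 1 := by
      have hcm : Commute g⁻¹ g := by
        show g⁻¹ * g = g * g⁻¹
        rw [e1, e2]
      rw [← hcm.mul_pow, e1, one_pow]
    rw [conj_pow hρ, Module.End.one_apply]
    have h1 : (X : Matrix (Fin (n + 1)) (Fin (n + 1)) ℂ) * dgm P P' (fun i => t ^ w i) =
        dgm P P' (fun i => t ^ w i) * X := by
      refine comm_of_comm hP (c := fun i => (w i : ℂ)) (fun i j hij => ?_) X.2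
      have h2 : w i = w j := by exact_mod_cast hij
      rw [h2]
    have h2 : (X : Matrix (Fin (n + 1)) (Fin (n + 1)) ℂ) * g ^ m = g ^ m * X := by
      rw [hgm, Matrix.mul_smul, Matrix.smul_mul, h1]
    rw [Matrix.mul_assoc, h2, ← Matrix.mul_assoc, e3, Matrix.one_mul]
  let rho : Matrix (Fin (n + 1)) (Fin (n + 1)) ℂ → End ℂ (Cen (S0m P P' w)) := fun A =>
    if h : ∃ ρ : End ℂ (Cen (S0m P P' w)), ∀ X,
      (ρ X : Matrix (Fin (n + 1)) (Fin (n + 1)) ℂ) = A⁻¹ * X * A then h.choose else 0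
  have hrho : ∀ {A : Matrix (Fin (n + 1)) (Fin (n + 1)) ℂ}, Sym E A → ∀ X,
      (rho A X : Matrix (Fin (n + 1)) (Fin (n + 1)) ℂ) = A⁻¹ * X * A := by
    intro A hA X
    have h := exists_conj hstr hS hA
    have h1 : rho A = h.choose := dif_pos h
    rw [h1]
    exact h.choose_spec X
  -- the image
  have himg : (S.image rho).card ≤ R.card ^ (finrank ℂ (Cen (S0m P P' w)) ^ 3) := by
    refine Aut.burnside {ρ : End ℂ (Cen (S0m P P' w)) | ∃ g, Sym E g ∧
      ∀ X, (ρ X : Matrix (Fin (n + 1)) (Fin (n + 1)) ℂ) = g⁻¹ * X * g} ?_ ?_ R ?_ hR1 _ ?_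
    · rintro ρ ⟨g, hg, hρ⟩ ρ' ⟨h, hh, hρ'⟩
      refine ⟨h * g, hh.mul hg, fun X => ?_⟩
      rw [Module.End.mul_apply, hρ, hρ', Matrix.mul_inv_rev]
      simp only [Matrix.mul_assoc]
    · rintro ρ ⟨g, hg, hρ⟩
      obtain ⟨m, hm, -, h⟩ := hfin hg hρ
      exact ⟨m, hm, h⟩
    · rintro ρ ⟨g, hg, hρ⟩ μ hμ
      obtain ⟨m, hm, hmM, h⟩ := hfin hg hρ
      exact hmemR hm hmM (Aut.root_pow ρ m 1 (by rw [h, one_smul]) μ hμ)
    · intro ρ hρ
      obtain ⟨A, hA, rfl⟩ := Finset.mem_image.1 hρ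
      exact ⟨A, hSym A hA, hrho (hSym A hA)⟩
  -- the fibres
  have hfib : ∀ τ ∈ S.image rho, (S.filter fun A => rho A = τ).card ≤ R.card ^ (n + 1) := by
    intro τ hτ
    obtain ⟨B₀, hB₀, hB₀τ⟩ := Finset.mem_image.1 hτ
    have hsB := hSym B₀ hB₀
    have hdetB : IsUnit B₀.det := (Matrix.isUnit_iff_isUnit_det B₀).1 hsB.1
    have b1 : B₀⁻¹ * B₀ = 1 := Matrix.nonsing_inv_mul B₀ hdetB
    have b2 : B₀ * B₀⁻¹ = 1 := Matrix.mul_nonsing_inv B₀ hdetB
    have hex : ∀ A : Matrix (Fin (n + 1)) (Fin (n + 1)) ℂ, ∃ (γ' : Fin (n + 1) → ℂ) (z t : ℂ),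
        A ∈ S.filter (fun A => rho A = τ) → (z ≠ 0 ∧ t ≠ 0 ∧ (∀ i, γ' i ∈ R) ∧
          A * B₀⁻¹ = z • dgm P P' (fun i => t ^ w i * γ' i)) := by
      intro A
      by_cases hA : A ∈ S.filter (fun A => rho A = τ)
      · rw [Finset.mem_filter] at hA
        have hsA := hSym A hA.1
        have hdetA : IsUnit A.det := (Matrix.isUnit_iff_isUnit_det A).1 hsA.1
        have a2 : A * A⁻¹ = 1 := Matrix.mul_nonsing_inv A hdetA
        have hC := hsA.mul hsB.inv
        obtain ⟨m, c, s, hm, hmM, hc, hs, hCm⟩ := hbd hC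
        obtain ⟨γ, hγ, hγc⟩ := bicomm hP (c := fun i => (w i : ℂ)) (Z := A * B₀⁻¹) (by
          intro X hX
          have h1 : A⁻¹ * X * A = B₀⁻¹ * X * B₀ := by
            have h2 := hrho hsA ⟨X, hX⟩
            rw [hA.2, ← hB₀τ, hrho hsB] at h2
            exact h2.symm
          calc A * B₀⁻¹ * X = A * (B₀⁻¹ * X * B₀) * B₀⁻¹ := by
                simp only [Matrix.mul_assoc, b2, Matrix.mul_one]
            _ = A * (A⁻¹ * X * A) * B₀⁻¹ := by rw [h1]
            _ = (A * A⁻¹) * X * (A * B₀⁻¹) := by simp only [Matrix.mul_assoc]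
            _ = X * (A * B₀⁻¹) := by rw [a2, Matrix.one_mul])
        rw [hγ, dgm_pow hP, dgm_smul] at hCm
        have hγm := fun i => congrFun (dgm_inj hP hCm) i
        obtain ⟨z, t, γ', hz, ht, h1, h2⟩ := exists_norm w γ (fun i h0 => by
          have h3 := hγm i
          rw [h0, zero_pow hm.ne'] at h3
          exact mul_ne_zero hc (zpow_ne_zero _ hs) h3.symm) (fun i j hij => hγc i j (by
            show (w i : ℂ) = w j
            rw [hij])) m c s hs hγm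
        refine ⟨γ', z, t, fun _ => ⟨hz, ht, fun i => hmemR hm hmM (h2 i), ?_⟩⟩
        rw [hγ, dgm_smul]
        congr 1
        funext i
        exact h1 i
      · exact ⟨0, 0, 0, fun h => absurd h hA⟩
    choose γ' z t hγ' using hex
    have hinj : Set.InjOn γ' (S.filter fun A => rho A = τ) := by
      intro A hA B hB hAB
      by_contra hABne
      obtain ⟨hz, ht, -, h1⟩ := hγ' A hA
      obtain ⟨hz', ht', -, h1'⟩ := hγ' B hB
      refine hne A (Finset.mem_filter.1 hA).1 B (Finset.mem_filter.1 hB).1 hABne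
        (z A / z B) (t A / t B) (div_ne_zero ht ht') ?_
      have h2 : A * B₀⁻¹ = (z A / z B) • (dgm P P' (fun i => (t A / t B) ^ w i) *
          (B * B₀⁻¹)) := by
        rw [h1, h1', Matrix.mul_smul, smul_smul, div_mul_cancel₀ _ hz', dgm_mul hP, hAB]
        congr 2
        funext i
        rw [div_zpow, ← mul_assoc, div_mul_cancel₀ _ (zpow_ne_zero _ ht')]
      calc A = A * B₀⁻¹ * B₀ := by rw [Matrix.mul_assoc, b1, Matrix.mul_one]
        _ = _ := by
          rw [h2, Matrix.smul_mul, Matrix.mul_assoc, Matrix.mul_assoc, b1, Matrix.mul_one]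
    have hmaps : ∀ A ∈ S.filter (fun A => rho A = τ), γ' A ∈ Fintype.piFinset
        fun _ : Fin (n + 1) => R := by
      intro A hA
      rw [Fintype.mem_piFinset]
      exact (hγ' A hA).2.2.1
    have h1 := Finset.card_le_card_of_injOn _ hmaps hinj
    rw [Fintype.card_piFinset] at h1
    simp only [Finset.prod_const, Finset.card_univ, Fintype.card_fin] at h1
    exact h1
  have h1 := Finset.card_le_mul_card_image S _ hfib
  refine h1.trans ?_
  have hfr : finrank ℂ (Cen (S0m P P' w)) ≤ (n + 1) ^ 2 := by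
    refine (Submodule.finrank_le _).trans ?_
    rw [Module.finrank_matrix]
    simp [pow_two]
  calc R.card ^ (n + 1) * (S.image rho).card
      ≤ R.card ^ (n + 1) * R.card ^ (((n + 1) ^ 2) ^ 3) := by
        refine Nat.mul_le_mul_left _ (himg.trans ?_)
        exact Nat.pow_le_pow_right hR1 (Nat.pow_le_pow_left hfr 3)
    _ = R.card ^ ((n + 1) ^ 6 + (n + 1)) := by
        rw [← pow_add, ← pow_mul]
        congr 1
        ring
    _ ≤ (M ^ 2) ^ ((n + 1) ^ 6 + (n + 1)) := Nat.pow_le_pow_left hRc _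
    _ = _ := by
        rw [hM, ← pow_mul, ← pow_mul]
        congr 1
        ring

/-- the structure of the liftable vector fields, with a liftable generator -/
theorem exists_str (hn : 4 ≤ n) (hE : ¬ E.Splits) :
    ∃ (P P' : Matrix (Fin (n + 1)) (Fin (n + 1)) ℂ) (w : Fin (n + 1) → ℤ), P * P' = 1 ∧
      Str E P P' w ∧ LiftsTo E (S0m P P' w) := by
  obtain ⟨P, P', w, hP, hstr⟩ := structure_main hn hE
  by_cases h : ∀ N : Matrix (Fin (n + 1)) (Fin (n + 1)) ℂ, LiftsTo E N → ∃ b : ℂ, N = b • 1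
  · refine ⟨1, 1, 0, Matrix.one_mul _, fun N hN => ?_, ?_⟩
    · obtain ⟨b, hb⟩ := h N hN
      exact ⟨0, b, by rw [zero_smul, zero_add, hb]⟩
    · have h1 : S0m (1 : Matrix (Fin (n + 1)) (Fin (n + 1)) ℂ) 1 0 = (0 : ℂ) • 1 := by
        unfold S0m dgm
        simp
      rw [h1]
      exact (LiftsTo.one E).smul 0
  · push Not at h
    obtain ⟨N, hN, hN'⟩ := h
    refine ⟨P, P', w, hP, hstr, ?_⟩
    obtain ⟨a, b, hab⟩ := hstr N hN
    have ha : a ≠ 0 := by
      rintro rfl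
      exact hN' b (by rw [hab, zero_smul, zero_add])
    have h1 : S0m P P' w = a⁻¹ • (N + (-b) • 1) := by
      rw [hab, neg_smul, add_neg_cancel_right, smul_smul, inv_mul_cancel₀ ha, one_smul]
      rfl
    rw [h1]
    exact (hN.add ((LiftsTo.one E).smul _)).smul _

end Pool.Agent.TH189.Sg
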