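import Pool.Agent.TH189.Sg1
import Pool.Agent.W615.X10
import Pool.Agent.W467.FO.A

/-!
A functional calculus which turns automorphisms into derivations turns a lift of a linear
automorphism to a bundle of rank two into a lift of a linear vector field.
-/

set_option autoImplicit false

open MvPolynomial H960VB H938TB Pool.Agent.W615 Pool.Agent.W467.FO

namespace Pool.Agent.TH189.Sg

open Module

/-- a functional calculus which turns automorphisms into derivations -/
structure Calc where
  L : ∀ {V : Type} [AddCommGroup V] [Module ℂ V] [FiniteDimensional ℂ V], End ℂ V → End ℂ V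
  one : ∀ {V : Type} [AddCommGroup V] [Module ℂ V] [FiniteDimensional ℂ V],
    L (1 : End ℂ V) = 0
  deriv : ∀ {A B C : Type} [AddCommGroup A] [Module ℂ A] [FiniteDimensional ℂ A]
    [AddCommGroup B] [Module ℂ B] [FiniteDimensional ℂ B]
    [AddCommGroup C] [Module ℂ C] [FiniteDimensional ℂ C]
    (f : End ℂ A) (g : End ℂ B) (h : End ℂ C) (β : A →ₗ[ℂ] B →ₗ[ℂ] C),
    Function.Injective f → Function.Injective g → Function.Injective h →
    (∀ a b, β (f a) (g b) = h (β a b)) → ∀ a b, β (L f a) b + β a (L g b) = L h (β a b)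

/-- the calculus of an additive function -/
noncomputable def chiCalc (φ : ℂ → ℂ) (hφ : ∀ x y : ℂ, x ≠ 0 → y ≠ 0 → φ (x * y) = φ x + φ y) :
    Calc where
  L f := fc f φ
  one := by
    intro V _ _ _
    rw [fc_one]
    have h1 := hφ 1 1 one_ne_zero one_ne_zero
    rw [mul_one] at h1
    have h2 : φ 1 = 0 := by
      have := congrArg (fun z => z - φ 1) h1
      simpa using this.symm
    rw [h2, zero_smul]
  deriv f g h β hf hg _ hβ a b := fc_deriv hf hg hβ φ hφ a b

/-- the logarithm of the unipotent part -/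
noncomputable def logCalc : Calc where
  L {V} _ _ _ f := logN (finrank ℂ V + 1) (up f - 1)
  one := by
    intro V _ _ _
    have h1 : up (1 : End ℂ V) = 1 := by
      rw [up, fc_one, inv_one, one_smul, mul_one]
    rw [h1, sub_self, logN, Finset.sum_range_succ']
    rw [cc_zero, zero_smul, add_zero]
    refine Finset.sum_eq_zero fun k _ => ?_
    rw [pow_succ, mul_zero, smul_zero]
  deriv f g h β hf hg hh hβ a b := by
    refine log_deriv (by rw [pow_succ, up_nilpotent hf, zero_mul])
      (by rw [pow_succ, up_nilpotent hg, zero_mul])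
      (by rw [pow_succ, up_nilpotent hh, zero_mul]) (fun a b => ?_) a b (by omega) (by omega)
    rw [sub_add_cancel, sub_add_cancel, sub_add_cancel]
    exact up_mul hf hg hβ a b

/-- compatibility with linear maps -/
theorem Calc.natural (c : Calc) {A C : Type} [AddCommGroup A] [Module ℂ A] [FiniteDimensional ℂ A]
    [AddCommGroup C] [Module ℂ C] [FiniteDimensional ℂ C] (f : End ℂ A) (h : End ℂ C)
    (u : A →ₗ[ℂ] C) (hf : Function.Injective f) (hh : Function.Injective h)
    (hu : ∀ a, u (f a) = h (u a)) (a : A) : u (c.L f a) = c.L h (u a) := by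
  have h1 := c.deriv f (1 : End ℂ ℂ) h
    (LinearMap.mk₂ ℂ (fun (a : A) (z : ℂ) => z • u a)
      (fun a a' z => by rw [map_add, smul_add])
      (fun r a z => by rw [map_smul, smul_comm])
      (fun a z z' => by rw [add_smul])
      (fun r a z => by rw [smul_eq_mul, mul_smul])) hf (fun _ _ h => h) hh
    (fun a z => by
      show (1 : End ℂ ℂ) z • u (f a) = h (z • u a)
      rw [hu, map_smul]
      rfl) a 1
  rw [c.one] at h1
  have h2 : (1 : ℂ) • u (c.L f a) + (0 : End ℂ ℂ) 1 • u a = c.L h ((1 : ℂ) • u a) := h1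
  rw [LinearMap.zero_apply, zero_smul, add_zero, one_smul, one_smul] at h2
  exact h2

variable {n : ℕ} {E : Bundle2 n} {T : (Fin (n + 1) → ℂ) →ₗ[ℂ] (Fin (n + 1) → ℂ)}

/-- the homogeneous polynomials -/
abbrev HM (n e : ℕ) : Submodule ℂ (MvPolynomial (Fin (n + 1)) ℂ) :=
  homogeneousSubmodule (Fin (n + 1)) ℂ e

instance (e : ℕ) : FiniteDimensional ℂ (HM n e) :=
  Module.Finite.iff_fg.2 (homogeneousSubmodule_fg (Fin (n + 1)) ℂ e)

theorem homZ_C (c : ℂ) : HomZ (C c : MvPolynomial (Fin (n + 1)) ℂ) 0 :=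
  Or.inr ⟨0, rfl, isHomogeneous_C _ _⟩

theorem homZ_of_mem {e : ℕ} {p : MvPolynomial (Fin (n + 1)) ℂ} (hp : p ∈ HM n e) :
    HomZ p (e : ℤ) := Or.inr ⟨e, rfl, hp⟩

/-- the sections of a twist -/
def SecM (E : Bundle2 n) (d : ℤ) : Submodule ℂ (Vec E.a n) where
  carrier := {G | Sec E d G}
  add_mem' := fun h h' => sec_add h h'
  zero_mem' := sec_zero
  smul_mem' c G h := by
    have h1 := sec_mul (homZ_C c) h
    rw [zero_add] at h1
    have h2 : c • G = fun i => C c * G i := by
      funext i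
      rw [Pi.smul_apply, smul_eq_C_mul]
    rw [h2]
    exact h1

theorem mem_SecM {d : ℤ} {G : Vec E.a n} : G ∈ SecM E d ↔ Sec E d G := Iff.rfl

theorem mem_HM_of_homZ {p : MvPolynomial (Fin (n + 1)) ℂ} {d : ℤ} (h : HomZ p d) :
    p ∈ HM n d.toNat := by
  rcases h with rfl | ⟨k, hk, h⟩
  · exact Submodule.zero_mem _
  · have : d.toNat = k := by omega
    rw [this]
    exact h

instance (d : ℤ) : FiniteDimensional ℂ (SecM E d) := by
  let u : SecM E d →ₗ[ℂ] ((i : Fin E.a) → HM n (E.β i + d).toNat) :=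
    { toFun := fun G i => ⟨G.1 i, mem_HM_of_homZ (Sec.homZ (mem_SecM.1 G.2) i)⟩
      map_add' := fun G H => rfl
      map_smul' := fun c G => rfl }
  refine FiniteDimensional.of_injective u fun G H h => ?_
  apply Subtype.ext
  funext i
  exact congrArg Subtype.val (congrFun h i)

/-- the lift on the sections of a twist -/
def phiD (O : GOp E T) (d : ℤ) : End ℂ (SecM E d) where
  toFun G := ⟨O.D G.1, O.sec d _ G.2⟩
  map_add' G H := Subtype.ext (O.add d _ _ G.2 H.2)
  map_smul' c G := by
    apply Subtype.ext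
    have h1 := O.mul d 0 (C c) G.1 G.2 (homZ_C c)
    have h2 : (c • G : SecM E d).1 = fun i => C c * G.1 i := by
      funext i
      show (c • G.1) i = _
      rw [Pi.smul_apply, smul_eq_C_mul]
    show O.D (c • G : SecM E d).1 = c • O.D G.1
    rw [h2, h1]
    funext i
    rw [Pi.smul_apply, smul_eq_C_mul]
    congr 1
    exact (lsub T).commutes c

theorem phiD_injective (O : GOp E T) (d : ℤ) : Function.Injective (phiD O d) := by
  rw [← LinearMap.ker_eq_bot, LinearMap.ker_eq_bot']
  intro G hG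
  apply Subtype.ext
  funext i
  exact O.inj d G.1 G.2 (fun i => congrFun (congrArg Subtype.val hG) i) i

theorem lsub_mem (T : (Fin (n + 1) → ℂ) →ₗ[ℂ] (Fin (n + 1) → ℂ)) {e : ℕ}
    {p : MvPolynomial (Fin (n + 1)) ℂ} (hp : p ∈ HM n e) : lsub T p ∈ HM n e := by
  have h1 : (lsub T p).IsHomogeneous (1 * e) := by
    refine IsHomogeneous.aeval (show p.IsHomogeneous e from hp) _ fun s => ?_
    refine IsHomogeneous.sum _ _ _ fun t _ => ?_
    have := (isHomogeneous_C (Fin (n + 1)) (T (Pi.single t 1) s)).mul (isHomogeneous_X ℂ t)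
    rwa [zero_add] at this
  rwa [one_mul] at h1

/-- the substitution on the homogeneous polynomials -/
noncomputable def polE (T : (Fin (n + 1) → ℂ) →ₗ[ℂ] (Fin (n + 1) → ℂ)) (e : ℕ) :
    End ℂ (HM n e) where
  toFun p := ⟨lsub T p.1, lsub_mem T p.2⟩
  map_add' p q := Subtype.ext (map_add (lsub T) _ _)
  map_smul' c p := Subtype.ext (map_smul (lsub T) c p.1)

theorem polE_injective (hT : Function.Surjective T) (e : ℕ) : Function.Injective (polE T e) := by
  intro p q h
  apply Subtype.ext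
  apply MvPolynomial.funext
  intro x
  obtain ⟨y, rfl⟩ := hT x
  have h1 := congrArg (fun p : HM n e => eval y p.1) h
  have h2 : eval y (lsub T p.1) = eval y (lsub T q.1) := h1
  rwa [eval_lsub, eval_lsub] at h2

/-- multiplication of sections by polynomials, elementwise -/
noncomputable def mulS0 (E : Bundle2 n) (e : ℕ) (d : ℤ) (p : HM n e) (G : SecM E d) : SecM E (e + d) :=
  ⟨fun i => p.1 * G.1 i, sec_mul (homZ_of_mem p.2) G.2⟩

/-- multiplication of sections by polynomials -/
noncomputable def mulS (E : Bundle2 n) (e : ℕ) (d : ℤ) :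
    HM n e →ₗ[ℂ] SecM E d →ₗ[ℂ] SecM E (e + d) :=
  LinearMap.mk₂ ℂ (mulS0 E e d)
    (fun p q G => Subtype.ext (by
      funext i
      show (p.1 + q.1) * G.1 i = p.1 * G.1 i + q.1 * G.1 i
      exact add_mul _ _ _))
    (fun c p G => Subtype.ext (by
      funext i
      show (c • p.1) * G.1 i = c • (p.1 * G.1 i)
      exact smul_mul_assoc _ _ _))
    (fun p G H => Subtype.ext (by
      funext i
      show p.1 * (G.1 i + H.1 i) = p.1 * G.1 i + p.1 * H.1 i
      exact mul_add _ _ _))
    (fun c p G => Subtype.ext (by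
      funext i
      show p.1 * (c • G.1 i) = c • (p.1 * G.1 i)
      exact mul_smul_comm _ _ _))

/-- multiplication of polynomials, elementwise -/
noncomputable def mulP0 (n e e' : ℕ) (p : HM n e) (q : HM n e') : HM n (e + e') :=
  ⟨p.1 * q.1, IsHomogeneous.mul p.2 q.2⟩

/-- multiplication of polynomials -/
noncomputable def mulP (n e e' : ℕ) : HM n e →ₗ[ℂ] HM n e' →ₗ[ℂ] HM n (e + e') :=
  LinearMap.mk₂ ℂ (mulP0 n e e')
    (fun p q r => Subtype.ext (by
      show (p.1 + q.1) * r.1 = p.1 * r.1 + q.1 * r.1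
      exact add_mul _ _ _))
    (fun c p q => Subtype.ext (by
      show (c • p.1) * q.1 = c • (p.1 * q.1)
      exact smul_mul_assoc _ _ _))
    (fun p q r => Subtype.ext (by
      show p.1 * (q.1 + r.1) = p.1 * q.1 + p.1 * r.1
      exact mul_add _ _ _))
    (fun c p q => Subtype.ext (by
      show p.1 * (c • q.1) = c • (p.1 * q.1)
      exact mul_smul_comm _ _ _))

/-- the transpose of `T` -/
noncomputable def trT (T : (Fin (n + 1) → ℂ) →ₗ[ℂ] (Fin (n + 1) → ℂ)) :
    End ℂ (Fin (n + 1) → ℂ) where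
  toFun y t := ∑ s, y s * T (Pi.single t 1) s
  map_add' y z := by
    funext t
    simp only [Pi.add_apply, add_mul, Finset.sum_add_distrib]
  map_smul' c y := by
    funext t
    simp only [Pi.smul_apply, smul_eq_mul, RingHom.id_apply, Finset.mul_sum, mul_assoc]

/-- linear forms -/
noncomputable def linF (n : ℕ) : (Fin (n + 1) → ℂ) →ₗ[ℂ] HM n 1 where
  toFun y := ⟨∑ s, C (y s) * X s, IsHomogeneous.sum _ _ _ fun s _ => by
    have := (isHomogeneous_C (Fin (n + 1)) (y s)).mul (isHomogeneous_X ℂ s)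
    rwa [zero_add] at this⟩
  map_add' y z := Subtype.ext (by
    show ∑ s, C ((y + z) s) * X s = ∑ s, C (y s) * X s + ∑ s, C (z s) * X s
    simp only [Pi.add_apply, C_add, add_mul, Finset.sum_add_distrib])
  map_smul' c y := Subtype.ext (by
    show ∑ s, C ((c • y) s) * X s = c • ∑ s, C (y s) * X s
    simp only [Pi.smul_apply, smul_eq_mul, C_mul, smul_eq_C_mul, Finset.mul_sum, mul_assoc])

theorem linF_trT (y : Fin (n + 1) → ℂ) : linF n (trT T y) = polE T 1 (linF n y) := by
  apply Subtype.ext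
  show ∑ t, C (∑ s, y s * T (Pi.single t 1) s) * X t = lsub T (∑ s, C (y s) * X s)
  rw [map_sum]
  have h1 : ∀ s, lsub T (C (y s) * X s : MvPolynomial (Fin (n + 1)) ℂ) =
      ∑ t, C (y s * T (Pi.single t 1) s) * X t := by
    intro s
    have h2 : lsub T (C (y s) : MvPolynomial (Fin (n + 1)) ℂ) = C (y s) := (lsub T).commutes _
    rw [map_mul, h2, lsub_X, Finset.mul_sum]
    refine Finset.sum_congr rfl fun t _ => ?_
    rw [C_mul, mul_assoc]
  rw [Finset.sum_congr rfl fun s _ => h1 s, Finset.sum_comm]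
  refine Finset.sum_congr rfl fun t _ => ?_
  rw [map_sum, Finset.sum_mul]

theorem linF_injective : Function.Injective (linF n) := by
  rw [← LinearMap.ker_eq_bot, LinearMap.ker_eq_bot']
  intro y hy
  funext s
  have h1 : (∑ t, C (y t) * X t : MvPolynomial (Fin (n + 1)) ℂ) = 0 := congrArg Subtype.val hy
  have h2 := congrArg (coeff (Finsupp.single s 1)) h1
  rw [coeff_sum, coeff_zero] at h2
  have h3 : ∀ t, coeff (Finsupp.single s 1) (C (y t) * X t : MvPolynomial (Fin (n + 1)) ℂ) =
      if t = s then y t else 0 := by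
    intro t
    rw [coeff_C_mul, coeff_X']
    by_cases hts : t = s
    · rw [if_pos hts, if_pos (by rw [hts]), mul_one]
    · rw [if_neg hts, if_neg (fun h => hts ((Finsupp.single_left_inj one_ne_zero).1 h)), mul_zero]
  rw [Finset.sum_congr rfl fun t _ => h3 t, Finset.sum_ite_eq' Finset.univ s] at h2
  simpa using h2

theorem trT_injective (hT : Function.Surjective T) : Function.Injective (trT T) := by
  intro y z h
  apply linF_injective
  apply polE_injective hT 1
  rw [← linF_trT, ← linF_trT, h]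

/-- homogeneous polynomials of degree zero -/
theorem eq_C_of_mem {p : MvPolynomial (Fin (n + 1)) ℂ} (hp : p ∈ HM n 0) : p = C (coeff 0 p) :=
  totalDegree_eq_zero_iff_eq_C.1 ((totalDegree_zero_iff_isHomogeneous (Fin (n + 1))).2 hp)

/-- the matrix of the vector field -/
noncomputable def matN (c : Calc) (T : (Fin (n + 1) → ℂ) →ₗ[ℂ] (Fin (n + 1) → ℂ)) :
    Matrix (Fin (n + 1)) (Fin (n + 1)) ℂ := fun s t => c.L (trT T) (Pi.single s 1) t

theorem congr_e {c : Calc} {e e' : ℕ} (h : e = e') (p : MvPolynomial (Fin (n + 1)) ℂ)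
    (hp : p ∈ HM n e) (hp' : p ∈ HM n e') :
    (c.L (polE T e) ⟨p, hp⟩ : MvPolynomial (Fin (n + 1)) ℂ) = c.L (polE T e') ⟨p, hp'⟩ := by
  subst h
  rfl

theorem congr_d {c : Calc} (O : GOp E T) {d d' : ℤ} (h : d = d') (G : Vec E.a n)
    (hG : G ∈ SecM E d) (hG' : G ∈ SecM E d') :
    (c.L (phiD O d) ⟨G, hG⟩ : Vec E.a n) = c.L (phiD O d') ⟨G, hG'⟩ := by
  subst h
  rfl

/-- on polynomials the calculus gives the vector field -/
theorem polE_vf (c : Calc) (hT : Function.Surjective T) : ∀ (e : ℕ)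
    (p : MvPolynomial (Fin (n + 1)) ℂ) (hp : p ∈ HM n e),
    (c.L (polE T e) ⟨p, hp⟩ : MvPolynomial (Fin (n + 1)) ℂ) = vf (matN c T) p := by
  have hX : ∀ s, (c.L (polE T 1) ⟨X s, isHomogeneous_X ℂ s⟩ : MvPolynomial (Fin (n + 1)) ℂ) =
      vf (matN c T) (X s) := by
    intro s
    have h1 : (⟨X s, isHomogeneous_X ℂ s⟩ : HM n 1) = linF n (Pi.single s 1) := by
      apply Subtype.ext
      show (X s : MvPolynomial (Fin (n + 1)) ℂ) = ∑ t, C ((Pi.single s 1 : Fin (n + 1) → ℂ) t) * X t
      rw [Finset.sum_eq_single s]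
      · simp
      · intro t _ ht
        simp [Pi.single_apply, ht]
      · intro h
        exact absurd (Finset.mem_univ _) h
    rw [h1, ← c.natural (trT T) (polE T 1) (linF n) (trT_injective hT) (polE_injective hT 1)
      linF_trT, vf_X]
    rfl
  intro e
  induction e with
  | zero =>
    intro p hp
    have h1 : polE T 0 = (1 : End ℂ (HM n 0)) := by
      refine LinearMap.ext fun q => Subtype.ext ?_
      show lsub T q.1 = q.1
      have h2 : q.1 = C (coeff 0 q.1) := eq_C_of_mem q.2
      rw [h2]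
      exact (lsub T).commutes _
    rw [h1, c.one]
    show (0 : MvPolynomial (Fin (n + 1)) ℂ) = vf (matN c T) p
    have h2 : p = C (coeff 0 p) := eq_C_of_mem hp
    rw [h2]
    exact ((vf (matN c T)).map_algebraMap _).symm
  | succ e ih =>
    intro p hp
    have hp' : p.IsHomogeneous (e + 1) := hp
    have hq : ∀ s, C ((e + 1 : ℂ)⁻¹) * pderiv s p ∈ HM n e := by
      intro s
      have h1 : (pderiv s p).IsHomogeneous e := hp'.pderiv
      have h2 := (isHomogeneous_C (Fin (n + 1)) ((e + 1 : ℂ)⁻¹)).mul h1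
      rwa [zero_add] at h2
    have he : (e + 1 : ℂ) ≠ 0 := by exact_mod_cast Nat.succ_ne_zero e
    have hsum : p = ∑ s, X s * (C ((e + 1 : ℂ)⁻¹) * pderiv s p) := by
      have h1 := hp'.sum_X_mul_pderiv
      have h2 : ∑ s, X s * (C ((e + 1 : ℂ)⁻¹) * pderiv s p) =
          C ((e + 1 : ℂ)⁻¹) * ∑ s, X s * pderiv s p := by
        rw [Finset.mul_sum]
        refine Finset.sum_congr rfl fun s _ => by ring
      rw [h2, h1, nsmul_eq_mul, ← mul_assoc]
      have h3 : (((e + 1 : ℕ) : MvPolynomial (Fin (n + 1)) ℂ)) = C (e + 1 : ℂ) := by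
        simp
      rw [h3, ← C_mul, inv_mul_cancel₀ he, C_1, one_mul]
    have hp1 : p ∈ HM n (1 + e) := by
      have := hp
      rwa [Nat.add_comm e 1] at this
    have hsum' : (⟨p, hp1⟩ : HM n (1 + e)) =
        ∑ s, mulP n 1 e ⟨X s, isHomogeneous_X ℂ s⟩ ⟨_, hq s⟩ := by
      apply Subtype.ext
      rw [Submodule.coe_sum]
      exact hsum
    rw [congr_e (Nat.add_comm e 1) p hp hp1, hsum', map_sum,
      Submodule.coe_sum]
    conv_rhs => rw [hsum]
    rw [map_sum]
    refine Finset.sum_congr rfl fun s _ => ?_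
    rw [← c.deriv (polE T 1) (polE T e) (polE T (1 + e)) (mulP n 1 e) (polE_injective hT 1)
      (polE_injective hT e) (polE_injective hT _) (fun p q => Subtype.ext (by
        show lsub T p.1 * lsub T q.1 = lsub T (p.1 * q.1)
        rw [map_mul]))]
    rw [(vf (matN c T)).leibniz, ← ih _ (hq s), ← hX s]
    show (c.L (polE T 1) _).1 * _ + X s * (c.L (polE T e) _).1 = _
    rw [smul_eq_mul, smul_eq_mul]
    ring

/-- **A lift of an automorphism gives lifts of vector fields.** -/
theorem lifts_of (c : Calc) (O : GOp E T) (hT : Function.Surjective T) :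
    LiftsTo E (matN c T) := by
  classical
  let D : Vec E.a n → Vec E.a n := fun G =>
    if h : ∃ d : ℤ, G ∈ SecM E d then (c.L (phiD O h.choose) ⟨G, h.choose_spec⟩ : Vec E.a n) else 0
  have hD : ∀ (d : ℤ) (G : Vec E.a n) (hG : G ∈ SecM E d), D G = c.L (phiD O d) ⟨G, hG⟩ := by
    intro d G hG
    have h : ∃ d : ℤ, G ∈ SecM E d := ⟨d, hG⟩
    show (if h : ∃ d : ℤ, G ∈ SecM E d then
      (c.L (phiD O h.choose) ⟨G, h.choose_spec⟩ : Vec E.a n) else 0) = _
    rw [dif_pos h]
    by_cases hG0 : G = 0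
    · have h1 : ∀ (d : ℤ) (hG : G ∈ SecM E d), (⟨G, hG⟩ : SecM E d) = 0 := fun d hG =>
        Subtype.ext hG0
      rw [h1, h1, map_zero, map_zero]
      rfl
    · obtain ⟨i, hi⟩ : ∃ i, G i ≠ 0 := by
        by_contra hc
        push Not at hc
        exact hG0 (funext hc)
      refine congr_d O ?_ G _ _
      have h1 := Sec.homZ (mem_SecM.1 h.choose_spec) i
      have h2 := Sec.homZ (mem_SecM.1 hG) i
      obtain ⟨k, hk, hk'⟩ := h1.resolve_left hi
      obtain ⟨k', hk1, hk1'⟩ := h2.resolve_left hi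
      have h3 := hk'.inj_right hk1' hi
      omega
  refine ⟨{ D := D, sec := ?_, add := ?_, leib := ?_ }⟩
  · intro d G hG
    rw [hD d G hG]
    exact (c.L (phiD O d) ⟨G, hG⟩).2
  · intro d G G' hG hG'
    have h1 : (fun i => G i + G' i) ∈ SecM E d := sec_add hG hG'
    rw [hD d _ h1, hD d G hG, hD d G' hG']
    have h2 : (⟨fun i => G i + G' i, h1⟩ : SecM E d) = ⟨G, hG⟩ + ⟨G', hG'⟩ := rfl
    rw [h2, map_add]
    rfl
  · intro d e p G hG hp
    rcases hp with rfl | ⟨k, hk, hp⟩
    · have h1 : (fun i => (0 : MvPolynomial (Fin (n + 1)) ℂ) * G i) ∈ SecM E d := by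
        have : (fun i => (0 : MvPolynomial (Fin (n + 1)) ℂ) * G i) = 0 := by
          funext i; rw [zero_mul]; rfl
        rw [this]
        exact Submodule.zero_mem _
      rw [hD d _ h1]
      have h2 : (⟨fun i => (0 : MvPolynomial (Fin (n + 1)) ℂ) * G i, h1⟩ : SecM E d) = 0 :=
        Subtype.ext (funext fun i => zero_mul _)
      rw [h2, map_zero]
      funext i
      rw [map_zero, zero_mul, zero_mul, add_zero]
      rfl
    · have hp' : p ∈ HM n k := hp
      have h1 := c.deriv (polE T k) (phiD O d) (phiD O (k + d)) (mulS E k d)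
        (polE_injective hT k) (phiD_injective O d) (phiD_injective O _) (fun p G => Subtype.ext (by
          show (fun i => lsub T p.1 * O.D G.1 i) = O.D (fun i => p.1 * G.1 i)
          exact (O.mul d k p.1 G.1 G.2 (homZ_of_mem p.2)).symm)) ⟨p, hp'⟩ ⟨G, hG⟩
      have h2 := hD (k + d) (fun i => p * G i) (sec_mul (homZ_of_mem hp') hG)
      rw [h2, hD d G hG]
      have h3 : (⟨fun i => p * G i, sec_mul (homZ_of_mem hp') hG⟩ : SecM E (k + d)) =
          mulS E k d ⟨p, hp'⟩ ⟨G, hG⟩ := rfl
      rw [h3, ← h1]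
      funext i
      rw [← polE_vf c hT k p hp']
      rfl

end Pool.Agent.TH189.Sg
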