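import Pool.Agent.TH189.Sg4
import Pool.Agent.W467.FO.B
import Pool.Agent.TH189.Aut4

/-!
Weights orthogonal to the relations of bounded degree between the eigenvalues of a symmetry give
symmetries.
-/

set_option autoImplicit false

open MvPolynomial H960VB H938TB Pool.Agent.W615 Pool.Agent.W467.FO

namespace Pool.Agent.TH189.Sg

open Module

variable {n : ℕ} {E : Bundle2 n} {T : (Fin (n + 1) → ℂ) →ₗ[ℂ] (Fin (n + 1) → ℂ)}

/-! ### monomials in an eigenbasis -/

section mono

variable {ι : Type} [Fintype ι] (y : Basis ι ℂ (Fin (n + 1) → ℂ)) {μ : ι → ℂ}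

/-- the monomial in the linear forms `y i` -/
noncomputable def mon (u : ι →₀ ℕ) : MvPolynomial (Fin (n + 1)) ℂ :=
  ∏ i, (linF n (y i) : MvPolynomial (Fin (n + 1)) ℂ) ^ u i

theorem mon_add (u v : ι →₀ ℕ) : mon y (u + v) = mon y u * mon y v := by
  rw [mon, mon, mon, ← Finset.prod_mul_distrib]
  refine Finset.prod_congr rfl fun i _ => ?_
  rw [Finsupp.add_apply, pow_add]

theorem mon_single [DecidableEq ι] (i : ι) :
    mon y (Finsupp.single i 1) = (linF n (y i) : MvPolynomial (Fin (n + 1)) ℂ) := by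
  rw [mon, Finset.prod_eq_single i]
  · rw [Finsupp.single_eq_same, pow_one]
  · intro j _ hj
    rw [Finsupp.single_apply, if_neg (Ne.symm hj), pow_zero]
  · intro h
    exact absurd (Finset.mem_univ _) h

theorem mon_mem (u : ι →₀ ℕ) : mon y u ∈ HM n u.degree := by
  have h1 : (mon y u).IsHomogeneous (∑ i, 1 * u i) := by
    refine IsHomogeneous.prod _ _ _ fun i _ => ?_
    exact IsHomogeneous.pow (show (linF n (y i) : MvPolynomial (Fin (n + 1)) ℂ).IsHomogeneous 1
      from (linF n (y i)).2) _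
  have h2 : ∑ i, 1 * u i = u.degree := by
    rw [Finsupp.degree_eq_sum]
    refine Finset.sum_congr rfl fun i _ => one_mul _
  rw [h2] at h1
  exact h1

theorem mon_span : ∀ (e : ℕ) (p : MvPolynomial (Fin (n + 1)) ℂ), p ∈ HM n e →
    p ∈ Submodule.span ℂ {q | ∃ u : ι →₀ ℕ, u.degree = e ∧ q = mon y u} := by
  classical
  have hX : ∀ s : Fin (n + 1), (X s : MvPolynomial (Fin (n + 1)) ℂ) =
      ∑ i, y.repr (Pi.single s 1) i • (linF n (y i) : MvPolynomial (Fin (n + 1)) ℂ) := by
    intro s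
    have h1 : (⟨X s, isHomogeneous_X ℂ s⟩ : HM n 1) = linF n (Pi.single s 1) := by
      apply Subtype.ext
      show (X s : MvPolynomial (Fin (n + 1)) ℂ) = ∑ t, C ((Pi.single s 1 : Fin (n + 1) → ℂ) t) * X t
      rw [Finset.sum_eq_single s]
      · simp
      · intro t _ ht
        simp [Pi.single_apply, ht]
      · intro h
        exact absurd (Finset.mem_univ _) h
    have h2 : (X s : MvPolynomial (Fin (n + 1)) ℂ) = linF n (Pi.single s 1) :=
      congrArg Subtype.val h1
    rw [h2]
    conv_lhs => rw [← y.sum_repr (Pi.single s 1)]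
    rw [map_sum, Submodule.coe_sum]
    refine Finset.sum_congr rfl fun i _ => ?_
    rw [map_smul]
    rfl
  intro e
  induction e with
  | zero =>
    intro p hp
    have h2 : p = C (coeff 0 p) := eq_C_of_mem hp
    have h3 : p = (coeff 0 p) • mon y 0 := by
      rw [mon]
      simp only [Finsupp.coe_zero, Pi.zero_apply, pow_zero, Finset.prod_const_one]
      rw [smul_eq_C_mul, mul_one]
      exact h2
    rw [h3]
    exact Submodule.smul_mem _ _ (Submodule.subset_span ⟨0, by simp, rfl⟩)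
  | succ e ih =>
    intro p hp
    have hp' : p.IsHomogeneous (e + 1) := hp
    have hq : ∀ s, C ((e + 1 : ℂ)⁻¹) * pderiv s p ∈ HM n e := by
      intro s
      have h1 : (pderiv s p).IsHomogeneous e := hp'.pderiv
      have h2 := (isHomogeneous_C (Fin (n + 1)) ((e + 1 : ℂ)⁻¹)).mul h1
      rwa [zero_add] at h2
    have he : (e + 1 : ℂ) ≠ 0 := by exact_mod_cast Nat.succ_ne_zero e
    have hsum : p = ∑ s, X s * (C ((e + 1 : ℂ)⁻¹) * pderiv s p) := by
      have h1 := hp'.sum_X_mul_pderiv
      have h2 : ∑ s, X s * (C ((e + 1 : ℂ)⁻¹) * pderiv s p) =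
          C ((e + 1 : ℂ)⁻¹) * ∑ s, X s * pderiv s p := by
        rw [Finset.mul_sum]
        refine Finset.sum_congr rfl fun s _ => by ring
      rw [h2, h1, nsmul_eq_mul, ← mul_assoc]
      have h3 : (((e + 1 : ℕ) : MvPolynomial (Fin (n + 1)) ℂ)) = C (e + 1 : ℂ) := by
        simp
      rw [h3, ← C_mul, inv_mul_cancel₀ he, C_1, one_mul]
    rw [hsum]
    refine Submodule.sum_mem _ fun s _ => ?_
    have hmul : ∀ q ∈ Submodule.span ℂ {q | ∃ u : ι →₀ ℕ, u.degree = e ∧ q = mon y u},
        X s * q ∈ Submodule.span ℂ {q | ∃ u : ι →₀ ℕ, u.degree = e + 1 ∧ q = mon y u} := by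
      intro q hq
      induction hq using Submodule.span_induction with
      | mem q hq =>
        obtain ⟨u, hu, rfl⟩ := hq
        rw [hX, Finset.sum_mul]
        refine Submodule.sum_mem _ fun i _ => ?_
        rw [smul_mul_assoc]
        refine Submodule.smul_mem _ _ (Submodule.subset_span ⟨Finsupp.single i 1 + u, ?_, ?_⟩)
        · rw [map_add, hu, Finsupp.degree_single, add_comm]
        · rw [mon_add, mon_single]
      | zero => rw [mul_zero]; exact Submodule.zero_mem _
      | add a b _ _ ha hb => rw [mul_add]; exact Submodule.add_mem _ ha hb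
      | smul c a _ ha => rw [mul_smul_comm]; exact Submodule.smul_mem _ _ ha
    exact hmul _ (ih _ (hq s))

/-- the monomials are eigenvectors of the substitution -/
theorem lsub_mon (hy : ∀ i, trT T (y i) = μ i • y i) (u : ι →₀ ℕ) :
    lsub T (mon y u) = (∏ i, μ i ^ u i) • mon y u := by
  have h1 : ∀ i, lsub T (linF n (y i) : MvPolynomial (Fin (n + 1)) ℂ) =
      μ i • (linF n (y i) : MvPolynomial (Fin (n + 1)) ℂ) := by
    intro i
    have h2 := congrArg Subtype.val (linF_trT (T := T) (y i))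
    rw [hy i, map_smul] at h2
    exact h2.symm
  rw [mon, map_prod]
  have h2 : ∀ i, lsub T ((linF n (y i) : MvPolynomial (Fin (n + 1)) ℂ) ^ u i) =
      (μ i ^ u i) • (linF n (y i) : MvPolynomial (Fin (n + 1)) ℂ) ^ u i := by
    intro i
    rw [map_pow, h1, smul_pow]
  rw [Finset.prod_congr rfl fun i _ => h2 i]
  have h3 : ∀ s : Finset ι, ∏ i ∈ s, ((μ i ^ u i) •
      (linF n (y i) : MvPolynomial (Fin (n + 1)) ℂ) ^ u i) =
      (∏ i ∈ s, μ i ^ u i) • ∏ i ∈ s, (linF n (y i) : MvPolynomial (Fin (n + 1)) ℂ) ^ u i := by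
    classical
    intro s
    induction s using Finset.induction_on with
    | empty => simp
    | insert a s ha ih =>
      rw [Finset.prod_insert ha, Finset.prod_insert ha, Finset.prod_insert ha, ih, smul_mul_smul_comm]
  exact h3 _

/-- the vector field with weights `w` in the basis `y` -/
noncomputable def matW (w : ι → ℤ) : Matrix (Fin (n + 1)) (Fin (n + 1)) ℂ := fun s t =>
  (y.constr ℂ fun i => (w i : ℂ) • y i : (Fin (n + 1) → ℂ) →ₗ[ℂ] (Fin (n + 1) → ℂ))
    (Pi.single s 1) t

theorem matW_mulVec (w : ι → ℤ) (i : ι) : (matW y w).transpose.mulVec (y i) = (w i : ℂ) • y i := by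
  set F : (Fin (n + 1) → ℂ) →ₗ[ℂ] (Fin (n + 1) → ℂ) := y.constr ℂ fun i => (w i : ℂ) • y i with hF
  have h0 : F (y i) = (w i : ℂ) • y i := y.constr_basis ℂ _ i
  rw [← h0]
  have h1 : y i = ∑ s, y i s • (Pi.single s 1 : Fin (n + 1) → ℂ) := by
    funext k
    simp [Finset.sum_apply, Pi.single_apply]
  conv_rhs => rw [h1]
  rw [map_sum]
  funext t
  rw [Finset.sum_apply, Matrix.mulVec, dotProduct]
  refine Finset.sum_congr rfl fun s _ => ?_
  rw [map_smul, Pi.smul_apply, smul_eq_mul, Matrix.transpose_apply, mul_comm]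
  rfl

theorem vf_linF (w : ι → ℤ) (i : ι) : vf (matW y w) (linF n (y i) : MvPolynomial (Fin (n + 1)) ℂ) =
    (w i : ℂ) • (linF n (y i) : MvPolynomial (Fin (n + 1)) ℂ) := by
  have h1 : (linF n (y i) : MvPolynomial (Fin (n + 1)) ℂ) = ∑ s, y i s • X s := by
    show ∑ s, C (y i s) * X s = _
    refine Finset.sum_congr rfl fun s _ => ?_
    rw [smul_eq_C_mul]
  have h2 := congrArg (fun z => (linF n z : MvPolynomial (Fin (n + 1)) ℂ)) (matW_mulVec y w i)
  have h3 : (linF n ((w i : ℂ) • y i) : MvPolynomial (Fin (n + 1)) ℂ) =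
      (w i : ℂ) • (linF n (y i) : MvPolynomial (Fin (n + 1)) ℂ) := by
    rw [map_smul]
    rfl
  rw [← h3, ← matW_mulVec, h1, map_sum]
  show _ = ∑ t, C ((matW y w).transpose.mulVec (y i) t) * X t
  have h4 : ∀ s, vf (matW y w) (y i s • (X s : MvPolynomial (Fin (n + 1)) ℂ)) =
      ∑ t, C (matW y w s t * y i s) * X t := by
    intro s
    rw [Derivation.map_smul, vf_X, Finset.smul_sum]
    refine Finset.sum_congr rfl fun t _ => ?_
    rw [smul_eq_C_mul, C_mul]
    ring
  rw [Finset.sum_congr rfl fun s _ => h4 s, Finset.sum_comm]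
  refine Finset.sum_congr rfl fun t _ => ?_
  rw [Matrix.mulVec, dotProduct, map_sum, Finset.sum_mul]
  rfl

theorem vf_mon (w : ι → ℤ) (u : ι →₀ ℕ) : vf (matW y w) (mon y u) =
    ((∑ i, w i * (u i : ℤ) : ℤ) : ℂ) • mon y u := by
  classical
  have hpow : ∀ (i : ι) (k : ℕ), vf (matW y w)
      ((linF n (y i) : MvPolynomial (Fin (n + 1)) ℂ) ^ k) =
      ((w i * (k : ℤ) : ℤ) : ℂ) • (linF n (y i) : MvPolynomial (Fin (n + 1)) ℂ) ^ k := by
    intro i k
    induction k with
    | zero => simp
    | succ k ih =>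
      rw [pow_succ, Derivation.leibniz, ih, vf_linF]
      simp only [smul_eq_mul, smul_eq_C_mul]
      push_cast
      simp only [C_mul, C_add, C_1, map_add, map_mul]
      ring
  have h3 : ∀ s : Finset ι, vf (matW y w) (∏ i ∈ s,
      (linF n (y i) : MvPolynomial (Fin (n + 1)) ℂ) ^ u i) =
      ((∑ i ∈ s, w i * (u i : ℤ) : ℤ) : ℂ) •
        ∏ i ∈ s, (linF n (y i) : MvPolynomial (Fin (n + 1)) ℂ) ^ u i := by
    intro s
    induction s using Finset.induction_on with
    | empty => simp
    | insert a s ha ih =>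
      rw [Finset.prod_insert ha, Finset.sum_insert ha, Derivation.leibniz, ih, hpow]
      simp only [smul_eq_mul, smul_eq_C_mul, Int.cast_add, C_add]
      ring
  exact h3 _

end mono

end Pool.Agent.TH189.Sg
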