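import Pool.Agent.TH189.Sg5

/-!
Weights orthogonal to the relations of bounded degree between the eigenvalues of a symmetry give
symmetries.
-/

set_option autoImplicit false

open MvPolynomial H960VB H938TB Pool.Agent.W615 Pool.Agent.W467.FO

namespace Pool.Agent.TH189.Sg

open Module

variable {n : ℕ} {E : Bundle2 n} {T : (Fin (n + 1) → ℂ) →ₗ[ℂ] (Fin (n + 1) → ℂ)}

section spec

variable {ι : Type} [Fintype ι] (y : Basis ι ℂ (Fin (n + 1) → ℂ)) {μ : ι → ℂ}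

/-- a linear map which is given on the monomials by a function of the eigenvalue -/
theorem fc_mon (hy : ∀ i, trT T (y i) = μ i • y i) (e : ℕ) (κ : ℂ) (φ : ℂ → ℂ)
    (B : MvPolynomial (Fin (n + 1)) ℂ →ₗ[ℂ] MvPolynomial (Fin (n + 1)) ℂ)
    (hB : ∀ u : ι →₀ ℕ, u.degree = e → B (mon y u) = φ (κ * ∏ i, μ i ^ u i) • mon y u)
    (P : HM n e) : (fc (κ • polE T e) φ P : MvPolynomial (Fin (n + 1)) ℂ) = B P := by
  have key : ∀ q ∈ Submodule.span ℂ {q | ∃ u : ι →₀ ℕ, u.degree = e ∧ q = mon y u},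
      ∃ hq : q ∈ HM n e, (fc (κ • polE T e) φ ⟨q, hq⟩ : MvPolynomial (Fin (n + 1)) ℂ) = B q := by
    intro q hq
    induction hq using Submodule.span_induction with
    | mem q hq =>
      obtain ⟨u, hu, rfl⟩ := hq
      have hm : mon y u ∈ HM n e := by
        have := mon_mem y u
        rwa [hu] at this
      refine ⟨hm, ?_⟩
      have h1 : (⟨mon y u, hm⟩ : HM n e) ∈
          (κ • polE T e).maxGenEigenspace (κ * ∏ i, μ i ^ u i) := by
        rw [End.mem_maxGenEigenspace]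
        refine ⟨1, ?_⟩
        rw [pow_one, LinearMap.sub_apply, sub_eq_zero]
        apply Subtype.ext
        show κ • lsub T (mon y u) = (κ * ∏ i, μ i ^ u i) • mon y u
        rw [lsub_mon y hy, smul_smul]
      rw [fc_apply _ _ h1, hB u hu]
      rfl
    | zero =>
      refine ⟨Submodule.zero_mem _, ?_⟩
      have h1 : (⟨0, Submodule.zero_mem _⟩ : HM n e) = 0 := rfl
      rw [h1, map_zero, map_zero]
      rfl
    | add a b _ _ ha hb =>
      obtain ⟨ha, ha'⟩ := ha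
      obtain ⟨hb, hb'⟩ := hb
      refine ⟨Submodule.add_mem _ ha hb, ?_⟩
      have h1 : (⟨a + b, Submodule.add_mem _ ha hb⟩ : HM n e) = ⟨a, ha⟩ + ⟨b, hb⟩ := rfl
      rw [h1, map_add, map_add, Submodule.coe_add, ha', hb']
    | smul c a _ ha =>
      obtain ⟨ha, ha'⟩ := ha
      refine ⟨Submodule.smul_mem _ c ha, ?_⟩
      have h1 : (⟨c • a, Submodule.smul_mem _ c ha⟩ : HM n e) = c • ⟨a, ha⟩ := rfl
      rw [h1, map_smul, map_smul, Submodule.coe_smul, ha']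
  obtain ⟨_, h⟩ := key P.1 (mon_span y e P.1 P.2)
  exact h

/-- the eigenvalues on the homogeneous polynomials -/
theorem exists_exp (hy : ∀ i, trT T (y i) = μ i • y i) (e : ℕ) (κ : ℂ) {β : ℂ} {P : HM n e}
    (hP : P ∈ (κ • polE T e).maxGenEigenspace β) (hP0 : P ≠ 0) :
    ∃ u : ι →₀ ℕ, u.degree = e ∧ β = κ * ∏ i, μ i ^ u i := by
  classical
  by_contra hc
  push Not at hc
  have h1 := fc_mon y hy e κ (fun z => if ∃ u : ι →₀ ℕ, u.degree = e ∧ z = κ * ∏ i, μ i ^ u i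
    then 1 else 0) LinearMap.id (fun u hu => by
      rw [if_pos ⟨u, hu, rfl⟩, one_smul]
      rfl) P
  rw [fc_apply _ _ hP, if_neg (by
    rintro ⟨u, hu, h⟩
    exact hc u hu h), zero_smul] at h1
  exact hP0 (Subtype.ext h1.symm)

/-- the vector field on a generalised eigenvector -/
theorem vf_gen (hy : ∀ i, trT T (y i) = μ i • y i) (e : ℕ) {κ : ℂ} (hκ : κ ≠ 0) (w : ι → ℤ)
    (hw : ∀ u u' : ι →₀ ℕ, u.degree = e → u'.degree = e →
      ∏ i, μ i ^ u i = ∏ i, μ i ^ u' i → ∑ i, w i * (u i : ℤ) = ∑ i, w i * (u' i : ℤ))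
    (u : ι →₀ ℕ) (hu : u.degree = e) {P : HM n e}
    (hP : P ∈ (κ • polE T e).maxGenEigenspace (κ * ∏ i, μ i ^ u i)) :
    vf (matW y w) (P : MvPolynomial (Fin (n + 1)) ℂ) =
      ((∑ i, w i * (u i : ℤ) : ℤ) : ℂ) • (P : MvPolynomial (Fin (n + 1)) ℂ) := by
  classical
  let φ : ℂ → ℂ := fun z => if h : ∃ u : ι →₀ ℕ, u.degree = e ∧ z = κ * ∏ i, μ i ^ u i
    then ((∑ i, w i * (h.choose i : ℤ) : ℤ) : ℂ) else 0
  have hφ : ∀ u : ι →₀ ℕ, u.degree = e → φ (κ * ∏ i, μ i ^ u i) =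
      ((∑ i, w i * (u i : ℤ) : ℤ) : ℂ) := by
    intro u hu
    have h : ∃ u' : ι →₀ ℕ, u'.degree = e ∧ κ * ∏ i, μ i ^ u i = κ * ∏ i, μ i ^ u' i :=
      ⟨u, hu, rfl⟩
    have h1 : φ (κ * ∏ i, μ i ^ u i) = ((∑ i, w i * (h.choose i : ℤ) : ℤ) : ℂ) := dif_pos h
    rw [h1]
    obtain ⟨h2, h3⟩ := h.choose_spec
    rw [hw h.choose u h2 hu (mul_left_cancel₀ hκ h3).symm]
  have h1 := fc_mon y hy e κ φ (vf (matW y w)).toLinearMap (fun u hu => by
    rw [hφ u hu]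
    exact vf_mon y w u) P
  rw [fc_apply _ _ hP, hφ u hu] at h1
  exact h1.symm

end spec

/-! ### triangles -/

section tri

variable (W : Wedge (triv E)) {d : ℤ}

/-- generalised eigenvectors generate -/
theorem exists_gen_pair (hd : GenW W d) (F : End ℂ (S0 E d)) (x : Fin (n + 1) → ℂ) (hx : x ≠ 0) :
    ∃ (l m : ℂ) (s t : S0 E d), s ∈ F.maxGenEigenspace l ∧ t ∈ F.maxGenEigenspace m ∧
      eval x (W.wd s t) ≠ 0 := by
  by_contra hc
  push Not at hc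
  obtain ⟨G, G', hG, hG', h⟩ := hd x hx
  apply h
  have h4 : ((wdB W d d).compr₂ ((aeval x : MvPolynomial (Fin (n + 1)) ℂ →ₐ[ℂ] ℂ).toLinearMap)) =
      0 := by
    refine bilin_ext F F fun l m a ha b hb => ?_
    show aeval x (W.wd a b) = 0
    rw [MvPolynomial.aeval_eq_eval]
    exact hc l m a b ha hb
  have h5 := LinearMap.congr_fun (LinearMap.congr_fun h4 ⟨G, hG⟩) ⟨G', hG'⟩
  have h6 : aeval x (W.wd G G') = (0 : ℂ) := h5
  rwa [MvPolynomial.aeval_eq_eval] at h6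

/-- parallel sections -/
theorem par_trans {G H K : Vec E.a n} (hG : Ker E G) (hH : Ker E H) (hK : Ker E K)
    (hH0 : ∃ i, H i ≠ 0) (h1 : W.wd G H = 0) (h2 : W.wd H K = 0) : W.wd G K = 0 := by
  obtain ⟨i, hi⟩ := hH0
  have h3 := W.three G H K hG hH hK i
  rw [h1, h2] at h3
  have h4 : W.wd G K * H i = 0 := by linear_combination -h3
  exact (mul_eq_zero.1 h4).resolve_right hi

/-- **Triangles.**  If `E` does not split, two independent sections have a third eigenvector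
independent of both. -/
theorem exists_third (hn : 1 ≤ n) (hE : ¬ E.Splits) (hd : GenW W d) (F : End ℂ (S0 E d))
    {s t : S0 E d} (hst : W.wd s t ≠ 0) :
    ∃ (l : ℂ) (r : S0 E d), r ∈ F.maxGenEigenspace l ∧ W.wd s r ≠ 0 ∧ W.wd t r ≠ 0 := by
  by_contra hc
  push Not at hc
  apply hE
  have hs0 : ∃ i, (s : Vec E.a n) i ≠ 0 := by
    by_contra h
    push Not at h
    exact hst (wd_zero_left W s.2.ker t.2.ker h)
  have ht0 : ∃ i, (t : Vec E.a n) i ≠ 0 := by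
    by_contra h
    push Not at h
    exact hst (wd_zero_right W s.2.ker t.2.ker h)
  obtain ⟨δ, g, s', hg0, hg, hs', hps, hgs⟩ := exists_prm s.2 hs0
  obtain ⟨δ', g', t', hg0', hg', ht', hpt, hgt⟩ := exists_prm t.2 ht0
  have hs1 : (s : Vec E.a n) = fun i => g * s' i := funext hgs
  have ht1 : (t : Vec E.a n) = fun i => g' * t' i := funext hgt
  -- parallel to the primitive sections
  have ps : ∀ r : S0 E d, W.wd s r = 0 → ∃ f : MvPolynomial (Fin (n + 1)) ℂ,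
      (r : Vec E.a n) = fun i => f * s' i := by
    intro r hr
    rw [hs1, W.smul _ _ _ hs'.ker r.2.ker] at hr
    obtain ⟨f, hf⟩ := hps.dvd_wd W hs'.ker r.2.ker ((mul_eq_zero.1 hr).resolve_left hg0)
    exact ⟨f, funext hf⟩
  have pt : ∀ r : S0 E d, W.wd t r = 0 → ∃ f : MvPolynomial (Fin (n + 1)) ℂ,
      (r : Vec E.a n) = fun i => f * t' i := by
    intro r hr
    rw [ht1, W.smul _ _ _ ht'.ker r.2.ker] at hr
    obtain ⟨f, hf⟩ := hpt.dvd_wd W ht'.ker r.2.ker ((mul_eq_zero.1 hr).resolve_left hg0')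
    exact ⟨f, funext hf⟩
  have hor : ∀ (l : ℂ) (r : S0 E d), r ∈ F.maxGenEigenspace l →
      (∃ f : MvPolynomial (Fin (n + 1)) ℂ, (r : Vec E.a n) = fun i => f * s' i) ∨
      ∃ f : MvPolynomial (Fin (n + 1)) ℂ, (r : Vec E.a n) = fun i => f * t' i := by
    intro l r hr
    by_cases h : W.wd s r = 0
    · exact Or.inl (ps r h)
    · exact Or.inr (pt r (hc l r hr h))
  refine splits_of_no_zero W hn hs' ht' fun x hx h0 => ?_
  obtain ⟨l, m, a, b, ha, hb, hab⟩ := exists_gen_pair W hd F x hx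
  apply hab
  rcases hor l a ha with ⟨f, hf⟩ | ⟨f, hf⟩ <;> rcases hor m b hb with ⟨f', hf'⟩ | ⟨f', hf'⟩
  · rw [hf, hf', W.smul _ _ _ hs'.ker (ker_mul hs'.ker _), wd_mul_right W hs'.ker hs'.ker,
      wd_self W hs'.ker]
    simp
  · rw [hf, hf', W.smul _ _ _ hs'.ker (ker_mul ht'.ker _), wd_mul_right W ht'.ker hs'.ker,
      map_mul, map_mul, h0]
    simp
  · rw [hf, hf', W.smul _ _ _ ht'.ker (ker_mul hs'.ker _), wd_mul_right W hs'.ker ht'.ker,
      W.anti t' s' ht'.ker hs'.ker, map_mul, map_mul, map_neg, h0]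
    simp
  · rw [hf, hf', W.smul _ _ _ ht'.ker (ker_mul ht'.ker _), wd_mul_right W ht'.ker ht'.ker,
      wd_self W ht'.ker]
    simp

/-- the wedge product with values in the homogeneous polynomials -/
noncomputable def wdH (W : Wedge (triv E)) (d : ℤ) :
    S0 E d →ₗ[ℂ] S0 E d →ₗ[ℂ] HM n (d + d + W.κ.1).toNat :=
  LinearMap.mk₂ ℂ (fun G H => ⟨W.wd G H, mem_HM_of_homZ (wd_homZ W G.2 H.2)⟩)
    (fun G G' H => Subtype.ext (LinearMap.congr_fun ((wdB W d d).map_add G G') H))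
    (fun c G H => Subtype.ext (LinearMap.congr_fun ((wdB W d d).map_smul c G) H))
    (fun G H H' => Subtype.ext ((wdB W d d G).map_add H H'))
    (fun c G H => Subtype.ext ((wdB W d d G).map_smul c H))

theorem wdH_coe (G H : S0 E d) : (wdH W d G H : MvPolynomial (Fin (n + 1)) ℂ) = W.wd G H := rfl

end tri

/-- the lift as an endomorphism -/
noncomputable def linE (O : GOp E T) (d : ℤ) : End ℂ (S0 E d) := O.lin d

/-! ### weights -/

section weights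

variable {ι : Type} [Fintype ι] (y : Basis ι ℂ (Fin (n + 1) → ℂ)) {μ : ι → ℂ}
variable (W : Wedge (triv E)) {d : ℤ}

/-- the value of the derivation on an eigenvalue -/
def TriV {ι : Type} [Fintype ι] (μ : ι → ℂ) (w : ι → ℤ) (c : ℕ) (κ : ℂ) (ν B : ℂ) : Prop :=
  ∃ (ν₁ ν₂ : ℂ) (u₁ u₂ u₃ : ι →₀ ℕ), u₁.degree = c ∧ u₂.degree = c ∧ u₃.degree = c ∧
    ν * ν₁ = κ * ∏ i, μ i ^ u₁ i ∧ ν * ν₂ = κ * ∏ i, μ i ^ u₂ i ∧
    ν₁ * ν₂ = κ * ∏ i, μ i ^ u₃ i ∧
    2 * B = ((∑ i, w i * (u₁ i : ℤ) + ∑ i, w i * (u₂ i : ℤ) - ∑ i, w i * (u₃ i : ℤ) : ℤ) : ℂ)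

theorem TriV.unique {w : ι → ℤ} {c : ℕ} {κ : ℂ} (hκ : κ ≠ 0)
    (hw : ∀ u u' : ι →₀ ℕ, u.degree = 3 * c → u'.degree = 3 * c →
      ∏ i, μ i ^ u i = ∏ i, μ i ^ u' i → ∑ i, w i * (u i : ℤ) = ∑ i, w i * (u' i : ℤ))
    {ν B B' : ℂ} (h : TriV μ w c κ ν B) (h' : TriV μ w c κ ν B') : B = B' := by
  obtain ⟨ν₁, ν₂, u₁, u₂, u₃, d1, d2, d3, e1, e2, e3, hB⟩ := h
  obtain ⟨ν₁', ν₂', u₁', u₂', u₃', d1', d2', d3', e1', e2', e3', hB'⟩ := h'
  have hprod : ∀ a b c : ι →₀ ℕ, ∏ i, μ i ^ (a + b + c) i =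
      (∏ i, μ i ^ a i) * (∏ i, μ i ^ b i) * ∏ i, μ i ^ c i := by
    intro a b c
    rw [← Finset.prod_mul_distrib, ← Finset.prod_mul_distrib]
    refine Finset.prod_congr rfl fun i _ => ?_
    rw [Finsupp.add_apply, Finsupp.add_apply, pow_add, pow_add]
  have hsum : ∀ a b c : ι →₀ ℕ, ∑ i, w i * (((a + b + c) i : ℕ) : ℤ) =
      ∑ i, w i * (a i : ℤ) + ∑ i, w i * (b i : ℤ) + ∑ i, w i * (c i : ℤ) := by
    intro a b c
    rw [← Finset.sum_add_distrib, ← Finset.sum_add_distrib]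
    refine Finset.sum_congr rfl fun i _ => ?_
    rw [Finsupp.add_apply, Finsupp.add_apply]
    push_cast
    ring
  have h1 := hw (u₁ + u₂ + u₃') (u₁' + u₂' + u₃) (by rw [map_add, map_add, d1, d2, d3']; ring)
    (by rw [map_add, map_add, d1', d2', d3]; ring) (by
      rw [hprod, hprod]
      apply mul_left_cancel₀ (pow_ne_zero 3 hκ)
      linear_combination (-(κ * ∏ i, μ i ^ u₂ i) * (κ * ∏ i, μ i ^ u₃' i)) * e1 -
        (ν * ν₁ * (κ * ∏ i, μ i ^ u₃' i)) * e2 - (ν * ν₁ * ν * ν₂) * e3' +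
        (κ * ∏ i, μ i ^ u₂' i) * (κ * ∏ i, μ i ^ u₃ i) * e1' +
        (ν * ν₁' * (κ * ∏ i, μ i ^ u₃ i)) * e2' + (ν * ν₁' * ν * ν₂') * e3)
  rw [hsum, hsum] at h1
  have h2 : (2 : ℂ) * B = 2 * B' := by
    rw [hB, hB']
    congr 1
    omega
  exact mul_left_cancel₀ two_ne_zero h2

/-- **Weights orthogonal to the relations lift.** -/
theorem lift_weights (hn : 1 ≤ n) (hE : ¬ E.Splits) (hd : GenW W d) (O : GOp E T)
    (hT : Function.Injective T) (hy : ∀ i, trT T (y i) = μ i • y i) (w : ι → ℤ)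
    (hw : ∀ u u' : ι →₀ ℕ, u.degree = u'.degree → u.degree ≤ 3 * (d + d + W.κ.1).toNat →
      ∏ i, μ i ^ u i = ∏ i, μ i ^ u' i → ∑ i, w i * (u i : ℤ) = ∑ i, w i * (u' i : ℤ)) :
    LiftsTo E (matW y w) := by
  classical
  obtain ⟨κ, hκ, hdet⟩ := O.det W hn hT
  set c := (d + d + W.κ.1).toNat with hc
  have hw3 : ∀ u u' : ι →₀ ℕ, u.degree = 3 * c → u'.degree = 3 * c →
      ∏ i, μ i ^ u i = ∏ i, μ i ^ u' i → ∑ i, w i * (u i : ℤ) = ∑ i, w i * (u' i : ℤ) :=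
    fun u u' h h' hp => hw u u' (by rw [h, h']) (by rw [h]) hp
  have hw1 : ∀ u u' : ι →₀ ℕ, u.degree = c → u'.degree = c →
      ∏ i, μ i ^ u i = ∏ i, μ i ^ u' i → ∑ i, w i * (u i : ℤ) = ∑ i, w i * (u' i : ℤ) :=
    fun u u' h h' hp => hw u u' (by rw [h, h']) (by rw [h]; omega) hp
  have hcomp : ∀ s t : S0 E d, wdH W d (linE O d s) (linE O d t) =
      (κ • polE T c) (wdH W d s t) := by
    intro s t
    apply Subtype.ext
    show W.wd (O.D s) (O.D t) = κ • lsub T (W.wd s t)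
    rw [hdet d d s t s.2 t.2, smul_eq_C_mul]
  have hmul : ∀ {l m : ℂ} {s t : S0 E d}, s ∈ (linE O d).maxGenEigenspace l →
      t ∈ (linE O d).maxGenEigenspace m →
      wdH W d s t ∈ (κ • polE T c).maxGenEigenspace (l * m) := fun hs ht =>
    gen_mul hcomp hs ht
  have hexp : ∀ {l m : ℂ} {s t : S0 E d}, s ∈ (linE O d).maxGenEigenspace l →
      t ∈ (linE O d).maxGenEigenspace m → W.wd s t ≠ 0 →
      ∃ u : ι →₀ ℕ, u.degree = c ∧ l * m = κ * ∏ i, μ i ^ u i := fun {l m s t} hs ht h0 =>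
    exists_exp y hy c κ (hmul hs ht) (fun h => h0 (by rw [← wdH_coe, h]; rfl))
  let b : ℂ → ℂ := fun ν => if h : ∃ B, TriV μ w c κ ν B then h.choose else 0
  have hb : ∀ {ν B : ℂ}, TriV μ w c κ ν B → b ν = B := by
    intro ν B h
    have h' : ∃ B, TriV μ w c κ ν B := ⟨B, h⟩
    have h1 : b ν = h'.choose := dif_pos h'
    rw [h1]
    exact TriV.unique hκ hw3 h'.choose_spec h
  refine lifts_of_pairing (N := matW y w) (Δ := fc (linE O d) b) W hn hd ?_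
  have hbil : (wdB W d d).compr₂ (vf (matW y w)).toLinearMap =
      (wdB W d d).compl₁₂ (fc (linE O d) b) LinearMap.id +
      (wdB W d d).compl₁₂ LinearMap.id (fc (linE O d) b) := by
    refine gen_ext (linE O d) fun l s hs => gen_ext (linE O d) fun m t ht => ?_
    show vf (matW y w) (W.wd s t) =
      wdB W d d (fc (linE O d) b s) t +
        wdB W d d s (fc (linE O d) b t)
    rw [fc_apply _ _ hs, fc_apply _ _ ht, map_smul, LinearMap.smul_apply, map_smul, ← add_smul,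
      wdB_apply]
    by_cases h0 : W.wd s t = 0
    · rw [h0, map_zero, smul_zero]
    obtain ⟨u, hu, hlm⟩ := hexp hs ht h0
    obtain ⟨q, r, hr, hsr, htr⟩ := exists_third W hn hE hd (linE O d) h0
    obtain ⟨u₂, hu₂, hlq⟩ := hexp hs hr hsr
    obtain ⟨u₃, hu₃, hmq⟩ := hexp ht hr htr
    have hbl : b l = ((∑ i, w i * (u i : ℤ) + ∑ i, w i * (u₂ i : ℤ) -
        ∑ i, w i * (u₃ i : ℤ) : ℤ) : ℂ) / 2 := hb ⟨m, q, u, u₂, u₃, hu, hu₂, hu₃, hlm, hlq, hmq,
      by ring⟩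
    have hbm : b m = ((∑ i, w i * (u i : ℤ) + ∑ i, w i * (u₃ i : ℤ) -
        ∑ i, w i * (u₂ i : ℤ) : ℤ) : ℂ) / 2 := hb ⟨l, q, u, u₃, u₂, hu, hu₃, hu₂,
      by rw [mul_comm, hlm], hmq, hlq, by ring⟩
    have h1 : b l + b m = ((∑ i, w i * (u i : ℤ) : ℤ) : ℂ) := by
      rw [hbl, hbm]
      push_cast
      ring
    rw [h1]
    have h2 := hmul hs ht
    rw [hlm] at h2
    have h3 := vf_gen y hy c hκ w hw1 u hu h2
    rw [wdH_coe] at h3
    exact h3
  intro s t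
  exact LinearMap.congr_fun (LinearMap.congr_fun hbil s) t

end weights

end Pool.Agent.TH189.Sg
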