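import Pool.Agent.TH189.Sg6
import Pool.Agent.TH189.Aut6

/-!
The order of a linear symmetry of an indecomposable bundle of rank two.
-/

set_option autoImplicit false

namespace Pool.Agent.TH189.Aut

open Finset

section lattice

variable {ι : Type} [Fintype ι] [DecidableEq ι]

/-- Uniform version: a common multiple for all the vectors in the rational span. -/
theorem exists_multiple_unif [Nonempty ι] (D : Set (ι → ℤ)) (hD : ∀ v ∈ D, ∑ i, v i = 0) (b : ℕ)
    (hb1 : 1 ≤ b) (hb : ∀ v ∈ D, ∑ i, |v i| ≤ b) :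
    ∃ m : ℕ, 0 < m ∧ m ≤ b ^ (Fintype.card ι - 1) ∧ ∀ x : ι → ℤ,
      toQ x ∈ Submodule.span ℚ (toQ '' D) →
      ∃ (T : Finset ι) (c : ι → ℤ) (v : ι → ι → ℤ), (∀ t ∈ T, v t ∈ D) ∧
        (m : ℤ) • x = ∑ t ∈ T, c t • v t := by
  classical
  obtain ⟨B, hBD, hBs, hBi⟩ := exists_linearIndependent ℚ (toQ '' D)
  have hBi' : LinearIndepOn ℚ id B := hBi
  obtain ⟨C, hCt, hBC, hCs, hCi⟩ := exists_linearIndepOn_extension hBi'
    (Set.subset_union_left (s := B) (t := Set.range fun l : ι => (Pi.single l 1 : ι → ℚ)))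
  rw [Set.image_id, Set.image_id] at hCs
  have hCi' : LinearIndependent ℚ ((↑) : C → (ι → ℚ)) := hCi
  haveI : Finite C := hCi'.finite
  haveI := Fintype.ofFinite C
  have htop : Submodule.span ℚ C = ⊤ := by
    rw [eq_top_iff]
    intro y _
    have h1 : y = ∑ l, y l • (Pi.single l 1 : ι → ℚ) := by
      funext k
      simp [Finset.sum_apply, Pi.single_apply]
    rw [h1]
    exact Submodule.sum_mem _ fun l _ => Submodule.smul_mem _ _
      (hCs (Set.mem_union_right _ ⟨l, rfl⟩))
  have hcard : Fintype.card ι = Fintype.card C := by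
    have h1 := finrank_span_eq_card hCi'
    rw [Subtype.range_coe, htop, finrank_top, Module.finrank_fintype_fun_eq_card] at h1
    exact h1
  let e : ι ≃ C := Fintype.equivOfCardEq hcard
  have hch : ∀ y : C, ∃ v : ι → ℤ, toQ v = y ∧ ((y : ι → ℚ) ∈ B → v ∈ D) ∧
      ((y : ι → ℚ) ∉ B → ∑ i, |v i| = 1) := by
    intro y
    by_cases hy : (y : ι → ℚ) ∈ B
    · obtain ⟨v, hv, hvy⟩ := hBD hy
      exact ⟨v, hvy, fun _ => hv, fun h => absurd hy h⟩
    · obtain ⟨l, hl⟩ := (hCt y.2).resolve_left hy
      refine ⟨Pi.single l 1, ?_, fun h => absurd h hy, fun _ => ?_⟩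
      · rw [← hl]
        funext k
        simp only [toQ, Pi.single_apply]
        split_ifs <;> simp
      · have : ∀ k, |(Pi.single l 1 : ι → ℤ) k| = if k = l then 1 else 0 := by
          intro k
          rw [Pi.single_apply]
          split_ifs <;> simp
        rw [Finset.sum_congr rfl fun k _ => this k, Finset.sum_ite_eq' Finset.univ l]
        simp
  choose u hu1 hu2 hu3 using hch
  set v : ι → ι → ℤ := fun i => u (e i) with hv
  have hli : LinearIndependent ℚ fun i => toQ (v i) := by
    have h1 : (fun i => toQ (v i)) = fun i => ((e i : C) : ι → ℚ) := funext fun i => hu1 (e i)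
    rw [h1]
    exact hCi'.comp e e.injective
  set M : Matrix ι ι ℤ := Matrix.of v with hM
  have hsumQ : ∀ a : ι → ℤ, toQ (∑ i, a i • v i) = ∑ i, (a i : ℚ) • toQ (v i) := by
    intro a
    funext j
    simp only [toQ, Finset.sum_apply, Pi.smul_apply, smul_eq_mul, Int.cast_sum, Int.cast_mul]
  have hdet : M.det ≠ 0 := by
    intro h0
    obtain ⟨c, hc0, hc⟩ := Matrix.exists_vecMul_eq_zero_iff.2 h0
    have hc' : ∑ i, c i • v i = 0 := by
      funext j
      have := congrFun hc j
      rw [Finset.sum_apply]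
      exact this
    have h5 := Fintype.linearIndependent_iff.1 hli (fun i => (c i : ℚ)) (by
      rw [← hsumQ, hc']
      funext j
      exact Int.cast_zero)
    apply hc0
    funext i
    exact_mod_cast h5 i
  have hadj : ∀ j, M.det • (Pi.single j 1 : ι → ℤ) = ∑ i, M.adjugate j i • v i := by
    intro j
    have h1 := congrFun (Matrix.adjugate_mul M) j
    funext k
    have h2 := congrFun h1 k
    rw [Matrix.mul_apply] at h2
    rw [Finset.sum_apply, Pi.smul_apply, smul_eq_mul]
    simp only [Pi.smul_apply, smul_eq_mul]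
    have h3 : (M.det • (1 : Matrix ι ι ℤ)) j k = M.det * (Pi.single j 1 : ι → ℤ) k := by
      rw [Matrix.smul_apply, smul_eq_mul, Matrix.one_apply, Pi.single_apply]
      congr 1
      simp only [eq_comm]
    rw [← h3, ← h2]
    rfl
  set S : Finset ι := Finset.univ.filter fun i => ((e i : C) : ι → ℚ) ∈ B with hS
  have hSD : ∀ i ∈ S, v i ∈ D := by
    intro i hi
    exact hu2 _ (Finset.mem_filter.1 hi).2
  have hSne : S ≠ Finset.univ := by
    intro h
    have h1 : M.mulVec (fun _ => 1) = 0 := by
      funext i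
      have h2 := hD _ (hSD i (by rw [h]; exact Finset.mem_univ i))
      simp only [Matrix.mulVec, dotProduct, mul_one]
      exact h2
    obtain ⟨i⟩ := ‹Nonempty ι›
    have h3 := Matrix.exists_mulVec_eq_zero_iff.1 ⟨fun _ => 1, fun h4 => one_ne_zero (congrFun h4 i), h1⟩
    exact hdet h3
  refine ⟨M.det.natAbs, Int.natAbs_pos.2 hdet, ?_, fun x hx => ?_⟩
  · have h1 := abs_det_le M
    have h2 : ∏ i, ∑ j, |M i j| ≤ ∏ i, if i ∈ S then (b : ℤ) else 1 := by
      refine Finset.prod_le_prod (fun i _ => Finset.sum_nonneg fun j _ => abs_nonneg _) ?_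
      intro i _
      split_ifs with hi
      · exact hb _ (hSD i hi)
      · have h3 : ((e i : C) : ι → ℚ) ∉ B := fun h => hi (Finset.mem_filter.2 ⟨Finset.mem_univ _, h⟩)
        exact (hu3 _ h3).le
    rw [Finset.prod_ite_mem, Finset.univ_inter, Finset.prod_const] at h2
    have h3 := h1.trans h2
    have h4 : S.card ≤ Fintype.card ι - 1 := by
      have := Finset.card_lt_card (Finset.ssubset_univ_iff.2 hSne)
      rw [Finset.card_univ] at this
      omega
    rw [Int.abs_eq_natAbs] at h3
    have h5 : M.det.natAbs ≤ b ^ S.card := by exact_mod_cast h3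
    exact h5.trans (Nat.pow_le_pow_right hb1 h4)
  · rw [← hBs] at hx
    -- the coefficients
    set a : ι → ℤ := fun i => ∑ j, x j * M.adjugate j i with ha
    have hax : M.det • x = ∑ i, a i • v i := by
      have h1 : x = ∑ j, x j • (Pi.single j 1 : ι → ℤ) := by
        funext k
        simp [Finset.sum_apply, Pi.single_apply]
      calc M.det • x = ∑ j, x j • (M.det • (Pi.single j 1 : ι → ℤ)) := by
            conv_lhs => rw [h1]
            rw [Finset.smul_sum]
            refine Finset.sum_congr rfl fun j _ => ?_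
            rw [smul_comm]
        _ = ∑ i, a i • v i := by
            rw [Finset.sum_congr rfl fun j _ => by rw [hadj j, Finset.smul_sum], Finset.sum_comm]
            refine Finset.sum_congr rfl fun i _ => ?_
            rw [ha, Finset.sum_smul]
            refine Finset.sum_congr rfl fun j _ => ?_
            rw [smul_smul]
    have hzero : ∀ i, i ∉ S → a i = 0 := by
      intro i hi
      let bC : Module.Basis ι ℚ (ι → ℚ) := Module.Basis.mk hli (by
        rw [← htop, Submodule.span_le]
        intro y hy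
        refine Submodule.subset_span ⟨e.symm ⟨y, hy⟩, ?_⟩
        show toQ (u (e (e.symm ⟨y, hy⟩))) = y
        rw [Equiv.apply_symm_apply, hu1])
      have hbC : ∀ i, bC i = toQ (v i) := fun i => Module.Basis.mk_apply _ _ i
      have h1 : toQ x ∈ Submodule.span ℚ (bC '' (S : Set ι)) := by
        refine Submodule.span_mono ?_ hx
        intro y hy
        refine ⟨e.symm ⟨y, hBC hy⟩, ?_, ?_⟩
        · rw [Finset.mem_coe, hS, Finset.mem_filter, Equiv.apply_symm_apply]
          exact ⟨Finset.mem_univ _, hy⟩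
        · rw [hbC]
          show toQ (u (e (e.symm ⟨y, hBC hy⟩))) = y
          rw [Equiv.apply_symm_apply, hu1]
      rw [Module.Basis.mem_span_image] at h1
      have h2 : bC.repr (toQ x) i = 0 := by
        by_contra h
        exact hi (Finset.mem_coe.1 (h1 (Finset.mem_coe.2 (Finsupp.mem_support_iff.2 h))))
      have h3 : (M.det : ℚ) • toQ x = ∑ i, (a i : ℚ) • bC i := by
        rw [Finset.sum_congr rfl fun i _ => by rw [hbC i], ← hsumQ, ← hax]
        funext j
        simp [toQ]
      have h4 := congrArg (fun z => bC.repr z i) h3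
      simp only [map_smul, Finsupp.smul_apply, h2, smul_zero] at h4
      rw [bC.repr_sum_self] at h4
      exact_mod_cast h4.symm
    refine ⟨S, fun i => M.det.sign * a i, v, hSD, ?_⟩
    have h1 : ((M.det.natAbs : ℕ) : ℤ) = M.det.sign * M.det := by
      rw [← Int.abs_eq_natAbs, Int.sign_mul_self_eq_abs]
    rw [h1, mul_smul, hax, Finset.smul_sum]
    rw [← Finset.sum_subset (Finset.subset_univ S) (fun i _ hi => by
      rw [hzero i hi, zero_smul, smul_zero])]
    refine Finset.sum_congr rfl fun i _ => ?_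
    rw [smul_smul]


/-- duality: a vector orthogonal to all integral weights orthogonal to `D` is in the span -/
theorem mem_span_of_orth (D : Set (ι → ℤ)) (x : ι → ℤ)
    (h : ∀ w : ι → ℤ, (∀ v ∈ D, ∑ i, w i * v i = 0) → ∑ i, w i * x i = 0) :
    toQ x ∈ Submodule.span ℚ (toQ '' D) := by
  classical
  by_contra hx
  set W := Submodule.span ℚ (toQ '' D) with hW
  obtain ⟨f, hf⟩ := Module.exists_dual_forall_apply_ne_zero (K := ℚ) (M := (ι → ℚ) ⧸ W)
    (fun _ : Unit => W.mkQ (toQ x)) (fun _ h => by
      refine hx ?_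
      rw [Submodule.mkQ_apply, Submodule.Quotient.mk_eq_zero] at h
      exact h)
  let F : (ι → ℚ) →ₗ[ℚ] ℚ := f ∘ₗ W.mkQ
  obtain ⟨b, hb⟩ := IsLocalization.exist_integer_multiples_of_finite (nonZeroDivisors ℤ)
    (fun i => F (Pi.single i 1))
  choose w' hw' using hb
  have hb0 : ((b : ℤ) : ℚ) ≠ 0 := by
    have := nonZeroDivisors.coe_ne_zero b
    exact_mod_cast this
  have hw'' : ∀ i, (w' i : ℚ) = (b : ℤ) * F (Pi.single i 1) := by
    intro i
    have h6 := hw' i
    rw [Algebra.smul_def] at h6
    exact h6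
  have hFx : ∀ y : ι → ℚ, F y = ∑ i, y i * F (Pi.single i 1) := by
    intro y
    have h1 : y = ∑ l, y l • (Pi.single l 1 : ι → ℚ) := by
      funext k
      simp [Finset.sum_apply, Pi.single_apply]
    conv_lhs => rw [h1]
    rw [map_sum]
    refine Finset.sum_congr rfl fun i _ => ?_
    rw [map_smul, smul_eq_mul]
  have hWF : ∀ y ∈ W, F y = 0 := by
    intro y hy
    show f (W.mkQ y) = 0
    rw [Submodule.mkQ_apply, (Submodule.Quotient.mk_eq_zero W).2 hy, map_zero]
  have hval : ∀ v : ι → ℤ, ((∑ i, w' i * v i : ℤ) : ℚ) = (b : ℤ) * F (toQ v) := by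
    intro v
    rw [hFx, Finset.mul_sum]
    push_cast
    refine Finset.sum_congr rfl fun i _ => ?_
    rw [hw'' i]
    show _ = ((b : ℤ) : ℚ) * ((v i : ℚ) * F (Pi.single i 1))
    ring
  have h1 := h w' (fun v hv => by
    have h2 := hval v
    rw [hWF _ (Submodule.subset_span ⟨v, hv, rfl⟩), mul_zero] at h2
    exact_mod_cast h2)
  have h2 := hval x
  rw [h1, Int.cast_zero] at h2
  exact hf () ((mul_eq_zero.1 h2.symm).resolve_left hb0)

end lattice

end Pool.Agent.TH189.Aut
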