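import Pool.Agent.TH189.Sg7

/-!
The order of a linear symmetry of an indecomposable bundle of rank two.
-/

set_option autoImplicit false

open MvPolynomial H960VB H938TB Pool.Agent.W615 Pool.Agent.W467.FO

namespace Pool.Agent.TH189.Sg

open Module

theorem root_unit (u : ℂˣ) {D : ℤ} (hD : D ≠ 0) : ∃ t : ℂˣ, t ^ D = u := by
  obtain ⟨z, hz⟩ := IsAlgClosed.exists_pow_nat_eq (u : ℂ) (Int.natAbs_pos.2 hD)
  have hz0 : z ≠ 0 := by
    rintro rfl
    rw [zero_pow (Int.natAbs_ne_zero.2 hD)] at hz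
    exact u.ne_zero hz.symm
  have h1 : (Units.mk0 z hz0) ^ D.natAbs = u := by
    apply Units.ext
    rw [Units.val_pow_eq_pow_val, Units.val_mk0, hz]
  rcases Int.natAbs_eq D with h | h
  · refine ⟨Units.mk0 z hz0, ?_⟩
    rw [h, zpow_natCast]
    exact h1
  · refine ⟨(Units.mk0 z hz0)⁻¹, ?_⟩
    rw [h, zpow_neg, inv_zpow, inv_inv, zpow_natCast]
    exact h1

theorem smul_aux {A : Type} [AddCommGroup A] {u v t θ : A} {m : ℕ} {ω' G : ℤ}
    (h1 : m • (u - v - ω' • θ) = 0) (h2 : G • t = m • θ) : m • u - m • v = (G * ω') • t := by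
  have h3 : (G * ω') • t = m • (ω' • θ) := by
    rw [mul_comm, mul_smul, h2, smul_comm]
  rw [h3]
  rw [nsmul_sub, nsmul_sub, sub_eq_zero] at h1
  exact h1

variable {n : ℕ} {E : Bundle2 n}

/-- the degree of the products of two sections of a generated twist is positive -/
theorem deg_pos (hE : ¬ E.Splits) (W : Wedge (triv E)) {d : ℤ} (hd : GenW W d) :
    0 < d + d + W.κ.1 := by
  obtain ⟨G, G', hG, hG', hp⟩ := hd (fun _ => 1) (fun h => by simpa using congrFun h 0)
  have h0 : W.wd G G' ≠ 0 := fun h0 => hp (by rw [h0, map_zero])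
  obtain ⟨k, hk, hk'⟩ := (wd_homZ W hG hG').resolve_left h0
  by_contra hc
  have hk0 : k = 0 := by omega
  subst hk0
  have h1 : W.wd G G' = C (coeff 0 (W.wd G G')) := eq_C_of_mem hk'
  refine hE (splits_of_const W hG hG' (coeff 0 (W.wd G G')) ?_ h1)
  intro h2
  rw [h2, C_0] at h1
  exact h0 h1

/-- **The order of a linear symmetry.** -/
theorem bound_one (hn : 1 ≤ n) (hE : ¬ E.Splits) (W : Wedge (triv E)) {d : ℤ} (hd : GenW W d)
    {P P' : Matrix (Fin (n + 1)) (Fin (n + 1)) ℂ} {w₀ : Fin (n + 1) → ℤ}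
    (hP : P * P' = 1) (hstr : Str E P P' w₀) {g : Matrix (Fin (n + 1)) (Fin (n + 1)) ℂ}
    (hg : IsUnit g) (O : GOp E g.mulVecLin) :
    ∃ (m : ℕ) (c t : ℂ), 0 < m ∧ m ≤ (6 * (d + d + W.κ.1).toNat) ^ n ∧ c ≠ 0 ∧ t ≠ 0 ∧
      g ^ m = c • (P * Matrix.diagonal (fun i => t ^ w₀ i) * P') := by
  classical
  obtain ⟨ι, hι, y, μ, hy, hμ⟩ := diag_main hP hstr hg O
  have hcard : Fintype.card ι = n + 1 := by
    have h1 := finrank_eq_card_basis y
    rw [finrank_fintype_fun_eq_card, Fintype.card_fin] at h1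
    exact h1.symm
  haveI : Nonempty ι := Fintype.card_pos_iff.1 (by omega)
  have hTi : Function.Injective g.mulVecLin := by
    intro x y h
    exact Matrix.mulVec_injective_iff_isUnit.2 hg h
  set c₁ := (d + d + W.κ.1).toNat with hc₁
  have hc1 : 1 ≤ c₁ := by
    have := deg_pos hE W hd
    omega
  set D : Set (ι → ℤ) := Aut.rel (3 * c₁) μ with hD
  -- weights
  have hlift : ∀ w : ι → ℤ, (∀ v ∈ D, ∑ i, w i * v i = 0) → LiftsTo E (matW y w) := by
    intro w hw
    refine lift_weights y W hn hE hd O hTi hy w fun u u' h1 h2 h3 => ?_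
    have h4 := hw _ ⟨u, u', h1, h2, h3, rfl⟩
    have h5 : ∑ i, w i * ((u i : ℤ) - u' i) = ∑ i, w i * (u i : ℤ) - ∑ i, w i * (u' i : ℤ) := by
      rw [← Finset.sum_sub_distrib]
      refine Finset.sum_congr rfl fun i _ => by ring
    rw [h5] at h4
    exact sub_eq_zero.1 h4
  obtain ⟨m, hm, hmb, hmul⟩ := Aut.exists_multiple_unif D (fun v hv => Aut.rel_sum hv) (6 * c₁)
    (by omega) (fun v hv => by
      have := Aut.rel_abs hv
      have h2 : 2 * (3 * c₁) = 6 * c₁ := by ring
      rwa [h2] at this)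
  rw [hcard, Nat.add_sub_cancel] at hmb
  -- the character
  set U : ι → ℂˣ := fun i => Units.mk0 (μ i) (hμ i) with hU
  let χ : (ι → ℤ) →ₗ[ℤ] Additive ℂˣ := Fintype.linearCombination ℤ fun i => Additive.ofMul (U i)
  have hχ : ∀ x : ι → ℤ, χ x = ∑ i, x i • Additive.ofMul (U i) := fun x => rfl
  have hχs : ∀ i, χ (Pi.single i 1) = Additive.ofMul (U i) := by
    intro i
    rw [hχ, Finset.sum_eq_single i]
    · rw [Pi.single_eq_same, one_smul]
    · intro j _ hj
      rw [Pi.single_eq_of_ne hj, zero_smul]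
    · intro h
      exact absurd (Finset.mem_univ _) h
  have hχD : ∀ v ∈ D, χ v = 0 := by
    intro v hv
    have h1 := Aut.rel_prod hμ hv
    rw [hχ]
    apply Additive.toMul.injective
    rw [toMul_sum, toMul_zero]
    apply Units.ext
    rw [Units.coe_prod, Units.val_one, ← h1]
    refine Finset.prod_congr rfl fun i _ => ?_
    rw [← ofMul_zpow, toMul_ofMul, Units.val_zpow_eq_zpow_val]
    rfl
  have hker : ∀ x : ι → ℤ, (∀ w : ι → ℤ, (∀ v ∈ D, ∑ i, w i * v i = 0) → ∑ i, w i * x i = 0) →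
      m • χ x = 0 := by
    intro x hx
    obtain ⟨S, c, v, hv, h1⟩ := hmul x (Aut.mem_span_of_orth D x hx)
    rw [← natCast_zsmul, ← map_zsmul, h1, map_sum]
    refine Finset.sum_eq_zero fun t ht => ?_
    rw [map_zsmul, hχD _ (hv t ht), smul_zero]
  obtain ⟨i0⟩ := ‹Nonempty ι›
  by_cases hA : ∀ w : ι → ℤ, (∀ v ∈ D, ∑ i, w i * v i = 0) → ∀ i j, w i = w j
  · -- all powers are scalar
    have h1 : ∀ i, μ i ^ m = μ i0 ^ m := by
      intro i
      have h2 := hker (Pi.single i 1 - Pi.single i0 1) (fun w hw => by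
        have h3 : ∀ k, w k * (Pi.single i 1 - Pi.single i0 1 : ι → ℤ) k =
            w k * (Pi.single i 1 : ι → ℤ) k - w k * (Pi.single i0 1 : ι → ℤ) k := by
          intro k
          rw [Pi.sub_apply, mul_sub]
        rw [Finset.sum_congr rfl fun k _ => h3 k, Finset.sum_sub_distrib]
        simp only [Pi.single_apply, mul_ite, mul_one, mul_zero, Finset.sum_ite_eq',
          Finset.mem_univ, if_true]
        rw [hA w hw i i0, sub_self])
      rw [map_sub, hχs, hχs, nsmul_sub, sub_eq_zero, ← ofMul_pow, ← ofMul_pow] at h2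
      have h3 := congrArg Units.val (Additive.ofMul.injective h2)
      simpa [hU] using h3
    refine ⟨m, μ i0 ^ m, 1, hm, hmb, pow_ne_zero _ (hμ i0), one_ne_zero,
      pow_of_basis y hy m _ _ fun i => ?_⟩
    have h4 : tw' P P' w₀ 1 = 1 := by
      rw [tw']
      have : (fun i => (1 : ℂ) ^ w₀ i) = fun _ => 1 := funext fun i => one_zpow _
      rw [this, Matrix.diagonal_one, Matrix.mul_one, hP]
    rw [h1, h4, Matrix.transpose_one, Matrix.one_mulVec]
  · push Not at hA
    obtain ⟨w₁, hw₁, i1, j1, h11⟩ := hA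
    have hco : ∀ w : ι → ℤ, (∀ v ∈ D, ∑ i, w i * v i = 0) → ∃ a b : ℂ, ∀ i, (w i : ℂ) • y i =
        a • (P * Matrix.diagonal (fun i => (w₀ i : ℂ)) * P').transpose.mulVec (y i) + b • y i := by
      intro w hw
      obtain ⟨a, b, hab⟩ := hstr _ (hlift w hw)
      refine ⟨a, b, fun i => ?_⟩
      rw [← matW_mulVec, hab, Matrix.transpose_add, Matrix.transpose_smul, Matrix.transpose_smul,
        Matrix.transpose_one, Matrix.add_mulVec, Matrix.smul_mulVec, Matrix.smul_mulVec,
        Matrix.one_mulVec]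
    obtain ⟨a, b, hab⟩ := hco w₁ hw₁
    have ha0 : a ≠ 0 := by
      rintro rfl
      have h1 : ∀ i, (w₁ i : ℂ) = b := by
        intro i
        have h2 := hab i
        rw [zero_smul, zero_add] at h2
        exact smul_left_injective ℂ (y.ne_zero i) h2
      apply h11
      have h2 : (w₁ i1 : ℂ) = w₁ j1 := by rw [h1, h1]
      exact_mod_cast h2
    have hS : ∀ i, (P * Matrix.diagonal (fun i => (w₀ i : ℂ)) * P').transpose.mulVec (y i) =
        (a⁻¹ * ((w₁ i : ℂ) - b)) • y i := by
      intro i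
      have h1 := hab i
      rw [mul_smul, sub_smul, h1, add_sub_cancel_right, smul_smul, inv_mul_cancel₀ ha0, one_smul]
    have hω := fun i => eigen_int hP (y.ne_zero i) (hS i)
    choose ω hω1 hω2 using hω
    have hS' : ∀ i, (P * Matrix.diagonal (fun i => (w₀ i : ℂ)) * P').transpose.mulVec (y i) =
        (ω i : ℂ) • y i := fun i => by rw [hS, hω1]
    have hlin : ∀ w : ι → ℤ, (∀ v ∈ D, ∑ i, w i * v i = 0) → ∃ a b : ℂ, ∀ i,
        (w i : ℂ) = a * ω i + b := by
      intro w hw
      obtain ⟨a, b', h⟩ := hco w hw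
      refine ⟨a, b', fun i => ?_⟩
      have h1 := h i
      rw [hS', smul_smul, ← add_smul] at h1
      exact smul_left_injective ℂ (y.ne_zero i) h1
    have hker' : ∀ x : ι → ℤ, ∑ i, x i = 0 → ∑ i, ω i * x i = 0 → m • χ x = 0 := by
      intro x h1 h2
      refine hker x fun w hw => ?_
      obtain ⟨a, b, hab⟩ := hlin w hw
      have h3 : ((∑ i, w i * x i : ℤ) : ℂ) = a * ((∑ i, ω i * x i : ℤ) : ℂ) +
          b * ((∑ i, x i : ℤ) : ℂ) := by
        push_cast
        rw [Finset.mul_sum, Finset.mul_sum, ← Finset.sum_add_distrib]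
        refine Finset.sum_congr rfl fun i _ => ?_
        rw [hab i]
        ring
      rw [h1, h2, Int.cast_zero, mul_zero, mul_zero, add_zero] at h3
      exact_mod_cast h3
    -- Bezout
    obtain ⟨G, hG⟩ := (IsPrincipalIdealRing.principal
      (Ideal.span (Set.range fun i => ω i - ω i0))).principal
    have hGm : G ∈ Ideal.span (Set.range fun i => ω i - ω i0) := by
      rw [hG]
      exact Submodule.mem_span_singleton_self G
    obtain ⟨α, hα⟩ := Ideal.mem_span_range_iff_exists_fun.1 hGm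
    have hdiv : ∀ i, ∃ k, ω i - ω i0 = G * k := by
      intro i
      have h1 : ω i - ω i0 ∈ Ideal.span (Set.range fun i => ω i - ω i0) :=
        Ideal.subset_span ⟨i, rfl⟩
      rw [hG] at h1
      obtain ⟨k, hk⟩ := Submodule.mem_span_singleton.1 h1
      exact ⟨k, by rw [← hk, smul_eq_mul, mul_comm]⟩
    choose ω' hω' using hdiv
    have hG0 : G ≠ 0 := by
      rintro rfl
      obtain ⟨a, b, hab⟩ := hlin w₁ hw₁
      apply h11
      have h1 : ∀ i, ω i = ω i0 := by
        intro i
        have := hω' i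
        rw [zero_mul] at this
        omega
      have h2 : (w₁ i1 : ℂ) = w₁ j1 := by rw [hab, hab, h1 i1, h1 j1]
      exact_mod_cast h2
    set θ : ι → ℤ := ∑ p, α p • (Pi.single p 1 - Pi.single i0 1 : ι → ℤ) with hθ
    have hsum1 : ∀ p, ∑ k, (Pi.single p 1 - Pi.single i0 1 : ι → ℤ) k = 0 := by
      intro p
      simp [Finset.sum_sub_distrib]
    have hsum2 : ∀ p, ∑ k, ω k * (Pi.single p 1 - Pi.single i0 1 : ι → ℤ) k = ω p - ω i0 := by
      intro p
      simp [mul_sub, Finset.sum_sub_distrib, Pi.single_apply]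
    have hθ1 : ∑ k, θ k = 0 := by
      rw [hθ]
      simp only [Finset.sum_apply, Pi.smul_apply, smul_eq_mul]
      rw [Finset.sum_comm]
      refine Finset.sum_eq_zero fun p _ => ?_
      rw [← Finset.mul_sum, hsum1, mul_zero]
    have hθ2 : ∑ k, ω k * θ k = G := by
      rw [hθ, ← hα]
      simp only [Finset.sum_apply, Pi.smul_apply, smul_eq_mul, Finset.mul_sum]
      rw [Finset.sum_comm]
      refine Finset.sum_congr rfl fun p _ => ?_
      rw [← hsum2 p, Finset.mul_sum]
      refine Finset.sum_congr rfl fun k _ => by ring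
    obtain ⟨t, ht⟩ := root_unit (Additive.toMul (m • χ θ)) hG0
    have ht' : G • Additive.ofMul t = m • χ θ := by
      rw [← ofMul_zpow, ht]
      rfl
    have hmain : ∀ l, m • Additive.ofMul (U l) - m • Additive.ofMul (U i0) =
        (ω l - ω i0) • Additive.ofMul t := by
      intro l
      have h1 := hker' ((Pi.single l 1 - Pi.single i0 1 : ι → ℤ) - ω' l • θ) (by
        simp only [Pi.sub_apply, Pi.smul_apply, smul_eq_mul, Finset.sum_sub_distrib]
        rw [← Finset.mul_sum, hθ1]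
        simp) (by
        have h2 : ∀ k, ω k * ((Pi.single l 1 - Pi.single i0 1 : ι → ℤ) - ω' l • θ) k =
            ω k * (Pi.single l 1 - Pi.single i0 1 : ι → ℤ) k - ω' l * (ω k * θ k) := by
          intro k
          rw [Pi.sub_apply, Pi.smul_apply, smul_eq_mul]
          ring
        rw [Finset.sum_congr rfl fun k _ => h2 k, Finset.sum_sub_distrib, hsum2, ← Finset.mul_sum,
          hθ2, hω' l]
        ring)
      rw [map_sub, map_sub, hχs, hχs, map_zsmul] at h1
      rw [hω' l]
      exact smul_aux h1 ht'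
    set c : ℂˣ := U i0 ^ m * t ^ (-ω i0) with hc
    have hfin : ∀ l, U l ^ m = c * t ^ ω l := by
      intro l
      have h1 := hmain l
      rw [← ofMul_pow, ← ofMul_pow, ← ofMul_zpow, ← ofMul_div] at h1
      have h2 := Additive.ofMul.injective h1
      rw [div_eq_iff_eq_mul] at h2
      rw [h2, hc, zpow_sub, zpow_neg, mul_comm (t ^ ω l * _), mul_assoc, mul_comm (t ^ ω l)]
    refine ⟨m, c, t, hm, hmb, c.ne_zero, t.ne_zero, pow_of_basis y hy m _ _ fun i => ?_⟩
    have h4 : μ i ^ m = (c : ℂ) * (t : ℂ) ^ ω i := by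
      have h5 := congrArg Units.val (hfin i)
      rw [Units.val_pow_eq_pow_val, Units.val_mul, Units.val_zpow_eq_zpow_val] at h5
      exact h5
    rw [h4, hω2, smul_smul]

end Pool.Agent.TH189.Sg
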