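import Pool.Agent.TH189.Sg8

/-!
The linear symmetries of a bundle form a group which normalises the liftable vector fields.
-/

set_option autoImplicit false

open MvPolynomial H960VB H938TB Pool.Agent.W615 Pool.Agent.W467.FO

namespace Pool.Agent.TH189.Sg

open Module

variable {n : ℕ} {E : Bundle2 n}

/-- composition of lifts -/
noncomputable def gcomp {T T' : (Fin (n + 1) → ℂ) →ₗ[ℂ] (Fin (n + 1) → ℂ)} (O : GOp E T)
    (O' : GOp E T') : GOp E (T' ∘ₗ T) where
  D G := O.D (O'.D G)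
  sec d G h := O.sec d _ (O'.sec d G h)
  add d G G' h h' := by
    rw [O'.add d G G' h h']
    exact O.add d _ _ (O'.sec d G h) (O'.sec d G' h')
  mul d e p G h hp := by
    rw [O'.mul d e p G h hp, O.mul d e _ _ (O'.sec d G h) (homZ_lsub T' hp), lsub_comp]
  inj d G h h0 := O'.inj d G h (O.inj d _ (O'.sec d G h) h0)

/-- the symmetries -/
def Sym (E : Bundle2 n) (g : Matrix (Fin (n + 1)) (Fin (n + 1)) ℂ) : Prop :=
  IsUnit g ∧ Nonempty (GOp E g.mulVecLin)

theorem Sym.mul {g h : Matrix (Fin (n + 1)) (Fin (n + 1)) ℂ} (hg : Sym E g) (hh : Sym E h) :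
    Sym E (g * h) := by
  obtain ⟨hg, ⟨O⟩⟩ := hg
  obtain ⟨hh, ⟨O'⟩⟩ := hh
  refine ⟨hg.mul hh, ⟨?_⟩⟩
  rw [Matrix.mulVecLin_mul]
  exact gcomp O' O

theorem gop_eq {T : (Fin (n + 1) → ℂ) →ₗ[ℂ] (Fin (n + 1) → ℂ)} (O : GOp E T) {d : ℤ}
    {G H : Vec E.a n} (hG : Sec E d G) (hH : Sec E d H) (h : O.D G = O.D H) : G = H := by
  have h1 := phiD_injective O d (a₁ := ⟨G, hG⟩) (a₂ := ⟨H, hH⟩) (Subtype.ext h)
  exact congrArg Subtype.val h1

theorem gop_surj {T : (Fin (n + 1) → ℂ) →ₗ[ℂ] (Fin (n + 1) → ℂ)} (O : GOp E T) {d : ℤ}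
    {G : Vec E.a n} (hG : Sec E d G) : ∃ H, Sec E d H ∧ O.D H = G := by
  obtain ⟨H, hH⟩ := LinearMap.surjective_of_injective (phiD_injective O d) ⟨G, hG⟩
  exact ⟨H.1, H.2, congrArg Subtype.val hH⟩

/-- the degree of a nonzero section -/
theorem deg_unique {d e : ℤ} {G : Vec E.a n} (hG : Sec E d G) (hG' : Sec E e G)
    (h0 : ∃ i, G i ≠ 0) : d = e := by
  obtain ⟨i, hi⟩ := h0
  obtain ⟨k, hk, hk'⟩ := (hG.homZ i).resolve_left hi
  obtain ⟨k', hk1, hk1'⟩ := (hG'.homZ i).resolve_left hi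
  have h3 := hk'.inj_right hk1' hi
  omega

/-- the inverse of a lift -/
theorem exists_ginv {T T' : (Fin (n + 1) → ℂ) →ₗ[ℂ] (Fin (n + 1) → ℂ)} (O : GOp E T)
    (hTT : T' ∘ₗ T = LinearMap.id) :
    ∃ O' : GOp E T', ∀ d G, Sec E d G → O.D (O'.D G) = G := by
  classical
  have hsub : ∀ p : MvPolynomial (Fin (n + 1)) ℂ, lsub T (lsub T' p) = p := by
    intro p
    rw [lsub_comp, hTT]
    apply MvPolynomial.funext
    intro x
    rw [eval_lsub]
    rfl
  have hO0 : O.D (fun _ => 0) = fun _ => 0 := by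
    have h1 := O.mul 0 0 0 (fun _ => 0) sec_zero (Or.inl rfl)
    have h2 : (fun i : Fin E.a => (0 : MvPolynomial (Fin (n + 1)) ℂ) * (fun _ => 0) i) =
        fun _ => 0 := by
      funext i
      rw [zero_mul]
    rw [h2] at h1
    rw [h1]
    funext i
    rw [map_zero, zero_mul]
  have hex : ∀ G : Vec E.a n, ∃ H : Vec E.a n, (∀ d, Sec E d G → Sec E d H) ∧
      ((∃ d, Sec E d G) → O.D H = G) := by
    intro G
    by_cases h : ∃ d, Sec E d G
    · obtain ⟨d, hd⟩ := h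
      by_cases h0 : ∃ i, G i ≠ 0
      · obtain ⟨H, hH, hH'⟩ := gop_surj O hd
        refine ⟨H, fun e he => ?_, fun _ => hH'⟩
        rw [← deg_unique hd he h0]
        exact hH
      · push Not at h0
        have h1 : G = fun _ => 0 := funext h0
        refine ⟨fun _ => 0, fun e _ => sec_zero, fun _ => ?_⟩
        rw [hO0, h1]
    · exact ⟨0, fun d hd => absurd ⟨d, hd⟩ h, fun h' => absurd h' h⟩
  choose D hD hD' using hex
  have hDD : ∀ {d : ℤ} {G : Vec E.a n}, Sec E d G → O.D (D G) = G := fun {d G} h => hD' G ⟨d, h⟩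
  refine ⟨{ D := D, sec := fun d G h => hD G d h, add := ?_, mul := ?_, inj := ?_ },
    fun d G h => hDD h⟩
  · intro d G G' h h'
    refine gop_eq O (hD _ d (sec_add h h')) (sec_add (hD G d h) (hD G' d h')) ?_
    rw [hDD (sec_add h h'), O.add d _ _ (hD G d h) (hD G' d h'), hDD h, hDD h']
  · intro d e p G h hp
    refine gop_eq O (hD _ _ (sec_mul hp h)) (sec_mul (homZ_lsub T' hp) (hD G d h)) ?_
    rw [hDD (sec_mul hp h), O.mul d e _ _ (hD G d h) (homZ_lsub T' hp), hDD h, hsub]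
  · intro d G h h0 i
    have h1 : D G = fun _ => 0 := funext h0
    have h2 := hDD h
    rw [h1, hO0] at h2
    exact (congrFun h2 i).symm

theorem Sym.inv {g : Matrix (Fin (n + 1)) (Fin (n + 1)) ℂ} (hg : Sym E g) : Sym E g⁻¹ := by
  obtain ⟨hg, ⟨O⟩⟩ := hg
  have hdet : IsUnit g.det := (Matrix.isUnit_iff_isUnit_det g).1 hg
  obtain ⟨O', -⟩ := exists_ginv (T' := (g⁻¹).mulVecLin) O (by
    rw [← Matrix.mulVecLin_mul, Matrix.nonsing_inv_mul g hdet, Matrix.mulVecLin_one])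
  exact ⟨(Matrix.isUnit_nonsing_inv_iff).2 hg, ⟨O'⟩⟩

/-- **The symmetries normalise the liftable vector fields.** -/
theorem conj_lifts {g N : Matrix (Fin (n + 1)) (Fin (n + 1)) ℂ} (hg : Sym E g)
    (hN : LiftsTo E N) : LiftsTo E (g * N * g⁻¹) := by
  obtain ⟨hg, ⟨O⟩⟩ := hg
  obtain ⟨R⟩ := hN
  have hdet : IsUnit g.det := (Matrix.isUnit_iff_isUnit_det g).1 hg
  have e1 : g⁻¹ * g = 1 := Matrix.nonsing_inv_mul g hdet
  have e2 : g * g⁻¹ = 1 := Matrix.mul_nonsing_inv g hdet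
  have c1 : (g⁻¹).mulVecLin ∘ₗ g.mulVecLin = LinearMap.id := by
    rw [← Matrix.mulVecLin_mul, e1, Matrix.mulVecLin_one]
  have c2 : g.mulVecLin ∘ₗ (g⁻¹).mulVecLin = LinearMap.id := by
    rw [← Matrix.mulVecLin_mul, e2, Matrix.mulVecLin_one]
  obtain ⟨O', hO'⟩ := exists_ginv (T' := (g⁻¹).mulVecLin) O c1
  have hO'' : ∀ {d : ℤ} {G : Vec E.a n}, Sec E d G → O'.D (O.D G) = G := by
    intro d G h
    refine gop_eq O (O'.sec d _ (O.sec d G h)) h ?_
    rw [hO' d _ (O.sec d G h)]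
  have hsub : ∀ p : MvPolynomial (Fin (n + 1)) ℂ, lsub (g⁻¹).mulVecLin (lsub g.mulVecLin p) = p := by
    intro p
    rw [lsub_comp, c2]
    apply MvPolynomial.funext
    intro x
    rw [eval_lsub]
    rfl
  have hvf : ∀ p : MvPolynomial (Fin (n + 1)) ℂ, lsub g.mulVecLin (vf (g * N * g⁻¹) p) =
      vf N (lsub g.mulVecLin p) := by
    refine lsub_der _ fun i => ?_
    rw [lsub_vf, lsub_X, map_sum]
    have h1 : ∀ t, (g * N * g⁻¹).mulVec (g.mulVecLin (Pi.single t 1)) i = (g * N) i t := by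
      intro t
      rw [Matrix.mulVecLin_apply, Matrix.mulVec_mulVec, mul_assoc (g * N), e1, mul_one,
        Matrix.mulVec_single_one]
      rfl
    have h2 : ∀ t, vf N (C (g.mulVecLin (Pi.single t 1) i) * X t) =
        ∑ j, C (g i t * N t j) * X j := by
      intro t
      rw [Derivation.leibniz, vf_X, derivation_C, smul_zero, add_zero, smul_eq_mul,
        Finset.mul_sum]
      refine Finset.sum_congr rfl fun j _ => ?_
      rw [Matrix.mulVecLin_apply, Matrix.mulVec_single_one, C_mul, mul_assoc]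
      rfl
    rw [Finset.sum_congr rfl fun t _ => by rw [h1 t], Finset.sum_congr rfl fun t _ => h2 t,
      Finset.sum_comm]
    refine Finset.sum_congr rfl fun j _ => ?_
    rw [Matrix.mul_apply, map_sum, Finset.sum_mul]
  refine ⟨{ D := fun G => O'.D (R.D (O.D G)), sec := ?_, add := ?_, leib := ?_ }⟩
  · intro d G h
    exact O'.sec d _ (R.sec d _ (O.sec d G h))
  · intro d G G' h h'
    rw [O.add d G G' h h', R.add d _ _ (O.sec d G h) (O.sec d G' h'),
      O'.add d _ _ (R.sec d _ (O.sec d G h)) (R.sec d _ (O.sec d G' h'))]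
  · intro d e p G h hp
    have s1 := O.sec d G h
    have s2 := R.sec d _ s1
    have hq := homZ_lsub g.mulVecLin hp
    rw [O.mul d e p G h hp, R.leib d e _ _ s1 hq, O'.add (e + d) _ _
      (sec_mul (vf_homZ N hq) s1) (sec_mul hq s2), O'.mul d e _ _ s1 (vf_homZ N hq),
      O'.mul d e _ _ s2 hq, hO'' h, hsub, ← hvf, hsub]

end Pool.Agent.TH189.Sg
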